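import Mathlib
import Pool.Agent.W420.BF.Defs

/-!
# Quadruple covers of bridgeless graphs of carving width at most six

Definitions and statements of the parts.  `cut`, `bd` and `Tr` (binary trees, `Tr.set`, `Tr.Nodup`,
`Tr.Width`) are those of `Pool.Agent.W420.BF.Defs`.
-/

set_option autoImplicit false

open Finset

namespace Pool.Agent.T2h40.CW6

open Pool.Agent.W420.BF (cut bd Tr)

/-- `c` covers each edge exactly four times, and the parity condition holds at the vertices in `X`. -/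
def Cov {V E : Type} [Fintype E] (s t : E → V) (X : Set V) (c : Fin 6 → E → ZMod 2) : Prop :=
  (∀ e, (univ.filter fun i => c i e = 1).card = 4) ∧ ∀ v ∈ X, ∀ i, bd s t (c i) v = 0

open Classical in
/-- The edges that join `X` and `Y`. -/
noncomputable def jn {V E : Type} [Fintype E] (s t : E → V) (X Y : Set V) : Finset E :=
  univ.filter (fun e => (s e ∈ X ∧ t e ∈ Y) ∨ (s e ∈ Y ∧ t e ∈ X))

/-- An abstract cut function: `d Z` edges leave `Z`, and `e X Y` edges join `X` and `Y`.  All cuts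
have at least three edges, and the cuts with three edges are trivial. -/
structure Sys (V : Type) where
  U : Set V
  d : Set V → ℕ
  e : Set V → Set V → ℕ
  symm : ∀ X Y, e X Y = e Y X
  add : ∀ X Y Z, Disjoint X Y → Disjoint X Z → Disjoint Y Z → e (X ∪ Y) Z = e X Z + e Y Z
  dun : ∀ X Y, Disjoint X Y → d (X ∪ Y) + 2 * e X Y = d X + d Y
  dcomp : ∀ X, X ⊆ U → e X (U \ X) = d X
  dU : d U = 0
  three : ∀ Z, Z ⊆ U → Z.Nonempty → (U \ Z).Nonempty → 3 ≤ d Z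
  triv : ∀ Z, Z ⊆ U → d Z = 3 → (∃ v, Z = {v}) ∨ (∃ v, U \ Z = {v})

/-- The induction hypothesis: what is known about the predicate `H`, and which facts give the
conclusion `C`. -/
structure Hyp {V : Type} (S : Sys V) (H : Set V → Prop) (C : Prop) : Prop where
  leaf : ∀ v ∈ S.U, H {v}
  join : ∀ X Y, X ⊆ S.U → Y ⊆ S.U → Disjoint X Y → X.Nonempty → Y.Nonempty → H X → H Y →
    S.d X ≤ 6 → S.d Y ≤ 6 → 1 ≤ S.e X Y → 4 ≤ S.d (X ∪ Y) → S.d (X ∪ Y) ≤ 6 → H (X ∪ Y)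
  last : ∀ w ∈ S.U, H (S.U \ {w}) → C
  fin : ∀ X Y, X ⊆ S.U → Y ⊆ S.U → Disjoint X Y → X.Nonempty → Y.Nonempty → H X → H Y →
    S.d (X ∪ Y) = 3 →
    (S.d X = 3 ∧ S.d Y = 4 ∨ S.d X = 4 ∧ S.d Y = 5 ∨ S.d X = 5 ∧ S.d Y = 6) →
    (∃ w ∈ S.U, X ∪ Y = S.U \ {w}) → C
  fin0 : ∀ X Y, X ⊆ S.U → Y ⊆ S.U → Disjoint X Y → X.Nonempty → Y.Nonempty → H X → H Y →
    S.d X = 3 → S.d Y = 3 → S.e X Y = 0 → (∃ w ∈ S.U, X ∪ Y = S.U \ {w}) → C

/-- `A` is connected. -/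
def Sys.Conn {V : Type} (S : Sys V) (A : Set V) : Prop :=
  ∀ A₁ A₂, Disjoint A₁ A₂ → A₁.Nonempty → A₂.Nonempty → A₁ ∪ A₂ = A → 1 ≤ S.e A₁ A₂

/-- If `A` is connected and does not contain at least two elements of `U` then `H A`. -/
def Cl {V : Type} (S : Sys V) (H : Set V → Prop) (A : Set V) : Prop :=
  S.Conn A → (∃ x ∈ S.U \ A, ∃ y ∈ S.U \ A, x ≠ y) → H A

/-- **STEP**. -/
def S_STEP : Prop := ∀ (V : Type) (S : Sys V) (H : Set V → Prop) (C : Prop), Hyp S H C →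
  ∀ L R, L ⊆ S.U → R ⊆ S.U → Disjoint L R → L.Nonempty → R.Nonempty → S.d L ≤ 6 → S.d R ≤ 6 →
    S.d (L ∪ R) ≤ 6 → Cl S H L → Cl S H R → Cl S H (L ∪ R)

/-- **FINAL**: the two vertices `w, w'` are removed last. -/
def S_FINAL : Prop := ∀ (V : Type) (S : Sys V) (H : Set V → Prop) (C : Prop), Hyp S H C →
  ∀ w w' : V, w ∈ S.U → w' ∈ S.U → w ≠ w' → ∀ O, O = S.U \ {w, w'} → O.Nonempty →
    S.d O ≤ 6 → S.d {w} ≤ 6 → S.d {w'} ≤ 6 → Cl S H O →
    ((∃ z, O = {z}) ∨ ∃ O₁ O₂, Disjoint O₁ O₂ ∧ O₁.Nonempty ∧ O₂.Nonempty ∧ O₁ ∪ O₂ = O ∧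
      S.d O₁ ≤ 6 ∧ S.d O₂ ≤ 6 ∧ Cl S H O₁ ∧ Cl S H O₂) → C

/-- **TREE**: the induction along a carving `T` of width at most six (`d` is at most six on the sets
of the subtrees).  -/
def S_TREE : Prop := S_STEP → S_FINAL →
  ∀ (V E : Type) [Fintype E] (s t : E → V) (l r : Tr V) (S : Sys V) (H : Set V → Prop) (C : Prop),
    Hyp S H C → (Tr.node l r).Nodup → (Tr.node l r).Width s t 6 → S.U = (Tr.node l r).set →
    (∀ Z, Z ⊆ S.U → S.d Z = (cut s t Z).card) → C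

/-- **BASE**: the cut function of a graph. -/
def S_BASE : Prop := ∀ (V E : Type) [Fintype E] (s t : E → V) (U : Set V),
  (∀ e, s e ∈ U ∧ t e ∈ U) →
  (∀ Z ⊆ U, Z.Nonempty → (U \ Z).Nonempty → 3 ≤ (cut s t Z).card) →
  (∀ Z ⊆ U, (cut s t Z).card = 3 → (∃ v, Z = {v}) ∨ (∃ v, U \ Z = {v})) →
  ∃ S : Sys V, S.U = U ∧ (∀ Z, S.d Z = (cut s t Z).card) ∧
    ∀ X Y, Disjoint X Y → S.e X Y = (jn s t X Y).card

/-- The theorem for graphs all of whose cuts have at least three edges and whose cuts with three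
edges are trivial. -/
def S_THREE : Prop := ∀ (V E : Type) [Fintype E] (s t : E → V) (T : Tr V),
  T.Nodup → T.Width s t 6 → (∀ e, s e ∈ T.set ∧ t e ∈ T.set) →
  (∀ Z ⊆ T.set, Z.Nonempty → (T.set \ Z).Nonempty → 3 ≤ (cut s t Z).card) →
  (∀ Z ⊆ T.set, (cut s t Z).card = 3 → (∃ v, Z = {v}) ∨ (∃ v, T.set \ Z = {v})) →
  ∃ c, Cov s t T.set c

/-- **RED**: reduction of the cuts with zero, two and three edges. -/
def S_RED : Prop := S_THREE → ∀ (V E : Type) [Fintype E] (s t : E → V) (T : Tr V),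
  T.Nodup → T.Width s t 6 → (∀ e, s e ∈ T.set ∧ t e ∈ T.set) →
  (∀ Z : Set V, (cut s t Z).card ≠ 1) → ∃ c, Cov s t T.set c

end Pool.Agent.T2h40.CW6
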