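import Pool.Agent.T2h40.CW6.All
import Pool.Agent.Y425.BF6.Cor

/-!
Six cycles covering each edge four times, in the form used for consequences.
-/

set_option autoImplicit false

open Finset

namespace Pool.Agent.T2h40.CW6

open Pool.Agent.W420.BF (cut bd Tr)

theorem six_cvw {V E : Type} [Fintype E] [DecidableEq V] [DecidableEq E] (s t : E → V)
    (hbridge : ∀ Z : Set V, (cut s t Z).card ≠ 1)
    (hwidth : ∃ T : Tr V, T.set = Set.univ ∧ T.Nodup ∧ T.Width s t 6) :
    Pool.Agent.Y425.BF6.Cor.Six s t := by
  obtain ⟨T, hT, hN, hW⟩ := hwidth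
  obtain ⟨c, hc⟩ := covers V E s t T hN hW
    (fun e => by rw [hT]; exact ⟨Set.mem_univ _, Set.mem_univ _⟩) hbridge
  rw [hT] at hc
  obtain ⟨C, h1, h2⟩ := fin_cover6 s t c hc
  refine ⟨C, fun i v => ?_, fun e => ?_⟩
  · have h3 := h1 i v
    rw [sum_add_distrib, ← card_filter, ← card_filter]
    have e1 : (C i).filter (fun e => s e = v) = @Finset.filter E (fun e => s e = v)
      (fun a => Classical.propDecidable _) (C i) := by ext e; simp
    have e2 : (C i).filter (fun e => t e = v) = @Finset.filter E (fun e => t e = v)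
      (fun a => Classical.propDecidable _) (C i) := by ext e; simp
    rw [e1, e2]
    exact h3
  · refine Eq.trans ?_ (h2 e)
    congr 1
    ext i
    simp

end Pool.Agent.T2h40.CW6
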