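import Pool.Agent.T2h40.CW6.R32
import Pool.Agent.T2h40.CW6.Pm

set_option autoImplicit false
set_option maxRecDepth 100000

namespace Pool.Agent.T2h40.CW6

/-! Arrangements for 3 ends, 2 outer ones. -/

noncomputable def bAG32 : BT := (.nd (.nd (.lf (nat_lit 0))
(.lf (nat_lit 4)))
(.lf (nat_lit 2)))

noncomputable def bAQ32 : BT := (.nd (.nd (.lf (nat_lit 0))
(.lf (nat_lit 0)))
(.lf (nat_lit 0)))

noncomputable def bSS32 : BT := (.nd (.nd (.lf (nat_lit 3))
(.lf (nat_lit 6)))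
(.lf (nat_lit 5)))

/-- the check -/
noncomputable def ca32 (i c : ℕ) : Bool := cArrs Y0 3 2 1 rl32 (NP0 3) (pp0 3) (jt0 3) 3 bSS32.get bAG32.get bAQ32.get i c

theorem cSS32 : ∀ S < 2 ^ 3, ((Finset.range 3).filter fun p => S.testBit p = true).card = 2 → ∃ e < 3, bSS32.get e = S := by decide +kernel

theorem ca32_0 : ca32 0 1 = true := by decide +kernel

end Pool.Agent.T2h40.CW6
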