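import Pool.Agent.T2h40.CW6.R41
import Pool.Agent.T2h40.CW6.Pm

set_option autoImplicit false
set_option maxRecDepth 100000

namespace Pool.Agent.T2h40.CW6

/-! Arrangements for 4 ends, 1 outer ones. -/

noncomputable def bAG41 : BT := (.nd (.nd (.nd (.lf (nat_lit 2))
(.lf (nat_lit 7)))
(.nd (.lf (nat_lit 0xb))
(.lf (nat_lit 9))))
(.nd (.nd (.lf (nat_lit 6))
(.lf (nat_lit 6)))
(.nd (.lf (nat_lit 0x10))
(.lf (nat_lit 0xa)))))

noncomputable def bAQ41 : BT := (.nd (.nd (.nd (.lf (nat_lit 0))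
(.lf (nat_lit 1)))
(.nd (.lf (nat_lit 0))
(.lf (nat_lit 1))))
(.nd (.nd (.lf (nat_lit 0))
(.lf (nat_lit 1)))
(.nd (.lf (nat_lit 0))
(.lf (nat_lit 1)))))

noncomputable def bSS41 : BT := (.nd (.nd (.lf (nat_lit 1))
(.lf (nat_lit 4)))
(.nd (.lf (nat_lit 2))
(.lf (nat_lit 8))))

/-- the check -/
noncomputable def ca41 (i c : ℕ) : Bool := cArrs Y0 4 1 2 rl41 (NP0 4) (pp0 4) (jt0 4) 4 bSS41.get bAG41.get bAQ41.get i c

theorem cSS41 : ∀ S < 2 ^ 4, ((Finset.range 4).filter fun p => S.testBit p = true).card = 1 → ∃ e < 4, bSS41.get e = S := by decide +kernel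

theorem ca41_0 : ca41 0 2 = true := by decide +kernel

end Pool.Agent.T2h40.CW6
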