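import Pool.Agent.T2h40.CW6.R42
import Pool.Agent.T2h40.CW6.Pm

set_option autoImplicit false
set_option maxRecDepth 100000

namespace Pool.Agent.T2h40.CW6

/-! Arrangements for 4 ends, 2 outer ones. -/

noncomputable def bAG42 : BT := (.nd (.nd (.nd (.nd (.lf (nat_lit 0))
(.lf (nat_lit 6)))
(.lf (nat_lit 0xc)))
(.nd (.nd (.lf (nat_lit 6))
(.lf (nat_lit 0xc)))
(.lf (nat_lit 0))))
(.nd (.nd (.nd (.lf (nat_lit 2))
(.lf (nat_lit 7)))
(.lf (nat_lit 0x12)))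
(.nd (.nd (.lf (nat_lit 7))
(.lf (nat_lit 0x12)))
(.lf (nat_lit 2)))))

noncomputable def bAQ42 : BT := (.nd (.nd (.nd (.nd (.lf (nat_lit 3))
(.lf (nat_lit 1)))
(.lf (nat_lit 0)))
(.nd (.nd (.lf (nat_lit 0))
(.lf (nat_lit 2)))
(.lf (nat_lit 2))))
(.nd (.nd (.nd (.lf (nat_lit 0))
(.lf (nat_lit 1)))
(.lf (nat_lit 3)))
(.nd (.nd (.lf (nat_lit 0))
(.lf (nat_lit 2)))
(.lf (nat_lit 2)))))

noncomputable def bSS42 : BT := (.nd (.nd (.nd (.lf (nat_lit 3))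
(.lf (nat_lit 0xa)))
(.lf (nat_lit 6)))
(.nd (.nd (.lf (nat_lit 5))
(.lf (nat_lit 0xc)))
(.lf (nat_lit 9))))

/-- the check -/
noncomputable def ca42 (i c : ℕ) : Bool := cArrs Y0 4 2 4 rl42 (NP0 4) (pp0 4) (jt0 4) 6 bSS42.get bAG42.get bAQ42.get i c

theorem cSS42 : ∀ S < 2 ^ 4, ((Finset.range 4).filter fun p => S.testBit p = true).card = 2 → ∃ e < 6, bSS42.get e = S := by decide +kernel

theorem ca42_0 : ca42 0 2 = true := by decide +kernel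

end Pool.Agent.T2h40.CW6
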