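import Pool.Agent.T2h40.CW6.R43
import Pool.Agent.T2h40.CW6.Pm

set_option autoImplicit false
set_option maxRecDepth 100000

namespace Pool.Agent.T2h40.CW6

/-! Arrangements for 4 ends, 3 outer ones. -/

noncomputable def bAG43 : BT := (.nd (.nd (.nd (.lf (nat_lit 2))
(.lf (nat_lit 6)))
(.nd (.lf (nat_lit 0xb))
(.lf (nat_lit 0xd))))
(.nd (.nd (.lf (nat_lit 7))
(.lf (nat_lit 7)))
(.nd (.lf (nat_lit 0x11))
(.lf (nat_lit 0xe)))))

noncomputable def bAQ43 : BT := (.nd (.nd (.nd (.lf (nat_lit 0))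
(.lf (nat_lit 1)))
(.nd (.lf (nat_lit 0))
(.lf (nat_lit 1))))
(.nd (.nd (.lf (nat_lit 0))
(.lf (nat_lit 1)))
(.nd (.lf (nat_lit 0))
(.lf (nat_lit 1)))))

noncomputable def bSS43 : BT := (.nd (.nd (.lf (nat_lit 7))
(.lf (nat_lit 0xd)))
(.nd (.lf (nat_lit 0xb))
(.lf (nat_lit 0xe))))

/-- the check -/
noncomputable def ca43 (i c : ℕ) : Bool := cArrs Y0 4 3 2 rl43 (NP0 4) (pp0 4) (jt0 4) 4 bSS43.get bAG43.get bAQ43.get i c

theorem cSS43 : ∀ S < 2 ^ 4, ((Finset.range 4).filter fun p => S.testBit p = true).card = 3 → ∃ e < 4, bSS43.get e = S := by decide +kernel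

theorem ca43_0 : ca43 0 2 = true := by decide +kernel

end Pool.Agent.T2h40.CW6
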