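import Pool.Agent.T2h40.CW6.R51
import Pool.Agent.T2h40.CW6.Pm

set_option autoImplicit false
set_option maxRecDepth 100000

namespace Pool.Agent.T2h40.CW6

/-! Arrangements for 5 ends, 1 outer ones. -/

noncomputable def bAG51 : BT := (.nd (.nd (.nd (.nd (.nd (.lf (nat_lit 0xd))
(.lf (nat_lit 0x24)))
(.lf (nat_lit 0x34)))
(.nd (.lf (nat_lit 0x5c))
(.lf (nat_lit 0x26))))
(.nd (.nd (.nd (.lf (nat_lit 5))
(.lf (nat_lit 0x1d)))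
(.lf (nat_lit 0)))
(.nd (.lf (nat_lit 0x44))
(.lf (nat_lit 0x5c)))))
(.nd (.nd (.nd (.nd (.lf (nat_lit 0x13))
(.lf (nat_lit 0x51)))
(.lf (nat_lit 0x32)))
(.nd (.lf (nat_lit 0x1a))
(.lf (nat_lit 0x53))))
(.nd (.nd (.nd (.lf (nat_lit 0x53))
(.lf (nat_lit 0x4b)))
(.lf (nat_lit 0x14)))
(.nd (.lf (nat_lit 0x11))
(.lf (nat_lit 0xd))))))

noncomputable def bAQ51 : BT := (.nd (.nd (.nd (.nd (.nd (.lf (nat_lit 1))
(.lf (nat_lit 2)))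
(.lf (nat_lit 4)))
(.nd (.lf (nat_lit 1))
(.lf (nat_lit 6))))
(.nd (.nd (.nd (.lf (nat_lit 7))
(.lf (nat_lit 5)))
(.lf (nat_lit 3)))
(.nd (.lf (nat_lit 4))
(.lf (nat_lit 0)))))
(.nd (.nd (.nd (.nd (.lf (nat_lit 1))
(.lf (nat_lit 5)))
(.lf (nat_lit 4)))
(.nd (.lf (nat_lit 4))
(.lf (nat_lit 0))))
(.nd (.nd (.nd (.lf (nat_lit 1))
(.lf (nat_lit 5)))
(.lf (nat_lit 6)))
(.nd (.lf (nat_lit 4))
(.lf (nat_lit 5))))))

noncomputable def bSS51 : BT := (.nd (.nd (.nd (.lf (nat_lit 1))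
(.lf (nat_lit 0x10)))
(.lf (nat_lit 4)))
(.nd (.lf (nat_lit 2))
(.lf (nat_lit 8))))

/-- the check -/
noncomputable def ca51 (i c : ℕ) : Bool := cArrs Y0 5 1 8 rl51 (NP0 5) (pp0 5) (jt0 5) 5 bSS51.get bAG51.get bAQ51.get i c

theorem cSS51 : ∀ S < 2 ^ 5, ((Finset.range 5).filter fun p => S.testBit p = true).card = 1 → ∃ e < 5, bSS51.get e = S := by decide +kernel

theorem ca51_0 : ca51 0 4 = true := by decide +kernel

end Pool.Agent.T2h40.CW6
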