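import Pool.Agent.T2h40.CW6.R52
import Pool.Agent.T2h40.CW6.Pm

set_option autoImplicit false
set_option maxRecDepth 100000

namespace Pool.Agent.T2h40.CW6

/-! Arrangements for 5 ends, 2 outer ones. -/

noncomputable def bAG52 : BT := (.nd (.nd (.nd (.nd (.nd (.nd (.lf (nat_lit 0xd))
(.lf (nat_lit 0x30)))
(.lf (nat_lit 0x36)))
(.nd (.lf (nat_lit 0x48))
(.lf (nat_lit 0x14))))
(.nd (.nd (.nd (.lf (nat_lit 0x14))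
(.lf (nat_lit 0x17)))
(.lf (nat_lit 0)))
(.nd (.lf (nat_lit 0x1e))
(.lf (nat_lit 0x3d)))))
(.nd (.nd (.nd (.nd (.lf (nat_lit 0x30))
(.lf (nat_lit 0x29)))
(.lf (nat_lit 0x6c)))
(.nd (.lf (nat_lit 0))
(.lf (nat_lit 0x17))))
(.nd (.nd (.nd (.lf (nat_lit 0x17))
(.lf (nat_lit 0x52)))
(.lf (nat_lit 8)))
(.nd (.lf (nat_lit 0x34))
(.lf (nat_lit 0x24))))))
(.nd (.nd (.nd (.nd (.nd (.lf (nat_lit 0x1c))
(.lf (nat_lit 9)))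
(.lf (nat_lit 0x32)))
(.nd (.lf (nat_lit 0x53))
(.lf (nat_lit 0x26))))
(.nd (.nd (.nd (.lf (nat_lit 0x31))
(.lf (nat_lit 0x27)))
(.lf (nat_lit 2)))
(.nd (.lf (nat_lit 0x21))
(.lf (nat_lit 0x53)))))
(.nd (.nd (.nd (.nd (.lf (nat_lit 9))
(.lf (nat_lit 0x3c)))
(.lf (nat_lit 0x6b)))
(.nd (.lf (nat_lit 0x11))
(.lf (nat_lit 0x27))))
(.nd (.nd (.nd (.lf (nat_lit 0x27))
(.lf (nat_lit 0x6a)))
(.lf (nat_lit 9)))
(.nd (.lf (nat_lit 0x3f))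
(.lf (nat_lit 5)))))))

noncomputable def bAQ52 : BT := (.nd (.nd (.nd (.nd (.nd (.nd (.lf (nat_lit 1))
(.lf (nat_lit 2)))
(.lf (nat_lit 6)))
(.nd (.lf (nat_lit 8))
(.lf (nat_lit 7))))
(.nd (.nd (.nd (.lf (nat_lit 5))
(.lf (nat_lit 0xc)))
(.lf (nat_lit 3)))
(.nd (.lf (nat_lit 9))
(.lf (nat_lit 7)))))
(.nd (.nd (.nd (.nd (.lf (nat_lit 8))
(.lf (nat_lit 2)))
(.lf (nat_lit 9)))
(.nd (.lf (nat_lit 9))
(.lf (nat_lit 4))))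
(.nd (.nd (.nd (.lf (nat_lit 5))
(.lf (nat_lit 0xb)))
(.lf (nat_lit 0xd)))
(.nd (.lf (nat_lit 6))
(.lf (nat_lit 2))))))
(.nd (.nd (.nd (.nd (.nd (.lf (nat_lit 8))
(.lf (nat_lit 0xb)))
(.lf (nat_lit 6)))
(.nd (.lf (nat_lit 1))
(.lf (nat_lit 7))))
(.nd (.nd (.nd (.lf (nat_lit 8))
(.lf (nat_lit 2)))
(.lf (nat_lit 3)))
(.nd (.lf (nat_lit 9))
(.lf (nat_lit 0)))))
(.nd (.nd (.nd (.nd (.lf (nat_lit 5))
(.lf (nat_lit 0xc)))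
(.lf (nat_lit 9)))
(.nd (.lf (nat_lit 6))
(.lf (nat_lit 7))))
(.nd (.nd (.nd (.lf (nat_lit 5))
(.lf (nat_lit 0xa)))
(.lf (nat_lit 4)))
(.nd (.lf (nat_lit 6))
(.lf (nat_lit 0xa)))))))

noncomputable def bSS52 : BT := (.nd (.nd (.nd (.nd (.lf (nat_lit 3))
(.lf (nat_lit 0x14)))
(.lf (nat_lit 0xa)))
(.nd (.lf (nat_lit 6))
(.lf (nat_lit 0x11))))
(.nd (.nd (.nd (.lf (nat_lit 5))
(.lf (nat_lit 0x18)))
(.lf (nat_lit 0xc)))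
(.nd (.lf (nat_lit 9))
(.lf (nat_lit 0x12)))))

/-- the check -/
noncomputable def ca52 (i c : ℕ) : Bool := cArrs Y0 5 2 14 rl52 (NP0 5) (pp0 5) (jt0 5) 10 bSS52.get bAG52.get bAQ52.get i c

theorem cSS52 : ∀ S < 2 ^ 5, ((Finset.range 5).filter fun p => S.testBit p = true).card = 2 → ∃ e < 10, bSS52.get e = S := by decide +kernel

theorem ca52_0 : ca52 0 4 = true := by decide +kernel

end Pool.Agent.T2h40.CW6
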