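import Pool.Agent.T2h40.CW6.R53
import Pool.Agent.T2h40.CW6.Pm

set_option autoImplicit false
set_option maxRecDepth 100000

namespace Pool.Agent.T2h40.CW6

/-! Arrangements for 5 ends, 3 outer ones. -/

noncomputable def bAG53 : BT := (.nd (.nd (.nd (.nd (.nd (.nd (.lf (nat_lit 0))
(.lf (nat_lit 0x1c)))
(.lf (nat_lit 0x2d)))
(.nd (.lf (nat_lit 0x64))
(.lf (nat_lit 0x17))))
(.nd (.nd (.nd (.lf (nat_lit 0x1b))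
(.lf (nat_lit 0x40)))
(.lf (nat_lit 0)))
(.nd (.lf (nat_lit 0x11))
(.lf (nat_lit 0x64)))))
(.nd (.nd (.nd (.nd (.lf (nat_lit 0x1c))
(.lf (nat_lit 0x24)))
(.lf (nat_lit 0x44)))
(.nd (.lf (nat_lit 0))
(.lf (nat_lit 0x4b))))
(.nd (.nd (.nd (.lf (nat_lit 0x46))
(.lf (nat_lit 0x56)))
(.lf (nat_lit 0x16)))
(.nd (.lf (nat_lit 0x32))
(.lf (nat_lit 7))))))
(.nd (.nd (.nd (.nd (.nd (.lf (nat_lit 0xd))
(.lf (nat_lit 0x29)))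
(.lf (nat_lit 0x2e)))
(.nd (.lf (nat_lit 0x70))
(.lf (nat_lit 0x2a))))
(.nd (.nd (.nd (.lf (nat_lit 0x2f))
(.lf (nat_lit 0x65)))
(.lf (nat_lit 9)))
(.nd (.lf (nat_lit 0x34))
(.lf (nat_lit 0x70)))))
(.nd (.nd (.nd (.nd (.lf (nat_lit 0x30))
(.lf (nat_lit 0x3a)))
(.lf (nat_lit 0x70)))
(.nd (.lf (nat_lit 6))
(.lf (nat_lit 0x53))))
(.nd (.nd (.nd (.lf (nat_lit 0x53))
(.lf (nat_lit 0x73)))
(.lf (nat_lit 0x34)))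
(.nd (.lf (nat_lit 0x1a))
(.lf (nat_lit 0x13)))))))

noncomputable def bAQ53 : BT := (.nd (.nd (.nd (.nd (.nd (.nd (.lf (nat_lit 3))
(.lf (nat_lit 0xd)))
(.lf (nat_lit 0xb)))
(.nd (.lf (nat_lit 1))
(.lf (nat_lit 6))))
(.nd (.nd (.nd (.lf (nat_lit 1))
(.lf (nat_lit 7)))
(.lf (nat_lit 5)))
(.nd (.lf (nat_lit 8))
(.lf (nat_lit 2)))))
(.nd (.nd (.nd (.nd (.lf (nat_lit 0xa))
(.lf (nat_lit 4)))
(.lf (nat_lit 8)))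
(.nd (.lf (nat_lit 0xb))
(.lf (nat_lit 0xc))))
(.nd (.nd (.nd (.lf (nat_lit 0xa))
(.lf (nat_lit 9)))
(.lf (nat_lit 6)))
(.nd (.lf (nat_lit 8))
(.lf (nat_lit 9))))))
(.nd (.nd (.nd (.nd (.nd (.lf (nat_lit 1))
(.lf (nat_lit 4)))
(.lf (nat_lit 0xb)))
(.nd (.lf (nat_lit 3))
(.lf (nat_lit 6))))
(.nd (.nd (.nd (.lf (nat_lit 0xa))
(.lf (nat_lit 0xd)))
(.lf (nat_lit 6)))
(.nd (.lf (nat_lit 8))
(.lf (nat_lit 2)))))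
(.nd (.nd (.nd (.nd (.lf (nat_lit 0xa))
(.lf (nat_lit 0xd)))
(.lf (nat_lit 0xb)))
(.nd (.lf (nat_lit 0xb))
(.lf (nat_lit 0))))
(.nd (.nd (.nd (.lf (nat_lit 1))
(.lf (nat_lit 0xd)))
(.lf (nat_lit 0xc)))
(.nd (.lf (nat_lit 8))
(.lf (nat_lit 7)))))))

noncomputable def bSS53 : BT := (.nd (.nd (.nd (.nd (.lf (nat_lit 7))
(.lf (nat_lit 0x1a)))
(.lf (nat_lit 0x13)))
(.nd (.lf (nat_lit 0xd))
(.lf (nat_lit 0x16))))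
(.nd (.nd (.nd (.lf (nat_lit 0xb))
(.lf (nat_lit 0x1c)))
(.lf (nat_lit 0x15)))
(.nd (.lf (nat_lit 0xe))
(.lf (nat_lit 0x19)))))

/-- the check -/
noncomputable def ca53 (i c : ℕ) : Bool := cArrs Y0 5 3 14 rl53 (NP0 5) (pp0 5) (jt0 5) 10 bSS53.get bAG53.get bAQ53.get i c

theorem cSS53 : ∀ S < 2 ^ 5, ((Finset.range 5).filter fun p => S.testBit p = true).card = 3 → ∃ e < 10, bSS53.get e = S := by decide +kernel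

theorem ca53_0 : ca53 0 4 = true := by decide +kernel

end Pool.Agent.T2h40.CW6
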