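import Pool.Agent.T2h40.CW6.R54
import Pool.Agent.T2h40.CW6.Pm

set_option autoImplicit false
set_option maxRecDepth 100000

namespace Pool.Agent.T2h40.CW6

/-! Arrangements for 5 ends, 4 outer ones. -/

noncomputable def bAG54 : BT := (.nd (.nd (.nd (.nd (.nd (.lf (nat_lit 3))
(.lf (nat_lit 0x27)))
(.lf (nat_lit 0x3f)))
(.nd (.lf (nat_lit 0x71))
(.lf (nat_lit 0x53))))
(.nd (.nd (.nd (.lf (nat_lit 0xd))
(.lf (nat_lit 0x1c)))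
(.lf (nat_lit 0)))
(.nd (.lf (nat_lit 0x1a))
(.lf (nat_lit 0x71)))))
(.nd (.nd (.nd (.nd (.lf (nat_lit 0xc))
(.lf (nat_lit 0x24)))
(.lf (nat_lit 0x5e)))
(.nd (.lf (nat_lit 0x11))
(.lf (nat_lit 0x65))))
(.nd (.nd (.nd (.lf (nat_lit 0x65))
(.lf (nat_lit 0x30)))
(.lf (nat_lit 4)))
(.nd (.lf (nat_lit 0x36))
(.lf (nat_lit 0x29))))))

noncomputable def bAQ54 : BT := (.nd (.nd (.nd (.nd (.nd (.lf (nat_lit 2))
(.lf (nat_lit 4)))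
(.lf (nat_lit 6)))
(.nd (.lf (nat_lit 2))
(.lf (nat_lit 0))))
(.nd (.nd (.nd (.lf (nat_lit 1))
(.lf (nat_lit 7)))
(.lf (nat_lit 5)))
(.nd (.lf (nat_lit 6))
(.lf (nat_lit 3)))))
(.nd (.nd (.nd (.nd (.lf (nat_lit 2))
(.lf (nat_lit 4)))
(.lf (nat_lit 6)))
(.nd (.lf (nat_lit 6))
(.lf (nat_lit 0))))
(.nd (.nd (.nd (.lf (nat_lit 2))
(.lf (nat_lit 4)))
(.lf (nat_lit 5)))
(.nd (.lf (nat_lit 6))
(.lf (nat_lit 4))))))

noncomputable def bSS54 : BT := (.nd (.nd (.nd (.lf (nat_lit 0xf))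
(.lf (nat_lit 0x1e)))
(.lf (nat_lit 0x1b)))
(.nd (.lf (nat_lit 0x17))
(.lf (nat_lit 0x1d))))

/-- the check -/
noncomputable def ca54 (i c : ℕ) : Bool := cArrs Y0 5 4 8 rl54 (NP0 5) (pp0 5) (jt0 5) 5 bSS54.get bAG54.get bAQ54.get i c

theorem cSS54 : ∀ S < 2 ^ 5, ((Finset.range 5).filter fun p => S.testBit p = true).card = 4 → ∃ e < 5, bSS54.get e = S := by decide +kernel

theorem ca54_0 : ca54 0 4 = true := by decide +kernel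

end Pool.Agent.T2h40.CW6
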