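import Pool.Agent.T2h40.CW6.R62
import Pool.Agent.T2h40.CW6.Pm

set_option autoImplicit false
set_option maxRecDepth 100000

namespace Pool.Agent.T2h40.CW6

/-! Arrangements for 6 ends, 2 outer ones. -/

noncomputable def bAG62 : BT := (.nd (.nd (.nd (.nd (.nd (.nd (.nd (.nd (.nd (.nd (.nd (.lf (nat_lit 0))
(.lf (nat_lit 0x89)))
(.lf (nat_lit 0xff)))
(.nd (.nd (.lf (nat_lit 0x38))
(.lf (nat_lit 0x86)))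
(.lf (nat_lit 0x6e))))
(.nd (.nd (.nd (.lf (nat_lit 0x289))
(.lf (nat_lit 0x170)))
(.lf (nat_lit 0x90)))
(.nd (.nd (.lf (nat_lit 0x137))
(.lf (nat_lit 0x1a1)))
(.lf (nat_lit 0x182)))))
(.nd (.nd (.nd (.nd (.lf (nat_lit 0x121))
(.lf (nat_lit 0x21b)))
(.lf (nat_lit 0x4d)))
(.nd (.nd (.lf (nat_lit 0x26d))
(.lf (nat_lit 0x137)))
(.lf (nat_lit 0x153))))
(.nd (.nd (.nd (.lf (nat_lit 0x283))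
(.lf (nat_lit 0x58)))
(.lf (nat_lit 0x252)))
(.nd (.lf (nat_lit 0x2cd))
(.lf (nat_lit 0xf))))))
(.nd (.nd (.nd (.nd (.nd (.lf (nat_lit 0x20))
(.lf (nat_lit 0xe6)))
(.lf (nat_lit 0x1e)))
(.nd (.nd (.lf (nat_lit 0x51))
(.lf (nat_lit 0x8a)))
(.lf (nat_lit 0x44))))
(.nd (.nd (.nd (.lf (nat_lit 0x17e))
(.lf (nat_lit 0x257)))
(.lf (nat_lit 0x16d)))
(.nd (.lf (nat_lit 0xad))
(.lf (nat_lit 0x1ff)))))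
(.nd (.nd (.nd (.nd (.lf (nat_lit 0x8f))
(.lf (nat_lit 0x11a)))
(.lf (nat_lit 0xaa)))
(.nd (.nd (.lf (nat_lit 0x186))
(.lf (nat_lit 0x10a)))
(.lf (nat_lit 0x202))))
(.nd (.nd (.nd (.lf (nat_lit 0x257))
(.lf (nat_lit 0x21)))
(.lf (nat_lit 0x2d)))
(.nd (.lf (nat_lit 0xf))
(.lf (nat_lit 0x54)))))))
(.nd (.nd (.nd (.nd (.nd (.nd (.lf (nat_lit 2))
(.lf (nat_lit 0xab)))
(.lf (nat_lit 0x15)))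
(.nd (.nd (.lf (nat_lit 0xff))
(.lf (nat_lit 0x4f)))
(.lf (nat_lit 0x126))))
(.nd (.nd (.nd (.lf (nat_lit 0x2af))
(.lf (nat_lit 0x22f)))
(.lf (nat_lit 0x84)))
(.nd (.lf (nat_lit 0x17f))
(.lf (nat_lit 0x1a6)))))
(.nd (.nd (.nd (.nd (.lf (nat_lit 0x18f))
(.lf (nat_lit 0x1ab)))
(.lf (nat_lit 0x187)))
(.nd (.nd (.lf (nat_lit 0x6b))
(.lf (nat_lit 0x4e)))
(.lf (nat_lit 0x26b))))
(.nd (.nd (.nd (.lf (nat_lit 0x201))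
(.lf (nat_lit 0x20)))
(.lf (nat_lit 0x1d)))
(.nd (.lf (nat_lit 0x28c))
(.lf (nat_lit 0xc))))))
(.nd (.nd (.nd (.nd (.nd (.lf (nat_lit 0x34))
(.lf (nat_lit 0x17c)))
(.lf (nat_lit 0x24f)))
(.nd (.nd (.lf (nat_lit 0x1f8))
(.lf (nat_lit 0x141)))
(.lf (nat_lit 0x8e))))
(.nd (.nd (.nd (.lf (nat_lit 0x1e2))
(.lf (nat_lit 4)))
(.lf (nat_lit 0x276)))
(.nd (.lf (nat_lit 0x19e))
(.lf (nat_lit 0x22d)))))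
(.nd (.nd (.nd (.nd (.lf (nat_lit 0x17d))
(.lf (nat_lit 0x13d)))
(.lf (nat_lit 0x254)))
(.nd (.nd (.lf (nat_lit 0x248))
(.lf (nat_lit 0x1a8)))
(.lf (nat_lit 0x14c))))
(.nd (.nd (.nd (.lf (nat_lit 0x3f))
(.lf (nat_lit 0x31)))
(.lf (nat_lit 0xa)))
(.nd (.lf (nat_lit 0x26))
(.lf (nat_lit 0x51))))))))
(.nd (.nd (.nd (.nd (.nd (.nd (.nd (.lf (nat_lit 0x21b))
(.lf (nat_lit 0x20b)))
(.lf (nat_lit 0x4e)))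
(.nd (.nd (.lf (nat_lit 0x1a4))
(.lf (nat_lit 0x1ce)))
(.lf (nat_lit 0x13d))))
(.nd (.nd (.nd (.lf (nat_lit 0x16))
(.lf (nat_lit 0x15b)))
(.lf (nat_lit 0x21)))
(.nd (.lf (nat_lit 0x7b))
(.lf (nat_lit 0xf4)))))
(.nd (.nd (.nd (.nd (.lf (nat_lit 0x265))
(.lf (nat_lit 0x26)))
(.lf (nat_lit 0x251)))
(.nd (.nd (.lf (nat_lit 0x2a7))
(.lf (nat_lit 0xa)))
(.lf (nat_lit 0x2e))))
(.nd (.nd (.nd (.lf (nat_lit 0x122))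
(.lf (nat_lit 0x236)))
(.lf (nat_lit 0xda)))
(.nd (.lf (nat_lit 0x1f6))
(.lf (nat_lit 0x179))))))
(.nd (.nd (.nd (.nd (.nd (.lf (nat_lit 0x90))
(.lf (nat_lit 0x2a1)))
(.lf (nat_lit 0x25e)))
(.nd (.nd (.lf (nat_lit 0x13d))
(.lf (nat_lit 0x2b)))
(.lf (nat_lit 0x22f))))
(.nd (.nd (.nd (.lf (nat_lit 0x4c))
(.lf (nat_lit 0x45)))
(.lf (nat_lit 0x1fc)))
(.nd (.lf (nat_lit 0x4a))
(.lf (nat_lit 0x69)))))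
(.nd (.nd (.nd (.nd (.lf (nat_lit 0x291))
(.lf (nat_lit 0x74)))
(.lf (nat_lit 0x12c)))
(.nd (.nd (.lf (nat_lit 0x11))
(.lf (nat_lit 0x47)))
(.lf (nat_lit 0x12f))))
(.nd (.nd (.nd (.lf (nat_lit 0x10b))
(.lf (nat_lit 0x218)))
(.lf (nat_lit 0x25c)))
(.nd (.lf (nat_lit 0xd6))
(.lf (nat_lit 0x8d)))))))
(.nd (.nd (.nd (.nd (.nd (.nd (.lf (nat_lit 0x13a))
(.lf (nat_lit 0x1d4)))
(.lf (nat_lit 0x1e1)))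
(.nd (.nd (.lf (nat_lit 0x1ea))
(.lf (nat_lit 0x1d3)))
(.lf (nat_lit 0xd5))))
(.nd (.nd (.nd (.lf (nat_lit 0x124))
(.lf (nat_lit 0x35)))
(.lf (nat_lit 0xb4)))
(.nd (.lf (nat_lit 0x23))
(.lf (nat_lit 0x10c)))))
(.nd (.nd (.nd (.nd (.lf (nat_lit 0x25f))
(.lf (nat_lit 0x1ca)))
(.lf (nat_lit 3)))
(.nd (.nd (.lf (nat_lit 0x2b3))
(.lf (nat_lit 0x15)))
(.lf (nat_lit 0x40))))
(.nd (.nd (.nd (.lf (nat_lit 0x192))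
(.lf (nat_lit 0x183)))
(.lf (nat_lit 0x244)))
(.nd (.lf (nat_lit 0xdd))
(.lf (nat_lit 0xd4))))))
(.nd (.nd (.nd (.nd (.nd (.lf (nat_lit 0x1e1))
(.lf (nat_lit 0x2b)))
(.lf (nat_lit 0x16c)))
(.nd (.nd (.lf (nat_lit 0x231))
(.lf (nat_lit 2)))
(.lf (nat_lit 0x205))))
(.nd (.nd (.nd (.lf (nat_lit 0x1f9))
(.lf (nat_lit 0xaa)))
(.lf (nat_lit 0x69)))
(.nd (.lf (nat_lit 0x144))
(.lf (nat_lit 0x17d)))))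
(.nd (.nd (.nd (.nd (.lf (nat_lit 8))
(.lf (nat_lit 0xb2)))
(.lf (nat_lit 0x73)))
(.nd (.nd (.lf (nat_lit 0xa7))
(.lf (nat_lit 0x44)))
(.lf (nat_lit 0x74))))
(.nd (.nd (.nd (.lf (nat_lit 0x136))
(.lf (nat_lit 0x1a5)))
(.lf (nat_lit 0xe4)))
(.nd (.lf (nat_lit 0x1cd))
(.lf (nat_lit 0x17a)))))))))
(.nd (.nd (.nd (.nd (.nd (.nd (.nd (.nd (.lf (nat_lit 0x1e))
(.lf (nat_lit 0x103)))
(.lf (nat_lit 0x4d)))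
(.nd (.nd (.lf (nat_lit 0x1bf))
(.lf (nat_lit 0x134)))
(.lf (nat_lit 0xdd))))
(.nd (.nd (.nd (.lf (nat_lit 0x2ac))
(.lf (nat_lit 0x39)))
(.lf (nat_lit 0x255)))
(.nd (.lf (nat_lit 0x1a1))
(.lf (nat_lit 0x5f)))))
(.nd (.nd (.nd (.nd (.lf (nat_lit 0x21b))
(.lf (nat_lit 0x233)))
(.lf (nat_lit 0x91)))
(.nd (.nd (.lf (nat_lit 0x268))
(.lf (nat_lit 0x138)))
(.lf (nat_lit 0x13d))))
(.nd (.nd (.nd (.lf (nat_lit 0x59))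
(.lf (nat_lit 0x15b)))
(.lf (nat_lit 0xf9)))
(.nd (.lf (nat_lit 0xa))
(.lf (nat_lit 0x47))))))
(.nd (.nd (.nd (.nd (.nd (.lf (nat_lit 0x22))
(.lf (nat_lit 0x185)))
(.lf (nat_lit 0x20e)))
(.nd (.nd (.lf (nat_lit 0xdd))
(.lf (nat_lit 0xad)))
(.lf (nat_lit 0x137))))
(.nd (.nd (.nd (.lf (nat_lit 0x2cc))
(.lf (nat_lit 0xb)))
(.lf (nat_lit 0xce)))
(.nd (.lf (nat_lit 0xfc))
(.lf (nat_lit 0x20)))))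
(.nd (.nd (.nd (.nd (.lf (nat_lit 0x6c))
(.lf (nat_lit 0x229)))
(.lf (nat_lit 0x2ab)))
(.nd (.nd (.lf (nat_lit 0x240))
(.lf (nat_lit 0)))
(.lf (nat_lit 0x253))))
(.nd (.nd (.nd (.lf (nat_lit 0x56))
(.lf (nat_lit 0x8a)))
(.lf (nat_lit 0x143)))
(.nd (.lf (nat_lit 0x64))
(.lf (nat_lit 0xe3)))))))
(.nd (.nd (.nd (.nd (.nd (.nd (.lf (nat_lit 0x122))
(.lf (nat_lit 0x27a)))
(.lf (nat_lit 0x28a)))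
(.nd (.nd (.lf (nat_lit 0x181))
(.lf (nat_lit 0x90)))
(.lf (nat_lit 0x107))))
(.nd (.nd (.nd (.lf (nat_lit 0x2a9))
(.lf (nat_lit 0xa8)))
(.lf (nat_lit 0xa2)))
(.nd (.lf (nat_lit 0x28e))
(.lf (nat_lit 0xc)))))
(.nd (.nd (.nd (.nd (.lf (nat_lit 0x1a0))
(.lf (nat_lit 0x206)))
(.lf (nat_lit 0xe1)))
(.nd (.nd (.lf (nat_lit 0x11a))
(.lf (nat_lit 0x200)))
(.lf (nat_lit 0x239))))
(.nd (.nd (.nd (.lf (nat_lit 0x67))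
(.lf (nat_lit 0xee)))
(.lf (nat_lit 0x89)))
(.nd (.lf (nat_lit 0x120))
(.lf (nat_lit 0x86))))))
(.nd (.nd (.nd (.nd (.nd (.lf (nat_lit 0x18d))
(.lf (nat_lit 0x218)))
(.lf (nat_lit 0x1cd)))
(.nd (.nd (.lf (nat_lit 0x175))
(.lf (nat_lit 0x106)))
(.lf (nat_lit 0x1e6))))
(.nd (.nd (.nd (.lf (nat_lit 0x5f))
(.lf (nat_lit 0x46)))
(.lf (nat_lit 0x12b)))
(.nd (.lf (nat_lit 0x39))
(.lf (nat_lit 0x50)))))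
(.nd (.nd (.nd (.nd (.lf (nat_lit 0x1bb))
(.lf (nat_lit 4)))
(.lf (nat_lit 0x206)))
(.nd (.nd (.lf (nat_lit 0x27e))
(.lf (nat_lit 0xc)))
(.lf (nat_lit 0x2a1))))
(.nd (.nd (.nd (.lf (nat_lit 0x1f9))
(.lf (nat_lit 0x16f)))
(.lf (nat_lit 0x8e)))
(.nd (.lf (nat_lit 0x1fc))
(.lf (nat_lit 0x111))))))))
(.nd (.nd (.nd (.nd (.nd (.nd (.nd (.lf (nat_lit 0x265))
(.lf (nat_lit 0xe)))
(.lf (nat_lit 0x2be)))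
(.nd (.nd (.lf (nat_lit 0x1a1))
(.lf (nat_lit 0x20)))
(.lf (nat_lit 0x3d))))
(.nd (.nd (.nd (.lf (nat_lit 0x10c))
(.lf (nat_lit 0x22b)))
(.lf (nat_lit 0x159)))
(.nd (.lf (nat_lit 0x95))
(.lf (nat_lit 0xd7)))))
(.nd (.nd (.nd (.nd (.lf (nat_lit 0xfd))
(.lf (nat_lit 0x82)))
(.lf (nat_lit 0xbd)))
(.nd (.nd (.lf (nat_lit 0x20))
(.lf (nat_lit 0x35)))
(.lf (nat_lit 0x65))))
(.nd (.nd (.nd (.lf (nat_lit 0x19f))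
(.lf (nat_lit 0x22c)))
(.lf (nat_lit 0xd8)))
(.nd (.lf (nat_lit 0xe5))
(.lf (nat_lit 0x135))))))
(.nd (.nd (.nd (.nd (.nd (.lf (nat_lit 0x28e))
(.lf (nat_lit 0x6e)))
(.lf (nat_lit 0xc)))
(.nd (.nd (.lf (nat_lit 0x3f))
(.lf (nat_lit 0x1e)))
(.lf (nat_lit 0x5d))))
(.nd (.nd (.nd (.lf (nat_lit 0xac))
(.lf (nat_lit 0xd8)))
(.lf (nat_lit 0x230)))
(.nd (.lf (nat_lit 0xd2))
(.lf (nat_lit 0xb9)))))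
(.nd (.nd (.nd (.nd (.lf (nat_lit 0xc4))
(.lf (nat_lit 0x83)))
(.lf (nat_lit 0x157)))
(.nd (.nd (.lf (nat_lit 0x1f8))
(.lf (nat_lit 0x13f)))
(.lf (nat_lit 0x8e))))
(.nd (.nd (.nd (.lf (nat_lit 0x171))
(.lf (nat_lit 3)))
(.lf (nat_lit 0x1a3)))
(.nd (.lf (nat_lit 0x260))
(.lf (nat_lit 0x200)))))))
(.nd (.nd (.nd (.nd (.nd (.nd (.lf (nat_lit 0x25f))
(.lf (nat_lit 0xd1)))
(.lf (nat_lit 1)))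
(.nd (.nd (.lf (nat_lit 0x255))
(.lf (nat_lit 0x21)))
(.lf (nat_lit 0x29))))
(.nd (.nd (.nd (.lf (nat_lit 0x4d))
(.lf (nat_lit 0xba)))
(.lf (nat_lit 0x267)))
(.nd (.lf (nat_lit 0x8a))
(.lf (nat_lit 0x134)))))
(.nd (.nd (.nd (.nd (.lf (nat_lit 0x55))
(.lf (nat_lit 0x8e)))
(.lf (nat_lit 0x1f8)))
(.nd (.nd (.lf (nat_lit 0x1fa))
(.lf (nat_lit 0x8a)))
(.lf (nat_lit 0xaf))))
(.nd (.nd (.nd (.lf (nat_lit 0x1b5))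
(.lf (nat_lit 0x2bc)))
(.lf (nat_lit 0x212)))
(.nd (.lf (nat_lit 0x282))
(.lf (nat_lit 0x1a3))))))
(.nd (.nd (.nd (.nd (.nd (.lf (nat_lit 4))
(.lf (nat_lit 0xf4)))
(.lf (nat_lit 0x1f)))
(.nd (.nd (.lf (nat_lit 0x70))
(.lf (nat_lit 0x44)))
(.lf (nat_lit 0x12a))))
(.nd (.nd (.nd (.lf (nat_lit 0x141))
(.lf (nat_lit 0x13c)))
(.lf (nat_lit 0x1b6)))
(.nd (.lf (nat_lit 0x1a0))
(.lf (nat_lit 0x240)))))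
(.nd (.nd (.nd (.nd (.lf (nat_lit 0x47))
(.lf (nat_lit 0x107)))
(.lf (nat_lit 0x35)))
(.nd (.nd (.lf (nat_lit 0x110))
(.lf (nat_lit 0x137)))
(.lf (nat_lit 0x1b7))))
(.nd (.nd (.nd (.lf (nat_lit 0x283))
(.lf (nat_lit 0x17)))
(.lf (nat_lit 0x26f)))
(.nd (.lf (nat_lit 0x228))
(.lf (nat_lit 0x5f))))))))))
(.nd (.nd (.nd (.nd (.nd (.nd (.nd (.nd (.nd (.lf (nat_lit 0xa))
(.lf (nat_lit 0x4d)))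
(.lf (nat_lit 0xb2)))
(.nd (.nd (.lf (nat_lit 0x129))
(.lf (nat_lit 0xac)))
(.lf (nat_lit 0xdb))))
(.nd (.nd (.nd (.lf (nat_lit 0x17f))
(.lf (nat_lit 0x28d)))
(.lf (nat_lit 0x1af)))
(.nd (.lf (nat_lit 0x84))
(.lf (nat_lit 0x2aa)))))
(.nd (.nd (.nd (.nd (.lf (nat_lit 0x1f7))
(.lf (nat_lit 0xe4)))
(.lf (nat_lit 0x16f)))
(.nd (.nd (.lf (nat_lit 0x148))
(.lf (nat_lit 0xd8)))
(.lf (nat_lit 0x236))))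
(.nd (.nd (.nd (.lf (nat_lit 0x1d3))
(.lf (nat_lit 0x15f)))
(.lf (nat_lit 0x3b)))
(.nd (.lf (nat_lit 1))
(.lf (nat_lit 0x1f))))))
(.nd (.nd (.nd (.nd (.nd (.lf (nat_lit 0x1e))
(.lf (nat_lit 0x21f)))
(.lf (nat_lit 0xe6)))
(.nd (.nd (.lf (nat_lit 0x140))
(.lf (nat_lit 0xd4)))
(.lf (nat_lit 0x1c1))))
(.nd (.nd (.nd (.lf (nat_lit 0x1a5))
(.lf (nat_lit 0xd)))
(.lf (nat_lit 0x2a4)))
(.nd (.lf (nat_lit 0x232))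
(.lf (nat_lit 0)))))
(.nd (.nd (.nd (.nd (.lf (nat_lit 0x141))
(.lf (nat_lit 0x135)))
(.lf (nat_lit 0xe4)))
(.nd (.nd (.lf (nat_lit 0xd4))
(.lf (nat_lit 0x138)))
(.lf (nat_lit 0x84))))
(.nd (.nd (.nd (.lf (nat_lit 0x101))
(.lf (nat_lit 0x62)))
(.lf (nat_lit 0x34)))
(.nd (.lf (nat_lit 0x195))
(.lf (nat_lit 0xc1)))))))
(.nd (.nd (.nd (.nd (.nd (.nd (.lf (nat_lit 0x24))
(.lf (nat_lit 0x186)))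
(.lf (nat_lit 0xdc)))
(.nd (.nd (.lf (nat_lit 0x98))
(.lf (nat_lit 0x13f)))
(.lf (nat_lit 0xbe))))
(.nd (.nd (.nd (.lf (nat_lit 0x109))
(.lf (nat_lit 0x1b)))
(.lf (nat_lit 0x16c)))
(.nd (.lf (nat_lit 0x210))
(.lf (nat_lit 0x255)))))
(.nd (.nd (.nd (.nd (.lf (nat_lit 0x17c))
(.lf (nat_lit 0xd8)))
(.lf (nat_lit 0x19c)))
(.nd (.nd (.lf (nat_lit 0x179))
(.lf (nat_lit 0xd5)))
(.lf (nat_lit 0x90))))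
(.nd (.nd (.nd (.lf (nat_lit 0x2c))
(.lf (nat_lit 0x1cc)))
(.lf (nat_lit 0x1f)))
(.nd (.lf (nat_lit 0x132))
(.lf (nat_lit 0xb))))))
(.nd (.nd (.nd (.nd (.nd (.lf (nat_lit 0x1cb))
(.lf (nat_lit 0x137)))
(.lf (nat_lit 0x83)))
(.nd (.nd (.lf (nat_lit 0x1ee))
(.lf (nat_lit 0x119)))
(.lf (nat_lit 0xaa))))
(.nd (.nd (.nd (.lf (nat_lit 0x277))
(.lf (nat_lit 0x88)))
(.lf (nat_lit 0xa1)))
(.nd (.lf (nat_lit 0x28d))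
(.lf (nat_lit 0xfd)))))
(.nd (.nd (.nd (.nd (.lf (nat_lit 0x1fe))
(.lf (nat_lit 0x22c)))
(.lf (nat_lit 0x1b8)))
(.nd (.nd (.lf (nat_lit 0x151))
(.lf (nat_lit 0x1a2)))
(.lf (nat_lit 0x23b))))
(.nd (.nd (.nd (.lf (nat_lit 0x14))
(.lf (nat_lit 0x22)))
(.lf (nat_lit 0xde)))
(.nd (.lf (nat_lit 0x37))
(.lf (nat_lit 0x122))))))))
(.nd (.nd (.nd (.nd (.nd (.nd (.nd (.lf (nat_lit 0xe9))
(.lf (nat_lit 0x205)))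
(.lf (nat_lit 0x231)))
(.nd (.nd (.lf (nat_lit 0x1e2))
(.lf (nat_lit 5)))
(.lf (nat_lit 0x16c))))
(.nd (.nd (.nd (.lf (nat_lit 0x6e))
(.lf (nat_lit 0x113)))
(.lf (nat_lit 0x1cb)))
(.nd (.lf (nat_lit 0xbc))
(.lf (nat_lit 0x4f)))))
(.nd (.nd (.nd (.nd (.lf (nat_lit 0x2b5))
(.lf (nat_lit 0x34)))
(.lf (nat_lit 0x57)))
(.nd (.nd (.lf (nat_lit 0xa1))
(.lf (nat_lit 0x1e)))
(.lf (nat_lit 0x48))))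
(.nd (.nd (.nd (.lf (nat_lit 0xdd))
(.lf (nat_lit 0xd9)))
(.lf (nat_lit 0x1d5)))
(.nd (.lf (nat_lit 0x136))
(.lf (nat_lit 0x6c))))))
(.nd (.nd (.nd (.nd (.nd (.lf (nat_lit 0x1e0))
(.lf (nat_lit 0x2d)))
(.lf (nat_lit 0x28c)))
(.nd (.nd (.lf (nat_lit 0x25f))
(.lf (nat_lit 0x73)))
(.lf (nat_lit 0x1b))))
(.nd (.nd (.nd (.lf (nat_lit 0x44))
(.lf (nat_lit 0x254)))
(.lf (nat_lit 0x45)))
(.nd (.lf (nat_lit 0x1ee))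
(.lf (nat_lit 0x81)))))
(.nd (.nd (.nd (.nd (.lf (nat_lit 0x57))
(.lf (nat_lit 0xdc)))
(.lf (nat_lit 0x37)))
(.nd (.nd (.lf (nat_lit 0x1fb))
(.lf (nat_lit 0x22)))
(.lf (nat_lit 0x1f8))))
(.nd (.nd (.nd (.lf (nat_lit 0x1fe))
(.lf (nat_lit 0x16c)))
(.lf (nat_lit 0x1e4)))
(.nd (.lf (nat_lit 0x242))
(.lf (nat_lit 0x16d)))))))
(.nd (.nd (.nd (.nd (.nd (.nd (.lf (nat_lit 0x13e))
(.lf (nat_lit 3)))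
(.lf (nat_lit 0x2c3)))
(.nd (.nd (.lf (nat_lit 0x1cf))
(.lf (nat_lit 0x38)))
(.lf (nat_lit 0x2bc))))
(.nd (.nd (.nd (.lf (nat_lit 0xb0))
(.lf (nat_lit 0x145)))
(.lf (nat_lit 0x35)))
(.nd (.lf (nat_lit 0x122))
(.lf (nat_lit 0x45)))))
(.nd (.nd (.nd (.nd (.lf (nat_lit 0x2a))
(.lf (nat_lit 0x4a)))
(.lf (nat_lit 0x9a)))
(.nd (.nd (.lf (nat_lit 0x132))
(.lf (nat_lit 0x80)))
(.lf (nat_lit 0x24))))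
(.nd (.nd (.nd (.lf (nat_lit 0x107))
(.lf (nat_lit 0x2ab)))
(.lf (nat_lit 0x1b6)))
(.nd (.lf (nat_lit 0x2c5))
(.lf (nat_lit 0xd8))))))
(.nd (.nd (.nd (.nd (.nd (.lf (nat_lit 0x293))
(.lf (nat_lit 0x195)))
(.lf (nat_lit 0xa2)))
(.nd (.nd (.lf (nat_lit 0x2be))
(.lf (nat_lit 0x37)))
(.lf (nat_lit 0x70))))
(.nd (.nd (.nd (.lf (nat_lit 0x11e))
(.lf (nat_lit 0x14f)))
(.lf (nat_lit 0xd6)))
(.nd (.lf (nat_lit 0x1ef))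
(.lf (nat_lit 0x168)))))
(.nd (.nd (.nd (.nd (.lf (nat_lit 0x1f))
(.lf (nat_lit 0xeb)))
(.lf (nat_lit 0xb4)))
(.nd (.nd (.lf (nat_lit 0x24))
(.lf (nat_lit 0x8a)))
(.lf (nat_lit 0x224))))
(.nd (.nd (.nd (.lf (nat_lit 0x14b))
(.lf (nat_lit 0x205)))
(.lf (nat_lit 0x283)))
(.nd (.lf (nat_lit 0x13d))
(.lf (nat_lit 0x22c)))))))))
(.nd (.nd (.nd (.nd (.nd (.nd (.nd (.nd (.lf (nat_lit 0x95))
(.lf (nat_lit 0xe4)))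
(.lf (nat_lit 0x103)))
(.nd (.nd (.lf (nat_lit 0x45))
(.lf (nat_lit 0x146)))
(.lf (nat_lit 0x16b))))
(.nd (.nd (.nd (.lf (nat_lit 0x255))
(.lf (nat_lit 0x15f)))
(.lf (nat_lit 0x16)))
(.nd (.lf (nat_lit 0x7a))
(.lf (nat_lit 0x20)))))
(.nd (.nd (.nd (.nd (.lf (nat_lit 0x23f))
(.lf (nat_lit 0x2bd)))
(.lf (nat_lit 0x2ac)))
(.nd (.nd (.lf (nat_lit 0xe1))
(.lf (nat_lit 0x1a)))
(.lf (nat_lit 0x2a2))))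
(.nd (.nd (.nd (.lf (nat_lit 0xb))
(.lf (nat_lit 0x187)))
(.lf (nat_lit 0x177)))
(.nd (.lf (nat_lit 0x4a))
(.lf (nat_lit 0x92))))))
(.nd (.nd (.nd (.nd (.nd (.lf (nat_lit 0x145))
(.lf (nat_lit 0xd5)))
(.lf (nat_lit 0xe4)))
(.nd (.nd (.lf (nat_lit 0x2c5))
(.lf (nat_lit 0x22f)))
(.lf (nat_lit 0x1b0))))
(.nd (.nd (.nd (.lf (nat_lit 0x3b))
(.lf (nat_lit 0x1c2)))
(.lf (nat_lit 0x56)))
(.nd (.lf (nat_lit 0x32))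
(.lf (nat_lit 0x1e)))))
(.nd (.nd (.nd (.nd (.lf (nat_lit 0x139))
(.lf (nat_lit 0x26)))
(.lf (nat_lit 0x2b3)))
(.nd (.nd (.lf (nat_lit 0x206))
(.lf (nat_lit 0x1f)))
(.lf (nat_lit 0))))
(.nd (.nd (.nd (.lf (nat_lit 0x122))
(.lf (nat_lit 0x25c)))
(.lf (nat_lit 0xb3)))
(.nd (.lf (nat_lit 0x11e))
(.lf (nat_lit 0x1c0)))))))
(.nd (.nd (.nd (.nd (.nd (.nd (.lf (nat_lit 0x83))
(.lf (nat_lit 0x1ec)))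
(.lf (nat_lit 0x134)))
(.nd (.nd (.lf (nat_lit 0x237))
(.lf (nat_lit 0x135)))
(.lf (nat_lit 0x183))))
(.nd (.nd (.nd (.lf (nat_lit 3))
(.lf (nat_lit 0x47)))
(.lf (nat_lit 0x73)))
(.nd (.lf (nat_lit 0x9d))
(.lf (nat_lit 0x24)))))
(.nd (.nd (.nd (.nd (.lf (nat_lit 0x84))
(.lf (nat_lit 0x78)))
(.lf (nat_lit 0x293)))
(.nd (.nd (.lf (nat_lit 0x135))
(.lf (nat_lit 0xe)))
(.lf (nat_lit 0x256))))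
(.nd (.nd (.nd (.lf (nat_lit 0xf4))
(.lf (nat_lit 0x81)))
(.lf (nat_lit 0x117)))
(.nd (.lf (nat_lit 0xa9))
(.lf (nat_lit 0x45))))))
(.nd (.nd (.nd (.nd (.nd (.lf (nat_lit 0x25c))
(.lf (nat_lit 0x294)))
(.lf (nat_lit 0x13d)))
(.nd (.nd (.lf (nat_lit 0xe9))
(.lf (nat_lit 0x1d3)))
(.lf (nat_lit 0x1af))))
(.nd (.nd (.nd (.lf (nat_lit 0x130))
(.lf (nat_lit 0x95)))
(.lf (nat_lit 0x65)))
(.nd (.lf (nat_lit 0x193))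
(.lf (nat_lit 0x143)))))
(.nd (.nd (.nd (.nd (.lf (nat_lit 0x2c9))
(.lf (nat_lit 0x32)))
(.lf (nat_lit 0x2b)))
(.nd (.nd (.lf (nat_lit 0x2bf))
(.lf (nat_lit 0x24)))
(.lf (nat_lit 0x3b))))
(.nd (.nd (.nd (.lf (nat_lit 0x22))
(.lf (nat_lit 0x4e)))
(.lf (nat_lit 0x136)))
(.nd (.lf (nat_lit 0xdd))
(.lf (nat_lit 0x1d1))))))))
(.nd (.nd (.nd (.nd (.nd (.nd (.nd (.lf (nat_lit 0x1a2))
(.lf (nat_lit 0x74)))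
(.lf (nat_lit 0x40)))
(.nd (.nd (.lf (nat_lit 0x3f))
(.lf (nat_lit 0x87)))
(.lf (nat_lit 0x32))))
(.nd (.nd (.nd (.lf (nat_lit 0x10e))
(.lf (nat_lit 0x13d)))
(.lf (nat_lit 0x236)))
(.nd (.lf (nat_lit 0x103))
(.lf (nat_lit 0xe4)))))
(.nd (.nd (.nd (.nd (.lf (nat_lit 0xc7))
(.lf (nat_lit 0x186)))
(.lf (nat_lit 0x24d)))
(.nd (.nd (.lf (nat_lit 0xf0))
(.lf (nat_lit 0x81)))
(.lf (nat_lit 0x95))))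
(.nd (.nd (.nd (.lf (nat_lit 0x13d))
(.lf (nat_lit 0x7e)))
(.lf (nat_lit 0x232)))
(.nd (.lf (nat_lit 0x1a5))
(.lf (nat_lit 0x291))))))
(.nd (.nd (.nd (.nd (.nd (.lf (nat_lit 0x18))
(.lf (nat_lit 0x18f)))
(.lf (nat_lit 0x24)))
(.nd (.nd (.lf (nat_lit 0xff))
(.lf (nat_lit 0x22)))
(.lf (nat_lit 0xec))))
(.nd (.nd (.nd (.lf (nat_lit 0x236))
(.lf (nat_lit 0x1ff)))
(.lf (nat_lit 0xe1)))
(.nd (.lf (nat_lit 0x23e))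
(.lf (nat_lit 0x20f)))))
(.nd (.nd (.nd (.nd (.lf (nat_lit 0x18b))
(.lf (nat_lit 0x227)))
(.lf (nat_lit 0x153)))
(.nd (.nd (.lf (nat_lit 0x1f7))
(.lf (nat_lit 0x4e)))
(.lf (nat_lit 0x81))))
(.nd (.nd (.nd (.lf (nat_lit 0x1ce))
(.lf (nat_lit 0x1f)))
(.lf (nat_lit 0x1b)))
(.nd (.lf (nat_lit 0x1d3))
(.lf (nat_lit 0x25)))))))
(.nd (.nd (.nd (.nd (.nd (.nd (.lf (nat_lit 3))
(.lf (nat_lit 0x98)))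
(.lf (nat_lit 0x133)))
(.nd (.nd (.lf (nat_lit 2))
(.lf (nat_lit 0x143)))
(.lf (nat_lit 0x21))))
(.nd (.nd (.nd (.lf (nat_lit 0x1aa))
(.lf (nat_lit 0x13c)))
(.lf (nat_lit 0x17f)))
(.nd (.lf (nat_lit 0x19f))
(.lf (nat_lit 0xd9)))))
(.nd (.nd (.nd (.nd (.lf (nat_lit 0xf2))
(.lf (nat_lit 0x136)))
(.lf (nat_lit 0x189)))
(.nd (.nd (.lf (nat_lit 0x62))
(.lf (nat_lit 0x137)))
(.lf (nat_lit 0x63))))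
(.nd (.nd (.nd (.lf (nat_lit 0x27c))
(.lf (nat_lit 0x2d)))
(.lf (nat_lit 0x251)))
(.nd (.lf (nat_lit 0x2c1))
(.lf (nat_lit 4))))))
(.nd (.nd (.nd (.nd (.nd (.lf (nat_lit 0xd1))
(.lf (nat_lit 0xed)))
(.lf (nat_lit 0x47)))
(.nd (.nd (.lf (nat_lit 0x24))
(.lf (nat_lit 0x8a)))
(.lf (nat_lit 0x18b))))
(.nd (.nd (.nd (.lf (nat_lit 0x1ea))
(.lf (nat_lit 0x251)))
(.lf (nat_lit 0x239)))
(.nd (.lf (nat_lit 0x109))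
(.lf (nat_lit 0x1d4)))))
(.nd (.nd (.nd (.nd (.lf (nat_lit 0x128))
(.lf (nat_lit 0xe5)))
(.lf (nat_lit 0x16f)))
(.nd (.nd (.lf (nat_lit 0x1be))
(.lf (nat_lit 0xe1)))
(.lf (nat_lit 0x287))))
(.nd (.nd (.nd (.lf (nat_lit 0x2b4))
(.lf (nat_lit 0x71)))
(.lf (nat_lit 0x28)))
(.nd (.lf (nat_lit 0xcf))
(.lf (nat_lit 0x54)))))))))))
(.nd (.nd (.nd (.nd (.nd (.nd (.nd (.nd (.nd (.nd (.lf (nat_lit 2))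
(.lf (nat_lit 0x224)))
(.lf (nat_lit 0x24)))
(.nd (.nd (.lf (nat_lit 0x48))
(.lf (nat_lit 0x4b)))
(.lf (nat_lit 0xec))))
(.nd (.nd (.nd (.lf (nat_lit 0x2c5))
(.lf (nat_lit 0x1d4)))
(.lf (nat_lit 0x109)))
(.nd (.nd (.lf (nat_lit 0xe4))
(.lf (nat_lit 0x204)))
(.lf (nat_lit 0x27e)))))
(.nd (.nd (.nd (.nd (.lf (nat_lit 0x1cb))
(.lf (nat_lit 0x27a)))
(.lf (nat_lit 0x223)))
(.nd (.nd (.lf (nat_lit 0x35))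
(.lf (nat_lit 0x8d)))
(.lf (nat_lit 0x13b))))
(.nd (.nd (.nd (.lf (nat_lit 0x209))
(.lf (nat_lit 0x72)))
(.lf (nat_lit 0x1d)))
(.nd (.lf (nat_lit 0x2a4))
(.lf (nat_lit 0xc))))))
(.nd (.nd (.nd (.nd (.nd (.lf (nat_lit 0xb))
(.lf (nat_lit 0x148)))
(.lf (nat_lit 0x1ad)))
(.nd (.nd (.lf (nat_lit 0x93))
(.lf (nat_lit 0x1ac)))
(.lf (nat_lit 0x15e))))
(.nd (.nd (.nd (.lf (nat_lit 0x182))
(.lf (nat_lit 7)))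
(.lf (nat_lit 0x1d4)))
(.nd (.lf (nat_lit 0x1d9))
(.lf (nat_lit 0x251)))))
(.nd (.nd (.nd (.nd (.lf (nat_lit 0xac))
(.lf (nat_lit 0xe1)))
(.lf (nat_lit 0x137)))
(.nd (.nd (.lf (nat_lit 0x13f))
(.lf (nat_lit 0x1a5)))
(.lf (nat_lit 0x263))))
(.nd (.nd (.nd (.lf (nat_lit 0x2c))
(.lf (nat_lit 0x4a)))
(.lf (nat_lit 0x5d)))
(.nd (.lf (nat_lit 0xce))
(.lf (nat_lit 0x71)))))))
(.nd (.nd (.nd (.nd (.nd (.nd (.lf (nat_lit 0xa))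
(.lf (nat_lit 0x11c)))
(.lf (nat_lit 0x1e)))
(.nd (.nd (.lf (nat_lit 0x162))
(.lf (nat_lit 0xdd)))
(.lf (nat_lit 0x1f0))))
(.nd (.nd (.nd (.lf (nat_lit 0x11a))
(.lf (nat_lit 0x275)))
(.lf (nat_lit 0x208)))
(.nd (.lf (nat_lit 0x172))
(.lf (nat_lit 0x1d2)))))
(.nd (.nd (.nd (.nd (.lf (nat_lit 0x117))
(.lf (nat_lit 0xe8)))
(.lf (nat_lit 0x289)))
(.nd (.nd (.lf (nat_lit 0xac))
(.lf (nat_lit 0x84)))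
(.lf (nat_lit 0x29d))))
(.nd (.nd (.nd (.lf (nat_lit 0x28d))
(.lf (nat_lit 0x96)))
(.lf (nat_lit 0x70)))
(.nd (.lf (nat_lit 0x7d))
(.lf (nat_lit 0x1f))))))
(.nd (.nd (.nd (.nd (.nd (.lf (nat_lit 0x68))
(.lf (nat_lit 0x1e3)))
(.lf (nat_lit 0x6d)))
(.nd (.nd (.lf (nat_lit 0x44))
(.lf (nat_lit 0x25c)))
(.lf (nat_lit 0xe7))))
(.nd (.nd (.nd (.lf (nat_lit 0xd5))
(.lf (nat_lit 0x3b)))
(.lf (nat_lit 0x2a0)))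
(.nd (.lf (nat_lit 0x27d))
(.lf (nat_lit 0x7a)))))
(.nd (.nd (.nd (.nd (.lf (nat_lit 0x1df))
(.lf (nat_lit 0x106)))
(.lf (nat_lit 0x91)))
(.nd (.nd (.lf (nat_lit 0x287))
(.lf (nat_lit 0x1ff)))
(.lf (nat_lit 0x1b1))))
(.nd (.nd (.nd (.lf (nat_lit 0x3b))
(.lf (nat_lit 0x62)))
(.lf (nat_lit 0x4c)))
(.nd (.lf (nat_lit 0x49))
(.lf (nat_lit 0x47))))))))
(.nd (.nd (.nd (.nd (.nd (.nd (.nd (.lf (nat_lit 0x25c))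
(.lf (nat_lit 0x16c)))
(.lf (nat_lit 0xd8)))
(.nd (.nd (.lf (nat_lit 0x180))
(.lf (nat_lit 0x2a3)))
(.lf (nat_lit 0x1a6))))
(.nd (.nd (.nd (.lf (nat_lit 0x14))
(.lf (nat_lit 0x114)))
(.lf (nat_lit 0x87)))
(.nd (.lf (nat_lit 0x9c))
(.lf (nat_lit 0xdf)))))
(.nd (.nd (.nd (.nd (.lf (nat_lit 0x293))
(.lf (nat_lit 0x49)))
(.lf (nat_lit 0)))
(.nd (.nd (.lf (nat_lit 0x2ca))
(.lf (nat_lit 0xb)))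
(.lf (nat_lit 0xe))))
(.nd (.nd (.nd (.lf (nat_lit 0x92))
(.lf (nat_lit 0xe5)))
(.lf (nat_lit 0x175)))
(.nd (.lf (nat_lit 0x8a))
(.lf (nat_lit 0x254))))))
(.nd (.nd (.nd (.nd (.nd (.lf (nat_lit 0xd8))
(.lf (nat_lit 3)))
(.lf (nat_lit 0x2aa)))
(.nd (.nd (.lf (nat_lit 0x1a5))
(.lf (nat_lit 0x3c)))
(.lf (nat_lit 0x1a2))))
(.nd (.nd (.nd (.lf (nat_lit 0x1f8))
(.lf (nat_lit 0x1ae)))
(.lf (nat_lit 0x4b)))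
(.nd (.lf (nat_lit 0x80))
(.lf (nat_lit 0x113)))))
(.nd (.nd (.nd (.nd (.lf (nat_lit 1))
(.lf (nat_lit 0x47)))
(.lf (nat_lit 0x130)))
(.nd (.nd (.lf (nat_lit 0x197))
(.lf (nat_lit 0x44)))
(.lf (nat_lit 0x193))))
(.nd (.nd (.nd (.lf (nat_lit 0xaa))
(.lf (nat_lit 0xd5)))
(.lf (nat_lit 0x17e)))
(.nd (.lf (nat_lit 0x236))
(.lf (nat_lit 0x14e)))))))
(.nd (.nd (.nd (.nd (.nd (.nd (.lf (nat_lit 0xea))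
(.lf (nat_lit 0x22e)))
(.lf (nat_lit 0x25e)))
(.nd (.nd (.lf (nat_lit 0x1ec))
(.lf (nat_lit 0x11)))
(.lf (nat_lit 0x1ff))))
(.nd (.nd (.nd (.lf (nat_lit 0x51))
(.lf (nat_lit 0x8a)))
(.lf (nat_lit 0xd3)))
(.nd (.lf (nat_lit 0x4a))
(.lf (nat_lit 0x4d)))))
(.nd (.nd (.nd (.nd (.lf (nat_lit 0x28d))
(.lf (nat_lit 0x131)))
(.lf (nat_lit 0x61)))
(.nd (.nd (.lf (nat_lit 0x11))
(.lf (nat_lit 0x65)))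
(.lf (nat_lit 0x1f))))
(.nd (.nd (.nd (.lf (nat_lit 0x1f5))
(.lf (nat_lit 0xd8)))
(.lf (nat_lit 0x1d5)))
(.nd (.lf (nat_lit 0xd6))
(.lf (nat_lit 0x90))))))
(.nd (.nd (.nd (.nd (.nd (.lf (nat_lit 0x265))
(.lf (nat_lit 0xce)))
(.lf (nat_lit 0x28c)))
(.nd (.nd (.lf (nat_lit 0x2c1))
(.lf (nat_lit 0x54)))
(.lf (nat_lit 0xcf))))
(.nd (.nd (.nd (.lf (nat_lit 0x1cb))
(.lf (nat_lit 0xd4)))
(.lf (nat_lit 0x152)))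
(.nd (.lf (nat_lit 0x1f7))
(.lf (nat_lit 0x1b2)))))
(.nd (.nd (.nd (.nd (.lf (nat_lit 0xc))
(.lf (nat_lit 0x86)))
(.lf (nat_lit 0x34)))
(.nd (.nd (.lf (nat_lit 0x1f))
(.lf (nat_lit 0x69)))
(.lf (nat_lit 0xc1))))
(.nd (.nd (.nd (.lf (nat_lit 0x230))
(.lf (nat_lit 0x206)))
(.lf (nat_lit 0x241)))
(.nd (.lf (nat_lit 0xe9))
(.lf (nat_lit 0x170)))))))))
(.nd (.nd (.nd (.nd (.nd (.nd (.nd (.nd (.lf (nat_lit 0x44))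
(.lf (nat_lit 0x19c)))
(.lf (nat_lit 0x83)))
(.nd (.nd (.lf (nat_lit 0x154))
(.lf (nat_lit 0x6c)))
(.lf (nat_lit 0x141))))
(.nd (.nd (.nd (.lf (nat_lit 0x2cd))
(.lf (nat_lit 0xc3)))
(.lf (nat_lit 0x1c)))
(.nd (.lf (nat_lit 0x275))
(.lf (nat_lit 0xd)))))
(.nd (.nd (.nd (.nd (.lf (nat_lit 0x25c))
(.lf (nat_lit 0x1a3)))
(.lf (nat_lit 0xd9)))
(.nd (.nd (.lf (nat_lit 0xba))
(.lf (nat_lit 0x251)))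
(.lf (nat_lit 0x231))))
(.nd (.nd (.nd (.lf (nat_lit 0xa))
(.lf (nat_lit 0x69)))
(.lf (nat_lit 0x89)))
(.nd (.lf (nat_lit 0xb))
(.lf (nat_lit 0x158))))))
(.nd (.nd (.nd (.nd (.nd (.lf (nat_lit 0x45))
(.lf (nat_lit 0x1ec)))
(.lf (nat_lit 0x247)))
(.nd (.nd (.lf (nat_lit 0x23c))
(.lf (nat_lit 0x1a8)))
(.lf (nat_lit 0x14b))))
(.nd (.nd (.nd (.lf (nat_lit 0x1a))
(.lf (nat_lit 0x1e)))
(.lf (nat_lit 0x14)))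
(.nd (.lf (nat_lit 0x61))
(.lf (nat_lit 0x15)))))
(.nd (.nd (.nd (.nd (.lf (nat_lit 0x1b3))
(.lf (nat_lit 0x2e)))
(.lf (nat_lit 0x201)))
(.nd (.nd (.lf (nat_lit 0xd5))
(.lf (nat_lit 0xc)))
(.lf (nat_lit 0x229))))
(.nd (.nd (.nd (.lf (nat_lit 0x225))
(.lf (nat_lit 0xaa)))
(.lf (nat_lit 0x69)))
(.nd (.lf (nat_lit 0xd3))
(.lf (nat_lit 0x85)))))))
(.nd (.nd (.nd (.nd (.nd (.nd (.lf (nat_lit 0x4d))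
(.lf (nat_lit 0x185)))
(.lf (nat_lit 0x1f1)))
(.nd (.nd (.lf (nat_lit 0x187))
(.lf (nat_lit 0xd8)))
(.lf (nat_lit 0x134))))
(.nd (.nd (.nd (.lf (nat_lit 0x2a0))
(.lf (nat_lit 0xb)))
(.lf (nat_lit 0x38)))
(.nd (.lf (nat_lit 0x30))
(.lf (nat_lit 0x1f)))))
(.nd (.nd (.nd (.nd (.lf (nat_lit 0x4e))
(.lf (nat_lit 0x22d)))
(.lf (nat_lit 0xd5)))
(.nd (.nd (.lf (nat_lit 0x21a))
(.lf (nat_lit 0x11)))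
(.lf (nat_lit 0x228))))
(.nd (.nd (.nd (.lf (nat_lit 0xf8))
(.lf (nat_lit 0x142)))
(.lf (nat_lit 0x1cb)))
(.nd (.lf (nat_lit 0xbc))
(.lf (nat_lit 0x95))))))
(.nd (.nd (.nd (.nd (.nd (.lf (nat_lit 0x21b))
(.lf (nat_lit 0x212)))
(.lf (nat_lit 0xba)))
(.nd (.nd (.lf (nat_lit 0x21e))
(.lf (nat_lit 0x16c)))
(.lf (nat_lit 0x171))))
(.nd (.nd (.nd (.lf (nat_lit 0xce))
(.lf (nat_lit 0x157)))
(.lf (nat_lit 0x9c)))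
(.nd (.lf (nat_lit 0x73))
(.lf (nat_lit 0x199)))))
(.nd (.nd (.nd (.nd (.lf (nat_lit 0x20b))
(.lf (nat_lit 0x3b)))
(.lf (nat_lit 0x204)))
(.nd (.nd (.lf (nat_lit 0x2aa))
(.lf (nat_lit 0x1f)))
(.lf (nat_lit 0x12))))
(.nd (.nd (.nd (.lf (nat_lit 0x24d))
(.lf (nat_lit 0x19c)))
(.lf (nat_lit 0x142)))
(.nd (.lf (nat_lit 0x4d))
(.lf (nat_lit 0x108))))))))
(.nd (.nd (.nd (.nd (.nd (.nd (.nd (.lf (nat_lit 0x293))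
(.lf (nat_lit 0x27)))
(.lf (nat_lit 0x11)))
(.nd (.nd (.lf (nat_lit 0x274))
(.lf (nat_lit 0x23)))
(.lf (nat_lit 0xc9))))
(.nd (.nd (.nd (.lf (nat_lit 0x11e))
(.lf (nat_lit 0x151)))
(.lf (nat_lit 0x248)))
(.nd (.lf (nat_lit 0x10e))
(.lf (nat_lit 0x19f)))))
(.nd (.nd (.nd (.nd (.lf (nat_lit 0x20))
(.lf (nat_lit 0x4f)))
(.lf (nat_lit 0x11d)))
(.nd (.nd (.lf (nat_lit 0x162))
(.lf (nat_lit 0x63)))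
(.lf (nat_lit 0x1bf))))
(.nd (.nd (.nd (.lf (nat_lit 0xea))
(.lf (nat_lit 0x1a2)))
(.lf (nat_lit 0x212)))
(.nd (.lf (nat_lit 0x1b8))
(.lf (nat_lit 0x28f))))))
(.nd (.nd (.nd (.nd (.nd (.lf (nat_lit 0))
(.lf (nat_lit 0x125)))
(.lf (nat_lit 0x1f)))
(.nd (.nd (.lf (nat_lit 0xd))
(.lf (nat_lit 0xdc)))
(.lf (nat_lit 0x15))))
(.nd (.nd (.nd (.lf (nat_lit 0xd7))
(.lf (nat_lit 0x210)))
(.lf (nat_lit 0x4e)))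
(.nd (.lf (nat_lit 0x287))
(.lf (nat_lit 0x171)))))
(.nd (.nd (.nd (.nd (.lf (nat_lit 0x126))
(.lf (nat_lit 0xd7)))
(.lf (nat_lit 0xe6)))
(.nd (.nd (.lf (nat_lit 0x1fc))
(.lf (nat_lit 0x19c)))
(.lf (nat_lit 0xe2))))
(.nd (.nd (.nd (.lf (nat_lit 0x1af))
(.lf (nat_lit 6)))
(.lf (nat_lit 0x205)))
(.nd (.lf (nat_lit 0x1ce))
(.lf (nat_lit 0x19)))))))
(.nd (.nd (.nd (.nd (.nd (.nd (.lf (nat_lit 0x28d))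
(.lf (nat_lit 0x56)))
(.lf (nat_lit 0x17)))
(.nd (.nd (.lf (nat_lit 0x42))
(.lf (nat_lit 0x4a)))
(.lf (nat_lit 0x55))))
(.nd (.nd (.nd (.lf (nat_lit 0x83))
(.lf (nat_lit 0x109)))
(.lf (nat_lit 0x19c)))
(.nd (.lf (nat_lit 0x1f1))
(.lf (nat_lit 0xe5)))))
(.nd (.nd (.nd (.nd (.lf (nat_lit 0x21))
(.lf (nat_lit 0x152)))
(.lf (nat_lit 0x44)))
(.nd (.nd (.lf (nat_lit 0x24e))
(.lf (nat_lit 0xd2)))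
(.lf (nat_lit 0xed))))
(.nd (.nd (.nd (.lf (nat_lit 0x10a))
(.lf (nat_lit 0x12)))
(.lf (nat_lit 0x22f)))
(.nd (.lf (nat_lit 0x27c))
(.lf (nat_lit 0x22e))))))
(.nd (.nd (.nd (.nd (.nd (.lf (nat_lit 0x7f))
(.lf (nat_lit 0xf1)))
(.lf (nat_lit 0x24)))
(.nd (.nd (.lf (nat_lit 0x124))
(.lf (nat_lit 0x22)))
(.lf (nat_lit 0x15c))))
(.nd (.nd (.nd (.lf (nat_lit 0x27a))
(.lf (nat_lit 0x26e)))
(.lf (nat_lit 0x13e)))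
(.nd (.lf (nat_lit 0x17f))
(.lf (nat_lit 0x106)))))
(.nd (.nd (.nd (.nd (.lf (nat_lit 0xaf))
(.lf (nat_lit 0x134)))
(.lf (nat_lit 0x45)))
(.nd (.nd (.lf (nat_lit 0x8c))
(.lf (nat_lit 0xb6)))
(.lf (nat_lit 0x248))))
(.nd (.nd (.nd (.lf (nat_lit 0x201))
(.lf (nat_lit 0x27)))
(.lf (nat_lit 0x2b)))
(.nd (.lf (nat_lit 0x26f))
(.lf (nat_lit 0x16))))))))))
(.nd (.nd (.nd (.nd (.nd (.nd (.nd (.nd (.nd (.lf (nat_lit 0xb))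
(.lf (nat_lit 0x8a)))
(.lf (nat_lit 0x24f)))
(.nd (.nd (.lf (nat_lit 0xf2))
(.lf (nat_lit 0x81)))
(.lf (nat_lit 0x8f))))
(.nd (.nd (.nd (.lf (nat_lit 0x23a))
(.lf (nat_lit 4)))
(.lf (nat_lit 0x1d2)))
(.nd (.lf (nat_lit 0x208))
(.lf (nat_lit 0x2c6)))))
(.nd (.nd (.nd (.nd (.lf (nat_lit 0x24c))
(.lf (nat_lit 0x240)))
(.lf (nat_lit 0x19c)))
(.nd (.nd (.lf (nat_lit 0x81))
(.lf (nat_lit 0x13c)))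
(.lf (nat_lit 0x91))))
(.nd (.nd (.nd (.lf (nat_lit 0x2a))
(.lf (nat_lit 0x123)))
(.lf (nat_lit 0x20)))
(.nd (.lf (nat_lit 0x17))
(.lf (nat_lit 0x24))))))
(.nd (.nd (.nd (.nd (.nd (.lf (nat_lit 0x44))
(.lf (nat_lit 0xd4)))
(.lf (nat_lit 0x152)))
(.nd (.nd (.lf (nat_lit 0x192))
(.lf (nat_lit 0x6c)))
(.lf (nat_lit 0x173))))
(.nd (.nd (.nd (.lf (nat_lit 0x1ce))
(.lf (nat_lit 0x20)))
(.lf (nat_lit 0x7d)))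
(.nd (.lf (nat_lit 0x1d3))
(.lf (nat_lit 0x26)))))
(.nd (.nd (.nd (.nd (.lf (nat_lit 0x19f))
(.lf (nat_lit 0x1a3)))
(.lf (nat_lit 0x280)))
(.nd (.nd (.lf (nat_lit 0x1e7))
(.lf (nat_lit 0x200)))
(.lf (nat_lit 0x208))))
(.nd (.nd (.nd (.lf (nat_lit 0x99))
(.lf (nat_lit 0x4b)))
(.lf (nat_lit 0x68)))
(.nd (.lf (nat_lit 0x36))
(.lf (nat_lit 0x44)))))))
(.nd (.nd (.nd (.nd (.nd (.nd (.lf (nat_lit 0x47))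
(.lf (nat_lit 0x107)))
(.lf (nat_lit 0x192)))
(.nd (.nd (.lf (nat_lit 0x1c3))
(.lf (nat_lit 0x254)))
(.lf (nat_lit 0x45))))
(.nd (.nd (.nd (.lf (nat_lit 0x1d6))
(.lf (nat_lit 0xcc)))
(.lf (nat_lit 0x1d3)))
(.nd (.lf (nat_lit 0x250))
(.lf (nat_lit 0x60)))))
(.nd (.nd (.nd (.nd (.lf (nat_lit 0x1e3))
(.lf (nat_lit 0x1cf)))
(.lf (nat_lit 0x8d)))
(.nd (.nd (.lf (nat_lit 0x19c))
(.lf (nat_lit 0x16c)))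
(.lf (nat_lit 0xd8))))
(.nd (.nd (.nd (.lf (nat_lit 0x9d))
(.lf (nat_lit 0xd3)))
(.lf (nat_lit 0x24)))
(.nd (.lf (nat_lit 0x1fb))
(.lf (nat_lit 0x1e))))))
(.nd (.nd (.nd (.nd (.nd (.lf (nat_lit 0x128))
(.lf (nat_lit 0xe4)))
(.lf (nat_lit 0x21b)))
(.nd (.nd (.lf (nat_lit 0x223))
(.lf (nat_lit 0x182)))
(.lf (nat_lit 0x254))))
(.nd (.nd (.nd (.lf (nat_lit 0x2b5))
(.lf (nat_lit 0x23)))
(.lf (nat_lit 0x26)))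
(.nd (.lf (nat_lit 0x1d))
(.lf (nat_lit 0x67)))))
(.nd (.nd (.nd (.nd (.lf (nat_lit 0x90))
(.lf (nat_lit 0x26f)))
(.lf (nat_lit 0x25b)))
(.nd (.nd (.lf (nat_lit 0x1bb))
(.lf (nat_lit 0)))
(.lf (nat_lit 0x138))))
(.nd (.nd (.nd (.lf (nat_lit 0x9b))
(.lf (nat_lit 0x45)))
(.lf (nat_lit 0xd3)))
(.nd (.lf (nat_lit 0x65))
(.lf (nat_lit 0x69))))))))
(.nd (.nd (.nd (.nd (.nd (.nd (.nd (.lf (nat_lit 0x13d))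
(.lf (nat_lit 0x2e)))
(.lf (nat_lit 0x1ff)))
(.nd (.nd (.lf (nat_lit 0x1e0))
(.lf (nat_lit 0xd)))
(.lf (nat_lit 0x205))))
(.nd (.nd (.nd (.lf (nat_lit 0x11d))
(.lf (nat_lit 0x175)))
(.lf (nat_lit 0x14d)))
(.nd (.lf (nat_lit 0xab))
(.lf (nat_lit 0x85)))))
(.nd (.nd (.nd (.nd (.lf (nat_lit 0xa2))
(.lf (nat_lit 0x1e)))
(.lf (nat_lit 0x99)))
(.nd (.nd (.lf (nat_lit 0xa5))
(.lf (nat_lit 0xf1)))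
(.lf (nat_lit 0x15))))
(.nd (.nd (.nd (.lf (nat_lit 0x141))
(.lf (nat_lit 0x139)))
(.lf (nat_lit 0x90)))
(.nd (.lf (nat_lit 0x1dc))
(.lf (nat_lit 0x13e))))))
(.nd (.nd (.nd (.nd (.nd (.lf (nat_lit 0x1ff))
(.lf (nat_lit 0x55)))
(.lf (nat_lit 0x60)))
(.nd (.nd (.lf (nat_lit 0x28d))
(.lf (nat_lit 0xb)))
(.lf (nat_lit 0x59))))
(.nd (.nd (.nd (.lf (nat_lit 0xed))
(.lf (nat_lit 0x90)))
(.lf (nat_lit 0xd2)))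
(.nd (.lf (nat_lit 0xe2))
(.lf (nat_lit 0x227)))))
(.nd (.nd (.nd (.nd (.lf (nat_lit 0x99))
(.lf (nat_lit 0x95)))
(.lf (nat_lit 0x1cc)))
(.nd (.nd (.lf (nat_lit 0x193))
(.lf (nat_lit 0x45)))
(.lf (nat_lit 0x15b))))
(.nd (.nd (.nd (.lf (nat_lit 0xba))
(.lf (nat_lit 0x1d3)))
(.lf (nat_lit 0x106)))
(.nd (.lf (nat_lit 0x218))
(.lf (nat_lit 0x1d4)))))))
(.nd (.nd (.nd (.nd (.nd (.nd (.lf (nat_lit 0x170))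
(.lf (nat_lit 0x7f)))
(.lf (nat_lit 0x29f)))
(.nd (.nd (.lf (nat_lit 0x278))
(.lf (nat_lit 0x66)))
(.lf (nat_lit 0))))
(.nd (.nd (.nd (.lf (nat_lit 0x18c))
(.lf (nat_lit 0x1fe)))
(.lf (nat_lit 0x8a)))
(.nd (.lf (nat_lit 0x222))
(.lf (nat_lit 0x1e3)))))
(.nd (.nd (.nd (.nd (.lf (nat_lit 0x28))
(.lf (nat_lit 0x18b)))
(.lf (nat_lit 0x6e)))
(.nd (.nd (.lf (nat_lit 0x19b))
(.lf (nat_lit 0xbb)))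
(.lf (nat_lit 0x87))))
(.nd (.nd (.nd (.lf (nat_lit 0x16e))
(.lf (nat_lit 0x201)))
(.lf (nat_lit 0xd8)))
(.nd (.lf (nat_lit 0x183))
(.lf (nat_lit 0x135))))))
(.nd (.nd (.nd (.nd (.nd (.lf (nat_lit 0x2b5))
(.lf (nat_lit 0xc0)))
(.lf (nat_lit 0xc)))
(.nd (.nd (.lf (nat_lit 1))
(.lf (nat_lit 0x31)))
(.lf (nat_lit 0x19b))))
(.nd (.nd (.nd (.lf (nat_lit 0x187))
(.lf (nat_lit 0x13d)))
(.lf (nat_lit 0x254)))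
(.nd (.lf (nat_lit 0x21b))
(.lf (nat_lit 0x119)))))
(.nd (.nd (.nd (.nd (.lf (nat_lit 0x24))
(.lf (nat_lit 0x10b)))
(.lf (nat_lit 0x44)))
(.nd (.nd (.lf (nat_lit 0xb2))
(.lf (nat_lit 0xd6)))
(.lf (nat_lit 0x14d))))
(.nd (.nd (.nd (.lf (nat_lit 0x241))
(.lf (nat_lit 0xf)))
(.lf (nat_lit 0x228)))
(.nd (.lf (nat_lit 0x2ac))
(.lf (nat_lit 0x251)))))))))
(.nd (.nd (.nd (.nd (.nd (.nd (.nd (.nd (.lf (nat_lit 0xdd))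
(.lf (nat_lit 0x84)))
(.lf (nat_lit 0x19c)))
(.nd (.nd (.lf (nat_lit 0x1aa))
(.lf (nat_lit 0xd5)))
(.lf (nat_lit 0x90))))
(.nd (.nd (.nd (.lf (nat_lit 0x1c))
(.lf (nat_lit 0x98)))
(.lf (nat_lit 0x88)))
(.nd (.lf (nat_lit 0x40))
(.lf (nat_lit 0x94)))))
(.nd (.nd (.nd (.nd (.lf (nat_lit 0x282))
(.lf (nat_lit 0x13)))
(.lf (nat_lit 0x1ce)))
(.nd (.nd (.lf (nat_lit 0x135))
(.lf (nat_lit 0x28)))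
(.lf (nat_lit 0x2b2))))
(.nd (.nd (.nd (.lf (nat_lit 0xc1))
(.lf (nat_lit 0x13f)))
(.lf (nat_lit 0x4f)))
(.nd (.lf (nat_lit 0x62))
(.lf (nat_lit 0xda))))))
(.nd (.nd (.nd (.nd (.nd (.lf (nat_lit 0x1cd))
(.lf (nat_lit 0x271)))
(.lf (nat_lit 0x14e)))
(.nd (.nd (.lf (nat_lit 0x90))
(.lf (nat_lit 0x275)))
(.lf (nat_lit 0x13c))))
(.nd (.nd (.nd (.lf (nat_lit 0x99))
(.lf (nat_lit 0x22)))
(.lf (nat_lit 0x1f9)))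
(.nd (.lf (nat_lit 0x19a))
(.lf (nat_lit 0x44)))))
(.nd (.nd (.nd (.nd (.lf (nat_lit 0x259))
(.lf (nat_lit 0x49)))
(.lf (nat_lit 0x3e)))
(.nd (.nd (.lf (nat_lit 0x1d3))
(.lf (nat_lit 0x24)))
(.lf (nat_lit 0xcc))))
(.nd (.nd (.nd (.lf (nat_lit 0xeb))
(.lf (nat_lit 0x1b9)))
(.lf (nat_lit 0x1ac)))
(.nd (.lf (nat_lit 0xae))
(.lf (nat_lit 0x1a0)))))))
(.nd (.nd (.nd (.nd (.nd (.nd (.lf (nat_lit 0x179))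
(.lf (nat_lit 0x260)))
(.lf (nat_lit 0x183)))
(.nd (.nd (.lf (nat_lit 0x16e))
(.lf (nat_lit 0x16c)))
(.lf (nat_lit 0x266))))
(.nd (.nd (.nd (.lf (nat_lit 0x3c))
(.lf (nat_lit 0x80)))
(.lf (nat_lit 0x6e)))
(.nd (.lf (nat_lit 0x55))
(.lf (nat_lit 0x1e)))))
(.nd (.nd (.nd (.nd (.lf (nat_lit 0xd5))
(.lf (nat_lit 0x39)))
(.lf (nat_lit 0x2b5)))
(.nd (.nd (.lf (nat_lit 0x1d4))
(.lf (nat_lit 0x27)))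
(.lf (nat_lit 0x12d))))
(.nd (.nd (.nd (.lf (nat_lit 0x1cb))
(.lf (nat_lit 0x20c)))
(.lf (nat_lit 0x187)))
(.nd (.lf (nat_lit 0x11e))
(.lf (nat_lit 0x1db))))))
(.nd (.nd (.nd (.nd (.nd (.lf (nat_lit 0x17f))
(.lf (nat_lit 0x2b3)))
(.lf (nat_lit 0x2c4)))
(.nd (.nd (.lf (nat_lit 0xd9))
(.lf (nat_lit 0)))
(.lf (nat_lit 0x201))))
(.nd (.nd (.nd (.lf (nat_lit 0x196))
(.lf (nat_lit 0xb3)))
(.lf (nat_lit 0x1cb)))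
(.nd (.lf (nat_lit 0x18a))
(.lf (nat_lit 0x8e)))))
(.nd (.nd (.nd (.nd (.lf (nat_lit 0x2ce))
(.lf (nat_lit 0x50)))
(.lf (nat_lit 0x18)))
(.nd (.nd (.lf (nat_lit 0x60))
(.lf (nat_lit 0x47)))
(.lf (nat_lit 0x72))))
(.nd (.nd (.nd (.lf (nat_lit 0x8a))
(.lf (nat_lit 0xad)))
(.lf (nat_lit 0x19f)))
(.nd (.lf (nat_lit 0x2b1))
(.lf (nat_lit 0xb6))))))))
(.nd (.nd (.nd (.nd (.nd (.nd (.nd (.lf (nat_lit 0x11))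
(.lf (nat_lit 0xc1)))
(.lf (nat_lit 0x27)))
(.nd (.nd (.lf (nat_lit 0x57))
(.lf (nat_lit 0xdc)))
(.lf (nat_lit 0x51))))
(.nd (.nd (.nd (.lf (nat_lit 0x108))
(.lf (nat_lit 0x1d7)))
(.lf (nat_lit 0x180)))
(.nd (.lf (nat_lit 0x168))
(.lf (nat_lit 0x1e2)))))
(.nd (.nd (.nd (.nd (.lf (nat_lit 0x125))
(.lf (nat_lit 0x1f1)))
(.lf (nat_lit 0x11e)))
(.nd (.nd (.lf (nat_lit 0xd3))
(.lf (nat_lit 0xd4)))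
(.lf (nat_lit 0xdd))))
(.nd (.nd (.nd (.lf (nat_lit 0x1a6))
(.lf (nat_lit 0xd)))
(.lf (nat_lit 0x274)))
(.nd (.lf (nat_lit 0x2aa))
(.lf (nat_lit 3))))))
(.nd (.nd (.nd (.nd (.nd (.lf (nat_lit 0x3a))
(.lf (nat_lit 0xb8)))
(.lf (nat_lit 0x47)))
(.nd (.nd (.lf (nat_lit 0x56))
(.lf (nat_lit 0x45)))
(.lf (nat_lit 0x178))))
(.nd (.nd (.nd (.lf (nat_lit 0xe5))
(.lf (nat_lit 0x2be)))
(.lf (nat_lit 0xd5)))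
(.nd (.lf (nat_lit 0x147))
(.lf (nat_lit 0x203)))))
(.nd (.nd (.nd (.nd (.lf (nat_lit 0x114))
(.lf (nat_lit 0xe9)))
(.lf (nat_lit 0x20e)))
(.nd (.nd (.lf (nat_lit 0x24c))
(.lf (nat_lit 0x84)))
(.lf (nat_lit 0x22b))))
(.nd (.nd (.nd (.lf (nat_lit 0x204))
(.lf (nat_lit 0x24)))
(.lf (nat_lit 0x40)))
(.nd (.lf (nat_lit 0x60))
(.lf (nat_lit 0x1f)))))))
(.nd (.nd (.nd (.nd (.nd (.nd (.lf (nat_lit 0xd))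
(.lf (nat_lit 0x1c2)))
(.lf (nat_lit 0xb)))
(.nd (.nd (.lf (nat_lit 0xa))
(.lf (nat_lit 0x4b)))
(.lf (nat_lit 0x4a))))
(.nd (.nd (.nd (.lf (nat_lit 0x1ab))
(.lf (nat_lit 0x19d)))
(.lf (nat_lit 0x10a)))
(.nd (.lf (nat_lit 0xe9))
(.lf (nat_lit 0x139)))))
(.nd (.nd (.nd (.nd (.lf (nat_lit 0x44))
(.lf (nat_lit 0x137)))
(.lf (nat_lit 0x223)))
(.nd (.nd (.lf (nat_lit 0x11c))
(.lf (nat_lit 0xe4)))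
(.lf (nat_lit 0x141))))
(.nd (.nd (.nd (.lf (nat_lit 0x22f))
(.lf (nat_lit 0x5d)))
(.lf (nat_lit 0x2b)))
(.nd (.lf (nat_lit 0x2bf))
(.lf (nat_lit 0x57))))))
(.nd (.nd (.nd (.nd (.nd (.lf (nat_lit 0xc0))
(.lf (nat_lit 0x148)))
(.lf (nat_lit 0x1fc)))
(.nd (.nd (.lf (nat_lit 0x8b))
(.lf (nat_lit 0xaa)))
(.lf (nat_lit 0xbb))))
(.nd (.nd (.nd (.lf (nat_lit 0x241))
(.lf (nat_lit 0)))
(.lf (nat_lit 0x258)))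
(.nd (.lf (nat_lit 0x1d9))
(.lf (nat_lit 0x22e)))))
(.nd (.nd (.nd (.nd (.lf (nat_lit 0x1f2))
(.lf (nat_lit 0x1b0)))
(.lf (nat_lit 0x1fe)))
(.nd (.nd (.lf (nat_lit 0x81))
(.lf (nat_lit 0x139)))
(.lf (nat_lit 0x119))))
(.nd (.nd (.nd (.lf (nat_lit 0x12))
(.lf (nat_lit 0x123)))
(.lf (nat_lit 0x5d)))
(.nd (.lf (nat_lit 0xcc))
(.lf (nat_lit 0x9c))))))))))))

noncomputable def bAQ62 : BT := (.nd (.nd (.nd (.nd (.nd (.nd (.nd (.nd (.nd (.nd (.nd (.lf (nat_lit 0))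
(.lf (nat_lit 0x43)))
(.lf (nat_lit 0x1f)))
(.nd (.nd (.lf (nat_lit 0x18))
(.lf (nat_lit 0x19)))
(.lf (nat_lit 0x2d))))
(.nd (.nd (.nd (.lf (nat_lit 0xb))
(.lf (nat_lit 8)))
(.lf (nat_lit 0xf)))
(.nd (.nd (.lf (nat_lit 0x32))
(.lf (nat_lit 0x16)))
(.lf (nat_lit 0x45)))))
(.nd (.nd (.nd (.nd (.lf (nat_lit 0xd))
(.lf (nat_lit 0x18)))
(.lf (nat_lit 0x22)))
(.nd (.nd (.lf (nat_lit 0x16))
(.lf (nat_lit 8)))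
(.lf (nat_lit 0x18))))
(.nd (.nd (.nd (.lf (nat_lit 0x4c))
(.lf (nat_lit 0x2b)))
(.lf (nat_lit 0x32)))
(.nd (.lf (nat_lit 0x3c))
(.lf (nat_lit 0x48))))))
(.nd (.nd (.nd (.nd (.nd (.lf (nat_lit 9))
(.lf (nat_lit 0x1b)))
(.lf (nat_lit 0x1a)))
(.nd (.nd (.lf (nat_lit 0x10))
(.lf (nat_lit 0x4a)))
(.lf (nat_lit 0xe))))
(.nd (.nd (.nd (.lf (nat_lit 0x2a))
(.lf (nat_lit 8)))
(.lf (nat_lit 0x2d)))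
(.nd (.lf (nat_lit 0xb))
(.lf (nat_lit 0x23)))))
(.nd (.nd (.nd (.nd (.lf (nat_lit 0x19))
(.lf (nat_lit 0x30)))
(.lf (nat_lit 0x1d)))
(.nd (.nd (.lf (nat_lit 0xb))
(.lf (nat_lit 8)))
(.lf (nat_lit 9))))
(.nd (.nd (.nd (.lf (nat_lit 0x46))
(.lf (nat_lit 0x4a)))
(.lf (nat_lit 0x38)))
(.nd (.lf (nat_lit 0x2c))
(.lf (nat_lit 0x45)))))))
(.nd (.nd (.nd (.nd (.nd (.nd (.lf (nat_lit 2))
(.lf (nat_lit 0x26)))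
(.lf (nat_lit 0x23)))
(.nd (.nd (.lf (nat_lit 0x23))
(.lf (nat_lit 0xb)))
(.lf (nat_lit 0x19))))
(.nd (.nd (.nd (.lf (nat_lit 0x23))
(.lf (nat_lit 8)))
(.lf (nat_lit 0x1e)))
(.nd (.lf (nat_lit 0x34))
(.lf (nat_lit 0x18)))))
(.nd (.nd (.nd (.nd (.lf (nat_lit 0xb))
(.lf (nat_lit 0x3e)))
(.lf (nat_lit 0x49)))
(.nd (.nd (.lf (nat_lit 0x13))
(.lf (nat_lit 0x1b)))
(.lf (nat_lit 0x19))))
(.nd (.nd (.nd (.lf (nat_lit 0x44))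
(.lf (nat_lit 8)))
(.lf (nat_lit 0x30)))
(.nd (.lf (nat_lit 0))
(.lf (nat_lit 0x21))))))
(.nd (.nd (.nd (.nd (.nd (.lf (nat_lit 0x25))
(.lf (nat_lit 0xb)))
(.lf (nat_lit 0x1b)))
(.nd (.nd (.lf (nat_lit 0x18))
(.lf (nat_lit 0xf)))
(.lf (nat_lit 0x16))))
(.nd (.nd (.nd (.lf (nat_lit 0x33))
(.lf (nat_lit 0xc)))
(.lf (nat_lit 0x38)))
(.nd (.lf (nat_lit 0xa))
(.lf (nat_lit 1)))))
(.nd (.nd (.nd (.nd (.lf (nat_lit 0x17))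
(.lf (nat_lit 0xb)))
(.lf (nat_lit 0x1b)))
(.nd (.nd (.lf (nat_lit 0x47))
(.lf (nat_lit 0x44)))
(.lf (nat_lit 0x1b))))
(.nd (.nd (.nd (.lf (nat_lit 0x2b))
(.lf (nat_lit 0xb)))
(.lf (nat_lit 0x49)))
(.nd (.lf (nat_lit 0x21))
(.lf (nat_lit 0x20))))))))
(.nd (.nd (.nd (.nd (.nd (.nd (.nd (.lf (nat_lit 1))
(.lf (nat_lit 0x20)))
(.lf (nat_lit 0xf)))
(.nd (.nd (.lf (nat_lit 0x1f))
(.lf (nat_lit 0x19)))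
(.lf (nat_lit 0x19))))
(.nd (.nd (.nd (.lf (nat_lit 0x23))
(.lf (nat_lit 0xd)))
(.lf (nat_lit 0x16)))
(.nd (.lf (nat_lit 8))
(.lf (nat_lit 0x20)))))
(.nd (.nd (.nd (.nd (.lf (nat_lit 0x14))
(.lf (nat_lit 0x2f)))
(.lf (nat_lit 0x15)))
(.nd (.nd (.lf (nat_lit 0x1e))
(.lf (nat_lit 9)))
(.lf (nat_lit 0x19))))
(.nd (.nd (.nd (.lf (nat_lit 0x44))
(.lf (nat_lit 0x3e)))
(.lf (nat_lit 0x10)))
(.nd (.lf (nat_lit 7))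
(.lf (nat_lit 0xf))))))
(.nd (.nd (.nd (.nd (.nd (.lf (nat_lit 8))
(.lf (nat_lit 0x22)))
(.lf (nat_lit 0x15)))
(.nd (.nd (.lf (nat_lit 0x2d))
(.lf (nat_lit 0x2f)))
(.lf (nat_lit 0x56))))
(.nd (.nd (.nd (.lf (nat_lit 0x36))
(.lf (nat_lit 8)))
(.lf (nat_lit 0x12)))
(.nd (.lf (nat_lit 0xa))
(.lf (nat_lit 9)))))
(.nd (.nd (.nd (.nd (.lf (nat_lit 0x31))
(.lf (nat_lit 0x1f)))
(.lf (nat_lit 0x3d)))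
(.nd (.nd (.lf (nat_lit 0x58))
(.lf (nat_lit 0x47)))
(.lf (nat_lit 0xb))))
(.nd (.nd (.nd (.lf (nat_lit 0x2c))
(.lf (nat_lit 0x59)))
(.lf (nat_lit 0x4e)))
(.nd (.lf (nat_lit 0x16))
(.lf (nat_lit 0x19)))))))
(.nd (.nd (.nd (.nd (.nd (.nd (.lf (nat_lit 6))
(.lf (nat_lit 0x26)))
(.lf (nat_lit 0x13)))
(.nd (.nd (.lf (nat_lit 0x52))
(.lf (nat_lit 0x4b)))
(.lf (nat_lit 0x19))))
(.nd (.nd (.nd (.lf (nat_lit 0x24))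
(.lf (nat_lit 0x23)))
(.lf (nat_lit 0x3b)))
(.nd (.lf (nat_lit 0x16))
(.lf (nat_lit 8)))))
(.nd (.nd (.nd (.nd (.lf (nat_lit 0x21))
(.lf (nat_lit 0x3b)))
(.lf (nat_lit 0x35)))
(.nd (.nd (.lf (nat_lit 0x1f))
(.lf (nat_lit 0x30)))
(.lf (nat_lit 9))))
(.nd (.nd (.nd (.lf (nat_lit 0x46))
(.lf (nat_lit 8)))
(.lf (nat_lit 8)))
(.nd (.lf (nat_lit 0xc))
(.lf (nat_lit 0x18))))))
(.nd (.nd (.nd (.nd (.nd (.lf (nat_lit 0x25))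
(.lf (nat_lit 0x1e)))
(.lf (nat_lit 0x16)))
(.nd (.nd (.lf (nat_lit 9))
(.lf (nat_lit 9)))
(.lf (nat_lit 3))))
(.nd (.nd (.nd (.lf (nat_lit 0x45))
(.lf (nat_lit 0x23)))
(.lf (nat_lit 0x19)))
(.nd (.lf (nat_lit 0x42))
(.lf (nat_lit 0x19)))))
(.nd (.nd (.nd (.nd (.lf (nat_lit 0x20))
(.lf (nat_lit 0x34)))
(.lf (nat_lit 9)))
(.nd (.nd (.lf (nat_lit 0x33))
(.lf (nat_lit 0x4c)))
(.lf (nat_lit 0x10))))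
(.nd (.nd (.nd (.lf (nat_lit 0xa))
(.lf (nat_lit 0x19)))
(.lf (nat_lit 0x35)))
(.nd (.lf (nat_lit 0x15))
(.lf (nat_lit 0x19)))))))))
(.nd (.nd (.nd (.nd (.nd (.nd (.nd (.nd (.lf (nat_lit 1))
(.lf (nat_lit 0x19)))
(.lf (nat_lit 0x46)))
(.nd (.nd (.lf (nat_lit 0x2a))
(.lf (nat_lit 0xb)))
(.lf (nat_lit 0x2c))))
(.nd (.nd (.nd (.lf (nat_lit 0xb))
(.lf (nat_lit 0x1a)))
(.lf (nat_lit 0x13)))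
(.nd (.lf (nat_lit 0x33))
(.lf (nat_lit 0x3d)))))
(.nd (.nd (.nd (.nd (.lf (nat_lit 0x14))
(.lf (nat_lit 8)))
(.lf (nat_lit 0xb)))
(.nd (.nd (.lf (nat_lit 0x2c))
(.lf (nat_lit 8)))
(.lf (nat_lit 0x2d))))
(.nd (.nd (.nd (.lf (nat_lit 0x44))
(.lf (nat_lit 0x18)))
(.lf (nat_lit 8)))
(.nd (.lf (nat_lit 0))
(.lf (nat_lit 9))))))
(.nd (.nd (.nd (.nd (.nd (.lf (nat_lit 8))
(.lf (nat_lit 0xb)))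
(.lf (nat_lit 2)))
(.nd (.nd (.lf (nat_lit 0x2d))
(.lf (nat_lit 0x4c)))
(.lf (nat_lit 0x35))))
(.nd (.nd (.nd (.lf (nat_lit 0x1f))
(.lf (nat_lit 9)))
(.lf (nat_lit 0x38)))
(.nd (.lf (nat_lit 0x37))
(.lf (nat_lit 0x2d)))))
(.nd (.nd (.nd (.nd (.lf (nat_lit 0x27))
(.lf (nat_lit 0x10)))
(.lf (nat_lit 0x35)))
(.nd (.nd (.lf (nat_lit 0xb))
(.lf (nat_lit 0x43)))
(.lf (nat_lit 8))))
(.nd (.nd (.nd (.lf (nat_lit 0x48))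
(.lf (nat_lit 0x4a)))
(.lf (nat_lit 0x44)))
(.nd (.lf (nat_lit 0x13))
(.lf (nat_lit 0x38)))))))
(.nd (.nd (.nd (.nd (.nd (.nd (.lf (nat_lit 3))
(.lf (nat_lit 0x21)))
(.lf (nat_lit 0x2f)))
(.nd (.nd (.lf (nat_lit 0x1d))
(.lf (nat_lit 0x47)))
(.lf (nat_lit 0x2c))))
(.nd (.nd (.nd (.lf (nat_lit 0x23))
(.lf (nat_lit 0x15)))
(.lf (nat_lit 0x3e)))
(.nd (.lf (nat_lit 0x39))
(.lf (nat_lit 0x21)))))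
(.nd (.nd (.nd (.nd (.lf (nat_lit 0x29))
(.lf (nat_lit 0x2a)))
(.lf (nat_lit 0x4c)))
(.nd (.nd (.lf (nat_lit 0x3e))
(.lf (nat_lit 0x17)))
(.lf (nat_lit 0x19))))
(.nd (.nd (.nd (.lf (nat_lit 0x3d))
(.lf (nat_lit 8)))
(.lf (nat_lit 4)))
(.nd (.lf (nat_lit 0x37))
(.lf (nat_lit 0x32))))))
(.nd (.nd (.nd (.nd (.nd (.lf (nat_lit 0x25))
(.lf (nat_lit 0xe)))
(.lf (nat_lit 0x15)))
(.nd (.nd (.lf (nat_lit 0x3f))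
(.lf (nat_lit 0x36)))
(.lf (nat_lit 0x2d))))
(.nd (.nd (.nd (.lf (nat_lit 0x50))
(.lf (nat_lit 0xb)))
(.lf (nat_lit 0x32)))
(.nd (.lf (nat_lit 0x1a))
(.lf (nat_lit 0x1a)))))
(.nd (.nd (.nd (.nd (.lf (nat_lit 0x37))
(.lf (nat_lit 8)))
(.lf (nat_lit 0xc)))
(.nd (.nd (.lf (nat_lit 0x47))
(.lf (nat_lit 0x47)))
(.lf (nat_lit 0x47))))
(.nd (.nd (.nd (.lf (nat_lit 0x36))
(.lf (nat_lit 8)))
(.lf (nat_lit 0x12)))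
(.nd (.lf (nat_lit 0x1b))
(.lf (nat_lit 0x19))))))))
(.nd (.nd (.nd (.nd (.nd (.nd (.nd (.lf (nat_lit 1))
(.lf (nat_lit 0x1b)))
(.lf (nat_lit 0x3e)))
(.nd (.nd (.lf (nat_lit 0x18))
(.lf (nat_lit 0x47)))
(.lf (nat_lit 0x19))))
(.nd (.nd (.nd (.lf (nat_lit 0x43))
(.lf (nat_lit 0xd)))
(.lf (nat_lit 0x2a)))
(.nd (.lf (nat_lit 0x18))
(.lf (nat_lit 0x1f)))))
(.nd (.nd (.nd (.nd (.lf (nat_lit 0x15))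
(.lf (nat_lit 0x11)))
(.lf (nat_lit 0x49)))
(.nd (.nd (.lf (nat_lit 0x24))
(.lf (nat_lit 0x35)))
(.lf (nat_lit 0x19))))
(.nd (.nd (.nd (.lf (nat_lit 0x44))
(.lf (nat_lit 0x23)))
(.lf (nat_lit 0x3b)))
(.nd (.lf (nat_lit 0xa))
(.lf (nat_lit 0x1e))))))
(.nd (.nd (.nd (.nd (.nd (.lf (nat_lit 0x13))
(.lf (nat_lit 0x52)))
(.lf (nat_lit 0x17)))
(.nd (.nd (.lf (nat_lit 0x16))
(.lf (nat_lit 0x20)))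
(.lf (nat_lit 3))))
(.nd (.nd (.nd (.lf (nat_lit 0x30))
(.lf (nat_lit 8)))
(.lf (nat_lit 0x38)))
(.nd (.lf (nat_lit 0xa))
(.lf (nat_lit 0)))))
(.nd (.nd (.nd (.nd (.lf (nat_lit 0x12))
(.lf (nat_lit 0x22)))
(.lf (nat_lit 0x1e)))
(.nd (.nd (.lf (nat_lit 0x16))
(.lf (nat_lit 0x44)))
(.lf (nat_lit 0x1b))))
(.nd (.nd (.nd (.lf (nat_lit 0x2b))
(.lf (nat_lit 0xb)))
(.lf (nat_lit 0x38)))
(.nd (.lf (nat_lit 9))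
(.lf (nat_lit 0x4c)))))))
(.nd (.nd (.nd (.nd (.nd (.nd (.lf (nat_lit 2))
(.lf (nat_lit 0x16)))
(.lf (nat_lit 7)))
(.nd (.nd (.lf (nat_lit 0x51))
(.lf (nat_lit 0x4a)))
(.lf (nat_lit 0x52))))
(.nd (.nd (.nd (.lf (nat_lit 0x1e))
(.lf (nat_lit 0x2c)))
(.lf (nat_lit 0x2d)))
(.nd (.lf (nat_lit 0x20))
(.lf (nat_lit 0x18)))))
(.nd (.nd (.nd (.nd (.lf (nat_lit 0x31))
(.lf (nat_lit 0x11)))
(.lf (nat_lit 0x1d)))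
(.nd (.nd (.lf (nat_lit 0xb))
(.lf (nat_lit 0x3b)))
(.lf (nat_lit 8))))
(.nd (.nd (.nd (.lf (nat_lit 0x46))
(.lf (nat_lit 0xf)))
(.lf (nat_lit 0x13)))
(.nd (.lf (nat_lit 0x12))
(.lf (nat_lit 0x1f))))))
(.nd (.nd (.nd (.nd (.nd (.lf (nat_lit 0x28))
(.lf (nat_lit 0x18)))
(.lf (nat_lit 0x21)))
(.nd (.nd (.lf (nat_lit 0x2c))
(.lf (nat_lit 0x3d)))
(.lf (nat_lit 0x1f))))
(.nd (.nd (.nd (.lf (nat_lit 0x53))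
(.lf (nat_lit 0x16)))
(.lf (nat_lit 0x24)))
(.nd (.lf (nat_lit 0x51))
(.lf (nat_lit 0x1d)))))
(.nd (.nd (.nd (.nd (.lf (nat_lit 0x20))
(.lf (nat_lit 0x1e)))
(.lf (nat_lit 0xc)))
(.nd (.nd (.lf (nat_lit 0x32))
(.lf (nat_lit 0x16)))
(.lf (nat_lit 0x2a))))
(.nd (.nd (.nd (.lf (nat_lit 0x36))
(.lf (nat_lit 0x30)))
(.lf (nat_lit 0x4b)))
(.nd (.lf (nat_lit 0x27))
(.lf (nat_lit 0x43))))))))))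
(.nd (.nd (.nd (.nd (.nd (.nd (.nd (.nd (.nd (.lf (nat_lit 1))
(.lf (nat_lit 0x43)))
(.lf (nat_lit 0x3d)))
(.nd (.nd (.lf (nat_lit 0x24))
(.lf (nat_lit 0x31)))
(.lf (nat_lit 8))))
(.nd (.nd (.nd (.lf (nat_lit 0xb))
(.lf (nat_lit 0x3d)))
(.lf (nat_lit 8)))
(.nd (.lf (nat_lit 0x1e))
(.lf (nat_lit 0x47)))))
(.nd (.nd (.nd (.nd (.lf (nat_lit 0xd))
(.lf (nat_lit 0xa)))
(.lf (nat_lit 0x39)))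
(.nd (.nd (.lf (nat_lit 0x39))
(.lf (nat_lit 0x34)))
(.lf (nat_lit 0x16))))
(.nd (.nd (.nd (.lf (nat_lit 0x38))
(.lf (nat_lit 0x18)))
(.lf (nat_lit 0x2d)))
(.nd (.lf (nat_lit 7))
(.lf (nat_lit 8))))))
(.nd (.nd (.nd (.nd (.nd (.lf (nat_lit 9))
(.lf (nat_lit 0x22)))
(.lf (nat_lit 0x13)))
(.nd (.nd (.lf (nat_lit 0x10))
(.lf (nat_lit 0x4c)))
(.lf (nat_lit 0x52))))
(.nd (.nd (.nd (.lf (nat_lit 0x32))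
(.lf (nat_lit 8)))
(.lf (nat_lit 0x3b)))
(.nd (.lf (nat_lit 0xb))
(.lf (nat_lit 0xe)))))
(.nd (.nd (.nd (.nd (.lf (nat_lit 0x19))
(.lf (nat_lit 0x3b)))
(.lf (nat_lit 0x56)))
(.nd (.nd (.lf (nat_lit 0x59))
(.lf (nat_lit 0x1e)))
(.lf (nat_lit 0x1e))))
(.nd (.nd (.nd (.lf (nat_lit 0x2c))
(.lf (nat_lit 0x59)))
(.lf (nat_lit 0x10)))
(.nd (.lf (nat_lit 8))
(.lf (nat_lit 0x19)))))))
(.nd (.nd (.nd (.nd (.nd (.nd (.lf (nat_lit 5))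
(.lf (nat_lit 0x16)))
(.lf (nat_lit 0x1d)))
(.nd (.nd (.lf (nat_lit 0x56))
(.lf (nat_lit 0x10)))
(.lf (nat_lit 0x19))))
(.nd (.nd (.nd (.lf (nat_lit 0x43))
(.lf (nat_lit 0x32)))
(.lf (nat_lit 0x15)))
(.nd (.lf (nat_lit 0x3e))
(.lf (nat_lit 0x18)))))
(.nd (.nd (.nd (.nd (.lf (nat_lit 0xb))
(.lf (nat_lit 0x33)))
(.lf (nat_lit 0x10)))
(.nd (.nd (.lf (nat_lit 0x18))
(.lf (nat_lit 0x19)))
(.lf (nat_lit 0x22))))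
(.nd (.nd (.nd (.lf (nat_lit 0x34))
(.lf (nat_lit 0xf)))
(.lf (nat_lit 0x36)))
(.nd (.lf (nat_lit 0xa))
(.lf (nat_lit 0xb))))))
(.nd (.nd (.nd (.nd (.nd (.lf (nat_lit 0xe))
(.lf (nat_lit 0xe)))
(.lf (nat_lit 0x22)))
(.nd (.nd (.lf (nat_lit 0x30))
(.lf (nat_lit 8)))
(.lf (nat_lit 2))))
(.nd (.nd (.nd (.lf (nat_lit 0x2b))
(.lf (nat_lit 0x21)))
(.lf (nat_lit 0x19)))
(.nd (.lf (nat_lit 0x41))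
(.lf (nat_lit 0xd)))))
(.nd (.nd (.nd (.nd (.lf (nat_lit 0x41))
(.lf (nat_lit 0x15)))
(.lf (nat_lit 0x46)))
(.nd (.nd (.lf (nat_lit 0x2a))
(.lf (nat_lit 0x43)))
(.lf (nat_lit 0x22))))
(.nd (.nd (.nd (.lf (nat_lit 0x57))
(.lf (nat_lit 0x16)))
(.lf (nat_lit 0x49)))
(.nd (.lf (nat_lit 8))
(.lf (nat_lit 0x56))))))))
(.nd (.nd (.nd (.nd (.nd (.nd (.nd (.lf (nat_lit 1))
(.lf (nat_lit 0x43)))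
(.lf (nat_lit 0x3f)))
(.nd (.nd (.lf (nat_lit 0x17))
(.lf (nat_lit 0x47)))
(.lf (nat_lit 0xf))))
(.nd (.nd (.nd (.lf (nat_lit 0x43))
(.lf (nat_lit 0xd)))
(.lf (nat_lit 0x16)))
(.nd (.lf (nat_lit 8))
(.lf (nat_lit 0x1e)))))
(.nd (.nd (.nd (.nd (.lf (nat_lit 0xe))
(.lf (nat_lit 0x1f)))
(.lf (nat_lit 0x4c)))
(.nd (.nd (.lf (nat_lit 0x18))
(.lf (nat_lit 0xb)))
(.lf (nat_lit 0x21))))
(.nd (.nd (.nd (.lf (nat_lit 0x10))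
(.lf (nat_lit 0x11)))
(.lf (nat_lit 8)))
(.nd (.lf (nat_lit 7))
(.lf (nat_lit 0xf))))))
(.nd (.nd (.nd (.nd (.nd (.lf (nat_lit 0xc))
(.lf (nat_lit 0xe)))
(.lf (nat_lit 0x3c)))
(.nd (.nd (.lf (nat_lit 0x3b))
(.lf (nat_lit 0x2d)))
(.lf (nat_lit 0x27))))
(.nd (.nd (.nd (.lf (nat_lit 0x3f))
(.lf (nat_lit 0x2d)))
(.lf (nat_lit 7)))
(.nd (.lf (nat_lit 0x17))
(.lf (nat_lit 0x1c)))))
(.nd (.nd (.nd (.nd (.lf (nat_lit 0xa))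
(.lf (nat_lit 0xb)))
(.lf (nat_lit 0x13)))
(.nd (.nd (.lf (nat_lit 0x4b))
(.lf (nat_lit 0x43)))
(.lf (nat_lit 0xb))))
(.nd (.nd (.nd (.lf (nat_lit 0x2c))
(.lf (nat_lit 0x59)))
(.lf (nat_lit 0x44)))
(.nd (.lf (nat_lit 0x24))
(.lf (nat_lit 0x52)))))))
(.nd (.nd (.nd (.nd (.nd (.nd (.lf (nat_lit 3))
(.lf (nat_lit 0x2e)))
(.lf (nat_lit 0x17)))
(.nd (.nd (.lf (nat_lit 0x1d))
(.lf (nat_lit 0x4c)))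
(.lf (nat_lit 0x3b))))
(.nd (.nd (.nd (.lf (nat_lit 0x18))
(.lf (nat_lit 0x32)))
(.lf (nat_lit 0x11)))
(.nd (.lf (nat_lit 0x20))
(.lf (nat_lit 0x23)))))
(.nd (.nd (.nd (.nd (.lf (nat_lit 0x31))
(.lf (nat_lit 0x36)))
(.lf (nat_lit 0x56)))
(.nd (.nd (.lf (nat_lit 0xb))
(.lf (nat_lit 0x3e)))
(.lf (nat_lit 0x24))))
(.nd (.nd (.nd (.lf (nat_lit 0x34))
(.lf (nat_lit 0xb)))
(.lf (nat_lit 0x3e)))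
(.nd (.lf (nat_lit 0x17))
(.lf (nat_lit 0x1e))))))
(.nd (.nd (.nd (.nd (.nd (.lf (nat_lit 0x14))
(.lf (nat_lit 0x3d)))
(.lf (nat_lit 0x2c)))
(.nd (.nd (.lf (nat_lit 0x39))
(.lf (nat_lit 0x32)))
(.lf (nat_lit 0x2d))))
(.nd (.nd (.nd (.lf (nat_lit 0x45))
(.lf (nat_lit 0xb)))
(.lf (nat_lit 0x1e)))
(.nd (.lf (nat_lit 0x1d))
(.lf (nat_lit 0x19)))))
(.nd (.nd (.nd (.nd (.lf (nat_lit 0x20))
(.lf (nat_lit 9)))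
(.lf (nat_lit 9)))
(.nd (.nd (.lf (nat_lit 0x24))
(.lf (nat_lit 0x16)))
(.lf (nat_lit 0x4d))))
(.nd (.nd (.nd (.lf (nat_lit 0x35))
(.lf (nat_lit 0x31)))
(.lf (nat_lit 0x36)))
(.nd (.lf (nat_lit 0xb))
(.lf (nat_lit 0x19)))))))))
(.nd (.nd (.nd (.nd (.nd (.nd (.nd (.nd (.lf (nat_lit 1))
(.lf (nat_lit 0x19)))
(.lf (nat_lit 0x16)))
(.nd (.nd (.lf (nat_lit 0x1e))
(.lf (nat_lit 0x19)))
(.lf (nat_lit 0xf))))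
(.nd (.nd (.nd (.lf (nat_lit 0x3a))
(.lf (nat_lit 8)))
(.lf (nat_lit 0x46)))
(.nd (.lf (nat_lit 0x2c))
(.lf (nat_lit 8)))))
(.nd (.nd (.nd (.nd (.lf (nat_lit 0xd))
(.lf (nat_lit 0x3b)))
(.lf (nat_lit 0x1b)))
(.nd (.nd (.lf (nat_lit 0x33))
(.lf (nat_lit 0xb)))
(.lf (nat_lit 0x1d))))
(.nd (.nd (.nd (.lf (nat_lit 0x40))
(.lf (nat_lit 0x30)))
(.lf (nat_lit 0xc)))
(.nd (.lf (nat_lit 7))
(.lf (nat_lit 9))))))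
(.nd (.nd (.nd (.nd (.nd (.lf (nat_lit 0xf))
(.lf (nat_lit 0x29)))
(.lf (nat_lit 0xc)))
(.nd (.nd (.lf (nat_lit 0x3b))
(.lf (nat_lit 0x44)))
(.lf (nat_lit 0x52))))
(.nd (.nd (.nd (.lf (nat_lit 0x2b))
(.lf (nat_lit 8)))
(.lf (nat_lit 0x35)))
(.nd (.lf (nat_lit 0x49))
(.lf (nat_lit 0xf)))))
(.nd (.nd (.nd (.nd (.lf (nat_lit 0x31))
(.lf (nat_lit 0x21)))
(.lf (nat_lit 9)))
(.nd (.nd (.lf (nat_lit 0x4a))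
(.lf (nat_lit 0x47)))
(.lf (nat_lit 0x2e))))
(.nd (.nd (.nd (.lf (nat_lit 0x2b))
(.lf (nat_lit 0x4e)))
(.lf (nat_lit 0x10)))
(.nd (.lf (nat_lit 9))
(.lf (nat_lit 0x35)))))))
(.nd (.nd (.nd (.nd (.nd (.nd (.lf (nat_lit 5))
(.lf (nat_lit 0x16)))
(.lf (nat_lit 0x35)))
(.nd (.nd (.lf (nat_lit 0x52))
(.lf (nat_lit 0x4d)))
(.lf (nat_lit 0x19))))
(.nd (.nd (.nd (.lf (nat_lit 0x24))
(.lf (nat_lit 0xb)))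
(.lf (nat_lit 0x3b)))
(.nd (.lf (nat_lit 0xb))
(.lf (nat_lit 0xb)))))
(.nd (.nd (.nd (.nd (.lf (nat_lit 0x1b))
(.lf (nat_lit 0x2d)))
(.lf (nat_lit 0x4c)))
(.nd (.nd (.lf (nat_lit 0x16))
(.lf (nat_lit 0x3e)))
(.lf (nat_lit 0x34))))
(.nd (.nd (.nd (.lf (nat_lit 0xf))
(.lf (nat_lit 0x4a)))
(.lf (nat_lit 8)))
(.nd (.lf (nat_lit 7))
(.lf (nat_lit 0x23))))))
(.nd (.nd (.nd (.nd (.nd (.lf (nat_lit 0x14))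
(.lf (nat_lit 0x52)))
(.lf (nat_lit 0xb)))
(.nd (.nd (.lf (nat_lit 0x18))
(.lf (nat_lit 0xd)))
(.lf (nat_lit 4))))
(.nd (.nd (.nd (.lf (nat_lit 0x45))
(.lf (nat_lit 0xb)))
(.lf (nat_lit 0x24)))
(.nd (.lf (nat_lit 0x1d))
(.lf (nat_lit 0x2a)))))
(.nd (.nd (.nd (.nd (.lf (nat_lit 0x1a))
(.lf (nat_lit 8)))
(.lf (nat_lit 0x3f)))
(.nd (.nd (.lf (nat_lit 0x4f))
(.lf (nat_lit 0x47)))
(.lf (nat_lit 0x10))))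
(.nd (.nd (.nd (.lf (nat_lit 0x12))
(.lf (nat_lit 0xb)))
(.lf (nat_lit 0xa)))
(.nd (.lf (nat_lit 0x22))
(.lf (nat_lit 0x19))))))))
(.nd (.nd (.nd (.nd (.nd (.nd (.nd (.lf (nat_lit 0))
(.lf (nat_lit 0x10)))
(.lf (nat_lit 0x1d)))
(.nd (.nd (.lf (nat_lit 0x35))
(.lf (nat_lit 0xb)))
(.lf (nat_lit 0x3b))))
(.nd (.nd (.nd (.lf (nat_lit 0x43))
(.lf (nat_lit 0x1d)))
(.lf (nat_lit 0x1e)))
(.nd (.lf (nat_lit 0x16))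
(.lf (nat_lit 0x3d)))))
(.nd (.nd (.nd (.nd (.lf (nat_lit 0x22))
(.lf (nat_lit 0x35)))
(.lf (nat_lit 0x4c)))
(.nd (.nd (.lf (nat_lit 0x16))
(.lf (nat_lit 8)))
(.lf (nat_lit 0xb))))
(.nd (.nd (.nd (.lf (nat_lit 0x10))
(.lf (nat_lit 0xb)))
(.lf (nat_lit 0x10)))
(.nd (.lf (nat_lit 7))
(.lf (nat_lit 0x48))))))
(.nd (.nd (.nd (.nd (.nd (.lf (nat_lit 0x25))
(.lf (nat_lit 8)))
(.lf (nat_lit 0xb)))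
(.nd (.nd (.lf (nat_lit 0x39))
(.lf (nat_lit 0x20)))
(.lf (nat_lit 0x2d))))
(.nd (.nd (.nd (.lf (nat_lit 0x3e))
(.lf (nat_lit 0xf)))
(.lf (nat_lit 0xa)))
(.nd (.lf (nat_lit 0x17))
(.lf (nat_lit 0x17)))))
(.nd (.nd (.nd (.nd (.lf (nat_lit 0x2f))
(.lf (nat_lit 0x15)))
(.lf (nat_lit 0x18)))
(.nd (.nd (.lf (nat_lit 0x16))
(.lf (nat_lit 0x43)))
(.lf (nat_lit 0x26))))
(.nd (.nd (.nd (.lf (nat_lit 0x2c))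
(.lf (nat_lit 8)))
(.lf (nat_lit 0x38)))
(.nd (.lf (nat_lit 0x16))
(.lf (nat_lit 0x20)))))))
(.nd (.nd (.nd (.nd (.nd (.nd (.lf (nat_lit 0x1c))
(.lf (nat_lit 0x1b)))
(.lf (nat_lit 0x1c)))
(.nd (.nd (.lf (nat_lit 0x3b))
(.lf (nat_lit 0x44)))
(.lf (nat_lit 0x52))))
(.nd (.nd (.nd (.lf (nat_lit 0x1e))
(.lf (nat_lit 0x10)))
(.lf (nat_lit 0x3b)))
(.nd (.lf (nat_lit 8))
(.lf (nat_lit 0x1b)))))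
(.nd (.nd (.nd (.nd (.lf (nat_lit 0x19))
(.lf (nat_lit 0x30)))
(.lf (nat_lit 0x1d)))
(.nd (.nd (.lf (nat_lit 0x59))
(.lf (nat_lit 0xb)))
(.lf (nat_lit 0xf))))
(.nd (.nd (.nd (.lf (nat_lit 0x34))
(.lf (nat_lit 0x59)))
(.lf (nat_lit 5)))
(.nd (.lf (nat_lit 0x12))
(.lf (nat_lit 3))))))
(.nd (.nd (.nd (.nd (.nd (.lf (nat_lit 0xd))
(.lf (nat_lit 0x18)))
(.lf (nat_lit 0xb)))
(.nd (.nd (.lf (nat_lit 0x1f))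
(.lf (nat_lit 8)))
(.lf (nat_lit 0x2b))))
(.nd (.nd (.nd (.lf (nat_lit 0x45))
(.lf (nat_lit 8)))
(.lf (nat_lit 0x1f)))
(.nd (.lf (nat_lit 0x1a))
(.lf (nat_lit 8)))))
(.nd (.nd (.nd (.nd (.lf (nat_lit 0xb))
(.lf (nat_lit 8)))
(.lf (nat_lit 1)))
(.nd (.nd (.lf (nat_lit 0x1f))
(.lf (nat_lit 0x16)))
(.lf (nat_lit 0x47))))
(.nd (.nd (.nd (.lf (nat_lit 0x55))
(.lf (nat_lit 0x31)))
(.lf (nat_lit 0x19)))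
(.nd (.lf (nat_lit 0x18))
(.lf (nat_lit 0x23)))))))))))
(.nd (.nd (.nd (.nd (.nd (.nd (.nd (.nd (.nd (.nd (.lf (nat_lit 1))
(.lf (nat_lit 0x43)))
(.lf (nat_lit 0x17)))
(.nd (.nd (.lf (nat_lit 0x32))
(.lf (nat_lit 0xb)))
(.lf (nat_lit 8))))
(.nd (.nd (.nd (.lf (nat_lit 0xb))
(.lf (nat_lit 0x32)))
(.lf (nat_lit 0xc)))
(.nd (.nd (.lf (nat_lit 0x32))
(.lf (nat_lit 0x35)))
(.lf (nat_lit 0x47)))))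
(.nd (.nd (.nd (.nd (.lf (nat_lit 0xe))
(.lf (nat_lit 9)))
(.lf (nat_lit 9)))
(.nd (.nd (.lf (nat_lit 0x34))
(.lf (nat_lit 0x4d)))
(.lf (nat_lit 0x12))))
(.nd (.nd (.nd (.lf (nat_lit 0x53))
(.lf (nat_lit 0x1f)))
(.lf (nat_lit 0xc)))
(.nd (.lf (nat_lit 0x42))
(.lf (nat_lit 8))))))
(.nd (.nd (.nd (.nd (.nd (.lf (nat_lit 9))
(.lf (nat_lit 0x1b)))
(.lf (nat_lit 9)))
(.nd (.nd (.lf (nat_lit 0x2d))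
(.lf (nat_lit 0x44)))
(.lf (nat_lit 0x52))))
(.nd (.nd (.nd (.lf (nat_lit 0x18))
(.lf (nat_lit 0x19)))
(.lf (nat_lit 0x30)))
(.nd (.lf (nat_lit 0x1e))
(.lf (nat_lit 0x15)))))
(.nd (.nd (.nd (.nd (.lf (nat_lit 0x27))
(.lf (nat_lit 0x3b)))
(.lf (nat_lit 0x51)))
(.nd (.nd (.lf (nat_lit 0x4a))
(.lf (nat_lit 0xb)))
(.lf (nat_lit 0xf))))
(.nd (.nd (.nd (.lf (nat_lit 0x2c))
(.lf (nat_lit 0x4a)))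
(.lf (nat_lit 0x38)))
(.nd (.lf (nat_lit 9))
(.lf (nat_lit 0x35)))))))
(.nd (.nd (.nd (.nd (.nd (.nd (.lf (nat_lit 2))
(.lf (nat_lit 0x16)))
(.lf (nat_lit 0x52)))
(.nd (.nd (.lf (nat_lit 0x23))
(.lf (nat_lit 0xb)))
(.lf (nat_lit 0x19))))
(.nd (.nd (.nd (.lf (nat_lit 0x43))
(.lf (nat_lit 9)))
(.lf (nat_lit 0x1f)))
(.nd (.lf (nat_lit 0x2a))
(.lf (nat_lit 0x16)))))
(.nd (.nd (.nd (.nd (.lf (nat_lit 0x22))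
(.lf (nat_lit 0x35)))
(.lf (nat_lit 0x4c)))
(.nd (.nd (.lf (nat_lit 0x2a))
(.lf (nat_lit 0x26)))
(.lf (nat_lit 0x2e))))
(.nd (.nd (.nd (.lf (nat_lit 0x4e))
(.lf (nat_lit 8)))
(.lf (nat_lit 0x1f)))
(.nd (.lf (nat_lit 0x37))
(.lf (nat_lit 0xc))))))
(.nd (.nd (.nd (.nd (.nd (.lf (nat_lit 7))
(.lf (nat_lit 8)))
(.lf (nat_lit 0x2a)))
(.nd (.nd (.lf (nat_lit 0x30))
(.lf (nat_lit 0x2f)))
(.lf (nat_lit 7))))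
(.nd (.nd (.nd (.lf (nat_lit 0x36))
(.lf (nat_lit 0x1e)))
(.lf (nat_lit 0x49)))
(.nd (.lf (nat_lit 0x2f))
(.lf (nat_lit 0x35)))))
(.nd (.nd (.nd (.nd (.lf (nat_lit 0x2f))
(.lf (nat_lit 0x23)))
(.lf (nat_lit 0x1b)))
(.nd (.nd (.lf (nat_lit 0x47))
(.lf (nat_lit 0x43)))
(.lf (nat_lit 0x1b))))
(.nd (.nd (.nd (.lf (nat_lit 0x2b))
(.lf (nat_lit 9)))
(.lf (nat_lit 0x12)))
(.nd (.lf (nat_lit 0x21))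
(.lf (nat_lit 0x20))))))))
(.nd (.nd (.nd (.nd (.nd (.nd (.nd (.lf (nat_lit 1))
(.lf (nat_lit 0x19)))
(.lf (nat_lit 0xb)))
(.nd (.nd (.lf (nat_lit 0x46))
(.lf (nat_lit 0x19)))
(.lf (nat_lit 0x2c))))
(.nd (.nd (.nd (.lf (nat_lit 0x23))
(.lf (nat_lit 0x17)))
(.lf (nat_lit 0x1f)))
(.nd (.lf (nat_lit 0x48))
(.lf (nat_lit 0x1f)))))
(.nd (.nd (.nd (.nd (.lf (nat_lit 0x14))
(.lf (nat_lit 0x2f)))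
(.lf (nat_lit 0x10)))
(.nd (.nd (.lf (nat_lit 0x2c))
(.lf (nat_lit 0xb)))
(.lf (nat_lit 8))))
(.nd (.nd (.nd (.lf (nat_lit 0x44))
(.lf (nat_lit 0x3f)))
(.lf (nat_lit 9)))
(.nd (.lf (nat_lit 7))
(.lf (nat_lit 8))))))
(.nd (.nd (.nd (.nd (.nd (.lf (nat_lit 8))
(.lf (nat_lit 0x35)))
(.lf (nat_lit 7)))
(.nd (.nd (.lf (nat_lit 0x10))
(.lf (nat_lit 0x2d)))
(.lf (nat_lit 0xe))))
(.nd (.nd (.nd (.lf (nat_lit 0x33))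
(.lf (nat_lit 0xf)))
(.lf (nat_lit 0x12)))
(.nd (.lf (nat_lit 0xa))
(.lf (nat_lit 9)))))
(.nd (.nd (.nd (.nd (.lf (nat_lit 0x3c))
(.lf (nat_lit 0x10)))
(.lf (nat_lit 0x15)))
(.nd (.nd (.lf (nat_lit 0x4b))
(.lf (nat_lit 0x43)))
(.lf (nat_lit 0xb))))
(.nd (.nd (.nd (.lf (nat_lit 0x2c))
(.lf (nat_lit 0x40)))
(.lf (nat_lit 0x44)))
(.nd (.lf (nat_lit 8))
(.lf (nat_lit 4)))))))
(.nd (.nd (.nd (.nd (.nd (.nd (.lf (nat_lit 3))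
(.lf (nat_lit 0x29)))
(.lf (nat_lit 0x52)))
(.nd (.nd (.lf (nat_lit 0x1d))
(.lf (nat_lit 0x4c)))
(.lf (nat_lit 0x19))))
(.nd (.nd (.nd (.lf (nat_lit 0x32))
(.lf (nat_lit 0x1b)))
(.lf (nat_lit 0x33)))
(.nd (.lf (nat_lit 0x20))
(.lf (nat_lit 0x22)))))
(.nd (.nd (.nd (.nd (.lf (nat_lit 0x21))
(.lf (nat_lit 0x3b)))
(.lf (nat_lit 0x19)))
(.nd (.nd (.lf (nat_lit 0x40))
(.lf (nat_lit 8)))
(.lf (nat_lit 0x32))))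
(.nd (.nd (.nd (.lf (nat_lit 0x34))
(.lf (nat_lit 9)))
(.lf (nat_lit 0x3a)))
(.nd (.lf (nat_lit 0x16))
(.lf (nat_lit 0x16))))))
(.nd (.nd (.nd (.nd (.nd (.lf (nat_lit 0x14))
(.lf (nat_lit 0x12)))
(.lf (nat_lit 0x15)))
(.nd (.nd (.lf (nat_lit 0x16))
(.lf (nat_lit 0x19)))
(.lf (nat_lit 0x36))))
(.nd (.nd (.nd (.lf (nat_lit 0x54))
(.lf (nat_lit 0x16)))
(.lf (nat_lit 0x1f)))
(.nd (.lf (nat_lit 0x23))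
(.lf (nat_lit 0x18)))))
(.nd (.nd (.nd (.nd (.lf (nat_lit 0x20))
(.lf (nat_lit 9)))
(.lf (nat_lit 9)))
(.nd (.nd (.lf (nat_lit 0x32))
(.lf (nat_lit 0x2a)))
(.lf (nat_lit 0x10))))
(.nd (.nd (.nd (.lf (nat_lit 0x55))
(.lf (nat_lit 0x31)))
(.lf (nat_lit 0x12)))
(.nd (.lf (nat_lit 0xb))
(.lf (nat_lit 0x19)))))))))
(.nd (.nd (.nd (.nd (.nd (.nd (.nd (.nd (.lf (nat_lit 0))
(.lf (nat_lit 0x43)))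
(.lf (nat_lit 0x24)))
(.nd (.nd (.lf (nat_lit 0x16))
(.lf (nat_lit 0x31)))
(.lf (nat_lit 0x19))))
(.nd (.nd (.nd (.lf (nat_lit 0xb))
(.lf (nat_lit 0xd)))
(.lf (nat_lit 0x46)))
(.nd (.lf (nat_lit 0x32))
(.lf (nat_lit 0x32)))))
(.nd (.nd (.nd (.nd (.lf (nat_lit 0x14))
(.lf (nat_lit 0xa)))
(.lf (nat_lit 0xb)))
(.nd (.nd (.lf (nat_lit 0x4d))
(.lf (nat_lit 0x1f)))
(.lf (nat_lit 9))))
(.nd (.nd (.nd (.lf (nat_lit 0x4e))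
(.lf (nat_lit 0x23)))
(.lf (nat_lit 0x10)))
(.nd (.lf (nat_lit 0))
(.lf (nat_lit 0x48))))))
(.nd (.nd (.nd (.nd (.nd (.lf (nat_lit 8))
(.lf (nat_lit 0xb)))
(.lf (nat_lit 7)))
(.nd (.nd (.lf (nat_lit 0x2d))
(.lf (nat_lit 0x50)))
(.lf (nat_lit 0x52))))
(.nd (.nd (.nd (.lf (nat_lit 0x3e))
(.lf (nat_lit 9)))
(.lf (nat_lit 0x49)))
(.nd (.lf (nat_lit 0x37))
(.lf (nat_lit 0xc)))))
(.nd (.nd (.nd (.nd (.lf (nat_lit 0x19))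
(.lf (nat_lit 8)))
(.lf (nat_lit 0x1d)))
(.nd (.nd (.lf (nat_lit 0x59))
(.lf (nat_lit 0x47)))
(.lf (nat_lit 0x36))))
(.nd (.nd (.nd (.lf (nat_lit 0x2c))
(.lf (nat_lit 0x59)))
(.lf (nat_lit 0x10)))
(.nd (.lf (nat_lit 0x16))
(.lf (nat_lit 0x11)))))))
(.nd (.nd (.nd (.nd (.nd (.nd (.lf (nat_lit 5))
(.lf (nat_lit 0x16)))
(.lf (nat_lit 0x19)))
(.nd (.nd (.lf (nat_lit 0x52))
(.lf (nat_lit 0x47)))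
(.lf (nat_lit 0x19))))
(.nd (.nd (.nd (.lf (nat_lit 0x23))
(.lf (nat_lit 0x1b)))
(.lf (nat_lit 0x2d)))
(.nd (.lf (nat_lit 0x16))
(.lf (nat_lit 0x21)))))
(.nd (.nd (.nd (.nd (.lf (nat_lit 0x26))
(.lf (nat_lit 0x24)))
(.lf (nat_lit 0x4f)))
(.nd (.nd (.lf (nat_lit 0x33))
(.lf (nat_lit 8)))
(.lf (nat_lit 0x15))))
(.nd (.nd (.nd (.lf (nat_lit 8))
(.lf (nat_lit 8)))
(.lf (nat_lit 3)))
(.nd (.lf (nat_lit 0x30))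
(.lf (nat_lit 0x22))))))
(.nd (.nd (.nd (.nd (.nd (.lf (nat_lit 0x14))
(.lf (nat_lit 0x35)))
(.lf (nat_lit 0x2c)))
(.nd (.nd (.lf (nat_lit 0x3e))
(.lf (nat_lit 0xd)))
(.lf (nat_lit 7))))
(.nd (.nd (.nd (.lf (nat_lit 0x45))
(.lf (nat_lit 0x1e)))
(.lf (nat_lit 0x32)))
(.nd (.lf (nat_lit 0x37))
(.lf (nat_lit 0x19)))))
(.nd (.nd (.nd (.nd (.lf (nat_lit 0xd))
(.lf (nat_lit 0x19)))
(.lf (nat_lit 0x3b)))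
(.nd (.nd (.lf (nat_lit 0x47))
(.lf (nat_lit 0x47)))
(.lf (nat_lit 0x58))))
(.nd (.nd (.nd (.lf (nat_lit 0x12))
(.lf (nat_lit 0x16)))
(.lf (nat_lit 0x49)))
(.nd (.lf (nat_lit 0x22))
(.lf (nat_lit 0x19))))))))
(.nd (.nd (.nd (.nd (.nd (.nd (.nd (.lf (nat_lit 1))
(.lf (nat_lit 0x1b)))
(.lf (nat_lit 0x19)))
(.nd (.nd (.lf (nat_lit 0x1e))
(.lf (nat_lit 0xb)))
(.lf (nat_lit 0x19))))
(.nd (.nd (.nd (.lf (nat_lit 0x43))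
(.lf (nat_lit 0x37)))
(.lf (nat_lit 0x24)))
(.nd (.lf (nat_lit 0x2b))
(.lf (nat_lit 0xc)))))
(.nd (.nd (.nd (.nd (.lf (nat_lit 0x2e))
(.lf (nat_lit 0x17)))
(.lf (nat_lit 0x49)))
(.nd (.nd (.lf (nat_lit 0x1f))
(.lf (nat_lit 0x2a)))
(.lf (nat_lit 0x19))))
(.nd (.nd (.nd (.lf (nat_lit 0x44))
(.lf (nat_lit 0x39)))
(.lf (nat_lit 0x2d)))
(.nd (.lf (nat_lit 1))
(.lf (nat_lit 9))))))
(.nd (.nd (.nd (.nd (.nd (.lf (nat_lit 0xa))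
(.lf (nat_lit 0xb)))
(.lf (nat_lit 0x21)))
(.nd (.nd (.lf (nat_lit 0x3e))
(.lf (nat_lit 0xf)))
(.lf (nat_lit 7))))
(.nd (.nd (.nd (.lf (nat_lit 0x33))
(.lf (nat_lit 0x19)))
(.lf (nat_lit 0x12)))
(.nd (.lf (nat_lit 0x41))
(.lf (nat_lit 0xc)))))
(.nd (.nd (.nd (.nd (.lf (nat_lit 0x17))
(.lf (nat_lit 0x10)))
(.lf (nat_lit 0xc)))
(.nd (.nd (.lf (nat_lit 0x4d))
(.lf (nat_lit 0x43)))
(.lf (nat_lit 0x1b))))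
(.nd (.nd (.nd (.lf (nat_lit 0x2c))
(.lf (nat_lit 0x2d)))
(.lf (nat_lit 0x38)))
(.nd (.lf (nat_lit 0x16))
(.lf (nat_lit 0x56)))))))
(.nd (.nd (.nd (.nd (.nd (.nd (.lf (nat_lit 2))
(.lf (nat_lit 0x1b)))
(.lf (nat_lit 7)))
(.nd (.nd (.lf (nat_lit 0x3b))
(.lf (nat_lit 0x4a)))
(.lf (nat_lit 0x52))))
(.nd (.nd (.nd (.lf (nat_lit 0x16))
(.lf (nat_lit 8)))
(.lf (nat_lit 0x3e)))
(.nd (.lf (nat_lit 0x34))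
(.lf (nat_lit 0x26)))))
(.nd (.nd (.nd (.nd (.lf (nat_lit 0x31))
(.lf (nat_lit 0x2d)))
(.lf (nat_lit 0x19)))
(.nd (.nd (.lf (nat_lit 0xb))
(.lf (nat_lit 0x1e)))
(.lf (nat_lit 0x46))))
(.nd (.nd (.nd (.lf (nat_lit 0x34))
(.lf (nat_lit 0x4e)))
(.lf (nat_lit 0x18)))
(.nd (.lf (nat_lit 0x30))
(.lf (nat_lit 0x32))))))
(.nd (.nd (.nd (.nd (.nd (.lf (nat_lit 0xd))
(.lf (nat_lit 0x1e)))
(.lf (nat_lit 0xb)))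
(.nd (.nd (.lf (nat_lit 0x3a))
(.lf (nat_lit 0x34)))
(.lf (nat_lit 0x48))))
(.nd (.nd (.nd (.lf (nat_lit 0x4c))
(.lf (nat_lit 0x15)))
(.lf (nat_lit 0x19)))
(.nd (.lf (nat_lit 0x37))
(.lf (nat_lit 0x19)))))
(.nd (.nd (.nd (.nd (.lf (nat_lit 0x20))
(.lf (nat_lit 0x3b)))
(.lf (nat_lit 0xf)))
(.nd (.nd (.lf (nat_lit 0x33))
(.lf (nat_lit 0x2a)))
(.lf (nat_lit 0x47))))
(.nd (.nd (.nd (.lf (nat_lit 0x4a))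
(.lf (nat_lit 0x3e)))
(.lf (nat_lit 0x19)))
(.nd (.lf (nat_lit 0x2c))
(.lf (nat_lit 0x1a))))))))))
(.nd (.nd (.nd (.nd (.nd (.nd (.nd (.nd (.nd (.lf (nat_lit 1))
(.lf (nat_lit 0x19)))
(.lf (nat_lit 0x1e)))
(.nd (.nd (.lf (nat_lit 0x3d))
(.lf (nat_lit 0x31)))
(.lf (nat_lit 0x19))))
(.nd (.nd (.nd (.lf (nat_lit 0xb))
(.lf (nat_lit 0x3c)))
(.lf (nat_lit 1)))
(.nd (.lf (nat_lit 0x1f))
(.lf (nat_lit 0x4f)))))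
(.nd (.nd (.nd (.nd (.lf (nat_lit 0xd))
(.lf (nat_lit 0x1d)))
(.lf (nat_lit 0x2c)))
(.nd (.nd (.lf (nat_lit 0x4b))
(.lf (nat_lit 0x4d)))
(.lf (nat_lit 0x4a))))
(.nd (.nd (.nd (.lf (nat_lit 0x44))
(.lf (nat_lit 0x19)))
(.lf (nat_lit 0x1a)))
(.nd (.lf (nat_lit 7))
(.lf (nat_lit 9))))))
(.nd (.nd (.nd (.nd (.nd (.lf (nat_lit 0x11))
(.lf (nat_lit 0x26)))
(.lf (nat_lit 2)))
(.nd (.nd (.lf (nat_lit 0x2d))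
(.lf (nat_lit 0x4c)))
(.lf (nat_lit 0x56))))
(.nd (.nd (.nd (.lf (nat_lit 0x34))
(.lf (nat_lit 8)))
(.lf (nat_lit 0x38)))
(.nd (.lf (nat_lit 0x1e))
(.lf (nat_lit 0x2f)))))
(.nd (.nd (.nd (.nd (.lf (nat_lit 0x31))
(.lf (nat_lit 0x2d)))
(.lf (nat_lit 0x19)))
(.nd (.nd (.lf (nat_lit 0xb))
(.lf (nat_lit 0x3e)))
(.lf (nat_lit 0x1f))))
(.nd (.nd (.nd (.lf (nat_lit 0x48))
(.lf (nat_lit 0x4a)))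
(.lf (nat_lit 0x10)))
(.nd (.lf (nat_lit 0x2a))
(.lf (nat_lit 0x36)))))))
(.nd (.nd (.nd (.nd (.nd (.nd (.lf (nat_lit 5))
(.lf (nat_lit 0x29)))
(.lf (nat_lit 0x1a)))
(.nd (.nd (.lf (nat_lit 0x35))
(.lf (nat_lit 0x58)))
(.lf (nat_lit 0x19))))
(.nd (.nd (.nd (.lf (nat_lit 0x43))
(.lf (nat_lit 0x15)))
(.lf (nat_lit 8)))
(.nd (.lf (nat_lit 0x2c))
(.lf (nat_lit 0x2c)))))
(.nd (.nd (.nd (.nd (.lf (nat_lit 0xb))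
(.lf (nat_lit 0x2d)))
(.lf (nat_lit 0x4c)))
(.nd (.nd (.lf (nat_lit 0x3e))
(.lf (nat_lit 9)))
(.lf (nat_lit 0x22))))
(.nd (.nd (.nd (.lf (nat_lit 0x34))
(.lf (nat_lit 0x1b)))
(.lf (nat_lit 0x36)))
(.nd (.lf (nat_lit 0x17))
(.lf (nat_lit 0xb))))))
(.nd (.nd (.nd (.nd (.nd (.lf (nat_lit 7))
(.lf (nat_lit 0x56)))
(.lf (nat_lit 0x2c)))
(.nd (.nd (.lf (nat_lit 9))
(.lf (nat_lit 8)))
(.lf (nat_lit 0xa))))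
(.nd (.nd (.nd (.lf (nat_lit 0x3e))
(.lf (nat_lit 0xb)))
(.lf (nat_lit 8)))
(.nd (.lf (nat_lit 0x1a))
(.lf (nat_lit 0x17)))))
(.nd (.nd (.nd (.nd (.lf (nat_lit 0x1d))
(.lf (nat_lit 8)))
(.lf (nat_lit 0x18)))
(.nd (.nd (.lf (nat_lit 0x2a))
(.lf (nat_lit 0x4c)))
(.lf (nat_lit 0x26))))
(.nd (.nd (.nd (.lf (nat_lit 0x35))
(.lf (nat_lit 0xb)))
(.lf (nat_lit 0xa)))
(.nd (.lf (nat_lit 8))
(.lf (nat_lit 0x19))))))))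
(.nd (.nd (.nd (.nd (.nd (.nd (.nd (.lf (nat_lit 1))
(.lf (nat_lit 0x2e)))
(.lf (nat_lit 0x15)))
(.nd (.nd (.lf (nat_lit 0x1a))
(.lf (nat_lit 0x47)))
(.lf (nat_lit 0x3b))))
(.nd (.nd (.nd (.lf (nat_lit 0x43))
(.lf (nat_lit 0xe)))
(.lf (nat_lit 0x11)))
(.nd (.lf (nat_lit 0x30))
(.lf (nat_lit 0x16)))))
(.nd (.nd (.nd (.nd (.lf (nat_lit 0x15))
(.lf (nat_lit 0x1a)))
(.lf (nat_lit 0x4c)))
(.nd (.nd (.lf (nat_lit 0x2a))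
(.lf (nat_lit 0x15)))
(.lf (nat_lit 0x19))))
(.nd (.nd (.nd (.lf (nat_lit 0x10))
(.lf (nat_lit 9)))
(.lf (nat_lit 0x3b)))
(.nd (.lf (nat_lit 7))
(.lf (nat_lit 8))))))
(.nd (.nd (.nd (.nd (.nd (.lf (nat_lit 0xf))
(.lf (nat_lit 0x56)))
(.lf (nat_lit 0x29)))
(.nd (.nd (.lf (nat_lit 0x3b))
(.lf (nat_lit 0x20)))
(.lf (nat_lit 2))))
(.nd (.nd (.nd (.lf (nat_lit 0x33))
(.lf (nat_lit 8)))
(.lf (nat_lit 0xa)))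
(.nd (.lf (nat_lit 0xa))
(.lf (nat_lit 8)))))
(.nd (.nd (.nd (.nd (.lf (nat_lit 0x42))
(.lf (nat_lit 0x22)))
(.lf (nat_lit 0x3d)))
(.nd (.nd (.lf (nat_lit 0x16))
(.lf (nat_lit 0x43)))
(.lf (nat_lit 0x22))))
(.nd (.nd (.nd (.lf (nat_lit 0x2c))
(.lf (nat_lit 0x59)))
(.lf (nat_lit 0x40)))
(.nd (.lf (nat_lit 0x2a))
(.lf (nat_lit 0x38)))))))
(.nd (.nd (.nd (.nd (.nd (.nd (.lf (nat_lit 4))
(.lf (nat_lit 0x16)))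
(.lf (nat_lit 0x23)))
(.nd (.nd (.lf (nat_lit 0x52))
(.lf (nat_lit 0x4c)))
(.lf (nat_lit 0xe))))
(.nd (.nd (.nd (.lf (nat_lit 0x2a))
(.lf (nat_lit 0x2c)))
(.lf (nat_lit 0x10)))
(.nd (.lf (nat_lit 0xb))
(.lf (nat_lit 0xb)))))
(.nd (.nd (.nd (.nd (.lf (nat_lit 0x19))
(.lf (nat_lit 0x2d)))
(.lf (nat_lit 0x52)))
(.nd (.nd (.lf (nat_lit 0xb))
(.lf (nat_lit 8)))
(.lf (nat_lit 0x1f))))
(.nd (.nd (.nd (.lf (nat_lit 0x39))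
(.lf (nat_lit 0x22)))
(.lf (nat_lit 0xc)))
(.nd (.lf (nat_lit 8))
(.lf (nat_lit 0x20))))))
(.nd (.nd (.nd (.nd (.nd (.lf (nat_lit 0xe))
(.lf (nat_lit 0x37)))
(.lf (nat_lit 0x21)))
(.nd (.nd (.lf (nat_lit 0x2c))
(.lf (nat_lit 9)))
(.lf (nat_lit 0x24))))
(.nd (.nd (.nd (.lf (nat_lit 0x45))
(.lf (nat_lit 0x22)))
(.lf (nat_lit 0x19)))
(.nd (.lf (nat_lit 0x3c))
(.lf (nat_lit 0x19)))))
(.nd (.nd (.nd (.nd (.lf (nat_lit 0x20))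
(.lf (nat_lit 0x32)))
(.lf (nat_lit 0x1c)))
(.nd (.nd (.lf (nat_lit 0x33))
(.lf (nat_lit 0x45)))
(.lf (nat_lit 0x2a))))
(.nd (.nd (.nd (.lf (nat_lit 0x12))
(.lf (nat_lit 0x1f)))
(.lf (nat_lit 0x4b)))
(.nd (.lf (nat_lit 0x1b))
(.lf (nat_lit 0x51)))))))))
(.nd (.nd (.nd (.nd (.nd (.nd (.nd (.nd (.lf (nat_lit 1))
(.lf (nat_lit 0x43)))
(.lf (nat_lit 0x15)))
(.nd (.nd (.lf (nat_lit 0x1f))
(.lf (nat_lit 0x38)))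
(.lf (nat_lit 0x19))))
(.nd (.nd (.nd (.lf (nat_lit 0x23))
(.lf (nat_lit 0x13)))
(.lf (nat_lit 0x18)))
(.nd (.lf (nat_lit 9))
(.lf (nat_lit 0xb)))))
(.nd (.nd (.nd (.nd (.lf (nat_lit 0xd))
(.lf (nat_lit 0x41)))
(.lf (nat_lit 0x16)))
(.nd (.nd (.lf (nat_lit 0x1e))
(.lf (nat_lit 0x2d)))
(.lf (nat_lit 0x55))))
(.nd (.nd (.nd (.lf (nat_lit 0x44))
(.lf (nat_lit 0x23)))
(.lf (nat_lit 0x2d)))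
(.nd (.lf (nat_lit 1))
(.lf (nat_lit 9))))))
(.nd (.nd (.nd (.nd (.nd (.lf (nat_lit 0xc))
(.lf (nat_lit 0x22)))
(.lf (nat_lit 9)))
(.nd (.nd (.lf (nat_lit 0x10))
(.lf (nat_lit 0x44)))
(.lf (nat_lit 0x35))))
(.nd (.nd (.nd (.lf (nat_lit 0x3e))
(.lf (nat_lit 8)))
(.lf (nat_lit 0x12)))
(.nd (.lf (nat_lit 0x17))
(.lf (nat_lit 0xe)))))
(.nd (.nd (.nd (.nd (.lf (nat_lit 0x19))
(.lf (nat_lit 0x21)))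
(.lf (nat_lit 0x1e)))
(.nd (.nd (.lf (nat_lit 0x59))
(.lf (nat_lit 0x47)))
(.lf (nat_lit 0xb))))
(.nd (.nd (.nd (.lf (nat_lit 0x2b))
(.lf (nat_lit 0x59)))
(.lf (nat_lit 0x44)))
(.nd (.lf (nat_lit 8))
(.lf (nat_lit 0xf)))))))
(.nd (.nd (.nd (.nd (.nd (.nd (.lf (nat_lit 3))
(.lf (nat_lit 0x22)))
(.lf (nat_lit 0x35)))
(.nd (.nd (.lf (nat_lit 0x1d))
(.lf (nat_lit 0x4b)))
(.lf (nat_lit 0x2c))))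
(.nd (.nd (.nd (.lf (nat_lit 0x3d))
(.lf (nat_lit 0x1b)))
(.lf (nat_lit 0x10)))
(.nd (.lf (nat_lit 8))
(.lf (nat_lit 0xb)))))
(.nd (.nd (.nd (.nd (.lf (nat_lit 0x1b))
(.lf (nat_lit 0x10)))
(.lf (nat_lit 0x4c)))
(.nd (.nd (.lf (nat_lit 0x30))
(.lf (nat_lit 0x30)))
(.lf (nat_lit 0x36))))
(.nd (.nd (.nd (.lf (nat_lit 0xf))
(.lf (nat_lit 0x17)))
(.lf (nat_lit 0x55)))
(.nd (.lf (nat_lit 0xa))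
(.lf (nat_lit 0x39))))))
(.nd (.nd (.nd (.nd (.nd (.lf (nat_lit 7))
(.lf (nat_lit 9)))
(.lf (nat_lit 0x1b)))
(.nd (.nd (.lf (nat_lit 0x30))
(.lf (nat_lit 0x3d)))
(.lf (nat_lit 2))))
(.nd (.nd (.nd (.lf (nat_lit 0x45))
(.lf (nat_lit 0x2c)))
(.lf (nat_lit 0x19)))
(.nd (.lf (nat_lit 0x23))
(.lf (nat_lit 0x2f)))))
(.nd (.nd (.nd (.nd (.lf (nat_lit 0x1a))
(.lf (nat_lit 8)))
(.lf (nat_lit 9)))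
(.nd (.nd (.lf (nat_lit 0x32))
(.lf (nat_lit 0x47)))
(.lf (nat_lit 0x10))))
(.nd (.nd (.nd (.lf (nat_lit 0xa))
(.lf (nat_lit 0x1f)))
(.lf (nat_lit 0x58)))
(.nd (.lf (nat_lit 0x26))
(.lf (nat_lit 0x19))))))))
(.nd (.nd (.nd (.nd (.nd (.nd (.nd (.lf (nat_lit 6))
(.lf (nat_lit 0x10)))
(.lf (nat_lit 0x51)))
(.nd (.nd (.lf (nat_lit 0x56))
(.lf (nat_lit 0xb)))
(.lf (nat_lit 0x10))))
(.nd (.nd (.nd (.lf (nat_lit 0x43))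
(.lf (nat_lit 9)))
(.lf (nat_lit 0x46)))
(.nd (.lf (nat_lit 0x33))
(.lf (nat_lit 0x20)))))
(.nd (.nd (.nd (.nd (.lf (nat_lit 0xb))
(.lf (nat_lit 0x2f)))
(.lf (nat_lit 0x49)))
(.nd (.nd (.lf (nat_lit 0x33))
(.lf (nat_lit 0xf)))
(.lf (nat_lit 0xb))))
(.nd (.nd (.nd (.lf (nat_lit 0x10))
(.lf (nat_lit 8)))
(.lf (nat_lit 0x10)))
(.nd (.lf (nat_lit 7))
(.lf (nat_lit 0x2a))))))
(.nd (.nd (.nd (.nd (.nd (.lf (nat_lit 7))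
(.lf (nat_lit 0x52)))
(.lf (nat_lit 0xb)))
(.nd (.nd (.lf (nat_lit 0x48))
(.lf (nat_lit 0x20)))
(.lf (nat_lit 0x3e))))
(.nd (.nd (.nd (.lf (nat_lit 0x3f))
(.lf (nat_lit 9)))
(.lf (nat_lit 7)))
(.nd (.lf (nat_lit 0xa))
(.lf (nat_lit 0x13)))))
(.nd (.nd (.nd (.nd (.lf (nat_lit 0x12))
(.lf (nat_lit 0xb)))
(.lf (nat_lit 0x46)))
(.nd (.nd (.lf (nat_lit 0x16))
(.lf (nat_lit 0x43)))
(.lf (nat_lit 0x22))))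
(.nd (.nd (.nd (.lf (nat_lit 0x48))
(.lf (nat_lit 8)))
(.lf (nat_lit 0x38)))
(.nd (.lf (nat_lit 0x2c))
(.lf (nat_lit 0x20)))))))
(.nd (.nd (.nd (.nd (.nd (.nd (.lf (nat_lit 9))
(.lf (nat_lit 0x22)))
(.lf (nat_lit 0x12)))
(.nd (.nd (.lf (nat_lit 0x3b))
(.lf (nat_lit 0x4a)))
(.lf (nat_lit 0x52))))
(.nd (.nd (.nd (.lf (nat_lit 0x1f))
(.lf (nat_lit 0x16)))
(.lf (nat_lit 0x2d)))
(.nd (.lf (nat_lit 0x3a))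
(.lf (nat_lit 0x1b)))))
(.nd (.nd (.nd (.nd (.lf (nat_lit 0x27))
(.lf (nat_lit 0x3b)))
(.lf (nat_lit 0x19)))
(.nd (.nd (.lf (nat_lit 0xb))
(.lf (nat_lit 0x3b)))
(.lf (nat_lit 0x24))))
(.nd (.nd (.nd (.lf (nat_lit 8))
(.lf (nat_lit 0x59)))
(.lf (nat_lit 0x4e)))
(.nd (.lf (nat_lit 0x30))
(.lf (nat_lit 0x23))))))
(.nd (.nd (.nd (.nd (.nd (.lf (nat_lit 0xd))
(.lf (nat_lit 0xc)))
(.lf (nat_lit 0x1b)))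
(.nd (.nd (.lf (nat_lit 0x16))
(.lf (nat_lit 8)))
(.lf (nat_lit 0x55))))
(.nd (.nd (.nd (.lf (nat_lit 0x45))
(.lf (nat_lit 0x17)))
(.lf (nat_lit 0x19)))
(.nd (.lf (nat_lit 0x17))
(.lf (nat_lit 8)))))
(.nd (.nd (.nd (.nd (.lf (nat_lit 0xb))
(.lf (nat_lit 0xf)))
(.lf (nat_lit 8)))
(.nd (.nd (.lf (nat_lit 0x1e))
(.lf (nat_lit 0x45)))
(.lf (nat_lit 0x45))))
(.nd (.nd (.nd (.lf (nat_lit 0x11))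
(.lf (nat_lit 0x19)))
(.lf (nat_lit 0x3b)))
(.nd (.lf (nat_lit 0x18))
(.lf (nat_lit 0x23))))))))))))

noncomputable def bSS62 : BT := (.nd (.nd (.nd (.nd (.lf (nat_lit 3))
(.lf (nat_lit 0x14)))
(.nd (.lf (nat_lit 0xa))
(.lf (nat_lit 0x24))))
(.nd (.nd (.lf (nat_lit 6))
(.lf (nat_lit 0x21)))
(.nd (.lf (nat_lit 0x11))
(.lf (nat_lit 0x30)))))
(.nd (.nd (.nd (.lf (nat_lit 5))
(.lf (nat_lit 0x18)))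
(.nd (.lf (nat_lit 0xc))
(.lf (nat_lit 0x28))))
(.nd (.nd (.lf (nat_lit 9))
(.lf (nat_lit 0x22)))
(.lf (nat_lit 0x12)))))

/-- the check -/
noncomputable def ca62 (i c : ℕ) : Bool := cArrs Y0 6 2 90 rl62 (NP0 6) (pp0 6) (jt0 6) 15 bSS62.get bAG62.get bAQ62.get i c

theorem cSS62 : ∀ S < 2 ^ 6, ((Finset.range 6).filter fun p => S.testBit p = true).card = 2 → ∃ e < 15, bSS62.get e = S := by decide +kernel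

theorem ca62_0 : ca62 0 4 = true := by decide +kernel

theorem ca62_4 : ca62 4 4 = true := by decide +kernel

theorem ca62_8 : ca62 8 4 = true := by decide +kernel

theorem ca62_12 : ca62 12 4 = true := by decide +kernel

theorem ca62_16 : ca62 16 4 = true := by decide +kernel

theorem ca62_20 : ca62 20 4 = true := by decide +kernel

theorem ca62_24 : ca62 24 4 = true := by decide +kernel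

theorem ca62_28 : ca62 28 4 = true := by decide +kernel

theorem ca62_32 : ca62 32 4 = true := by decide +kernel

theorem ca62_36 : ca62 36 4 = true := by decide +kernel

theorem ca62_40 : ca62 40 4 = true := by decide +kernel

theorem ca62_44 : ca62 44 4 = true := by decide +kernel

theorem ca62_48 : ca62 48 4 = true := by decide +kernel

theorem ca62_52 : ca62 52 4 = true := by decide +kernel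

theorem ca62_56 : ca62 56 4 = true := by decide +kernel

theorem ca62_60 : ca62 60 4 = true := by decide +kernel

theorem ca62_64 : ca62 64 4 = true := by decide +kernel

theorem ca62_68 : ca62 68 4 = true := by decide +kernel

theorem ca62_72 : ca62 72 4 = true := by decide +kernel

theorem ca62_76 : ca62 76 4 = true := by decide +kernel

theorem ca62_80 : ca62 80 4 = true := by decide +kernel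

theorem ca62_84 : ca62 84 4 = true := by decide +kernel

theorem ca62_88 : ca62 88 4 = true := by decide +kernel

theorem ca62_92 : ca62 92 2 = true := by decide +kernel

end Pool.Agent.T2h40.CW6
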