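import Pool.Agent.T2h40.CW6.R63
import Pool.Agent.T2h40.CW6.Pm

set_option autoImplicit false
set_option maxRecDepth 100000

namespace Pool.Agent.T2h40.CW6

/-! Arrangements for 6 ends, 3 outer ones. -/

noncomputable def bAG63 : BT := (.nd (.nd (.nd (.nd (.nd (.nd (.nd (.nd (.nd (.nd (.nd (.lf (nat_lit 0))
(.lf (nat_lit 0xbb)))
(.nd (.lf (nat_lit 0x147))
(.lf (nat_lit 0x14b))))
(.nd (.nd (.lf (nat_lit 0x14b))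
(.lf (nat_lit 0x26)))
(.nd (.lf (nat_lit 0x21c))
(.lf (nat_lit 0xf3)))))
(.nd (.nd (.nd (.lf (nat_lit 0x98))
(.lf (nat_lit 0x161)))
(.nd (.lf (nat_lit 0))
(.lf (nat_lit 0x2a))))
(.nd (.nd (.lf (nat_lit 0x3f))
(.lf (nat_lit 0x194)))
(.lf (nat_lit 0x2a4)))))
(.nd (.nd (.nd (.nd (.lf (nat_lit 0x45))
(.lf (nat_lit 0x199)))
(.nd (.lf (nat_lit 0x256))
(.lf (nat_lit 0x42))))
(.nd (.nd (.lf (nat_lit 0))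
(.lf (nat_lit 0x3f)))
(.nd (.lf (nat_lit 0x243))
(.lf (nat_lit 0xf7)))))
(.nd (.nd (.nd (.lf (nat_lit 0x1d6))
(.lf (nat_lit 0x1a2)))
(.nd (.lf (nat_lit 0xa6))
(.lf (nat_lit 0xf5))))
(.nd (.nd (.lf (nat_lit 0x134))
(.lf (nat_lit 0x14e)))
(.lf (nat_lit 9))))))
(.nd (.nd (.nd (.nd (.nd (.lf (nat_lit 0x14e))
(.lf (nat_lit 0x204)))
(.nd (.lf (nat_lit 0xda))
(.lf (nat_lit 0x199))))
(.nd (.nd (.lf (nat_lit 0x149))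
(.lf (nat_lit 0xe1)))
(.nd (.lf (nat_lit 0x26))
(.lf (nat_lit 0x176)))))
(.nd (.nd (.nd (.lf (nat_lit 0xc))
(.lf (nat_lit 0xbe)))
(.nd (.lf (nat_lit 0x19e))
(.lf (nat_lit 0x1e5))))
(.nd (.nd (.lf (nat_lit 0x1c5))
(.lf (nat_lit 0xc)))
(.lf (nat_lit 0x1ed)))))
(.nd (.nd (.nd (.nd (.lf (nat_lit 0x257))
(.lf (nat_lit 0x12)))
(.nd (.lf (nat_lit 0x21c))
(.lf (nat_lit 0xe1))))
(.nd (.nd (.lf (nat_lit 0xe1))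
(.lf (nat_lit 0x23e)))
(.lf (nat_lit 0x3f))))
(.nd (.nd (.nd (.lf (nat_lit 0x11f))
(.lf (nat_lit 0xe0)))
(.nd (.lf (nat_lit 0x275))
(.lf (nat_lit 0x38))))
(.nd (.nd (.lf (nat_lit 0x38))
(.lf (nat_lit 0x3f)))
(.lf (nat_lit 0xe1)))))))
(.nd (.nd (.nd (.nd (.nd (.nd (.lf (nat_lit 0x1a2))
(.lf (nat_lit 9)))
(.nd (.lf (nat_lit 0x245))
(.lf (nat_lit 0x1a5))))
(.nd (.nd (.lf (nat_lit 0x1e9))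
(.lf (nat_lit 0x275)))
(.nd (.lf (nat_lit 0x6b))
(.lf (nat_lit 0xf4)))))
(.nd (.nd (.nd (.lf (nat_lit 0x19))
(.lf (nat_lit 0x245)))
(.nd (.lf (nat_lit 0x1f7))
(.lf (nat_lit 9))))
(.nd (.nd (.lf (nat_lit 0x52))
(.lf (nat_lit 0xac)))
(.lf (nat_lit 0x112)))))
(.nd (.nd (.nd (.nd (.lf (nat_lit 0x16))
(.lf (nat_lit 0x3d)))
(.nd (.lf (nat_lit 0x1a5))
(.lf (nat_lit 0x23e))))
(.nd (.nd (.lf (nat_lit 0x191))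
(.lf (nat_lit 0x1f)))
(.nd (.lf (nat_lit 0x98))
(.lf (nat_lit 0xc2)))))
(.nd (.nd (.nd (.lf (nat_lit 0xf5))
(.lf (nat_lit 0xe1)))
(.nd (.lf (nat_lit 0x32))
(.lf (nat_lit 0x4d))))
(.nd (.nd (.lf (nat_lit 0xbe))
(.lf (nat_lit 0x134)))
(.lf (nat_lit 0x216))))))
(.nd (.nd (.nd (.nd (.nd (.lf (nat_lit 0x98))
(.lf (nat_lit 0xe1)))
(.nd (.lf (nat_lit 4))
(.lf (nat_lit 0x35))))
(.nd (.nd (.lf (nat_lit 0x2c))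
(.lf (nat_lit 0xf5)))
(.nd (.lf (nat_lit 0x22e))
(.lf (nat_lit 6)))))
(.nd (.nd (.nd (.lf (nat_lit 0x256))
(.lf (nat_lit 0x33)))
(.nd (.lf (nat_lit 0x17c))
(.lf (nat_lit 0xf3))))
(.nd (.nd (.lf (nat_lit 0x99))
(.lf (nat_lit 0x17f)))
(.lf (nat_lit 0x2c)))))
(.nd (.nd (.nd (.nd (.lf (nat_lit 0x182))
(.lf (nat_lit 0x192)))
(.nd (.lf (nat_lit 0x3f))
(.lf (nat_lit 0x165))))
(.nd (.nd (.lf (nat_lit 0xe0))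
(.lf (nat_lit 0x1fb)))
(.lf (nat_lit 0x33))))
(.nd (.nd (.nd (.lf (nat_lit 0x70))
(.lf (nat_lit 0x85)))
(.nd (.lf (nat_lit 0x21a))
(.lf (nat_lit 0xf7))))
(.nd (.nd (.lf (nat_lit 0x2a4))
(.lf (nat_lit 2)))
(.lf (nat_lit 0x165))))))))
(.nd (.nd (.nd (.nd (.nd (.nd (.nd (.lf (nat_lit 0x134))
(.lf (nat_lit 0x99)))
(.nd (.lf (nat_lit 0x42))
(.lf (nat_lit 0x95))))
(.nd (.nd (.lf (nat_lit 0x2a))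
(.lf (nat_lit 0x134)))
(.nd (.lf (nat_lit 0x1e5))
(.lf (nat_lit 0xc)))))
(.nd (.nd (.nd (.lf (nat_lit 0x1c5))
(.lf (nat_lit 6)))
(.nd (.lf (nat_lit 0x1b7))
(.lf (nat_lit 0x135))))
(.nd (.nd (.lf (nat_lit 0x161))
(.lf (nat_lit 0x275)))
(.lf (nat_lit 0x3d)))))
(.nd (.nd (.nd (.nd (.lf (nat_lit 0x14e))
(.lf (nat_lit 0x1b5)))
(.nd (.lf (nat_lit 0xee))
(.lf (nat_lit 0x1d1))))
(.nd (.nd (.lf (nat_lit 0x168))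
(.lf (nat_lit 0x124)))
(.nd (.lf (nat_lit 0x12))
(.lf (nat_lit 0x5f)))))
(.nd (.nd (.nd (.lf (nat_lit 9))
(.lf (nat_lit 0x22)))
(.nd (.lf (nat_lit 0x19e))
(.lf (nat_lit 0x14b))))
(.nd (.nd (.lf (nat_lit 0x216))
(.lf (nat_lit 0x20)))
(.lf (nat_lit 0x235))))))
(.nd (.nd (.nd (.nd (.nd (.lf (nat_lit 5))
(.lf (nat_lit 0x35)))
(.nd (.lf (nat_lit 0x12b))
(.lf (nat_lit 0x204))))
(.nd (.nd (.lf (nat_lit 0x128))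
(.lf (nat_lit 0x49)))
(.nd (.lf (nat_lit 0x17d))
(.lf (nat_lit 0xe1)))))
(.nd (.nd (.nd (.lf (nat_lit 0x125))
(.lf (nat_lit 0x124)))
(.nd (.lf (nat_lit 0))
(.lf (nat_lit 0x35))))
(.nd (.nd (.lf (nat_lit 0x4d))
(.lf (nat_lit 0x19f)))
(.lf (nat_lit 0x275)))))
(.nd (.nd (.nd (.nd (.lf (nat_lit 0xa6))
(.lf (nat_lit 0x148)))
(.nd (.lf (nat_lit 0x1e6))
(.lf (nat_lit 0x17))))
(.nd (.nd (.lf (nat_lit 0x2f))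
(.lf (nat_lit 0xbe)))
(.lf (nat_lit 0xe1))))
(.nd (.nd (.nd (.lf (nat_lit 0x17b))
(.lf (nat_lit 0x1b4)))
(.nd (.lf (nat_lit 0xa6))
(.lf (nat_lit 0x194))))
(.nd (.nd (.lf (nat_lit 0x230))
(.lf (nat_lit 0xe1)))
(.lf (nat_lit 0x25)))))))
(.nd (.nd (.nd (.nd (.nd (.nd (.lf (nat_lit 0x2a))
(.lf (nat_lit 0x1d0)))
(.nd (.lf (nat_lit 0x1b4))
(.lf (nat_lit 5))))
(.nd (.nd (.lf (nat_lit 0x2f))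
(.lf (nat_lit 0x22)))
(.nd (.lf (nat_lit 0x135))
(.lf (nat_lit 0x14b)))))
(.nd (.nd (.nd (.lf (nat_lit 0x1bb))
(.lf (nat_lit 0x1a2)))
(.nd (.lf (nat_lit 0x5c))
(.lf (nat_lit 0xf4))))
(.nd (.nd (.lf (nat_lit 0x19f))
(.lf (nat_lit 0x112)))
(.lf (nat_lit 0x1f)))))
(.nd (.nd (.nd (.nd (.lf (nat_lit 0x194))
(.lf (nat_lit 0x208)))
(.nd (.lf (nat_lit 0x1c))
(.lf (nat_lit 0xae))))
(.nd (.nd (.lf (nat_lit 0x3f))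
(.lf (nat_lit 0x148)))
(.lf (nat_lit 0x1c5))))
(.nd (.nd (.nd (.lf (nat_lit 0x15e))
(.lf (nat_lit 0x13)))
(.nd (.lf (nat_lit 0x25d))
(.lf (nat_lit 0x135))))
(.nd (.nd (.lf (nat_lit 0x99))
(.lf (nat_lit 0x23f)))
(.lf (nat_lit 0xbb))))))
(.nd (.nd (.nd (.nd (.nd (.lf (nat_lit 0x1b4))
(.lf (nat_lit 0x48)))
(.nd (.lf (nat_lit 0x125))
(.lf (nat_lit 0x169))))
(.nd (.nd (.lf (nat_lit 0xe1))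
(.lf (nat_lit 0x17f)))
(.nd (.lf (nat_lit 0xee))
(.lf (nat_lit 0xc1)))))
(.nd (.nd (.nd (.lf (nat_lit 0x10e))
(.lf (nat_lit 0x1e8)))
(.nd (.lf (nat_lit 0x1f6))
(.lf (nat_lit 0x66))))
(.nd (.nd (.lf (nat_lit 0xa))
(.lf (nat_lit 0x19)))
(.lf (nat_lit 0x1cf)))))
(.nd (.nd (.nd (.nd (.lf (nat_lit 2))
(.lf (nat_lit 0x4d)))
(.nd (.lf (nat_lit 0x198))
(.lf (nat_lit 0x1b5))))
(.nd (.nd (.lf (nat_lit 0x23e))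
(.lf (nat_lit 0x38)))
(.lf (nat_lit 0x168))))
(.nd (.nd (.nd (.lf (nat_lit 0x1b7))
(.lf (nat_lit 0x1a5)))
(.nd (.lf (nat_lit 4))
(.lf (nat_lit 0x95))))
(.nd (.nd (.lf (nat_lit 0x92))
(.lf (nat_lit 0x1a0)))
(.lf (nat_lit 0x191)))))))))
(.nd (.nd (.nd (.nd (.nd (.nd (.nd (.nd (.lf (nat_lit 0x5f))
(.lf (nat_lit 0x98)))
(.nd (.lf (nat_lit 0x1c6))
(.lf (nat_lit 0x39))))
(.nd (.nd (.lf (nat_lit 0))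
(.lf (nat_lit 0x3d)))
(.nd (.lf (nat_lit 0x21a))
(.lf (nat_lit 0x15e)))))
(.nd (.nd (.nd (.lf (nat_lit 0xe1))
(.lf (nat_lit 0x1f7)))
(.nd (.lf (nat_lit 0x2a))
(.lf (nat_lit 0x134))))
(.nd (.nd (.lf (nat_lit 0x27b))
(.lf (nat_lit 0x20b)))
(.lf (nat_lit 0)))))
(.nd (.nd (.nd (.nd (.lf (nat_lit 0x149))
(.lf (nat_lit 0x99)))
(.nd (.lf (nat_lit 0x20))
(.lf (nat_lit 0x7a))))
(.nd (.nd (.lf (nat_lit 0x4f))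
(.lf (nat_lit 0x125)))
(.nd (.lf (nat_lit 0x274))
(.lf (nat_lit 0x26)))))
(.nd (.nd (.nd (.lf (nat_lit 0x1b5))
(.lf (nat_lit 4)))
(.nd (.lf (nat_lit 0x1fd))
(.lf (nat_lit 0x198))))
(.nd (.nd (.lf (nat_lit 0x1ca))
(.lf (nat_lit 0x204)))
(.lf (nat_lit 0xcf))))))
(.nd (.nd (.nd (.nd (.nd (.lf (nat_lit 0x1b5))
(.lf (nat_lit 0x39)))
(.nd (.lf (nat_lit 0xc1))
(.lf (nat_lit 0x147))))
(.nd (.nd (.lf (nat_lit 0x1cf))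
(.lf (nat_lit 0xf7)))
(.nd (.lf (nat_lit 0x10b))
(.lf (nat_lit 0xf4)))))
(.nd (.nd (.nd (.lf (nat_lit 0x3f))
(.lf (nat_lit 0x25d)))
(.nd (.lf (nat_lit 0x222))
(.lf (nat_lit 0x70))))
(.nd (.nd (.lf (nat_lit 0x66))
(.lf (nat_lit 0x7d)))
(.lf (nat_lit 0x1ec)))))
(.nd (.nd (.nd (.nd (.lf (nat_lit 5))
(.lf (nat_lit 0x5c)))
(.nd (.lf (nat_lit 0x164))
(.lf (nat_lit 0x1b4))))
(.nd (.nd (.lf (nat_lit 0x215))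
(.lf (nat_lit 0x16)))
(.lf (nat_lit 0x1d0))))
(.nd (.nd (.nd (.lf (nat_lit 0xf5))
(.lf (nat_lit 0x14e)))
(.nd (.lf (nat_lit 8))
(.lf (nat_lit 0xf))))
(.nd (.nd (.lf (nat_lit 0xbb))
(.lf (nat_lit 0x160)))
(.lf (nat_lit 0x1e5)))))))
(.nd (.nd (.nd (.nd (.nd (.nd (.lf (nat_lit 0))
(.lf (nat_lit 0x3d)))
(.nd (.lf (nat_lit 0x195))
(.lf (nat_lit 0x216))))
(.nd (.nd (.lf (nat_lit 0x1c5))
(.lf (nat_lit 4)))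
(.nd (.lf (nat_lit 0x98))
(.lf (nat_lit 0x99)))))
(.nd (.nd (.nd (.lf (nat_lit 0x1a0))
(.lf (nat_lit 0x243)))
(.nd (.lf (nat_lit 0x13))
(.lf (nat_lit 0x45))))
(.nd (.nd (.lf (nat_lit 0x3d))
(.lf (nat_lit 0xf5)))
(.lf (nat_lit 0x128)))))
(.nd (.nd (.nd (.nd (.lf (nat_lit 0x6d))
(.lf (nat_lit 0x168)))
(.nd (.lf (nat_lit 0x275))
(.lf (nat_lit 0xd))))
(.nd (.nd (.lf (nat_lit 0x2f))
(.lf (nat_lit 0x4f)))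
(.nd (.lf (nat_lit 0x21a))
(.lf (nat_lit 0xf7)))))
(.nd (.nd (.nd (.lf (nat_lit 0x124))
(.lf (nat_lit 0xf7)))
(.nd (.lf (nat_lit 0x7d))
(.lf (nat_lit 0xc1))))
(.nd (.nd (.lf (nat_lit 0x98))
(.lf (nat_lit 0x99)))
(.lf (nat_lit 0x38))))))
(.nd (.nd (.nd (.nd (.nd (.lf (nat_lit 0x99))
(.lf (nat_lit 0x204)))
(.nd (.lf (nat_lit 0x22))
(.lf (nat_lit 0x149))))
(.nd (.nd (.lf (nat_lit 0xe0))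
(.lf (nat_lit 0x135)))
(.nd (.lf (nat_lit 0x1f))
(.lf (nat_lit 0xbe)))))
(.nd (.nd (.nd (.lf (nat_lit 0x14))
(.lf (nat_lit 0xdd)))
(.nd (.lf (nat_lit 0x19e))
(.lf (nat_lit 0x24b))))
(.nd (.nd (.lf (nat_lit 0x1c6))
(.lf (nat_lit 2)))
(.lf (nat_lit 0x17c)))))
(.nd (.nd (.nd (.nd (.lf (nat_lit 0x23e))
(.lf (nat_lit 2)))
(.nd (.lf (nat_lit 0x165))
(.lf (nat_lit 0x1b8))))
(.nd (.nd (.lf (nat_lit 0x17b))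
(.lf (nat_lit 0x2a4)))
(.lf (nat_lit 0x7a))))
(.nd (.nd (.nd (.lf (nat_lit 0xbe))
(.lf (nat_lit 0x1d0)))
(.nd (.lf (nat_lit 0x1e5))
(.lf (nat_lit 0x17))))
(.nd (.nd (.lf (nat_lit 0xc))
(.lf (nat_lit 0x63)))
(.lf (nat_lit 0x234))))))))
(.nd (.nd (.nd (.nd (.nd (.nd (.nd (.lf (nat_lit 0x135))
(.lf (nat_lit 0x1f6)))
(.nd (.lf (nat_lit 0x83))
(.lf (nat_lit 0x20c))))
(.nd (.nd (.lf (nat_lit 0x19f))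
(.lf (nat_lit 0x161)))
(.nd (.lf (nat_lit 6))
(.lf (nat_lit 0x6b)))))
(.nd (.nd (.nd (.lf (nat_lit 0x48))
(.lf (nat_lit 0xbe)))
(.nd (.lf (nat_lit 0x208))
(.lf (nat_lit 0x1e5))))
(.nd (.nd (.lf (nat_lit 0x256))
(.lf (nat_lit 0x25)))
(.lf (nat_lit 0x1a0)))))
(.nd (.nd (.nd (.nd (.lf (nat_lit 0x204))
(.lf (nat_lit 0x49)))
(.nd (.lf (nat_lit 0x25d))
(.lf (nat_lit 0x135))))
(.nd (.nd (.lf (nat_lit 0x169))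
(.lf (nat_lit 0x274)))
(.nd (.lf (nat_lit 0xf))
(.lf (nat_lit 0x98)))))
(.nd (.nd (.nd (.lf (nat_lit 0x2a))
(.lf (nat_lit 0x1d0)))
(.nd (.lf (nat_lit 0x14b))
(.lf (nat_lit 0x38))))
(.nd (.nd (.lf (nat_lit 6))
(.lf (nat_lit 0x45)))
(.lf (nat_lit 0x1cf))))))
(.nd (.nd (.nd (.nd (.nd (.lf (nat_lit 0x2a))
(.lf (nat_lit 0xe0)))
(.nd (.lf (nat_lit 0x1e6))
(.lf (nat_lit 0x1c))))
(.nd (.nd (.lf (nat_lit 0x42))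
(.lf (nat_lit 0x142)))
(.nd (.lf (nat_lit 0x182))
(.lf (nat_lit 0x1e6)))))
(.nd (.nd (.nd (.lf (nat_lit 0x124))
(.lf (nat_lit 0x257)))
(.nd (.lf (nat_lit 0x2a))
(.lf (nat_lit 0xe0))))
(.nd (.nd (.lf (nat_lit 0x160))
(.lf (nat_lit 0x198)))
(.lf (nat_lit 0x13)))))
(.nd (.nd (.nd (.nd (.lf (nat_lit 0x1a0))
(.lf (nat_lit 0x135)))
(.nd (.lf (nat_lit 0x1d))
(.lf (nat_lit 0x63))))
(.nd (.nd (.lf (nat_lit 0xae))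
(.lf (nat_lit 0x194)))
(.lf (nat_lit 0x22d))))
(.nd (.nd (.nd (.lf (nat_lit 0xf7))
(.lf (nat_lit 0xd)))
(.nd (.lf (nat_lit 0x21c))
(.lf (nat_lit 0x169))))
(.nd (.nd (.lf (nat_lit 0x25b))
(.lf (nat_lit 0x1f6)))
(.lf (nat_lit 0x5c)))))))
(.nd (.nd (.nd (.nd (.nd (.nd (.lf (nat_lit 0x19f))
(.lf (nat_lit 0x12b)))
(.nd (.lf (nat_lit 0x49))
(.lf (nat_lit 0x4f))))
(.nd (.nd (.lf (nat_lit 0x95))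
(.lf (nat_lit 0x1d0)))
(.nd (.lf (nat_lit 0x15d))
(.lf (nat_lit 0x33)))))
(.nd (.nd (.nd (.lf (nat_lit 0x205))
(.lf (nat_lit 0x16)))
(.nd (.lf (nat_lit 0x126))
(.lf (nat_lit 0x1cf))))
(.nd (.nd (.lf (nat_lit 0x1e9))
(.lf (nat_lit 0x24b)))
(.lf (nat_lit 0x45)))))
(.nd (.nd (.nd (.nd (.lf (nat_lit 0x198))
(.lf (nat_lit 0x291)))
(.nd (.lf (nat_lit 0x85))
(.lf (nat_lit 0xe0))))
(.nd (.nd (.lf (nat_lit 0xe0))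
(.lf (nat_lit 0x124)))
(.lf (nat_lit 0x1c))))
(.nd (.nd (.nd (.lf (nat_lit 6))
(.lf (nat_lit 0x3d)))
(.nd (.lf (nat_lit 0x12b))
(.lf (nat_lit 0x15e))))
(.nd (.nd (.lf (nat_lit 0x1d3))
(.lf (nat_lit 0x1d)))
(.lf (nat_lit 0x98))))))
(.nd (.nd (.nd (.nd (.nd (.lf (nat_lit 0x26))
(.lf (nat_lit 0x3f)))
(.nd (.lf (nat_lit 0x112))
(.lf (nat_lit 0x191))))
(.nd (.nd (.lf (nat_lit 0x191))
(.lf (nat_lit 0xd)))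
(.nd (.lf (nat_lit 0x168))
(.lf (nat_lit 0xc2)))))
(.nd (.nd (.nd (.lf (nat_lit 0x1b7))
(.lf (nat_lit 0x14e)))
(.nd (.lf (nat_lit 0x1c))
(.lf (nat_lit 0x2c))))
(.nd (.nd (.lf (nat_lit 0x3d))
(.lf (nat_lit 0x19f)))
(.lf (nat_lit 0x291)))))
(.nd (.nd (.nd (.nd (.lf (nat_lit 0xbb))
(.lf (nat_lit 0x1fd)))
(.nd (.lf (nat_lit 0x128))
(.lf (nat_lit 6))))
(.nd (.nd (.lf (nat_lit 0xa))
(.lf (nat_lit 0x35)))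
(.lf (nat_lit 0x12b))))
(.nd (.nd (.nd (.lf (nat_lit 0x1bb))
(.lf (nat_lit 0x17f)))
(.nd (.lf (nat_lit 0xa6))
(.lf (nat_lit 0x98))))
(.nd (.nd (.lf (nat_lit 0xc1))
(.lf (nat_lit 0x279)))
(.lf (nat_lit 0x49))))))))))
(.nd (.nd (.nd (.nd (.nd (.nd (.nd (.nd (.nd (.lf (nat_lit 0x44))
(.lf (nat_lit 0x72)))
(.nd (.lf (nat_lit 0x15c))
(.lf (nat_lit 0x27c))))
(.nd (.nd (.lf (nat_lit 0x1c0))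
(.lf (nat_lit 0xd0)))
(.nd (.lf (nat_lit 0xa1))
(.lf (nat_lit 0x1c8)))))
(.nd (.nd (.nd (.lf (nat_lit 0x10a))
(.lf (nat_lit 0x22a)))
(.nd (.lf (nat_lit 0x82))
(.lf (nat_lit 0x130))))
(.nd (.nd (.lf (nat_lit 0x54))
(.lf (nat_lit 0xba)))
(.lf (nat_lit 0x2a1)))))
(.nd (.nd (.nd (.nd (.lf (nat_lit 0xe7))
(.lf (nat_lit 0x172)))
(.nd (.lf (nat_lit 0x248))
(.lf (nat_lit 0x40))))
(.nd (.nd (.lf (nat_lit 0x61))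
(.lf (nat_lit 0xfe)))
(.nd (.lf (nat_lit 0x284))
(.lf (nat_lit 0x26b)))))
(.nd (.nd (.nd (.lf (nat_lit 0x1b1))
(.lf (nat_lit 0x28c)))
(.nd (.lf (nat_lit 0x1a9))
(.lf (nat_lit 0xea))))
(.nd (.nd (.lf (nat_lit 0x12d))
(.lf (nat_lit 0x1b3)))
(.lf (nat_lit 0x34))))))
(.nd (.nd (.nd (.nd (.nd (.lf (nat_lit 0x1b1))
(.lf (nat_lit 0x2a1)))
(.nd (.lf (nat_lit 0x20e))
(.lf (nat_lit 0x78))))
(.nd (.nd (.lf (nat_lit 0x11a))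
(.lf (nat_lit 0x225)))
(.nd (.lf (nat_lit 0xef))
(.lf (nat_lit 0x72)))))
(.nd (.nd (.nd (.lf (nat_lit 0x40))
(.lf (nat_lit 0x20e)))
(.nd (.lf (nat_lit 0x203))
(.lf (nat_lit 0x26a))))
(.nd (.nd (.lf (nat_lit 0x248))
(.lf (nat_lit 0x18)))
(.lf (nat_lit 0x84)))))
(.nd (.nd (.nd (.nd (.lf (nat_lit 0x2b5))
(.lf (nat_lit 0xbd)))
(.nd (.lf (nat_lit 0x91))
(.lf (nat_lit 0x1b3))))
(.nd (.nd (.lf (nat_lit 0x22a))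
(.lf (nat_lit 0x288)))
(.lf (nat_lit 0xff))))
(.nd (.nd (.nd (.lf (nat_lit 0x1da))
(.lf (nat_lit 0x5b)))
(.nd (.lf (nat_lit 0x289))
(.lf (nat_lit 0x4c))))
(.nd (.nd (.lf (nat_lit 0x97))
(.lf (nat_lit 0xd2)))
(.lf (nat_lit 0x1e4)))))))
(.nd (.nd (.nd (.nd (.nd (.nd (.lf (nat_lit 0x2b5))
(.lf (nat_lit 0x7f)))
(.nd (.lf (nat_lit 0xa2))
(.lf (nat_lit 0x24e))))
(.nd (.nd (.lf (nat_lit 0x201))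
(.lf (nat_lit 0x251)))
(.nd (.lf (nat_lit 0x153))
(.lf (nat_lit 0x4e)))))
(.nd (.nd (.nd (.lf (nat_lit 0xc8))
(.lf (nat_lit 0x184)))
(.nd (.lf (nat_lit 0x210))
(.lf (nat_lit 0x86))))
(.nd (.nd (.lf (nat_lit 0x44))
(.lf (nat_lit 0x16f)))
(.lf (nat_lit 0x203)))))
(.nd (.nd (.nd (.nd (.lf (nat_lit 0xdf))
(.lf (nat_lit 0xc8)))
(.nd (.lf (nat_lit 0x294))
(.lf (nat_lit 0x29f))))
(.nd (.nd (.lf (nat_lit 0x248))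
(.lf (nat_lit 0xbd)))
(.nd (.lf (nat_lit 0x78))
(.lf (nat_lit 0xf2)))))
(.nd (.nd (.nd (.lf (nat_lit 0x3e))
(.lf (nat_lit 0x225)))
(.nd (.lf (nat_lit 0xbd))
(.lf (nat_lit 0x8a))))
(.nd (.nd (.lf (nat_lit 0xd2))
(.lf (nat_lit 0x84)))
(.lf (nat_lit 0x248))))))
(.nd (.nd (.nd (.nd (.nd (.lf (nat_lit 0x2b))
(.lf (nat_lit 0xf2)))
(.nd (.lf (nat_lit 0x40))
(.lf (nat_lit 0x1be))))
(.nd (.nd (.lf (nat_lit 0x13b))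
(.lf (nat_lit 0xb9)))
(.nd (.lf (nat_lit 0x2bf))
(.lf (nat_lit 0xe)))))
(.nd (.nd (.nd (.lf (nat_lit 0x2b4))
(.lf (nat_lit 0x3c)))
(.nd (.lf (nat_lit 0x5a))
(.lf (nat_lit 0x123))))
(.nd (.nd (.lf (nat_lit 0x19d))
(.lf (nat_lit 0x246)))
(.lf (nat_lit 0x16f)))))
(.nd (.nd (.nd (.nd (.lf (nat_lit 0x241))
(.lf (nat_lit 0x26f)))
(.nd (.lf (nat_lit 0x12f))
(.lf (nat_lit 0x109))))
(.nd (.nd (.lf (nat_lit 0x11b))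
(.lf (nat_lit 0x240)))
(.lf (nat_lit 0xdc))))
(.nd (.nd (.nd (.lf (nat_lit 0x62))
(.lf (nat_lit 0x8a)))
(.nd (.lf (nat_lit 0x22c))
(.lf (nat_lit 0x1c0))))
(.nd (.nd (.lf (nat_lit 0x2bf))
(.lf (nat_lit 0x29)))
(.lf (nat_lit 0x2b))))))))
(.nd (.nd (.nd (.nd (.nd (.nd (.nd (.lf (nat_lit 0xa1))
(.lf (nat_lit 0xf2)))
(.nd (.lf (nat_lit 0x110))
(.lf (nat_lit 0x130))))
(.nd (.nd (.lf (nat_lit 0x187))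
(.lf (nat_lit 0xd8)))
(.nd (.lf (nat_lit 0x251))
(.lf (nat_lit 0x21)))))
(.nd (.nd (.nd (.lf (nat_lit 0x21d))
(.lf (nat_lit 0x44)))
(.nd (.lf (nat_lit 0xa2))
(.lf (nat_lit 0x1e4))))
(.nd (.nd (.lf (nat_lit 0x1b1))
(.lf (nat_lit 0x2ac)))
(.lf (nat_lit 0xb3)))))
(.nd (.nd (.nd (.nd (.lf (nat_lit 0x1b3))
(.lf (nat_lit 0x2b4)))
(.nd (.lf (nat_lit 0x20e))
(.lf (nat_lit 0x79))))
(.nd (.nd (.lf (nat_lit 0xfc))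
(.lf (nat_lit 0x18e)))
(.nd (.lf (nat_lit 0x62))
(.lf (nat_lit 0x72)))))
(.nd (.nd (.nd (.lf (nat_lit 0x4c))
(.lf (nat_lit 0xd2)))
(.nd (.lf (nat_lit 0x1f9))
(.lf (nat_lit 0x246))))
(.nd (.nd (.lf (nat_lit 0x21f))
(.lf (nat_lit 0x34)))
(.lf (nat_lit 0xe9))))))
(.nd (.nd (.nd (.nd (.nd (.lf (nat_lit 0x44))
(.lf (nat_lit 0x54)))
(.nd (.lf (nat_lit 0x190))
(.lf (nat_lit 0x251))))
(.nd (.nd (.lf (nat_lit 0x26f))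
(.lf (nat_lit 0x61)))
(.nd (.lf (nat_lit 0x10a))
(.lf (nat_lit 0x258)))))
(.nd (.nd (.nd (.lf (nat_lit 0x79))
(.lf (nat_lit 0x225)))
(.nd (.lf (nat_lit 0x120))
(.lf (nat_lit 0x54))))
(.nd (.nd (.lf (nat_lit 0x9f))
(.lf (nat_lit 0x79)))
(.lf (nat_lit 0x1c0)))))
(.nd (.nd (.nd (.nd (.lf (nat_lit 0xb3))
(.lf (nat_lit 0xa2)))
(.nd (.lf (nat_lit 0x251))
(.lf (nat_lit 0xd0))))
(.nd (.nd (.lf (nat_lit 0xdf))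
(.lf (nat_lit 0x237)))
(.lf (nat_lit 0x1ce))))
(.nd (.nd (.nd (.lf (nat_lit 0x277))
(.lf (nat_lit 0x1c0)))
(.nd (.lf (nat_lit 0xd2))
(.lf (nat_lit 0x6c))))
(.nd (.nd (.lf (nat_lit 0x11a))
(.lf (nat_lit 0x22c)))
(.lf (nat_lit 0x61)))))))
(.nd (.nd (.nd (.nd (.nd (.nd (.lf (nat_lit 0x16f))
(.lf (nat_lit 0x78)))
(.nd (.lf (nat_lit 0x298))
(.lf (nat_lit 0x21))))
(.nd (.nd (.lf (nat_lit 0xa7))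
(.lf (nat_lit 0xd2)))
(.nd (.lf (nat_lit 0x15c))
(.lf (nat_lit 0x1c0)))))
(.nd (.nd (.nd (.lf (nat_lit 0x217))
(.lf (nat_lit 0x289)))
(.nd (.lf (nat_lit 0xd2))
(.lf (nat_lit 0x84))))
(.nd (.nd (.lf (nat_lit 0x78))
(.lf (nat_lit 0x1e2)))
(.lf (nat_lit 0x34)))))
(.nd (.nd (.nd (.nd (.lf (nat_lit 0xba))
(.lf (nat_lit 0x1ce)))
(.nd (.lf (nat_lit 0x86))
(.lf (nat_lit 0x12f))))
(.nd (.nd (.lf (nat_lit 0x9f))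
(.lf (nat_lit 0x13e)))
(.lf (nat_lit 0x21f))))
(.nd (.nd (.nd (.lf (nat_lit 0x210))
(.lf (nat_lit 0x18)))
(.nd (.lf (nat_lit 0xb9))
(.lf (nat_lit 0x15a))))
(.nd (.nd (.lf (nat_lit 0x19d))
(.lf (nat_lit 0x1f1)))
(.lf (nat_lit 0x20e))))))
(.nd (.nd (.nd (.nd (.nd (.lf (nat_lit 0x21f))
(.lf (nat_lit 0x120)))
(.nd (.lf (nat_lit 0x4e))
(.lf (nat_lit 0x19d))))
(.nd (.nd (.lf (nat_lit 0x1ce))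
(.lf (nat_lit 0x27c)))
(.nd (.lf (nat_lit 0x1db))
(.lf (nat_lit 0x11a)))))
(.nd (.nd (.nd (.lf (nat_lit 0x118))
(.lf (nat_lit 0x84)))
(.nd (.lf (nat_lit 0x28e))
(.lf (nat_lit 0x3c))))
(.nd (.nd (.lf (nat_lit 0xdc))
(.lf (nat_lit 0x12f)))
(.lf (nat_lit 0x22c)))))
(.nd (.nd (.nd (.nd (.lf (nat_lit 0x3c))
(.lf (nat_lit 0x13b)))
(.nd (.lf (nat_lit 0x146))
(.lf (nat_lit 0x26f))))
(.nd (.nd (.lf (nat_lit 0x288))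
(.lf (nat_lit 0x143)))
(.lf (nat_lit 0x11a))))
(.nd (.nd (.nd (.lf (nat_lit 0x184))
(.lf (nat_lit 0x1f8)))
(.nd (.lf (nat_lit 0x143))
(.lf (nat_lit 0x12f))))
(.nd (.nd (.lf (nat_lit 0x1a9))
(.lf (nat_lit 0xea)))
(.lf (nat_lit 0x28e)))))))))
(.nd (.nd (.nd (.nd (.nd (.nd (.nd (.nd (.lf (nat_lit 0xd2))
(.lf (nat_lit 0x11b)))
(.nd (.lf (nat_lit 0x2b1))
(.lf (nat_lit 0xa7))))
(.nd (.nd (.lf (nat_lit 0x18))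
(.lf (nat_lit 0xc3)))
(.nd (.lf (nat_lit 0x22c))
(.lf (nat_lit 0x29e)))))
(.nd (.nd (.nd (.lf (nat_lit 0xf2))
(.lf (nat_lit 0x2b1)))
(.nd (.lf (nat_lit 0x237))
(.lf (nat_lit 0x11b))))
(.nd (.nd (.lf (nat_lit 0x79))
(.lf (nat_lit 0x1f8)))
(.lf (nat_lit 0xe)))))
(.nd (.nd (.nd (.nd (.lf (nat_lit 0x84))
(.lf (nat_lit 0x18e)))
(.nd (.lf (nat_lit 0x143))
(.lf (nat_lit 0xfe))))
(.nd (.nd (.lf (nat_lit 0x16f))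
(.lf (nat_lit 0xa2)))
(.nd (.lf (nat_lit 0x251))
(.lf (nat_lit 0x7f)))))
(.nd (.nd (.nd (.lf (nat_lit 0x260))
(.lf (nat_lit 0x44)))
(.nd (.lf (nat_lit 0xcb))
(.lf (nat_lit 0x19d))))
(.nd (.nd (.lf (nat_lit 0x2a7))
(.lf (nat_lit 0x1c0)))
(.lf (nat_lit 0x1db))))))
(.nd (.nd (.nd (.nd (.nd (.lf (nat_lit 0x248))
(.lf (nat_lit 0x86)))
(.nd (.lf (nat_lit 0xe9))
(.lf (nat_lit 0x19d))))
(.nd (.nd (.lf (nat_lit 0x1e2))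
(.lf (nat_lit 0x251)))
(.nd (.lf (nat_lit 0xe2))
(.lf (nat_lit 0x11a)))))
(.nd (.nd (.nd (.lf (nat_lit 0xc3))
(.lf (nat_lit 0xba)))
(.nd (.lf (nat_lit 0x251))
(.lf (nat_lit 0xe))))
(.nd (.nd (.lf (nat_lit 0x7c))
(.lf (nat_lit 0x12f)))
(.lf (nat_lit 0x241)))))
(.nd (.nd (.nd (.nd (.lf (nat_lit 0xa7))
(.lf (nat_lit 0x118)))
(.nd (.lf (nat_lit 0x217))
(.lf (nat_lit 0x289))))
(.nd (.nd (.lf (nat_lit 0x298))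
(.lf (nat_lit 0xc0)))
(.lf (nat_lit 0xb9))))
(.nd (.nd (.nd (.lf (nat_lit 0x1d8))
(.lf (nat_lit 0x1b3)))
(.nd (.lf (nat_lit 0x143))
(.lf (nat_lit 0xe2))))
(.nd (.nd (.lf (nat_lit 0x1da))
(.lf (nat_lit 0xcb)))
(.lf (nat_lit 0x289)))))))
(.nd (.nd (.nd (.nd (.nd (.nd (.lf (nat_lit 0xaf))
(.lf (nat_lit 0x9f)))
(.nd (.lf (nat_lit 0x1f9))
(.lf (nat_lit 0x1f1))))
(.nd (.nd (.lf (nat_lit 0x26a))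
(.lf (nat_lit 0xc0)))
(.nd (.lf (nat_lit 0x11b))
(.lf (nat_lit 0x1ce)))))
(.nd (.nd (.nd (.lf (nat_lit 0xd8))
(.lf (nat_lit 0x1f8)))
(.nd (.lf (nat_lit 0x97))
(.lf (nat_lit 0x1db))))
(.nd (.nd (.lf (nat_lit 0x13b))
(.lf (nat_lit 0x84)))
(.lf (nat_lit 0x26b)))))
(.nd (.nd (.nd (.nd (.lf (nat_lit 0x12f))
(.lf (nat_lit 0x78)))
(.nd (.lf (nat_lit 0x2a1))
(.lf (nat_lit 0x143))))
(.nd (.nd (.lf (nat_lit 0xbd))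
(.lf (nat_lit 0xc3)))
(.nd (.lf (nat_lit 0x201))
(.lf (nat_lit 0x26b)))))
(.nd (.nd (.nd (.lf (nat_lit 0x123))
(.lf (nat_lit 0x251)))
(.nd (.lf (nat_lit 0xc3))
(.lf (nat_lit 0x6c))))
(.nd (.nd (.lf (nat_lit 0x184))
(.lf (nat_lit 0x1b3)))
(.lf (nat_lit 0x143))))))
(.nd (.nd (.nd (.nd (.nd (.lf (nat_lit 0x203))
(.lf (nat_lit 0x2bf)))
(.nd (.lf (nat_lit 0x118))
(.lf (nat_lit 0x79))))
(.nd (.nd (.lf (nat_lit 0xcb))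
(.lf (nat_lit 0x24e)))
(.nd (.lf (nat_lit 0xaf))
(.lf (nat_lit 0x72)))))
(.nd (.nd (.nd (.lf (nat_lit 0x6e))
(.lf (nat_lit 0x118)))
(.nd (.lf (nat_lit 0x277))
(.lf (nat_lit 0x289))))
(.nd (.nd (.lf (nat_lit 0x27c))
(.lf (nat_lit 0x29)))
(.lf (nat_lit 0xe9)))))
(.nd (.nd (.nd (.nd (.lf (nat_lit 0x2ac))
(.lf (nat_lit 0x21)))
(.nd (.lf (nat_lit 0xa2))
(.lf (nat_lit 0x1b1))))
(.nd (.nd (.lf (nat_lit 0x203))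
(.lf (nat_lit 0x2b5)))
(.lf (nat_lit 0x19b))))
(.nd (.nd (.nd (.lf (nat_lit 0x237))
(.lf (nat_lit 0xfc)))
(.nd (.lf (nat_lit 0x28c))
(.lf (nat_lit 0x29))))
(.nd (.nd (.lf (nat_lit 0xef))
(.lf (nat_lit 0x187)))
(.lf (nat_lit 0x22c))))))))
(.nd (.nd (.nd (.nd (.nd (.nd (.nd (.lf (nat_lit 0x19d))
(.lf (nat_lit 0x2b5)))
(.nd (.lf (nat_lit 0xb3))
(.lf (nat_lit 0xe9))))
(.nd (.nd (.lf (nat_lit 0x5a))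
(.lf (nat_lit 0x1b3)))
(.nd (.lf (nat_lit 0x94))
(.lf (nat_lit 0x54)))))
(.nd (.nd (.nd (.lf (nat_lit 0x18))
(.lf (nat_lit 0x12f)))
(.nd (.lf (nat_lit 0x201))
(.lf (nat_lit 0x299))))
(.nd (.nd (.lf (nat_lit 0x2b4))
(.lf (nat_lit 0xa7)))
(.lf (nat_lit 0x78)))))
(.nd (.nd (.nd (.nd (.lf (nat_lit 0x2c8))
(.lf (nat_lit 0xdc)))
(.nd (.lf (nat_lit 0xe9))
(.lf (nat_lit 0x1c7))))
(.nd (.nd (.lf (nat_lit 0x22a))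
(.lf (nat_lit 0x2be)))
(.nd (.lf (nat_lit 0x1aa))
(.lf (nat_lit 0xa1)))))
(.nd (.nd (.nd (.lf (nat_lit 0x130))
(.lf (nat_lit 0x4e)))
(.nd (.lf (nat_lit 0x26a))
(.lf (nat_lit 0x21))))
(.nd (.nd (.lf (nat_lit 0x62))
(.lf (nat_lit 0xd2)))
(.lf (nat_lit 0x203))))))
(.nd (.nd (.nd (.nd (.nd (.lf (nat_lit 0x13b))
(.lf (nat_lit 0xb9)))
(.nd (.lf (nat_lit 0x246))
(.lf (nat_lit 0xaf))))
(.nd (.nd (.lf (nat_lit 0x177))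
(.lf (nat_lit 0x153)))
(.nd (.lf (nat_lit 0x258))
(.lf (nat_lit 0x1c0)))))
(.nd (.nd (.nd (.lf (nat_lit 0x18e))
(.lf (nat_lit 0x2bf)))
(.nd (.lf (nat_lit 0x118))
(.lf (nat_lit 0xad))))
(.nd (.nd (.lf (nat_lit 0xd8))
(.lf (nat_lit 0x146)))
(.lf (nat_lit 0x3c)))))
(.nd (.nd (.nd (.nd (.lf (nat_lit 0xa2))
(.lf (nat_lit 0x259)))
(.nd (.lf (nat_lit 0x3c))
(.lf (nat_lit 0x54))))
(.nd (.nd (.lf (nat_lit 0x187))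
(.lf (nat_lit 0x184)))
(.lf (nat_lit 0x298))))
(.nd (.nd (.nd (.lf (nat_lit 0x29e))
(.lf (nat_lit 0x86)))
(.nd (.lf (nat_lit 0xca))
(.lf (nat_lit 0xf2))))
(.nd (.nd (.lf (nat_lit 0x294))
(.lf (nat_lit 0x28c)))
(.lf (nat_lit 0x113)))))))
(.nd (.nd (.nd (.nd (.nd (.nd (.lf (nat_lit 0xa2))
(.lf (nat_lit 0x22a)))
(.nd (.lf (nat_lit 0xab))
(.lf (nat_lit 0x19b))))
(.nd (.nd (.lf (nat_lit 0x16a))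
(.lf (nat_lit 0x4e)))
(.nd (.lf (nat_lit 0x299))
(.lf (nat_lit 0x6a)))))
(.nd (.nd (.nd (.lf (nat_lit 0x21d))
(.lf (nat_lit 0xa7)))
(.nd (.lf (nat_lit 0xa2))
(.lf (nat_lit 0x17a))))
(.nd (.nd (.lf (nat_lit 0x22a))
(.lf (nat_lit 0x289)))
(.lf (nat_lit 0x1da)))))
(.nd (.nd (.nd (.nd (.lf (nat_lit 0x1f8))
(.lf (nat_lit 0x26f)))
(.nd (.lf (nat_lit 0xc3))
(.lf (nat_lit 0xea))))
(.nd (.nd (.lf (nat_lit 0xb9))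
(.lf (nat_lit 0x258)))
(.lf (nat_lit 0xbd))))
(.nd (.nd (.nd (.lf (nat_lit 0x29))
(.lf (nat_lit 0x136)))
(.nd (.lf (nat_lit 0x217))
(.lf (nat_lit 0x299))))
(.nd (.nd (.lf (nat_lit 0x289))
(.lf (nat_lit 0x177)))
(.lf (nat_lit 0x6c))))))
(.nd (.nd (.nd (.nd (.nd (.lf (nat_lit 0x86))
(.lf (nat_lit 0x72)))
(.nd (.lf (nat_lit 0x18e))
(.lf (nat_lit 0x27e))))
(.nd (.nd (.lf (nat_lit 0x248))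
(.lf (nat_lit 0x3c)))
(.nd (.lf (nat_lit 0xea))
(.lf (nat_lit 0x123)))))
(.nd (.nd (.nd (.lf (nat_lit 0x109))
(.lf (nat_lit 0x146)))
(.nd (.lf (nat_lit 0x86))
(.lf (nat_lit 0x9a))))
(.nd (.nd (.lf (nat_lit 0x130))
(.lf (nat_lit 0x5b)))
(.lf (nat_lit 0x1c0)))))
(.nd (.nd (.nd (.nd (.lf (nat_lit 0x237))
(.lf (nat_lit 0xba)))
(.nd (.lf (nat_lit 0x2b4))
(.lf (nat_lit 0x7c))))
(.nd (.nd (.lf (nat_lit 0xaf))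
(.lf (nat_lit 0x1ef)))
(.lf (nat_lit 0x17a))))
(.nd (.nd (.nd (.lf (nat_lit 0x2a7))
(.lf (nat_lit 0x2ab)))
(.nd (.lf (nat_lit 0x136))
(.lf (nat_lit 0x1a7))))
(.nd (.nd (.lf (nat_lit 0x3e))
(.lf (nat_lit 0x19d)))
(.lf (nat_lit 0x143)))))))))))
(.nd (.nd (.nd (.nd (.nd (.nd (.nd (.nd (.nd (.nd (.lf (nat_lit 3))
(.lf (nat_lit 0x11c)))
(.nd (.lf (nat_lit 0x127))
(.lf (nat_lit 0x24c))))
(.nd (.nd (.lf (nat_lit 0x1b0))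
(.lf (nat_lit 0x30)))
(.nd (.lf (nat_lit 0x1cd))
(.lf (nat_lit 0x193)))))
(.nd (.nd (.nd (.lf (nat_lit 0x267))
(.lf (nat_lit 0x193)))
(.nd (.lf (nat_lit 0x41))
(.lf (nat_lit 0xce))))
(.nd (.nd (.lf (nat_lit 0x108))
(.lf (nat_lit 0x27a)))
(.lf (nat_lit 0x273)))))
(.nd (.nd (.nd (.nd (.lf (nat_lit 0xa5))
(.lf (nat_lit 0x1fc)))
(.nd (.lf (nat_lit 0x1f2))
(.lf (nat_lit 0xb))))
(.nd (.nd (.lf (nat_lit 0x30))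
(.lf (nat_lit 0x76)))
(.nd (.lf (nat_lit 0x1b6))
(.lf (nat_lit 0x159)))))
(.nd (.nd (.nd (.lf (nat_lit 0xf8))
(.lf (nat_lit 0x159)))
(.nd (.lf (nat_lit 0xd6))
(.lf (nat_lit 0x15b))))
(.nd (.nd (.lf (nat_lit 0x1b2))
(.lf (nat_lit 0x196)))
(.lf (nat_lit 3))))))
(.nd (.nd (.nd (.nd (.nd (.lf (nat_lit 0x14c))
(.lf (nat_lit 0x252)))
(.nd (.lf (nat_lit 0x107))
(.lf (nat_lit 0x18f))))
(.nd (.nd (.lf (nat_lit 0x213))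
(.lf (nat_lit 0x1ea)))
(.nd (.lf (nat_lit 0x53))
(.lf (nat_lit 0x1dd)))))
(.nd (.nd (.nd (.lf (nat_lit 0x47))
(.lf (nat_lit 0x1ac)))
(.nd (.lf (nat_lit 0x1a1))
(.lf (nat_lit 0x26c))))
(.nd (.nd (.lf (nat_lit 0x264))
(.lf (nat_lit 0x41)))
(.lf (nat_lit 0x1ae)))))
(.nd (.nd (.nd (.nd (.lf (nat_lit 0x292))
(.lf (nat_lit 0x41)))
(.nd (.lf (nat_lit 0x15b))
(.lf (nat_lit 0x1fa))))
(.nd (.nd (.lf (nat_lit 0x180))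
(.lf (nat_lit 0x1f5)))
(.lf (nat_lit 0xa5))))
(.nd (.nd (.nd (.lf (nat_lit 0x3b))
(.lf (nat_lit 0x145)))
(.nd (.lf (nat_lit 0x255))
(.lf (nat_lit 3))))
(.nd (.nd (.lf (nat_lit 0x71))
(.lf (nat_lit 0x81)))
(.lf (nat_lit 0x17e)))))))
(.nd (.nd (.nd (.nd (.nd (.nd (.lf (nat_lit 0x200))
(.lf (nat_lit 0x7e)))
(.nd (.lf (nat_lit 0xf1))
(.lf (nat_lit 0x1b6))))
(.nd (.nd (.lf (nat_lit 0x232))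
(.lf (nat_lit 0x282)))
(.nd (.lf (nat_lit 0xed))
(.lf (nat_lit 0xf1)))))
(.nd (.nd (.nd (.lf (nat_lit 0x3b))
(.lf (nat_lit 0x244)))
(.nd (.lf (nat_lit 0x24a))
(.lf (nat_lit 0x51))))
(.nd (.nd (.lf (nat_lit 0x43))
(.lf (nat_lit 0x101)))
(.lf (nat_lit 0x209)))))
(.nd (.nd (.nd (.nd (.lf (nat_lit 0x37))
(.lf (nat_lit 0xb8)))
(.nd (.lf (nat_lit 0x22f))
(.lf (nat_lit 0x200))))
(.nd (.nd (.lf (nat_lit 0x1f2))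
(.lf (nat_lit 0x51)))
(.nd (.lf (nat_lit 0xf1))
(.lf (nat_lit 0xc5)))))
(.nd (.nd (.nd (.lf (nat_lit 0x213))
(.lf (nat_lit 0x1ea)))
(.nd (.lf (nat_lit 7))
(.lf (nat_lit 0x4b))))
(.nd (.nd (.lf (nat_lit 0x81))
(.lf (nat_lit 0x19c)))
(.lf (nat_lit 0x229))))))
(.nd (.nd (.nd (.nd (.nd (.lf (nat_lit 0x1cb))
(.lf (nat_lit 0x9c)))
(.nd (.lf (nat_lit 0x1b))
(.lf (nat_lit 0x11c))))
(.nd (.nd (.lf (nat_lit 0xaa))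
(.lf (nat_lit 0x1cd)))
(.nd (.lf (nat_lit 0x270))
(.lf (nat_lit 0x15)))))
(.nd (.nd (.nd (.lf (nat_lit 0x255))
(.lf (nat_lit 0xb0)))
(.nd (.lf (nat_lit 0x157))
(.lf (nat_lit 0x14c))))
(.nd (.nd (.lf (nat_lit 0x1d4))
(.lf (nat_lit 0x2c0)))
(.lf (nat_lit 0xa3)))))
(.nd (.nd (.nd (.nd (.lf (nat_lit 0x1ea))
(.lf (nat_lit 0x1f2)))
(.nd (.lf (nat_lit 0xb7))
(.lf (nat_lit 0x24f))))
(.nd (.nd (.lf (nat_lit 0x23c))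
(.lf (nat_lit 0x1e7)))
(.lf (nat_lit 0x1b))))
(.nd (.nd (.nd (.lf (nat_lit 0x71))
(.lf (nat_lit 0x76)))
(.nd (.lf (nat_lit 0x1d2))
(.lf (nat_lit 0x159))))
(.nd (.nd (.lf (nat_lit 0x2c0))
(.lf (nat_lit 0x31)))
(.lf (nat_lit 0x1cb))))))))
(.nd (.nd (.nd (.nd (.nd (.nd (.nd (.lf (nat_lit 0x1cb))
(.lf (nat_lit 0x17e)))
(.nd (.lf (nat_lit 7))
(.lf (nat_lit 0x175))))
(.nd (.nd (.lf (nat_lit 0x59))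
(.lf (nat_lit 0x1fe)))
(.nd (.lf (nat_lit 0x23d))
(.lf (nat_lit 0x11)))))
(.nd (.nd (.nd (.lf (nat_lit 0x214))
(.lf (nat_lit 0x36)))
(.nd (.lf (nat_lit 0x145))
(.lf (nat_lit 0x17e))))
(.nd (.nd (.lf (nat_lit 0x14c))
(.lf (nat_lit 0x2a5)))
(.lf (nat_lit 0x77)))))
(.nd (.nd (.nd (.nd (.lf (nat_lit 0x162))
(.lf (nat_lit 0x2a3)))
(.nd (.lf (nat_lit 0x173))
(.lf (nat_lit 0x179))))
(.nd (.nd (.lf (nat_lit 0x1cd))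
(.lf (nat_lit 0x15f)))
(.nd (.lf (nat_lit 0x1b))
(.lf (nat_lit 0x28)))))
(.nd (.nd (.nd (.lf (nat_lit 3))
(.lf (nat_lit 0x81)))
(.nd (.lf (nat_lit 0x196))
(.lf (nat_lit 0x200))))
(.nd (.nd (.lf (nat_lit 0x29a))
(.lf (nat_lit 0x71)))
(.lf (nat_lit 0x1fc))))))
(.nd (.nd (.nd (.nd (.nd (.lf (nat_lit 3))
(.lf (nat_lit 0x28)))
(.nd (.lf (nat_lit 0x1b6))
(.lf (nat_lit 0x200))))
(.nd (.nd (.lf (nat_lit 0x229))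
(.lf (nat_lit 0xde)))
(.nd (.lf (nat_lit 0x1f4))
(.lf (nat_lit 0xc5)))))
(.nd (.nd (.nd (.lf (nat_lit 0x18f))
(.lf (nat_lit 0x1c9)))
(.nd (.lf (nat_lit 0x11))
(.lf (nat_lit 0x3b))))
(.nd (.nd (.lf (nat_lit 0xa5))
(.lf (nat_lit 0x145)))
(.lf (nat_lit 0x1b0)))))
(.nd (.nd (.nd (.nd (.lf (nat_lit 0x101))
(.lf (nat_lit 0x18f)))
(.nd (.lf (nat_lit 0x1f5))
(.lf (nat_lit 0x31))))
(.nd (.nd (.lf (nat_lit 0x43))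
(.lf (nat_lit 0x1dd)))
(.lf (nat_lit 0x16c))))
(.nd (.nd (.nd (.lf (nat_lit 0x25a))
(.lf (nat_lit 0x1b0)))
(.nd (.lf (nat_lit 0xd6))
(.lf (nat_lit 0x1cb))))
(.nd (.nd (.lf (nat_lit 0x27a))
(.lf (nat_lit 0x138)))
(.lf (nat_lit 0x30)))))))
(.nd (.nd (.nd (.nd (.nd (.nd (.lf (nat_lit 0x108))
(.lf (nat_lit 0x22b)))
(.nd (.lf (nat_lit 0x1f5))
(.lf (nat_lit 0x43))))
(.nd (.nd (.lf (nat_lit 0x30))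
(.lf (nat_lit 0x81)))
(.nd (.lf (nat_lit 0xf6))
(.lf (nat_lit 0x18d)))))
(.nd (.nd (.nd (.lf (nat_lit 0x1a3))
(.lf (nat_lit 0x200)))
(.nd (.lf (nat_lit 0x81))
(.lf (nat_lit 0x1df))))
(.nd (.nd (.lf (nat_lit 0x202))
(.lf (nat_lit 0x1fa)))
(.lf (nat_lit 0x96)))))
(.nd (.nd (.nd (.nd (.lf (nat_lit 0x1cb))
(.lf (nat_lit 0x1a3)))
(.nd (.lf (nat_lit 0x11))
(.lf (nat_lit 0x3b))))
(.nd (.nd (.lf (nat_lit 0xa5))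
(.lf (nat_lit 0x254)))
(.lf (nat_lit 0x214))))
(.nd (.nd (.nd (.lf (nat_lit 0x1b0))
(.lf (nat_lit 3)))
(.nd (.lf (nat_lit 0x295))
(.lf (nat_lit 0xf8))))
(.nd (.nd (.lf (nat_lit 0x138))
(.lf (nat_lit 0x29a)))
(.lf (nat_lit 0x1ac))))))
(.nd (.nd (.nd (.nd (.nd (.lf (nat_lit 0x214))
(.lf (nat_lit 0x6f)))
(.nd (.lf (nat_lit 0x18f))
(.lf (nat_lit 0x1d4))))
(.nd (.nd (.lf (nat_lit 0x1a1))
(.lf (nat_lit 0x223)))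
(.nd (.lf (nat_lit 0x175))
(.lf (nat_lit 0x244)))))
(.nd (.nd (.nd (.lf (nat_lit 0x108))
(.lf (nat_lit 0x19c)))
(.nd (.lf (nat_lit 0x1c1))
(.lf (nat_lit 0x10))))
(.nd (.nd (.lf (nat_lit 0x43))
(.lf (nat_lit 0xce)))
(.lf (nat_lit 0x115)))))
(.nd (.nd (.nd (.nd (.lf (nat_lit 0x46))
(.lf (nat_lit 0xa5)))
(.nd (.lf (nat_lit 0x9c))
(.lf (nat_lit 0x282))))
(.nd (.nd (.lf (nat_lit 0x1f5))
(.lf (nat_lit 0xbf)))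
(.lf (nat_lit 0x1c3))))
(.nd (.nd (.nd (.lf (nat_lit 0x21b))
(.lf (nat_lit 0x242)))
(.nd (.lf (nat_lit 0x60))
(.lf (nat_lit 0xa5))))
(.nd (.nd (.lf (nat_lit 0x3b))
(.lf (nat_lit 0x202)))
(.lf (nat_lit 0x273)))))))))
(.nd (.nd (.nd (.nd (.nd (.nd (.nd (.nd (.lf (nat_lit 0x81))
(.lf (nat_lit 0xf1)))
(.nd (.lf (nat_lit 0x1e1))
(.lf (nat_lit 0x1e))))
(.nd (.nd (.lf (nat_lit 7))
(.lf (nat_lit 0x81)))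
(.nd (.lf (nat_lit 0x1d2))
(.lf (nat_lit 0x1b0)))))
(.nd (.nd (.nd (.lf (nat_lit 0x278))
(.lf (nat_lit 0x221)))
(.nd (.lf (nat_lit 0x173))
(.lf (nat_lit 0xf1))))
(.nd (.nd (.lf (nat_lit 0x2a8))
(.lf (nat_lit 0x193)))
(.lf (nat_lit 3)))))
(.nd (.nd (.nd (.nd (.lf (nat_lit 0x1cb))
(.lf (nat_lit 0x14c)))
(.nd (.lf (nat_lit 0x1e))
(.lf (nat_lit 0xce))))
(.nd (.nd (.lf (nat_lit 0x4b))
(.lf (nat_lit 0x18f)))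
(.nd (.lf (nat_lit 0x2c0))
(.lf (nat_lit 0x89)))))
(.nd (.nd (.nd (.lf (nat_lit 0x1c1))
(.lf (nat_lit 0x2e)))
(.nd (.lf (nat_lit 0x227))
(.lf (nat_lit 0xe4))))
(.nd (.nd (.lf (nat_lit 0x22f))
(.lf (nat_lit 0x229)))
(.lf (nat_lit 0x175))))))
(.nd (.nd (.nd (.nd (.nd (.lf (nat_lit 0x211))
(.lf (nat_lit 0xbf)))
(.nd (.lf (nat_lit 0x285))
(.lf (nat_lit 0xf6))))
(.nd (.nd (.lf (nat_lit 0x14c))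
(.lf (nat_lit 0x255)))
(.nd (.lf (nat_lit 0x69))
(.lf (nat_lit 0x179)))))
(.nd (.nd (.nd (.lf (nat_lit 0x76))
(.lf (nat_lit 0x27a)))
(.nd (.lf (nat_lit 0x26c))
(.lf (nat_lit 0x46))))
(.nd (.nd (.lf (nat_lit 0x87))
(.lf (nat_lit 0xcc)))
(.lf (nat_lit 0xc5)))))
(.nd (.nd (.nd (.nd (.lf (nat_lit 0x60))
(.lf (nat_lit 0x11c)))
(.nd (.lf (nat_lit 0x115))
(.lf (nat_lit 0x252))))
(.nd (.nd (.lf (nat_lit 0x214))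
(.lf (nat_lit 0x15)))
(.lf (nat_lit 0x202))))
(.nd (.nd (.nd (.lf (nat_lit 0x1ae))
(.lf (nat_lit 0x15f)))
(.nd (.lf (nat_lit 0x7e))
(.lf (nat_lit 0x8e))))
(.nd (.nd (.lf (nat_lit 0x173))
(.lf (nat_lit 0x157)))
(.lf (nat_lit 0x23d)))))))
(.nd (.nd (.nd (.nd (.nd (.nd (.lf (nat_lit 0x11))
(.lf (nat_lit 0x77)))
(.nd (.lf (nat_lit 0xe4))
(.lf (nat_lit 0x229))))
(.nd (.nd (.lf (nat_lit 0x223))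
(.lf (nat_lit 0x11)))
(.nd (.lf (nat_lit 0xf1))
(.lf (nat_lit 0xf6)))))
(.nd (.nd (.nd (.lf (nat_lit 0x1fe))
(.lf (nat_lit 0x193)))
(.nd (.lf (nat_lit 0x2e))
(.lf (nat_lit 0xaa))))
(.nd (.nd (.lf (nat_lit 0x59))
(.lf (nat_lit 0x1c3)))
(.lf (nat_lit 0x221)))))
(.nd (.nd (.nd (.nd (.lf (nat_lit 0xcc))
(.lf (nat_lit 0x213)))
(.nd (.lf (nat_lit 0x2a5))
(.lf (nat_lit 0x64))))
(.nd (.nd (.lf (nat_lit 0x51))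
(.lf (nat_lit 0x13f)))
(.nd (.lf (nat_lit 0x209))
(.lf (nat_lit 0x1c1)))))
(.nd (.nd (.nd (.lf (nat_lit 0xc5))
(.lf (nat_lit 0x26c)))
(.nd (.lf (nat_lit 0x58))
(.lf (nat_lit 0x1cb))))
(.nd (.nd (.lf (nat_lit 0x21b))
(.lf (nat_lit 0x14a)))
(.lf (nat_lit 0x71))))))
(.nd (.nd (.nd (.nd (.nd (.lf (nat_lit 0x1a1))
(.lf (nat_lit 0x255)))
(.nd (.lf (nat_lit 0x8e))
(.lf (nat_lit 0x18f))))
(.nd (.nd (.lf (nat_lit 0x21b))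
(.lf (nat_lit 0x180)))
(.nd (.lf (nat_lit 0x2e))
(.lf (nat_lit 0x3b)))))
(.nd (.nd (.nd (.lf (nat_lit 0x6f))
(.lf (nat_lit 0x76)))
(.nd (.lf (nat_lit 0x196))
(.lf (nat_lit 0x211))))
(.nd (.nd (.lf (nat_lit 0x264))
(.lf (nat_lit 3)))
(.lf (nat_lit 0x202)))))
(.nd (.nd (.nd (.nd (.lf (nat_lit 0x280))
(.lf (nat_lit 0x23)))
(.nd (.lf (nat_lit 0x272))
(.lf (nat_lit 0x1e7))))
(.nd (.nd (.lf (nat_lit 0x1ea))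
(.lf (nat_lit 0x2c0)))
(.lf (nat_lit 0x76))))
(.nd (.nd (.nd (.lf (nat_lit 0x1dd))
(.lf (nat_lit 0x202)))
(.nd (.lf (nat_lit 0x23d))
(.lf (nat_lit 0x31))))
(.nd (.nd (.lf (nat_lit 0x71))
(.lf (nat_lit 0x58)))
(.lf (nat_lit 0x127))))))))
(.nd (.nd (.nd (.nd (.nd (.nd (.nd (.lf (nat_lit 0x138))
(.lf (nat_lit 0x2a3)))
(.nd (.lf (nat_lit 0x108))
(.lf (nat_lit 0x15b))))
(.nd (.nd (.lf (nat_lit 0x202))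
(.lf (nat_lit 0x115)))
(.nd (.lf (nat_lit 0x37))
(.lf (nat_lit 0x11e)))))
(.nd (.nd (.nd (.lf (nat_lit 7))
(.lf (nat_lit 0xcc)))
(.nd (.lf (nat_lit 0x1fa))
(.lf (nat_lit 0x23d))))
(.nd (.nd (.lf (nat_lit 0x290))
(.lf (nat_lit 0x65)))
(.lf (nat_lit 0x1fe)))))
(.nd (.nd (.nd (.nd (.lf (nat_lit 0x255))
(.lf (nat_lit 0x7e)))
(.nd (.lf (nat_lit 0x1f4))
(.lf (nat_lit 0x1a1))))
(.nd (.nd (.lf (nat_lit 0x232))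
(.lf (nat_lit 0x255)))
(.nd (.lf (nat_lit 0xd6))
(.lf (nat_lit 0x1cb)))))
(.nd (.nd (.nd (.lf (nat_lit 0x59))
(.lf (nat_lit 0x1cd)))
(.nd (.lf (nat_lit 0x1b0))
(.lf (nat_lit 0x24))))
(.nd (.nd (.lf (nat_lit 0x36))
(.lf (nat_lit 0x1ac)))
(.lf (nat_lit 0x1a1))))))
(.nd (.nd (.nd (.nd (.nd (.lf (nat_lit 0xd7))
(.lf (nat_lit 0x1fc)))
(.nd (.lf (nat_lit 0x1f5))
(.lf (nat_lit 7))))
(.nd (.nd (.lf (nat_lit 0x30))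
(.lf (nat_lit 0x13f)))
(.nd (.lf (nat_lit 0x15f))
(.lf (nat_lit 0x18d)))))
(.nd (.nd (.nd (.lf (nat_lit 0x129))
(.lf (nat_lit 0x292)))
(.nd (.lf (nat_lit 0x69))
(.lf (nat_lit 0x1df))))
(.nd (.nd (.lf (nat_lit 0x18b))
(.lf (nat_lit 0x193)))
(.lf (nat_lit 0x10)))))
(.nd (.nd (.nd (.nd (.lf (nat_lit 0x1fe))
(.lf (nat_lit 0x1ea)))
(.nd (.lf (nat_lit 0x1e))
(.lf (nat_lit 0x28))))
(.nd (.nd (.lf (nat_lit 0xd7))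
(.lf (nat_lit 0x21b)))
(.lf (nat_lit 0x214))))
(.nd (.nd (.nd (.lf (nat_lit 0x1b0))
(.lf (nat_lit 0x1e)))
(.nd (.lf (nat_lit 0x1cd))
(.lf (nat_lit 0x9c))))
(.nd (.nd (.lf (nat_lit 0x25a))
(.lf (nat_lit 0x229)))
(.lf (nat_lit 0xa3)))))))
(.nd (.nd (.nd (.nd (.nd (.nd (.lf (nat_lit 0x19c))
(.lf (nat_lit 0x16c)))
(.nd (.lf (nat_lit 0x64))
(.lf (nat_lit 0xcc))))
(.nd (.nd (.lf (nat_lit 0xed))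
(.lf (nat_lit 0x1cd)))
(.nd (.lf (nat_lit 0x1c4))
(.lf (nat_lit 0x15)))))
(.nd (.nd (.nd (.lf (nat_lit 0x264))
(.lf (nat_lit 0x15)))
(.nd (.lf (nat_lit 0x1cd))
(.lf (nat_lit 0x129))))
(.nd (.nd (.lf (nat_lit 0x1d2))
(.lf (nat_lit 0x23a)))
(.lf (nat_lit 0x1dd)))))
(.nd (.nd (.nd (.nd (.lf (nat_lit 0x193))
(.lf (nat_lit 0x255)))
(.nd (.lf (nat_lit 0xd6))
(.lf (nat_lit 0x285))))
(.nd (.nd (.lf (nat_lit 0x1c3))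
(.lf (nat_lit 0x129)))
(.lf (nat_lit 0x51))))
(.nd (.nd (.nd (.lf (nat_lit 0x31))
(.lf (nat_lit 0xaa)))
(.nd (.lf (nat_lit 0xf8))
(.lf (nat_lit 0x1c1))))
(.nd (.nd (.lf (nat_lit 0x229))
(.lf (nat_lit 0x23)))
(.lf (nat_lit 0x1cb))))))
(.nd (.nd (.nd (.nd (.nd (.lf (nat_lit 0x53))
(.lf (nat_lit 0x69)))
(.nd (.lf (nat_lit 0x209))
(.lf (nat_lit 0x1f5))))
(.nd (.nd (.lf (nat_lit 0x280))
(.lf (nat_lit 0x1e)))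
(.nd (.lf (nat_lit 0x202))
(.lf (nat_lit 0xc5)))))
(.nd (.nd (.nd (.lf (nat_lit 0x1b2))
(.lf (nat_lit 0x16c)))
(.nd (.lf (nat_lit 0x1e))
(.lf (nat_lit 0x76))))
(.nd (.nd (.lf (nat_lit 0x141))
(.lf (nat_lit 0x122)))
(.lf (nat_lit 0x290)))))
(.nd (.nd (.nd (.nd (.lf (nat_lit 0x28))
(.lf (nat_lit 0x244)))
(.nd (.lf (nat_lit 0x2b6))
(.lf (nat_lit 0x11))))
(.nd (.nd (.lf (nat_lit 0x1b))
(.lf (nat_lit 0x189)))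
(.lf (nat_lit 0x1e7))))
(.nd (.nd (.nd (.lf (nat_lit 0x278))
(.lf (nat_lit 0x26c)))
(.nd (.lf (nat_lit 0xd6))
(.lf (nat_lit 0x21b))))
(.nd (.nd (.lf (nat_lit 0x157))
(.lf (nat_lit 0x115)))
(.lf (nat_lit 0x89))))))))))
(.nd (.nd (.nd (.nd (.nd (.nd (.nd (.nd (.nd (.lf (nat_lit 0x80))
(.lf (nat_lit 0xb5)))
(.nd (.lf (nat_lit 0x253))
(.lf (nat_lit 0x2bb))))
(.nd (.nd (.lf (nat_lit 0x25f))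
(.lf (nat_lit 0x1ad)))
(.nd (.lf (nat_lit 0x1ba))
(.lf (nat_lit 0x2b7)))))
(.nd (.nd (.nd (.lf (nat_lit 0x57))
(.lf (nat_lit 0x293)))
(.nd (.lf (nat_lit 0xa9))
(.lf (nat_lit 0xd4))))
(.nd (.nd (.lf (nat_lit 0x16e))
(.lf (nat_lit 0x1a8)))
(.lf (nat_lit 0x2bd)))))
(.nd (.nd (.nd (.nd (.lf (nat_lit 0x100))
(.lf (nat_lit 0xe5)))
(.nd (.lf (nat_lit 0x25f))
(.lf (nat_lit 0x80))))
(.nd (.nd (.lf (nat_lit 0xb4))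
(.lf (nat_lit 0xc7)))
(.nd (.lf (nat_lit 0x293))
(.lf (nat_lit 0x29c)))))
(.nd (.nd (.nd (.lf (nat_lit 0x261))
(.lf (nat_lit 0x2c9)))
(.nd (.lf (nat_lit 0x131))
(.lf (nat_lit 0x8d))))
(.nd (.nd (.lf (nat_lit 0x183))
(.lf (nat_lit 0x249)))
(.lf (nat_lit 0x10c))))))
(.nd (.nd (.nd (.nd (.nd (.lf (nat_lit 0x1f3))
(.lf (nat_lit 0x287)))
(.nd (.lf (nat_lit 0x1a4))
(.lf (nat_lit 0xe5))))
(.nd (.nd (.lf (nat_lit 0x14f))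
(.lf (nat_lit 0x271)))
(.nd (.lf (nat_lit 0x140))
(.lf (nat_lit 0x8c)))))
(.nd (.nd (.nd (.lf (nat_lit 0xbc))
(.lf (nat_lit 0x20d)))
(.nd (.lf (nat_lit 0x23b))
(.lf (nat_lit 0x2b0))))
(.nd (.nd (.lf (nat_lit 0x29d))
(.lf (nat_lit 0x93)))
(.lf (nat_lit 0xd5)))))
(.nd (.nd (.nd (.nd (.lf (nat_lit 0x2c6))
(.lf (nat_lit 0xd3)))
(.nd (.lf (nat_lit 0x1a6))
(.lf (nat_lit 0x2a6))))
(.nd (.nd (.lf (nat_lit 0x228))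
(.lf (nat_lit 0x2aa)))
(.lf (nat_lit 0x9e))))
(.nd (.nd (.nd (.lf (nat_lit 0x154))
(.lf (nat_lit 0xfb)))
(.nd (.lf (nat_lit 0x2c6))
(.lf (nat_lit 0x8b))))
(.nd (.nd (.lf (nat_lit 0xf0))
(.lf (nat_lit 0x137)))
(.lf (nat_lit 0x24d)))))))
(.nd (.nd (.nd (.nd (.nd (.nd (.lf (nat_lit 0x2c6))
(.lf (nat_lit 0x102)))
(.nd (.lf (nat_lit 0x16d))
(.lf (nat_lit 0x23b))))
(.nd (.nd (.lf (nat_lit 0x253))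
(.lf (nat_lit 0x247)))
(.nd (.lf (nat_lit 0x56))
(.lf (nat_lit 0x9d)))))
(.nd (.nd (.nd (.lf (nat_lit 0xd4))
(.lf (nat_lit 0x1eb)))
(.nd (.lf (nat_lit 0x2c3))
(.lf (nat_lit 0xa4))))
(.nd (.nd (.lf (nat_lit 0x104))
(.lf (nat_lit 0x100)))
(.lf (nat_lit 0x250)))))
(.nd (.nd (.nd (.nd (.lf (nat_lit 0x144))
(.lf (nat_lit 0x16e)))
(.nd (.lf (nat_lit 0x220))
(.lf (nat_lit 0x2b9))))
(.nd (.nd (.lf (nat_lit 0x27d))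
(.lf (nat_lit 0x7b)))
(.nd (.lf (nat_lit 0x57))
(.lf (nat_lit 0x224)))))
(.nd (.nd (.nd (.lf (nat_lit 0xd5))
(.lf (nat_lit 0x1ff)))
(.nd (.lf (nat_lit 0x102))
(.lf (nat_lit 0x74))))
(.nd (.nd (.lf (nat_lit 0x56))
(.lf (nat_lit 0x14f)))
(.lf (nat_lit 0x2af))))))
(.nd (.nd (.nd (.nd (.nd (.lf (nat_lit 0x57))
(.lf (nat_lit 0x224)))
(.nd (.lf (nat_lit 0xbc))
(.lf (nat_lit 0x114))))
(.nd (.nd (.lf (nat_lit 0x8c))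
(.lf (nat_lit 0x75)))
(.nd (.lf (nat_lit 0x2b3))
(.lf (nat_lit 0x27)))))
(.nd (.nd (.nd (.lf (nat_lit 0x2b3))
(.lf (nat_lit 0x11d)))
(.nd (.lf (nat_lit 0x119))
(.lf (nat_lit 0x2b7))))
(.nd (.nd (.lf (nat_lit 0x2b7))
(.lf (nat_lit 0x2bc)))
(.lf (nat_lit 0x1ee)))))
(.nd (.nd (.nd (.nd (.lf (nat_lit 0x283))
(.lf (nat_lit 0x2b3)))
(.nd (.lf (nat_lit 0x12a))
(.lf (nat_lit 0xfb))))
(.nd (.nd (.lf (nat_lit 0x8d))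
(.lf (nat_lit 0x224)))
(.lf (nat_lit 0x73))))
(.nd (.nd (.nd (.lf (nat_lit 0xa9))
(.lf (nat_lit 0x13a)))
(.nd (.lf (nat_lit 0x249))
(.lf (nat_lit 0x2c2))))
(.nd (.nd (.lf (nat_lit 0x2c6))
(.lf (nat_lit 0xb4)))
(.lf (nat_lit 0x57))))))))
(.nd (.nd (.nd (.nd (.nd (.nd (.nd (.lf (nat_lit 0xd5))
(.lf (nat_lit 0x158)))
(.nd (.lf (nat_lit 0x1ad))
(.lf (nat_lit 0x117))))
(.nd (.nd (.lf (nat_lit 0x1dc))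
(.lf (nat_lit 0xe8)))
(.nd (.lf (nat_lit 0x2b9))
(.lf (nat_lit 0x3a)))))
(.nd (.nd (.nd (.lf (nat_lit 0x25f))
(.lf (nat_lit 0x80)))
(.nd (.lf (nat_lit 0x16d))
(.lf (nat_lit 0x265))))
(.nd (.nd (.lf (nat_lit 0x220))
(.lf (nat_lit 0x29c)))
(.lf (nat_lit 0x1ab)))))
(.nd (.nd (.nd (.nd (.lf (nat_lit 0x224))
(.lf (nat_lit 0x2c7)))
(.nd (.lf (nat_lit 0x1d5))
(.lf (nat_lit 0xd5))))
(.nd (.nd (.lf (nat_lit 0x163))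
(.lf (nat_lit 0x220)))
(.nd (.lf (nat_lit 0xd3))
(.lf (nat_lit 0x74)))))
(.nd (.nd (.nd (.lf (nat_lit 0x55))
(.lf (nat_lit 0xd4)))
(.nd (.lf (nat_lit 0x23b))
(.lf (nat_lit 0x2c2))))
(.nd (.nd (.lf (nat_lit 0x296))
(.lf (nat_lit 0x102)))
(.lf (nat_lit 0x183))))))
(.nd (.nd (.nd (.nd (.nd (.lf (nat_lit 0x80))
(.lf (nat_lit 0x8c)))
(.nd (.lf (nat_lit 0x224))
(.lf (nat_lit 0x2c7))))
(.nd (.nd (.lf (nat_lit 0x2c6))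
(.lf (nat_lit 0x68)))
(.nd (.lf (nat_lit 0x57))
(.lf (nat_lit 0x26e)))))
(.nd (.nd (.nd (.lf (nat_lit 0xc6))
(.lf (nat_lit 0x283)))
(.nd (.lf (nat_lit 0x178))
(.lf (nat_lit 0x9e))))
(.nd (.nd (.lf (nat_lit 0xe6))
(.lf (nat_lit 0x106)))
(.lf (nat_lit 0x2ca)))))
(.nd (.nd (.nd (.nd (.lf (nat_lit 0xd4))
(.lf (nat_lit 0xd5)))
(.nd (.lf (nat_lit 0x2af))
(.lf (nat_lit 0xa8))))
(.nd (.nd (.lf (nat_lit 0x1de))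
(.lf (nat_lit 0x12a)))
(.lf (nat_lit 0x253))))
(.nd (.nd (.nd (.lf (nat_lit 0x2a6))
(.lf (nat_lit 0x2b2)))
(.nd (.lf (nat_lit 0x1bd))
(.lf (nat_lit 0x106))))
(.nd (.nd (.lf (nat_lit 0x20a))
(.lf (nat_lit 0x28b)))
(.lf (nat_lit 0xb4)))))))
(.nd (.nd (.nd (.nd (.nd (.nd (.lf (nat_lit 0x13a))
(.lf (nat_lit 0xc9)))
(.nd (.lf (nat_lit 0x297))
(.lf (nat_lit 0x4a))))
(.nd (.nd (.lf (nat_lit 0x27))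
(.lf (nat_lit 0xd4)))
(.nd (.lf (nat_lit 0x265))
(.lf (nat_lit 0x268)))))
(.nd (.nd (.nd (.lf (nat_lit 0x1bf))
(.lf (nat_lit 0x2c2)))
(.nd (.lf (nat_lit 0xc4))
(.lf (nat_lit 0xc9))))
(.nd (.nd (.lf (nat_lit 0xa0))
(.lf (nat_lit 0x24d)))
(.lf (nat_lit 0x5d)))))
(.nd (.nd (.nd (.nd (.lf (nat_lit 0x12e))
(.lf (nat_lit 0x28f)))
(.nd (.lf (nat_lit 0xdb))
(.lf (nat_lit 0x13a))))
(.nd (.nd (.lf (nat_lit 0x9e))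
(.lf (nat_lit 0xe5)))
(.lf (nat_lit 0x2b9))))
(.nd (.nd (.nd (.lf (nat_lit 0x297))
(.lf (nat_lit 0x174)))
(.nd (.lf (nat_lit 0x9d))
(.lf (nat_lit 0x265))))
(.nd (.nd (.lf (nat_lit 0x293))
(.lf (nat_lit 0x268)))
(.lf (nat_lit 0x56))))))
(.nd (.nd (.nd (.nd (.nd (.lf (nat_lit 0x297))
(.lf (nat_lit 0x11d)))
(.nd (.lf (nat_lit 0x8d))
(.lf (nat_lit 0x1f3))))
(.nd (.nd (.lf (nat_lit 0x2b7))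
(.lf (nat_lit 0x27d)))
(.nd (.lf (nat_lit 0x13a))
(.lf (nat_lit 0x75)))))
(.nd (.nd (.nd (.lf (nat_lit 0xf9))
(.lf (nat_lit 0x1a6)))
(.nd (.lf (nat_lit 0x287))
(.lf (nat_lit 0x55))))
(.nd (.nd (.lf (nat_lit 0x73))
(.lf (nat_lit 0xe6)))
(.lf (nat_lit 0x1bf)))))
(.nd (.nd (.nd (.nd (.lf (nat_lit 0x68))
(.lf (nat_lit 0x16e)))
(.nd (.lf (nat_lit 0x261))
(.lf (nat_lit 0x2cb))))
(.nd (.nd (.lf (nat_lit 0x2aa))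
(.lf (nat_lit 0x1ad)))
(.lf (nat_lit 0x183))))
(.nd (.nd (.nd (.lf (nat_lit 0x151))
(.lf (nat_lit 0x283)))
(.nd (.lf (nat_lit 0x1ad))
(.lf (nat_lit 0x9e))))
(.nd (.nd (.lf (nat_lit 0x56))
(.lf (nat_lit 0x8d)))
(.lf (nat_lit 0x27d)))))))))
(.nd (.nd (.nd (.nd (.nd (.nd (.nd (.nd (.lf (nat_lit 0xd4))
(.lf (nat_lit 0x185)))
(.nd (.lf (nat_lit 0x296))
(.lf (nat_lit 0x55))))
(.nd (.nd (.lf (nat_lit 0x68))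
(.lf (nat_lit 0x16e)))
(.nd (.lf (nat_lit 0x1f3))
(.lf (nat_lit 0x2b8)))))
(.nd (.nd (.nd (.lf (nat_lit 0x293))
(.lf (nat_lit 0x2af)))
(.nd (.lf (nat_lit 0x181))
(.lf (nat_lit 0xd5))))
(.nd (.nd (.lf (nat_lit 0x183))
(.lf (nat_lit 0x265)))
(.lf (nat_lit 0xf0)))))
(.nd (.nd (.nd (.nd (.lf (nat_lit 0xfb))
(.lf (nat_lit 0x2c1)))
(.nd (.lf (nat_lit 0x1ad))
(.lf (nat_lit 0xd4))))
(.nd (.nd (.lf (nat_lit 0xb5))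
(.lf (nat_lit 0xc6)))
(.nd (.lf (nat_lit 0x2b3))
(.lf (nat_lit 0x121)))))
(.nd (.nd (.nd (.lf (nat_lit 0x2a0))
(.lf (nat_lit 0xb4)))
(.nd (.lf (nat_lit 0x139))
(.lf (nat_lit 0x1f0))))
(.nd (.nd (.lf (nat_lit 0x1ff))
(.lf (nat_lit 0x2c6)))
(.lf (nat_lit 0x137))))))
(.nd (.nd (.nd (.nd (.nd (.lf (nat_lit 0x21e))
(.lf (nat_lit 0xdb)))
(.nd (.lf (nat_lit 0x119))
(.lf (nat_lit 0x26e))))
(.nd (.nd (.lf (nat_lit 0x283))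
(.lf (nat_lit 0x287)))
(.nd (.lf (nat_lit 0x131))
(.lf (nat_lit 0x9d)))))
(.nd (.nd (.nd (.lf (nat_lit 0xc7))
(.lf (nat_lit 0xc6)))
(.nd (.lf (nat_lit 0x2c3))
(.lf (nat_lit 0xa8))))
(.nd (.nd (.lf (nat_lit 0x55))
(.lf (nat_lit 0x105)))
(.lf (nat_lit 0x283)))))
(.nd (.nd (.nd (.nd (.lf (nat_lit 0x68))
(.lf (nat_lit 0x117)))
(.nd (.lf (nat_lit 0x261))
(.lf (nat_lit 0x247))))
(.nd (.nd (.lf (nat_lit 0x2a9))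
(.lf (nat_lit 0x121)))
(.lf (nat_lit 0x8d))))
(.nd (.nd (.nd (.lf (nat_lit 0x75))
(.lf (nat_lit 0x1bf)))
(.nd (.lf (nat_lit 0x1ad))
(.lf (nat_lit 0x12a))))
(.nd (.nd (.lf (nat_lit 0x1d5))
(.lf (nat_lit 0x12c)))
(.lf (nat_lit 0x2c2)))))))
(.nd (.nd (.nd (.nd (.nd (.nd (.lf (nat_lit 0x10c))
(.lf (nat_lit 0x16b)))
(.nd (.lf (nat_lit 0x249))
(.lf (nat_lit 0x2c6))))
(.nd (.nd (.lf (nat_lit 0x21e))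
(.lf (nat_lit 0x80)))
(.nd (.lf (nat_lit 0xd5))
(.lf (nat_lit 0x265)))))
(.nd (.nd (.nd (.lf (nat_lit 0x13c))
(.lf (nat_lit 0x2a6)))
(.nd (.lf (nat_lit 0xf0))
(.lf (nat_lit 0x1bd))))
(.nd (.nd (.lf (nat_lit 0x1ee))
(.lf (nat_lit 0x75)))
(.lf (nat_lit 0x21e)))))
(.nd (.nd (.nd (.nd (.lf (nat_lit 0x12a))
(.lf (nat_lit 0x119)))
(.nd (.lf (nat_lit 0x2b3))
(.lf (nat_lit 0x4a))))
(.nd (.nd (.lf (nat_lit 0x73))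
(.lf (nat_lit 0xc7)))
(.nd (.lf (nat_lit 0x1af))
(.lf (nat_lit 0x2bb)))))
(.nd (.nd (.nd (.lf (nat_lit 0x238))
(.lf (nat_lit 0x287)))
(.nd (.lf (nat_lit 0x9e))
(.lf (nat_lit 0xd5))))
(.nd (.nd (.lf (nat_lit 0x57))
(.lf (nat_lit 0x1ff)))
(.lf (nat_lit 0x1ad))))))
(.nd (.nd (.nd (.nd (.nd (.lf (nat_lit 0x24d))
(.lf (nat_lit 0x2c6)))
(.nd (.lf (nat_lit 0x1dc))
(.lf (nat_lit 0x16d))))
(.nd (.nd (.lf (nat_lit 0x8d))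
(.lf (nat_lit 0x265)))
(.nd (.lf (nat_lit 0xcd))
(.lf (nat_lit 0x74)))))
(.nd (.nd (.nd (.lf (nat_lit 0x10c))
(.lf (nat_lit 0x137)))
(.nd (.lf (nat_lit 0x1ff))
(.lf (nat_lit 0x25f))))
(.nd (.nd (.lf (nat_lit 0x2cd))
(.lf (nat_lit 0x174)))
(.lf (nat_lit 0x106)))))
(.nd (.nd (.nd (.nd (.lf (nat_lit 0x21e))
(.lf (nat_lit 0x3a)))
(.nd (.lf (nat_lit 0x12e))
(.lf (nat_lit 0x253))))
(.nd (.nd (.lf (nat_lit 0x271))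
(.lf (nat_lit 0x2b8)))
(.lf (nat_lit 0x16e))))
(.nd (.nd (.nd (.lf (nat_lit 0x14d))
(.lf (nat_lit 0xfd)))
(.nd (.lf (nat_lit 0x297))
(.lf (nat_lit 0x4a))))
(.nd (.nd (.lf (nat_lit 0x11d))
(.lf (nat_lit 0x16b)))
(.lf (nat_lit 0x253))))))))
(.nd (.nd (.nd (.nd (.nd (.nd (.nd (.lf (nat_lit 0x224))
(.lf (nat_lit 0x2c7)))
(.nd (.lf (nat_lit 0x16b))
(.lf (nat_lit 0x14f))))
(.nd (.nd (.lf (nat_lit 0xa0))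
(.lf (nat_lit 0x1f0)))
(.nd (.lf (nat_lit 0xec))
(.lf (nat_lit 0x9b)))))
(.nd (.nd (.nd (.lf (nat_lit 0x7b))
(.lf (nat_lit 0x1ee)))
(.nd (.lf (nat_lit 0x2a2))
(.lf (nat_lit 0x27d))))
(.nd (.nd (.lf (nat_lit 0x28d))
(.lf (nat_lit 0x10c)))
(.lf (nat_lit 0xc9)))))
(.nd (.nd (.nd (.nd (.lf (nat_lit 0x2ce))
(.lf (nat_lit 0x3a)))
(.nd (.lf (nat_lit 0x1d7))
(.lf (nat_lit 0x1bf))))
(.nd (.nd (.lf (nat_lit 0x253))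
(.lf (nat_lit 0x2b3)))
(.nd (.lf (nat_lit 0x1bd))
(.lf (nat_lit 0x57)))))
(.nd (.nd (.nd (.lf (nat_lit 0x9b))
(.lf (nat_lit 0xfd)))
(.nd (.lf (nat_lit 0x2b3))
(.lf (nat_lit 0x4a))))
(.nd (.nd (.lf (nat_lit 0xa9))
(.lf (nat_lit 0x8c)))
(.lf (nat_lit 0x224))))))
(.nd (.nd (.nd (.nd (.nd (.lf (nat_lit 0x56))
(.lf (nat_lit 0x8d)))
(.nd (.lf (nat_lit 0x286))
(.lf (nat_lit 0x104))))
(.nd (.nd (.lf (nat_lit 0x144))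
(.lf (nat_lit 0xc4)))
(.nd (.lf (nat_lit 0x24d))
(.lf (nat_lit 0x296)))))
(.nd (.nd (.nd (.lf (nat_lit 0x1f3))
(.lf (nat_lit 0x2c6)))
(.nd (.lf (nat_lit 0xe6))
(.lf (nat_lit 0x8d))))
(.nd (.nd (.lf (nat_lit 0xc9))
(.lf (nat_lit 0x238)))
(.lf (nat_lit 0x140)))))
(.nd (.nd (.nd (.nd (.lf (nat_lit 0xfd))
(.lf (nat_lit 0x1af)))
(.nd (.lf (nat_lit 0x11d))
(.lf (nat_lit 0x117))))
(.nd (.nd (.lf (nat_lit 0x117))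
(.lf (nat_lit 0x197)))
(.lf (nat_lit 0x2a9))))
(.nd (.nd (.nd (.lf (nat_lit 0x27d))
(.lf (nat_lit 0x4a)))
(.nd (.lf (nat_lit 0x1ba))
(.lf (nat_lit 0x158))))
(.nd (.nd (.lf (nat_lit 0x283))
(.lf (nat_lit 0x2cf)))
(.lf (nat_lit 0x74)))))))
(.nd (.nd (.nd (.nd (.nd (.nd (.lf (nat_lit 0xe8))
(.lf (nat_lit 0x271)))
(.nd (.lf (nat_lit 0x4a))
(.lf (nat_lit 0x19a))))
(.nd (.nd (.lf (nat_lit 0x117))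
(.lf (nat_lit 0xfd)))
(.nd (.lf (nat_lit 0x27d))
(.lf (nat_lit 0x3a)))))
(.nd (.nd (.nd (.lf (nat_lit 0x2bb))
(.lf (nat_lit 0x102)))
(.nd (.lf (nat_lit 0x1a8))
(.lf (nat_lit 0x228))))
(.nd (.nd (.lf (nat_lit 0x271))
(.lf (nat_lit 0x2aa)))
(.lf (nat_lit 0x166)))))
(.nd (.nd (.nd (.nd (.lf (nat_lit 0x224))
(.lf (nat_lit 0x2b8)))
(.nd (.lf (nat_lit 0x13a))
(.lf (nat_lit 0xe5))))
(.nd (.nd (.lf (nat_lit 0x8d))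
(.lf (nat_lit 0x212)))
(.lf (nat_lit 0xcd))))
(.nd (.nd (.nd (.lf (nat_lit 0x121))
(.lf (nat_lit 0x12a)))
(.nd (.lf (nat_lit 0x261))
(.lf (nat_lit 0x2c2))))
(.nd (.nd (.lf (nat_lit 0x2c2))
(.lf (nat_lit 0xd3)))
(.lf (nat_lit 0x8d))))))
(.nd (.nd (.nd (.nd (.nd (.lf (nat_lit 0xdb))
(.lf (nat_lit 0xb5)))
(.nd (.lf (nat_lit 0x1f3))
(.lf (nat_lit 0x2aa))))
(.nd (.nd (.lf (nat_lit 0x2c3))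
(.lf (nat_lit 0x68)))
(.nd (.lf (nat_lit 0x119))
(.lf (nat_lit 0x283)))))
(.nd (.nd (.nd (.lf (nat_lit 0x1d7))
(.lf (nat_lit 0x293)))
(.nd (.lf (nat_lit 0xb4))
(.lf (nat_lit 0x56))))
(.nd (.nd (.lf (nat_lit 0x16e))
(.lf (nat_lit 0x12c)))
(.lf (nat_lit 0x2a0)))))
(.nd (.nd (.nd (.nd (.lf (nat_lit 0x8c))
(.lf (nat_lit 0xd5)))
(.nd (.lf (nat_lit 0x2b0))
(.lf (nat_lit 0xcd))))
(.nd (.nd (.lf (nat_lit 0x27))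
(.lf (nat_lit 0x12a)))
(.lf (nat_lit 0x220))))
(.nd (.nd (.nd (.lf (nat_lit 0x293))
(.lf (nat_lit 0x2c5)))
(.nd (.lf (nat_lit 0x1bd))
(.lf (nat_lit 0x57))))
(.nd (.nd (.lf (nat_lit 0xa0))
(.lf (nat_lit 0x238)))
(.lf (nat_lit 0x4a))))))))))))

noncomputable def bAQ63 : BT := (.nd (.nd (.nd (.nd (.nd (.nd (.nd (.nd (.nd (.nd (.nd (.lf (nat_lit 2))
(.lf (nat_lit 0xe8)))
(.nd (.lf (nat_lit 0x7f))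
(.lf (nat_lit 0xe9))))
(.nd (.nd (.lf (nat_lit 0x60))
(.lf (nat_lit 0x102)))
(.nd (.lf (nat_lit 0xcc))
(.lf (nat_lit 0xa)))))
(.nd (.nd (.nd (.lf (nat_lit 0x2a))
(.lf (nat_lit 0xa)))
(.nd (.lf (nat_lit 0xd9))
(.lf (nat_lit 0xd4))))
(.nd (.nd (.lf (nat_lit 0x7c))
(.lf (nat_lit 0xa)))
(.lf (nat_lit 0x99)))))
(.nd (.nd (.nd (.nd (.lf (nat_lit 1))
(.lf (nat_lit 1)))
(.nd (.lf (nat_lit 0x6d))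
(.lf (nat_lit 0x1b))))
(.nd (.nd (.lf (nat_lit 0x94))
(.lf (nat_lit 0x28)))
(.nd (.lf (nat_lit 0))
(.lf (nat_lit 0xbc)))))
(.nd (.nd (.nd (.lf (nat_lit 0x3a))
(.lf (nat_lit 0x4e)))
(.nd (.lf (nat_lit 0x75))
(.lf (nat_lit 0xc7))))
(.nd (.nd (.lf (nat_lit 0x5b))
(.lf (nat_lit 0x34)))
(.lf (nat_lit 0x52))))))
(.nd (.nd (.nd (.nd (.nd (.lf (nat_lit 8))
(.lf (nat_lit 0xbd)))
(.nd (.lf (nat_lit 0x33))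
(.lf (nat_lit 0xa))))
(.nd (.nd (.lf (nat_lit 0x89))
(.lf (nat_lit 0x39)))
(.nd (.lf (nat_lit 0xf1))
(.lf (nat_lit 0xee)))))
(.nd (.nd (.nd (.lf (nat_lit 0x30))
(.lf (nat_lit 0x9e)))
(.nd (.lf (nat_lit 0x22))
(.lf (nat_lit 0x59))))
(.nd (.nd (.lf (nat_lit 0x92))
(.lf (nat_lit 0xb)))
(.lf (nat_lit 0x28)))))
(.nd (.nd (.nd (.nd (.lf (nat_lit 0))
(.lf (nat_lit 0x1b)))
(.nd (.lf (nat_lit 0xb))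
(.lf (nat_lit 0x90))))
(.nd (.nd (.lf (nat_lit 0x58))
(.lf (nat_lit 0xe4)))
(.lf (nat_lit 0x51))))
(.nd (.nd (.nd (.lf (nat_lit 0x4a))
(.lf (nat_lit 0x53)))
(.nd (.lf (nat_lit 0x8c))
(.lf (nat_lit 0x16))))
(.nd (.nd (.lf (nat_lit 0xce))
(.lf (nat_lit 0xa)))
(.lf (nat_lit 0x5f)))))))
(.nd (.nd (.nd (.nd (.nd (.nd (.lf (nat_lit 2))
(.lf (nat_lit 0xda)))
(.nd (.lf (nat_lit 0xb8))
(.lf (nat_lit 0x6f))))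
(.nd (.nd (.lf (nat_lit 0x62))
(.lf (nat_lit 0xf6)))
(.nd (.lf (nat_lit 0xbc))
(.lf (nat_lit 0xa)))))
(.nd (.nd (.nd (.lf (nat_lit 0x1f))
(.lf (nat_lit 0x22)))
(.nd (.lf (nat_lit 0))
(.lf (nat_lit 0xa5))))
(.nd (.nd (.lf (nat_lit 0x77))
(.lf (nat_lit 0xfb)))
(.lf (nat_lit 0x16)))))
(.nd (.nd (.nd (.nd (.lf (nat_lit 0x21))
(.lf (nat_lit 0x74)))
(.nd (.lf (nat_lit 0x6f))
(.lf (nat_lit 0x28))))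
(.nd (.nd (.lf (nat_lit 0x64))
(.lf (nat_lit 0xe5)))
(.nd (.lf (nat_lit 0x53))
(.lf (nat_lit 0)))))
(.nd (.nd (.nd (.lf (nat_lit 0x45))
(.lf (nat_lit 0x39)))
(.nd (.lf (nat_lit 0xd))
(.lf (nat_lit 0x1b))))
(.nd (.nd (.lf (nat_lit 0xcf))
(.lf (nat_lit 0x7c)))
(.lf (nat_lit 0x5b))))))
(.nd (.nd (.nd (.nd (.nd (.lf (nat_lit 0x15))
(.lf (nat_lit 0xfb)))
(.nd (.lf (nat_lit 0xeb))
(.lf (nat_lit 0xda))))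
(.nd (.nd (.lf (nat_lit 0x8d))
(.lf (nat_lit 0)))
(.nd (.lf (nat_lit 0xc1))
(.lf (nat_lit 0xbc)))))
(.nd (.nd (.nd (.lf (nat_lit 0x1d))
(.lf (nat_lit 0x6f)))
(.nd (.lf (nat_lit 0x38))
(.lf (nat_lit 0xa))))
(.nd (.nd (.lf (nat_lit 0x7e))
(.lf (nat_lit 0xb)))
(.lf (nat_lit 0)))))
(.nd (.nd (.nd (.nd (.lf (nat_lit 0x27))
(.lf (nat_lit 0x70)))
(.nd (.lf (nat_lit 0xc))
(.lf (nat_lit 0x1b))))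
(.nd (.nd (.lf (nat_lit 0x75))
(.lf (nat_lit 0x22)))
(.lf (nat_lit 0x7d))))
(.nd (.nd (.nd (.lf (nat_lit 0x67))
(.lf (nat_lit 0xc3)))
(.nd (.lf (nat_lit 0xe2))
(.lf (nat_lit 0x28))))
(.nd (.nd (.lf (nat_lit 0xc5))
(.lf (nat_lit 0xee)))
(.lf (nat_lit 0x16))))))))
(.nd (.nd (.nd (.nd (.nd (.nd (.nd (.lf (nat_lit 3))
(.lf (nat_lit 0xe9)))
(.nd (.lf (nat_lit 0x76))
(.lf (nat_lit 0x101))))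
(.nd (.nd (.lf (nat_lit 0x56))
(.lf (nat_lit 0xa)))
(.nd (.lf (nat_lit 0xe0))
(.lf (nat_lit 0x28)))))
(.nd (.nd (.nd (.lf (nat_lit 0x2a))
(.lf (nat_lit 0xed)))
(.nd (.lf (nat_lit 0x98))
(.lf (nat_lit 0xd4))))
(.nd (.nd (.lf (nat_lit 0x80))
(.lf (nat_lit 0)))
(.lf (nat_lit 9)))))
(.nd (.nd (.nd (.nd (.lf (nat_lit 1))
(.lf (nat_lit 0xc8)))
(.nd (.lf (nat_lit 0xa4))
(.lf (nat_lit 0xa))))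
(.nd (.nd (.lf (nat_lit 1))
(.lf (nat_lit 0x33)))
(.nd (.lf (nat_lit 0x57))
(.lf (nat_lit 0x1d)))))
(.nd (.nd (.nd (.lf (nat_lit 0x3d))
(.lf (nat_lit 0x28)))
(.nd (.lf (nat_lit 0xbb))
(.lf (nat_lit 0))))
(.nd (.nd (.lf (nat_lit 0x71))
(.lf (nat_lit 0x80)))
(.lf (nat_lit 0x57))))))
(.nd (.nd (.nd (.nd (.nd (.lf (nat_lit 0xf))
(.lf (nat_lit 0xf9)))
(.nd (.lf (nat_lit 0x28))
(.lf (nat_lit 0xe))))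
(.nd (.nd (.lf (nat_lit 0x6c))
(.lf (nat_lit 0x68)))
(.nd (.lf (nat_lit 0x59))
(.lf (nat_lit 0xa)))))
(.nd (.nd (.nd (.lf (nat_lit 0x31))
(.lf (nat_lit 0x5a)))
(.nd (.lf (nat_lit 0x81))
(.lf (nat_lit 0xa7))))
(.nd (.nd (.lf (nat_lit 0xb4))
(.lf (nat_lit 0)))
(.lf (nat_lit 0xe7)))))
(.nd (.nd (.nd (.nd (.lf (nat_lit 0x24))
(.lf (nat_lit 0x4e)))
(.nd (.lf (nat_lit 0xb))
(.lf (nat_lit 0x30))))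
(.nd (.nd (.lf (nat_lit 0x8b))
(.lf (nat_lit 0xcd)))
(.lf (nat_lit 0x58))))
(.nd (.nd (.nd (.lf (nat_lit 0x4b))
(.lf (nat_lit 0x69)))
(.nd (.lf (nat_lit 0x1e))
(.lf (nat_lit 0xa))))
(.nd (.nd (.lf (nat_lit 0))
(.lf (nat_lit 0x19)))
(.lf (nat_lit 0x9e)))))))
(.nd (.nd (.nd (.nd (.nd (.nd (.lf (nat_lit 4))
(.lf (nat_lit 0x95)))
(.nd (.lf (nat_lit 0xb4))
(.lf (nat_lit 0xda))))
(.nd (.nd (.lf (nat_lit 0x83))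
(.lf (nat_lit 0x28)))
(.nd (.lf (nat_lit 0xd4))
(.lf (nat_lit 0x34)))))
(.nd (.nd (.nd (.lf (nat_lit 0xc))
(.lf (nat_lit 0x1d)))
(.nd (.lf (nat_lit 0x1e))
(.lf (nat_lit 0x10))))
(.nd (.nd (.lf (nat_lit 0x5e))
(.lf (nat_lit 0xf8)))
(.lf (nat_lit 0xe7)))))
(.nd (.nd (.nd (.nd (.lf (nat_lit 0x20))
(.lf (nat_lit 0x58)))
(.nd (.lf (nat_lit 0xb))
(.lf (nat_lit 0x5a))))
(.nd (.nd (.lf (nat_lit 0x51))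
(.lf (nat_lit 0xd8)))
(.lf (nat_lit 0x2c))))
(.nd (.nd (.nd (.lf (nat_lit 0x47))
(.lf (nat_lit 0xa)))
(.nd (.lf (nat_lit 0xb))
(.lf (nat_lit 0xd4))))
(.nd (.nd (.lf (nat_lit 0xd0))
(.lf (nat_lit 0x5a)))
(.lf (nat_lit 0x62))))))
(.nd (.nd (.nd (.nd (.nd (.lf (nat_lit 0x18))
(.lf (nat_lit 0xd)))
(.nd (.lf (nat_lit 0xb))
(.lf (nat_lit 0xe8))))
(.nd (.nd (.lf (nat_lit 0x8e))
(.lf (nat_lit 0xb9)))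
(.nd (.lf (nat_lit 0x3c))
(.lf (nat_lit 0)))))
(.nd (.nd (.nd (.lf (nat_lit 0x3a))
(.lf (nat_lit 0xd3)))
(.nd (.lf (nat_lit 0x37))
(.lf (nat_lit 0x5d))))
(.nd (.nd (.lf (nat_lit 0xba))
(.lf (nat_lit 0x34)))
(.lf (nat_lit 0x37)))))
(.nd (.nd (.nd (.nd (.lf (nat_lit 0x2b))
(.lf (nat_lit 0xa2)))
(.nd (.lf (nat_lit 0xb))
(.lf (nat_lit 0x28))))
(.nd (.nd (.lf (nat_lit 0xa1))
(.lf (nat_lit 0x36)))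
(.lf (nat_lit 0x5a))))
(.nd (.nd (.nd (.lf (nat_lit 0x54))
(.lf (nat_lit 0xb9)))
(.nd (.lf (nat_lit 0x1b))
(.lf (nat_lit 0xe8))))
(.nd (.nd (.lf (nat_lit 0xde))
(.lf (nat_lit 0xa)))
(.lf (nat_lit 0x64)))))))))
(.nd (.nd (.nd (.nd (.nd (.nd (.nd (.nd (.lf (nat_lit 2))
(.lf (nat_lit 0xe8)))
(.nd (.lf (nat_lit 0xc0))
(.lf (nat_lit 0x51))))
(.nd (.nd (.lf (nat_lit 0x36))
(.lf (nat_lit 0xf6)))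
(.nd (.lf (nat_lit 0xe2))
(.lf (nat_lit 0xee)))))
(.nd (.nd (.nd (.lf (nat_lit 0x2b))
(.lf (nat_lit 0xa2)))
(.nd (.lf (nat_lit 0x9b))
(.lf (nat_lit 0xd4))))
(.nd (.nd (.lf (nat_lit 0x7c))
(.lf (nat_lit 0)))
(.lf (nat_lit 0x36)))))
(.nd (.nd (.nd (.nd (.lf (nat_lit 1))
(.lf (nat_lit 0x7c)))
(.nd (.lf (nat_lit 0xe5))
(.lf (nat_lit 0xe))))
(.nd (.nd (.lf (nat_lit 0x10))
(.lf (nat_lit 0x31)))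
(.nd (.lf (nat_lit 0xf3))
(.lf (nat_lit 0x5c)))))
(.nd (.nd (.nd (.lf (nat_lit 0x3b))
(.lf (nat_lit 0x1b)))
(.nd (.lf (nat_lit 0xc3))
(.lf (nat_lit 0x5c))))
(.nd (.nd (.lf (nat_lit 0x57))
(.lf (nat_lit 0x2e)))
(.lf (nat_lit 0x4f))))))
(.nd (.nd (.nd (.nd (.nd (.lf (nat_lit 7))
(.lf (nat_lit 0xf9)))
(.nd (.lf (nat_lit 0x30))
(.lf (nat_lit 0x28))))
(.nd (.nd (.lf (nat_lit 0x83))
(.lf (nat_lit 0x30)))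
(.nd (.lf (nat_lit 0x90))
(.lf (nat_lit 0xa)))))
(.nd (.nd (.nd (.lf (nat_lit 0x28))
(.lf (nat_lit 0)))
(.nd (.lf (nat_lit 0xcc))
(.lf (nat_lit 0x79))))
(.nd (.nd (.lf (nat_lit 0x9a))
(.lf (nat_lit 0x1f)))
(.lf (nat_lit 0x30)))))
(.nd (.nd (.nd (.nd (.lf (nat_lit 0x25))
(.lf (nat_lit 0xe)))
(.nd (.lf (nat_lit 0xc))
(.lf (nat_lit 0x59))))
(.nd (.nd (.lf (nat_lit 0x2f))
(.lf (nat_lit 0xe6)))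
(.lf (nat_lit 0x96))))
(.nd (.nd (.nd (.lf (nat_lit 0x4a))
(.lf (nat_lit 0x2c)))
(.nd (.lf (nat_lit 0x1b))
(.lf (nat_lit 1))))
(.nd (.nd (.lf (nat_lit 0xc7))
(.lf (nat_lit 0xa)))
(.lf (nat_lit 0x56)))))))
(.nd (.nd (.nd (.nd (.nd (.nd (.lf (nat_lit 6))
(.lf (nat_lit 0x95)))
(.nd (.lf (nat_lit 0x52))
(.lf (nat_lit 0x1a))))
(.nd (.nd (.lf (nat_lit 0x61))
(.lf (nat_lit 0x1b)))
(.nd (.lf (nat_lit 0xbc))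
(.lf (nat_lit 0)))))
(.nd (.nd (.nd (.lf (nat_lit 0x2e))
(.lf (nat_lit 0x22)))
(.nd (.lf (nat_lit 0x1b))
(.lf (nat_lit 0xe))))
(.nd (.nd (.lf (nat_lit 0x93))
(.lf (nat_lit 0xf9)))
(.lf (nat_lit 0x64)))))
(.nd (.nd (.nd (.nd (.lf (nat_lit 0x21))
(.lf (nat_lit 0x5a)))
(.nd (.lf (nat_lit 0xd2))
(.lf (nat_lit 0xf5))))
(.nd (.nd (.lf (nat_lit 0x69))
(.lf (nat_lit 0xd8)))
(.nd (.lf (nat_lit 0x34))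
(.lf (nat_lit 0xed)))))
(.nd (.nd (.nd (.lf (nat_lit 0x3f))
(.lf (nat_lit 0x30)))
(.nd (.lf (nat_lit 0x16))
(.lf (nat_lit 0x1b))))
(.nd (.nd (.lf (nat_lit 0xd0))
(.lf (nat_lit 0)))
(.lf (nat_lit 0x61))))))
(.nd (.nd (.nd (.nd (.nd (.lf (nat_lit 0x15))
(.lf (nat_lit 0xec)))
(.nd (.lf (nat_lit 0x10))
(.lf (nat_lit 0xe9))))
(.nd (.nd (.lf (nat_lit 0x91))
(.lf (nat_lit 0x10)))
(.nd (.lf (nat_lit 0x8c))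
(.lf (nat_lit 0xbc)))))
(.nd (.nd (.nd (.lf (nat_lit 0x39))
(.lf (nat_lit 0xd5)))
(.nd (.lf (nat_lit 0x5e))
(.lf (nat_lit 0xbb))))
(.nd (.nd (.lf (nat_lit 0xa3))
(.lf (nat_lit 0x10)))
(.lf (nat_lit 0xd7)))))
(.nd (.nd (.nd (.nd (.lf (nat_lit 0x19))
(.lf (nat_lit 0xc0)))
(.nd (.lf (nat_lit 9))
(.lf (nat_lit 0x30))))
(.nd (.nd (.lf (nat_lit 0x68))
(.lf (nat_lit 0)))
(.lf (nat_lit 0x5a))))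
(.nd (.nd (.nd (.lf (nat_lit 0x66))
(.lf (nat_lit 0)))
(.nd (.lf (nat_lit 0xe0))
(.lf (nat_lit 0x28))))
(.nd (.nd (.lf (nat_lit 0xc0))
(.lf (nat_lit 0x95)))
(.lf (nat_lit 0xf7))))))))
(.nd (.nd (.nd (.nd (.nd (.nd (.nd (.lf (nat_lit 3))
(.lf (nat_lit 0xda)))
(.nd (.lf (nat_lit 0x9a))
(.lf (nat_lit 0x103))))
(.nd (.nd (.lf (nat_lit 0x56))
(.lf (nat_lit 0xa)))
(.nd (.lf (nat_lit 0xe3))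
(.lf (nat_lit 0x77)))))
(.nd (.nd (.nd (.lf (nat_lit 0x10))
(.lf (nat_lit 0x100)))
(.nd (.lf (nat_lit 0xc4))
(.lf (nat_lit 0x56))))
(.nd (.nd (.lf (nat_lit 0x7d))
(.lf (nat_lit 0xf8)))
(.lf (nat_lit 0xc)))))
(.nd (.nd (.nd (.nd (.lf (nat_lit 0xd))
(.lf (nat_lit 0x65)))
(.nd (.lf (nat_lit 0xbf))
(.lf (nat_lit 0xa))))
(.nd (.nd (.lf (nat_lit 0x16))
(.lf (nat_lit 0x1d)))
(.nd (.lf (nat_lit 0))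
(.lf (nat_lit 0)))))
(.nd (.nd (.nd (.lf (nat_lit 0x41))
(.lf (nat_lit 0)))
(.nd (.lf (nat_lit 0x8b))
(.lf (nat_lit 0xbc))))
(.nd (.nd (.lf (nat_lit 0xcf))
(.lf (nat_lit 0x7a)))
(.lf (nat_lit 0x3c))))))
(.nd (.nd (.nd (.nd (.nd (.lf (nat_lit 0x11))
(.lf (nat_lit 0xfb)))
(.nd (.lf (nat_lit 0x1d))
(.lf (nat_lit 0xee))))
(.nd (.nd (.lf (nat_lit 0x8f))
(.lf (nat_lit 0xb9)))
(.nd (.lf (nat_lit 0xf1))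
(.lf (nat_lit 0xe8)))))
(.nd (.nd (.nd (.lf (nat_lit 0x33))
(.lf (nat_lit 0xc5)))
(.nd (.lf (nat_lit 0))
(.lf (nat_lit 0xa))))
(.nd (.nd (.lf (nat_lit 0xa2))
(.lf (nat_lit 0xb)))
(.lf (nat_lit 0x6a)))))
(.nd (.nd (.nd (.nd (.lf (nat_lit 0xe))
(.lf (nat_lit 0x19)))
(.nd (.lf (nat_lit 0xc))
(.lf (nat_lit 0xcc))))
(.nd (.nd (.lf (nat_lit 0xa0))
(.lf (nat_lit 0x22)))
(.lf (nat_lit 0xa))))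
(.nd (.nd (.nd (.lf (nat_lit 0x4d))
(.lf (nat_lit 0x79)))
(.nd (.lf (nat_lit 0xcc))
(.lf (nat_lit 0xe))))
(.nd (.nd (.lf (nat_lit 0))
(.lf (nat_lit 0x28)))
(.lf (nat_lit 0xc)))))))
(.nd (.nd (.nd (.nd (.nd (.nd (.lf (nat_lit 4))
(.lf (nat_lit 0xe9)))
(.nd (.lf (nat_lit 0x28))
(.lf (nat_lit 0x39))))
(.nd (.nd (.lf (nat_lit 0x70))
(.lf (nat_lit 0)))
(.nd (.lf (nat_lit 0xf0))
(.lf (nat_lit 0xee)))))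
(.nd (.nd (.nd (.lf (nat_lit 0x16))
(.lf (nat_lit 0xe6)))
(.nd (.lf (nat_lit 0xe0))
(.lf (nat_lit 0xa3))))
(.nd (.nd (.lf (nat_lit 0xa8))
(.lf (nat_lit 0xfa)))
(.lf (nat_lit 0x28)))))
(.nd (.nd (.nd (.nd (.lf (nat_lit 0x20))
(.lf (nat_lit 0x10)))
(.nd (.lf (nat_lit 0x23))
(.lf (nat_lit 0xa))))
(.nd (.nd (.lf (nat_lit 0x9d))
(.lf (nat_lit 0xec)))
(.lf (nat_lit 0x6f))))
(.nd (.nd (.nd (.lf (nat_lit 0x4c))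
(.lf (nat_lit 0x57)))
(.nd (.lf (nat_lit 0xf))
(.lf (nat_lit 0))))
(.nd (.nd (.lf (nat_lit 0x55))
(.lf (nat_lit 0x1b)))
(.lf (nat_lit 0x62))))))
(.nd (.nd (.nd (.nd (.nd (.lf (nat_lit 1))
(.lf (nat_lit 0x7d)))
(.nd (.lf (nat_lit 0x16))
(.lf (nat_lit 0x95))))
(.nd (.nd (.lf (nat_lit 0x8e))
(.lf (nat_lit 0x95)))
(.nd (.lf (nat_lit 0x5b))
(.lf (nat_lit 0)))))
(.nd (.nd (.nd (.lf (nat_lit 0x3a))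
(.lf (nat_lit 0x7a)))
(.nd (.lf (nat_lit 0x79))
(.lf (nat_lit 0xc5))))
(.nd (.nd (.lf (nat_lit 0x74))
(.lf (nat_lit 0x71)))
(.lf (nat_lit 0x4f)))))
(.nd (.nd (.nd (.nd (.lf (nat_lit 0x2a))
(.lf (nat_lit 0xdd)))
(.nd (.lf (nat_lit 0xb))
(.lf (nat_lit 0xe3))))
(.nd (.nd (.lf (nat_lit 0x99))
(.lf (nat_lit 0xe6)))
(.lf (nat_lit 0x7c))))
(.nd (.nd (.nd (.lf (nat_lit 0x54))
(.lf (nat_lit 0x79)))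
(.nd (.lf (nat_lit 0x1e))
(.lf (nat_lit 0xbd))))
(.nd (.nd (.lf (nat_lit 0xde))
(.lf (nat_lit 0xee)))
(.lf (nat_lit 0xbd))))))))))
(.nd (.nd (.nd (.nd (.nd (.nd (.nd (.nd (.nd (.lf (nat_lit 2))
(.lf (nat_lit 0xe9)))
(.nd (.lf (nat_lit 0xdc))
(.lf (nat_lit 0xe8))))
(.nd (.nd (.lf (nat_lit 0x5c))
(.lf (nat_lit 0x102)))
(.nd (.lf (nat_lit 0))
(.lf (nat_lit 0xa)))))
(.nd (.nd (.nd (.lf (nat_lit 0x2a))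
(.lf (nat_lit 0xa)))
(.nd (.lf (nat_lit 0x5b))
(.lf (nat_lit 0x56))))
(.nd (.nd (.lf (nat_lit 0x7c))
(.lf (nat_lit 0x36)))
(.lf (nat_lit 0x7c)))))
(.nd (.nd (.nd (.nd (.lf (nat_lit 1))
(.lf (nat_lit 0xb)))
(.nd (.lf (nat_lit 0xb))
(.lf (nat_lit 0))))
(.nd (.nd (.lf (nat_lit 0x1f))
(.lf (nat_lit 0x33)))
(.nd (.lf (nat_lit 0x37))
(.lf (nat_lit 0xbc)))))
(.nd (.nd (.nd (.lf (nat_lit 0x3b))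
(.lf (nat_lit 0x4e)))
(.nd (.lf (nat_lit 0x79))
(.lf (nat_lit 0x5c))))
(.nd (.nd (.lf (nat_lit 0x9b))
(.lf (nat_lit 0x80)))
(.lf (nat_lit 0xac))))))
(.nd (.nd (.nd (.nd (.nd (.lf (nat_lit 7))
(.lf (nat_lit 0xe9)))
(.nd (.lf (nat_lit 0x30))
(.lf (nat_lit 0x2f))))
(.nd (.nd (.lf (nat_lit 0x70))
(.lf (nat_lit 0x2f)))
(.nd (.lf (nat_lit 0xd2))
(.lf (nat_lit 0)))))
(.nd (.nd (.nd (.lf (nat_lit 0x30))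
(.lf (nat_lit 0)))
(.nd (.lf (nat_lit 0xe1))
(.lf (nat_lit 0xa))))
(.nd (.nd (.lf (nat_lit 0xa9))
(.lf (nat_lit 0x16)))
(.lf (nat_lit 0x28)))))
(.nd (.nd (.nd (.nd (.lf (nat_lit 0x1a))
(.lf (nat_lit 0x3c)))
(.nd (.lf (nat_lit 9))
(.lf (nat_lit 0xa))))
(.nd (.nd (.lf (nat_lit 0x2e))
(.lf (nat_lit 0xe4)))
(.lf (nat_lit 0))))
(.nd (.nd (.nd (.lf (nat_lit 0x4a))
(.lf (nat_lit 0)))
(.nd (.lf (nat_lit 0x10))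
(.lf (nat_lit 0x28))))
(.nd (.nd (.lf (nat_lit 0xc6))
(.lf (nat_lit 0xa)))
(.lf (nat_lit 0x56)))))))
(.nd (.nd (.nd (.nd (.nd (.nd (.lf (nat_lit 2))
(.lf (nat_lit 0xfd)))
(.nd (.lf (nat_lit 0xb2))
(.lf (nat_lit 0xa4))))
(.nd (.nd (.lf (nat_lit 0x56))
(.lf (nat_lit 0xf6)))
(.nd (.lf (nat_lit 0xf0))
(.lf (nat_lit 0x1e)))))
(.nd (.nd (.nd (.lf (nat_lit 0x2c))
(.lf (nat_lit 0x100)))
(.nd (.lf (nat_lit 0))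
(.lf (nat_lit 0x33))))
(.nd (.nd (.lf (nat_lit 0xaa))
(.lf (nat_lit 0xfa)))
(.lf (nat_lit 0xc)))))
(.nd (.nd (.nd (.nd (.lf (nat_lit 0))
(.lf (nat_lit 0x59)))
(.nd (.lf (nat_lit 0x97))
(.lf (nat_lit 0xa))))
(.nd (.nd (.lf (nat_lit 0xb))
(.lf (nat_lit 0xe5)))
(.nd (.lf (nat_lit 0))
(.lf (nat_lit 0)))))
(.nd (.nd (.nd (.lf (nat_lit 0x40))
(.lf (nat_lit 0x2f)))
(.nd (.lf (nat_lit 0xb))
(.lf (nat_lit 0))))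
(.nd (.nd (.lf (nat_lit 0x1d))
(.lf (nat_lit 0x7d)))
(.lf (nat_lit 0x74))))))
(.nd (.nd (.nd (.nd (.nd (.lf (nat_lit 0x11))
(.lf (nat_lit 0xfa)))
(.nd (.lf (nat_lit 9))
(.lf (nat_lit 0xbd))))
(.nd (.nd (.lf (nat_lit 0x8f))
(.lf (nat_lit 0x79)))
(.nd (.lf (nat_lit 0xbd))
(.lf (nat_lit 0xbc)))))
(.nd (.nd (.nd (.lf (nat_lit 0x1d))
(.lf (nat_lit 0)))
(.nd (.lf (nat_lit 0))
(.lf (nat_lit 0))))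
(.nd (.nd (.lf (nat_lit 0xad))
(.lf (nat_lit 0x50)))
(.lf (nat_lit 0xc2)))))
(.nd (.nd (.nd (.nd (.lf (nat_lit 0x22))
(.lf (nat_lit 0xa)))
(.nd (.lf (nat_lit 0xb))
(.lf (nat_lit 0x30))))
(.nd (.nd (.lf (nat_lit 0xa0))
(.lf (nat_lit 0xa)))
(.lf (nat_lit 0x80))))
(.nd (.nd (.nd (.lf (nat_lit 0x55))
(.lf (nat_lit 0xea)))
(.nd (.lf (nat_lit 0xe1))
(.lf (nat_lit 0xc))))
(.nd (.nd (.lf (nat_lit 0xc9))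
(.lf (nat_lit 0xe8)))
(.lf (nat_lit 0x6d))))))))
(.nd (.nd (.nd (.nd (.nd (.nd (.nd (.lf (nat_lit 2))
(.lf (nat_lit 0x95)))
(.nd (.lf (nat_lit 0x96))
(.lf (nat_lit 0xa))))
(.nd (.nd (.lf (nat_lit 0x62))
(.lf (nat_lit 0x102)))
(.nd (.lf (nat_lit 0xa))
(.lf (nat_lit 0x2d)))))
(.nd (.nd (.nd (.lf (nat_lit 0x2b))
(.lf (nat_lit 0x1d)))
(.nd (.lf (nat_lit 0x76))
(.lf (nat_lit 0x56))))
(.nd (.nd (.lf (nat_lit 0x7a))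
(.lf (nat_lit 0x1b)))
(.lf (nat_lit 0x16)))))
(.nd (.nd (.nd (.nd (.lf (nat_lit 1))
(.lf (nat_lit 1)))
(.nd (.lf (nat_lit 0x97))
(.lf (nat_lit 0xa))))
(.nd (.nd (.lf (nat_lit 0x1f))
(.lf (nat_lit 0x31)))
(.nd (.lf (nat_lit 0xf))
(.lf (nat_lit 0)))))
(.nd (.nd (.nd (.lf (nat_lit 0x42))
(.lf (nat_lit 0x19)))
(.nd (.lf (nat_lit 0xea))
(.lf (nat_lit 0xc6))))
(.nd (.nd (.lf (nat_lit 0xab))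
(.lf (nat_lit 0x80)))
(.lf (nat_lit 0x10))))))
(.nd (.nd (.nd (.nd (.nd (.lf (nat_lit 0x12))
(.lf (nat_lit 0xfa)))
(.nd (.lf (nat_lit 0x31))
(.lf (nat_lit 0xa))))
(.nd (.nd (.lf (nat_lit 0x70))
(.lf (nat_lit 0x79)))
(.nd (.lf (nat_lit 0x95))
(.lf (nat_lit 0xbd)))))
(.nd (.nd (.nd (.lf (nat_lit 0x28))
(.lf (nat_lit 0x54)))
(.nd (.lf (nat_lit 0x53))
(.lf (nat_lit 0x5e))))
(.nd (.nd (.lf (nat_lit 0xae))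
(.lf (nat_lit 0xc)))
(.lf (nat_lit 0x30)))))
(.nd (.nd (.nd (.nd (.lf (nat_lit 0x26))
(.lf (nat_lit 0x1e)))
(.nd (.lf (nat_lit 0xc))
(.lf (nat_lit 0x28))))
(.nd (.nd (.lf (nat_lit 0x8b))
(.lf (nat_lit 0)))
(.lf (nat_lit 0x38))))
(.nd (.nd (.nd (.lf (nat_lit 0x48))
(.lf (nat_lit 0)))
(.nd (.lf (nat_lit 0x19))
(.lf (nat_lit 0xbe))))
(.nd (.nd (.lf (nat_lit 0xd6))
(.lf (nat_lit 0xa)))
(.lf (nat_lit 0x1f)))))))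
(.nd (.nd (.nd (.nd (.nd (.nd (.lf (nat_lit 7))
(.lf (nat_lit 0xe8)))
(.nd (.lf (nat_lit 0x77))
(.lf (nat_lit 0x28))))
(.nd (.nd (.lf (nat_lit 0x88))
(.lf (nat_lit 0x19)))
(.nd (.lf (nat_lit 0xf0))
(.lf (nat_lit 0x65)))))
(.nd (.nd (.nd (.lf (nat_lit 0xc))
(.lf (nat_lit 0x1b)))
(.nd (.lf (nat_lit 0x19))
(.lf (nat_lit 0x5e))))
(.nd (.nd (.lf (nat_lit 0x59))
(.lf (nat_lit 0x90)))
(.lf (nat_lit 0x2f)))))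
(.nd (.nd (.nd (.nd (.lf (nat_lit 0x21))
(.lf (nat_lit 0x5a)))
(.nd (.lf (nat_lit 0xb))
(.lf (nat_lit 0xa))))
(.nd (.nd (.lf (nat_lit 0x2f))
(.lf (nat_lit 0xd8)))
(.lf (nat_lit 0xd7))))
(.nd (.nd (.nd (.lf (nat_lit 0x44))
(.lf (nat_lit 0x2f)))
(.nd (.lf (nat_lit 0xc))
(.lf (nat_lit 0))))
(.nd (.nd (.lf (nat_lit 0x1d))
(.lf (nat_lit 0x5a)))
(.lf (nat_lit 0x56))))))
(.nd (.nd (.nd (.nd (.nd (.lf (nat_lit 0x17))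
(.lf (nat_lit 0x32)))
(.nd (.lf (nat_lit 0x10))
(.lf (nat_lit 0xe9))))
(.nd (.nd (.lf (nat_lit 0x8d))
(.lf (nat_lit 0xbb)))
(.nd (.lf (nat_lit 0))
(.lf (nat_lit 0xbc)))))
(.nd (.nd (.nd (.lf (nat_lit 0x3a))
(.lf (nat_lit 0x34)))
(.nd (.lf (nat_lit 0x78))
(.lf (nat_lit 0))))
(.nd (.nd (.lf (nat_lit 0xac))
(.lf (nat_lit 0x5a)))
(.lf (nat_lit 0xd5)))))
(.nd (.nd (.nd (.nd (.lf (nat_lit 0x2a))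
(.lf (nat_lit 0x9a)))
(.nd (.lf (nat_lit 0x71))
(.lf (nat_lit 0xe))))
(.nd (.nd (.lf (nat_lit 0xa1))
(.lf (nat_lit 0)))
(.lf (nat_lit 0x7d))))
(.nd (.nd (.nd (.lf (nat_lit 0x66))
(.lf (nat_lit 0x95)))
(.nd (.lf (nat_lit 0xdf))
(.lf (nat_lit 0xa))))
(.nd (.nd (.lf (nat_lit 0x7f))
(.lf (nat_lit 0xbd)))
(.lf (nat_lit 9)))))))))
(.nd (.nd (.nd (.nd (.nd (.nd (.nd (.nd (.lf (nat_lit 3))
(.lf (nat_lit 0x95)))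
(.nd (.lf (nat_lit 0x7f))
(.lf (nat_lit 0x101))))
(.nd (.nd (.lf (nat_lit 0x5f))
(.lf (nat_lit 0x3c)))
(.nd (.lf (nat_lit 0xe1))
(.lf (nat_lit 0xee)))))
(.nd (.nd (.nd (.lf (nat_lit 0x29))
(.lf (nat_lit 0xff)))
(.nd (.lf (nat_lit 0x52))
(.lf (nat_lit 0xe3))))
(.nd (.nd (.lf (nat_lit 0x7d))
(.lf (nat_lit 0x22)))
(.lf (nat_lit 0x6d)))))
(.nd (.nd (.nd (.nd (.lf (nat_lit 1))
(.lf (nat_lit 0)))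
(.nd (.lf (nat_lit 0xd8))
(.lf (nat_lit 0xa))))
(.nd (.nd (.lf (nat_lit 0x23))
(.lf (nat_lit 0x28)))
(.nd (.lf (nat_lit 0x4f))
(.lf (nat_lit 0x5c)))))
(.nd (.nd (.nd (.lf (nat_lit 0x3a))
(.lf (nat_lit 0x22)))
(.nd (.lf (nat_lit 0xe))
(.lf (nat_lit 0x54))))
(.nd (.nd (.lf (nat_lit 0x4f))
(.lf (nat_lit 0)))
(.lf (nat_lit 0x9b))))))
(.nd (.nd (.nd (.nd (.nd (.lf (nat_lit 8))
(.lf (nat_lit 0xec)))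
(.nd (.lf (nat_lit 0x1d))
(.lf (nat_lit 0xe))))
(.nd (.nd (.lf (nat_lit 0x88))
(.lf (nat_lit 0xa)))
(.nd (.lf (nat_lit 0xb9))
(.lf (nat_lit 0xee)))))
(.nd (.nd (.nd (.lf (nat_lit 0x33))
(.lf (nat_lit 0xc7)))
(.nd (.lf (nat_lit 0xa))
(.lf (nat_lit 0x92))))
(.nd (.nd (.lf (nat_lit 0xb6))
(.lf (nat_lit 0xb)))
(.lf (nat_lit 0x28)))))
(.nd (.nd (.nd (.nd (.lf (nat_lit 0x24))
(.lf (nat_lit 0xa)))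
(.nd (.lf (nat_lit 0x6b))
(.lf (nat_lit 0xb9))))
(.nd (.nd (.lf (nat_lit 0x3c))
(.lf (nat_lit 0xa)))
(.lf (nat_lit 0x63))))
(.nd (.nd (.nd (.lf (nat_lit 0x4d))
(.lf (nat_lit 0x2c)))
(.nd (.lf (nat_lit 0xdf))
(.lf (nat_lit 0x28))))
(.nd (.nd (.lf (nat_lit 0))
(.lf (nat_lit 0xe)))
(.lf (nat_lit 0x5f)))))))
(.nd (.nd (.nd (.nd (.nd (.nd (.lf (nat_lit 7))
(.lf (nat_lit 0xe9)))
(.nd (.lf (nat_lit 0xa5))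
(.lf (nat_lit 0x1a))))
(.nd (.nd (.lf (nat_lit 0x62))
(.lf (nat_lit 0xa3)))
(.nd (.lf (nat_lit 0xe3))
(.lf (nat_lit 0x77)))))
(.nd (.nd (.nd (.lf (nat_lit 0x35))
(.lf (nat_lit 0xa)))
(.nd (.lf (nat_lit 0xe2))
(.lf (nat_lit 0x72))))
(.nd (.nd (.lf (nat_lit 0xa9))
(.lf (nat_lit 0xf8)))
(.lf (nat_lit 0x16)))))
(.nd (.nd (.nd (.nd (.lf (nat_lit 0x20))
(.lf (nat_lit 0x72)))
(.nd (.lf (nat_lit 0xc1))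
(.lf (nat_lit 0x5e))))
(.nd (.nd (.lf (nat_lit 0x4e))
(.lf (nat_lit 0xec)))
(.nd (.lf (nat_lit 0))
(.lf (nat_lit 0xed)))))
(.nd (.nd (.nd (.lf (nat_lit 0x43))
(.lf (nat_lit 0xa)))
(.nd (.lf (nat_lit 0xc))
(.lf (nat_lit 0xbc))))
(.nd (.nd (.lf (nat_lit 0xcf))
(.lf (nat_lit 0x7c)))
(.lf (nat_lit 0x56))))))
(.nd (.nd (.nd (.nd (.nd (.lf (nat_lit 0x14))
(.lf (nat_lit 0xf8)))
(.nd (.lf (nat_lit 0x23))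
(.lf (nat_lit 0xe8))))
(.nd (.nd (.lf (nat_lit 0x8d))
(.lf (nat_lit 0x10)))
(.nd (.lf (nat_lit 0xf2))
(.lf (nat_lit 0)))))
(.nd (.nd (.nd (.lf (nat_lit 0x3a))
(.lf (nat_lit 0x97)))
(.nd (.lf (nat_lit 0x65))
(.lf (nat_lit 0xb9))))
(.nd (.nd (.lf (nat_lit 0xa5))
(.lf (nat_lit 0x10)))
(.lf (nat_lit 0x6f)))))
(.nd (.nd (.nd (.nd (.lf (nat_lit 0x22))
(.lf (nat_lit 0xb8)))
(.nd (.lf (nat_lit 0xdd))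
(.lf (nat_lit 0x31))))
(.nd (.nd (.lf (nat_lit 0x75))
(.lf (nat_lit 0x1b)))
(.lf (nat_lit 0x80))))
(.nd (.nd (.nd (.lf (nat_lit 0))
(.lf (nat_lit 0xa)))
(.nd (.lf (nat_lit 0xa))
(.lf (nat_lit 0x28))))
(.nd (.nd (.lf (nat_lit 0x7e))
(.lf (nat_lit 0xee)))
(.lf (nat_lit 0xc))))))))
(.nd (.nd (.nd (.nd (.nd (.nd (.nd (.lf (nat_lit 3))
(.lf (nat_lit 0xe9)))
(.nd (.lf (nat_lit 0x6a))
(.lf (nat_lit 0))))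
(.nd (.nd (.lf (nat_lit 0x56))
(.lf (nat_lit 0xa)))
(.nd (.lf (nat_lit 0xf0))
(.lf (nat_lit 0)))))
(.nd (.nd (.nd (.lf (nat_lit 0xb))
(.lf (nat_lit 0xa)))
(.nd (.lf (nat_lit 0x98))
(.lf (nat_lit 0xd4))))
(.nd (.nd (.lf (nat_lit 0x80))
(.lf (nat_lit 0x90)))
(.lf (nat_lit 9)))))
(.nd (.nd (.nd (.nd (.lf (nat_lit 9))
(.lf (nat_lit 0xf5)))
(.nd (.lf (nat_lit 0xe5))
(.lf (nat_lit 0xa))))
(.nd (.nd (.lf (nat_lit 9))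
(.lf (nat_lit 0x1d)))
(.nd (.lf (nat_lit 0x5b))
(.lf (nat_lit 0x1d)))))
(.nd (.nd (.nd (.lf (nat_lit 0x41))
(.lf (nat_lit 0x28)))
(.nd (.lf (nat_lit 0x73))
(.lf (nat_lit 0))))
(.nd (.nd (.lf (nat_lit 0x55))
(.lf (nat_lit 0xa)))
(.lf (nat_lit 0x78))))))
(.nd (.nd (.nd (.nd (.nd (.lf (nat_lit 0x14))
(.lf (nat_lit 0xf9)))
(.nd (.lf (nat_lit 0x31))
(.lf (nat_lit 0xee))))
(.nd (.nd (.lf (nat_lit 0x8e))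
(.lf (nat_lit 0)))
(.nd (.lf (nat_lit 0x68))
(.lf (nat_lit 0xe9)))))
(.nd (.nd (.nd (.lf (nat_lit 0x31))
(.lf (nat_lit 0xca)))
(.nd (.lf (nat_lit 0x82))
(.lf (nat_lit 0x79))))
(.nd (.nd (.lf (nat_lit 0xb0))
(.lf (nat_lit 0x10)))
(.lf (nat_lit 0xc2)))))
(.nd (.nd (.nd (.nd (.lf (nat_lit 0xa))
(.lf (nat_lit 0x65)))
(.nd (.lf (nat_lit 0x16))
(.lf (nat_lit 0x28))))
(.nd (.nd (.lf (nat_lit 0x73))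
(.lf (nat_lit 0xed)))
(.lf (nat_lit 0x3c))))
(.nd (.nd (.nd (.lf (nat_lit 0x4b))
(.lf (nat_lit 0xa)))
(.nd (.lf (nat_lit 0))
(.lf (nat_lit 0x28))))
(.nd (.nd (.lf (nat_lit 0))
(.lf (nat_lit 0xa)))
(.lf (nat_lit 0x16)))))))
(.nd (.nd (.nd (.nd (.nd (.nd (.lf (nat_lit 5))
(.lf (nat_lit 0xe8)))
(.nd (.lf (nat_lit 0x33))
(.lf (nat_lit 0xa))))
(.nd (.nd (.lf (nat_lit 0x84))
(.lf (nat_lit 0x28)))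
(.nd (.lf (nat_lit 0xd4))
(.lf (nat_lit 0xe8)))))
(.nd (.nd (.nd (.lf (nat_lit 1))
(.lf (nat_lit 0xc6)))
(.nd (.lf (nat_lit 0xe))
(.lf (nat_lit 0x77))))
(.nd (.nd (.lf (nat_lit 0x59))
(.lf (nat_lit 0x90)))
(.lf (nat_lit 0x30)))))
(.nd (.nd (.nd (.nd (.lf (nat_lit 0x20))
(.lf (nat_lit 0x63)))
(.nd (.lf (nat_lit 0xc))
(.lf (nat_lit 0))))
(.nd (.nd (.lf (nat_lit 0x63))
(.lf (nat_lit 0xd8)))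
(.lf (nat_lit 0x4e))))
(.nd (.nd (.nd (.lf (nat_lit 0x49))
(.lf (nat_lit 0xf)))
(.nd (.lf (nat_lit 0x6b))
(.lf (nat_lit 0xd4))))
(.nd (.nd (.lf (nat_lit 0xd1))
(.lf (nat_lit 0x30)))
(.lf (nat_lit 0x36))))))
(.nd (.nd (.nd (.nd (.nd (.lf (nat_lit 0x1c))
(.lf (nat_lit 0xd)))
(.nd (.lf (nat_lit 0xb))
(.lf (nat_lit 0x95))))
(.nd (.nd (.lf (nat_lit 0x8f))
(.lf (nat_lit 0x95)))
(.nd (.lf (nat_lit 0x10))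
(.lf (nat_lit 0)))))
(.nd (.nd (.nd (.lf (nat_lit 0x3b))
(.lf (nat_lit 0)))
(.nd (.lf (nat_lit 0x68))
(.lf (nat_lit 0))))
(.nd (.nd (.lf (nat_lit 0xba))
(.lf (nat_lit 0)))
(.lf (nat_lit 0xa)))))
(.nd (.nd (.nd (.nd (.lf (nat_lit 0x2a))
(.lf (nat_lit 0x98)))
(.nd (.lf (nat_lit 0x6e))
(.lf (nat_lit 0x56))))
(.nd (.nd (.lf (nat_lit 0xa6))
(.lf (nat_lit 0x22)))
(.lf (nat_lit 0x7a))))
(.nd (.nd (.nd (.lf (nat_lit 0))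
(.lf (nat_lit 0x59)))
(.nd (.lf (nat_lit 0x19))
(.lf (nat_lit 0xe8))))
(.nd (.nd (.lf (nat_lit 0xdb))
(.lf (nat_lit 0xa)))
(.lf (nat_lit 0xee)))))))))))
(.nd (.nd (.nd (.nd (.nd (.nd (.nd (.nd (.nd (.nd (.lf (nat_lit 2))
(.lf (nat_lit 0x95)))
(.nd (.lf (nat_lit 0x7e))
(.lf (nat_lit 0xe8))))
(.nd (.nd (.lf (nat_lit 0x60))
(.lf (nat_lit 0xf6)))
(.nd (.lf (nat_lit 0xa))
(.lf (nat_lit 0xa)))))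
(.nd (.nd (.nd (.lf (nat_lit 0x2a))
(.lf (nat_lit 0x9a)))
(.nd (.lf (nat_lit 0x98))
(.lf (nat_lit 0x56))))
(.nd (.nd (.lf (nat_lit 0x7a))
(.lf (nat_lit 0x19)))
(.lf (nat_lit 0x80)))))
(.nd (.nd (.nd (.nd (.lf (nat_lit 1))
(.lf (nat_lit 1)))
(.nd (.lf (nat_lit 0xb))
(.lf (nat_lit 0x28))))
(.nd (.nd (.lf (nat_lit 0xc))
(.lf (nat_lit 0x31)))
(.nd (.lf (nat_lit 0))
(.lf (nat_lit 0xbc)))))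
(.nd (.nd (.nd (.lf (nat_lit 0x3a))
(.lf (nat_lit 0xa)))
(.nd (.lf (nat_lit 0xb9))
(.lf (nat_lit 0xe6))))
(.nd (.nd (.lf (nat_lit 0x9b))
(.lf (nat_lit 0x71)))
(.lf (nat_lit 0x4f))))))
(.nd (.nd (.nd (.nd (.nd (.lf (nat_lit 7))
(.lf (nat_lit 0xe9)))
(.nd (.lf (nat_lit 0x31))
(.lf (nat_lit 0xa))))
(.nd (.nd (.lf (nat_lit 0x89))
(.lf (nat_lit 0x19)))
(.nd (.lf (nat_lit 0xbd))
(.lf (nat_lit 0xbd)))))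
(.nd (.nd (.nd (.lf (nat_lit 0x30))
(.lf (nat_lit 0)))
(.nd (.lf (nat_lit 0xe1))
(.lf (nat_lit 0x34))))
(.nd (.nd (.lf (nat_lit 0xa8))
(.lf (nat_lit 0xf2)))
(.lf (nat_lit 0x31)))))
(.nd (.nd (.nd (.nd (.lf (nat_lit 0))
(.lf (nat_lit 0)))
(.nd (.lf (nat_lit 0xc))
(.lf (nat_lit 0xa))))
(.nd (.nd (.lf (nat_lit 0x6e))
(.lf (nat_lit 0xe4)))
(.lf (nat_lit 0x78))))
(.nd (.nd (.nd (.lf (nat_lit 0x48))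
(.lf (nat_lit 0)))
(.nd (.lf (nat_lit 9))
(.lf (nat_lit 1))))
(.nd (.nd (.lf (nat_lit 0xcd))
(.lf (nat_lit 0x19)))
(.lf (nat_lit 0x56)))))))
(.nd (.nd (.nd (.nd (.nd (.nd (.lf (nat_lit 2))
(.lf (nat_lit 0xfc)))
(.nd (.lf (nat_lit 0xad))
(.lf (nat_lit 0))))
(.nd (.nd (.lf (nat_lit 0x5f))
(.lf (nat_lit 0x102)))
(.nd (.lf (nat_lit 0xf0))
(.lf (nat_lit 0x5e)))))
(.nd (.nd (.nd (.lf (nat_lit 0xb))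
(.lf (nat_lit 0x19)))
(.nd (.lf (nat_lit 0xd9))
(.lf (nat_lit 0x1d))))
(.nd (.nd (.lf (nat_lit 0xa7))
(.lf (nat_lit 0x90)))
(.lf (nat_lit 0x6d)))))
(.nd (.nd (.nd (.nd (.lf (nat_lit 0x21))
(.lf (nat_lit 0x5a)))
(.nd (.lf (nat_lit 0x97))
(.lf (nat_lit 0xa))))
(.nd (.nd (.lf (nat_lit 0xb))
(.lf (nat_lit 0xe5)))
(.nd (.lf (nat_lit 0x11))
(.lf (nat_lit 0)))))
(.nd (.nd (.nd (.lf (nat_lit 0x47))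
(.lf (nat_lit 0x19)))
(.nd (.lf (nat_lit 0))
(.lf (nat_lit 0))))
(.nd (.nd (.lf (nat_lit 0x1d))
(.lf (nat_lit 0x7d)))
(.lf (nat_lit 0x3c))))))
(.nd (.nd (.nd (.nd (.nd (.lf (nat_lit 0x13))
(.lf (nat_lit 0xfa)))
(.nd (.lf (nat_lit 9))
(.lf (nat_lit 0xee))))
(.nd (.nd (.lf (nat_lit 0x8d))
(.lf (nat_lit 0x79)))
(.nd (.lf (nat_lit 0xd2))
(.lf (nat_lit 0xbc)))))
(.nd (.nd (.nd (.lf (nat_lit 0x1d))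
(.lf (nat_lit 0x4e)))
(.nd (.lf (nat_lit 0))
(.lf (nat_lit 0x5e))))
(.nd (.nd (.lf (nat_lit 0x96))
(.lf (nat_lit 9)))
(.lf (nat_lit 0x57)))))
(.nd (.nd (.nd (.nd (.lf (nat_lit 0x19))
(.lf (nat_lit 0x38)))
(.nd (.lf (nat_lit 0xb))
(.lf (nat_lit 0x22))))
(.nd (.nd (.lf (nat_lit 0xa0))
(.lf (nat_lit 0xa)))
(.lf (nat_lit 0xf4))))
(.nd (.nd (.nd (.lf (nat_lit 0x67))
(.lf (nat_lit 0x92)))
(.nd (.lf (nat_lit 0xe1))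
(.lf (nat_lit 0x28))))
(.nd (.nd (.lf (nat_lit 0xc5))
(.lf (nat_lit 0xe8)))
(.lf (nat_lit 0x16))))))))
(.nd (.nd (.nd (.nd (.nd (.nd (.nd (.lf (nat_lit 2))
(.lf (nat_lit 0xee)))
(.nd (.lf (nat_lit 0x9c))
(.lf (nat_lit 0x1a))))
(.nd (.nd (.lf (nat_lit 0x56))
(.lf (nat_lit 0x102)))
(.nd (.lf (nat_lit 0xe0))
(.lf (nat_lit 0)))))
(.nd (.nd (.nd (.lf (nat_lit 0x2a))
(.lf (nat_lit 0xed)))
(.nd (.lf (nat_lit 0x32))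
(.lf (nat_lit 0x56))))
(.nd (.nd (.lf (nat_lit 0xa6))
(.lf (nat_lit 0)))
(.lf (nat_lit 9)))))
(.nd (.nd (.nd (.nd (.lf (nat_lit 1))
(.lf (nat_lit 0x7c)))
(.nd (.lf (nat_lit 0x97))
(.lf (nat_lit 0xe))))
(.nd (.nd (.lf (nat_lit 1))
(.lf (nat_lit 0x33)))
(.nd (.lf (nat_lit 0x57))
(.lf (nat_lit 0)))))
(.nd (.nd (.nd (.lf (nat_lit 0x3f))
(.lf (nat_lit 0x19)))
(.nd (.lf (nat_lit 0x90))
(.lf (nat_lit 0x54))))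
(.nd (.nd (.lf (nat_lit 0xac))
(.lf (nat_lit 0x7c)))
(.lf (nat_lit 0))))))
(.nd (.nd (.nd (.nd (.nd (.lf (nat_lit 0xf))
(.lf (nat_lit 0xfa)))
(.nd (.lf (nat_lit 0x1d))
(.lf (nat_lit 0x1e))))
(.nd (.nd (.lf (nat_lit 0x7b))
(.lf (nat_lit 0xbb)))
(.nd (.lf (nat_lit 0x59))
(.lf (nat_lit 0)))))
(.nd (.nd (.nd (.lf (nat_lit 0x28))
(.lf (nat_lit 0x54)))
(.nd (.lf (nat_lit 0x2e))
(.lf (nat_lit 0))))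
(.nd (.nd (.lf (nat_lit 0xb2))
(.lf (nat_lit 0xc)))
(.lf (nat_lit 0x30)))))
(.nd (.nd (.nd (.nd (.lf (nat_lit 0x24))
(.lf (nat_lit 0x69)))
(.nd (.lf (nat_lit 0xb))
(.lf (nat_lit 0x1d))))
(.nd (.nd (.lf (nat_lit 0x8b))
(.lf (nat_lit 0)))
(.lf (nat_lit 0xa))))
(.nd (.nd (.nd (.lf (nat_lit 0x49))
(.lf (nat_lit 0x10)))
(.nd (.lf (nat_lit 0x19))
(.lf (nat_lit 0xbe))))
(.nd (.nd (.lf (nat_lit 0xbe))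
(.lf (nat_lit 0xa)))
(.lf (nat_lit 0xc)))))))
(.nd (.nd (.nd (.nd (.nd (.nd (.lf (nat_lit 7))
(.lf (nat_lit 0xe8)))
(.nd (.lf (nat_lit 0xae))
(.lf (nat_lit 0xa))))
(.nd (.nd (.lf (nat_lit 0x87))
(.lf (nat_lit 0x19)))
(.nd (.lf (nat_lit 0xf0))
(.lf (nat_lit 0x19)))))
(.nd (.nd (.nd (.lf (nat_lit 0x16))
(.lf (nat_lit 0x1d)))
(.nd (.lf (nat_lit 0x19))
(.lf (nat_lit 0x33))))
(.nd (.nd (.lf (nat_lit 0x72))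
(.lf (nat_lit 0xfa)))
(.lf (nat_lit 0x6c)))))
(.nd (.nd (.nd (.nd (.lf (nat_lit 0x1a))
(.lf (nat_lit 0x72)))
(.nd (.lf (nat_lit 9))
(.lf (nat_lit 0))))
(.nd (.nd (.lf (nat_lit 0x78))
(.lf (nat_lit 0xd8)))
(.lf (nat_lit 0x2c))))
(.nd (.nd (.nd (.lf (nat_lit 0x45))
(.lf (nat_lit 0)))
(.nd (.lf (nat_lit 0xb))
(.lf (nat_lit 0))))
(.nd (.nd (.lf (nat_lit 0x1d))
(.lf (nat_lit 0x80)))
(.lf (nat_lit 0x56))))))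
(.nd (.nd (.nd (.nd (.nd (.lf (nat_lit 0x18))
(.lf (nat_lit 0xb)))
(.nd (.lf (nat_lit 0xb))
(.lf (nat_lit 0xbd))))
(.nd (.nd (.lf (nat_lit 0x8f))
(.lf (nat_lit 0x79)))
(.nd (.lf (nat_lit 0x37))
(.lf (nat_lit 0xbc)))))
(.nd (.nd (.nd (.lf (nat_lit 0x3b))
(.lf (nat_lit 0xf6)))
(.nd (.lf (nat_lit 0x4e))
(.lf (nat_lit 0xc5))))
(.nd (.nd (.lf (nat_lit 0xab))
(.lf (nat_lit 0x2c)))
(.lf (nat_lit 0xc2)))))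
(.nd (.nd (.nd (.nd (.lf (nat_lit 0x2b))
(.lf (nat_lit 0xa)))
(.nd (.lf (nat_lit 0xdd))
(.lf (nat_lit 0x31))))
(.nd (.nd (.lf (nat_lit 0xa1))
(.lf (nat_lit 0xe6)))
(.lf (nat_lit 0x7d))))
(.nd (.nd (.nd (.lf (nat_lit 0x5d))
(.lf (nat_lit 0xb9)))
(.nd (.lf (nat_lit 0xe))
(.lf (nat_lit 0xa))))
(.nd (.nd (.lf (nat_lit 0xdc))
(.lf (nat_lit 0xbd)))
(.lf (nat_lit 0xc)))))))))
(.nd (.nd (.nd (.nd (.nd (.nd (.nd (.nd (.lf (nat_lit 3))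
(.lf (nat_lit 0x95)))
(.nd (.lf (nat_lit 0x7f))
(.lf (nat_lit 0xa4))))
(.nd (.nd (.lf (nat_lit 0x5f))
(.lf (nat_lit 0xa)))
(.nd (.lf (nat_lit 0xe1))
(.lf (nat_lit 0xee)))))
(.nd (.nd (.nd (.lf (nat_lit 0x2a))
(.lf (nat_lit 0x98)))
(.nd (.lf (nat_lit 0x4f))
(.lf (nat_lit 0xe3))))
(.nd (.nd (.lf (nat_lit 0x7d))
(.lf (nat_lit 0x22)))
(.lf (nat_lit 0x6d)))))
(.nd (.nd (.nd (.nd (.lf (nat_lit 9))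
(.lf (nat_lit 9)))
(.nd (.lf (nat_lit 0xa4))
(.lf (nat_lit 0xa))))
(.nd (.nd (.lf (nat_lit 0x10))
(.lf (nat_lit 0x28)))
(.nd (.lf (nat_lit 0x4f))
(.lf (nat_lit 0x5c)))))
(.nd (.nd (.nd (.lf (nat_lit 0x3a))
(.lf (nat_lit 0x1d)))
(.nd (.lf (nat_lit 0xa))
(.lf (nat_lit 0))))
(.nd (.nd (.lf (nat_lit 0x52))
(.lf (nat_lit 0)))
(.lf (nat_lit 0xab))))))
(.nd (.nd (.nd (.nd (.nd (.lf (nat_lit 7))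
(.lf (nat_lit 0xf9)))
(.nd (.lf (nat_lit 0x30))
(.lf (nat_lit 0x30))))
(.nd (.nd (.lf (nat_lit 0x85))
(.lf (nat_lit 0x24)))
(.nd (.lf (nat_lit 0x68))
(.lf (nat_lit 0xe9)))))
(.nd (.nd (.nd (.lf (nat_lit 0x31))
(.lf (nat_lit 0xcb)))
(.nd (.lf (nat_lit 0xcc))
(.lf (nat_lit 0xea))))
(.nd (.nd (.lf (nat_lit 0xaf))
(.lf (nat_lit 0xb)))
(.lf (nat_lit 0x6c)))))
(.nd (.nd (.nd (.nd (.lf (nat_lit 0x24))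
(.lf (nat_lit 0x32)))
(.nd (.lf (nat_lit 0xc))
(.lf (nat_lit 0x68))))
(.nd (.nd (.lf (nat_lit 0x53))
(.lf (nat_lit 0xce)))
(.lf (nat_lit 0xa4))))
(.nd (.nd (.nd (.lf (nat_lit 0x4d))
(.lf (nat_lit 0x38)))
(.nd (.lf (nat_lit 0xe))
(.lf (nat_lit 0x28))))
(.nd (.nd (.lf (nat_lit 0))
(.lf (nat_lit 0x30)))
(.lf (nat_lit 0x56)))))))
(.nd (.nd (.nd (.nd (.nd (.nd (.lf (nat_lit 4))
(.lf (nat_lit 0xe8)))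
(.nd (.lf (nat_lit 0xa3))
(.lf (nat_lit 0x101))))
(.nd (.nd (.lf (nat_lit 0x62))
(.lf (nat_lit 0)))
(.nd (.lf (nat_lit 0xe3))
(.lf (nat_lit 0)))))
(.nd (.nd (.nd (.lf (nat_lit 0x2d))
(.lf (nat_lit 0xa)))
(.nd (.lf (nat_lit 0x1d))
(.lf (nat_lit 0x33))))
(.nd (.nd (.lf (nat_lit 0x72))
(.lf (nat_lit 0xf9)))
(.lf (nat_lit 0x16)))))
(.nd (.nd (.nd (.nd (.lf (nat_lit 0x20))
(.lf (nat_lit 0x51)))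
(.nd (.lf (nat_lit 0xd8))
(.lf (nat_lit 0x5a))))
(.nd (.nd (.lf (nat_lit 0x38))
(.lf (nat_lit 0xd8)))
(.nd (.lf (nat_lit 0x5b))
(.lf (nat_lit 0xed)))))
(.nd (.nd (.nd (.lf (nat_lit 0x3e))
(.lf (nat_lit 0x6a)))
(.nd (.lf (nat_lit 0xb))
(.lf (nat_lit 0xbc))))
(.nd (.nd (.lf (nat_lit 0xd1))
(.lf (nat_lit 0xa)))
(.lf (nat_lit 0x62))))))
(.nd (.nd (.nd (.nd (.nd (.lf (nat_lit 0x14))
(.lf (nat_lit 0xec)))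
(.nd (.lf (nat_lit 0x10))
(.lf (nat_lit 0xe8))))
(.nd (.nd (.lf (nat_lit 0x8d))
(.lf (nat_lit 0)))
(.nd (.lf (nat_lit 0xf2))
(.lf (nat_lit 0)))))
(.nd (.nd (.nd (.lf (nat_lit 0x3a))
(.lf (nat_lit 0)))
(.nd (.lf (nat_lit 0x58))
(.lf (nat_lit 0x92))))
(.nd (.nd (.lf (nat_lit 0xb5))
(.lf (nat_lit 0)))
(.lf (nat_lit 0xbf)))))
(.nd (.nd (.nd (.nd (.lf (nat_lit 0x22))
(.lf (nat_lit 0xff)))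
(.nd (.lf (nat_lit 0xb))
(.lf (nat_lit 0x28))))
(.nd (.nd (.lf (nat_lit 0x73))
(.lf (nat_lit 0)))
(.lf (nat_lit 0x7a))))
(.nd (.nd (.nd (.lf (nat_lit 0))
(.lf (nat_lit 0)))
(.nd (.lf (nat_lit 0xe0))
(.lf (nat_lit 0x28))))
(.nd (.nd (.lf (nat_lit 0x7e))
(.lf (nat_lit 0x95)))
(.lf (nat_lit 0x64))))))))
(.nd (.nd (.nd (.nd (.nd (.nd (.nd (.lf (nat_lit 3))
(.lf (nat_lit 0xe9)))
(.nd (.lf (nat_lit 0xaf))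
(.lf (nat_lit 0xa))))
(.nd (.nd (.lf (nat_lit 0x56))
(.lf (nat_lit 0x3c)))
(.nd (.lf (nat_lit 0xbc))
(.lf (nat_lit 0x72)))))
(.nd (.nd (.nd (.lf (nat_lit 0x1f))
(.lf (nat_lit 0xa)))
(.nd (.lf (nat_lit 0x5e))
(.lf (nat_lit 0x56))))
(.nd (.nd (.lf (nat_lit 0x7c))
(.lf (nat_lit 0xfb)))
(.lf (nat_lit 0xc)))))
(.nd (.nd (.nd (.nd (.lf (nat_lit 0x1c))
(.lf (nat_lit 0xfe)))
(.nd (.lf (nat_lit 0xe4))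
(.lf (nat_lit 0xa))))
(.nd (.nd (.lf (nat_lit 0x34))
(.lf (nat_lit 0x1d)))
(.nd (.lf (nat_lit 0))
(.lf (nat_lit 0x1d)))))
(.nd (.nd (.nd (.lf (nat_lit 0x46))
(.lf (nat_lit 0xa)))
(.nd (.lf (nat_lit 0x68))
(.lf (nat_lit 0x1b))))
(.nd (.nd (.lf (nat_lit 0xcf))
(.lf (nat_lit 0x5a)))
(.lf (nat_lit 0x9b))))))
(.nd (.nd (.nd (.nd (.nd (.lf (nat_lit 0x14))
(.lf (nat_lit 0xf8)))
(.nd (.lf (nat_lit 0x33))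
(.lf (nat_lit 0x95))))
(.nd (.nd (.lf (nat_lit 0x8f))
(.lf (nat_lit 0x60)))
(.nd (.lf (nat_lit 0xc1))
(.lf (nat_lit 0xe8)))))
(.nd (.nd (.nd (.lf (nat_lit 0x33))
(.lf (nat_lit 0xc5)))
(.nd (.lf (nat_lit 0x2f))
(.lf (nat_lit 0x79))))
(.nd (.nd (.lf (nat_lit 0xb7))
(.lf (nat_lit 0xc)))
(.lf (nat_lit 0)))))
(.nd (.nd (.nd (.nd (.lf (nat_lit 0xe))
(.lf (nat_lit 0x58)))
(.nd (.lf (nat_lit 0xef))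
(.lf (nat_lit 0x28))))
(.nd (.nd (.lf (nat_lit 0x75))
(.lf (nat_lit 0x1b)))
(.lf (nat_lit 0x53))))
(.nd (.nd (.nd (.lf (nat_lit 0x4a))
(.lf (nat_lit 0x90)))
(.nd (.lf (nat_lit 0xa))
(.lf (nat_lit 0x28))))
(.nd (.nd (.lf (nat_lit 0))
(.lf (nat_lit 0xa)))
(.lf (nat_lit 0x1f)))))))
(.nd (.nd (.nd (.nd (.nd (.nd (.lf (nat_lit 5))
(.lf (nat_lit 0xfd)))
(.nd (.lf (nat_lit 0x31))
(.lf (nat_lit 0xa))))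
(.nd (.nd (.lf (nat_lit 0x7b))
(.lf (nat_lit 0xa)))
(.nd (.lf (nat_lit 0xf0))
(.lf (nat_lit 0xee)))))
(.nd (.nd (.nd (.lf (nat_lit 0xc))
(.lf (nat_lit 0xbc)))
(.nd (.lf (nat_lit 0xa))
(.lf (nat_lit 0x1d))))
(.nd (.nd (.lf (nat_lit 0xa7))
(.lf (nat_lit 0x90)))
(.lf (nat_lit 0x31)))))
(.nd (.nd (.nd (.nd (.lf (nat_lit 0x20))
(.lf (nat_lit 0x37)))
(.nd (.lf (nat_lit 0x6b))
(.lf (nat_lit 0x2c))))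
(.nd (.nd (.lf (nat_lit 0x9f))
(.lf (nat_lit 0xec)))
(.lf (nat_lit 0x38))))
(.nd (.nd (.nd (.lf (nat_lit 0x4b))
(.lf (nat_lit 0xf)))
(.nd (.lf (nat_lit 0xb))
(.lf (nat_lit 0))))
(.nd (.nd (.lf (nat_lit 0x55))
(.lf (nat_lit 0x28)))
(.lf (nat_lit 0x36))))))
(.nd (.nd (.nd (.nd (.nd (.lf (nat_lit 1))
(.lf (nat_lit 0)))
(.nd (.lf (nat_lit 0x34))
(.lf (nat_lit 0xe9))))
(.nd (.nd (.lf (nat_lit 0x8e))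
(.lf (nat_lit 0x95)))
(.nd (.lf (nat_lit 0x10))
(.lf (nat_lit 0)))))
(.nd (.nd (.nd (.lf (nat_lit 0x3b))
(.lf (nat_lit 0xd5)))
(.nd (.lf (nat_lit 0x73))
(.lf (nat_lit 0))))
(.nd (.nd (.lf (nat_lit 0x74))
(.lf (nat_lit 0x10)))
(.lf (nat_lit 0xc2)))))
(.nd (.nd (.nd (.nd (.lf (nat_lit 0x29))
(.lf (nat_lit 0xb8)))
(.nd (.lf (nat_lit 9))
(.lf (nat_lit 0xd4))))
(.nd (.nd (.lf (nat_lit 0x80))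
(.lf (nat_lit 0x22)))
(.lf (nat_lit 0x80))))
(.nd (.nd (.nd (.lf (nat_lit 0))
(.lf (nat_lit 0x10)))
(.nd (.lf (nat_lit 0x19))
(.lf (nat_lit 0xe8))))
(.nd (.nd (.lf (nat_lit 0xdb))
(.lf (nat_lit 0xe9)))
(.lf (nat_lit 0xee))))))))))
(.nd (.nd (.nd (.nd (.nd (.nd (.nd (.nd (.nd (.lf (nat_lit 2))
(.lf (nat_lit 0xee)))
(.nd (.lf (nat_lit 0xde))
(.lf (nat_lit 0xe9))))
(.nd (.nd (.lf (nat_lit 0x5c))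
(.lf (nat_lit 0xf6)))
(.nd (.lf (nat_lit 0xe2))
(.lf (nat_lit 0xe8)))))
(.nd (.nd (.nd (.lf (nat_lit 0x2a))
(.lf (nat_lit 0x9c)))
(.nd (.lf (nat_lit 0x71))
(.lf (nat_lit 0xd4))))
(.nd (.nd (.lf (nat_lit 0x80))
(.lf (nat_lit 0)))
(.lf (nat_lit 0x7d)))))
(.nd (.nd (.nd (.nd (.lf (nat_lit 1))
(.lf (nat_lit 9)))
(.nd (.lf (nat_lit 0x50))
(.lf (nat_lit 0x28))))
(.nd (.nd (.lf (nat_lit 0x16))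
(.lf (nat_lit 0x33)))
(.nd (.lf (nat_lit 0x3c))
(.lf (nat_lit 0xbc)))))
(.nd (.nd (.nd (.lf (nat_lit 0x3a))
(.lf (nat_lit 0xd3)))
(.nd (.lf (nat_lit 0x90))
(.lf (nat_lit 0x5d))))
(.nd (.nd (.lf (nat_lit 0x5b))
(.lf (nat_lit 0x2c)))
(.lf (nat_lit 0x2f))))))
(.nd (.nd (.nd (.nd (.nd (.lf (nat_lit 8))
(.lf (nat_lit 0xda)))
(.nd (.lf (nat_lit 0x28))
(.lf (nat_lit 0x28))))
(.nd (.nd (.lf (nat_lit 0x70))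
(.lf (nat_lit 0xa)))
(.nd (.lf (nat_lit 0xb9))
(.lf (nat_lit 0xa)))))
(.nd (.nd (.nd (.lf (nat_lit 0x30))
(.lf (nat_lit 0)))
(.nd (.lf (nat_lit 0x52))
(.lf (nat_lit 0x54))))
(.nd (.nd (.lf (nat_lit 0x77))
(.lf (nat_lit 9)))
(.lf (nat_lit 0x28)))))
(.nd (.nd (.nd (.nd (.lf (nat_lit 0x1a))
(.lf (nat_lit 0x22)))
(.nd (.lf (nat_lit 0xb))
(.lf (nat_lit 0x34))))
(.nd (.nd (.lf (nat_lit 0x38))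
(.lf (nat_lit 0xe4)))
(.lf (nat_lit 0x82))))
(.nd (.nd (.nd (.lf (nat_lit 0x4b))
(.lf (nat_lit 0x2c)))
(.nd (.lf (nat_lit 9))
(.lf (nat_lit 0x28))))
(.nd (.nd (.lf (nat_lit 0xc6))
(.lf (nat_lit 0xa)))
(.lf (nat_lit 0x5f)))))))
(.nd (.nd (.nd (.nd (.nd (.nd (.lf (nat_lit 2))
(.lf (nat_lit 0xbd)))
(.nd (.lf (nat_lit 0x98))
(.lf (nat_lit 0x101))))
(.nd (.nd (.lf (nat_lit 0x56))
(.lf (nat_lit 0x102)))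
(.nd (.lf (nat_lit 0xbc))
(.lf (nat_lit 0xa)))))
(.nd (.nd (.nd (.lf (nat_lit 9))
(.lf (nat_lit 0x22)))
(.nd (.lf (nat_lit 0xd9))
(.lf (nat_lit 0x28))))
(.nd (.nd (.lf (nat_lit 0x92))
(.lf (nat_lit 0xf9)))
(.lf (nat_lit 0xc)))))
(.nd (.nd (.nd (.nd (.lf (nat_lit 0))
(.lf (nat_lit 0x93)))
(.nd (.lf (nat_lit 0xc1))
(.lf (nat_lit 0x34))))
(.nd (.nd (.lf (nat_lit 0x50))
(.lf (nat_lit 0xe5)))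
(.nd (.lf (nat_lit 0x53))
(.lf (nat_lit 0x1d)))))
(.nd (.nd (.nd (.lf (nat_lit 0x42))
(.lf (nat_lit 0x39)))
(.nd (.lf (nat_lit 0xf))
(.lf (nat_lit 0x1b))))
(.nd (.nd (.lf (nat_lit 0xd0))
(.lf (nat_lit 0x5a)))
(.lf (nat_lit 0x4e))))))
(.nd (.nd (.nd (.nd (.nd (.lf (nat_lit 0x15))
(.lf (nat_lit 0xf8)))
(.nd (.lf (nat_lit 0x23))
(.lf (nat_lit 0xe8))))
(.nd (.nd (.lf (nat_lit 0x8e))
(.lf (nat_lit 0)))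
(.nd (.lf (nat_lit 0xc3))
(.lf (nat_lit 0xbc)))))
(.nd (.nd (.nd (.lf (nat_lit 0x1d))
(.lf (nat_lit 0x4e)))
(.nd (.lf (nat_lit 0x3c))
(.lf (nat_lit 0xb9))))
(.nd (.nd (.lf (nat_lit 0xb1))
(.lf (nat_lit 1)))
(.lf (nat_lit 0xc4)))))
(.nd (.nd (.nd (.nd (.lf (nat_lit 0x22))
(.lf (nat_lit 0x69)))
(.nd (.lf (nat_lit 0xc))
(.lf (nat_lit 0x30))))
(.nd (.nd (.lf (nat_lit 0x75))
(.lf (nat_lit 0x19)))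
(.lf (nat_lit 0x99))))
(.nd (.nd (.nd (.lf (nat_lit 0x55))
(.lf (nat_lit 0xc1)))
(.nd (.lf (nat_lit 0x52))
(.lf (nat_lit 0x16))))
(.nd (.nd (.lf (nat_lit 0xca))
(.lf (nat_lit 0xee)))
(.lf (nat_lit 0x6d))))))))
(.nd (.nd (.nd (.nd (.nd (.nd (.nd (.lf (nat_lit 3))
(.lf (nat_lit 0xe8)))
(.nd (.lf (nat_lit 0xb1))
(.lf (nat_lit 0x6f))))
(.nd (.nd (.lf (nat_lit 0x5f))
(.lf (nat_lit 0xa)))
(.nd (.lf (nat_lit 0xd3))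
(.lf (nat_lit 0x2c)))))
(.nd (.nd (.nd (.lf (nat_lit 0x2b))
(.lf (nat_lit 0x1d)))
(.nd (.lf (nat_lit 0xb8))
(.lf (nat_lit 0xd4))))
(.nd (.nd (.lf (nat_lit 0xa6))
(.lf (nat_lit 0x19)))
(.lf (nat_lit 0x6d)))))
(.nd (.nd (.nd (.nd (.lf (nat_lit 9))
(.lf (nat_lit 1)))
(.nd (.lf (nat_lit 0xbf))
(.lf (nat_lit 0x19))))
(.nd (.nd (.lf (nat_lit 0xc))
(.lf (nat_lit 0x28)))
(.nd (.lf (nat_lit 0xf))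
(.lf (nat_lit 0)))))
(.nd (.nd (.nd (.lf (nat_lit 0x40))
(.lf (nat_lit 0x1e)))
(.nd (.lf (nat_lit 0x75))
(.lf (nat_lit 0xbc))))
(.nd (.nd (.lf (nat_lit 0x52))
(.lf (nat_lit 0x7c)))
(.lf (nat_lit 0x71))))))
(.nd (.nd (.nd (.nd (.nd (.lf (nat_lit 0x12))
(.lf (nat_lit 0xfb)))
(.nd (.lf (nat_lit 0x33))
(.lf (nat_lit 0x1b))))
(.nd (.nd (.lf (nat_lit 0x86))
(.lf (nat_lit 0xea)))
(.nd (.lf (nat_lit 0x95))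
(.lf (nat_lit 0xe9)))))
(.nd (.nd (.nd (.lf (nat_lit 0x31))
(.lf (nat_lit 0xbe)))
(.nd (.lf (nat_lit 0x9d))
(.lf (nat_lit 0xa))))
(.nd (.nd (.lf (nat_lit 0x7f))
(.lf (nat_lit 1)))
(.lf (nat_lit 0xe7)))))
(.nd (.nd (.nd (.nd (.lf (nat_lit 0x1e))
(.lf (nat_lit 0x19)))
(.nd (.lf (nat_lit 0xb))
(.lf (nat_lit 0xa))))
(.nd (.nd (.lf (nat_lit 0x8b))
(.lf (nat_lit 0x22)))
(.lf (nat_lit 0x8c))))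
(.nd (.nd (.nd (.lf (nat_lit 0x49))
(.lf (nat_lit 0x10)))
(.nd (.lf (nat_lit 0xcc))
(.lf (nat_lit 0xe))))
(.nd (.nd (.lf (nat_lit 0))
(.lf (nat_lit 0x28)))
(.lf (nat_lit 0x16)))))))
(.nd (.nd (.nd (.nd (.nd (.nd (.lf (nat_lit 4))
(.lf (nat_lit 0x95)))
(.nd (.lf (nat_lit 0x76))
(.lf (nat_lit 0x28))))
(.nd (.nd (.lf (nat_lit 0x8a))
(.lf (nat_lit 0x1e)))
(.nd (.lf (nat_lit 0xd4))
(.lf (nat_lit 0x1b)))))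
(.nd (.nd (.nd (.lf (nat_lit 1))
(.lf (nat_lit 0x1b)))
(.nd (.lf (nat_lit 0xe0))
(.lf (nat_lit 0xa))))
(.nd (.nd (.lf (nat_lit 0x5e))
(.lf (nat_lit 0x90)))
(.lf (nat_lit 0xe7)))))
(.nd (.nd (.nd (.nd (.lf (nat_lit 0x20))
(.lf (nat_lit 0x5e)))
(.nd (.lf (nat_lit 0xb))
(.lf (nat_lit 0x63))))
(.nd (.nd (.lf (nat_lit 0x82))
(.lf (nat_lit 0xd8)))
(.lf (nat_lit 0xd7))))
(.nd (.nd (.nd (.lf (nat_lit 0x32))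
(.lf (nat_lit 0x2d)))
(.nd (.lf (nat_lit 0xb))
(.lf (nat_lit 0xd4))))
(.nd (.nd (.lf (nat_lit 0xd1))
(.lf (nat_lit 0x80)))
(.lf (nat_lit 0x62))))))
(.nd (.nd (.nd (.nd (.nd (.lf (nat_lit 0x17))
(.lf (nat_lit 0xc8)))
(.nd (.lf (nat_lit 0x10))
(.lf (nat_lit 0xda))))
(.nd (.nd (.lf (nat_lit 0x8d))
(.lf (nat_lit 0x68)))
(.nd (.lf (nat_lit 0))
(.lf (nat_lit 0)))))
(.nd (.nd (.nd (.lf (nat_lit 0x3a))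
(.lf (nat_lit 0x6f)))
(.nd (.lf (nat_lit 0x69))
(.lf (nat_lit 0))))
(.nd (.nd (.lf (nat_lit 0x57))
(.lf (nat_lit 0x32)))
(.lf (nat_lit 0xa)))))
(.nd (.nd (.nd (.nd (.lf (nat_lit 0x2a))
(.lf (nat_lit 0xa)))
(.nd (.lf (nat_lit 9))
(.lf (nat_lit 0x1b))))
(.nd (.nd (.lf (nat_lit 0xa1))
(.lf (nat_lit 0)))
(.lf (nat_lit 0x7c))))
(.nd (.nd (.nd (.lf (nat_lit 0x54))
(.lf (nat_lit 0xbb)))
(.nd (.lf (nat_lit 0xdf))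
(.lf (nat_lit 0xa))))
(.nd (.nd (.lf (nat_lit 0x7e))
(.lf (nat_lit 0xa)))
(.lf (nat_lit 0x9e)))))))))
(.nd (.nd (.nd (.nd (.nd (.nd (.nd (.nd (.lf (nat_lit 3))
(.lf (nat_lit 0xe8)))
(.nd (.lf (nat_lit 0xc0))
(.lf (nat_lit 0x103))))
(.nd (.nd (.lf (nat_lit 0x61))
(.lf (nat_lit 0xa)))
(.nd (.lf (nat_lit 0x52))
(.lf (nat_lit 0xee)))))
(.nd (.nd (.nd (.lf (nat_lit 0x2a))
(.lf (nat_lit 0xc0)))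
(.nd (.lf (nat_lit 0xc4))
(.lf (nat_lit 0xd4))))
(.nd (.nd (.lf (nat_lit 0xa6))
(.lf (nat_lit 0x1b)))
(.lf (nat_lit 0x64)))))
(.nd (.nd (.nd (.nd (.lf (nat_lit 1))
(.lf (nat_lit 0x7d)))
(.nd (.lf (nat_lit 0xd2))
(.lf (nat_lit 0xa))))
(.nd (.nd (.lf (nat_lit 0x64))
(.lf (nat_lit 0x31)))
(.nd (.lf (nat_lit 0xf3))
(.lf (nat_lit 0x5c)))))
(.nd (.nd (.nd (.lf (nat_lit 0x39))
(.lf (nat_lit 0x2f)))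
(.nd (.lf (nat_lit 0xbb))
(.lf (nat_lit 0xc6))))
(.nd (.nd (.lf (nat_lit 0x4f))
(.lf (nat_lit 0)))
(.lf (nat_lit 0x57))))))
(.nd (.nd (.nd (.nd (.nd (.lf (nat_lit 6))
(.lf (nat_lit 0xec)))
(.nd (.lf (nat_lit 0x1d))
(.lf (nat_lit 0x39))))
(.nd (.nd (.lf (nat_lit 0x87))
(.lf (nat_lit 0x1b)))
(.nd (.lf (nat_lit 0xc3))
(.lf (nat_lit 0xa)))))
(.nd (.nd (.nd (.lf (nat_lit 0x33))
(.lf (nat_lit 0x5a)))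
(.nd (.lf (nat_lit 0xd3))
(.lf (nat_lit 0x77))))
(.nd (.nd (.lf (nat_lit 0x6a))
(.lf (nat_lit 0x16)))
(.lf (nat_lit 0x28)))))
(.nd (.nd (.nd (.nd (.lf (nat_lit 0x26))
(.lf (nat_lit 0x7b)))
(.nd (.lf (nat_lit 0x23))
(.lf (nat_lit 0x37))))
(.nd (.nd (.lf (nat_lit 0x81))
(.lf (nat_lit 0xa)))
(.lf (nat_lit 0x37))))
(.nd (.nd (.nd (.lf (nat_lit 0x49))
(.lf (nat_lit 0x2e)))
(.nd (.lf (nat_lit 0xdf))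
(.lf (nat_lit 0xa))))
(.nd (.nd (.lf (nat_lit 0))
(.lf (nat_lit 0xa)))
(.lf (nat_lit 0x61)))))))
(.nd (.nd (.nd (.nd (.nd (.nd (.lf (nat_lit 7))
(.lf (nat_lit 0xfc)))
(.nd (.lf (nat_lit 0xb3))
(.lf (nat_lit 0x51))))
(.nd (.nd (.lf (nat_lit 0x36))
(.lf (nat_lit 0x22)))
(.nd (.lf (nat_lit 0xd4))
(.lf (nat_lit 0x5a)))))
(.nd (.nd (.nd (.lf (nat_lit 0x23))
(.lf (nat_lit 0x19)))
(.nd (.lf (nat_lit 0xe2))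
(.lf (nat_lit 0x59))))
(.nd (.nd (.lf (nat_lit 0xaa))
(.lf (nat_lit 0xf8)))
(.lf (nat_lit 0x36)))))
(.nd (.nd (.nd (.nd (.lf (nat_lit 0x20))
(.lf (nat_lit 0x5a)))
(.nd (.lf (nat_lit 0xe4))
(.lf (nat_lit 0xc3))))
(.nd (.nd (.lf (nat_lit 0x65))
(.lf (nat_lit 0xec)))
(.nd (.lf (nat_lit 0xa))
(.lf (nat_lit 0xed)))))
(.nd (.nd (.nd (.lf (nat_lit 0x3e))
(.lf (nat_lit 0x1b)))
(.nd (.lf (nat_lit 0xb))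
(.lf (nat_lit 0xd4))))
(.nd (.nd (.lf (nat_lit 0xd0))
(.lf (nat_lit 0x7a)))
(.lf (nat_lit 0x56))))))
(.nd (.nd (.nd (.nd (.nd (.lf (nat_lit 0x13))
(.lf (nat_lit 0xf8)))
(.nd (.lf (nat_lit 0x6d))
(.lf (nat_lit 0xee))))
(.nd (.nd (.lf (nat_lit 0x91))
(.lf (nat_lit 0xea)))
(.nd (.lf (nat_lit 0x8c))
(.lf (nat_lit 0)))))
(.nd (.nd (.nd (.lf (nat_lit 0x3b))
(.lf (nat_lit 0xf6)))
(.nd (.lf (nat_lit 0xa))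
(.lf (nat_lit 0x79))))
(.nd (.nd (.lf (nat_lit 0xb3))
(.lf (nat_lit 0x2c)))
(.lf (nat_lit 0x2d)))))
(.nd (.nd (.nd (.nd (.lf (nat_lit 0x1b))
(.lf (nat_lit 0x9c)))
(.nd (.lf (nat_lit 0xb))
(.lf (nat_lit 0xcc))))
(.nd (.nd (.lf (nat_lit 0xa0))
(.lf (nat_lit 0x19)))
(.lf (nat_lit 0xf4))))
(.nd (.nd (.nd (.lf (nat_lit 0x54))
(.lf (nat_lit 0xa)))
(.nd (.lf (nat_lit 0xd3))
(.lf (nat_lit 0x28))))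
(.nd (.nd (.lf (nat_lit 0xc0))
(.lf (nat_lit 0xe9)))
(.lf (nat_lit 9))))))))
(.nd (.nd (.nd (.nd (.nd (.nd (.nd (.lf (nat_lit 2))
(.lf (nat_lit 0xbd)))
(.nd (.lf (nat_lit 0xb0))
(.lf (nat_lit 0x1a))))
(.nd (.nd (.lf (nat_lit 0x56))
(.lf (nat_lit 0xf6)))
(.nd (.lf (nat_lit 0xf0))
(.lf (nat_lit 0)))))
(.nd (.nd (.nd (.lf (nat_lit 0x2c))
(.lf (nat_lit 0x22)))
(.nd (.lf (nat_lit 0x9b))
(.lf (nat_lit 0xe3))))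
(.nd (.nd (.lf (nat_lit 0x99))
(.lf (nat_lit 0xfa)))
(.lf (nat_lit 9)))))
(.nd (.nd (.nd (.nd (.lf (nat_lit 9))
(.lf (nat_lit 0x2f)))
(.nd (.lf (nat_lit 0x6f))
(.lf (nat_lit 0x30))))
(.nd (.nd (.lf (nat_lit 9))
(.lf (nat_lit 0x1d)))
(.nd (.lf (nat_lit 0x34))
(.lf (nat_lit 0)))))
(.nd (.nd (.nd (.lf (nat_lit 0x44))
(.lf (nat_lit 0xa)))
(.nd (.lf (nat_lit 0x79))
(.lf (nat_lit 0))))
(.nd (.nd (.lf (nat_lit 0x55))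
(.lf (nat_lit 0xa)))
(.lf (nat_lit 0x4e))))))
(.nd (.nd (.nd (.nd (.nd (.lf (nat_lit 0x15))
(.lf (nat_lit 0xfb)))
(.nd (.lf (nat_lit 0x28))
(.lf (nat_lit 0x95))))
(.nd (.nd (.lf (nat_lit 0x8e))
(.lf (nat_lit 0x60)))
(.nd (.lf (nat_lit 0x90))
(.lf (nat_lit 0xe9)))))
(.nd (.nd (.nd (.lf (nat_lit 0x28))
(.lf (nat_lit 0xc9)))
(.nd (.lf (nat_lit 0x63))
(.lf (nat_lit 0xa))))
(.nd (.nd (.lf (nat_lit 0x9c))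
(.lf (nat_lit 1)))
(.lf (nat_lit 0xd5)))))
(.nd (.nd (.nd (.nd (.lf (nat_lit 0xa))
(.lf (nat_lit 0)))
(.nd (.lf (nat_lit 9))
(.lf (nat_lit 0x22))))
(.nd (.nd (.lf (nat_lit 0x68))
(.lf (nat_lit 0x22)))
(.lf (nat_lit 0x81))))
(.nd (.nd (.nd (.lf (nat_lit 0x4c))
(.lf (nat_lit 0x90)))
(.nd (.lf (nat_lit 0xe2))
(.lf (nat_lit 0xc))))
(.nd (.nd (.lf (nat_lit 0xcb))
(.lf (nat_lit 0xda)))
(.lf (nat_lit 0x64)))))))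
(.nd (.nd (.nd (.nd (.nd (.nd (.lf (nat_lit 8))
(.lf (nat_lit 0x95)))
(.nd (.lf (nat_lit 0x30))
(.lf (nat_lit 0x28))))
(.nd (.nd (.lf (nat_lit 0x86))
(.lf (nat_lit 0xa)))
(.nd (.lf (nat_lit 0xe3))
(.lf (nat_lit 0xe8)))))
(.nd (.nd (.nd (.lf (nat_lit 0))
(.lf (nat_lit 0xc6)))
(.nd (.lf (nat_lit 0xdf))
(.lf (nat_lit 0x10))))
(.nd (.nd (.lf (nat_lit 0x93))
(.lf (nat_lit 0xf9)))
(.lf (nat_lit 0x2f)))))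
(.nd (.nd (.nd (.nd (.lf (nat_lit 0x1a))
(.lf (nat_lit 0x77)))
(.nd (.lf (nat_lit 9))
(.lf (nat_lit 0x2f))))
(.nd (.nd (.lf (nat_lit 0x37))
(.lf (nat_lit 0xd8)))
(.lf (nat_lit 0))))
(.nd (.nd (.nd (.lf (nat_lit 0x4d))
(.lf (nat_lit 0x4e)))
(.nd (.lf (nat_lit 0x6b))
(.lf (nat_lit 0xbc))))
(.nd (.nd (.lf (nat_lit 0xd1))
(.lf (nat_lit 0x28)))
(.lf (nat_lit 0x5f))))))
(.nd (.nd (.nd (.nd (.nd (.lf (nat_lit 0xd))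
(.lf (nat_lit 1)))
(.nd (.lf (nat_lit 0xb))
(.lf (nat_lit 0xe9))))
(.nd (.nd (.lf (nat_lit 0x8f))
(.lf (nat_lit 0x95)))
(.nd (.lf (nat_lit 0x5b))
(.lf (nat_lit 0xbc)))))
(.nd (.nd (.nd (.lf (nat_lit 0x3a))
(.lf (nat_lit 0x97)))
(.nd (.lf (nat_lit 0x10))
(.lf (nat_lit 0x9e))))
(.nd (.nd (.lf (nat_lit 0x71))
(.lf (nat_lit 0x2c)))
(.lf (nat_lit 0x32)))))
(.nd (.nd (.nd (.nd (.lf (nat_lit 0x2b))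
(.lf (nat_lit 0xdd)))
(.nd (.lf (nat_lit 0xb))
(.lf (nat_lit 0x56))))
(.nd (.nd (.lf (nat_lit 0x7d))
(.lf (nat_lit 0xa)))
(.lf (nat_lit 0x7c))))
(.nd (.nd (.nd (.lf (nat_lit 0x5d))
(.lf (nat_lit 0x79)))
(.nd (.lf (nat_lit 0xcc))
(.lf (nat_lit 0xbd))))
(.nd (.nd (.lf (nat_lit 0xde))
(.lf (nat_lit 0x95)))
(.lf (nat_lit 0xda))))))))))))

noncomputable def bSS63 : BT := (.nd (.nd (.nd (.nd (.nd (.lf (nat_lit 7))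
(.lf (nat_lit 0x31)))
(.lf (nat_lit 0x1a)))
(.nd (.lf (nat_lit 0x13))
(.lf (nat_lit 0x26))))
(.nd (.nd (.nd (.lf (nat_lit 0xd))
(.lf (nat_lit 0x34)))
(.lf (nat_lit 0x23)))
(.nd (.lf (nat_lit 0x16))
(.lf (nat_lit 0x2a)))))
(.nd (.nd (.nd (.nd (.lf (nat_lit 0xb))
(.lf (nat_lit 0x32)))
(.lf (nat_lit 0x1c)))
(.nd (.lf (nat_lit 0x15))
(.lf (nat_lit 0x29))))
(.nd (.nd (.nd (.lf (nat_lit 0xe))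
(.lf (nat_lit 0x38)))
(.lf (nat_lit 0x25)))
(.nd (.lf (nat_lit 0x19))
(.lf (nat_lit 0x2c))))))

/-- the check -/
noncomputable def ca63 (i c : ℕ) : Bool := cArrs Y0 6 3 260 rl63 (NP0 6) (pp0 6) (jt0 6) 20 bSS63.get bAG63.get bAQ63.get i c

theorem cSS63 : ∀ S < 2 ^ 6, ((Finset.range 6).filter fun p => S.testBit p = true).card = 3 → ∃ e < 20, bSS63.get e = S := by decide +kernel

theorem ca63_0 : ca63 0 4 = true := by decide +kernel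

theorem ca63_4 : ca63 4 4 = true := by decide +kernel

theorem ca63_8 : ca63 8 4 = true := by decide +kernel

theorem ca63_12 : ca63 12 4 = true := by decide +kernel

theorem ca63_16 : ca63 16 4 = true := by decide +kernel

theorem ca63_20 : ca63 20 4 = true := by decide +kernel

theorem ca63_24 : ca63 24 4 = true := by decide +kernel

theorem ca63_28 : ca63 28 4 = true := by decide +kernel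

theorem ca63_32 : ca63 32 4 = true := by decide +kernel

theorem ca63_36 : ca63 36 4 = true := by decide +kernel

theorem ca63_40 : ca63 40 4 = true := by decide +kernel

theorem ca63_44 : ca63 44 4 = true := by decide +kernel

theorem ca63_48 : ca63 48 4 = true := by decide +kernel

theorem ca63_52 : ca63 52 4 = true := by decide +kernel

theorem ca63_56 : ca63 56 4 = true := by decide +kernel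

theorem ca63_60 : ca63 60 4 = true := by decide +kernel

theorem ca63_64 : ca63 64 4 = true := by decide +kernel

theorem ca63_68 : ca63 68 4 = true := by decide +kernel

theorem ca63_72 : ca63 72 4 = true := by decide +kernel

theorem ca63_76 : ca63 76 4 = true := by decide +kernel

theorem ca63_80 : ca63 80 4 = true := by decide +kernel

theorem ca63_84 : ca63 84 4 = true := by decide +kernel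

theorem ca63_88 : ca63 88 4 = true := by decide +kernel

theorem ca63_92 : ca63 92 2 = true := by decide +kernel

end Pool.Agent.T2h40.CW6
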