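import Pool.Agent.T2h40.CW6.R64
import Pool.Agent.T2h40.CW6.Pm

set_option autoImplicit false
set_option maxRecDepth 100000

namespace Pool.Agent.T2h40.CW6

/-! Arrangements for 6 ends, 4 outer ones. -/

noncomputable def bAG64 : BT := (.nd (.nd (.nd (.nd (.nd (.nd (.nd (.nd (.nd (.nd (.nd (.lf (nat_lit 0))
(.lf (nat_lit 0x254)))
(.lf (nat_lit 0x2a)))
(.nd (.nd (.lf (nat_lit 0x9a))
(.lf (nat_lit 0x57)))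
(.lf (nat_lit 0xf1))))
(.nd (.nd (.nd (.lf (nat_lit 0x102))
(.lf (nat_lit 0x100)))
(.lf (nat_lit 0x141)))
(.nd (.nd (.lf (nat_lit 0x184))
(.lf (nat_lit 0x1ed)))
(.lf (nat_lit 0x130)))))
(.nd (.nd (.nd (.nd (.lf (nat_lit 0x144))
(.lf (nat_lit 0xec)))
(.lf (nat_lit 0xcb)))
(.nd (.nd (.lf (nat_lit 0x66))
(.lf (nat_lit 0x7d)))
(.lf (nat_lit 0x119))))
(.nd (.nd (.nd (.lf (nat_lit 0x25a))
(.lf (nat_lit 0x28)))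
(.lf (nat_lit 0x2b5)))
(.nd (.lf (nat_lit 0x268))
(.lf (nat_lit 0x14))))))
(.nd (.nd (.nd (.nd (.nd (.lf (nat_lit 0x11))
(.lf (nat_lit 0xf8)))
(.lf (nat_lit 0x1ae)))
(.nd (.nd (.lf (nat_lit 0x19c))
(.lf (nat_lit 0x7c)))
(.lf (nat_lit 0x8d))))
(.nd (.nd (.nd (.lf (nat_lit 0x20a))
(.lf (nat_lit 0x25c)))
(.lf (nat_lit 0x2a4)))
(.nd (.lf (nat_lit 0x153))
(.lf (nat_lit 0x20c)))))
(.nd (.nd (.nd (.nd (.lf (nat_lit 0xf2))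
(.lf (nat_lit 0x183)))
(.lf (nat_lit 0x249)))
(.nd (.nd (.lf (nat_lit 0x206))
(.lf (nat_lit 0x153)))
(.lf (nat_lit 0x95))))
(.nd (.nd (.nd (.lf (nat_lit 0x2cc))
(.lf (nat_lit 0x6e)))
(.lf (nat_lit 0x4b)))
(.nd (.lf (nat_lit 0x10))
(.lf (nat_lit 0x98)))))))
(.nd (.nd (.nd (.nd (.nd (.nd (.lf (nat_lit 0xf))
(.lf (nat_lit 0x57)))
(.lf (nat_lit 0x145)))
(.nd (.nd (.lf (nat_lit 0x10b))
(.lf (nat_lit 0x2e)))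
(.lf (nat_lit 0x272))))
(.nd (.nd (.nd (.lf (nat_lit 0x10e))
(.lf (nat_lit 0x27b)))
(.lf (nat_lit 0xff)))
(.nd (.lf (nat_lit 0x1b4))
(.lf (nat_lit 0x27d)))))
(.nd (.nd (.nd (.nd (.lf (nat_lit 0x2b))
(.lf (nat_lit 0xa1)))
(.lf (nat_lit 0x7c)))
(.nd (.nd (.lf (nat_lit 0x19d))
(.lf (nat_lit 0x14f)))
(.lf (nat_lit 0x20f))))
(.nd (.nd (.nd (.lf (nat_lit 0x245))
(.lf (nat_lit 0x89)))
(.lf (nat_lit 0xd3)))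
(.nd (.lf (nat_lit 0x226))
(.lf (nat_lit 0x28))))))
(.nd (.nd (.nd (.nd (.nd (.lf (nat_lit 0xf1))
(.lf (nat_lit 0x5e)))
(.lf (nat_lit 0x5b)))
(.nd (.nd (.lf (nat_lit 0x213))
(.lf (nat_lit 0xa4)))
(.lf (nat_lit 0x87))))
(.nd (.nd (.nd (.lf (nat_lit 0x187))
(.lf (nat_lit 0xe)))
(.lf (nat_lit 0x245)))
(.nd (.lf (nat_lit 0x247))
(.lf (nat_lit 0x226)))))
(.nd (.nd (.nd (.nd (.lf (nat_lit 0xe8))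
(.lf (nat_lit 0x214)))
(.lf (nat_lit 0xe9)))
(.nd (.nd (.lf (nat_lit 0x1ad))
(.lf (nat_lit 0x131)))
(.lf (nat_lit 0x1ac))))
(.nd (.nd (.nd (.lf (nat_lit 0x1a))
(.lf (nat_lit 0x13b)))
(.lf (nat_lit 0x11)))
(.nd (.lf (nat_lit 0xf))
(.lf (nat_lit 0x97))))))))
(.nd (.nd (.nd (.nd (.nd (.nd (.nd (.lf (nat_lit 0x1ad))
(.lf (nat_lit 0x1ab)))
(.lf (nat_lit 0x155)))
(.nd (.nd (.lf (nat_lit 0x14b))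
(.lf (nat_lit 0x1ed)))
(.lf (nat_lit 0x214))))
(.nd (.nd (.nd (.lf (nat_lit 0x16))
(.lf (nat_lit 0x91)))
(.lf (nat_lit 0x14d)))
(.nd (.lf (nat_lit 0x2a))
(.lf (nat_lit 0x1e8)))))
(.nd (.nd (.nd (.nd (.lf (nat_lit 0x291))
(.lf (nat_lit 0x26)))
(.lf (nat_lit 0x21b)))
(.nd (.nd (.lf (nat_lit 0x294))
(.lf (nat_lit 0x11)))
(.lf (nat_lit 0xb))))
(.nd (.nd (.nd (.lf (nat_lit 0xd9))
(.lf (nat_lit 0x150)))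
(.lf (nat_lit 0x1af)))
(.nd (.lf (nat_lit 0x2e))
(.lf (nat_lit 0x15c))))))
(.nd (.nd (.nd (.nd (.nd (.lf (nat_lit 0x101))
(.lf (nat_lit 0x265)))
(.lf (nat_lit 0x2b3)))
(.nd (.nd (.lf (nat_lit 0x187))
(.lf (nat_lit 5)))
(.lf (nat_lit 0x199))))
(.nd (.nd (.nd (.lf (nat_lit 0x173))
(.lf (nat_lit 0x1af)))
(.lf (nat_lit 0xd9)))
(.nd (.lf (nat_lit 0x5d))
(.lf (nat_lit 0xd8)))))
(.nd (.nd (.nd (.nd (.lf (nat_lit 0x267))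
(.lf (nat_lit 0x9b)))
(.lf (nat_lit 0x136)))
(.nd (.nd (.lf (nat_lit 0xe))
(.lf (nat_lit 0x7b)))
(.lf (nat_lit 0x13a))))
(.nd (.nd (.nd (.lf (nat_lit 0x18c))
(.lf (nat_lit 0x130)))
(.lf (nat_lit 0x15e)))
(.nd (.lf (nat_lit 0x20f))
(.lf (nat_lit 0x14f)))))))
(.nd (.nd (.nd (.nd (.nd (.nd (.lf (nat_lit 0xfc))
(.lf (nat_lit 0x199)))
(.lf (nat_lit 0x21d)))
(.nd (.nd (.lf (nat_lit 0x22d))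
(.lf (nat_lit 0x293)))
(.lf (nat_lit 0x100))))
(.nd (.nd (.nd (.lf (nat_lit 0x1b))
(.lf (nat_lit 0xde)))
(.lf (nat_lit 0xa8)))
(.nd (.lf (nat_lit 0x97))
(.lf (nat_lit 0x57)))))
(.nd (.nd (.nd (.nd (.lf (nat_lit 0x20c))
(.lf (nat_lit 0x56)))
(.lf (nat_lit 0xab)))
(.nd (.nd (.lf (nat_lit 0x2c1))
(.lf (nat_lit 0x9b)))
(.lf (nat_lit 0x8e))))
(.nd (.nd (.nd (.lf (nat_lit 0xb9))
(.lf (nat_lit 0x20a)))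
(.lf (nat_lit 0x140)))
(.nd (.lf (nat_lit 0x94))
(.lf (nat_lit 0x95))))))
(.nd (.nd (.nd (.nd (.nd (.lf (nat_lit 0x28c))
(.lf (nat_lit 0x18)))
(.lf (nat_lit 0x2c3)))
(.nd (.nd (.lf (nat_lit 0x2aa))
(.lf (nat_lit 0x8e)))
(.lf (nat_lit 0x226))))
(.nd (.nd (.nd (.lf (nat_lit 0x1a9))
(.lf (nat_lit 0xfa)))
(.lf (nat_lit 0x96)))
(.nd (.lf (nat_lit 0x135))
(.lf (nat_lit 0xa0)))))
(.nd (.nd (.nd (.nd (.lf (nat_lit 0))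
(.lf (nat_lit 0xf5)))
(.lf (nat_lit 0x2a)))
(.nd (.nd (.lf (nat_lit 0x3b))
(.lf (nat_lit 0x2b)))
(.lf (nat_lit 0x40))))
(.nd (.nd (.nd (.lf (nat_lit 0xa4))
(.lf (nat_lit 0x1c9)))
(.lf (nat_lit 0xa5)))
(.nd (.lf (nat_lit 0xa1))
(.lf (nat_lit 0x153)))))))))
(.nd (.nd (.nd (.nd (.nd (.nd (.nd (.nd (.lf (nat_lit 0x144))
(.lf (nat_lit 0x1b3)))
(.lf (nat_lit 0x5a)))
(.nd (.nd (.lf (nat_lit 0x2f))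
(.lf (nat_lit 0x128)))
(.lf (nat_lit 0x158))))
(.nd (.nd (.nd (.lf (nat_lit 0x256))
(.lf (nat_lit 0x136)))
(.lf (nat_lit 0x267)))
(.nd (.lf (nat_lit 0x277))
(.lf (nat_lit 0x29)))))
(.nd (.nd (.nd (.nd (.lf (nat_lit 0x1ad))
(.lf (nat_lit 0x100)))
(.lf (nat_lit 0x1c0)))
(.nd (.nd (.lf (nat_lit 0xdd))
(.lf (nat_lit 0x218)))
(.lf (nat_lit 0x167))))
(.nd (.nd (.nd (.lf (nat_lit 0x85))
(.lf (nat_lit 0x57)))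
(.lf (nat_lit 0xd7)))
(.nd (.lf (nat_lit 0x11))
(.lf (nat_lit 0xf5))))))
(.nd (.nd (.nd (.nd (.nd (.lf (nat_lit 0x2e))
(.lf (nat_lit 0xce)))
(.lf (nat_lit 0x133)))
(.nd (.nd (.lf (nat_lit 0x10d))
(.lf (nat_lit 0x130)))
(.lf (nat_lit 0xf7))))
(.nd (.nd (.nd (.lf (nat_lit 0x283))
(.lf (nat_lit 0x18f)))
(.lf (nat_lit 0x85)))
(.nd (.lf (nat_lit 0x21))
(.lf (nat_lit 0x11)))))
(.nd (.nd (.nd (.nd (.lf (nat_lit 0x141))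
(.lf (nat_lit 0x295)))
(.lf (nat_lit 0x1ab)))
(.nd (.nd (.lf (nat_lit 0x20e))
(.lf (nat_lit 6)))
(.lf (nat_lit 0x218))))
(.nd (.nd (.nd (.lf (nat_lit 0x108))
(.lf (nat_lit 0x7c)))
(.lf (nat_lit 0x57)))
(.nd (.lf (nat_lit 0xdb))
(.lf (nat_lit 0xf2)))))))
(.nd (.nd (.nd (.nd (.nd (.nd (.lf (nat_lit 0x2b))
(.lf (nat_lit 0x14b)))
(.lf (nat_lit 0x127)))
(.nd (.nd (.lf (nat_lit 0x14c))
(.lf (nat_lit 0xa5)))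
(.lf (nat_lit 0x276))))
(.nd (.nd (.nd (.lf (nat_lit 0x2a9))
(.lf (nat_lit 0x11)))
(.lf (nat_lit 0x73)))
(.nd (.lf (nat_lit 0x2b7))
(.lf (nat_lit 0x28)))))
(.nd (.nd (.nd (.nd (.lf (nat_lit 0x150))
(.lf (nat_lit 0x29a)))
(.lf (nat_lit 0x130)))
(.nd (.nd (.lf (nat_lit 0x21f))
(.lf (nat_lit 0x1cb)))
(.lf (nat_lit 0x1c9))))
(.nd (.nd (.nd (.lf (nat_lit 0x4d))
(.lf (nat_lit 0xa2)))
(.lf (nat_lit 0x272)))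
(.nd (.lf (nat_lit 0x50))
(.lf (nat_lit 0x57))))))
(.nd (.nd (.nd (.nd (.nd (.lf (nat_lit 0x158))
(.lf (nat_lit 0x214)))
(.lf (nat_lit 0xa1)))
(.nd (.nd (.lf (nat_lit 0x22c))
(.lf (nat_lit 0x131)))
(.lf (nat_lit 0x275))))
(.nd (.nd (.nd (.lf (nat_lit 0x62))
(.lf (nat_lit 0x9f)))
(.lf (nat_lit 0x53)))
(.nd (.lf (nat_lit 0x72))
(.lf (nat_lit 0x2d)))))
(.nd (.nd (.nd (.nd (.lf (nat_lit 0x1b8))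
(.lf (nat_lit 0xb)))
(.lf (nat_lit 0x290)))
(.nd (.nd (.lf (nat_lit 0x20d))
(.lf (nat_lit 0xf)))
(.lf (nat_lit 0x289))))
(.nd (.nd (.nd (.lf (nat_lit 0x5d))
(.lf (nat_lit 0x1bf)))
(.lf (nat_lit 0x2e)))
(.nd (.lf (nat_lit 0x5b))
(.lf (nat_lit 0xef))))))))
(.nd (.nd (.nd (.nd (.nd (.nd (.nd (.lf (nat_lit 0x28d))
(.lf (nat_lit 0x28)))
(.lf (nat_lit 0x293)))
(.nd (.nd (.lf (nat_lit 0x2a7))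
(.lf (nat_lit 0xb2)))
(.lf (nat_lit 0x15))))
(.nd (.nd (.nd (.lf (nat_lit 0x1c))
(.lf (nat_lit 0xe9)))
(.lf (nat_lit 0x14a)))
(.nd (.lf (nat_lit 0x5a))
(.lf (nat_lit 0x1b3)))))
(.nd (.nd (.nd (.nd (.lf (nat_lit 0x22))
(.lf (nat_lit 0x52)))
(.lf (nat_lit 0x6e)))
(.nd (.nd (.lf (nat_lit 0x43))
(.lf (nat_lit 0x2e)))
(.lf (nat_lit 0x13b))))
(.nd (.nd (.nd (.lf (nat_lit 0x10e))
(.lf (nat_lit 0x20c)))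
(.lf (nat_lit 0x25e)))
(.nd (.lf (nat_lit 0xa5))
(.lf (nat_lit 0x154))))))
(.nd (.nd (.nd (.nd (.nd (.lf (nat_lit 0x1cb))
(.lf (nat_lit 0x2d)))
(.lf (nat_lit 0x1d)))
(.nd (.nd (.lf (nat_lit 1))
(.lf (nat_lit 0x7b)))
(.lf (nat_lit 0x47))))
(.nd (.nd (.nd (.lf (nat_lit 0xef))
(.lf (nat_lit 0x25e)))
(.lf (nat_lit 0x5f)))
(.nd (.lf (nat_lit 0xa4))
(.lf (nat_lit 0x1c0)))))
(.nd (.nd (.nd (.nd (.lf (nat_lit 0x137))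
(.lf (nat_lit 0x5e)))
(.lf (nat_lit 0x91)))
(.nd (.nd (.lf (nat_lit 0x144))
(.lf (nat_lit 0xcd)))
(.lf (nat_lit 0x1a3))))
(.nd (.nd (.nd (.lf (nat_lit 0x21a))
(.lf (nat_lit 0xb)))
(.lf (nat_lit 0x1f9)))
(.nd (.lf (nat_lit 0x1c5))
(.lf (nat_lit 0x24d)))))))
(.nd (.nd (.nd (.nd (.nd (.nd (.lf (nat_lit 0x20c))
(.lf (nat_lit 0x8c)))
(.lf (nat_lit 3)))
(.nd (.nd (.lf (nat_lit 0x267))
(.lf (nat_lit 0x50)))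
(.lf (nat_lit 0x35))))
(.nd (.nd (.nd (.lf (nat_lit 0x51))
(.lf (nat_lit 0x1ac)))
(.lf (nat_lit 0x102)))
(.nd (.lf (nat_lit 0xef))
(.lf (nat_lit 0x95)))))
(.nd (.nd (.nd (.nd (.lf (nat_lit 0x98))
(.lf (nat_lit 0x9c)))
(.lf (nat_lit 0x17d)))
(.nd (.nd (.lf (nat_lit 0x13f))
(.lf (nat_lit 0xf6)))
(.lf (nat_lit 0x147))))
(.nd (.nd (.nd (.lf (nat_lit 0x11e))
(.lf (nat_lit 0x2c8)))
(.lf (nat_lit 0x263)))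
(.nd (.lf (nat_lit 0x292))
(.lf (nat_lit 0x20c))))))
(.nd (.nd (.nd (.nd (.nd (.lf (nat_lit 0x44))
(.lf (nat_lit 0x93)))
(.lf (nat_lit 0x11)))
(.nd (.nd (.lf (nat_lit 0x39))
(.lf (nat_lit 0x84)))
(.lf (nat_lit 0x1cd))))
(.nd (.nd (.nd (.lf (nat_lit 0x258))
(.lf (nat_lit 0x209)))
(.lf (nat_lit 0x28e)))
(.nd (.lf (nat_lit 0x1e6))
(.lf (nat_lit 0x1c4)))))
(.nd (.nd (.nd (.nd (.lf (nat_lit 0xa8))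
(.lf (nat_lit 0x15c)))
(.lf (nat_lit 0x5a)))
(.nd (.nd (.lf (nat_lit 0x3e))
(.lf (nat_lit 0xbe)))
(.lf (nat_lit 0x7c))))
(.nd (.nd (.nd (.lf (nat_lit 0x232))
(.lf (nat_lit 0x28)))
(.lf (nat_lit 0x28b)))
(.nd (.lf (nat_lit 0x2c3))
(.lf (nat_lit 0xb))))))))))
(.nd (.nd (.nd (.nd (.nd (.nd (.nd (.nd (.nd (.lf (nat_lit 0x2a))
(.lf (nat_lit 0x13e)))
(.lf (nat_lit 0x157)))
(.nd (.nd (.lf (nat_lit 0x50))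
(.lf (nat_lit 0x7c)))
(.lf (nat_lit 0x116))))
(.nd (.nd (.nd (.lf (nat_lit 0x204))
(.lf (nat_lit 0x2ac)))
(.lf (nat_lit 0x209)))
(.nd (.lf (nat_lit 0x130))
(.lf (nat_lit 0x199)))))
(.nd (.nd (.nd (.nd (.lf (nat_lit 0x16c))
(.lf (nat_lit 0x141)))
(.lf (nat_lit 0x1e4)))
(.nd (.nd (.lf (nat_lit 0xc9))
(.lf (nat_lit 0x1b8)))
(.lf (nat_lit 0x1a2))))
(.nd (.nd (.nd (.lf (nat_lit 0x21b))
(.lf (nat_lit 0x59)))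
(.lf (nat_lit 0x2c)))
(.nd (.lf (nat_lit 0x20))
(.lf (nat_lit 0x98))))))
(.nd (.nd (.nd (.nd (.nd (.lf (nat_lit 0x178))
(.lf (nat_lit 0xcd)))
(.lf (nat_lit 0x87)))
(.nd (.nd (.lf (nat_lit 0x42))
(.lf (nat_lit 0xe9)))
(.lf (nat_lit 0xbd))))
(.nd (.nd (.nd (.lf (nat_lit 0x1fa))
(.lf (nat_lit 0x2c)))
(.lf (nat_lit 0x2ce)))
(.nd (.lf (nat_lit 0x1bc))
(.lf (nat_lit 3)))))
(.nd (.nd (.nd (.nd (.lf (nat_lit 0x1b3))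
(.lf (nat_lit 0x131)))
(.lf (nat_lit 0x28e)))
(.nd (.nd (.lf (nat_lit 0xbe))
(.lf (nat_lit 0x1bc)))
(.lf (nat_lit 0x1b8))))
(.nd (.nd (.nd (.lf (nat_lit 0x2c))
(.lf (nat_lit 0x38)))
(.lf (nat_lit 0x6e)))
(.nd (.lf (nat_lit 0x4d))
(.lf (nat_lit 0xf5)))))))
(.nd (.nd (.nd (.nd (.nd (.nd (.lf (nat_lit 0x19c))
(.lf (nat_lit 0x7c)))
(.lf (nat_lit 0x5b)))
(.nd (.nd (.lf (nat_lit 0x1a9))
(.lf (nat_lit 0xa4)))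
(.lf (nat_lit 0x78))))
(.nd (.nd (.nd (.lf (nat_lit 0x187))
(.lf (nat_lit 3)))
(.lf (nat_lit 0x2a3)))
(.nd (.lf (nat_lit 0x209))
(.lf (nat_lit 0x2c9)))))
(.nd (.nd (.nd (.nd (.lf (nat_lit 0x151))
(.lf (nat_lit 0x21d)))
(.lf (nat_lit 0x15e)))
(.nd (.nd (.lf (nat_lit 0x102))
(.lf (nat_lit 0x1ab)))
(.lf (nat_lit 0x155))))
(.nd (.nd (.nd (.lf (nat_lit 5))
(.lf (nat_lit 0xf0)))
(.lf (nat_lit 0x19f)))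
(.nd (.lf (nat_lit 4))
(.lf (nat_lit 0x59))))))
(.nd (.nd (.nd (.nd (.nd (.lf (nat_lit 0x25))
(.lf (nat_lit 0x5f)))
(.lf (nat_lit 0x17e)))
(.nd (.nd (.lf (nat_lit 0x78))
(.lf (nat_lit 0xa5)))
(.lf (nat_lit 0x102))))
(.nd (.nd (.nd (.lf (nat_lit 0x277))
(.lf (nat_lit 0x56)))
(.lf (nat_lit 0x36)))
(.nd (.lf (nat_lit 0x25c))
(.lf (nat_lit 0xae)))))
(.nd (.nd (.nd (.nd (.lf (nat_lit 0x18d))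
(.lf (nat_lit 0x21c)))
(.lf (nat_lit 0x1aa)))
(.nd (.nd (.lf (nat_lit 0x1ac))
(.lf (nat_lit 0x244)))
(.lf (nat_lit 0x20d))))
(.nd (.nd (.nd (.lf (nat_lit 0x11))
(.lf (nat_lit 0x51)))
(.lf (nat_lit 0x5d)))
(.nd (.lf (nat_lit 0x145))
(.lf (nat_lit 0x88))))))))
(.nd (.nd (.nd (.nd (.nd (.nd (.nd (.lf (nat_lit 0x251))
(.lf (nat_lit 0x265)))
(.lf (nat_lit 0x1bd)))
(.nd (.nd (.lf (nat_lit 0xff))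
(.lf (nat_lit 0xb)))
(.lf (nat_lit 0x1cc))))
(.nd (.nd (.nd (.lf (nat_lit 0x6e))
(.lf (nat_lit 0x1b6)))
(.lf (nat_lit 0x42)))
(.nd (.lf (nat_lit 0x152))
(.lf (nat_lit 0x146)))))
(.nd (.nd (.nd (.nd (.lf (nat_lit 0x1cb))
(.lf (nat_lit 0x61)))
(.lf (nat_lit 0x4b)))
(.nd (.nd (.lf (nat_lit 0x73))
(.lf (nat_lit 0x9f)))
(.lf (nat_lit 0x24))))
(.nd (.nd (.nd (.lf (nat_lit 0xa0))
(.lf (nat_lit 0x20e)))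
(.lf (nat_lit 0x5f)))
(.nd (.lf (nat_lit 0xa4))
(.lf (nat_lit 0xed))))))
(.nd (.nd (.nd (.nd (.nd (.lf (nat_lit 0x1c9))
(.lf (nat_lit 0x3f)))
(.lf (nat_lit 0x226)))
(.nd (.nd (.lf (nat_lit 0x2b0))
(.lf (nat_lit 0x30)))
(.lf (nat_lit 0x4a))))
(.nd (.nd (.nd (.lf (nat_lit 0x75))
(.lf (nat_lit 0x5f)))
(.lf (nat_lit 0x5e)))
(.nd (.lf (nat_lit 0x2e))
(.lf (nat_lit 0x220)))))
(.nd (.nd (.nd (.nd (.lf (nat_lit 0x13))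
(.lf (nat_lit 0x52)))
(.lf (nat_lit 0x1b2)))
(.nd (.nd (.lf (nat_lit 0x16e))
(.lf (nat_lit 0x51)))
(.lf (nat_lit 0x144))))
(.nd (.nd (.nd (.lf (nat_lit 0x5f))
(.lf (nat_lit 0x1f9)))
(.lf (nat_lit 0x130)))
(.nd (.lf (nat_lit 0x1c6))
(.lf (nat_lit 0x1b9)))))))
(.nd (.nd (.nd (.nd (.nd (.nd (.lf (nat_lit 0x187))
(.lf (nat_lit 0x21)))
(.lf (nat_lit 0x1fd)))
(.nd (.nd (.lf (nat_lit 0x1ea))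
(.lf (nat_lit 4)))
(.lf (nat_lit 0x2c9))))
(.nd (.nd (.nd (.lf (nat_lit 0xfe))
(.lf (nat_lit 0x156)))
(.lf (nat_lit 0x90)))
(.nd (.lf (nat_lit 0x4e))
(.lf (nat_lit 0xa0)))))
(.nd (.nd (.nd (.nd (.lf (nat_lit 0x3c))
(.lf (nat_lit 0x9f)))
(.lf (nat_lit 0x53)))
(.nd (.nd (.lf (nat_lit 0x4b))
(.lf (nat_lit 0x99)))
(.lf (nat_lit 0xb8))))
(.nd (.nd (.nd (.lf (nat_lit 0x1d6))
(.lf (nat_lit 0x20d)))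
(.lf (nat_lit 0x175)))
(.nd (.lf (nat_lit 0xa6))
(.lf (nat_lit 0x208))))))
(.nd (.nd (.nd (.nd (.nd (.lf (nat_lit 0x2b2))
(.lf (nat_lit 0x19f)))
(.lf (nat_lit 3)))
(.nd (.nd (.lf (nat_lit 0x2cd))
(.lf (nat_lit 0x13f)))
(.lf (nat_lit 0x49))))
(.nd (.nd (.nd (.lf (nat_lit 0x1a3))
(.lf (nat_lit 0xfb)))
(.lf (nat_lit 0xfa)))
(.nd (.lf (nat_lit 0x170))
(.lf (nat_lit 0xa1)))))
(.nd (.nd (.nd (.nd (.lf (nat_lit 0x53))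
(.lf (nat_lit 0xf2)))
(.lf (nat_lit 0x157)))
(.nd (.nd (.lf (nat_lit 0x50))
(.lf (nat_lit 0xa0)))
(.lf (nat_lit 0x57))))
(.nd (.nd (.nd (.lf (nat_lit 0xa5))
(.lf (nat_lit 0x25c)))
(.lf (nat_lit 0x1ea)))
(.nd (.lf (nat_lit 0x21d))
(.lf (nat_lit 0x1bc)))))))))
(.nd (.nd (.nd (.nd (.nd (.nd (.nd (.nd (.lf (nat_lit 0x5a))
(.lf (nat_lit 0x251)))
(.lf (nat_lit 0x1bf)))
(.nd (.nd (.lf (nat_lit 0x14a))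
(.lf (nat_lit 0x130)))
(.lf (nat_lit 0x14b))))
(.nd (.nd (.nd (.lf (nat_lit 0x2b5))
(.lf (nat_lit 0x1b2)))
(.lf (nat_lit 0x9a)))
(.nd (.lf (nat_lit 7))
(.lf (nat_lit 0x148)))))
(.nd (.nd (.nd (.nd (.lf (nat_lit 0x257))
(.lf (nat_lit 0x25c)))
(.lf (nat_lit 0x2aa)))
(.nd (.nd (.lf (nat_lit 0x1ca))
(.lf (nat_lit 3)))
(.lf (nat_lit 0x2c7))))
(.nd (.nd (.nd (.lf (nat_lit 0x59))
(.lf (nat_lit 0xa0)))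
(.lf (nat_lit 0x2f)))
(.nd (.lf (nat_lit 0x5d))
(.lf (nat_lit 0xf2))))))
(.nd (.nd (.nd (.nd (.nd (.lf (nat_lit 0x1ad))
(.lf (nat_lit 0x131)))
(.lf (nat_lit 0x1c0)))
(.nd (.nd (.lf (nat_lit 0x5f))
(.lf (nat_lit 0x1c8)))
(.lf (nat_lit 0x195))))
(.nd (.nd (.nd (.lf (nat_lit 0x3b))
(.lf (nat_lit 0x79)))
(.lf (nat_lit 0x2d)))
(.nd (.lf (nat_lit 0x11))
(.lf (nat_lit 0x1ae)))))
(.nd (.nd (.nd (.nd (.lf (nat_lit 0x1c5))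
(.lf (nat_lit 0x54)))
(.lf (nat_lit 0x2b5)))
(.nd (.nd (.lf (nat_lit 0x294))
(.lf (nat_lit 0x24)))
(.lf (nat_lit 0x44))))
(.nd (.nd (.nd (.lf (nat_lit 0xd9))
(.lf (nat_lit 0x15e)))
(.lf (nat_lit 0x7c)))
(.nd (.lf (nat_lit 0x2e))
(.lf (nat_lit 0x15c)))))))
(.nd (.nd (.nd (.nd (.nd (.nd (.lf (nat_lit 0xbd))
(.lf (nat_lit 0x130)))
(.lf (nat_lit 0xa1)))
(.nd (.nd (.lf (nat_lit 0x2a2))
(.lf (nat_lit 0x209)))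
(.lf (nat_lit 0xce))))
(.nd (.nd (.nd (.lf (nat_lit 3))
(.lf (nat_lit 0xf0)))
(.lf (nat_lit 0x5c)))
(.nd (.lf (nat_lit 0x2c))
(.lf (nat_lit 0x59)))))
(.nd (.nd (.nd (.nd (.lf (nat_lit 0x1f5))
(.lf (nat_lit 0x31)))
(.lf (nat_lit 0x1f9)))
(.nd (.nd (.lf (nat_lit 0x232))
(.lf (nat_lit 0x54)))
(.lf (nat_lit 0x26b))))
(.nd (.nd (.nd (.lf (nat_lit 0x16f))
(.lf (nat_lit 0x156)))
(.lf (nat_lit 0x7e)))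
(.nd (.lf (nat_lit 0x12))
(.lf (nat_lit 0xa0))))))
(.nd (.nd (.nd (.nd (.nd (.lf (nat_lit 0x200))
(.lf (nat_lit 0x1fd)))
(.lf (nat_lit 0x21d)))
(.nd (.nd (.lf (nat_lit 0x175))
(.lf (nat_lit 0x283)))
(.lf (nat_lit 0x1c5))))
(.nd (.nd (.nd (.lf (nat_lit 0xe6))
(.lf (nat_lit 0x2e)))
(.lf (nat_lit 0x9f)))
(.nd (.lf (nat_lit 0x1cd))
(.lf (nat_lit 0x9d)))))
(.nd (.nd (.nd (.nd (.lf (nat_lit 0x218))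
(.lf (nat_lit 0x98)))
(.lf (nat_lit 0x62)))
(.nd (.nd (.lf (nat_lit 0x2bf))
(.lf (nat_lit 0x59)))
(.lf (nat_lit 0x28))))
(.nd (.nd (.nd (.lf (nat_lit 0x2e))
(.lf (nat_lit 0x1ba)))
(.lf (nat_lit 0xa4)))
(.nd (.lf (nat_lit 0x1a1))
(.lf (nat_lit 0x1a2))))))))
(.nd (.nd (.nd (.nd (.nd (.nd (.nd (.lf (nat_lit 0x1cb))
(.lf (nat_lit 0x40)))
(.lf (nat_lit 0xd2)))
(.nd (.nd (.lf (nat_lit 0))
(.lf (nat_lit 0x121)))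
(.lf (nat_lit 0x3d))))
(.nd (.nd (.nd (.lf (nat_lit 0xbd))
(.lf (nat_lit 0x1aa)))
(.lf (nat_lit 0x14b)))
(.nd (.lf (nat_lit 0x1bf))
(.lf (nat_lit 0xa5)))))
(.nd (.nd (.nd (.nd (.lf (nat_lit 0x202))
(.lf (nat_lit 0xa7)))
(.lf (nat_lit 0xd5)))
(.nd (.nd (.lf (nat_lit 0xa8))
(.lf (nat_lit 0xfa)))
(.lf (nat_lit 0x2e))))
(.nd (.nd (.nd (.lf (nat_lit 0x187))
(.lf (nat_lit 0)))
(.lf (nat_lit 0x290)))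
(.nd (.lf (nat_lit 0x274))
(.lf (nat_lit 0x285))))))
(.nd (.nd (.nd (.nd (.nd (.lf (nat_lit 0xc))
(.lf (nat_lit 0x75)))
(.lf (nat_lit 0x145)))
(.nd (.nd (.lf (nat_lit 0x3d))
(.lf (nat_lit 0x2e)))
(.lf (nat_lit 0x93))))
(.nd (.nd (.nd (.lf (nat_lit 0x11f))
(.lf (nat_lit 0x280)))
(.lf (nat_lit 0xff)))
(.nd (.lf (nat_lit 0xa5))
(.lf (nat_lit 0x2b3)))))
(.nd (.nd (.nd (.nd (.lf (nat_lit 0x99))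
(.lf (nat_lit 0xa1)))
(.lf (nat_lit 0x1b6)))
(.nd (.nd (.lf (nat_lit 0x138))
(.lf (nat_lit 0xce)))
(.lf (nat_lit 0x1ad))))
(.nd (.nd (.nd (.lf (nat_lit 0x284))
(.lf (nat_lit 0x11)))
(.lf (nat_lit 0x1e)))
(.nd (.lf (nat_lit 0x224))
(.lf (nat_lit 0x49)))))))
(.nd (.nd (.nd (.nd (.nd (.nd (.lf (nat_lit 3))
(.lf (nat_lit 0x7b)))
(.lf (nat_lit 0x11)))
(.nd (.nd (.lf (nat_lit 0x1d))
(.lf (nat_lit 0x12)))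
(.lf (nat_lit 0x40))))
(.nd (.nd (.nd (.lf (nat_lit 0x1a5))
(.lf (nat_lit 0x256)))
(.lf (nat_lit 0x204)))
(.nd (.lf (nat_lit 0x5f))
(.lf (nat_lit 0x208)))))
(.nd (.nd (.nd (.nd (.lf (nat_lit 0x118))
(.lf (nat_lit 0xfa)))
(.lf (nat_lit 0x96)))
(.nd (.nd (.lf (nat_lit 0x6c))
(.lf (nat_lit 0x22e)))
(.lf (nat_lit 0x206))))
(.nd (.nd (.nd (.lf (nat_lit 0x215))
(.lf (nat_lit 0x4b)))
(.lf (nat_lit 0x1cb)))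
(.nd (.lf (nat_lit 0x165))
(.lf (nat_lit 0x80))))))
(.nd (.nd (.nd (.nd (.nd (.lf (nat_lit 0x105))
(.lf (nat_lit 0xea)))
(.lf (nat_lit 0x1ae)))
(.nd (.nd (.lf (nat_lit 0x40))
(.lf (nat_lit 0x1ff)))
(.lf (nat_lit 0x88))))
(.nd (.nd (.nd (.lf (nat_lit 0x1ac))
(.lf (nat_lit 0x267)))
(.lf (nat_lit 0x162)))
(.nd (.lf (nat_lit 0x208))
(.lf (nat_lit 0x1fd)))))
(.nd (.nd (.nd (.nd (.lf (nat_lit 0x96))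
(.lf (nat_lit 0x20a)))
(.lf (nat_lit 0x1bf)))
(.nd (.nd (.lf (nat_lit 0xef))
(.lf (nat_lit 0x187)))
(.lf (nat_lit 0x1a2))))
(.nd (.nd (.nd (.lf (nat_lit 0x293))
(.lf (nat_lit 0x59)))
(.lf (nat_lit 0x6d)))
(.nd (.lf (nat_lit 0x10))
(.lf (nat_lit 0x134)))))))))))
(.nd (.nd (.nd (.nd (.nd (.nd (.nd (.nd (.nd (.nd (.lf (nat_lit 0xf))
(.lf (nat_lit 0xd5)))
(.lf (nat_lit 0xeb)))
(.nd (.nd (.lf (nat_lit 0x30))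
(.lf (nat_lit 0xf2)))
(.lf (nat_lit 0x178))))
(.nd (.nd (.nd (.lf (nat_lit 0x1a2))
(.lf (nat_lit 0x1bc)))
(.lf (nat_lit 0x1aa)))
(.nd (.nd (.lf (nat_lit 0x189))
(.lf (nat_lit 0x244)))
(.lf (nat_lit 0x131)))))
(.nd (.nd (.nd (.nd (.lf (nat_lit 0x106))
(.lf (nat_lit 0xa6)))
(.lf (nat_lit 0x1d2)))
(.nd (.nd (.lf (nat_lit 0x15a))
(.lf (nat_lit 0xed)))
(.lf (nat_lit 0x102))))
(.nd (.nd (.nd (.lf (nat_lit 0x294))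
(.lf (nat_lit 0x98)))
(.lf (nat_lit 0x10)))
(.nd (.lf (nat_lit 0x299))
(.lf (nat_lit 0x28))))))
(.nd (.nd (.nd (.nd (.nd (.lf (nat_lit 0x110))
(.lf (nat_lit 0x7c)))
(.lf (nat_lit 0x48)))
(.nd (.nd (.lf (nat_lit 0xc8))
(.lf (nat_lit 0xcd)))
(.lf (nat_lit 0xb9))))
(.nd (.nd (.nd (.lf (nat_lit 0x161))
(.lf (nat_lit 0x10)))
(.lf (nat_lit 0x2c7)))
(.nd (.lf (nat_lit 0x1b9))
(.lf (nat_lit 0x25c)))))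
(.nd (.nd (.nd (.nd (.lf (nat_lit 0x143))
(.lf (nat_lit 0x1ca)))
(.lf (nat_lit 0x252)))
(.nd (.nd (.lf (nat_lit 0x258))
(.lf (nat_lit 0x1b9)))
(.lf (nat_lit 0xed))))
(.nd (.nd (.nd (.lf (nat_lit 0x62))
(.lf (nat_lit 0xbc)))
(.lf (nat_lit 0x37)))
(.nd (.lf (nat_lit 0x22))
(.lf (nat_lit 0x59)))))))
(.nd (.nd (.nd (.nd (.nd (.nd (.lf (nat_lit 0x11))
(.lf (nat_lit 0x9c)))
(.lf (nat_lit 0xf0)))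
(.nd (.nd (.lf (nat_lit 0x1e3))
(.lf (nat_lit 0x5e)))
(.lf (nat_lit 0x52))))
(.nd (.nd (.nd (.lf (nat_lit 0x1d7))
(.lf (nat_lit 0x21b)))
(.lf (nat_lit 0x274)))
(.nd (.lf (nat_lit 0x1be))
(.lf (nat_lit 0x284)))))
(.nd (.nd (.nd (.nd (.lf (nat_lit 0xea))
(.lf (nat_lit 0x1c0)))
(.lf (nat_lit 0xcd)))
(.nd (.nd (.lf (nat_lit 0x1ff))
(.lf (nat_lit 0x153)))
(.lf (nat_lit 0x5f))))
(.nd (.nd (.nd (.lf (nat_lit 0x285))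
(.lf (nat_lit 0x19c)))
(.lf (nat_lit 0x107)))
(.nd (.lf (nat_lit 0x82))
(.lf (nat_lit 0x11))))))
(.nd (.nd (.nd (.nd (.nd (.lf (nat_lit 0xdb))
(.lf (nat_lit 0x1b3)))
(.lf (nat_lit 0xcb)))
(.nd (.nd (.lf (nat_lit 0x3e))
(.lf (nat_lit 0x5f)))
(.lf (nat_lit 0xdc))))
(.nd (.nd (.nd (.lf (nat_lit 0x25a))
(.lf (nat_lit 0x2c)))
(.lf (nat_lit 0x285)))
(.nd (.lf (nat_lit 0x20c))
(.lf (nat_lit 0xe)))))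
(.nd (.nd (.nd (.nd (.lf (nat_lit 0x14e))
(.lf (nat_lit 0x1ab)))
(.lf (nat_lit 0x2a1)))
(.nd (.nd (.lf (nat_lit 0x22e))
(.lf (nat_lit 0x199)))
(.lf (nat_lit 0x20e))))
(.nd (.nd (.nd (.lf (nat_lit 0x19))
(.lf (nat_lit 0x2b)))
(.lf (nat_lit 0x2d)))
(.nd (.lf (nat_lit 0x11))
(.lf (nat_lit 0xa8))))))))
(.nd (.nd (.nd (.nd (.nd (.nd (.nd (.lf (nat_lit 0x5f))
(.lf (nat_lit 0x2b6)))
(.lf (nat_lit 0x24c)))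
(.nd (.nd (.lf (nat_lit 0x1b4))
(.lf (nat_lit 0x26b)))
(.lf (nat_lit 0x1f6))))
(.nd (.nd (.nd (.lf (nat_lit 0x37))
(.lf (nat_lit 0xb9)))
(.lf (nat_lit 0xc8)))
(.nd (.lf (nat_lit 0xf1))
(.lf (nat_lit 0x70)))))
(.nd (.nd (.nd (.nd (.lf (nat_lit 0x2b6))
(.lf (nat_lit 0x11)))
(.lf (nat_lit 0x21)))
(.nd (.nd (.lf (nat_lit 0x2b7))
(.lf (nat_lit 0x9b)))
(.lf (nat_lit 0x2c))))
(.nd (.nd (.nd (.lf (nat_lit 0x5a))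
(.lf (nat_lit 0x1ac)))
(.lf (nat_lit 0x20f)))
(.nd (.lf (nat_lit 0x5e))
(.lf (nat_lit 0x159))))))
(.nd (.nd (.nd (.nd (.nd (.lf (nat_lit 0x167))
(.lf (nat_lit 0x1a)))
(.lf (nat_lit 0x1cc)))
(.nd (.nd (.lf (nat_lit 0x28d))
(.lf (nat_lit 0x13)))
(.lf (nat_lit 0x1fc))))
(.nd (.nd (.nd (.lf (nat_lit 0xf5))
(.lf (nat_lit 0x20f)))
(.lf (nat_lit 0x2e)))
(.nd (.lf (nat_lit 0x91))
(.lf (nat_lit 0xa7)))))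
(.nd (.nd (.nd (.nd (.lf (nat_lit 5))
(.lf (nat_lit 0x9f)))
(.lf (nat_lit 0x13a)))
(.nd (.nd (.lf (nat_lit 0x81))
(.lf (nat_lit 0x25)))
(.lf (nat_lit 0xdf))))
(.nd (.nd (.nd (.lf (nat_lit 0x22c))
(.lf (nat_lit 0x196)))
(.lf (nat_lit 0xce)))
(.nd (.lf (nat_lit 0x5f))
(.lf (nat_lit 0x153)))))))
(.nd (.nd (.nd (.nd (.nd (.nd (.lf (nat_lit 0x11e))
(.lf (nat_lit 0x21b)))
(.lf (nat_lit 0x256)))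
(.nd (.nd (.lf (nat_lit 0x187))
(.lf (nat_lit 0)))
(.lf (nat_lit 0x29d))))
(.nd (.nd (.nd (.lf (nat_lit 0x97))
(.lf (nat_lit 0x151)))
(.lf (nat_lit 0x88)))
(.nd (.lf (nat_lit 0x10c))
(.lf (nat_lit 0xde)))))
(.nd (.nd (.nd (.nd (.lf (nat_lit 0x25c))
(.lf (nat_lit 0x9b)))
(.lf (nat_lit 0x63)))
(.nd (.nd (.lf (nat_lit 6))
(.lf (nat_lit 0x9f)))
(.lf (nat_lit 0xe6))))
(.nd (.nd (.nd (.lf (nat_lit 0xe8))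
(.lf (nat_lit 0x25b)))
(.lf (nat_lit 0x150)))
(.nd (.lf (nat_lit 0xec))
(.lf (nat_lit 0x1ba))))))
(.nd (.nd (.nd (.nd (.nd (.lf (nat_lit 0x166))
(.lf (nat_lit 4)))
(.lf (nat_lit 0x267)))
(.nd (.nd (.lf (nat_lit 0x277))
(.lf (nat_lit 0x4d)))
(.lf (nat_lit 0x20))))
(.nd (.nd (.nd (.lf (nat_lit 0xe5))
(.lf (nat_lit 0x5f)))
(.lf (nat_lit 0xef)))
(.nd (.lf (nat_lit 0x180))
(.lf (nat_lit 0x238)))))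
(.nd (.nd (.nd (.nd (.lf (nat_lit 0x49))
(.lf (nat_lit 0x57)))
(.lf (nat_lit 0xeb)))
(.nd (.nd (.lf (nat_lit 0x56))
(.lf (nat_lit 0x5a)))
(.lf (nat_lit 0x7b))))
(.nd (.nd (.nd (.lf (nat_lit 0x5f))
(.lf (nat_lit 0x1cc)))
(.lf (nat_lit 0xff)))
(.nd (.lf (nat_lit 0x1c0))
(.lf (nat_lit 0x1b9)))))))))
(.nd (.nd (.nd (.nd (.nd (.nd (.nd (.nd (.lf (nat_lit 0x2b))
(.lf (nat_lit 0x95)))
(.lf (nat_lit 0x158)))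
(.nd (.nd (.lf (nat_lit 0xe4))
(.lf (nat_lit 0xce)))
(.lf (nat_lit 0x18a))))
(.nd (.nd (.nd (.lf (nat_lit 0x290))
(.lf (nat_lit 0x117)))
(.lf (nat_lit 0x55)))
(.nd (.lf (nat_lit 0x27a))
(.lf (nat_lit 0x58)))))
(.nd (.nd (.nd (.nd (.lf (nat_lit 0x1a2))
(.lf (nat_lit 0x165)))
(.lf (nat_lit 0x21d)))
(.nd (.nd (.lf (nat_lit 0x12c))
(.lf (nat_lit 0x1fc)))
(.lf (nat_lit 0x287))))
(.nd (.nd (.nd (.lf (nat_lit 0x2a))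
(.lf (nat_lit 0xea)))
(.lf (nat_lit 0x16f)))
(.nd (.lf (nat_lit 0x2d))
(.lf (nat_lit 0x57))))))
(.nd (.nd (.nd (.nd (.nd (.lf (nat_lit 0x143))
(.lf (nat_lit 0x130)))
(.lf (nat_lit 0xa1)))
(.nd (.nd (.lf (nat_lit 0x133))
(.lf (nat_lit 0x162)))
(.lf (nat_lit 0x12c))))
(.nd (.nd (.nd (.lf (nat_lit 0x29))
(.lf (nat_lit 0x1f4)))
(.lf (nat_lit 0x11)))
(.nd (.lf (nat_lit 0x4b))
(.lf (nat_lit 0x61)))))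
(.nd (.nd (.nd (.nd (.lf (nat_lit 0x214))
(.lf (nat_lit 3)))
(.lf (nat_lit 0x290)))
(.nd (.nd (.lf (nat_lit 0x25a))
(.lf (nat_lit 0xc)))
(.lf (nat_lit 0x1cb))))
(.nd (.nd (.nd (.lf (nat_lit 0x157))
(.lf (nat_lit 0xcd)))
(.lf (nat_lit 0xf8)))
(.nd (.lf (nat_lit 0x106))
(.lf (nat_lit 0xa0)))))))
(.nd (.nd (.nd (.nd (.nd (.nd (.lf (nat_lit 0xa2))
(.lf (nat_lit 0xce)))
(.lf (nat_lit 0x156)))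
(.nd (.nd (.lf (nat_lit 0x206))
(.lf (nat_lit 0xff)))
(.lf (nat_lit 0xca))))
(.nd (.nd (.nd (.lf (nat_lit 0x2af))
(.lf (nat_lit 0x86)))
(.lf (nat_lit 0x49)))
(.nd (.lf (nat_lit 0x10))
(.lf (nat_lit 0x11)))))
(.nd (.nd (.nd (.nd (.lf (nat_lit 0x1ba))
(.lf (nat_lit 0x226)))
(.lf (nat_lit 0x196)))
(.nd (.nd (.lf (nat_lit 0x1ca))
(.lf (nat_lit 0x80)))
(.lf (nat_lit 0x259))))
(.nd (.nd (.nd (.lf (nat_lit 0x8f))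
(.lf (nat_lit 0x1a8)))
(.lf (nat_lit 0x4e)))
(.nd (.lf (nat_lit 0x93))
(.lf (nat_lit 0xde))))))
(.nd (.nd (.nd (.nd (.nd (.lf (nat_lit 0x140))
(.lf (nat_lit 0x100)))
(.lf (nat_lit 0x1c0)))
(.nd (.nd (.lf (nat_lit 0x12d))
(.lf (nat_lit 0x199)))
(.lf (nat_lit 0x167))))
(.nd (.nd (.nd (.lf (nat_lit 0xd6))
(.lf (nat_lit 0x99)))
(.lf (nat_lit 0x97)))
(.nd (.lf (nat_lit 0x134))
(.lf (nat_lit 0x149)))))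
(.nd (.nd (.nd (.nd (.lf (nat_lit 0x1b9))
(.lf (nat_lit 0x28)))
(.lf (nat_lit 0x21b)))
(.nd (.nd (.lf (nat_lit 0x25d))
(.lf (nat_lit 0x2a)))
(.lf (nat_lit 0x21))))
(.nd (.nd (.nd (.lf (nat_lit 0x75))
(.lf (nat_lit 0xfc)))
(.lf (nat_lit 0x5e)))
(.nd (.lf (nat_lit 0x7e))
(.lf (nat_lit 0x102))))))))
(.nd (.nd (.nd (.nd (.nd (.nd (.nd (.lf (nat_lit 0x2b2))
(.lf (nat_lit 0x56)))
(.lf (nat_lit 3)))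
(.nd (.nd (.lf (nat_lit 0x2b7))
(.lf (nat_lit 0x110)))
(.lf (nat_lit 0x13))))
(.nd (.nd (.nd (.lf (nat_lit 0x6f))
(.lf (nat_lit 0x1ba)))
(.lf (nat_lit 0xa4)))
(.nd (.lf (nat_lit 0x158))
(.lf (nat_lit 0x1b0)))))
(.nd (.nd (.nd (.nd (.lf (nat_lit 0x19f))
(.lf (nat_lit 0xd8)))
(.lf (nat_lit 0xbc)))
(.nd (.nd (.lf (nat_lit 0x1b2))
(.lf (nat_lit 0xf6)))
(.lf (nat_lit 0x12))))
(.nd (.nd (.nd (.lf (nat_lit 0x175))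
(.lf (nat_lit 0x25c)))
(.lf (nat_lit 0x274)))
(.nd (.lf (nat_lit 0xff))
(.lf (nat_lit 0x218))))))
(.nd (.nd (.nd (.nd (.nd (.lf (nat_lit 0x44))
(.lf (nat_lit 0x157)))
(.lf (nat_lit 0x11)))
(.nd (.nd (.lf (nat_lit 0x1d))
(.lf (nat_lit 0xd5)))
(.lf (nat_lit 0x86))))
(.nd (.nd (.nd (.lf (nat_lit 0x15c))
(.lf (nat_lit 0x188)))
(.lf (nat_lit 0xa5)))
(.nd (.lf (nat_lit 0x5f))
(.lf (nat_lit 0x21d)))))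
(.nd (.nd (.nd (.nd (.lf (nat_lit 0x1fe))
(.lf (nat_lit 0xfa)))
(.lf (nat_lit 0x13e)))
(.nd (.nd (.lf (nat_lit 0xd5))
(.lf (nat_lit 0xbe)))
(.lf (nat_lit 0x143))))
(.nd (.nd (.nd (.lf (nat_lit 0x1bd))
(.lf (nat_lit 0xf)))
(.lf (nat_lit 0x293)))
(.nd (.lf (nat_lit 0x24a))
(.lf (nat_lit 0xa)))))))
(.nd (.nd (.nd (.nd (.nd (.nd (.lf (nat_lit 0x25c))
(.lf (nat_lit 0x40)))
(.lf (nat_lit 0x1f)))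
(.nd (.nd (.lf (nat_lit 0xa))
(.lf (nat_lit 0x93)))
(.lf (nat_lit 0x8c))))
(.nd (.nd (.nd (.lf (nat_lit 0x1d2))
(.lf (nat_lit 0x20e)))
(.lf (nat_lit 0x17f)))
(.nd (.lf (nat_lit 0x140))
(.lf (nat_lit 0x1ba)))))
(.nd (.nd (.nd (.nd (.lf (nat_lit 0x8f))
(.lf (nat_lit 0xf6)))
(.lf (nat_lit 0x75)))
(.nd (.nd (.lf (nat_lit 0x1a9))
(.lf (nat_lit 0xfa)))
(.lf (nat_lit 0x1b1))))
(.nd (.nd (.nd (.lf (nat_lit 0x29f))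
(.lf (nat_lit 0x21)))
(.lf (nat_lit 0x20c)))
(.nd (.lf (nat_lit 0x100))
(.lf (nat_lit 0x25c))))))
(.nd (.nd (.nd (.nd (.nd (.lf (nat_lit 0xaa))
(.lf (nat_lit 0x12)))
(.lf (nat_lit 0x145)))
(.nd (.nd (.lf (nat_lit 0x148))
(.lf (nat_lit 0x1b1)))
(.lf (nat_lit 0xa8))))
(.nd (.nd (.nd (.lf (nat_lit 0x14b))
(.lf (nat_lit 0x266)))
(.lf (nat_lit 0x19b)))
(.nd (.lf (nat_lit 0x275))
(.lf (nat_lit 0x23e)))))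
(.nd (.nd (.nd (.nd (.lf (nat_lit 0x88))
(.lf (nat_lit 0x1f2)))
(.lf (nat_lit 0x158)))
(.nd (.nd (.lf (nat_lit 0x6f))
(.lf (nat_lit 0x11e)))
(.lf (nat_lit 0xcd))))
(.nd (.nd (.nd (.lf (nat_lit 0x259))
(.lf (nat_lit 0x98)))
(.lf (nat_lit 0x4a)))
(.nd (.lf (nat_lit 0x26b))
(.lf (nat_lit 0x4f))))))))))
(.nd (.nd (.nd (.nd (.nd (.nd (.nd (.nd (.nd (.lf (nat_lit 0xdf))
(.lf (nat_lit 0x212)))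
(.lf (nat_lit 0x2b)))
(.nd (.nd (.lf (nat_lit 0xd1))
(.lf (nat_lit 0xcd)))
(.lf (nat_lit 0xf2))))
(.nd (.nd (.nd (.lf (nat_lit 0x255))
(.lf (nat_lit 0x3a)))
(.lf (nat_lit 0x259)))
(.nd (.lf (nat_lit 0x166))
(.lf (nat_lit 0x2ca)))))
(.nd (.nd (.nd (.nd (.lf (nat_lit 0x143))
(.lf (nat_lit 0x292)))
(.lf (nat_lit 0xa1)))
(.nd (.nd (.lf (nat_lit 0xa4))
(.lf (nat_lit 0x154)))
(.lf (nat_lit 0x204))))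
(.nd (.nd (.nd (.lf (nat_lit 7))
(.lf (nat_lit 0xf5)))
(.lf (nat_lit 0x3d)))
(.nd (.lf (nat_lit 0x1f))
(.lf (nat_lit 0x59))))))
(.nd (.nd (.nd (.nd (.nd (.lf (nat_lit 0x12))
(.lf (nat_lit 0x15e)))
(.lf (nat_lit 0xdc)))
(.nd (.nd (.lf (nat_lit 0xa2))
(.lf (nat_lit 0xce)))
(.lf (nat_lit 0x11d))))
(.nd (.nd (.nd (.lf (nat_lit 0x218))
(.lf (nat_lit 0x92)))
(.lf (nat_lit 0x18)))
(.nd (.lf (nat_lit 0x1cb))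
(.lf (nat_lit 0x26)))))
(.nd (.nd (.nd (.nd (.lf (nat_lit 0x10e))
(.lf (nat_lit 0x199)))
(.lf (nat_lit 0x1f5)))
(.nd (.nd (.lf (nat_lit 0x1ac))
(.lf (nat_lit 0x24f)))
(.lf (nat_lit 0x154))))
(.nd (.nd (.nd (.lf (nat_lit 0x92))
(.lf (nat_lit 0xf8)))
(.lf (nat_lit 0xbc)))
(.nd (.lf (nat_lit 0xd7))
(.lf (nat_lit 0x57)))))))
(.nd (.nd (.nd (.nd (.nd (.nd (.lf (nat_lit 0x1fe))
(.lf (nat_lit 0xcd)))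
(.lf (nat_lit 0xde)))
(.nd (.nd (.lf (nat_lit 0xba))
(.lf (nat_lit 0x5f)))
(.lf (nat_lit 0xc9))))
(.nd (.nd (.nd (.lf (nat_lit 0x2a0))
(.lf (nat_lit 0x45)))
(.lf (nat_lit 0x2ca)))
(.nd (.lf (nat_lit 0x245))
(.lf (nat_lit 3)))))
(.nd (.nd (.nd (.nd (.lf (nat_lit 0x190))
(.lf (nat_lit 0x2b3)))
(.lf (nat_lit 0xce)))
(.nd (.nd (.lf (nat_lit 0x12d))
(.lf (nat_lit 0x1bc)))
(.lf (nat_lit 0x25e))))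
(.nd (.nd (.nd (.lf (nat_lit 0x4f))
(.lf (nat_lit 0x3e)))
(.lf (nat_lit 0x15b)))
(.nd (.lf (nat_lit 0x10b))
(.lf (nat_lit 0xf0))))))
(.nd (.nd (.nd (.nd (.nd (.lf (nat_lit 0x51))
(.lf (nat_lit 0xa5)))
(.lf (nat_lit 0x22c)))
(.nd (.nd (.lf (nat_lit 0x271))
(.lf (nat_lit 0xff)))
(.lf (nat_lit 0x15e))))
(.nd (.nd (.nd (.lf (nat_lit 0x2a6))
(.lf (nat_lit 0x2d)))
(.lf (nat_lit 0x54)))
(.nd (.lf (nat_lit 0x3a))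
(.lf (nat_lit 0x11)))))
(.nd (.nd (.nd (.nd (.lf (nat_lit 0x14f))
(.lf (nat_lit 0x295)))
(.lf (nat_lit 0x1ab)))
(.nd (.nd (.lf (nat_lit 0x20e))
(.lf (nat_lit 6)))
(.lf (nat_lit 0x25d))))
(.nd (.nd (.nd (.lf (nat_lit 0x2d))
(.lf (nat_lit 0x13c)))
(.lf (nat_lit 0x75)))
(.nd (.lf (nat_lit 0x1ae))
(.lf (nat_lit 0x96))))))))
(.nd (.nd (.nd (.nd (.nd (.nd (.nd (.lf (nat_lit 0x28c))
(.lf (nat_lit 0x21)))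
(.lf (nat_lit 0x259)))
(.nd (.nd (.lf (nat_lit 0x1ea))
(.lf (nat_lit 0x22)))
(.lf (nat_lit 0x26d))))
(.nd (.nd (.nd (.lf (nat_lit 0x118))
(.lf (nat_lit 0x1a5)))
(.lf (nat_lit 0xe4)))
(.nd (.lf (nat_lit 0x2b))
(.lf (nat_lit 0x5e)))))
(.nd (.nd (.nd (.nd (.lf (nat_lit 0xb))
(.lf (nat_lit 0x1ae)))
(.lf (nat_lit 0x37)))
(.nd (.nd (.lf (nat_lit 0x49))
(.lf (nat_lit 0x5b)))
(.lf (nat_lit 0xeb))))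
(.nd (.nd (.nd (.lf (nat_lit 0x217))
(.lf (nat_lit 0x25a)))
(.lf (nat_lit 0x210)))
(.nd (.lf (nat_lit 0x5f))
(.lf (nat_lit 0x1b8))))))
(.nd (.nd (.nd (.nd (.nd (.lf (nat_lit 0x225))
(.lf (nat_lit 0x11)))
(.lf (nat_lit 3)))
(.nd (.nd (.lf (nat_lit 0x2c5))
(.lf (nat_lit 0x40)))
(.lf (nat_lit 0x1f))))
(.nd (.nd (.nd (.lf (nat_lit 0x146))
(.lf (nat_lit 0x210)))
(.lf (nat_lit 0xa4)))
(.nd (.lf (nat_lit 0x5e))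
(.lf (nat_lit 0xa1)))))
(.nd (.nd (.nd (.nd (.lf (nat_lit 0x30))
(.lf (nat_lit 0x9c)))
(.lf (nat_lit 0x254)))
(.nd (.nd (.lf (nat_lit 0xdf))
(.lf (nat_lit 0x7c)))
(.lf (nat_lit 0x139))))
(.nd (.nd (.nd (.lf (nat_lit 0x189))
(.lf (nat_lit 0x1cb)))
(.lf (nat_lit 0x196)))
(.nd (.lf (nat_lit 0x25e))
(.lf (nat_lit 0x1bc)))))))
(.nd (.nd (.nd (.nd (.nd (.nd (.lf (nat_lit 0x1ab))
(.lf (nat_lit 0x4b)))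
(.lf (nat_lit 0x2c8)))
(.nd (.nd (.lf (nat_lit 0x290))
(.lf (nat_lit 0x11)))
(.lf (nat_lit 0xe))))
(.nd (.nd (.nd (.lf (nat_lit 0x124))
(.lf (nat_lit 0xa1)))
(.lf (nat_lit 0x158)))
(.nd (.lf (nat_lit 0x2e))
(.lf (nat_lit 0x156)))))
(.nd (.nd (.nd (.nd (.lf (nat_lit 0x28))
(.lf (nat_lit 0x99)))
(.lf (nat_lit 0x97)))
(.nd (.nd (.lf (nat_lit 0x6b))
(.lf (nat_lit 0x9c)))
(.lf (nat_lit 0xc8))))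
(.nd (.nd (.nd (.lf (nat_lit 0x200))
(.lf (nat_lit 0x25d)))
(.lf (nat_lit 0x21d)))
(.nd (.lf (nat_lit 0x1a6))
(.lf (nat_lit 0x1bd))))))
(.nd (.nd (.nd (.nd (.nd (.lf (nat_lit 0x1cb))
(.lf (nat_lit 0x50)))
(.lf (nat_lit 0x2c)))
(.nd (.nd (.lf (nat_lit 0x33))
(.lf (nat_lit 0x1a9)))
(.lf (nat_lit 0x3d))))
(.nd (.nd (.nd (.lf (nat_lit 0x206))
(.lf (nat_lit 0x1be)))
(.lf (nat_lit 0x252)))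
(.nd (.lf (nat_lit 0x1ad))
(.lf (nat_lit 0xfb)))))
(.nd (.nd (.nd (.nd (.lf (nat_lit 0x97))
(.lf (nat_lit 0xa0)))
(.lf (nat_lit 0x2b)))
(.nd (.nd (.lf (nat_lit 0x157))
(.lf (nat_lit 0xfa)))
(.lf (nat_lit 0x9c))))
(.nd (.nd (.nd (.lf (nat_lit 0xff))
(.lf (nat_lit 0xb4)))
(.lf (nat_lit 0x24e)))
(.nd (.lf (nat_lit 0x297))
(.lf (nat_lit 0x2b5)))))))))
(.nd (.nd (.nd (.nd (.nd (.nd (.nd (.nd (.lf (nat_lit 0x143))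
(.lf (nat_lit 0x208)))
(.lf (nat_lit 0xee)))
(.nd (.nd (.lf (nat_lit 0xa4))
(.lf (nat_lit 0x154)))
(.lf (nat_lit 0x15d))))
(.nd (.nd (.nd (.lf (nat_lit 0x14))
(.lf (nat_lit 0x16f)))
(.lf (nat_lit 0x5c)))
(.nd (.lf (nat_lit 0xf))
(.lf (nat_lit 0x59)))))
(.nd (.nd (.nd (.nd (.lf (nat_lit 0x292))
(.lf (nat_lit 3)))
(.lf (nat_lit 0x2b9)))
(.nd (.nd (.lf (nat_lit 0x25f))
(.lf (nat_lit 0x4f)))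
(.lf (nat_lit 0x2ce))))
(.nd (.nd (.nd (.lf (nat_lit 0x1b7))
(.lf (nat_lit 0x15c)))
(.lf (nat_lit 0x2e)))
(.nd (.lf (nat_lit 0x48))
(.lf (nat_lit 0xa0))))))
(.nd (.nd (.nd (.nd (.nd (.lf (nat_lit 0xa1))
(.lf (nat_lit 0x199)))
(.lf (nat_lit 0x167)))
(.nd (.nd (.lf (nat_lit 0x22d))
(.lf (nat_lit 0x25c)))
(.lf (nat_lit 0x131))))
(.nd (.nd (.nd (.lf (nat_lit 0xac))
(.lf (nat_lit 0x2e)))
(.lf (nat_lit 0x5d)))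
(.nd (.lf (nat_lit 0x2d))
(.lf (nat_lit 0x52)))))
(.nd (.nd (.nd (.nd (.lf (nat_lit 0x259))
(.lf (nat_lit 0x11)))
(.lf (nat_lit 0x20)))
(.nd (.nd (.lf (nat_lit 0x21b))
(.lf (nat_lit 0x40)))
(.lf (nat_lit 0xd6))))
(.nd (.nd (.nd (.lf (nat_lit 0xcb))
(.lf (nat_lit 0xce)))
(.lf (nat_lit 0xcd)))
(.nd (.lf (nat_lit 0x1af))
(.lf (nat_lit 0x11a)))))))
(.nd (.nd (.nd (.nd (.nd (.nd (.lf (nat_lit 0x11d))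
(.lf (nat_lit 0x131)))
(.lf (nat_lit 0x1c0)))
(.nd (.nd (.lf (nat_lit 0xdd))
(.lf (nat_lit 0x294)))
(.lf (nat_lit 0x187))))
(.nd (.nd (.nd (.lf (nat_lit 8))
(.lf (nat_lit 0x5b)))
(.lf (nat_lit 0x18f)))
(.nd (.lf (nat_lit 0x53))
(.lf (nat_lit 0xf0)))))
(.nd (.nd (.nd (.nd (.lf (nat_lit 0x21e))
(.lf (nat_lit 0x54)))
(.lf (nat_lit 0x265)))
(.nd (.nd (.lf (nat_lit 0x2a7))
(.lf (nat_lit 0x56)))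
(.lf (nat_lit 0x62))))
(.nd (.nd (.nd (.lf (nat_lit 0xba))
(.lf (nat_lit 0xfc)))
(.lf (nat_lit 0x151)))
(.nd (.lf (nat_lit 0x9c))
(.lf (nat_lit 0x156))))))
(.nd (.nd (.nd (.nd (.nd (.lf (nat_lit 0x101))
(.lf (nat_lit 0x24f)))
(.lf (nat_lit 0x2aa)))
(.nd (.nd (.lf (nat_lit 0x1e9))
(.lf (nat_lit 1)))
(.lf (nat_lit 0x199))))
(.nd (.nd (.nd (.lf (nat_lit 0x13f))
(.lf (nat_lit 0xf6)))
(.lf (nat_lit 0x99)))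
(.nd (.lf (nat_lit 0x144))
(.lf (nat_lit 0x5a)))))
(.nd (.nd (.nd (.nd (.lf (nat_lit 0x2bb))
(.lf (nat_lit 0x59)))
(.lf (nat_lit 0xf)))
(.nd (.nd (.lf (nat_lit 0x21))
(.lf (nat_lit 0x9f)))
(.lf (nat_lit 0x56))))
(.nd (.nd (.nd (.lf (nat_lit 0x5e))
(.lf (nat_lit 0x1be)))
(.lf (nat_lit 0x5f)))
(.nd (.lf (nat_lit 0x190))
(.lf (nat_lit 0x14f))))))))
(.nd (.nd (.nd (.nd (.nd (.nd (.nd (.lf (nat_lit 3))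
(.lf (nat_lit 0x7b)))
(.lf (nat_lit 0x11)))
(.nd (.nd (.lf (nat_lit 0xe2))
(.lf (nat_lit 0x8d)))
(.lf (nat_lit 0x22b))))
(.nd (.nd (.nd (.lf (nat_lit 0x1d6))
(.lf (nat_lit 0x219)))
(.lf (nat_lit 0x1b4)))
(.nd (.lf (nat_lit 0x142))
(.lf (nat_lit 0x214)))))
(.nd (.nd (.nd (.nd (.lf (nat_lit 0x1a0))
(.lf (nat_lit 0x182)))
(.lf (nat_lit 0xf8)))
(.nd (.nd (.lf (nat_lit 0xc2))
(.lf (nat_lit 0xa1)))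
(.lf (nat_lit 0x15f))))
(.nd (.nd (.nd (.lf (nat_lit 0x1dc))
(.lf (nat_lit 4)))
(.lf (nat_lit 0x283)))
(.nd (.lf (nat_lit 0x1cc))
(.lf (nat_lit 3))))))
(.nd (.nd (.nd (.nd (.nd (.lf (nat_lit 0x24))
(.lf (nat_lit 0x2e)))
(.lf (nat_lit 0x1ae)))
(.nd (.nd (.lf (nat_lit 0x59))
(.lf (nat_lit 0x5e)))
(.lf (nat_lit 0x48))))
(.nd (.nd (.nd (.lf (nat_lit 0x189))
(.lf (nat_lit 0x26d)))
(.lf (nat_lit 0x232)))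
(.nd (.lf (nat_lit 0xff))
(.lf (nat_lit 0x29a)))))
(.nd (.nd (.nd (.nd (.lf (nat_lit 0x123))
(.lf (nat_lit 0xa5)))
(.lf (nat_lit 0x1bb)))
(.nd (.nd (.lf (nat_lit 0x143))
(.lf (nat_lit 0x130)))
(.lf (nat_lit 0x1d3))))
(.nd (.nd (.nd (.lf (nat_lit 0x21b))
(.lf (nat_lit 0xf1)))
(.lf (nat_lit 0x45)))
(.nd (.lf (nat_lit 3))
(.lf (nat_lit 0x53)))))))
(.nd (.nd (.nd (.nd (.nd (.nd (.lf (nat_lit 4))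
(.lf (nat_lit 0xd5)))
(.lf (nat_lit 0x86)))
(.nd (.nd (.lf (nat_lit 0xac))
(.lf (nat_lit 0x90)))
(.lf (nat_lit 0x7b))))
(.nd (.nd (.nd (.lf (nat_lit 0xcf))
(.lf (nat_lit 0x20c)))
(.lf (nat_lit 0x195)))
(.nd (.lf (nat_lit 0x14f))
(.lf (nat_lit 0x1bd)))))
(.nd (.nd (.nd (.nd (.lf (nat_lit 0x57))
(.lf (nat_lit 0x1a7)))
(.lf (nat_lit 0xef)))
(.nd (.nd (.lf (nat_lit 0xe4))
(.lf (nat_lit 0x14f)))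
(.lf (nat_lit 0xcd))))
(.nd (.nd (.nd (.lf (nat_lit 0x2c0))
(.lf (nat_lit 0x37)))
(.lf (nat_lit 0x21)))
(.nd (.lf (nat_lit 0x29b))
(.lf (nat_lit 0x28))))))
(.nd (.nd (.nd (.nd (.nd (.lf (nat_lit 0xdf))
(.lf (nat_lit 0x94)))
(.lf (nat_lit 0x5b)))
(.nd (.nd (.lf (nat_lit 0xa8))
(.lf (nat_lit 0x258)))
(.lf (nat_lit 0x78))))
(.nd (.nd (.nd (.lf (nat_lit 0x20e))
(.lf (nat_lit 0xe)))
(.lf (nat_lit 0x290)))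
(.nd (.lf (nat_lit 0x2a4))
(.lf (nat_lit 0x24f)))))
(.nd (.nd (.nd (.nd (.lf (nat_lit 0xef))
(.lf (nat_lit 0x223)))
(.lf (nat_lit 0xee)))
(.nd (.nd (.lf (nat_lit 0x15c))
(.lf (nat_lit 0x188)))
(.lf (nat_lit 0xce))))
(.nd (.nd (.nd (.lf (nat_lit 0x55))
(.lf (nat_lit 0xbc)))
(.lf (nat_lit 0x98)))
(.nd (.lf (nat_lit 0xf))
(.lf (nat_lit 0x8f))))))))))))

noncomputable def bAQ64 : BT := (.nd (.nd (.nd (.nd (.nd (.nd (.nd (.nd (.nd (.nd (.nd (.lf (nat_lit 2))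
(.lf (nat_lit 1)))
(.lf (nat_lit 1)))
(.nd (.nd (.lf (nat_lit 1))
(.lf (nat_lit 1)))
(.lf (nat_lit 0xe2))))
(.nd (.nd (.nd (.lf (nat_lit 1))
(.lf (nat_lit 0x10b)))
(.lf (nat_lit 1)))
(.nd (.nd (.lf (nat_lit 0x94))
(.lf (nat_lit 0x121)))
(.lf (nat_lit 9)))))
(.nd (.nd (.nd (.nd (.lf (nat_lit 1))
(.lf (nat_lit 0)))
(.lf (nat_lit 0x90)))
(.nd (.nd (.lf (nat_lit 0x6a))
(.lf (nat_lit 0x122)))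
(.lf (nat_lit 0xf4))))
(.nd (.nd (.nd (.lf (nat_lit 1))
(.lf (nat_lit 1)))
(.lf (nat_lit 1)))
(.nd (.lf (nat_lit 0xa7))
(.lf (nat_lit 0x35))))))
(.nd (.nd (.nd (.nd (.nd (.lf (nat_lit 0xb))
(.lf (nat_lit 9)))
(.lf (nat_lit 1)))
(.nd (.nd (.lf (nat_lit 0x5d))
(.lf (nat_lit 9)))
(.lf (nat_lit 9))))
(.nd (.nd (.nd (.lf (nat_lit 0x2e))
(.lf (nat_lit 1)))
(.lf (nat_lit 0x4c)))
(.nd (.lf (nat_lit 1))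
(.lf (nat_lit 1)))))
(.nd (.nd (.nd (.nd (.lf (nat_lit 0x1b))
(.lf (nat_lit 0x112)))
(.lf (nat_lit 0xc3)))
(.nd (.nd (.lf (nat_lit 1))
(.lf (nat_lit 1)))
(.lf (nat_lit 0xf6))))
(.nd (.nd (.nd (.lf (nat_lit 0x40))
(.lf (nat_lit 9)))
(.lf (nat_lit 9)))
(.nd (.lf (nat_lit 1))
(.lf (nat_lit 1)))))))
(.nd (.nd (.nd (.nd (.nd (.nd (.lf (nat_lit 5))
(.lf (nat_lit 9)))
(.lf (nat_lit 1)))
(.nd (.nd (.lf (nat_lit 0x59))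
(.lf (nat_lit 1)))
(.lf (nat_lit 0x9c))))
(.nd (.nd (.nd (.lf (nat_lit 0x25))
(.lf (nat_lit 0x89)))
(.lf (nat_lit 1)))
(.nd (.lf (nat_lit 0x99))
(.lf (nat_lit 0x88)))))
(.nd (.nd (.nd (.nd (.lf (nat_lit 0x19))
(.lf (nat_lit 1)))
(.lf (nat_lit 9)))
(.nd (.nd (.lf (nat_lit 0x66))
(.lf (nat_lit 1)))
(.lf (nat_lit 1))))
(.nd (.nd (.nd (.lf (nat_lit 9))
(.lf (nat_lit 1)))
(.lf (nat_lit 1)))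
(.nd (.lf (nat_lit 0))
(.lf (nat_lit 1))))))
(.nd (.nd (.nd (.nd (.nd (.lf (nat_lit 0x12))
(.lf (nat_lit 9)))
(.lf (nat_lit 1)))
(.nd (.nd (.lf (nat_lit 0x68))
(.lf (nat_lit 1)))
(.lf (nat_lit 0))))
(.nd (.nd (.nd (.lf (nat_lit 0x33))
(.lf (nat_lit 1)))
(.lf (nat_lit 9)))
(.nd (.lf (nat_lit 0x9d))
(.lf (nat_lit 1)))))
(.nd (.nd (.nd (.nd (.lf (nat_lit 0))
(.lf (nat_lit 1)))
(.lf (nat_lit 1)))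
(.nd (.nd (.lf (nat_lit 1))
(.lf (nat_lit 9)))
(.lf (nat_lit 1))))
(.nd (.nd (.nd (.lf (nat_lit 0x4a))
(.lf (nat_lit 1)))
(.lf (nat_lit 0)))
(.nd (.lf (nat_lit 0xaf))
(.lf (nat_lit 1))))))))
(.nd (.nd (.nd (.nd (.nd (.nd (.nd (.lf (nat_lit 3))
(.lf (nat_lit 1)))
(.lf (nat_lit 1)))
(.nd (.nd (.lf (nat_lit 1))
(.lf (nat_lit 9)))
(.lf (nat_lit 0xe4))))
(.nd (.nd (.nd (.lf (nat_lit 0x24))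
(.lf (nat_lit 1)))
(.lf (nat_lit 0xcd)))
(.nd (.lf (nat_lit 1))
(.lf (nat_lit 0xff)))))
(.nd (.nd (.nd (.nd (.lf (nat_lit 1))
(.lf (nat_lit 1)))
(.lf (nat_lit 0xbd)))
(.nd (.nd (.lf (nat_lit 0x6e))
(.lf (nat_lit 1)))
(.lf (nat_lit 1))))
(.nd (.nd (.nd (.lf (nat_lit 9))
(.lf (nat_lit 1)))
(.lf (nat_lit 1)))
(.nd (.lf (nat_lit 0))
(.lf (nat_lit 1))))))
(.nd (.nd (.nd (.nd (.nd (.lf (nat_lit 0x10))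
(.lf (nat_lit 0x11)))
(.lf (nat_lit 0xb7)))
(.nd (.nd (.lf (nat_lit 0x5c))
(.lf (nat_lit 0)))
(.lf (nat_lit 9))))
(.nd (.nd (.nd (.lf (nat_lit 0x30))
(.lf (nat_lit 1)))
(.lf (nat_lit 9)))
(.nd (.lf (nat_lit 0))
(.lf (nat_lit 1)))))
(.nd (.nd (.nd (.nd (.lf (nat_lit 0x1c))
(.lf (nat_lit 1)))
(.lf (nat_lit 1)))
(.nd (.nd (.lf (nat_lit 0x81))
(.lf (nat_lit 9)))
(.lf (nat_lit 0xf5))))
(.nd (.nd (.nd (.lf (nat_lit 0x47))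
(.lf (nat_lit 9)))
(.lf (nat_lit 9)))
(.nd (.lf (nat_lit 1))
(.lf (nat_lit 1)))))))
(.nd (.nd (.nd (.nd (.nd (.nd (.lf (nat_lit 6))
(.lf (nat_lit 9)))
(.lf (nat_lit 1)))
(.nd (.nd (.lf (nat_lit 0x58))
(.lf (nat_lit 0xfa)))
(.lf (nat_lit 0x8f))))
(.nd (.nd (.nd (.lf (nat_lit 0x2a))
(.lf (nat_lit 1)))
(.lf (nat_lit 1)))
(.nd (.lf (nat_lit 1))
(.lf (nat_lit 1)))))
(.nd (.nd (.nd (.nd (.lf (nat_lit 1))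
(.lf (nat_lit 1)))
(.lf (nat_lit 0xc1)))
(.nd (.nd (.lf (nat_lit 0x66))
(.lf (nat_lit 1)))
(.lf (nat_lit 1))))
(.nd (.nd (.nd (.lf (nat_lit 0x41))
(.lf (nat_lit 1)))
(.lf (nat_lit 1)))
(.nd (.lf (nat_lit 0))
(.lf (nat_lit 1))))))
(.nd (.nd (.nd (.nd (.nd (.lf (nat_lit 0x12))
(.lf (nat_lit 0x10f)))
(.lf (nat_lit 0x88)))
(.nd (.nd (.lf (nat_lit 0x64))
(.lf (nat_lit 1)))
(.lf (nat_lit 0))))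
(.nd (.nd (.nd (.lf (nat_lit 1))
(.lf (nat_lit 1)))
(.lf (nat_lit 1)))
(.nd (.lf (nat_lit 0xa5))
(.lf (nat_lit 9)))))
(.nd (.nd (.nd (.nd (.lf (nat_lit 0x22))
(.lf (nat_lit 1)))
(.lf (nat_lit 1)))
(.nd (.nd (.lf (nat_lit 0x95))
(.lf (nat_lit 1)))
(.lf (nat_lit 9))))
(.nd (.nd (.nd (.lf (nat_lit 0))
(.lf (nat_lit 1)))
(.lf (nat_lit 0)))
(.nd (.lf (nat_lit 1))
(.lf (nat_lit 1)))))))))
(.nd (.nd (.nd (.nd (.nd (.nd (.nd (.nd (.lf (nat_lit 3))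
(.lf (nat_lit 0x23)))
(.lf (nat_lit 1)))
(.nd (.nd (.lf (nat_lit 0x51))
(.lf (nat_lit 0x11d)))
(.lf (nat_lit 0xe3))))
(.nd (.nd (.nd (.lf (nat_lit 0x1f))
(.lf (nat_lit 1)))
(.lf (nat_lit 1)))
(.nd (.lf (nat_lit 0x95))
(.lf (nat_lit 1)))))
(.nd (.nd (.nd (.nd (.lf (nat_lit 1))
(.lf (nat_lit 0)))
(.lf (nat_lit 1)))
(.nd (.nd (.lf (nat_lit 0x73))
(.lf (nat_lit 1)))
(.lf (nat_lit 0xee))))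
(.nd (.nd (.nd (.lf (nat_lit 9))
(.lf (nat_lit 1)))
(.lf (nat_lit 0xdb)))
(.nd (.lf (nat_lit 0))
(.lf (nat_lit 1))))))
(.nd (.nd (.nd (.nd (.nd (.lf (nat_lit 0xc))
(.lf (nat_lit 9)))
(.lf (nat_lit 4)))
(.nd (.nd (.lf (nat_lit 0x5f))
(.lf (nat_lit 9)))
(.lf (nat_lit 9))))
(.nd (.nd (.nd (.lf (nat_lit 0x27))
(.lf (nat_lit 0x118)))
(.lf (nat_lit 9)))
(.nd (.lf (nat_lit 0x9f))
(.lf (nat_lit 1)))))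
(.nd (.nd (.nd (.nd (.lf (nat_lit 0x1b))
(.lf (nat_lit 1)))
(.lf (nat_lit 0xc2)))
(.nd (.nd (.lf (nat_lit 1))
(.lf (nat_lit 0x124)))
(.lf (nat_lit 1))))
(.nd (.nd (.nd (.lf (nat_lit 0x46))
(.lf (nat_lit 9)))
(.lf (nat_lit 0xdf)))
(.nd (.lf (nat_lit 1))
(.lf (nat_lit 1)))))))
(.nd (.nd (.nd (.nd (.nd (.nd (.lf (nat_lit 7))
(.lf (nat_lit 0x108)))
(.lf (nat_lit 0xb6)))
(.nd (.nd (.lf (nat_lit 0x57))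
(.lf (nat_lit 1)))
(.lf (nat_lit 0x9c))))
(.nd (.nd (.nd (.lf (nat_lit 0x24))
(.lf (nat_lit 1)))
(.lf (nat_lit 0x4c)))
(.nd (.lf (nat_lit 1))
(.lf (nat_lit 1)))))
(.nd (.nd (.nd (.nd (.lf (nat_lit 1))
(.lf (nat_lit 1)))
(.lf (nat_lit 9)))
(.nd (.nd (.lf (nat_lit 0x69))
(.lf (nat_lit 0x17)))
(.lf (nat_lit 1))))
(.nd (.nd (.nd (.lf (nat_lit 0x40))
(.lf (nat_lit 1)))
(.lf (nat_lit 0x90)))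
(.nd (.lf (nat_lit 0))
(.lf (nat_lit 1))))))
(.nd (.nd (.nd (.nd (.nd (.lf (nat_lit 0x12))
(.lf (nat_lit 9)))
(.lf (nat_lit 1)))
(.nd (.nd (.lf (nat_lit 0x62))
(.lf (nat_lit 9)))
(.lf (nat_lit 0xed))))
(.nd (.nd (.nd (.lf (nat_lit 0x37))
(.lf (nat_lit 1)))
(.lf (nat_lit 1)))
(.nd (.lf (nat_lit 0xa8))
(.lf (nat_lit 1)))))
(.nd (.nd (.nd (.nd (.lf (nat_lit 0))
(.lf (nat_lit 0x113)))
(.lf (nat_lit 0xc6)))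
(.nd (.nd (.lf (nat_lit 1))
(.lf (nat_lit 1)))
(.lf (nat_lit 0x11))))
(.nd (.nd (.nd (.lf (nat_lit 0))
(.lf (nat_lit 1)))
(.lf (nat_lit 0)))
(.nd (.lf (nat_lit 1))
(.lf (nat_lit 1))))))))
(.nd (.nd (.nd (.nd (.nd (.nd (.nd (.lf (nat_lit 3))
(.lf (nat_lit 9)))
(.lf (nat_lit 1)))
(.nd (.nd (.lf (nat_lit 0x54))
(.lf (nat_lit 9)))
(.lf (nat_lit 0x8f))))
(.nd (.nd (.nd (.lf (nat_lit 0x24))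
(.lf (nat_lit 1)))
(.lf (nat_lit 1)))
(.nd (.lf (nat_lit 1))
(.lf (nat_lit 1)))))
(.nd (.nd (.nd (.nd (.lf (nat_lit 0x17))
(.lf (nat_lit 1)))
(.lf (nat_lit 9)))
(.nd (.nd (.lf (nat_lit 0x69))
(.lf (nat_lit 0x1f)))
(.lf (nat_lit 1))))
(.nd (.nd (.nd (.lf (nat_lit 9))
(.lf (nat_lit 1)))
(.lf (nat_lit 1)))
(.nd (.lf (nat_lit 0))
(.lf (nat_lit 1))))))
(.nd (.nd (.nd (.nd (.nd (.lf (nat_lit 0xe))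
(.lf (nat_lit 9)))
(.lf (nat_lit 0x11)))
(.nd (.nd (.lf (nat_lit 0x64))
(.lf (nat_lit 9)))
(.lf (nat_lit 0))))
(.nd (.nd (.nd (.lf (nat_lit 0x34))
(.lf (nat_lit 1)))
(.lf (nat_lit 0)))
(.nd (.lf (nat_lit 0))
(.lf (nat_lit 1)))))
(.nd (.nd (.nd (.nd (.lf (nat_lit 1))
(.lf (nat_lit 1)))
(.lf (nat_lit 1)))
(.nd (.nd (.lf (nat_lit 1))
(.lf (nat_lit 9)))
(.lf (nat_lit 0xf5))))
(.nd (.nd (.nd (.lf (nat_lit 0x48))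
(.lf (nat_lit 1)))
(.lf (nat_lit 9)))
(.nd (.lf (nat_lit 0xaa))
(.lf (nat_lit 0x104)))))))
(.nd (.nd (.nd (.nd (.nd (.nd (.lf (nat_lit 5))
(.lf (nat_lit 0x10a)))
(.lf (nat_lit 1)))
(.nd (.nd (.lf (nat_lit 0x4e))
(.lf (nat_lit 1)))
(.lf (nat_lit 0xec))))
(.nd (.nd (.nd (.lf (nat_lit 0x28))
(.lf (nat_lit 1)))
(.lf (nat_lit 1)))
(.nd (.lf (nat_lit 1))
(.lf (nat_lit 1)))))
(.nd (.nd (.nd (.nd (.lf (nat_lit 0x1c))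
(.lf (nat_lit 1)))
(.lf (nat_lit 0xc4)))
(.nd (.nd (.lf (nat_lit 1))
(.lf (nat_lit 1)))
(.lf (nat_lit 1))))
(.nd (.nd (.nd (.lf (nat_lit 0x3a))
(.lf (nat_lit 1)))
(.lf (nat_lit 1)))
(.nd (.lf (nat_lit 1))
(.lf (nat_lit 1))))))
(.nd (.nd (.nd (.nd (.nd (.lf (nat_lit 0x15))
(.lf (nat_lit 0)))
(.lf (nat_lit 1)))
(.nd (.nd (.lf (nat_lit 0x6c))
(.lf (nat_lit 0x9c)))
(.lf (nat_lit 0xf2))))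
(.nd (.nd (.nd (.lf (nat_lit 1))
(.lf (nat_lit 1)))
(.lf (nat_lit 1)))
(.nd (.lf (nat_lit 0x89))
(.lf (nat_lit 1)))))
(.nd (.nd (.nd (.nd (.lf (nat_lit 1))
(.lf (nat_lit 1)))
(.lf (nat_lit 1)))
(.nd (.nd (.lf (nat_lit 0x94))
(.lf (nat_lit 0x125)))
(.lf (nat_lit 9))))
(.nd (.nd (.nd (.lf (nat_lit 0x4b))
(.lf (nat_lit 1)))
(.lf (nat_lit 9)))
(.nd (.lf (nat_lit 0xb1))
(.lf (nat_lit 0x107))))))))))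
(.nd (.nd (.nd (.nd (.nd (.nd (.nd (.nd (.nd (.lf (nat_lit 3))
(.lf (nat_lit 1)))
(.lf (nat_lit 1)))
(.nd (.nd (.lf (nat_lit 0x50))
(.lf (nat_lit 9)))
(.lf (nat_lit 0x9c))))
(.nd (.nd (.nd (.lf (nat_lit 1))
(.lf (nat_lit 0x9c)))
(.lf (nat_lit 0xc7)))
(.nd (.lf (nat_lit 0x96))
(.lf (nat_lit 9)))))
(.nd (.nd (.nd (.nd (.lf (nat_lit 0x16))
(.lf (nat_lit 1)))
(.lf (nat_lit 0xa0)))
(.nd (.nd (.lf (nat_lit 0x74))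
(.lf (nat_lit 1)))
(.lf (nat_lit 1))))
(.nd (.nd (.nd (.lf (nat_lit 0x35))
(.lf (nat_lit 1)))
(.lf (nat_lit 1)))
(.nd (.lf (nat_lit 0xab))
(.lf (nat_lit 1))))))
(.nd (.nd (.nd (.nd (.nd (.lf (nat_lit 0xf))
(.lf (nat_lit 9)))
(.lf (nat_lit 0)))
(.nd (.nd (.lf (nat_lit 0x4c))
(.lf (nat_lit 9)))
(.lf (nat_lit 9))))
(.nd (.nd (.nd (.lf (nat_lit 0x27))
(.lf (nat_lit 1)))
(.lf (nat_lit 1)))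
(.nd (.lf (nat_lit 1))
(.lf (nat_lit 1)))))
(.nd (.nd (.nd (.nd (.lf (nat_lit 0x1b))
(.lf (nat_lit 0x4c)))
(.lf (nat_lit 1)))
(.nd (.nd (.lf (nat_lit 0x84))
(.lf (nat_lit 1)))
(.lf (nat_lit 1))))
(.nd (.nd (.nd (.lf (nat_lit 0x45))
(.lf (nat_lit 0x11c)))
(.lf (nat_lit 9)))
(.nd (.lf (nat_lit 1))
(.lf (nat_lit 1)))))))
(.nd (.nd (.nd (.nd (.nd (.nd (.lf (nat_lit 6))
(.lf (nat_lit 9)))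
(.lf (nat_lit 1)))
(.nd (.nd (.lf (nat_lit 0x57))
(.lf (nat_lit 1)))
(.lf (nat_lit 0xe8))))
(.nd (.nd (.nd (.lf (nat_lit 0x23))
(.lf (nat_lit 1)))
(.lf (nat_lit 0xcf)))
(.nd (.lf (nat_lit 1))
(.lf (nat_lit 0xff)))))
(.nd (.nd (.nd (.nd (.lf (nat_lit 1))
(.lf (nat_lit 1)))
(.lf (nat_lit 9)))
(.nd (.nd (.lf (nat_lit 0x7e))
(.lf (nat_lit 1)))
(.lf (nat_lit 1))))
(.nd (.nd (.nd (.lf (nat_lit 0x43))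
(.lf (nat_lit 1)))
(.lf (nat_lit 1)))
(.nd (.lf (nat_lit 0))
(.lf (nat_lit 1))))))
(.nd (.nd (.nd (.nd (.nd (.lf (nat_lit 0))
(.lf (nat_lit 9)))
(.lf (nat_lit 0xa0)))
(.nd (.nd (.lf (nat_lit 0x60))
(.lf (nat_lit 1)))
(.lf (nat_lit 0x1e))))
(.nd (.nd (.nd (.lf (nat_lit 0x2c))
(.lf (nat_lit 1)))
(.lf (nat_lit 0xd8)))
(.nd (.lf (nat_lit 1))
(.lf (nat_lit 0x101)))))
(.nd (.nd (.nd (.nd (.lf (nat_lit 0x21))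
(.lf (nat_lit 1)))
(.lf (nat_lit 1)))
(.nd (.nd (.lf (nat_lit 1))
(.lf (nat_lit 0x124)))
(.lf (nat_lit 1))))
(.nd (.nd (.nd (.lf (nat_lit 0))
(.lf (nat_lit 0x1f)))
(.lf (nat_lit 0)))
(.nd (.lf (nat_lit 1))
(.lf (nat_lit 1))))))))
(.nd (.nd (.nd (.nd (.nd (.nd (.nd (.lf (nat_lit 3))
(.lf (nat_lit 1)))
(.lf (nat_lit 0xb3)))
(.nd (.nd (.lf (nat_lit 1))
(.lf (nat_lit 9)))
(.lf (nat_lit 0x9c))))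
(.nd (.nd (.nd (.lf (nat_lit 0x25))
(.lf (nat_lit 1)))
(.lf (nat_lit 0xca)))
(.nd (.lf (nat_lit 1))
(.lf (nat_lit 1)))))
(.nd (.nd (.nd (.nd (.lf (nat_lit 0x14))
(.lf (nat_lit 1)))
(.lf (nat_lit 9)))
(.nd (.nd (.lf (nat_lit 0x7a))
(.lf (nat_lit 1)))
(.lf (nat_lit 1))))
(.nd (.nd (.nd (.lf (nat_lit 9))
(.lf (nat_lit 1)))
(.lf (nat_lit 1)))
(.nd (.lf (nat_lit 0))
(.lf (nat_lit 1))))))
(.nd (.nd (.nd (.nd (.nd (.lf (nat_lit 0x10))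
(.lf (nat_lit 9)))
(.lf (nat_lit 0)))
(.nd (.nd (.lf (nat_lit 0x5a))
(.lf (nat_lit 0)))
(.lf (nat_lit 1))))
(.nd (.nd (.nd (.lf (nat_lit 0x31))
(.lf (nat_lit 1)))
(.lf (nat_lit 0)))
(.nd (.lf (nat_lit 0))
(.lf (nat_lit 0x100)))))
(.nd (.nd (.nd (.nd (.lf (nat_lit 0))
(.lf (nat_lit 0x11)))
(.lf (nat_lit 1)))
(.nd (.nd (.lf (nat_lit 0x8b))
(.lf (nat_lit 9)))
(.lf (nat_lit 1))))
(.nd (.nd (.nd (.lf (nat_lit 0x46))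
(.lf (nat_lit 9)))
(.lf (nat_lit 9)))
(.nd (.lf (nat_lit 1))
(.lf (nat_lit 1)))))))
(.nd (.nd (.nd (.nd (.nd (.nd (.lf (nat_lit 8))
(.lf (nat_lit 9)))
(.lf (nat_lit 0xb4)))
(.nd (.nd (.lf (nat_lit 0x4d))
(.lf (nat_lit 1)))
(.lf (nat_lit 0xe7))))
(.nd (.nd (.nd (.lf (nat_lit 0x2d))
(.lf (nat_lit 1)))
(.lf (nat_lit 0xd2)))
(.nd (.lf (nat_lit 1))
(.lf (nat_lit 1)))))
(.nd (.nd (.nd (.nd (.lf (nat_lit 0x1c))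
(.lf (nat_lit 1)))
(.lf (nat_lit 1)))
(.nd (.nd (.lf (nat_lit 0x82))
(.lf (nat_lit 1)))
(.lf (nat_lit 0x3a))))
(.nd (.nd (.nd (.lf (nat_lit 0x43))
(.lf (nat_lit 1)))
(.lf (nat_lit 0x69)))
(.nd (.lf (nat_lit 0))
(.lf (nat_lit 1))))))
(.nd (.nd (.nd (.nd (.nd (.lf (nat_lit 0x12))
(.lf (nat_lit 1)))
(.lf (nat_lit 1)))
(.nd (.nd (.lf (nat_lit 0x5e))
(.lf (nat_lit 1)))
(.lf (nat_lit 1))))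
(.nd (.nd (.nd (.lf (nat_lit 0x38))
(.lf (nat_lit 1)))
(.lf (nat_lit 1)))
(.nd (.lf (nat_lit 0xa6))
(.lf (nat_lit 9)))))
(.nd (.nd (.nd (.nd (.lf (nat_lit 1))
(.lf (nat_lit 1)))
(.lf (nat_lit 1)))
(.nd (.nd (.lf (nat_lit 0x92))
(.lf (nat_lit 1)))
(.lf (nat_lit 9))))
(.nd (.nd (.nd (.lf (nat_lit 0))
(.lf (nat_lit 1)))
(.lf (nat_lit 0xde)))
(.nd (.lf (nat_lit 1))
(.lf (nat_lit 1)))))))))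
(.nd (.nd (.nd (.nd (.nd (.nd (.nd (.nd (.lf (nat_lit 3))
(.lf (nat_lit 0x106)))
(.lf (nat_lit 1)))
(.nd (.nd (.lf (nat_lit 1))
(.lf (nat_lit 9)))
(.lf (nat_lit 0xe1))))
(.nd (.nd (.nd (.lf (nat_lit 1))
(.lf (nat_lit 1)))
(.lf (nat_lit 1)))
(.nd (.lf (nat_lit 0x98))
(.lf (nat_lit 0x88)))))
(.nd (.nd (.nd (.nd (.lf (nat_lit 1))
(.lf (nat_lit 1)))
(.lf (nat_lit 0x88)))
(.nd (.nd (.lf (nat_lit 0x70))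
(.lf (nat_lit 1)))
(.lf (nat_lit 1))))
(.nd (.nd (.nd (.lf (nat_lit 9))
(.lf (nat_lit 1)))
(.lf (nat_lit 0xd5)))
(.nd (.lf (nat_lit 0))
(.lf (nat_lit 1))))))
(.nd (.nd (.nd (.nd (.nd (.lf (nat_lit 0xf))
(.lf (nat_lit 9)))
(.lf (nat_lit 1)))
(.nd (.nd (.lf (nat_lit 0x5b))
(.lf (nat_lit 1)))
(.lf (nat_lit 9))))
(.nd (.nd (.nd (.lf (nat_lit 0x2c))
(.lf (nat_lit 0x117)))
(.lf (nat_lit 0)))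
(.nd (.lf (nat_lit 0))
(.lf (nat_lit 1)))))
(.nd (.nd (.nd (.nd (.lf (nat_lit 0x1c))
(.lf (nat_lit 1)))
(.lf (nat_lit 1)))
(.nd (.nd (.lf (nat_lit 1))
(.lf (nat_lit 9)))
(.lf (nat_lit 0xf8))))
(.nd (.nd (.nd (.lf (nat_lit 0x47))
(.lf (nat_lit 9)))
(.lf (nat_lit 9)))
(.nd (.lf (nat_lit 1))
(.lf (nat_lit 1)))))))
(.nd (.nd (.nd (.nd (.nd (.nd (.lf (nat_lit 8))
(.lf (nat_lit 9)))
(.lf (nat_lit 1)))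
(.nd (.nd (.lf (nat_lit 0x59))
(.lf (nat_lit 9)))
(.lf (nat_lit 0x9c))))
(.nd (.nd (.nd (.lf (nat_lit 0x26))
(.lf (nat_lit 1)))
(.lf (nat_lit 0xd4)))
(.nd (.lf (nat_lit 1))
(.lf (nat_lit 1)))))
(.nd (.nd (.nd (.nd (.lf (nat_lit 0x1a))
(.lf (nat_lit 0x111)))
(.lf (nat_lit 9)))
(.nd (.nd (.lf (nat_lit 0x7f))
(.lf (nat_lit 1)))
(.lf (nat_lit 1))))
(.nd (.nd (.nd (.lf (nat_lit 0x44))
(.lf (nat_lit 1)))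
(.lf (nat_lit 0x66)))
(.nd (.lf (nat_lit 0))
(.lf (nat_lit 1))))))
(.nd (.nd (.nd (.nd (.nd (.lf (nat_lit 0x13))
(.lf (nat_lit 9)))
(.lf (nat_lit 1)))
(.nd (.nd (.lf (nat_lit 0x68))
(.lf (nat_lit 0x120)))
(.lf (nat_lit 1))))
(.nd (.nd (.nd (.lf (nat_lit 0x36))
(.lf (nat_lit 1)))
(.lf (nat_lit 1)))
(.nd (.lf (nat_lit 0xa7))
(.lf (nat_lit 1)))))
(.nd (.nd (.nd (.nd (.lf (nat_lit 0))
(.lf (nat_lit 1)))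
(.lf (nat_lit 0xc8)))
(.nd (.nd (.lf (nat_lit 0x8a))
(.lf (nat_lit 1)))
(.lf (nat_lit 9))))
(.nd (.nd (.nd (.lf (nat_lit 0))
(.lf (nat_lit 1)))
(.lf (nat_lit 0)))
(.nd (.lf (nat_lit 0xa1))
(.lf (nat_lit 1))))))))
(.nd (.nd (.nd (.nd (.nd (.nd (.nd (.lf (nat_lit 2))
(.lf (nat_lit 9)))
(.lf (nat_lit 0xb5)))
(.nd (.nd (.lf (nat_lit 0x4f))
(.lf (nat_lit 9)))
(.lf (nat_lit 0xe9))))
(.nd (.nd (.nd (.lf (nat_lit 0x23))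
(.lf (nat_lit 1)))
(.lf (nat_lit 1)))
(.nd (.lf (nat_lit 1))
(.lf (nat_lit 1)))))
(.nd (.nd (.nd (.nd (.lf (nat_lit 1))
(.lf (nat_lit 1)))
(.lf (nat_lit 0xbf)))
(.nd (.nd (.lf (nat_lit 0x7c))
(.lf (nat_lit 1)))
(.lf (nat_lit 1))))
(.nd (.nd (.nd (.lf (nat_lit 0x3c))
(.lf (nat_lit 1)))
(.lf (nat_lit 0xd9)))
(.nd (.lf (nat_lit 0xab))
(.lf (nat_lit 0x35))))))
(.nd (.nd (.nd (.nd (.nd (.lf (nat_lit 0))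
(.lf (nat_lit 0xe5)))
(.lf (nat_lit 1)))
(.nd (.nd (.lf (nat_lit 0x63))
(.lf (nat_lit 1)))
(.lf (nat_lit 1))))
(.nd (.nd (.nd (.lf (nat_lit 0x32))
(.lf (nat_lit 0x10b)))
(.lf (nat_lit 0)))
(.nd (.lf (nat_lit 0))
(.lf (nat_lit 1)))))
(.nd (.nd (.nd (.nd (.lf (nat_lit 0x20))
(.lf (nat_lit 1)))
(.lf (nat_lit 1)))
(.nd (.nd (.lf (nat_lit 0x8e))
(.lf (nat_lit 9)))
(.lf (nat_lit 1))))
(.nd (.nd (.nd (.lf (nat_lit 0x47))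
(.lf (nat_lit 0x2c)))
(.lf (nat_lit 9)))
(.nd (.lf (nat_lit 1))
(.lf (nat_lit 1)))))))
(.nd (.nd (.nd (.nd (.nd (.nd (.lf (nat_lit 0xa))
(.lf (nat_lit 9)))
(.lf (nat_lit 1)))
(.nd (.nd (.lf (nat_lit 0x5a))
(.lf (nat_lit 0x11f)))
(.lf (nat_lit 9))))
(.nd (.nd (.nd (.lf (nat_lit 0x28))
(.lf (nat_lit 1)))
(.lf (nat_lit 1)))
(.nd (.lf (nat_lit 1))
(.lf (nat_lit 1)))))
(.nd (.nd (.nd (.nd (.lf (nat_lit 0x1d))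
(.lf (nat_lit 1)))
(.lf (nat_lit 1)))
(.nd (.nd (.lf (nat_lit 0x85))
(.lf (nat_lit 0x123)))
(.lf (nat_lit 0x87))))
(.nd (.nd (.nd (.lf (nat_lit 0x3d))
(.lf (nat_lit 9)))
(.lf (nat_lit 1)))
(.nd (.lf (nat_lit 0))
(.lf (nat_lit 0x104))))))
(.nd (.nd (.nd (.nd (.nd (.lf (nat_lit 0x16))
(.lf (nat_lit 1)))
(.lf (nat_lit 1)))
(.nd (.nd (.lf (nat_lit 0x77))
(.lf (nat_lit 0x9c)))
(.lf (nat_lit 1))))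
(.nd (.nd (.nd (.lf (nat_lit 1))
(.lf (nat_lit 1)))
(.lf (nat_lit 0xd8)))
(.nd (.lf (nat_lit 0xa6))
(.lf (nat_lit 9)))))
(.nd (.nd (.nd (.nd (.lf (nat_lit 1))
(.lf (nat_lit 0x10c)))
(.lf (nat_lit 1)))
(.nd (.nd (.lf (nat_lit 0x93))
(.lf (nat_lit 0x121)))
(.lf (nat_lit 0xfc))))
(.nd (.nd (.nd (.lf (nat_lit 1))
(.lf (nat_lit 1)))
(.lf (nat_lit 0x9c)))
(.nd (.lf (nat_lit 0xb2))
(.lf (nat_lit 0x23)))))))))))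
(.nd (.nd (.nd (.nd (.nd (.nd (.nd (.nd (.nd (.nd (.lf (nat_lit 3))
(.lf (nat_lit 0x23)))
(.lf (nat_lit 1)))
(.nd (.nd (.lf (nat_lit 0x53))
(.lf (nat_lit 1)))
(.lf (nat_lit 0xe1))))
(.nd (.nd (.nd (.lf (nat_lit 1))
(.lf (nat_lit 0x10c)))
(.lf (nat_lit 0xc7)))
(.nd (.nd (.lf (nat_lit 0x95))
(.lf (nat_lit 0x125)))
(.lf (nat_lit 9)))))
(.nd (.nd (.nd (.nd (.lf (nat_lit 0x16))
(.lf (nat_lit 0)))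
(.lf (nat_lit 0xa1)))
(.nd (.nd (.lf (nat_lit 0x71))
(.lf (nat_lit 1)))
(.lf (nat_lit 1))))
(.nd (.nd (.nd (.lf (nat_lit 1))
(.lf (nat_lit 1)))
(.lf (nat_lit 1)))
(.nd (.lf (nat_lit 0xa4))
(.lf (nat_lit 1))))))
(.nd (.nd (.nd (.nd (.nd (.lf (nat_lit 0xf))
(.lf (nat_lit 9)))
(.lf (nat_lit 0)))
(.nd (.nd (.lf (nat_lit 0x5b))
(.lf (nat_lit 9)))
(.lf (nat_lit 0xec))))
(.nd (.nd (.nd (.lf (nat_lit 0x2a))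
(.lf (nat_lit 1)))
(.lf (nat_lit 1)))
(.nd (.lf (nat_lit 1))
(.lf (nat_lit 1)))))
(.nd (.nd (.nd (.nd (.lf (nat_lit 0x1d))
(.lf (nat_lit 0x4c)))
(.lf (nat_lit 1)))
(.nd (.nd (.lf (nat_lit 1))
(.lf (nat_lit 1)))
(.lf (nat_lit 1))))
(.nd (.nd (.nd (.lf (nat_lit 0x48))
(.lf (nat_lit 9)))
(.lf (nat_lit 0xe0)))
(.nd (.lf (nat_lit 1))
(.lf (nat_lit 1)))))))
(.nd (.nd (.nd (.nd (.nd (.nd (.lf (nat_lit 4))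
(.lf (nat_lit 9)))
(.lf (nat_lit 1)))
(.nd (.nd (.lf (nat_lit 0x59))
(.lf (nat_lit 1)))
(.lf (nat_lit 0xe7))))
(.nd (.nd (.nd (.lf (nat_lit 0x25))
(.lf (nat_lit 1)))
(.lf (nat_lit 0xcb)))
(.nd (.lf (nat_lit 1))
(.lf (nat_lit 0x9a)))))
(.nd (.nd (.nd (.nd (.lf (nat_lit 1))
(.lf (nat_lit 1)))
(.lf (nat_lit 9)))
(.nd (.nd (.lf (nat_lit 0x79))
(.lf (nat_lit 1)))
(.lf (nat_lit 1))))
(.nd (.nd (.nd (.lf (nat_lit 9))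
(.lf (nat_lit 1)))
(.lf (nat_lit 5)))
(.nd (.lf (nat_lit 0xac))
(.lf (nat_lit 1))))))
(.nd (.nd (.nd (.nd (.nd (.lf (nat_lit 0))
(.lf (nat_lit 9)))
(.lf (nat_lit 0xb8)))
(.nd (.nd (.lf (nat_lit 0x61))
(.lf (nat_lit 1)))
(.lf (nat_lit 0))))
(.nd (.nd (.nd (.lf (nat_lit 0x31))
(.lf (nat_lit 1)))
(.lf (nat_lit 9)))
(.nd (.lf (nat_lit 1))
(.lf (nat_lit 1)))))
(.nd (.nd (.nd (.nd (.lf (nat_lit 0))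
(.lf (nat_lit 1)))
(.lf (nat_lit 0xc6)))
(.nd (.nd (.lf (nat_lit 0x8c))
(.lf (nat_lit 9)))
(.lf (nat_lit 1))))
(.nd (.nd (.nd (.lf (nat_lit 0x49))
(.lf (nat_lit 1)))
(.lf (nat_lit 0)))
(.nd (.lf (nat_lit 1))
(.lf (nat_lit 1))))))))
(.nd (.nd (.nd (.nd (.nd (.nd (.nd (.lf (nat_lit 2))
(.lf (nat_lit 0x106)))
(.lf (nat_lit 0x50)))
(.nd (.nd (.lf (nat_lit 1))
(.lf (nat_lit 0x26)))
(.lf (nat_lit 0xbb))))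
(.nd (.nd (.nd (.lf (nat_lit 0x23))
(.lf (nat_lit 0x1f)))
(.lf (nat_lit 0xce)))
(.nd (.lf (nat_lit 1))
(.lf (nat_lit 0xfd)))))
(.nd (.nd (.nd (.nd (.lf (nat_lit 1))
(.lf (nat_lit 1)))
(.lf (nat_lit 9)))
(.nd (.nd (.lf (nat_lit 0x75))
(.lf (nat_lit 1)))
(.lf (nat_lit 1))))
(.nd (.nd (.nd (.lf (nat_lit 9))
(.lf (nat_lit 1)))
(.lf (nat_lit 1)))
(.nd (.lf (nat_lit 0))
(.lf (nat_lit 0x35))))))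
(.nd (.nd (.nd (.nd (.nd (.lf (nat_lit 0x10))
(.lf (nat_lit 9)))
(.lf (nat_lit 0)))
(.nd (.nd (.lf (nat_lit 0x4c))
(.lf (nat_lit 0)))
(.lf (nat_lit 0xe5))))
(.nd (.nd (.nd (.lf (nat_lit 0x32))
(.lf (nat_lit 1)))
(.lf (nat_lit 0)))
(.nd (.lf (nat_lit 0x9f))
(.lf (nat_lit 1)))))
(.nd (.nd (.nd (.nd (.lf (nat_lit 0))
(.lf (nat_lit 1)))
(.lf (nat_lit 1)))
(.nd (.nd (.lf (nat_lit 0x80))
(.lf (nat_lit 9)))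
(.lf (nat_lit 1))))
(.nd (.nd (.nd (.lf (nat_lit 0x46))
(.lf (nat_lit 9)))
(.lf (nat_lit 9)))
(.nd (.lf (nat_lit 1))
(.lf (nat_lit 1)))))))
(.nd (.nd (.nd (.nd (.nd (.nd (.lf (nat_lit 8))
(.lf (nat_lit 0x11)))
(.lf (nat_lit 1)))
(.nd (.nd (.lf (nat_lit 0x4d))
(.lf (nat_lit 1)))
(.lf (nat_lit 0xe6))))
(.nd (.nd (.nd (.lf (nat_lit 0x2e))
(.lf (nat_lit 1)))
(.lf (nat_lit 1)))
(.nd (.lf (nat_lit 0x9b))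
(.lf (nat_lit 1)))))
(.nd (.nd (.nd (.nd (.lf (nat_lit 1))
(.lf (nat_lit 1)))
(.lf (nat_lit 0xc3)))
(.nd (.nd (.lf (nat_lit 0x84))
(.lf (nat_lit 1)))
(.lf (nat_lit 1))))
(.nd (.nd (.nd (.lf (nat_lit 0x41))
(.lf (nat_lit 1)))
(.lf (nat_lit 1)))
(.nd (.lf (nat_lit 0))
(.lf (nat_lit 1))))))
(.nd (.nd (.nd (.nd (.nd (.lf (nat_lit 0))
(.lf (nat_lit 0)))
(.lf (nat_lit 0xb9)))
(.nd (.nd (.lf (nat_lit 0x61))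
(.lf (nat_lit 0x9c)))
(.lf (nat_lit 0xef))))
(.nd (.nd (.nd (.lf (nat_lit 0x36))
(.lf (nat_lit 1)))
(.lf (nat_lit 1)))
(.nd (.lf (nat_lit 0xa8))
(.lf (nat_lit 0x103)))))
(.nd (.nd (.nd (.nd (.lf (nat_lit 1))
(.lf (nat_lit 1)))
(.lf (nat_lit 1)))
(.nd (.nd (.lf (nat_lit 0x93))
(.lf (nat_lit 1)))
(.lf (nat_lit 9))))
(.nd (.nd (.nd (.lf (nat_lit 0))
(.lf (nat_lit 1)))
(.lf (nat_lit 0)))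
(.nd (.lf (nat_lit 1))
(.lf (nat_lit 1)))))))))
(.nd (.nd (.nd (.nd (.nd (.nd (.nd (.nd (.lf (nat_lit 3))
(.lf (nat_lit 1)))
(.lf (nat_lit 1)))
(.nd (.nd (.lf (nat_lit 1))
(.lf (nat_lit 9)))
(.lf (nat_lit 0xe1))))
(.nd (.nd (.nd (.lf (nat_lit 1))
(.lf (nat_lit 0x115)))
(.lf (nat_lit 1)))
(.nd (.lf (nat_lit 0x94))
(.lf (nat_lit 1)))))
(.nd (.nd (.nd (.nd (.lf (nat_lit 0x15))
(.lf (nat_lit 0)))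
(.lf (nat_lit 1)))
(.nd (.nd (.lf (nat_lit 0x76))
(.lf (nat_lit 0x122)))
(.lf (nat_lit 0xf3))))
(.nd (.nd (.nd (.lf (nat_lit 9))
(.lf (nat_lit 1)))
(.lf (nat_lit 0xda)))
(.nd (.lf (nat_lit 0))
(.lf (nat_lit 1))))))
(.nd (.nd (.nd (.nd (.nd (.lf (nat_lit 0xf))
(.lf (nat_lit 9)))
(.lf (nat_lit 1)))
(.nd (.nd (.lf (nat_lit 0x5d))
(.lf (nat_lit 1)))
(.lf (nat_lit 9))))
(.nd (.nd (.nd (.lf (nat_lit 0x31))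
(.lf (nat_lit 0x9c)))
(.lf (nat_lit 0)))
(.nd (.lf (nat_lit 0x9e))
(.lf (nat_lit 1)))))
(.nd (.nd (.nd (.nd (.lf (nat_lit 0x1c))
(.lf (nat_lit 1)))
(.lf (nat_lit 1)))
(.nd (.nd (.lf (nat_lit 1))
(.lf (nat_lit 9)))
(.lf (nat_lit 0x8f))))
(.nd (.nd (.nd (.lf (nat_lit 0x47))
(.lf (nat_lit 9)))
(.lf (nat_lit 9)))
(.nd (.lf (nat_lit 0xaa))
(.lf (nat_lit 1)))))))
(.nd (.nd (.nd (.nd (.nd (.nd (.lf (nat_lit 6))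
(.lf (nat_lit 9)))
(.lf (nat_lit 1)))
(.nd (.nd (.lf (nat_lit 0x57))
(.lf (nat_lit 1)))
(.lf (nat_lit 0x9c))))
(.nd (.nd (.nd (.lf (nat_lit 0x24))
(.lf (nat_lit 1)))
(.lf (nat_lit 1)))
(.nd (.lf (nat_lit 1))
(.lf (nat_lit 1)))))
(.nd (.nd (.nd (.nd (.lf (nat_lit 1))
(.lf (nat_lit 1)))
(.lf (nat_lit 9)))
(.nd (.nd (.lf (nat_lit 0x7a))
(.lf (nat_lit 0x123)))
(.lf (nat_lit 1))))
(.nd (.nd (.nd (.lf (nat_lit 0x42))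
(.lf (nat_lit 1)))
(.lf (nat_lit 1)))
(.nd (.lf (nat_lit 0))
(.lf (nat_lit 1))))))
(.nd (.nd (.nd (.nd (.nd (.lf (nat_lit 0))
(.lf (nat_lit 0x10d)))
(.lf (nat_lit 1)))
(.nd (.nd (.lf (nat_lit 0x62))
(.lf (nat_lit 9)))
(.lf (nat_lit 0))))
(.nd (.nd (.nd (.lf (nat_lit 0x38))
(.lf (nat_lit 1)))
(.lf (nat_lit 1)))
(.nd (.lf (nat_lit 0xa9))
(.lf (nat_lit 1)))))
(.nd (.nd (.nd (.nd (.lf (nat_lit 0))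
(.lf (nat_lit 1)))
(.lf (nat_lit 1)))
(.nd (.nd (.lf (nat_lit 1))
(.lf (nat_lit 1)))
(.lf (nat_lit 0xfa))))
(.nd (.nd (.nd (.lf (nat_lit 0x4a))
(.lf (nat_lit 0x26)))
(.lf (nat_lit 0)))
(.nd (.lf (nat_lit 0x90))
(.lf (nat_lit 1))))))))
(.nd (.nd (.nd (.nd (.nd (.nd (.nd (.lf (nat_lit 3))
(.lf (nat_lit 9)))
(.lf (nat_lit 1)))
(.nd (.nd (.lf (nat_lit 0x56))
(.lf (nat_lit 9)))
(.lf (nat_lit 0xe6))))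
(.nd (.nd (.nd (.lf (nat_lit 0x25))
(.lf (nat_lit 0x11)))
(.lf (nat_lit 1)))
(.nd (.lf (nat_lit 1))
(.lf (nat_lit 1)))))
(.nd (.nd (.nd (.nd (.lf (nat_lit 1))
(.lf (nat_lit 1)))
(.lf (nat_lit 9)))
(.nd (.nd (.lf (nat_lit 0x7b))
(.lf (nat_lit 1)))
(.lf (nat_lit 0x11))))
(.nd (.nd (.nd (.lf (nat_lit 9))
(.lf (nat_lit 1)))
(.lf (nat_lit 0x83)))
(.nd (.lf (nat_lit 0))
(.lf (nat_lit 1))))))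
(.nd (.nd (.nd (.nd (.nd (.lf (nat_lit 0x13))
(.lf (nat_lit 0x10e)))
(.lf (nat_lit 1)))
(.nd (.nd (.lf (nat_lit 0x5e))
(.lf (nat_lit 0x120)))
(.lf (nat_lit 0))))
(.nd (.nd (.nd (.lf (nat_lit 0x30))
(.lf (nat_lit 0x9c)))
(.lf (nat_lit 0)))
(.nd (.lf (nat_lit 0))
(.lf (nat_lit 1)))))
(.nd (.nd (.nd (.nd (.lf (nat_lit 0x1e))
(.lf (nat_lit 1)))
(.lf (nat_lit 1)))
(.nd (.nd (.lf (nat_lit 0x8d))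
(.lf (nat_lit 0x124)))
(.lf (nat_lit 1))))
(.nd (.nd (.nd (.lf (nat_lit 0x48))
(.lf (nat_lit 1)))
(.lf (nat_lit 0xdf)))
(.nd (.lf (nat_lit 0xae))
(.lf (nat_lit 0x4f)))))))
(.nd (.nd (.nd (.nd (.nd (.nd (.lf (nat_lit 7))
(.lf (nat_lit 9)))
(.lf (nat_lit 0)))
(.nd (.nd (.lf (nat_lit 0x4c))
(.lf (nat_lit 1)))
(.lf (nat_lit 9))))
(.nd (.nd (.nd (.lf (nat_lit 0x2b))
(.lf (nat_lit 1)))
(.lf (nat_lit 0x4c)))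
(.nd (.lf (nat_lit 1))
(.lf (nat_lit 1)))))
(.nd (.nd (.nd (.nd (.lf (nat_lit 0x1b))
(.lf (nat_lit 1)))
(.lf (nat_lit 0xc5)))
(.nd (.nd (.lf (nat_lit 1))
(.lf (nat_lit 1)))
(.lf (nat_lit 1))))
(.nd (.nd (.nd (.lf (nat_lit 0x3e))
(.lf (nat_lit 9)))
(.lf (nat_lit 1)))
(.nd (.lf (nat_lit 0))
(.lf (nat_lit 1))))))
(.nd (.nd (.nd (.nd (.nd (.lf (nat_lit 0x16))
(.lf (nat_lit 0)))
(.lf (nat_lit 1)))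
(.nd (.nd (.lf (nat_lit 0x72))
(.lf (nat_lit 1)))
(.lf (nat_lit 1))))
(.nd (.nd (.nd (.lf (nat_lit 0x39))
(.lf (nat_lit 1)))
(.lf (nat_lit 0xdc)))
(.nd (.lf (nat_lit 0xa2))
(.lf (nat_lit 0x102)))))
(.nd (.nd (.nd (.nd (.lf (nat_lit 1))
(.lf (nat_lit 0x9c)))
(.lf (nat_lit 1)))
(.nd (.nd (.lf (nat_lit 0x92))
(.lf (nat_lit 0x121)))
(.lf (nat_lit 9))))
(.nd (.nd (.nd (.lf (nat_lit 1))
(.lf (nat_lit 1)))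
(.lf (nat_lit 0xbb)))
(.nd (.lf (nat_lit 0xb0))
(.lf (nat_lit 1))))))))))
(.nd (.nd (.nd (.nd (.nd (.nd (.nd (.nd (.nd (.lf (nat_lit 3))
(.lf (nat_lit 1)))
(.lf (nat_lit 1)))
(.nd (.nd (.lf (nat_lit 0x55))
(.lf (nat_lit 9)))
(.lf (nat_lit 0xe2))))
(.nd (.nd (.nd (.lf (nat_lit 0x1f))
(.lf (nat_lit 0x89)))
(.lf (nat_lit 1)))
(.nd (.lf (nat_lit 0x91))
(.lf (nat_lit 0xfb)))))
(.nd (.nd (.nd (.nd (.lf (nat_lit 1))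
(.lf (nat_lit 1)))
(.lf (nat_lit 1)))
(.nd (.nd (.lf (nat_lit 0x6d))
(.lf (nat_lit 1)))
(.lf (nat_lit 1))))
(.nd (.nd (.nd (.lf (nat_lit 0x3b))
(.lf (nat_lit 1)))
(.lf (nat_lit 0xd6)))
(.nd (.lf (nat_lit 0))
(.lf (nat_lit 1))))))
(.nd (.nd (.nd (.nd (.nd (.lf (nat_lit 0xb))
(.lf (nat_lit 9)))
(.lf (nat_lit 0)))
(.nd (.nd (.lf (nat_lit 0x5d))
(.lf (nat_lit 9)))
(.lf (nat_lit 9))))
(.nd (.nd (.nd (.lf (nat_lit 0x2f))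
(.lf (nat_lit 0x10c)))
(.lf (nat_lit 0xd7)))
(.nd (.lf (nat_lit 1))
(.lf (nat_lit 1)))))
(.nd (.nd (.nd (.nd (.lf (nat_lit 0x1d))
(.lf (nat_lit 0x111)))
(.lf (nat_lit 0xc1)))
(.nd (.nd (.lf (nat_lit 1))
(.lf (nat_lit 0x10b)))
(.lf (nat_lit 1))))
(.nd (.nd (.nd (.lf (nat_lit 0x47))
(.lf (nat_lit 9)))
(.lf (nat_lit 9)))
(.nd (.lf (nat_lit 0x83))
(.lf (nat_lit 1)))))))
(.nd (.nd (.nd (.nd (.nd (.nd (.lf (nat_lit 6))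
(.lf (nat_lit 9)))
(.lf (nat_lit 1)))
(.nd (.nd (.lf (nat_lit 0x59))
(.lf (nat_lit 1)))
(.lf (nat_lit 0xea))))
(.nd (.nd (.nd (.lf (nat_lit 0x24))
(.lf (nat_lit 1)))
(.lf (nat_lit 0xd0)))
(.nd (.lf (nat_lit 0x97))
(.lf (nat_lit 1)))))
(.nd (.nd (.nd (.nd (.lf (nat_lit 0x1a))
(.lf (nat_lit 1)))
(.lf (nat_lit 9)))
(.nd (.nd (.lf (nat_lit 0x7b))
(.lf (nat_lit 1)))
(.lf (nat_lit 1))))
(.nd (.nd (.nd (.lf (nat_lit 0x3e))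
(.lf (nat_lit 0x11a)))
(.lf (nat_lit 1)))
(.nd (.lf (nat_lit 0xac))
(.lf (nat_lit 1))))))
(.nd (.nd (.nd (.nd (.nd (.lf (nat_lit 0))
(.lf (nat_lit 9)))
(.lf (nat_lit 0xa1)))
(.nd (.nd (.lf (nat_lit 0x63))
(.lf (nat_lit 1)))
(.lf (nat_lit 1))))
(.nd (.nd (.nd (.lf (nat_lit 0x31))
(.lf (nat_lit 1)))
(.lf (nat_lit 1)))
(.nd (.lf (nat_lit 0x89))
(.lf (nat_lit 9)))))
(.nd (.nd (.nd (.nd (.lf (nat_lit 0))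
(.lf (nat_lit 1)))
(.lf (nat_lit 1)))
(.nd (.nd (.lf (nat_lit 1))
(.lf (nat_lit 0x35)))
(.lf (nat_lit 1))))
(.nd (.nd (.nd (.lf (nat_lit 0))
(.lf (nat_lit 1)))
(.lf (nat_lit 0xdd)))
(.nd (.lf (nat_lit 1))
(.lf (nat_lit 1))))))))
(.nd (.nd (.nd (.nd (.nd (.nd (.nd (.lf (nat_lit 3))
(.lf (nat_lit 0x109)))
(.lf (nat_lit 1)))
(.nd (.nd (.lf (nat_lit 0x52))
(.lf (nat_lit 9)))
(.lf (nat_lit 0x9c))))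
(.nd (.nd (.nd (.lf (nat_lit 0x25))
(.lf (nat_lit 0x115)))
(.lf (nat_lit 1)))
(.nd (.lf (nat_lit 1))
(.lf (nat_lit 1)))))
(.nd (.nd (.nd (.nd (.lf (nat_lit 0x17))
(.lf (nat_lit 1)))
(.lf (nat_lit 0xc0)))
(.nd (.nd (.lf (nat_lit 0x7d))
(.lf (nat_lit 1)))
(.lf (nat_lit 1))))
(.nd (.nd (.nd (.lf (nat_lit 9))
(.lf (nat_lit 1)))
(.lf (nat_lit 1)))
(.nd (.lf (nat_lit 0))
(.lf (nat_lit 1))))))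
(.nd (.nd (.nd (.nd (.nd (.lf (nat_lit 0x10))
(.lf (nat_lit 9)))
(.lf (nat_lit 1)))
(.nd (.nd (.lf (nat_lit 0x4c))
(.lf (nat_lit 9)))
(.lf (nat_lit 0))))
(.nd (.nd (.nd (.lf (nat_lit 0x30))
(.lf (nat_lit 1)))
(.lf (nat_lit 0)))
(.nd (.lf (nat_lit 0))
(.lf (nat_lit 1)))))
(.nd (.nd (.nd (.nd (.lf (nat_lit 0))
(.lf (nat_lit 1)))
(.lf (nat_lit 1)))
(.nd (.nd (.lf (nat_lit 1))
(.lf (nat_lit 9)))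
(.lf (nat_lit 0xf5))))
(.nd (.nd (.nd (.lf (nat_lit 0x47))
(.lf (nat_lit 0x11c)))
(.lf (nat_lit 9)))
(.nd (.lf (nat_lit 1))
(.lf (nat_lit 1)))))))
(.nd (.nd (.nd (.nd (.nd (.nd (.lf (nat_lit 5))
(.lf (nat_lit 9)))
(.lf (nat_lit 1)))
(.nd (.nd (.lf (nat_lit 0x58))
(.lf (nat_lit 0x11e)))
(.lf (nat_lit 9))))
(.nd (.nd (.nd (.lf (nat_lit 0x26))
(.lf (nat_lit 1)))
(.lf (nat_lit 0xd3)))
(.nd (.lf (nat_lit 1))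
(.lf (nat_lit 1)))))
(.nd (.nd (.nd (.nd (.lf (nat_lit 0x1b))
(.lf (nat_lit 1)))
(.lf (nat_lit 1)))
(.nd (.nd (.lf (nat_lit 0x85))
(.lf (nat_lit 1)))
(.lf (nat_lit 0x87))))
(.nd (.nd (.nd (.lf (nat_lit 0x3a))
(.lf (nat_lit 1)))
(.lf (nat_lit 5)))
(.nd (.lf (nat_lit 1))
(.lf (nat_lit 1))))))
(.nd (.nd (.nd (.nd (.nd (.lf (nat_lit 0))
(.lf (nat_lit 0)))
(.lf (nat_lit 0xbc)))
(.nd (.nd (.lf (nat_lit 0x6b))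
(.lf (nat_lit 1)))
(.lf (nat_lit 0xf0))))
(.nd (.nd (.nd (.lf (nat_lit 1))
(.lf (nat_lit 1)))
(.lf (nat_lit 1)))
(.nd (.lf (nat_lit 0xa2))
(.lf (nat_lit 1)))))
(.nd (.nd (.nd (.nd (.lf (nat_lit 1))
(.lf (nat_lit 1)))
(.lf (nat_lit 1)))
(.nd (.nd (.lf (nat_lit 0x94))
(.lf (nat_lit 1)))
(.lf (nat_lit 9))))
(.nd (.nd (.nd (.lf (nat_lit 0))
(.lf (nat_lit 0x11d)))
(.lf (nat_lit 9)))
(.nd (.lf (nat_lit 0x88))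
(.lf (nat_lit 1)))))))))
(.nd (.nd (.nd (.nd (.nd (.nd (.nd (.nd (.lf (nat_lit 3))
(.lf (nat_lit 1)))
(.lf (nat_lit 1)))
(.nd (.nd (.lf (nat_lit 1))
(.lf (nat_lit 1)))
(.lf (nat_lit 0xe1))))
(.nd (.nd (.nd (.lf (nat_lit 0x24))
(.lf (nat_lit 0x116)))
(.lf (nat_lit 0xcc)))
(.nd (.lf (nat_lit 1))
(.lf (nat_lit 0xfe)))))
(.nd (.nd (.nd (.nd (.lf (nat_lit 1))
(.lf (nat_lit 1)))
(.lf (nat_lit 0xbe)))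
(.nd (.nd (.lf (nat_lit 0x78))
(.lf (nat_lit 9)))
(.lf (nat_lit 1))))
(.nd (.nd (.nd (.lf (nat_lit 9))
(.lf (nat_lit 1)))
(.lf (nat_lit 1)))
(.nd (.lf (nat_lit 0))
(.lf (nat_lit 1))))))
(.nd (.nd (.nd (.nd (.nd (.lf (nat_lit 0xd))
(.lf (nat_lit 9)))
(.lf (nat_lit 0)))
(.nd (.nd (.lf (nat_lit 0x5d))
(.lf (nat_lit 0x11f)))
(.lf (nat_lit 9))))
(.nd (.nd (.nd (.lf (nat_lit 0x33))
(.lf (nat_lit 1)))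
(.lf (nat_lit 0)))
(.nd (.lf (nat_lit 0))
(.lf (nat_lit 1)))))
(.nd (.nd (.nd (.nd (.lf (nat_lit 0x1b))
(.lf (nat_lit 1)))
(.lf (nat_lit 0xc9)))
(.nd (.nd (.lf (nat_lit 0x86))
(.lf (nat_lit 9)))
(.lf (nat_lit 0xf5))))
(.nd (.nd (.nd (.lf (nat_lit 0x45))
(.lf (nat_lit 9)))
(.lf (nat_lit 9)))
(.nd (.lf (nat_lit 1))
(.lf (nat_lit 0x105)))))))
(.nd (.nd (.nd (.nd (.nd (.nd (.lf (nat_lit 8))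
(.lf (nat_lit 9)))
(.lf (nat_lit 1)))
(.nd (.nd (.lf (nat_lit 0x4e))
(.lf (nat_lit 9)))
(.lf (nat_lit 0xeb))))
(.nd (.nd (.nd (.lf (nat_lit 0x29))
(.lf (nat_lit 1)))
(.lf (nat_lit 0xd2)))
(.nd (.lf (nat_lit 1))
(.lf (nat_lit 1)))))
(.nd (.nd (.nd (.nd (.lf (nat_lit 0x11))
(.lf (nat_lit 1)))
(.lf (nat_lit 0xbf)))
(.nd (.nd (.lf (nat_lit 0x79))
(.lf (nat_lit 1)))
(.lf (nat_lit 0x8f))))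
(.nd (.nd (.nd (.lf (nat_lit 0x3f))
(.lf (nat_lit 1)))
(.lf (nat_lit 1)))
(.nd (.lf (nat_lit 0xad))
(.lf (nat_lit 1))))))
(.nd (.nd (.nd (.nd (.nd (.lf (nat_lit 0))
(.lf (nat_lit 9)))
(.lf (nat_lit 0xba)))
(.nd (.nd (.lf (nat_lit 0x65))
(.lf (nat_lit 0x10b)))
(.lf (nat_lit 5))))
(.nd (.nd (.nd (.lf (nat_lit 1))
(.lf (nat_lit 1)))
(.lf (nat_lit 1)))
(.nd (.lf (nat_lit 0xa3))
(.lf (nat_lit 9)))))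
(.nd (.nd (.nd (.nd (.lf (nat_lit 1))
(.lf (nat_lit 1)))
(.lf (nat_lit 1)))
(.nd (.nd (.lf (nat_lit 0x91))
(.lf (nat_lit 1)))
(.lf (nat_lit 9))))
(.nd (.nd (.nd (.lf (nat_lit 0))
(.lf (nat_lit 1)))
(.lf (nat_lit 0)))
(.nd (.lf (nat_lit 0xa0))
(.lf (nat_lit 1))))))))
(.nd (.nd (.nd (.nd (.nd (.nd (.nd (.lf (nat_lit 5))
(.lf (nat_lit 9)))
(.lf (nat_lit 1)))
(.nd (.nd (.lf (nat_lit 0x57))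
(.lf (nat_lit 0x35)))
(.lf (nat_lit 0xe8))))
(.nd (.nd (.nd (.lf (nat_lit 0x25))
(.lf (nat_lit 1)))
(.lf (nat_lit 1)))
(.nd (.lf (nat_lit 1))
(.lf (nat_lit 1)))))
(.nd (.nd (.nd (.nd (.lf (nat_lit 0x18))
(.lf (nat_lit 0x110)))
(.lf (nat_lit 9)))
(.nd (.nd (.lf (nat_lit 0x7c))
(.lf (nat_lit 1)))
(.lf (nat_lit 1))))
(.nd (.nd (.nd (.lf (nat_lit 0x3b))
(.lf (nat_lit 1)))
(.lf (nat_lit 0x9a)))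
(.nd (.lf (nat_lit 0))
(.lf (nat_lit 1))))))
(.nd (.nd (.nd (.nd (.nd (.lf (nat_lit 0))
(.lf (nat_lit 9)))
(.lf (nat_lit 1)))
(.nd (.nd (.lf (nat_lit 0x67))
(.lf (nat_lit 1)))
(.lf (nat_lit 0))))
(.nd (.nd (.nd (.lf (nat_lit 0x30))
(.lf (nat_lit 0x10c)))
(.lf (nat_lit 0xd7)))
(.nd (.lf (nat_lit 0))
(.lf (nat_lit 1)))))
(.nd (.nd (.nd (.nd (.lf (nat_lit 0x21))
(.lf (nat_lit 1)))
(.lf (nat_lit 1)))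
(.nd (.nd (.lf (nat_lit 1))
(.lf (nat_lit 9)))
(.lf (nat_lit 0xf9))))
(.nd (.nd (.nd (.lf (nat_lit 0x45))
(.lf (nat_lit 1)))
(.lf (nat_lit 9)))
(.nd (.lf (nat_lit 1))
(.lf (nat_lit 1)))))))
(.nd (.nd (.nd (.nd (.nd (.nd (.lf (nat_lit 0xc))
(.lf (nat_lit 0x11)))
(.lf (nat_lit 0)))
(.nd (.nd (.lf (nat_lit 0x5c))
(.lf (nat_lit 9)))
(.lf (nat_lit 9))))
(.nd (.nd (.nd (.lf (nat_lit 0x2d))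
(.lf (nat_lit 1)))
(.lf (nat_lit 0xd1)))
(.nd (.lf (nat_lit 1))
(.lf (nat_lit 1)))))
(.nd (.nd (.nd (.nd (.lf (nat_lit 0x1c))
(.lf (nat_lit 1)))
(.lf (nat_lit 1)))
(.nd (.nd (.lf (nat_lit 0x82))
(.lf (nat_lit 1)))
(.lf (nat_lit 0xf7))))
(.nd (.nd (.nd (.lf (nat_lit 0x42))
(.lf (nat_lit 0x11b)))
(.lf (nat_lit 9)))
(.nd (.lf (nat_lit 1))
(.lf (nat_lit 1))))))
(.nd (.nd (.nd (.nd (.nd (.lf (nat_lit 1))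
(.lf (nat_lit 0)))
(.lf (nat_lit 1)))
(.nd (.nd (.lf (nat_lit 0x6f))
(.lf (nat_lit 1)))
(.lf (nat_lit 0xf1))))
(.nd (.nd (.nd (.lf (nat_lit 1))
(.lf (nat_lit 0x119)))
(.lf (nat_lit 1)))
(.nd (.lf (nat_lit 0xa3))
(.lf (nat_lit 9)))))
(.nd (.nd (.nd (.nd (.lf (nat_lit 1))
(.lf (nat_lit 0x114)))
(.lf (nat_lit 1)))
(.nd (.nd (.lf (nat_lit 0x95))
(.lf (nat_lit 0x121)))
(.lf (nat_lit 9))))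
(.nd (.nd (.nd (.lf (nat_lit 1))
(.lf (nat_lit 9)))
(.lf (nat_lit 0xe3)))
(.nd (.lf (nat_lit 1))
(.lf (nat_lit 0x23))))))))))))

noncomputable def bSS64 : BT := (.nd (.nd (.nd (.nd (.lf (nat_lit 0xf))
(.lf (nat_lit 0x2e)))
(.nd (.lf (nat_lit 0x1e))
(.lf (nat_lit 0x39))))
(.nd (.nd (.lf (nat_lit 0x1b))
(.lf (nat_lit 0x35)))
(.nd (.lf (nat_lit 0x2b))
(.lf (nat_lit 0x3c)))))
(.nd (.nd (.nd (.lf (nat_lit 0x17))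
(.lf (nat_lit 0x33)))
(.nd (.lf (nat_lit 0x27))
(.lf (nat_lit 0x3a))))
(.nd (.nd (.lf (nat_lit 0x1d))
(.lf (nat_lit 0x36)))
(.lf (nat_lit 0x2d)))))

/-- the check -/
noncomputable def ca64 (i c : ℕ) : Bool := cArrs Y0 6 4 294 rl64 (NP0 6) (pp0 6) (jt0 6) 15 bSS64.get bAG64.get bAQ64.get i c

theorem cSS64 : ∀ S < 2 ^ 6, ((Finset.range 6).filter fun p => S.testBit p = true).card = 4 → ∃ e < 15, bSS64.get e = S := by decide +kernel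

theorem ca64_0 : ca64 0 4 = true := by decide +kernel

theorem ca64_4 : ca64 4 4 = true := by decide +kernel

theorem ca64_8 : ca64 8 4 = true := by decide +kernel

theorem ca64_12 : ca64 12 4 = true := by decide +kernel

theorem ca64_16 : ca64 16 4 = true := by decide +kernel

theorem ca64_20 : ca64 20 4 = true := by decide +kernel

theorem ca64_24 : ca64 24 4 = true := by decide +kernel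

theorem ca64_28 : ca64 28 4 = true := by decide +kernel

theorem ca64_32 : ca64 32 4 = true := by decide +kernel

theorem ca64_36 : ca64 36 4 = true := by decide +kernel

theorem ca64_40 : ca64 40 4 = true := by decide +kernel

theorem ca64_44 : ca64 44 4 = true := by decide +kernel

theorem ca64_48 : ca64 48 4 = true := by decide +kernel

theorem ca64_52 : ca64 52 4 = true := by decide +kernel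

theorem ca64_56 : ca64 56 4 = true := by decide +kernel

theorem ca64_60 : ca64 60 4 = true := by decide +kernel

theorem ca64_64 : ca64 64 4 = true := by decide +kernel

theorem ca64_68 : ca64 68 4 = true := by decide +kernel

theorem ca64_72 : ca64 72 4 = true := by decide +kernel

theorem ca64_76 : ca64 76 4 = true := by decide +kernel

theorem ca64_80 : ca64 80 4 = true := by decide +kernel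

theorem ca64_84 : ca64 84 4 = true := by decide +kernel

theorem ca64_88 : ca64 88 4 = true := by decide +kernel

theorem ca64_92 : ca64 92 2 = true := by decide +kernel

end Pool.Agent.T2h40.CW6
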