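import Pool.Agent.T2h40.CW6.WORD

/-!
# Rearranging the ends: the ends outside of the other piece come first
-/

set_option autoImplicit false

open Finset

namespace Pool.Agent.T2h40.CW6

open Pool.Agent.W420.BF (cut bd Tr Ord)

theorem t_ARR : S_WORD → S_ARR := by
  classical
  intro hW T Y n r k NR rm hT hn hnk hA V E _ s t X Z hXZ hC hk
  obtain ⟨o, ho, i, hi, hH⟩ := hC
  obtain ⟨S, hS⟩ : ∃ S, S = Nat.ofBits (fun p : Fin n => decide (o p ∉ cut s t Z)) := ⟨_, rfl⟩
  have hS1 : S < 2 ^ n := by rw [hS]; exact Nat.ofBits_lt_two_pow _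
  have hS2 : ∀ p < n, S.testBit p = decide (o p ∉ cut s t Z) := by
    intro p hp
    rw [hS, Nat.testBit_ofBits_lt _ _ hp]
  have hc : ((range n).filter fun p => o p ∈ cut s t Z).card = k := by
    rw [← hk]
    apply card_bij (fun p _ => o p)
    · intro p hp
      rw [mem_filter, mem_range] at hp
      rw [mem_jn_iff hXZ]
      exact ⟨(ho.2 _).2 ⟨p, hp.1, rfl⟩, hp.2⟩
    · intro p hp p' hp' h
      rw [mem_filter, mem_range] at hp hp'
      exact ho.1 p hp.1 p' hp'.1 h
    · intro e he
      rw [mem_jn_iff hXZ] at he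
      obtain ⟨p, hp, rfl⟩ := (ho.2 e).1 he.1
      exact ⟨p, by rw [mem_filter, mem_range]; exact ⟨hp, he.2⟩, rfl⟩
  have hc2 : ((range n).filter fun p => S.testBit p = true).card = r := by
    have h1 : (range n).filter (fun p => S.testBit p = true) =
        (range n).filter fun p => ¬ (o p ∈ cut s t Z) := by
      apply filter_congr
      intro p hp
      rw [hS2 p (mem_range.1 hp), decide_eq_true_iff]
    rw [h1]
    have h2 := card_filter_add_card_filter_not (s := range n) (fun p => o p ∈ cut s t Z)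
    rw [hc, card_range] at h2
    omega
  obtain ⟨w, q, hw, hq, h1, h2⟩ := hA i hi S hS1 hc2
  obtain ⟨h3, h4⟩ := hW T hT V E s t X n o w hn hw
  refine ⟨o ∘ pw w, h3 ho, fun p hp => ?_, fun p hp hpn => ?_, q, hq, fun j hj hjq => ?_⟩
  · have h5 := h1 p (by omega)
    rw [hS2 _ (pw_lt hw (by omega)), decide_eq_true hp, decide_eq_true_iff] at h5
    exact h5
  · have h5 := h1 p hpn
    rw [hS2 _ (pw_lt hw hpn), decide_eq_decide] at h5
    by_contra h6
    have := h5.1 h6
    omega
  · obtain ⟨h5, h6⟩ := h4 j hj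
    exact h6 (hH _ h5 (h2 j hj hjq))

end Pool.Agent.T2h40.CW6
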