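import Pool.Agent.T2h40.CW6.Defs

/-!
From covers by functions to six even subgraphs.
-/

set_option autoImplicit false

open Finset

namespace Pool.Agent.T2h40.CW6

open Pool.Agent.W420.BF (cut bd Tr)

theorem zmod2_cases (x : ZMod 2) : x = 0 ∨ x = 1 := by
  revert x
  decide

open Classical in
theorem fin_cover6 {V E : Type} [Fintype E] (s t : E → V) (c : Fin 6 → E → ZMod 2)
    (h : Cov s t Set.univ c) : ∃ C : Fin 6 → Finset E,
      (∀ i v, Even (((C i).filter (fun e => s e = v)).card +
        ((C i).filter (fun e => t e = v)).card)) ∧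
      ∀ e, (univ.filter (fun i => e ∈ C i)).card = 4 := by
  refine ⟨fun i => univ.filter (fun e => c i e = 1), ?_, ?_⟩
  · intro i v
    rw [Finset.filter_filter, Finset.filter_filter]
    rw [← ZMod.natCast_eq_zero_iff_even, ← h.2 v (Set.mem_univ v) i]
    unfold bd
    rw [Finset.card_filter, Finset.card_filter]
    push_cast
    rw [← Finset.sum_add_distrib]
    refine Finset.sum_congr rfl fun e _ => ?_
    rcases zmod2_cases (c i e) with h1 | h1 <;> by_cases h2 : s e = v <;> by_cases h3 : t e = v <;>
      simp [h1, h2, h3]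
  · intro e
    rw [← h.1 e]
    congr 1
    ext i
    simp

end Pool.Agent.T2h40.CW6
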