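import Pool.Agent.T2h40.CW6.Pm

set_option autoImplicit false
set_option maxRecDepth 100000

namespace Pool.Agent.T2h40.CW6

theorem cPerm6_8 : cPerm T0 6 bPG6.get bPA6.get (pp0 6) (jt0 6) 192 24 = true := by decide +kernel

theorem cPerm6_9 : cPerm T0 6 bPG6.get bPA6.get (pp0 6) (jt0 6) 216 24 = true := by decide +kernel

theorem cPerm6_10 : cPerm T0 6 bPG6.get bPA6.get (pp0 6) (jt0 6) 240 24 = true := by decide +kernel

theorem cPerm6_11 : cPerm T0 6 bPG6.get bPA6.get (pp0 6) (jt0 6) 264 24 = true := by decide +kernel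

theorem cPerm6_12 : cPerm T0 6 bPG6.get bPA6.get (pp0 6) (jt0 6) 288 24 = true := by decide +kernel

theorem cPerm6_13 : cPerm T0 6 bPG6.get bPA6.get (pp0 6) (jt0 6) 312 24 = true := by decide +kernel

theorem cPerm6_14 : cPerm T0 6 bPG6.get bPA6.get (pp0 6) (jt0 6) 336 24 = true := by decide +kernel

theorem cPerm6_15 : cPerm T0 6 bPG6.get bPA6.get (pp0 6) (jt0 6) 360 24 = true := by decide +kernel

end Pool.Agent.T2h40.CW6
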