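import Pool.Agent.T2h40.CW6.Pm

set_option autoImplicit false
set_option maxRecDepth 100000

namespace Pool.Agent.T2h40.CW6

theorem cPerm6_16 : cPerm T0 6 bPG6.get bPA6.get (pp0 6) (jt0 6) 384 24 = true := by decide +kernel

theorem cPerm6_17 : cPerm T0 6 bPG6.get bPA6.get (pp0 6) (jt0 6) 408 24 = true := by decide +kernel

theorem cPerm6_18 : cPerm T0 6 bPG6.get bPA6.get (pp0 6) (jt0 6) 432 24 = true := by decide +kernel

theorem cPerm6_19 : cPerm T0 6 bPG6.get bPA6.get (pp0 6) (jt0 6) 456 24 = true := by decide +kernel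

theorem cPerm6_20 : cPerm T0 6 bPG6.get bPA6.get (pp0 6) (jt0 6) 480 24 = true := by decide +kernel

theorem cPerm6_21 : cPerm T0 6 bPG6.get bPA6.get (pp0 6) (jt0 6) 504 24 = true := by decide +kernel

theorem cPerm6_22 : cPerm T0 6 bPG6.get bPA6.get (pp0 6) (jt0 6) 528 24 = true := by decide +kernel

theorem cPerm6_23 : cPerm T0 6 bPG6.get bPA6.get (pp0 6) (jt0 6) 552 24 = true := by decide +kernel

end Pool.Agent.T2h40.CW6
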