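import Pool.Agent.T2h40.CW6.Pm

set_option autoImplicit false
set_option maxRecDepth 100000

namespace Pool.Agent.T2h40.CW6

theorem cPerm6_24 : cPerm T0 6 bPG6.get bPA6.get (pp0 6) (jt0 6) 576 24 = true := by decide +kernel

theorem cPerm6_25 : cPerm T0 6 bPG6.get bPA6.get (pp0 6) (jt0 6) 600 24 = true := by decide +kernel

theorem cPerm6_26 : cPerm T0 6 bPG6.get bPA6.get (pp0 6) (jt0 6) 624 24 = true := by decide +kernel

theorem cPerm6_27 : cPerm T0 6 bPG6.get bPA6.get (pp0 6) (jt0 6) 648 24 = true := by decide +kernel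

theorem cPerm6_28 : cPerm T0 6 bPG6.get bPA6.get (pp0 6) (jt0 6) 672 24 = true := by decide +kernel

theorem cPerm6_29 : cPerm T0 6 bPG6.get bPA6.get (pp0 6) (jt0 6) 696 24 = true := by decide +kernel

end Pool.Agent.T2h40.CW6
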