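import Pool.Agent.T2h40.CW6.Pm6_0
import Pool.Agent.T2h40.CW6.Pm6_1
import Pool.Agent.T2h40.CW6.Pm6_2
import Pool.Agent.T2h40.CW6.Pm6_3

set_option autoImplicit false
set_option maxRecDepth 100000

namespace Pool.Agent.T2h40.CW6

theorem cPerm6 : ∀ b < 30, cPerm T0 6 bPG6.get bPA6.get (pp0 6) (jt0 6) (24 * b) 24 = true := by
  intro b hb
  interval_cases b
  · exact cPerm6_0
  · exact cPerm6_1
  · exact cPerm6_2
  · exact cPerm6_3
  · exact cPerm6_4
  · exact cPerm6_5
  · exact cPerm6_6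
  · exact cPerm6_7
  · exact cPerm6_8
  · exact cPerm6_9
  · exact cPerm6_10
  · exact cPerm6_11
  · exact cPerm6_12
  · exact cPerm6_13
  · exact cPerm6_14
  · exact cPerm6_15
  · exact cPerm6_16
  · exact cPerm6_17
  · exact cPerm6_18
  · exact cPerm6_19
  · exact cPerm6_20
  · exact cPerm6_21
  · exact cPerm6_22
  · exact cPerm6_23
  · exact cPerm6_24
  · exact cPerm6_25
  · exact cPerm6_26
  · exact cPerm6_27
  · exact cPerm6_28
  · exact cPerm6_29

theorem perm6 : PermOK T0 6 (NP0 6) (pp0 6) (jt0 6) := perm_ok _ _ _ _ _ _ _ fun g hg =>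
  ⟨24 * (g / 24), 24, by omega, by omega, cPerm6 _ (by
    have h : NP0 6 = 720 := by decide +kernel
    omega)⟩

theorem perm0 (n : ℕ) (h3 : 3 ≤ n) (h6 : n ≤ 6) : PermOK T0 n (NP0 n) (pp0 n) (jt0 n) := by
  interval_cases n
  · exact perm3
  · exact perm4
  · exact perm5
  · exact perm6

end Pool.Agent.T2h40.CW6
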