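import Pool.Agent.T2h40.CW6.WORD

/-!
# Gluing two pieces whose outer ends come first
-/

set_option autoImplicit false

open Finset

namespace Pool.Agent.T2h40.CW6

open Pool.Agent.W420.BF (cut bd Tr Ord)

theorem t_GLUE : S_GLUE := by
  classical
  intro hW T Y r r' k NA ra NB rb NS iw hT h6 h6' h6'' hI hG V E _ s t X Z hXZ hX hZ
  obtain ⟨oX, hoX, hX1, hX2, q, hq, hHX⟩ := hX
  obtain ⟨oZ, hoZ, hZ1, hZ2, q', hq', hHZ⟩ := hZ
  have hf : ∀ p < k, ∃ i < k, oX (r + i) = oZ (r' + p) := by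
    intro p hp
    have h1 := hZ2 (r' + p) (by omega) (by omega)
    obtain ⟨i, hi, h2⟩ := (hoX.2 _).1 h1
    have h3 : oZ (r' + p) ∈ cut s t Z := (hoZ.2 _).2 ⟨r' + p, by omega, rfl⟩
    have h4 : r ≤ i := by
      by_contra h
      exact hX1 i (by omega) (h2 ▸ h3)
    exact ⟨i - r, by omega, by rw [show r + (i - r) = i by omega, h2]⟩
  obtain ⟨f, hff⟩ : ∃ f : ℕ → ℕ, ∀ p < k, f p < k ∧ oX (r + f p) = oZ (r' + p) := by
    choose! f h1 h2 using hf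
    exact ⟨f, fun p hp => ⟨h1 p hp, h2 p hp⟩⟩
  obtain ⟨σ, hσ, hp⟩ := hI.2 f (fun p hp => (hff p hp).1) (fun p hp p' hp' h => by
    have h1 := (hff p hp).2
    rw [h, (hff p' hp').2] at h1
    have h2 := hoZ.1 _ (by omega) _ (by omega) h1
    omega)
  have hwv : WV (r + k) (iw σ) := fun a ha => (hI.1 σ hσ a ha).2
  have hwr : ∀ a ∈ iw σ, r ≤ a := fun a ha => (hI.1 σ hσ a ha).1
  obtain ⟨w1, w2⟩ := hW T hT V E s t X (r + k) oX (iw σ) h6 hwv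
  have hO : Ord s t X (r + k) (oX ∘ pw (iw σ)) := w1 hoX
  have hin : ∀ p < k, (oX ∘ pw (iw σ)) (r + p) = oZ (r' + p) := by
    intro p hpk
    show oX (pw (iw σ) (r + p)) = _
    rw [hp p hpk, (hff p hpk).2]
  have hX1' : ∀ p < r, (oX ∘ pw (iw σ)) p ∉ cut s t Z := by
    intro p hpr
    show oX (pw (iw σ) p) ∉ _
    rw [pw_fix hwr hpr]
    exact hX1 p hpr
  obtain ⟨i, hi, w, hw, hall⟩ := hG q hq σ hσ q' hq'
  obtain ⟨v1, v2⟩ := hW T hT V E s t (X ∪ Z) (r + r') (oc r (oX ∘ pw (iw σ)) oZ) w h6'' hw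
  refine ⟨oc r (oX ∘ pw (iw σ)) oZ ∘ pw w, v1 (Ord.comp hXZ hO hoZ hin hX1' hZ1), i, hi,
    fun j hj hji => ?_⟩
  obtain ⟨qa, qb, ja, jb, g1, g2, g3, g4, g5, g6, g7, g8, g9⟩ := hall j hj hji
  obtain ⟨v3, v4⟩ := v2 j hj
  apply v4
  have ra1 : RQ s t X (r + k) (oX ∘ pw (iw σ)) qa :=
    RQ.key ((w2 ja g1).2 (hHX _ (w2 ja g1).1 g3)) g2
  have rb1 : RQ s t Z (r' + k) oZ qb := RQ.key (hHZ _ g4 g6) g5
  exact Real.comp hXZ hO hoZ hin hX1' hZ1 ra1 rb1 (fun i p hp => g7 i i.2 p hp)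
    (fun i p hp => g8 i i.2 p hp) (fun i p hp => g9 i i.2 p hp)

end Pool.Agent.T2h40.CW6
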