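import Pool.Agent.T2h40.CW6.Fam

/-!
# Words in adjacent transpositions acting on the orders of the ends
-/

set_option autoImplicit false

open Finset

namespace Pool.Agent.T2h40.CW6

open Pool.Agent.W420.BF (cut bd Tr Ord)

theorem pw_cons (a : ℕ) (w : List ℕ) (p : ℕ) : pw (a :: w) p = sw a (pw w p) := rfl

theorem pw_lt {n : ℕ} : ∀ {w : List ℕ}, WV n w → ∀ {p : ℕ}, p < n → pw w p < n := by
  intro w
  induction w with
  | nil => intro _ p hp; exact hp
  | cons a w ih =>
    intro hw p hp
    rw [pw_cons]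
    exact sw_lt (hw a (by simp)) (ih (fun b hb => hw b (by simp [hb])) hp)

theorem pw_fix {r : ℕ} : ∀ {w : List ℕ}, (∀ a ∈ w, r ≤ a) → ∀ {p : ℕ}, p < r → pw w p = p := by
  intro w
  induction w with
  | nil => intro _ p _; rfl
  | cons a w ih =>
    intro hw p hp
    have ha : r ≤ a := hw a (by simp)
    rw [pw_cons, ih (fun b hb => hw b (by simp [hb])) hp]
    unfold sw
    rw [if_neg (by omega), if_neg (by omega)]

theorem t_WORD : S_WORD := by
  intro T hT V E _ s t X n o w hn
  induction w generalizing o with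
  | nil => intro _; exact ⟨fun h => h, fun j hj => ⟨hj, fun h => h⟩⟩
  | cons a w ih =>
    intro hw
    have ha : a + 1 < n := hw a (by simp)
    obtain ⟨h1, h2⟩ := ih (o ∘ sw a) (fun b hb => hw b (by simp [hb]))
    refine ⟨fun h => h1 (Ord.swap ha h), fun j hj => ?_⟩
    obtain ⟨h3, h4⟩ := h2 j hj
    obtain ⟨h5, h6⟩ := hT n hn a ha _ h3
    exact ⟨h5, fun h => h4 (RQ.swap hn ha (RQ.key h h6))⟩

end Pool.Agent.T2h40.CW6
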