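import Pool.Agent.T2h40.CW6.Shp
import Pool.Agent.T2h40.CW6.WORD
import Pool.Agent.T2h40.CW6.ARR
import Pool.Agent.T2h40.CW6.GLUE

/-!
# Gluing theorems from the checks
-/

set_option autoImplicit false

open Finset

namespace Pool.Agent.T2h40.CW6

open Pool.Agent.W420.BF (cut bd Tr Ord)

theorem jn_swap {V E : Type} [Fintype E] (s t : E → V) (X Z : Set V) : jn s t Z X = jn s t X Z := by
  ext e
  rw [mem_jn, mem_jn]
  tauto

theorem HasR.single {V E : Type} [Fintype E] {T : Tab} {s t : E → V} {X Z : Set V} {n r NR : ℕ}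
    {rm : ℕ → ℕ} (h : HasR T s t X Z n r NR rm) : ∃ q < NR, HasR T s t X Z n r 1 (fun _ => rm q) := by
  obtain ⟨o, h1, h2, h3, q, hq, h4⟩ := h
  exact ⟨q, hq, o, h1, h2, h3, 0, by norm_num, h4⟩

/-- some number below `n` satisfies `f` -/
def anyr (n : ℕ) (f : ℕ → Bool) : Bool :=
  Nat.rec (motive := fun _ => Bool) false (fun m ih => bi (f m) true ih) n

theorem anyr_spec {n : ℕ} {f : ℕ → Bool} (h : anyr n f = true) : ∃ i < n, f i = true := by
  induction n with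
  | zero => exact absurd h (by show ¬ (false = true); simp)
  | succ n ih =>
    have h' : bi (f n) true (anyr n f) = true := h
    cases hf : f n with
    | true => exact ⟨n, by omega, hf⟩
    | false =>
      rw [hf, bi_false] at h'
      obtain ⟨i, hi, h1⟩ := ih h'
      exact ⟨i, by omega, h1⟩

/-- the table of inner permutations is right -/
def innk (r k NS : ℕ) (iw : ℕ → List ℕ) : Bool :=
  bi (allr NS fun σ => List.rec (motive := fun _ => Bool) true (fun a _ ih =>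
      bi (Nat.ble r a) (bi (Nat.ble (Nat.succ (Nat.succ a)) (Nat.add r k)) ih false) false) (iw σ))
    (allr 4 fun a => allr 4 fun b => allr 4 fun c => allr 4 fun d =>
      bi (decide ((∀ p < k, [a, b, c, d].getD p 0 < k) ∧
        (∀ p < k, ∀ p' < k, [a, b, c, d].getD p 0 = [a, b, c, d].getD p' 0 → p = p')))
        (anyr NS fun σ => allr k fun p =>
          Nat.beq (pwk (iw σ) (Nat.add r p)) (Nat.add r ([a, b, c, d].getD p 0))) true) false

theorem letters {r m : ℕ} {w : List ℕ} (h : List.rec (motive := fun _ => Bool) true (fun a _ ih =>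
      bi (Nat.ble r a) (bi (Nat.ble (Nat.succ (Nat.succ a)) m) ih false) false) w = true) :
    ∀ a ∈ w, r ≤ a ∧ a + 1 < m := by
  induction w with
  | nil => intro a ha; simp at ha
  | cons b w ih =>
    have h' : bi (Nat.ble r b) (bi (Nat.ble (b + 2) m) (List.rec (motive := fun _ => Bool) true
      (fun a _ ih => bi (Nat.ble r a) (bi (Nat.ble (Nat.succ (Nat.succ a)) m) ih false) false) w)
        false) false = true := h
    rw [bi_and, bi_and] at h'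
    intro a ha
    rcases List.mem_cons.1 ha with rfl | ha
    · have h1 := Nat.le_of_ble_eq_true h'.1
      have h2 := Nat.le_of_ble_eq_true h'.2.1
      omega
    · exact ih h'.2.2 a ha

theorem inner_ok {r k NS : ℕ} {iw : ℕ → List ℕ} (hk : k ≤ 4) (h : innk r k NS iw = true) :
    InnerOK r k NS iw := by
  unfold innk at h
  rw [bi_and] at h
  obtain ⟨h1, h2⟩ := h
  refine ⟨fun σ hσ => letters (allr_spec h1 σ hσ), fun f hf hinj => ?_⟩
  obtain ⟨g, hg⟩ : ∃ g : ℕ → ℕ, ∀ p, g p = if p < k then f p else 0 := ⟨_, fun _ => rfl⟩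
  have hg4 : ∀ p, g p < 4 := by
    intro p
    rw [hg]
    split_ifs with hp
    · have := hf p hp
      omega
    · norm_num
  have hgD : ∀ p < k, [g 0, g 1, g 2, g 3].getD p 0 = f p := by
    intro p hp
    have hgp : g p = f p := by rw [hg, if_pos hp]
    have hp4 : p < 4 := by omega
    interval_cases p <;> simpa using hgp
  have h3 := allr_spec (allr_spec (allr_spec (allr_spec h2 (g 0) (hg4 0)) (g 1) (hg4 1)) (g 2)
    (hg4 2)) (g 3) (hg4 3)
  have h4 : decide ((∀ p < k, [g 0, g 1, g 2, g 3].getD p 0 < k) ∧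
        (∀ p < k, ∀ p' < k, [g 0, g 1, g 2, g 3].getD p 0 = [g 0, g 1, g 2, g 3].getD p' 0 →
          p = p')) = true := by
    rw [decide_eq_true_iff]
    exact ⟨fun p hp => by rw [hgD p hp]; exact hf p hp,
      fun p hp p' hp' he => by rw [hgD p hp, hgD p' hp'] at he; exact hinj p hp p' hp' he⟩
  rw [h4, bi_true] at h3
  obtain ⟨σ, hσ, h5⟩ := anyr_spec h3
  refine ⟨σ, hσ, fun p hp => ?_⟩
  have h6 := beq_nat (allr_spec h5 p hp)
  rw [pwk_eq, hgD p hp] at h6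
  exact h6

/-- All facts about the data `S` but those about the gluings. -/
structure Sh.Facts (S : Sh) (T : Tab) (Y : Ty) (TL : ℕ → ℕ → ℕ) (pp jt : ℕ → ℕ → ℕ → ℕ)
    (NP : ℕ → ℕ) : Prop where
  hna : S.na = S.r + S.k
  hnb : S.nb = S.r' + S.k
  hnc : S.nc = S.r + S.r'
  hNa : S.Na = T.NO S.na
  hNb : S.Nb = T.NO S.nb
  hW : T.NO S.nc ≤ S.W
  h6 : S.na ≤ 6
  h6' : S.nb ≤ 6
  h6'' : S.nc ≤ 6
  hT : T.OK
  hP : PermOK T S.nc (NP S.nc) (pp S.nc) (jt S.nc)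
  hY : ∀ i < Y.NT S.nc, cML (T.NO S.nc) (Y.tm S.nc i) (TL S.nc i) = true
  hLA : ∀ q < S.NA, cML S.Na (S.RA q) (S.LA q) = true
  hLB : ∀ q < S.NB, cML S.Nb (S.RB q) (S.LB q) = true
  cX : S.cX T = true
  cA : S.cA T = true
  cS : S.cS T = true
  hG : S.NG * 2 ^ S.κg = 2 ^ S.κ
  cB : ∀ i < S.Nb, ∀ g < S.NG, alld (S.fB T g i) 1000 (S.BL g i) = true
  cE : ∀ q < S.NB, ∀ g < S.NG, (S.EB q >>> (64 + S.W * 2 ^ S.κg * g)) &&&
    (2 ^ (S.W * 2 ^ S.κg) - 1) = S.EBf g q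
  cT : ∀ u < S.NTI, S.cT Y TL jt NP u = true
  inn : InnerOK S.r S.k S.NS S.iw
  arrA : ArrOK T Y S.na S.r S.NA S.RA
  arrB : ArrOK T Y S.nb S.r' S.NB S.RB

theorem Sh.Facts.gl {S : Sh} {T : Tab} {Y : Ty} {TL : ℕ → ℕ → ℕ} {pp jt : ℕ → ℕ → ℕ → ℕ}
    {NP : ℕ → ℕ} (h : S.Facts T Y TL pp jt NP) (q : ℕ) (hq : q < S.NA) (q' : ℕ) (hq' : q' < S.NB)
    (cI : ∀ σ < S.NS, S.cI q σ q' = true) :
    GlueOK T Y S.r S.r' S.k 1 (fun _ => S.RA q) 1 (fun _ => S.RB q') S.NS S.iw :=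
  S.glue T Y TL pp jt NP h.hna h.hnb h.hnc h.hNa h.hNb h.hW h.h6 h.h6' h.h6'' h.hT h.hP h.hY h.hLA
    h.hLB h.cX h.cA h.cS h.hG h.cB h.cE h.cT q hq q' hq' cI

theorem Sh.Facts.J {S : Sh} {T : Tab} {Y : Ty} {TL : ℕ → ℕ → ℕ} {pp jt : ℕ → ℕ → ℕ → ℕ}
    {NP : ℕ → ℕ} (h : S.Facts T Y TL pp jt NP)
    (hI : ∀ q < S.NA, ∀ q' < S.NB, ∀ σ < S.NS, S.cI q σ q' = true) : JN T Y S.na S.nb S.k := by
  intro V E _ s t X Z hXZ hX hZ hk
  have h1 := t_ARR t_WORD T Y S.na S.r S.k S.NA S.RA h.hT h.h6 h.hna h.arrA V E s t X Z hXZ hX hk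
  have h2 := t_ARR t_WORD T Y S.nb S.r' S.k S.NB S.RB h.hT h.h6' h.hnb h.arrB V E s t Z X hXZ.symm hZ
    (by rw [jn_swap]; exact hk)
  obtain ⟨q, hq, h3⟩ := h1.single
  obtain ⟨q', hq', h4⟩ := h2.single
  rw [h.hna] at h3
  rw [h.hnb] at h4
  have h5 := t_GLUE t_WORD T Y S.r S.r' S.k 1 (fun _ => S.RA q) 1 (fun _ => S.RB q') S.NS S.iw h.hT
    (by rw [← h.hna]; exact h.h6) (by rw [← h.hnb]; exact h.h6') (by rw [← h.hnc]; exact h.h6'')
    h.inn (h.gl q hq q' hq' (hI q hq q' hq')) V E s t X Z hXZ h3 h4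
  have e : S.na + S.nb - 2 * S.k = S.r + S.r' := by rw [h.hna, h.hnb]; omega
  rw [e]
  exact h5

theorem Sh.Facts.Jsym {S : Sh} {T : Tab} {Y : Ty} {TL : ℕ → ℕ → ℕ} {pp jt : ℕ → ℕ → ℕ → ℕ}
    {NP : ℕ → ℕ} (h : S.Facts T Y TL pp jt NP) (e1 : S.nb = S.na) (e2 : S.r' = S.r)
    (e3 : S.NB = S.NA) (e4 : ∀ q, S.RB q = S.RA q)
    (hI : ∀ q < S.NA, ∀ q' < S.NB, q ≤ q' → ∀ σ < S.NS, S.cI q σ q' = true) :
    JN T Y S.na S.nb S.k := by
  have key : ∀ (V E : Type) [Fintype E] (s t : E → V) (X Z : Set V), Disjoint X Z → ∀ q < S.NA,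
      ∀ q' < S.NA, q ≤ q' → HasR T s t X Z S.na S.r 1 (fun _ => S.RA q) →
      HasR T s t Z X S.na S.r 1 (fun _ => S.RA q') → HasC T Y s t (X ∪ Z) (S.r + S.r) := by
    intro V E _ s t X Z hXZ q hq q' hq' hqq h3 h4
    have h5 := h.gl q hq q' (by rw [e3]; exact hq') (hI q hq q' (by rw [e3]; exact hq') hqq)
    rw [e4 q', e2] at h5
    rw [h.hna] at h3 h4
    exact t_GLUE t_WORD T Y S.r S.r S.k 1 (fun _ => S.RA q) 1 (fun _ => S.RA q') S.NS S.iw h.hT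
      (by rw [← h.hna]; exact h.h6) (by rw [← h.hna]; exact h.h6)
      (by have := h.h6''; rw [h.hnc, e2] at this; exact this)
      h.inn h5 V E s t X Z hXZ h3 h4
  intro V E _ s t X Z hXZ hX hZ hk
  rw [e1] at hZ ⊢
  have h1 := t_ARR t_WORD T Y S.na S.r S.k S.NA S.RA h.hT h.h6 h.hna h.arrA V E s t X Z hXZ hX hk
  have h2 := t_ARR t_WORD T Y S.na S.r S.k S.NA S.RA h.hT h.h6 h.hna h.arrA V E s t Z X hXZ.symm hZ
    (by rw [jn_swap]; exact hk)
  obtain ⟨q, hq, h3⟩ := h1.single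
  obtain ⟨q', hq', h4⟩ := h2.single
  have e : S.na + S.na - 2 * S.k = S.r + S.r := by rw [h.hna]; omega
  rw [e]
  rcases le_total q q' with hqq | hqq
  · exact key V E s t X Z hXZ q hq q' hq' hqq h3 h4
  · rw [Set.union_comm]
    exact key V E s t Z X hXZ.symm q' hq' q hq hqq h4 h3

end Pool.Agent.T2h40.CW6
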