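import Pool.Agent.T2h40.CW6.S341
import Pool.Agent.T2h40.CW6.Jn
import Pool.Agent.T2h40.CW6.Arr32
import Pool.Agent.T2h40.CW6.Arr43

set_option autoImplicit false
set_option maxRecDepth 100000

namespace Pool.Agent.T2h40.CW6

theorem f341 : S341.Facts T0 Y0 TL0 pp0 jt0 NP0 where
  hna := rfl
  hnb := rfl
  hnc := rfl
  hNa := by decide +kernel
  hNb := by decide +kernel
  hW := by decide +kernel
  h6 := by decide +kernel
  h6' := by decide +kernel
  h6'' := by decide +kernel
  hT := T0_ok
  hP := perm0 5 (by omega) (by omega)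
  hY := cML0 5 (by omega)
  hLA := by
    intro q hq
    have h := cL32 q hq
    have e : S341.Na = T0.NO 3 := by decide +kernel
    rw [e]; exact h
  hLB := by
    intro q hq
    have h := cL43 q hq
    have e : S341.Nb = T0.NO 4 := by decide +kernel
    rw [e]; exact h
  cX := cX341
  cA := cA341
  cS := cS341
  hG := by decide +kernel
  cB := by
    intro i hi
    have hi : i < 10 := hi
    exact Sh.cB_spec cB341_0 i (by omega) (by omega)
  cE := by
    intro i hi g hg
    have hi : i < 2 := hi
    have hg : g < 1 := hg
    interval_cases g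
    · exact Sh.cE_spec cE341_0_0 i (by omega) (by omega)
  cT := by
    intro i hi
    have hi : i < 2 := hi
    exact ct341_0 i hi (by omega)
  inn := inner_ok (by decide +kernel) (by decide +kernel)
  arrA := arr32
  arrB := arr43

theorem q341 : ∀ q < S341.NA, ∀ q' < S341.NB, ∀ σ < S341.NS, S341.cI q σ q' = true := by
  intro q hq q' hq' σ hσ
  have hq : q < 1 := hq
  exact Sh.cQ_spec cQ341_0 q (by omega) (by omega) q' hq' (by omega) σ hσ

theorem j341 : JN T0 Y0 3 4 1 := f341.J q341

end Pool.Agent.T2h40.CW6
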