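import Pool.Agent.T2h40.CW6.A31
import Pool.Agent.T2h40.CW6.PmAll

set_option autoImplicit false
set_option maxRecDepth 100000

namespace Pool.Agent.T2h40.CW6

theorem arr31 : ArrOK T0 Y0 3 1 1 rm31 := arr_ok T0 Y0 3 1 1 rm31 rl31 (NP0 3) (pp0 3) (jt0 3) 3 _ _ _
  (perm0 3 (by omega) (by omega)) cL31 (by
    intro i hi
    have h : Y0.NT 3 = 1 := by decide +kernel
    rw [h] at hi
    exact ⟨0, 1, by omega, by omega, ca31_0⟩) cSS31

end Pool.Agent.T2h40.CW6
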