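import Pool.Agent.T2h40.CW6.A42
import Pool.Agent.T2h40.CW6.PmAll

set_option autoImplicit false
set_option maxRecDepth 100000

namespace Pool.Agent.T2h40.CW6

theorem arr42 : ArrOK T0 Y0 4 2 4 rm42 := arr_ok T0 Y0 4 2 4 rm42 rl42 (NP0 4) (pp0 4) (jt0 4) 6 _ _ _
  (perm0 4 (by omega) (by omega)) cL42 (by
    intro i hi
    have h : Y0.NT 4 = 2 := by decide +kernel
    rw [h] at hi
    exact ⟨0, 2, by omega, by omega, ca42_0⟩) cSS42

end Pool.Agent.T2h40.CW6
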