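import Pool.Agent.T2h40.CW6.S342
import Pool.Agent.T2h40.CW6.Jn
import Pool.Agent.T2h40.CW6.Arr31
import Pool.Agent.T2h40.CW6.Arr42

set_option autoImplicit false
set_option maxRecDepth 100000

namespace Pool.Agent.T2h40.CW6

theorem f342 : S342.Facts T0 Y0 TL0 pp0 jt0 NP0 where
  hna := rfl
  hnb := rfl
  hnc := rfl
  hNa := by decide +kernel
  hNb := by decide +kernel
  hW := by decide +kernel
  h6 := by decide +kernel
  h6' := by decide +kernel
  h6'' := by decide +kernel
  hT := T0_ok
  hP := perm0 3 (by omega) (by omega)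
  hY := cML0 3 (by omega)
  hLA := by
    intro q hq
    have h := cL31 q hq
    have e : S342.Na = T0.NO 3 := by decide +kernel
    rw [e]; exact h
  hLB := by
    intro q hq
    have h := cL42 q hq
    have e : S342.Nb = T0.NO 4 := by decide +kernel
    rw [e]; exact h
  cX := cX342
  cA := cA342
  cS := cS342
  hG := by decide +kernel
  cB := by
    intro i hi
    have hi : i < 10 := hi
    exact Sh.cB_spec cB342_0 i (by omega) (by omega)
  cE := by
    intro i hi g hg
    have hi : i < 4 := hi
    have hg : g < 1 := hg
    interval_cases g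
    · exact Sh.cE_spec cE342_0_0 i (by omega) (by omega)
  cT := by
    intro i hi
    have hi : i < 1 := hi
    exact ct342_0 i hi (by omega)
  inn := inner_ok (by decide +kernel) (by decide +kernel)
  arrA := arr31
  arrB := arr42

theorem q342 : ∀ q < S342.NA, ∀ q' < S342.NB, ∀ σ < S342.NS, S342.cI q σ q' = true := by
  intro q hq q' hq' σ hσ
  have hq : q < 1 := hq
  exact Sh.cQ_spec cQ342_0 q (by omega) (by omega) q' hq' (by omega) σ hσ

theorem j342 : JN T0 Y0 3 4 2 := f342.J q342

end Pool.Agent.T2h40.CW6
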