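import Pool.Agent.T2h40.CW6.S441
import Pool.Agent.T2h40.CW6.Jn
import Pool.Agent.T2h40.CW6.Arr43

set_option autoImplicit false
set_option maxRecDepth 100000

namespace Pool.Agent.T2h40.CW6

theorem f441 : S441.Facts T0 Y0 TL0 pp0 jt0 NP0 where
  hna := rfl
  hnb := rfl
  hnc := rfl
  hNa := by decide +kernel
  hNb := by decide +kernel
  hW := by decide +kernel
  h6 := by decide +kernel
  h6' := by decide +kernel
  h6'' := by decide +kernel
  hT := T0_ok
  hP := perm0 6 (by omega) (by omega)
  hY := cML0 6 (by omega)
  hLA := by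
    intro q hq
    have h := cL43 q hq
    have e : S441.Na = T0.NO 4 := by decide +kernel
    rw [e]; exact h
  hLB := by
    intro q hq
    have h := cL43 q hq
    have e : S441.Nb = T0.NO 4 := by decide +kernel
    rw [e]; exact h
  cX := cX441
  cA := cA441
  cS := cS441
  hG := by decide +kernel
  cB := by
    intro i hi
    have hi : i < 10 := hi
    exact Sh.cB_spec cB441_0 i (by omega) (by omega)
  cE := by
    intro i hi g hg
    have hi : i < 2 := hi
    have hg : g < 1 := hg
    interval_cases g
    · exact Sh.cE_spec cE441_0_0 i (by omega) (by omega)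
  cT := by
    intro i hi
    have hi : i < 3 := hi
    exact ct441_0 i hi (by omega)
  inn := inner_ok (by decide +kernel) (by decide +kernel)
  arrA := arr43
  arrB := arr43

theorem q441 : ∀ q < S441.NA, ∀ q' < S441.NB, q ≤ q' → ∀ σ < S441.NS, S441.cI q σ q' = true := by
  intro q hq q' hq' hqq σ hσ
  have hq : q < 2 := hq
  exact Sh.cQ_spec cQ441_0 q (by omega) (by omega) q' hq' (by omega) σ hσ

theorem j441 : JN T0 Y0 4 4 1 := f441.Jsym rfl rfl rfl (fun _ => rfl) q441

end Pool.Agent.T2h40.CW6
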