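import Pool.Agent.T2h40.CW6.S442
import Pool.Agent.T2h40.CW6.Jn
import Pool.Agent.T2h40.CW6.Arr42

set_option autoImplicit false
set_option maxRecDepth 100000

namespace Pool.Agent.T2h40.CW6

theorem f442 : S442.Facts T0 Y0 TL0 pp0 jt0 NP0 where
  hna := rfl
  hnb := rfl
  hnc := rfl
  hNa := by decide +kernel
  hNb := by decide +kernel
  hW := by decide +kernel
  h6 := by decide +kernel
  h6' := by decide +kernel
  h6'' := by decide +kernel
  hT := T0_ok
  hP := perm0 4 (by omega) (by omega)
  hY := cML0 4 (by omega)
  hLA := by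
    intro q hq
    have h := cL42 q hq
    have e : S442.Na = T0.NO 4 := by decide +kernel
    rw [e]; exact h
  hLB := by
    intro q hq
    have h := cL42 q hq
    have e : S442.Nb = T0.NO 4 := by decide +kernel
    rw [e]; exact h
  cX := cX442
  cA := cA442
  cS := cS442
  hG := by decide +kernel
  cB := by
    intro i hi
    have hi : i < 10 := hi
    exact Sh.cB_spec cB442_0 i (by omega) (by omega)
  cE := by
    intro i hi g hg
    have hi : i < 4 := hi
    have hg : g < 1 := hg
    interval_cases g
    · exact Sh.cE_spec cE442_0_0 i (by omega) (by omega)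
  cT := by
    intro i hi
    have hi : i < 4 := hi
    exact ct442_0 i hi (by omega)
  inn := inner_ok (by decide +kernel) (by decide +kernel)
  arrA := arr42
  arrB := arr42

theorem q442 : ∀ q < S442.NA, ∀ q' < S442.NB, q ≤ q' → ∀ σ < S442.NS, S442.cI q σ q' = true := by
  intro q hq q' hq' hqq σ hσ
  have hq : q < 4 := hq
  exact Sh.cQ_spec cQ442_0 q (by omega) (by omega) q' hq' (by omega) σ hσ

theorem j442 : JN T0 Y0 4 4 2 := f442.Jsym rfl rfl rfl (fun _ => rfl) q442

end Pool.Agent.T2h40.CW6
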