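import Pool.Agent.T2h40.CW6.A52
import Pool.Agent.T2h40.CW6.PmAll

set_option autoImplicit false
set_option maxRecDepth 100000

namespace Pool.Agent.T2h40.CW6

theorem arr52 : ArrOK T0 Y0 5 2 14 rm52 := arr_ok T0 Y0 5 2 14 rm52 rl52 (NP0 5) (pp0 5) (jt0 5) 10 _ _ _
  (perm0 5 (by omega) (by omega)) cL52 (by
    intro i hi
    have h : Y0.NT 5 = 4 := by decide +kernel
    rw [h] at hi
    exact ⟨0, 4, by omega, by omega, ca52_0⟩) cSS52

end Pool.Agent.T2h40.CW6
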