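import Pool.Agent.T2h40.CW6.E462

set_option autoImplicit false
set_option maxRecDepth 100000

namespace Pool.Agent.T2h40.CW6

theorem cE462_0_0 : S462.cE 0 0 50 = true := by decide +kernel

theorem cE462_0_50 : S462.cE 0 50 50 = true := by decide +kernel

theorem cE462_0_100 : S462.cE 0 100 50 = true := by decide +kernel

theorem cE462_0_150 : S462.cE 0 150 50 = true := by decide +kernel

theorem cE462_0_200 : S462.cE 0 200 50 = true := by decide +kernel

theorem cE462_0_250 : S462.cE 0 250 44 = true := by decide +kernel

end Pool.Agent.T2h40.CW6
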