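import Pool.Agent.T2h40.CW6.E462

set_option autoImplicit false
set_option maxRecDepth 100000

namespace Pool.Agent.T2h40.CW6

theorem cQ462_0 : S462.cQ 0 0 2 = true := by decide +kernel

theorem cQ462_2 : S462.cQ 0 2 2 = true := by decide +kernel

end Pool.Agent.T2h40.CW6
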