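import Pool.Agent.T2h40.CW6.F462_0
import Pool.Agent.T2h40.CW6.B462_0
import Pool.Agent.T2h40.CW6.G462_0
import Pool.Agent.T2h40.CW6.I462_0
import Pool.Agent.T2h40.CW6.Jn
import Pool.Agent.T2h40.CW6.Arr42
import Pool.Agent.T2h40.CW6.Arr64

set_option autoImplicit false
set_option maxRecDepth 100000

namespace Pool.Agent.T2h40.CW6

theorem f462 : S462.Facts T0 Y0 TL0 pp0 jt0 NP0 where
  hna := rfl
  hnb := rfl
  hnc := rfl
  hNa := by decide +kernel
  hNb := by decide +kernel
  hW := by decide +kernel
  h6 := by decide +kernel
  h6' := by decide +kernel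
  h6'' := by decide +kernel
  hT := T0_ok
  hP := perm0 6 (by omega) (by omega)
  hY := cML0 6 (by omega)
  hLA := by
    intro q hq
    have h := cL42 q hq
    have e : S462.Na = T0.NO 4 := by decide +kernel
    rw [e]; exact h
  hLB := by
    intro q hq
    have h := cL64 q hq
    have e : S462.Nb = T0.NO 6 := by decide +kernel
    rw [e]; exact h
  cX := cX462
  cA := cA462
  cS := cS462
  hG := by decide +kernel
  cB := by
    intro i hi
    have hi : i < 701 := hi
    by_cases h0 : i < 240
    · exact Sh.cB_spec cB462_0 i (by omega) (by omega)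
    by_cases h240 : i < 480
    · exact Sh.cB_spec cB462_240 i (by omega) (by omega)
    exact Sh.cB_spec cB462_480 i (by omega) (by omega)
  cE := by
    intro i hi g hg
    have hi : i < 294 := hi
    have hg : g < 1 := hg
    interval_cases g
    · by_cases h0 : i < 50
      · exact Sh.cE_spec cE462_0_0 i (by omega) (by omega)
      by_cases h50 : i < 100
      · exact Sh.cE_spec cE462_0_50 i (by omega) (by omega)
      by_cases h100 : i < 150
      · exact Sh.cE_spec cE462_0_100 i (by omega) (by omega)
      by_cases h150 : i < 200
      · exact Sh.cE_spec cE462_0_150 i (by omega) (by omega)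
      by_cases h200 : i < 250
      · exact Sh.cE_spec cE462_0_200 i (by omega) (by omega)
      exact Sh.cE_spec cE462_0_250 i (by omega) (by omega)
  cT := by
    intro i hi
    have hi : i < 667 := hi
    by_cases h0 : i < 60
    · exact ct462_0 i h0 (by omega)
    by_cases h60 : i < 120
    · exact ct462_60 i h60 (by omega)
    by_cases h120 : i < 180
    · exact ct462_120 i h120 (by omega)
    by_cases h180 : i < 240
    · exact ct462_180 i h180 (by omega)
    by_cases h240 : i < 300
    · exact ct462_240 i h240 (by omega)
    by_cases h300 : i < 360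
    · exact ct462_300 i h300 (by omega)
    by_cases h360 : i < 420
    · exact ct462_360 i h360 (by omega)
    by_cases h420 : i < 480
    · exact ct462_420 i h420 (by omega)
    by_cases h480 : i < 540
    · exact ct462_480 i h480 (by omega)
    by_cases h540 : i < 600
    · exact ct462_540 i h540 (by omega)
    by_cases h600 : i < 660
    · exact ct462_600 i h600 (by omega)
    exact ct462_660 i hi (by omega)
  inn := inner_ok (by decide +kernel) (by decide +kernel)
  arrA := arr42
  arrB := arr64

theorem q462 : ∀ q < S462.NA, ∀ q' < S462.NB, ∀ σ < S462.NS, S462.cI q σ q' = true := by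
  intro q hq q' hq' σ hσ
  have hq : q < 4 := hq
  by_cases h0 : q < 2
  · exact Sh.cQ_spec cQ462_0 q (by omega) (by omega) q' hq' (by omega) σ hσ
  exact Sh.cQ_spec cQ462_2 q (by omega) (by omega) q' hq' (by omega) σ hσ

theorem j462 : JN T0 Y0 4 6 2 := f462.J q462

end Pool.Agent.T2h40.CW6
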