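import Pool.Agent.T2h40.CW6.S463
import Pool.Agent.T2h40.CW6.Jn
import Pool.Agent.T2h40.CW6.Arr41
import Pool.Agent.T2h40.CW6.Arr63

set_option autoImplicit false
set_option maxRecDepth 100000

namespace Pool.Agent.T2h40.CW6

theorem f463 : S463.Facts T0 Y0 TL0 pp0 jt0 NP0 where
  hna := rfl
  hnb := rfl
  hnc := rfl
  hNa := by decide +kernel
  hNb := by decide +kernel
  hW := by decide +kernel
  h6 := by decide +kernel
  h6' := by decide +kernel
  h6'' := by decide +kernel
  hT := T0_ok
  hP := perm0 4 (by omega) (by omega)
  hY := cML0 4 (by omega)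
  hLA := by
    intro q hq
    have h := cL41 q hq
    have e : S463.Na = T0.NO 4 := by decide +kernel
    rw [e]; exact h
  hLB := by
    intro q hq
    have h := cL63 q hq
    have e : S463.Nb = T0.NO 6 := by decide +kernel
    rw [e]; exact h
  cX := cX463
  cA := cA463
  cS := cS463
  hG := by decide +kernel
  cB := by
    intro i hi
    have hi : i < 701 := hi
    exact Sh.cB_spec cB463_0 i (by omega) (by omega)
  cE := by
    intro i hi g hg
    have hi : i < 260 := hi
    have hg : g < 1 := hg
    interval_cases g
    · by_cases h0 : i < 65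
      · exact Sh.cE_spec cE463_0_0 i (by omega) (by omega)
      by_cases h65 : i < 130
      · exact Sh.cE_spec cE463_0_65 i (by omega) (by omega)
      by_cases h130 : i < 195
      · exact Sh.cE_spec cE463_0_130 i (by omega) (by omega)
      exact Sh.cE_spec cE463_0_195 i (by omega) (by omega)
  cT := by
    intro i hi
    have hi : i < 5 := hi
    exact ct463_0 i hi (by omega)
  inn := inner_ok (by decide +kernel) (by decide +kernel)
  arrA := arr41
  arrB := arr63

theorem q463 : ∀ q < S463.NA, ∀ q' < S463.NB, ∀ σ < S463.NS, S463.cI q σ q' = true := by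
  intro q hq q' hq' σ hσ
  have hq : q < 2 := hq
  exact Sh.cQ_spec cQ463_0 q (by omega) (by omega) q' hq' (by omega) σ hσ

theorem j463 : JN T0 Y0 4 6 3 := f463.J q463

end Pool.Agent.T2h40.CW6
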