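import Pool.Agent.T2h40.CW6.E563

set_option autoImplicit false
set_option maxRecDepth 100000

namespace Pool.Agent.T2h40.CW6

theorem cB563_0 : S563.cB T0 0 240 = true := by decide +kernel

theorem cB563_240 : S563.cB T0 240 240 = true := by decide +kernel

theorem cB563_480 : S563.cB T0 480 221 = true := by decide +kernel

end Pool.Agent.T2h40.CW6
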