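import Pool.Agent.T2h40.CW6.E563

set_option autoImplicit false
set_option maxRecDepth 100000

namespace Pool.Agent.T2h40.CW6

theorem cE563_0_0 : S563.cE 0 0 65 = true := by decide +kernel

theorem cE563_0_65 : S563.cE 0 65 65 = true := by decide +kernel

theorem cE563_0_130 : S563.cE 0 130 65 = true := by decide +kernel

theorem cE563_0_195 : S563.cE 0 195 65 = true := by decide +kernel

end Pool.Agent.T2h40.CW6
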