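import Pool.Agent.T2h40.CW6.E563

set_option autoImplicit false
set_option maxRecDepth 100000

namespace Pool.Agent.T2h40.CW6

theorem cQ563_0 : S563.cQ 0 0 2 = true := by decide +kernel

theorem cQ563_2 : S563.cQ 0 2 2 = true := by decide +kernel

theorem cQ563_4 : S563.cQ 0 4 2 = true := by decide +kernel

theorem cQ563_6 : S563.cQ 0 6 2 = true := by decide +kernel

theorem cQ563_8 : S563.cQ 0 8 2 = true := by decide +kernel

theorem cQ563_10 : S563.cQ 0 10 2 = true := by decide +kernel

theorem cQ563_12 : S563.cQ 0 12 2 = true := by decide +kernel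

end Pool.Agent.T2h40.CW6
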