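import Pool.Agent.T2h40.CW6.F563_0
import Pool.Agent.T2h40.CW6.B563_0
import Pool.Agent.T2h40.CW6.G563_0
import Pool.Agent.T2h40.CW6.I563_0
import Pool.Agent.T2h40.CW6.Jn
import Pool.Agent.T2h40.CW6.Arr52
import Pool.Agent.T2h40.CW6.Arr63

set_option autoImplicit false
set_option maxRecDepth 100000

namespace Pool.Agent.T2h40.CW6

theorem f563 : S563.Facts T0 Y0 TL0 pp0 jt0 NP0 where
  hna := rfl
  hnb := rfl
  hnc := rfl
  hNa := by decide +kernel
  hNb := by decide +kernel
  hW := by decide +kernel
  h6 := by decide +kernel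
  h6' := by decide +kernel
  h6'' := by decide +kernel
  hT := T0_ok
  hP := perm0 5 (by omega) (by omega)
  hY := cML0 5 (by omega)
  hLA := by
    intro q hq
    have h := cL52 q hq
    have e : S563.Na = T0.NO 5 := by decide +kernel
    rw [e]; exact h
  hLB := by
    intro q hq
    have h := cL63 q hq
    have e : S563.Nb = T0.NO 6 := by decide +kernel
    rw [e]; exact h
  cX := cX563
  cA := cA563
  cS := cS563
  hG := by decide +kernel
  cB := by
    intro i hi
    have hi : i < 701 := hi
    by_cases h0 : i < 240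
    · exact Sh.cB_spec cB563_0 i (by omega) (by omega)
    by_cases h240 : i < 480
    · exact Sh.cB_spec cB563_240 i (by omega) (by omega)
    exact Sh.cB_spec cB563_480 i (by omega) (by omega)
  cE := by
    intro i hi g hg
    have hi : i < 260 := hi
    have hg : g < 1 := hg
    interval_cases g
    · by_cases h0 : i < 65
      · exact Sh.cE_spec cE563_0_0 i (by omega) (by omega)
      by_cases h65 : i < 130
      · exact Sh.cE_spec cE563_0_65 i (by omega) (by omega)
      by_cases h130 : i < 195
      · exact Sh.cE_spec cE563_0_130 i (by omega) (by omega)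
      exact Sh.cE_spec cE563_0_195 i (by omega) (by omega)
  cT := by
    intro i hi
    have hi : i < 60 := hi
    exact ct563_0 i hi (by omega)
  inn := inner_ok (by decide +kernel) (by decide +kernel)
  arrA := arr52
  arrB := arr63

theorem q563 : ∀ q < S563.NA, ∀ q' < S563.NB, ∀ σ < S563.NS, S563.cI q σ q' = true := by
  intro q hq q' hq' σ hσ
  have hq : q < 14 := hq
  by_cases h0 : q < 2
  · exact Sh.cQ_spec cQ563_0 q (by omega) (by omega) q' hq' (by omega) σ hσ
  by_cases h2 : q < 4
  · exact Sh.cQ_spec cQ563_2 q (by omega) (by omega) q' hq' (by omega) σ hσ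
  by_cases h4 : q < 6
  · exact Sh.cQ_spec cQ563_4 q (by omega) (by omega) q' hq' (by omega) σ hσ
  by_cases h6 : q < 8
  · exact Sh.cQ_spec cQ563_6 q (by omega) (by omega) q' hq' (by omega) σ hσ
  by_cases h8 : q < 10
  · exact Sh.cQ_spec cQ563_8 q (by omega) (by omega) q' hq' (by omega) σ hσ
  by_cases h10 : q < 12
  · exact Sh.cQ_spec cQ563_10 q (by omega) (by omega) q' hq' (by omega) σ hσ
  exact Sh.cQ_spec cQ563_12 q (by omega) (by omega) q' hq' (by omega) σ hσ

theorem j563 : JN T0 Y0 5 6 3 := f563.J q563

end Pool.Agent.T2h40.CW6
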