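import Pool.Agent.T2h40.CW6.A62
import Pool.Agent.T2h40.CW6.PmAll

set_option autoImplicit false
set_option maxRecDepth 100000

namespace Pool.Agent.T2h40.CW6

theorem arr62 : ArrOK T0 Y0 6 2 90 rm62 := arr_ok T0 Y0 6 2 90 rm62 rl62 (NP0 6) (pp0 6) (jt0 6) 15 _ _ _
  (perm0 6 (by omega) (by omega)) cL62 (by
    intro i hi
    have h : Y0.NT 6 = 94 := by decide +kernel
    rw [h] at hi
    by_cases h0 : i < 4
    · exact ⟨0, 4, by omega, by omega, ca62_0⟩
    by_cases h4 : i < 8
    · exact ⟨4, 4, by omega, by omega, ca62_4⟩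
    by_cases h8 : i < 12
    · exact ⟨8, 4, by omega, by omega, ca62_8⟩
    by_cases h12 : i < 16
    · exact ⟨12, 4, by omega, by omega, ca62_12⟩
    by_cases h16 : i < 20
    · exact ⟨16, 4, by omega, by omega, ca62_16⟩
    by_cases h20 : i < 24
    · exact ⟨20, 4, by omega, by omega, ca62_20⟩
    by_cases h24 : i < 28
    · exact ⟨24, 4, by omega, by omega, ca62_24⟩
    by_cases h28 : i < 32
    · exact ⟨28, 4, by omega, by omega, ca62_28⟩
    by_cases h32 : i < 36
    · exact ⟨32, 4, by omega, by omega, ca62_32⟩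
    by_cases h36 : i < 40
    · exact ⟨36, 4, by omega, by omega, ca62_36⟩
    by_cases h40 : i < 44
    · exact ⟨40, 4, by omega, by omega, ca62_40⟩
    by_cases h44 : i < 48
    · exact ⟨44, 4, by omega, by omega, ca62_44⟩
    by_cases h48 : i < 52
    · exact ⟨48, 4, by omega, by omega, ca62_48⟩
    by_cases h52 : i < 56
    · exact ⟨52, 4, by omega, by omega, ca62_52⟩
    by_cases h56 : i < 60
    · exact ⟨56, 4, by omega, by omega, ca62_56⟩
    by_cases h60 : i < 64
    · exact ⟨60, 4, by omega, by omega, ca62_60⟩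
    by_cases h64 : i < 68
    · exact ⟨64, 4, by omega, by omega, ca62_64⟩
    by_cases h68 : i < 72
    · exact ⟨68, 4, by omega, by omega, ca62_68⟩
    by_cases h72 : i < 76
    · exact ⟨72, 4, by omega, by omega, ca62_72⟩
    by_cases h76 : i < 80
    · exact ⟨76, 4, by omega, by omega, ca62_76⟩
    by_cases h80 : i < 84
    · exact ⟨80, 4, by omega, by omega, ca62_80⟩
    by_cases h84 : i < 88
    · exact ⟨84, 4, by omega, by omega, ca62_84⟩
    by_cases h88 : i < 92
    · exact ⟨88, 4, by omega, by omega, ca62_88⟩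
    exact ⟨92, 2, by omega, by omega, ca62_92⟩) cSS62

end Pool.Agent.T2h40.CW6
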