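import Pool.Agent.T2h40.CW6.S564
import Pool.Agent.T2h40.CW6.Jn
import Pool.Agent.T2h40.CW6.Arr51
import Pool.Agent.T2h40.CW6.Arr62

set_option autoImplicit false
set_option maxRecDepth 100000

namespace Pool.Agent.T2h40.CW6

theorem f564 : S564.Facts T0 Y0 TL0 pp0 jt0 NP0 where
  hna := rfl
  hnb := rfl
  hnc := rfl
  hNa := by decide +kernel
  hNb := by decide +kernel
  hW := by decide +kernel
  h6 := by decide +kernel
  h6' := by decide +kernel
  h6'' := by decide +kernel
  hT := T0_ok
  hP := perm0 3 (by omega) (by omega)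
  hY := cML0 3 (by omega)
  hLA := by
    intro q hq
    have h := cL51 q hq
    have e : S564.Na = T0.NO 5 := by decide +kernel
    rw [e]; exact h
  hLB := by
    intro q hq
    have h := cL62 q hq
    have e : S564.Nb = T0.NO 6 := by decide +kernel
    rw [e]; exact h
  cX := cX564
  cA := cA564
  cS := cS564
  hG := by decide +kernel
  cB := by
    intro i hi
    have hi : i < 701 := hi
    exact Sh.cB_spec cB564_0 i (by omega) (by omega)
  cE := by
    intro i hi g hg
    have hi : i < 90 := hi
    have hg : g < 1 := hg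
    interval_cases g
    · by_cases h0 : i < 45
      · exact Sh.cE_spec cE564_0_0 i (by omega) (by omega)
      exact Sh.cE_spec cE564_0_45 i (by omega) (by omega)
  cT := by
    intro i hi
    have hi : i < 1 := hi
    exact ct564_0 i hi (by omega)
  inn := inner_ok (by decide +kernel) (by decide +kernel)
  arrA := arr51
  arrB := arr62

theorem q564 : ∀ q < S564.NA, ∀ q' < S564.NB, ∀ σ < S564.NS, S564.cI q σ q' = true := by
  intro q hq q' hq' σ hσ
  have hq : q < 8 := hq
  by_cases h0 : q < 2
  · exact Sh.cQ_spec cQ564_0 q (by omega) (by omega) q' hq' (by omega) σ hσ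
  by_cases h2 : q < 4
  · exact Sh.cQ_spec cQ564_2 q (by omega) (by omega) q' hq' (by omega) σ hσ
  by_cases h4 : q < 6
  · exact Sh.cQ_spec cQ564_4 q (by omega) (by omega) q' hq' (by omega) σ hσ
  exact Sh.cQ_spec cQ564_6 q (by omega) (by omega) q' hq' (by omega) σ hσ

theorem j564 : JN T0 Y0 5 6 4 := f564.J q564

end Pool.Agent.T2h40.CW6
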