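import Pool.Agent.T2h40.CW6.E663

set_option autoImplicit false
set_option maxRecDepth 100000

namespace Pool.Agent.T2h40.CW6

theorem cB663_0 : S663.cB T0 0 60 = true := by decide +kernel

theorem cB663_60 : S663.cB T0 60 60 = true := by decide +kernel

theorem cB663_120 : S663.cB T0 120 60 = true := by decide +kernel

theorem cB663_180 : S663.cB T0 180 60 = true := by decide +kernel

theorem cB663_240 : S663.cB T0 240 60 = true := by decide +kernel

theorem cB663_300 : S663.cB T0 300 60 = true := by decide +kernel

theorem cB663_360 : S663.cB T0 360 60 = true := by decide +kernel

theorem cB663_420 : S663.cB T0 420 60 = true := by decide +kernel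

theorem cB663_480 : S663.cB T0 480 60 = true := by decide +kernel

theorem cB663_540 : S663.cB T0 540 60 = true := by decide +kernel

theorem cB663_600 : S663.cB T0 600 60 = true := by decide +kernel

theorem cB663_660 : S663.cB T0 660 41 = true := by decide +kernel

end Pool.Agent.T2h40.CW6
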