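import Pool.Agent.T2h40.CW6.E663

set_option autoImplicit false
set_option maxRecDepth 100000

namespace Pool.Agent.T2h40.CW6

theorem cE663_0_0 : S663.cE 0 0 87 = true := by decide +kernel

theorem cE663_0_87 : S663.cE 0 87 87 = true := by decide +kernel

theorem cE663_0_174 : S663.cE 0 174 86 = true := by decide +kernel

theorem cE663_1_0 : S663.cE 1 0 87 = true := by decide +kernel

theorem cE663_1_87 : S663.cE 1 87 87 = true := by decide +kernel

theorem cE663_1_174 : S663.cE 1 174 86 = true := by decide +kernel

end Pool.Agent.T2h40.CW6
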