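import Pool.Agent.T2h40.CW6.E663

set_option autoImplicit false
set_option maxRecDepth 100000

namespace Pool.Agent.T2h40.CW6

theorem cQ663_48 : S663.cQ 1 48 2 = true := by decide +kernel

theorem cQ663_50 : S663.cQ 1 50 2 = true := by decide +kernel

theorem cQ663_52 : S663.cQ 1 52 2 = true := by decide +kernel

theorem cQ663_54 : S663.cQ 1 54 2 = true := by decide +kernel

theorem cQ663_56 : S663.cQ 1 56 2 = true := by decide +kernel

theorem cQ663_58 : S663.cQ 1 58 2 = true := by decide +kernel

theorem cQ663_60 : S663.cQ 1 60 2 = true := by decide +kernel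

theorem cQ663_62 : S663.cQ 1 62 2 = true := by decide +kernel

theorem cQ663_64 : S663.cQ 1 64 2 = true := by decide +kernel

theorem cQ663_66 : S663.cQ 1 66 2 = true := by decide +kernel

theorem cQ663_68 : S663.cQ 1 68 2 = true := by decide +kernel

theorem cQ663_70 : S663.cQ 1 70 2 = true := by decide +kernel

end Pool.Agent.T2h40.CW6
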