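import Pool.Agent.T2h40.CW6.E663

set_option autoImplicit false
set_option maxRecDepth 100000

namespace Pool.Agent.T2h40.CW6

theorem cQ663_72 : S663.cQ 1 72 2 = true := by decide +kernel

theorem cQ663_74 : S663.cQ 1 74 2 = true := by decide +kernel

theorem cQ663_76 : S663.cQ 1 76 2 = true := by decide +kernel

theorem cQ663_78 : S663.cQ 1 78 2 = true := by decide +kernel

theorem cQ663_80 : S663.cQ 1 80 2 = true := by decide +kernel

theorem cQ663_82 : S663.cQ 1 82 2 = true := by decide +kernel

theorem cQ663_84 : S663.cQ 1 84 2 = true := by decide +kernel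

theorem cQ663_86 : S663.cQ 1 86 2 = true := by decide +kernel

theorem cQ663_88 : S663.cQ 1 88 2 = true := by decide +kernel

theorem cQ663_90 : S663.cQ 1 90 2 = true := by decide +kernel

theorem cQ663_92 : S663.cQ 1 92 2 = true := by decide +kernel

theorem cQ663_94 : S663.cQ 1 94 2 = true := by decide +kernel

end Pool.Agent.T2h40.CW6
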