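import Pool.Agent.T2h40.CW6.E663

set_option autoImplicit false
set_option maxRecDepth 100000

namespace Pool.Agent.T2h40.CW6

theorem cQ663_96 : S663.cQ 1 96 2 = true := by decide +kernel

theorem cQ663_98 : S663.cQ 1 98 2 = true := by decide +kernel

theorem cQ663_100 : S663.cQ 1 100 2 = true := by decide +kernel

theorem cQ663_102 : S663.cQ 1 102 2 = true := by decide +kernel

theorem cQ663_104 : S663.cQ 1 104 2 = true := by decide +kernel

theorem cQ663_106 : S663.cQ 1 106 2 = true := by decide +kernel

theorem cQ663_108 : S663.cQ 1 108 2 = true := by decide +kernel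

theorem cQ663_110 : S663.cQ 1 110 2 = true := by decide +kernel

theorem cQ663_112 : S663.cQ 1 112 2 = true := by decide +kernel

theorem cQ663_114 : S663.cQ 1 114 2 = true := by decide +kernel

theorem cQ663_116 : S663.cQ 1 116 2 = true := by decide +kernel

theorem cQ663_118 : S663.cQ 1 118 2 = true := by decide +kernel

end Pool.Agent.T2h40.CW6
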