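import Pool.Agent.T2h40.CW6.E663

set_option autoImplicit false
set_option maxRecDepth 100000

namespace Pool.Agent.T2h40.CW6

theorem cQ663_120 : S663.cQ 1 120 2 = true := by decide +kernel

theorem cQ663_122 : S663.cQ 1 122 2 = true := by decide +kernel

theorem cQ663_124 : S663.cQ 1 124 2 = true := by decide +kernel

theorem cQ663_126 : S663.cQ 1 126 2 = true := by decide +kernel

theorem cQ663_128 : S663.cQ 1 128 3 = true := by decide +kernel

theorem cQ663_131 : S663.cQ 1 131 3 = true := by decide +kernel

theorem cQ663_134 : S663.cQ 1 134 3 = true := by decide +kernel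

theorem cQ663_137 : S663.cQ 1 137 3 = true := by decide +kernel

theorem cQ663_140 : S663.cQ 1 140 3 = true := by decide +kernel

theorem cQ663_143 : S663.cQ 1 143 3 = true := by decide +kernel

theorem cQ663_146 : S663.cQ 1 146 3 = true := by decide +kernel

theorem cQ663_149 : S663.cQ 1 149 3 = true := by decide +kernel

end Pool.Agent.T2h40.CW6
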