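import Pool.Agent.T2h40.CW6.E663

set_option autoImplicit false
set_option maxRecDepth 100000

namespace Pool.Agent.T2h40.CW6

theorem cQ663_152 : S663.cQ 1 152 3 = true := by decide +kernel

theorem cQ663_155 : S663.cQ 1 155 3 = true := by decide +kernel

theorem cQ663_158 : S663.cQ 1 158 3 = true := by decide +kernel

theorem cQ663_161 : S663.cQ 1 161 3 = true := by decide +kernel

theorem cQ663_164 : S663.cQ 1 164 3 = true := by decide +kernel

theorem cQ663_167 : S663.cQ 1 167 3 = true := by decide +kernel

theorem cQ663_170 : S663.cQ 1 170 3 = true := by decide +kernel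

theorem cQ663_173 : S663.cQ 1 173 4 = true := by decide +kernel

theorem cQ663_177 : S663.cQ 1 177 4 = true := by decide +kernel

theorem cQ663_181 : S663.cQ 1 181 4 = true := by decide +kernel

theorem cQ663_185 : S663.cQ 1 185 4 = true := by decide +kernel

theorem cQ663_189 : S663.cQ 1 189 4 = true := by decide +kernel

end Pool.Agent.T2h40.CW6
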