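import Pool.Agent.T2h40.CW6.E663

set_option autoImplicit false
set_option maxRecDepth 100000

namespace Pool.Agent.T2h40.CW6

theorem cQ663_193 : S663.cQ 1 193 4 = true := by decide +kernel

theorem cQ663_197 : S663.cQ 1 197 4 = true := by decide +kernel

theorem cQ663_201 : S663.cQ 1 201 4 = true := by decide +kernel

theorem cQ663_205 : S663.cQ 1 205 4 = true := by decide +kernel

theorem cQ663_209 : S663.cQ 1 209 4 = true := by decide +kernel

theorem cQ663_213 : S663.cQ 1 213 4 = true := by decide +kernel

theorem cQ663_217 : S663.cQ 1 217 4 = true := by decide +kernel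

theorem cQ663_221 : S663.cQ 1 221 4 = true := by decide +kernel

theorem cQ663_225 : S663.cQ 1 225 4 = true := by decide +kernel

theorem cQ663_229 : S663.cQ 1 229 4 = true := by decide +kernel

theorem cQ663_233 : S663.cQ 1 233 4 = true := by decide +kernel

theorem cQ663_237 : S663.cQ 1 237 4 = true := by decide +kernel

end Pool.Agent.T2h40.CW6
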