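import Pool.Agent.T2h40.CW6.F663_0
import Pool.Agent.T2h40.CW6.B663_0
import Pool.Agent.T2h40.CW6.G663_0
import Pool.Agent.T2h40.CW6.G663_1
import Pool.Agent.T2h40.CW6.G663_2
import Pool.Agent.T2h40.CW6.G663_3
import Pool.Agent.T2h40.CW6.I663_0
import Pool.Agent.T2h40.CW6.I663_1
import Pool.Agent.T2h40.CW6.I663_2
import Pool.Agent.T2h40.CW6.I663_3
import Pool.Agent.T2h40.CW6.I663_4
import Pool.Agent.T2h40.CW6.I663_5
import Pool.Agent.T2h40.CW6.I663_6
import Pool.Agent.T2h40.CW6.I663_7
import Pool.Agent.T2h40.CW6.I663_8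
import Pool.Agent.T2h40.CW6.Jn
import Pool.Agent.T2h40.CW6.Arr63

set_option autoImplicit false
set_option maxRecDepth 100000

namespace Pool.Agent.T2h40.CW6

theorem f663 : S663.Facts T0 Y0 TL0 pp0 jt0 NP0 where
  hna := rfl
  hnb := rfl
  hnc := rfl
  hNa := by decide +kernel
  hNb := by decide +kernel
  hW := by decide +kernel
  h6 := by decide +kernel
  h6' := by decide +kernel
  h6'' := by decide +kernel
  hT := T0_ok
  hP := perm0 6 (by omega) (by omega)
  hY := cML0 6 (by omega)
  hLA := by
    intro q hq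
    have h := cL63 q hq
    have e : S663.Na = T0.NO 6 := by decide +kernel
    rw [e]; exact h
  hLB := by
    intro q hq
    have h := cL63 q hq
    have e : S663.Nb = T0.NO 6 := by decide +kernel
    rw [e]; exact h
  cX := cX663
  cA := cA663
  cS := cS663
  hG := by decide +kernel
  cB := by
    intro i hi
    have hi : i < 701 := hi
    by_cases h0 : i < 60
    · exact Sh.cB_spec cB663_0 i (by omega) (by omega)
    by_cases h60 : i < 120
    · exact Sh.cB_spec cB663_60 i (by omega) (by omega)
    by_cases h120 : i < 180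
    · exact Sh.cB_spec cB663_120 i (by omega) (by omega)
    by_cases h180 : i < 240
    · exact Sh.cB_spec cB663_180 i (by omega) (by omega)
    by_cases h240 : i < 300
    · exact Sh.cB_spec cB663_240 i (by omega) (by omega)
    by_cases h300 : i < 360
    · exact Sh.cB_spec cB663_300 i (by omega) (by omega)
    by_cases h360 : i < 420
    · exact Sh.cB_spec cB663_360 i (by omega) (by omega)
    by_cases h420 : i < 480
    · exact Sh.cB_spec cB663_420 i (by omega) (by omega)
    by_cases h480 : i < 540
    · exact Sh.cB_spec cB663_480 i (by omega) (by omega)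
    by_cases h540 : i < 600
    · exact Sh.cB_spec cB663_540 i (by omega) (by omega)
    by_cases h600 : i < 660
    · exact Sh.cB_spec cB663_600 i (by omega) (by omega)
    exact Sh.cB_spec cB663_660 i (by omega) (by omega)
  cE := by
    intro i hi g hg
    have hi : i < 260 := hi
    have hg : g < 8 := hg
    interval_cases g
    · by_cases h0 : i < 87
      · exact Sh.cE_spec cE663_0_0 i (by omega) (by omega)
      by_cases h87 : i < 174
      · exact Sh.cE_spec cE663_0_87 i (by omega) (by omega)
      exact Sh.cE_spec cE663_0_174 i (by omega) (by omega)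
    · by_cases h0 : i < 87
      · exact Sh.cE_spec cE663_1_0 i (by omega) (by omega)
      by_cases h87 : i < 174
      · exact Sh.cE_spec cE663_1_87 i (by omega) (by omega)
      exact Sh.cE_spec cE663_1_174 i (by omega) (by omega)
    · by_cases h0 : i < 87
      · exact Sh.cE_spec cE663_2_0 i (by omega) (by omega)
      by_cases h87 : i < 174
      · exact Sh.cE_spec cE663_2_87 i (by omega) (by omega)
      exact Sh.cE_spec cE663_2_174 i (by omega) (by omega)
    · by_cases h0 : i < 87
      · exact Sh.cE_spec cE663_3_0 i (by omega) (by omega)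
      by_cases h87 : i < 174
      · exact Sh.cE_spec cE663_3_87 i (by omega) (by omega)
      exact Sh.cE_spec cE663_3_174 i (by omega) (by omega)
    · by_cases h0 : i < 87
      · exact Sh.cE_spec cE663_4_0 i (by omega) (by omega)
      by_cases h87 : i < 174
      · exact Sh.cE_spec cE663_4_87 i (by omega) (by omega)
      exact Sh.cE_spec cE663_4_174 i (by omega) (by omega)
    · by_cases h0 : i < 87
      · exact Sh.cE_spec cE663_5_0 i (by omega) (by omega)
      by_cases h87 : i < 174
      · exact Sh.cE_spec cE663_5_87 i (by omega) (by omega)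
      exact Sh.cE_spec cE663_5_174 i (by omega) (by omega)
    · by_cases h0 : i < 87
      · exact Sh.cE_spec cE663_6_0 i (by omega) (by omega)
      by_cases h87 : i < 174
      · exact Sh.cE_spec cE663_6_87 i (by omega) (by omega)
      exact Sh.cE_spec cE663_6_174 i (by omega) (by omega)
    · by_cases h0 : i < 87
      · exact Sh.cE_spec cE663_7_0 i (by omega) (by omega)
      by_cases h87 : i < 174
      · exact Sh.cE_spec cE663_7_87 i (by omega) (by omega)
      exact Sh.cE_spec cE663_7_174 i (by omega) (by omega)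
  cT := by
    intro i hi
    have hi : i < 1057 := hi
    by_cases h0 : i < 60
    · exact ct663_0 i h0 (by omega)
    by_cases h60 : i < 120
    · exact ct663_60 i h60 (by omega)
    by_cases h120 : i < 180
    · exact ct663_120 i h120 (by omega)
    by_cases h180 : i < 240
    · exact ct663_180 i h180 (by omega)
    by_cases h240 : i < 300
    · exact ct663_240 i h240 (by omega)
    by_cases h300 : i < 360
    · exact ct663_300 i h300 (by omega)
    by_cases h360 : i < 420
    · exact ct663_360 i h360 (by omega)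
    by_cases h420 : i < 480
    · exact ct663_420 i h420 (by omega)
    by_cases h480 : i < 540
    · exact ct663_480 i h480 (by omega)
    by_cases h540 : i < 600
    · exact ct663_540 i h540 (by omega)
    by_cases h600 : i < 660
    · exact ct663_600 i h600 (by omega)
    by_cases h660 : i < 720
    · exact ct663_660 i h660 (by omega)
    by_cases h720 : i < 780
    · exact ct663_720 i h720 (by omega)
    by_cases h780 : i < 840
    · exact ct663_780 i h780 (by omega)
    by_cases h840 : i < 900
    · exact ct663_840 i h840 (by omega)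
    by_cases h900 : i < 960
    · exact ct663_900 i h900 (by omega)
    by_cases h960 : i < 1020
    · exact ct663_960 i h960 (by omega)
    exact ct663_1020 i hi (by omega)
  inn := inner_ok (by decide +kernel) (by decide +kernel)
  arrA := arr63
  arrB := arr63

theorem q663 : ∀ q < S663.NA, ∀ q' < S663.NB, q ≤ q' → ∀ σ < S663.NS, S663.cI q σ q' = true := by
  intro q hq q' hq' hqq σ hσ
  have hq : q < 260 := hq
  by_cases h0 : q < 2
  · exact Sh.cQ_spec cQ663_0 q (by omega) (by omega) q' hq' (by omega) σ hσ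
  by_cases h2 : q < 4
  · exact Sh.cQ_spec cQ663_2 q (by omega) (by omega) q' hq' (by omega) σ hσ
  by_cases h4 : q < 6
  · exact Sh.cQ_spec cQ663_4 q (by omega) (by omega) q' hq' (by omega) σ hσ
  by_cases h6 : q < 8
  · exact Sh.cQ_spec cQ663_6 q (by omega) (by omega) q' hq' (by omega) σ hσ
  by_cases h8 : q < 10
  · exact Sh.cQ_spec cQ663_8 q (by omega) (by omega) q' hq' (by omega) σ hσ
  by_cases h10 : q < 12
  · exact Sh.cQ_spec cQ663_10 q (by omega) (by omega) q' hq' (by omega) σ hσ
  by_cases h12 : q < 14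
  · exact Sh.cQ_spec cQ663_12 q (by omega) (by omega) q' hq' (by omega) σ hσ
  by_cases h14 : q < 16
  · exact Sh.cQ_spec cQ663_14 q (by omega) (by omega) q' hq' (by omega) σ hσ
  by_cases h16 : q < 18
  · exact Sh.cQ_spec cQ663_16 q (by omega) (by omega) q' hq' (by omega) σ hσ
  by_cases h18 : q < 20
  · exact Sh.cQ_spec cQ663_18 q (by omega) (by omega) q' hq' (by omega) σ hσ
  by_cases h20 : q < 22
  · exact Sh.cQ_spec cQ663_20 q (by omega) (by omega) q' hq' (by omega) σ hσ
  by_cases h22 : q < 24
  · exact Sh.cQ_spec cQ663_22 q (by omega) (by omega) q' hq' (by omega) σ hσ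
  by_cases h24 : q < 26
  · exact Sh.cQ_spec cQ663_24 q (by omega) (by omega) q' hq' (by omega) σ hσ
  by_cases h26 : q < 28
  · exact Sh.cQ_spec cQ663_26 q (by omega) (by omega) q' hq' (by omega) σ hσ
  by_cases h28 : q < 30
  · exact Sh.cQ_spec cQ663_28 q (by omega) (by omega) q' hq' (by omega) σ hσ
  by_cases h30 : q < 32
  · exact Sh.cQ_spec cQ663_30 q (by omega) (by omega) q' hq' (by omega) σ hσ
  by_cases h32 : q < 34
  · exact Sh.cQ_spec cQ663_32 q (by omega) (by omega) q' hq' (by omega) σ hσ
  by_cases h34 : q < 36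
  · exact Sh.cQ_spec cQ663_34 q (by omega) (by omega) q' hq' (by omega) σ hσ
  by_cases h36 : q < 38
  · exact Sh.cQ_spec cQ663_36 q (by omega) (by omega) q' hq' (by omega) σ hσ
  by_cases h38 : q < 40
  · exact Sh.cQ_spec cQ663_38 q (by omega) (by omega) q' hq' (by omega) σ hσ
  by_cases h40 : q < 42
  · exact Sh.cQ_spec cQ663_40 q (by omega) (by omega) q' hq' (by omega) σ hσ
  by_cases h42 : q < 44
  · exact Sh.cQ_spec cQ663_42 q (by omega) (by omega) q' hq' (by omega) σ hσ
  by_cases h44 : q < 46
  · exact Sh.cQ_spec cQ663_44 q (by omega) (by omega) q' hq' (by omega) σ hσ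
  by_cases h46 : q < 48
  · exact Sh.cQ_spec cQ663_46 q (by omega) (by omega) q' hq' (by omega) σ hσ
  by_cases h48 : q < 50
  · exact Sh.cQ_spec cQ663_48 q (by omega) (by omega) q' hq' (by omega) σ hσ
  by_cases h50 : q < 52
  · exact Sh.cQ_spec cQ663_50 q (by omega) (by omega) q' hq' (by omega) σ hσ
  by_cases h52 : q < 54
  · exact Sh.cQ_spec cQ663_52 q (by omega) (by omega) q' hq' (by omega) σ hσ
  by_cases h54 : q < 56
  · exact Sh.cQ_spec cQ663_54 q (by omega) (by omega) q' hq' (by omega) σ hσ
  by_cases h56 : q < 58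
  · exact Sh.cQ_spec cQ663_56 q (by omega) (by omega) q' hq' (by omega) σ hσ
  by_cases h58 : q < 60
  · exact Sh.cQ_spec cQ663_58 q (by omega) (by omega) q' hq' (by omega) σ hσ
  by_cases h60 : q < 62
  · exact Sh.cQ_spec cQ663_60 q (by omega) (by omega) q' hq' (by omega) σ hσ
  by_cases h62 : q < 64
  · exact Sh.cQ_spec cQ663_62 q (by omega) (by omega) q' hq' (by omega) σ hσ
  by_cases h64 : q < 66
  · exact Sh.cQ_spec cQ663_64 q (by omega) (by omega) q' hq' (by omega) σ hσ
  by_cases h66 : q < 68
  · exact Sh.cQ_spec cQ663_66 q (by omega) (by omega) q' hq' (by omega) σ hσ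
  by_cases h68 : q < 70
  · exact Sh.cQ_spec cQ663_68 q (by omega) (by omega) q' hq' (by omega) σ hσ
  by_cases h70 : q < 72
  · exact Sh.cQ_spec cQ663_70 q (by omega) (by omega) q' hq' (by omega) σ hσ
  by_cases h72 : q < 74
  · exact Sh.cQ_spec cQ663_72 q (by omega) (by omega) q' hq' (by omega) σ hσ
  by_cases h74 : q < 76
  · exact Sh.cQ_spec cQ663_74 q (by omega) (by omega) q' hq' (by omega) σ hσ
  by_cases h76 : q < 78
  · exact Sh.cQ_spec cQ663_76 q (by omega) (by omega) q' hq' (by omega) σ hσ
  by_cases h78 : q < 80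
  · exact Sh.cQ_spec cQ663_78 q (by omega) (by omega) q' hq' (by omega) σ hσ
  by_cases h80 : q < 82
  · exact Sh.cQ_spec cQ663_80 q (by omega) (by omega) q' hq' (by omega) σ hσ
  by_cases h82 : q < 84
  · exact Sh.cQ_spec cQ663_82 q (by omega) (by omega) q' hq' (by omega) σ hσ
  by_cases h84 : q < 86
  · exact Sh.cQ_spec cQ663_84 q (by omega) (by omega) q' hq' (by omega) σ hσ
  by_cases h86 : q < 88
  · exact Sh.cQ_spec cQ663_86 q (by omega) (by omega) q' hq' (by omega) σ hσ
  by_cases h88 : q < 90
  · exact Sh.cQ_spec cQ663_88 q (by omega) (by omega) q' hq' (by omega) σ hσ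
  by_cases h90 : q < 92
  · exact Sh.cQ_spec cQ663_90 q (by omega) (by omega) q' hq' (by omega) σ hσ
  by_cases h92 : q < 94
  · exact Sh.cQ_spec cQ663_92 q (by omega) (by omega) q' hq' (by omega) σ hσ
  by_cases h94 : q < 96
  · exact Sh.cQ_spec cQ663_94 q (by omega) (by omega) q' hq' (by omega) σ hσ
  by_cases h96 : q < 98
  · exact Sh.cQ_spec cQ663_96 q (by omega) (by omega) q' hq' (by omega) σ hσ
  by_cases h98 : q < 100
  · exact Sh.cQ_spec cQ663_98 q (by omega) (by omega) q' hq' (by omega) σ hσ
  by_cases h100 : q < 102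
  · exact Sh.cQ_spec cQ663_100 q (by omega) (by omega) q' hq' (by omega) σ hσ
  by_cases h102 : q < 104
  · exact Sh.cQ_spec cQ663_102 q (by omega) (by omega) q' hq' (by omega) σ hσ
  by_cases h104 : q < 106
  · exact Sh.cQ_spec cQ663_104 q (by omega) (by omega) q' hq' (by omega) σ hσ
  by_cases h106 : q < 108
  · exact Sh.cQ_spec cQ663_106 q (by omega) (by omega) q' hq' (by omega) σ hσ
  by_cases h108 : q < 110
  · exact Sh.cQ_spec cQ663_108 q (by omega) (by omega) q' hq' (by omega) σ hσ
  by_cases h110 : q < 112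
  · exact Sh.cQ_spec cQ663_110 q (by omega) (by omega) q' hq' (by omega) σ hσ
  by_cases h112 : q < 114
  · exact Sh.cQ_spec cQ663_112 q (by omega) (by omega) q' hq' (by omega) σ hσ
  by_cases h114 : q < 116
  · exact Sh.cQ_spec cQ663_114 q (by omega) (by omega) q' hq' (by omega) σ hσ
  by_cases h116 : q < 118
  · exact Sh.cQ_spec cQ663_116 q (by omega) (by omega) q' hq' (by omega) σ hσ
  by_cases h118 : q < 120
  · exact Sh.cQ_spec cQ663_118 q (by omega) (by omega) q' hq' (by omega) σ hσ
  by_cases h120 : q < 122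
  · exact Sh.cQ_spec cQ663_120 q (by omega) (by omega) q' hq' (by omega) σ hσ
  by_cases h122 : q < 124
  · exact Sh.cQ_spec cQ663_122 q (by omega) (by omega) q' hq' (by omega) σ hσ
  by_cases h124 : q < 126
  · exact Sh.cQ_spec cQ663_124 q (by omega) (by omega) q' hq' (by omega) σ hσ
  by_cases h126 : q < 128
  · exact Sh.cQ_spec cQ663_126 q (by omega) (by omega) q' hq' (by omega) σ hσ
  by_cases h128 : q < 131
  · exact Sh.cQ_spec cQ663_128 q (by omega) (by omega) q' hq' (by omega) σ hσ
  by_cases h131 : q < 134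
  · exact Sh.cQ_spec cQ663_131 q (by omega) (by omega) q' hq' (by omega) σ hσ
  by_cases h134 : q < 137
  · exact Sh.cQ_spec cQ663_134 q (by omega) (by omega) q' hq' (by omega) σ hσ
  by_cases h137 : q < 140
  · exact Sh.cQ_spec cQ663_137 q (by omega) (by omega) q' hq' (by omega) σ hσ
  by_cases h140 : q < 143
  · exact Sh.cQ_spec cQ663_140 q (by omega) (by omega) q' hq' (by omega) σ hσ
  by_cases h143 : q < 146
  · exact Sh.cQ_spec cQ663_143 q (by omega) (by omega) q' hq' (by omega) σ hσ
  by_cases h146 : q < 149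
  · exact Sh.cQ_spec cQ663_146 q (by omega) (by omega) q' hq' (by omega) σ hσ
  by_cases h149 : q < 152
  · exact Sh.cQ_spec cQ663_149 q (by omega) (by omega) q' hq' (by omega) σ hσ
  by_cases h152 : q < 155
  · exact Sh.cQ_spec cQ663_152 q (by omega) (by omega) q' hq' (by omega) σ hσ
  by_cases h155 : q < 158
  · exact Sh.cQ_spec cQ663_155 q (by omega) (by omega) q' hq' (by omega) σ hσ
  by_cases h158 : q < 161
  · exact Sh.cQ_spec cQ663_158 q (by omega) (by omega) q' hq' (by omega) σ hσ
  by_cases h161 : q < 164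
  · exact Sh.cQ_spec cQ663_161 q (by omega) (by omega) q' hq' (by omega) σ hσ
  by_cases h164 : q < 167
  · exact Sh.cQ_spec cQ663_164 q (by omega) (by omega) q' hq' (by omega) σ hσ
  by_cases h167 : q < 170
  · exact Sh.cQ_spec cQ663_167 q (by omega) (by omega) q' hq' (by omega) σ hσ
  by_cases h170 : q < 173
  · exact Sh.cQ_spec cQ663_170 q (by omega) (by omega) q' hq' (by omega) σ hσ
  by_cases h173 : q < 177
  · exact Sh.cQ_spec cQ663_173 q (by omega) (by omega) q' hq' (by omega) σ hσ
  by_cases h177 : q < 181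
  · exact Sh.cQ_spec cQ663_177 q (by omega) (by omega) q' hq' (by omega) σ hσ
  by_cases h181 : q < 185
  · exact Sh.cQ_spec cQ663_181 q (by omega) (by omega) q' hq' (by omega) σ hσ
  by_cases h185 : q < 189
  · exact Sh.cQ_spec cQ663_185 q (by omega) (by omega) q' hq' (by omega) σ hσ
  by_cases h189 : q < 193
  · exact Sh.cQ_spec cQ663_189 q (by omega) (by omega) q' hq' (by omega) σ hσ
  by_cases h193 : q < 197
  · exact Sh.cQ_spec cQ663_193 q (by omega) (by omega) q' hq' (by omega) σ hσ
  by_cases h197 : q < 201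
  · exact Sh.cQ_spec cQ663_197 q (by omega) (by omega) q' hq' (by omega) σ hσ
  by_cases h201 : q < 205
  · exact Sh.cQ_spec cQ663_201 q (by omega) (by omega) q' hq' (by omega) σ hσ
  by_cases h205 : q < 209
  · exact Sh.cQ_spec cQ663_205 q (by omega) (by omega) q' hq' (by omega) σ hσ
  by_cases h209 : q < 213
  · exact Sh.cQ_spec cQ663_209 q (by omega) (by omega) q' hq' (by omega) σ hσ
  by_cases h213 : q < 217
  · exact Sh.cQ_spec cQ663_213 q (by omega) (by omega) q' hq' (by omega) σ hσ
  by_cases h217 : q < 221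
  · exact Sh.cQ_spec cQ663_217 q (by omega) (by omega) q' hq' (by omega) σ hσ
  by_cases h221 : q < 225
  · exact Sh.cQ_spec cQ663_221 q (by omega) (by omega) q' hq' (by omega) σ hσ
  by_cases h225 : q < 229
  · exact Sh.cQ_spec cQ663_225 q (by omega) (by omega) q' hq' (by omega) σ hσ
  by_cases h229 : q < 233
  · exact Sh.cQ_spec cQ663_229 q (by omega) (by omega) q' hq' (by omega) σ hσ
  by_cases h233 : q < 237
  · exact Sh.cQ_spec cQ663_233 q (by omega) (by omega) q' hq' (by omega) σ hσ
  by_cases h237 : q < 241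
  · exact Sh.cQ_spec cQ663_237 q (by omega) (by omega) q' hq' (by omega) σ hσ
  by_cases h241 : q < 245
  · exact Sh.cQ_spec cQ663_241 q (by omega) (by omega) q' hq' (by omega) σ hσ
  by_cases h245 : q < 249
  · exact Sh.cQ_spec cQ663_245 q (by omega) (by omega) q' hq' (by omega) σ hσ
  by_cases h249 : q < 253
  · exact Sh.cQ_spec cQ663_249 q (by omega) (by omega) q' hq' (by omega) σ hσ
  by_cases h253 : q < 257
  · exact Sh.cQ_spec cQ663_253 q (by omega) (by omega) q' hq' (by omega) σ hσ
  exact Sh.cQ_spec cQ663_257 q (by omega) (by omega) q' hq' (by omega) σ hσ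

theorem j663 : JN T0 Y0 6 6 3 := f663.Jsym rfl rfl rfl (fun _ => rfl) q663

end Pool.Agent.T2h40.CW6
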