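import Pool.Agent.T2h40.CW6.Fam

/-!
# A single vertex has all states
-/

set_option autoImplicit false

open Finset

namespace Pool.Agent.T2h40.CW6

open Pool.Agent.W420.BF (cut bd Tr Ord)

theorem t_LEAF : S_LEAF := by
  classical
  intro T n hst V E _ s t v o M ho j hj _
  obtain ⟨h1, h2⟩ := hst j hj
  obtain ⟨q, hq⟩ : ∃ q, q = T.st n j := ⟨_, rfl⟩
  rw [← hq] at h1 h2 ⊢
  have hidx : ∀ e, e ∈ cut s t {v} → ∃ p < n, o p = e := fun e he => (ho.2 e).1 he
  obtain ⟨g, hg⟩ : ∃ g : E → ℕ, ∀ e ∈ cut s t {v}, g e < n ∧ o (g e) = e := by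
    choose! g g1 g2 using hidx
    exact ⟨g, fun e he => ⟨g1 e he, g2 e he⟩⟩
  have hgo : ∀ p < n, g (o p) = p := by
    intro p hp
    have h3 := hg (o p) ((ho.2 _).2 ⟨p, hp, rfl⟩)
    exact ho.1 _ h3.1 _ hp h3.2
  obtain ⟨c, hc⟩ : ∃ c : Fin 6 → E → ZMod 2, c = fun (i : Fin 6) e =>
    if e ∈ cut s t {v} then (if (col q i).testBit (g e) = true then 1 else 0)
      else (if i.1 < 4 then 1 else 0) := ⟨_, rfl⟩
  have hc1 : ∀ i e, e ∈ cut s t {v} → c i e = if (col q i).testBit (g e) = true then 1 else 0 := by
    intro i e he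
    rw [hc]
    dsimp only
    rw [if_pos he]
  have hc2 : ∀ i e, e ∉ cut s t {v} → c i e = if i.1 < 4 then 1 else 0 := by
    intro i e he
    rw [hc]
    dsimp only
    rw [if_neg he]
  refine ⟨c, ⟨fun e => ?_, fun z hz i => ?_⟩, fun p hp i => ?_⟩
  · by_cases he : e ∈ cut s t {v}
    · rw [← h1 (g e) (hg e he).1]
      congr 1
      apply filter_congr
      intro i _
      rw [hc1 i e he]
      split_ifs with h
      · simp [h]
      · simp [h]
    · have h3 : (univ.filter fun i => c i e = 1) = univ.filter fun i : Fin 6 => i.1 < 4 := by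
        apply filter_congr
        intro i _
        rw [hc2 i e he]
        split_ifs with h
        · simp [h]
        · simp [h]
      rw [h3]
      decide
  · rw [Set.mem_singleton_iff] at hz
    subst hz
    have h3 : bd s t (c i) z = ∑ e ∈ cut s t {z}, c i e := by
      unfold bd
      rw [← sum_filter_add_sum_filter_not univ (fun e => e ∈ cut s t {z})]
      have h4 : ∑ e ∈ univ.filter (fun e => ¬ e ∈ cut s t {z}),
          c i e * ((if s e = z then 1 else 0) + (if t e = z then 1 else 0)) = 0 := by
        apply sum_eq_zero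
        intro e he
        rw [mem_filter, mem_cut, not_not] at he
        have h5 := he.2
        simp only [Set.mem_singleton_iff] at h5
        have h6 : (1 : ZMod 2) + 1 = 0 := by decide
        by_cases hs : s e = z
        · rw [if_pos hs, if_pos (h5.1 hs), h6, mul_zero]
        · rw [if_neg hs, if_neg (fun h => hs (h5.2 h)), add_zero, mul_zero]
      rw [h4, add_zero]
      refine sum_congr (by ext e; simp) fun e he => ?_
      rw [mem_cut] at he
      have h5 := he
      simp only [Set.mem_singleton_iff] at h5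
      by_cases hs : s e = z
      · rw [if_pos hs, if_neg (fun h => h5 ⟨fun _ => h, fun _ => hs⟩), add_zero, mul_one]
      · have ht : t e = z := by
          by_contra ht
          exact h5 ⟨fun h => absurd h hs, fun h => absurd h ht⟩
        rw [if_neg hs, if_pos ht, zero_add, mul_one]
    rw [h3]
    have h4 : ∑ e ∈ cut s t {z}, c i e =
        ∑ p ∈ range n, if (col q i).testBit p = true then (1 : ZMod 2) else 0 := by
      symm
      apply sum_bij (fun p _ => o p)
      · intro p hp
        exact (ho.2 _).2 ⟨p, mem_range.1 hp, rfl⟩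
      · intro p hp p' hp' h
        exact ho.1 p (mem_range.1 hp) p' (mem_range.1 hp') h
      · intro e he
        exact ⟨g e, mem_range.2 (hg e he).1, (hg e he).2⟩
      · intro p hp
        rw [hc1 i _ ((ho.2 _).2 ⟨p, mem_range.1 hp, rfl⟩), hgo p (mem_range.1 hp)]
    rw [h4, ← sum_filter, sum_const, nsmul_eq_mul, mul_one]
    have h5 := h2 i.1 i.2
    exact (ZMod.natCast_eq_zero_iff_even).2 h5
  · have he : o p ∈ cut s t {v} := (ho.2 _).2 ⟨p, hp, rfl⟩
    rw [hc1 i _ he, hgo p hp]

end Pool.Agent.T2h40.CW6
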