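import Pool.Agent.T2h40.CW6.Defs

/-!
# BASE: the cut function of a graph
-/

set_option autoImplicit false

open Finset

namespace Pool.Agent.T2h40.CW6

open Pool.Agent.W420.BF (cut bd Tr)

theorem t_BASE : S_BASE := by
  classical
  intro V E _ s t U hU h3 h1
  have hds : ∀ X Y : Set V, Disjoint X Y → ∀ v, ¬ (v ∈ X ∧ v ∈ Y) := by
    intro X Y h v hv
    exact Set.disjoint_left.1 h hv.1 hv.2
  refine ⟨{ U := U
            d := fun Z => (cut s t Z).card
            e := fun X Y => (jn s t X Y).card
            symm := ?_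
            add := ?_
            dun := ?_
            dcomp := ?_
            dU := ?_
            three := h3
            triv := h1 }, rfl, fun _ => rfl, fun _ _ _ => rfl⟩
  · intro X Y
    congr 1
    ext e
    simp only [jn, mem_filter, mem_univ, true_and]
    exact or_comm
  · intro X Y Z hXY hXZ hYZ
    have a1 := hds X Y hXY
    have a2 := hds X Z hXZ
    have a3 := hds Y Z hYZ
    simp only [jn, card_filter, Set.mem_union]
    rw [← sum_add_distrib]
    refine sum_congr rfl fun e _ => ?_
    have b1 := a1 (s e)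
    have b2 := a2 (s e)
    have b3 := a3 (s e)
    have c1 := a1 (t e)
    have c2 := a2 (t e)
    have c3 := a3 (t e)
    by_cases p1 : s e ∈ X <;> by_cases p2 : s e ∈ Y <;> by_cases p3 : s e ∈ Z <;>
      by_cases q1 : t e ∈ X <;> by_cases q2 : t e ∈ Y <;> by_cases q3 : t e ∈ Z <;>
      simp_all
  · intro X Y hXY
    have a1 := hds X Y hXY
    simp only [jn, cut, card_filter, Set.mem_union]
    rw [mul_sum, ← sum_add_distrib, ← sum_add_distrib]
    refine sum_congr rfl fun e _ => ?_
    have b1 := a1 (s e)
    have c1 := a1 (t e)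
    by_cases p1 : s e ∈ X <;> by_cases p2 : s e ∈ Y <;>
      by_cases q1 : t e ∈ X <;> by_cases q2 : t e ∈ Y <;>
      simp_all
  · intro X _
    congr 1
    ext e
    simp only [jn, cut, mem_filter, mem_univ, true_and, Set.mem_sdiff, (hU e).1, (hU e).2]
    by_cases p1 : s e ∈ X <;> by_cases q1 : t e ∈ X <;> simp_all
  · rw [card_eq_zero, cut, filter_eq_empty_iff]
    intro e _ h
    exact h ⟨fun _ => (hU e).2, fun _ => (hU e).1⟩

end Pool.Agent.T2h40.CW6
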