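import Pool.Agent.T2h40.CW6.SysLem

/-!
# FINAL: the last two vertices (helper59)
-/

set_option autoImplicit false

namespace Pool.Agent.T2h40.CW6

section

variable {V : Type} {S : Sys V} {H : Set V → Prop} {C : Prop}

/-- `w`, `w'` and the rest `O` -/
structure Rest (S : Sys V) (w w' : V) (O : Set V) : Prop where
  hw : w ∈ S.U
  hw' : w' ∈ S.U
  hne : w ≠ w'
  sub : O ⊆ S.U
  nw : w ∉ O
  nw' : w' ∉ O
  c1 : S.U \ {w} = O ∪ {w'}
  c2 : S.U \ {w'} = O ∪ {w}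
  c3 : S.U \ O = {w} ∪ {w'}
  ne : O.Nonempty

theorem Rest.symm {w w' : V} {O : Set V} (h : Rest S w w' O) : Rest S w' w O :=
  ⟨h.hw', h.hw, h.hne.symm, h.sub, h.nw', h.nw, h.c2, h.c1, by rw [h.c3, Set.union_comm], h.ne⟩

theorem Rest.mk' {w w' : V} {O : Set V} (hw : w ∈ S.U) (hw' : w' ∈ S.U) (hne : w ≠ w')
    (hO : O = S.U \ {w, w'}) (hOn : O.Nonempty) : Rest S w w' O := by
  have hmem : ∀ z, z ∈ O ↔ z ∈ S.U ∧ z ≠ w ∧ z ≠ w' := by
    intro z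
    rw [hO]
    simp only [Set.mem_sdiff, Set.mem_insert_iff, Set.mem_singleton_iff, not_or]
  refine ⟨hw, hw', hne, fun z hz => ((hmem z).1 hz).1, fun h => ((hmem w).1 h).2.1 rfl,
    fun h => ((hmem w').1 h).2.2 rfl, ?_, ?_, ?_, hOn⟩
  · ext z
    simp only [Set.mem_sdiff, Set.mem_singleton_iff, Set.mem_union, hmem]
    constructor
    · rintro ⟨h1, h2⟩
      by_cases h3 : z = w'
      · exact Or.inr h3
      · exact Or.inl ⟨h1, h2, h3⟩
    · rintro (⟨h1, h2, _⟩ | rfl)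
      · exact ⟨h1, h2⟩
      · exact ⟨hw', hne.symm⟩
  · ext z
    simp only [Set.mem_sdiff, Set.mem_singleton_iff, Set.mem_union, hmem]
    constructor
    · rintro ⟨h1, h2⟩
      by_cases h3 : z = w
      · exact Or.inr h3
      · exact Or.inl ⟨h1, h3, h2⟩
    · rintro (⟨h1, _, h2⟩ | rfl)
      · exact ⟨h1, h2⟩
      · exact ⟨hw, hne⟩
  · ext z
    simp only [Set.mem_sdiff, Set.mem_singleton_iff, Set.mem_union, hmem]
    constructor
    · rintro ⟨h1, h2⟩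
      by_contra h3
      push Not at h3
      exact h2 ⟨h1, h3.1, h3.2⟩
    · rintro (rfl | rfl)
      · exact ⟨hw, fun h => h.2.1 rfl⟩
      · exact ⟨hw', fun h => h.2.2 rfl⟩

section

variable {w w' : V} {O : Set V} (h : Rest S w w' O)

include h

theorem Rest.dis : Disjoint ({w} : Set V) {w'} := Set.disjoint_singleton.2 h.hne
theorem Rest.disw : Disjoint ({w} : Set V) O := Set.disjoint_singleton_left.2 h.nw
theorem Rest.disw' : Disjoint ({w'} : Set V) O := Set.disjoint_singleton_left.2 h.nw'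
theorem Rest.sw : ({w} : Set V) ⊆ S.U := Set.singleton_subset_iff.2 h.hw
theorem Rest.sw' : ({w'} : Set V) ⊆ S.U := Set.singleton_subset_iff.2 h.hw'

theorem Rest.d1 : S.d (O ∪ {w'}) = S.d {w} := by rw [← h.c1, S.d_compl h.sw]

theorem Rest.d2 : S.d (O ∪ {w}) = S.d {w'} := by rw [← h.c2, S.d_compl h.sw']

theorem Rest.e1 : S.e {w} O + S.e {w} {w'} = S.d {w} := by
  rw [← S.dcomp {w} h.sw, h.c1, S.add' h.disw'.symm h.disw.symm h.dis.symm]

theorem Rest.d3 : S.d O + 2 * S.e {w} {w'} = S.d {w} + S.d {w'} := by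
  rw [← S.dun {w} {w'} h.dis, ← h.c3, S.d_compl h.sub]

theorem Rest.dO : 3 ≤ S.d O := S.three O h.sub h.ne ⟨w, h.hw, h.nw⟩

theorem Rest.dw : 3 ≤ S.d {w} := S.three {w} h.sw ⟨w, rfl⟩ ⟨w', h.hw', fun e => h.hne e.symm⟩

end

/-- a vertex of a disconnected `O` is joined to `w'` -/
theorem pair_edge {w w' u u' : V} (h : Rest S w w' ({u} ∪ {u'})) (hn : u ≠ u')
    (du : S.d {u} = 3) (e0 : S.e {u} {u'} = 0) (dw : S.d {w} ≤ 6) : 1 ≤ S.e {w'} {u} := by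
  by_contra hcon
  have hu : u ∈ S.U := h.sub (Or.inl rfl)
  have hu' : u' ∈ S.U := h.sub (Or.inr rfl)
  have nwu : w ≠ u := fun e => h.nw (Or.inl e)
  have nwu' : w ≠ u' := fun e => h.nw (Or.inr e)
  have nw'u : w' ≠ u := fun e => h.nw' (Or.inl e)
  have nw'u' : w' ≠ u' := fun e => h.nw' (Or.inr e)
  have D : ∀ {a b : V}, a ≠ b → Disjoint ({a} : Set V) {b} := fun h => Set.disjoint_singleton.2 h
  have hc : S.U \ {u} = {u'} ∪ ({w} ∪ {w'}) := by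
    ext z
    simp only [Set.mem_sdiff, Set.mem_singleton_iff, Set.mem_union]
    have h3 : z ∈ S.U \ ({u} ∪ {u'}) ↔ z ∈ ({w} ∪ {w'} : Set V) := by rw [h.c3]
    simp only [Set.mem_sdiff, Set.mem_singleton_iff, Set.mem_union, not_or] at h3
    constructor
    · rintro ⟨h1, h2⟩
      by_cases h4 : z = u'
      · exact Or.inl h4
      · exact Or.inr (h3.1 ⟨h1, h2, h4⟩)
    · rintro (rfl | h4)
      · exact ⟨hu', hn.symm⟩
      · have := h3.2 h4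
        exact ⟨this.1, this.2.1⟩
  have h1 := S.dcomp {u} (Set.singleton_subset_iff.2 hu)
  rw [hc, S.add' (Set.disjoint_union_right.2 ⟨D nwu'.symm, D nw'u'.symm⟩) (D hn.symm)
    (Set.disjoint_union_left.2 ⟨D nwu, D nw'u⟩), S.add' h.dis (D nwu) (D nw'u), e0,
    S.symm {u} {w'}, S.symm {u} {w}, du] at h1
  have h2 := S.dun {w} {u} (D nwu)
  have h4 : 4 ≤ S.d ({w} ∪ {u}) := by
    refine S.four (Set.union_subset h.sw (Set.singleton_subset_iff.2 hu)) (Or.inl rfl)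
      (Or.inr rfl) nwu h.hw' ?_ hu' ?_ nw'u'
    · rintro (e | e)
      · exact h.hne (Set.mem_singleton_iff.1 e).symm
      · exact nw'u e
    · rintro (e | e)
      · exact nwu' (Set.mem_singleton_iff.1 e).symm
      · exact hn (Set.mem_singleton_iff.1 e).symm
  omega

theorem finA2 (hyp : Hyp S H C) {w w' u u' : V} (h : Rest S w w' ({u} ∪ {u'})) (hn : u ≠ u')
    (du : S.d {u} = 3) (du' : S.d {u'} = 3) (e0 : S.e {u} {u'} = 0) (dw : S.d {w} ≤ 6)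
    (dw' : S.d {w'} ≤ 6) (h4 : 4 ≤ S.d {w}) (d6 : S.d ({u} ∪ {u'}) = 6)
    (hk : S.e {w'} {u'} ≤ S.e {w'} {u}) (hk' : 1 ≤ S.e {w'} {u'}) : C := by
  have hu : u ∈ S.U := h.sub (Or.inl rfl)
  have hu' : u' ∈ S.U := h.sub (Or.inr rfl)
  have nwu : w ≠ u := fun e => h.nw (Or.inl e)
  have nwu' : w ≠ u' := fun e => h.nw (Or.inr e)
  have nw'u : w' ≠ u := fun e => h.nw' (Or.inl e)
  have nw'u' : w' ≠ u' := fun e => h.nw' (Or.inr e)
  have su := Set.singleton_subset_iff.2 hu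
  have su' := Set.singleton_subset_iff.2 hu'
  have D : ∀ {a b : V}, a ≠ b → Disjoint ({a} : Set V) {b} := fun h => Set.disjoint_singleton.2 h
  have h1 := S.dun {w'} {u} (D nw'u)
  have h2 : 4 ≤ S.d ({w'} ∪ {u}) := by
    refine S.four (Set.union_subset h.sw' su) (Or.inl rfl)
      (Or.inr rfl) nw'u h.hw ?_ hu' ?_ nwu'
    · rintro (e | e)
      · exact h.hne (Set.mem_singleton_iff.1 e)
      · exact nwu e
    · rintro (e | e)
      · exact nw'u' (Set.mem_singleton_iff.1 e).symm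
      · exact hn (Set.mem_singleton_iff.1 e).symm
  have h3 := h.symm.e1
  rw [S.add' (D hn) (D nw'u.symm) (D nw'u'.symm), S.symm {w'} {w}] at h3
  have h5 := h.d3
  have h6 : S.d ({w'} ∪ {u}) ≤ 6 := by omega
  have H1 : H ({w'} ∪ {u}) := hyp.join {w'} {u} h.sw' su (D nw'u) ⟨w', rfl⟩ ⟨u, rfl⟩
    (hyp.leaf w' h.hw') (hyp.leaf u hu) dw' (by omega) (by omega) h2 h6
  have hun : ({w'} ∪ {u}) ∪ {u'} = S.U \ {w} := by
    rw [h.c1]
    ext z
    simp only [Set.mem_union]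
    tauto
  have hd : S.d (({w'} ∪ {u}) ∪ {u'}) = S.d {w} := by rw [hun, S.d_compl h.sw]
  have he : S.e ({w'} ∪ {u}) {u'} = S.e {w'} {u'} + S.e {u} {u'} :=
    S.add {w'} {u} {u'} (D nw'u) (D nw'u') (D hn)
  have H2 : H (({w'} ∪ {u}) ∪ {u'}) := hyp.join ({w'} ∪ {u}) {u'} (Set.union_subset h.sw' su) su'
    (Set.disjoint_union_left.2 ⟨D nw'u', D hn⟩) ⟨w', Or.inl rfl⟩ ⟨u', rfl⟩ H1 (hyp.leaf u' hu') h6
    (by omega) (by omega) (by omega) (by omega)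
  rw [hun] at H2
  exact hyp.last w h.hw H2

theorem finA (hyp : Hyp S H C) {w w' : V} {O : Set V} (h : Rest S w w' O) (hdO : S.d O ≤ 6)
    (dw : S.d {w} ≤ 6) (dw' : S.d {w'} ≤ 6) (hcl : Cl S H O) (h4 : 4 ≤ S.d {w}) : C := by
  by_cases cO : S.Conn O
  · have HO : H O := hcl cO ⟨w, ⟨h.hw, h.nw⟩, w', ⟨h.hw', h.nw'⟩, h.hne⟩
    by_cases he : 1 ≤ S.e O {w'}
    · have HU : H (O ∪ {w'}) := hyp.join O {w'} h.sub h.sw' h.disw'.symm h.ne ⟨w', rfl⟩ HO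
        (hyp.leaf w' h.hw') hdO dw' he (by rw [h.d1]; exact h4) (by rw [h.d1]; exact dw)
      exact hyp.last w h.hw (by rw [h.c1]; exact HU)
    · have h1 := h.symm.e1
      rw [S.symm {w'} O, S.symm {w'} {w}] at h1
      have h2 := h.symm.dw
      have h3 := h.d3
      have h5 := h.dO
      obtain ⟨z, rfl⟩ := S.point h.sub (by omega) h.hw h.nw h.hw' h.nw' h.hne
      exact hyp.fin0 {z} {w'} h.sub h.sw' h.disw'.symm ⟨z, rfl⟩ ⟨w', rfl⟩
        (hyp.leaf z (h.sub rfl)) (hyp.leaf w' h.hw') (by omega) (by omega) (by omega)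
        ⟨w, h.hw, h.c1.symm⟩
  · obtain ⟨u, u', hn, rfl, du, du', e0, d6⟩ := S.not_conn h.sub hdO h.hw h.nw h.hw' h.nw' h.hne cO
    have hcm : ({u} ∪ {u'} : Set V) = {u'} ∪ {u} := Set.union_comm _ _
    have h' : Rest S w w' ({u'} ∪ {u}) := by rw [← hcm]; exact h
    have e0' : S.e {u'} {u} = 0 := by rw [S.symm]; exact e0
    have k1 := pair_edge h hn du e0 dw
    have k2 := pair_edge h' hn.symm du' e0' dw
    rcases Nat.le_total (S.e {w'} {u'}) (S.e {w'} {u}) with hk | hk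
    · exact finA2 hyp h hn du du' e0 dw dw' h4 d6 hk k2
    · exact finA2 hyp h' hn.symm du' du e0' dw dw' h4 (by rw [← hcm]; exact d6) hk k1

theorem finB0 (hSTEP : S_STEP) (hyp : Hyp S H C) {w w' : V} {O O₁ O₂ : Set V} (h : Rest S w w' O)
    (hdO : S.d O = 6) (dw : S.d {w} = 3) (dw' : S.d {w'} = 3) (h12 : Disjoint O₁ O₂)
    (hn1 : O₁.Nonempty) (hn2 : O₂.Nonempty) (hun : O₁ ∪ O₂ = O) (hd1 : S.d O₁ ≤ 6)
    (hd2 : S.d O₂ ≤ 6) (hc1 : Cl S H O₁) (hc2 : Cl S H O₂)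
    (hs : S.e {w} O₁ + S.e {w'} O₁ ≤ 3) (hle : S.e {w'} O₁ ≤ S.e {w} O₁) : C := by
  obtain ⟨o1, ho1⟩ := hn1
  obtain ⟨o2, ho2⟩ := hn2
  have s1 : O₁ ⊆ O := by rw [← hun]; exact Set.subset_union_left
  have s2 : O₂ ⊆ O := by rw [← hun]; exact Set.subset_union_right
  have x0 : S.e {w} {w'} = 0 := by
    have := h.d3
    omega
  have D1w : Disjoint ({w} : Set V) O₁ := h.disw.mono_right s1
  have D2w : Disjoint ({w} : Set V) O₂ := h.disw.mono_right s2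
  have D1w' : Disjoint ({w'} : Set V) O₁ := h.disw'.mono_right s1
  have D2w' : Disjoint ({w'} : Set V) O₂ := h.disw'.mono_right s2
  have q1 := h.e1
  rw [← hun, S.add' h12 D1w.symm D2w.symm] at q1
  have q2 := h.symm.e1
  rw [← hun, S.add' h12 D1w'.symm D2w'.symm, S.symm {w'} {w}] at q2
  have q3 := S.dun O₁ O₂ h12
  rw [hun] at q3
  have hcomp1 : S.U \ O₁ = O₂ ∪ ({w} ∪ {w'}) := by
    ext z
    have h3 : z ∈ S.U \ O ↔ z ∈ ({w} ∪ {w'} : Set V) := by rw [h.c3]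
    simp only [← hun, Set.mem_sdiff, Set.mem_union, Set.mem_singleton_iff, not_or] at h3 ⊢
    constructor
    · rintro ⟨a1, a2⟩
      by_cases a3 : z ∈ O₂
      · exact Or.inl a3
      · exact Or.inr (h3.1 ⟨a1, a2, a3⟩)
    · rintro (a1 | a1)
      · exact ⟨h.sub (s2 a1), fun a2 => Set.disjoint_left.1 h12 a2 a1⟩
      · have := h3.2 a1
        exact ⟨this.1, this.2.1⟩
  have q4 := S.dcomp O₁ (s1.trans h.sub)
  rw [hcomp1, S.add' (Set.disjoint_union_right.2 ⟨D2w.symm, D2w'.symm⟩) h12.symm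
    (Set.disjoint_union_left.2 ⟨D1w, D1w'⟩), S.add' h.dis D1w D1w', S.symm O₁ {w},
    S.symm O₁ {w'}] at q4
  have q5 := S.dun O₁ {w} D1w.symm
  rw [S.symm O₁ {w}] at q5
  have sA : O₁ ∪ {w} ⊆ S.U := Set.union_subset (s1.trans h.sub) h.sw
  have nw'A : w' ∉ O₁ ∪ {w} := by
    rintro (e | e)
    · exact h.nw' (s1 e)
    · exact h.hne (Set.mem_singleton_iff.1 e).symm
  have no2A : o2 ∉ O₁ ∪ {w} := by
    rintro (e | e)
    · exact Set.disjoint_left.1 h12 e ho2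
    · exact h.nw (s2 (Set.mem_singleton_iff.1 e ▸ ho2))
  have ho2U : o2 ∈ S.U := h.sub (s2 ho2)
  have nw'o2 : w' ≠ o2 := fun e => h.nw' (s2 (e ▸ ho2))
  have q6 : 4 ≤ S.d (O₁ ∪ {w}) :=
    S.four sA (Or.inl ho1) (Or.inr rfl) (fun e => h.nw (s1 (e ▸ ho1))) h.hw' nw'A ho2U no2A nw'o2
  have q7 : S.d (O₁ ∪ {w}) ≤ 5 := by omega
  have q8 : S.d O₂ = S.d (O₁ ∪ {w}) + 1 := by omega
  have cA : S.Conn (O₁ ∪ {w}) := S.conn_of_le sA q7 h.hw' nw'A
  have clA : Cl S H (O₁ ∪ {w}) := hSTEP V S H C hyp O₁ {w} (s1.trans h.sub) h.sw D1w.symm ⟨o1, ho1⟩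
    ⟨w, rfl⟩ hd1 (by omega) (by omega) hc1 (cl_leaf hyp h.hw)
  have HA : H (O₁ ∪ {w}) := clA cA ⟨w', ⟨h.hw', nw'A⟩, o2, ⟨ho2U, no2A⟩, nw'o2⟩
  have DA2 : Disjoint (O₁ ∪ {w}) O₂ := Set.disjoint_union_left.2 ⟨h12, D2w⟩
  have hun2 : (O₁ ∪ {w}) ∪ O₂ = S.U \ {w'} := by
    rw [h.c2, ← hun]
    ext z
    simp only [Set.mem_union]
    tauto
  have hdA2 : S.d ((O₁ ∪ {w}) ∪ O₂) = 3 := by rw [hun2, S.d_compl h.sw', dw']
  by_cases cO2 : S.Conn O₂
  · have H2 : H O₂ := hc2 cO2 ⟨w, ⟨h.hw, fun e => h.nw (s2 e)⟩, w', ⟨h.hw', fun e => h.nw' (s2 e)⟩,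
      h.hne⟩
    exact hyp.fin (O₁ ∪ {w}) O₂ sA (s2.trans h.sub) DA2 ⟨o1, Or.inl ho1⟩ ⟨o2, ho2⟩ HA H2 hdA2
      (by omega) ⟨w', h.hw', hun2⟩
  · obtain ⟨u, u', hn, rfl, du, du', e0, d6⟩ := S.not_conn (s2.trans h.sub) hd2 h.hw
      (fun e => h.nw (s2 e)) h.hw' (fun e => h.nw' (s2 e)) h.hne cO2
    have hu : u ∈ S.U := h.sub (s2 (Or.inl rfl))
    have hu' : u' ∈ S.U := h.sub (s2 (Or.inr rfl))
    have su := Set.singleton_subset_iff.2 hu
    have su' := Set.singleton_subset_iff.2 hu'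
    have DAu : Disjoint (O₁ ∪ {w}) {u} := DA2.mono_right Set.subset_union_left
    have DAu' : Disjoint (O₁ ∪ {w}) {u'} := DA2.mono_right Set.subset_union_right
    have Duu : Disjoint ({u} : Set V) {u'} := Set.disjoint_singleton.2 hn
    have p1 := S.dun (O₁ ∪ {w}) ({u} ∪ {u'}) DA2
    rw [S.add' Duu DAu.symm DAu'.symm, hdA2] at p1
    have p2 := S.dun (O₁ ∪ {w}) {u} DAu
    have p3 := S.dun (O₁ ∪ {w}) {u'} DAu'
    have nAu : w' ∉ (O₁ ∪ {w}) ∪ {u} := by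
      rintro (e | e)
      · exact nw'A e
      · exact h.nw' (s2 (Or.inl e))
    have nAu' : w' ∉ (O₁ ∪ {w}) ∪ {u'} := by
      rintro (e | e)
      · exact nw'A e
      · exact h.nw' (s2 (Or.inr e))
    have p4 := S.three ((O₁ ∪ {w}) ∪ {u}) (Set.union_subset sA su) ⟨u, Or.inr rfl⟩ ⟨w', h.hw', nAu⟩
    have p5 := S.three ((O₁ ∪ {w}) ∪ {u'}) (Set.union_subset sA su') ⟨u', Or.inr rfl⟩
      ⟨w', h.hw', nAu'⟩
    have HAu : H ((O₁ ∪ {w}) ∪ {u}) := hyp.join (O₁ ∪ {w}) {u} sA su DAu ⟨o1, Or.inl ho1⟩ ⟨u, rfl⟩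
      HA (hyp.leaf u hu) (by omega) (by omega) (by omega) (by omega) (by omega)
    have hun3 : {u'} ∪ ((O₁ ∪ {w}) ∪ {u}) = S.U \ {w'} := by
      rw [← hun2]
      ext z
      simp only [Set.mem_union]
      tauto
    have Du' : Disjoint ({u'} : Set V) ((O₁ ∪ {w}) ∪ {u}) :=
      Set.disjoint_union_right.2 ⟨DAu'.symm, Duu.symm⟩
    exact hyp.fin {u'} ((O₁ ∪ {w}) ∪ {u}) su' (Set.union_subset sA su) Du' ⟨u', rfl⟩
      ⟨o1, Or.inl (Or.inl ho1)⟩ (hyp.leaf u' hu') HAu (by rw [hun3, S.d_compl h.sw', dw'])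
      (by omega) ⟨w', h.hw', hun3⟩

end

theorem t_FINAL : S_STEP → S_FINAL := by
  intro hSTEP V S H C hyp w w' hw hw' hne O hO hOn hdO hdw hdw' hcl hdec
  have h : Rest S w w' O := Rest.mk' hw hw' hne hO hOn
  by_cases h4 : 4 ≤ S.d {w}
  · exact finA hyp h hdO hdw hdw' hcl h4
  by_cases h4' : 4 ≤ S.d {w'}
  · exact finA hyp h.symm hdO hdw' hdw hcl h4'
  have dw : S.d {w} = 3 := by have := h.dw; omega
  have dw' : S.d {w'} = 3 := by have := h.symm.dw; omega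
  have q1 := h.d3
  have q2 := h.dO
  have q3 := h.symm.e1
  rw [S.symm {w'} {w}] at q3
  by_cases hx : 1 ≤ S.e {w} {w'}
  · have cO : S.Conn O := S.conn_of_le h.sub (by omega) hw h.nw
    have HO : H O := hcl cO ⟨w, ⟨h.hw, h.nw⟩, w', ⟨h.hw', h.nw'⟩, h.hne⟩
    have hun : {w'} ∪ O = S.U \ {w} := by rw [h.c1, Set.union_comm]
    exact hyp.fin {w'} O h.sw' h.sub h.disw' ⟨w', rfl⟩ hOn (hyp.leaf w' hw') HO
      (by rw [hun, S.d_compl h.sw, dw]) (by omega) ⟨w, hw, hun⟩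
  · rcases hdec with ⟨z, rfl⟩ | ⟨O₁, O₂, h12, hn1, hn2, hun, hd1, hd2, hc1, hc2⟩
    · have hzU : z ∈ S.U := h.sub rfl
      exact hyp.fin0 {w} {w'} h.sw h.sw' h.dis ⟨w, rfl⟩ ⟨w', rfl⟩ (hyp.leaf w hw) (hyp.leaf w' hw')
        dw dw' (by omega) ⟨z, hzU, h.c3.symm⟩
    · have s1 : O₁ ⊆ O := by rw [← hun]; exact Set.subset_union_left
      have s2 : O₂ ⊆ O := by rw [← hun]; exact Set.subset_union_right
      have r1 := h.e1
      rw [← hun, S.add' h12 (h.disw.mono_right s1).symm (h.disw.mono_right s2).symm] at r1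
      have r2 := h.symm.e1
      rw [← hun, S.add' h12 (h.disw'.mono_right s1).symm (h.disw'.mono_right s2).symm,
        S.symm {w'} {w}] at r2
      have hun' : O₂ ∪ O₁ = O := by rw [Set.union_comm]; exact hun
      have hdO6 : S.d O = 6 := by omega
      rcases Nat.le_total (S.e {w} O₁ + S.e {w'} O₁) 3 with ha | ha
      · rcases Nat.le_total (S.e {w'} O₁) (S.e {w} O₁) with hb | hb
        · exact finB0 hSTEP hyp h hdO6 dw dw' h12 hn1 hn2 hun hd1 hd2 hc1 hc2 ha hb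
        · exact finB0 hSTEP hyp h.symm hdO6 dw' dw h12 hn1 hn2 hun hd1 hd2 hc1 hc2 (by omega) hb
      · rcases Nat.le_total (S.e {w'} O₂) (S.e {w} O₂) with hb | hb
        · exact finB0 hSTEP hyp h hdO6 dw dw' h12.symm hn2 hn1 hun' hd2 hd1 hc2 hc1 (by omega) hb
        · exact finB0 hSTEP hyp h.symm hdO6 dw' dw h12.symm hn2 hn1 hun' hd2 hd1 hc2 hc1 (by omega) hb

end Pool.Agent.T2h40.CW6
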