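import Pool.Agent.T2h40.CW6.SysLem

/-!
# STEP: the union of two sets (helper59)
-/

set_option autoImplicit false

namespace Pool.Agent.T2h40.CW6

section

variable {V : Type} {S : Sys V} {H : Set V → Prop} {C : Prop}

/-- two pairs of points -/
theorem step3 (hyp : Hyp S H C) {w w' u u' : V} (hw : w ∈ S.U) (hw' : w' ∈ S.U) (hu : u ∈ S.U)
    (hu' : u' ∈ S.U) (n1 : w ≠ w') (n2 : u ≠ u') (n3 : w ≠ u) (n4 : w ≠ u') (n5 : w' ≠ u)
    (n6 : w' ≠ u') (dw : S.d {w} = 3) (dw' : S.d {w'} = 3) (du : S.d {u} = 3) (du' : S.d {u'} = 3)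
    (e1 : S.e {w} {w'} = 0) (e3 : S.e {w} {u} = 1)
    (e4 : S.e {w'} {u} = 1) (e5 : S.e {w'} {u'} = 1)
    (hd4 : 4 ≤ S.d (({w} ∪ {w'}) ∪ ({u} ∪ {u'}))) (hd6 : S.d (({w} ∪ {w'}) ∪ ({u} ∪ {u'})) ≤ 6) :
    H (({w} ∪ {w'}) ∪ ({u} ∪ {u'})) := by
  have sw := Set.singleton_subset_iff.2 hw
  have sw' := Set.singleton_subset_iff.2 hw'
  have su := Set.singleton_subset_iff.2 hu
  have su' := Set.singleton_subset_iff.2 hu'
  have D : ∀ {a b : V}, a ≠ b → Disjoint ({a} : Set V) {b} := fun h => Set.disjoint_singleton.2 h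
  have h1 := S.dun {w} {u} (D n3)
  have H1 : H ({w} ∪ {u}) := hyp.join {w} {u} sw su (D n3) ⟨w, rfl⟩ ⟨u, rfl⟩ (hyp.leaf w hw)
    (hyp.leaf u hu) (by omega) (by omega) (by omega) (by omega) (by omega)
  have D2 : Disjoint ({w} ∪ {u} : Set V) {w'} := Set.disjoint_union_left.2 ⟨D n1, D n5.symm⟩
  have h2 := S.dun ({w} ∪ {u}) {w'} D2
  have h3 := S.add {w} {u} {w'} (D n3) (D n1) (D n5.symm)
  rw [S.symm {u} {w'}] at h3
  have H2 : H (({w} ∪ {u}) ∪ {w'}) := hyp.join ({w} ∪ {u}) {w'} (Set.union_subset sw su) sw' D2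
    ⟨w, Or.inl rfl⟩ ⟨w', rfl⟩ H1 (hyp.leaf w' hw') (by omega) (by omega) (by omega) (by omega)
    (by omega)
  have D3 : Disjoint (({w} ∪ {u}) ∪ {w'} : Set V) {u'} :=
    Set.disjoint_union_left.2 ⟨Set.disjoint_union_left.2 ⟨D n4, D n2⟩, D n6⟩
  have hun : (({w} ∪ {u}) ∪ {w'}) ∪ {u'} = (({w} ∪ {w'}) ∪ ({u} ∪ {u'}) : Set V) := by
    ext z
    simp only [Set.mem_union, Set.mem_singleton_iff]
    tauto
  have h4 := S.add ({w} ∪ {u}) {w'} {u'} D2 (Set.disjoint_union_left.2 ⟨D n4, D n2⟩) (D n6)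
  rw [← hun] at hd4 hd6 ⊢
  exact hyp.join (({w} ∪ {u}) ∪ {w'}) {u'} (Set.union_subset (Set.union_subset sw su) sw') su' D3
    ⟨w, Or.inl (Or.inl rfl)⟩ ⟨u', rfl⟩ H2 (hyp.leaf u' hu') (by omega) (by omega) (by omega) hd4 hd6

theorem stepA (hyp : Hyp S H C) {L R : Set V} (hL : L ⊆ S.U) (hR : R ⊆ S.U) (hLR : Disjoint L R)
    (hLn : L.Nonempty) (hRn : R.Nonempty) (hdL : S.d L ≤ 6) (hdR : S.d R ≤ 6)
    (hdZ : S.d (L ∪ R) ≤ 6) (hcR : Cl S H R) (hconn : S.Conn (L ∪ R)) {x y : V} (hx : x ∈ S.U)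
    (hxZ : x ∉ L ∪ R) (hy : y ∈ S.U) (hyZ : y ∉ L ∪ R) (hxy : x ≠ y) (h4 : 4 ≤ S.d (L ∪ R))
    (hnL : ¬ S.Conn L) (hR' : S.Conn R) : H (L ∪ R) := by
  have hxL : x ∉ L := fun h => hxZ (Or.inl h)
  have hxR : x ∉ R := fun h => hxZ (Or.inr h)
  have hyL : y ∉ L := fun h => hyZ (Or.inl h)
  have hyR : y ∉ R := fun h => hyZ (Or.inr h)
  have hHR : H R := hcR hR' ⟨x, ⟨hx, hxR⟩, y, ⟨hy, hyR⟩, hxy⟩
  obtain ⟨w, w', hne, rfl, dw, dw', hee, hd6⟩ := S.not_conn hL hdL hx hxL hy hyL hxy hnL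
  have hw : w ∈ S.U := hL (Or.inl rfl)
  have hw' : w' ∈ S.U := hL (Or.inr rfl)
  have hwR : w ∉ R := fun h => Set.disjoint_left.1 hLR (Or.inl rfl) h
  have hw'R : w' ∉ R := fun h => Set.disjoint_left.1 hLR (Or.inr rfl) h
  have Dww : Disjoint ({w} : Set V) {w'} := Set.disjoint_singleton.2 hne
  have DwR : Disjoint ({w} : Set V) R := Set.disjoint_singleton_left.2 hwR
  have Dw'R : Disjoint ({w'} : Set V) R := Set.disjoint_singleton_left.2 hw'R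
  have k1 : 1 ≤ S.e {w} R := by
    have h1 := hconn {w} ({w'} ∪ R) (Set.disjoint_union_right.2 ⟨Dww, DwR⟩) ⟨w, rfl⟩
      ⟨w', Or.inl rfl⟩ (Set.union_assoc _ _ _).symm
    rw [S.add' Dw'R Dww.symm DwR.symm, hee] at h1
    omega
  have k2 : 1 ≤ S.e {w'} R := by
    have h1 := hconn {w'} ({w} ∪ R) (Set.disjoint_union_right.2 ⟨Dww.symm, Dw'R⟩) ⟨w', rfl⟩
      ⟨w, Or.inl rfl⟩ (by rw [← Set.union_assoc, Set.union_comm {w'}])
    rw [S.add' DwR Dww Dw'R.symm, S.symm {w'} {w}, hee] at h1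
    omega
  have hxw : x ≠ w := fun h => hxL (Or.inl h)
  have hxw' : x ≠ w' := fun h => hxL (Or.inr h)
  rcases Nat.le_total (S.e {w'} R) (S.e {w} R) with h | h
  · exact step2 hyp hw hw' hne hR hRn hwR hw'R hx hxR hxw hxw' dw dw' hee hdR hHR h k2 h4 hdZ
  · have hcm : ({w} ∪ {w'} : Set V) = {w'} ∪ {w} := Set.union_comm _ _
    rw [hcm] at h4 hdZ ⊢
    exact step2 hyp hw' hw hne.symm hR hRn hw'R hwR hx hxR hxw' hxw dw' dw
      (by rw [S.symm]; exact hee) hdR hHR h k1 h4 hdZ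

end

theorem t_STEP : S_STEP := by
  intro V S H C hyp L R hL hR hLR hLn hRn hdL hdR hdZ hcL hcR hconn hxy'
  obtain ⟨x, ⟨hx, hxZ⟩, y, ⟨hy, hyZ⟩, hxy⟩ := hxy'
  obtain ⟨l, hl⟩ := hLn
  obtain ⟨r, hr⟩ := hRn
  have hlr : l ≠ r := fun h => Set.disjoint_left.1 hLR hl (h ▸ hr)
  have hsub : L ∪ R ⊆ S.U := Set.union_subset hL hR
  have h4 : 4 ≤ S.d (L ∪ R) := S.four hsub (Or.inl hl) (Or.inr hr) hlr hx hxZ hy hyZ hxy
  have heLR := hconn L R hLR ⟨l, hl⟩ ⟨r, hr⟩ rfl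
  have hxL : x ∉ L := fun h => hxZ (Or.inl h)
  have hxR : x ∉ R := fun h => hxZ (Or.inr h)
  have hyL : y ∉ L := fun h => hyZ (Or.inl h)
  have hyR : y ∉ R := fun h => hyZ (Or.inr h)
  by_cases cL : S.Conn L
  · have hHL : H L := hcL cL ⟨x, ⟨hx, hxL⟩, y, ⟨hy, hyL⟩, hxy⟩
    by_cases cR : S.Conn R
    · have hHR : H R := hcR cR ⟨x, ⟨hx, hxR⟩, y, ⟨hy, hyR⟩, hxy⟩
      exact hyp.join L R hL hR hLR ⟨l, hl⟩ ⟨r, hr⟩ hHL hHR hdL hdR heLR h4 hdZ
    · rw [Set.union_comm] at hdZ h4 hxZ hyZ hconn ⊢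
      exact stepA hyp hR hL hLR.symm ⟨r, hr⟩ ⟨l, hl⟩ hdR hdL hdZ hcL hconn hx hxZ hy hyZ hxy h4 cR cL
  · by_cases cR : S.Conn R
    · exact stepA hyp hL hR hLR ⟨l, hl⟩ ⟨r, hr⟩ hdL hdR hdZ hcR hconn hx hxZ hy hyZ hxy h4 cL cR
    · obtain ⟨w, w', n1, rfl, dw, dw', e1, hdL6⟩ := S.not_conn hL hdL hx hxL hy hyL hxy cL
      obtain ⟨u, u', n2, rfl, du, du', e2, hdR6⟩ := S.not_conn hR hdR hx hxR hy hyR hxy cR
      have hw : w ∈ S.U := hL (Or.inl rfl)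
      have hw' : w' ∈ S.U := hL (Or.inr rfl)
      have hu : u ∈ S.U := hR (Or.inl rfl)
      have hu' : u' ∈ S.U := hR (Or.inr rfl)
      have n3 : w ≠ u := fun h => Set.disjoint_left.1 hLR (Or.inl rfl) (Or.inl h)
      have n4 : w ≠ u' := fun h => Set.disjoint_left.1 hLR (Or.inl rfl) (Or.inr h)
      have n5 : w' ≠ u := fun h => Set.disjoint_left.1 hLR (Or.inr rfl) (Or.inl h)
      have n6 : w' ≠ u' := fun h => Set.disjoint_left.1 hLR (Or.inr rfl) (Or.inr h)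
      have D : ∀ {a b : V}, a ≠ b → Disjoint ({a} : Set V) {b} := fun h => Set.disjoint_singleton.2 h
      have hZ := S.dun ({w} ∪ {w'}) ({u} ∪ {u'}) hLR
      have hs1 := S.add {w} {w'} ({u} ∪ {u'}) (D n1) (Set.disjoint_union_right.2 ⟨D n3, D n4⟩)
        (Set.disjoint_union_right.2 ⟨D n5, D n6⟩)
      have hs2 := S.add' (D n2) (D n3.symm) (D n4.symm)
      have hs3 := S.add' (D n2) (D n5.symm) (D n6.symm)
      have hle : ∀ {a b : V}, a ∈ S.U → b ∈ S.U → a ≠ b → S.d {a} = 3 → S.d {b} = 3 →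
          x ≠ a → x ≠ b → y ≠ a → y ≠ b → S.e {a} {b} ≤ 1 := by
        intro a b ha hb hab da db hxa hxb hya hyb
        have h1 := S.dun {a} {b} (D hab)
        have h2 : 4 ≤ S.d ({a} ∪ {b}) := by
          refine S.four (Set.union_subset (Set.singleton_subset_iff.2 ha)
            (Set.singleton_subset_iff.2 hb)) (Or.inl rfl) (Or.inr rfl) hab hx ?_ hy ?_ hxy
          · rintro (h | h)
            · exact hxa h
            · exact hxb h
          · rintro (h | h)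
            · exact hya h
            · exact hyb h
        omega
      have xw : x ≠ w := fun h => hxL (Or.inl h)
      have xw' : x ≠ w' := fun h => hxL (Or.inr h)
      have xu : x ≠ u := fun h => hxR (Or.inl h)
      have xu' : x ≠ u' := fun h => hxR (Or.inr h)
      have yw : y ≠ w := fun h => hyL (Or.inl h)
      have yw' : y ≠ w' := fun h => hyL (Or.inr h)
      have yu : y ≠ u := fun h => hyR (Or.inl h)
      have yu' : y ≠ u' := fun h => hyR (Or.inr h)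
      have l1 := hle hw hu n3 dw du xw xu yw yu
      have l2 := hle hw hu' n4 dw du' xw xu' yw yu'
      have l3 := hle hw' hu n5 dw' du xw' xu yw' yu
      have l4 := hle hw' hu' n6 dw' du' xw' xu' yw' yu'
      have e1' : S.e {w'} {w} = 0 := by rw [S.symm]; exact e1
      have cw : ({w} ∪ {w'} : Set V) = {w'} ∪ {w} := Set.union_comm _ _
      have cu : ({u} ∪ {u'} : Set V) = {u'} ∪ {u} := Set.union_comm _ _
      by_cases z1 : S.e {w} {u'} = 0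
      · exact step3 hyp hw hw' hu hu' n1 n2 n3 n4 n5 n6 dw dw' du du' e1 (by omega) (by omega)
          (by omega) h4 hdZ
      by_cases z2 : S.e {w} {u} = 0
      · have q1 : S.e {w} {u'} = 1 := by omega
        have q2 : S.e {w'} {u'} = 1 := by omega
        have q3 : S.e {w'} {u} = 1 := by omega
        rw [cu] at h4 hdZ ⊢
        exact step3 hyp hw hw' hu' hu n1 n2.symm n4 n3 n6 n5 dw dw' du' du e1 q1 q2 q3 h4 hdZ
      by_cases z3 : S.e {w'} {u'} = 0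
      · have q1 : S.e {w'} {u} = 1 := by omega
        have q2 : S.e {w} {u} = 1 := by omega
        have q3 : S.e {w} {u'} = 1 := by omega
        rw [cw] at h4 hdZ ⊢
        exact step3 hyp hw' hw hu hu' n1.symm n2 n5 n6 n3 n4 dw' dw du du' e1' q1 q2 q3 h4 hdZ
      · have q1 : S.e {w'} {u'} = 1 := by omega
        have q2 : S.e {w} {u'} = 1 := by omega
        have q3 : S.e {w} {u} = 1 := by omega
        rw [cw, cu] at h4 hdZ ⊢
        exact step3 hyp hw' hw hu' hu n1.symm n2.symm n6 n5 n4 n3 dw' dw du' du e1' q1 q2 q3 h4 hdZ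

end Pool.Agent.T2h40.CW6
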