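import Pool.Agent.T2h40.CW6.SysLem

/-!
# TREE: the induction along a carving (helper59)
-/

set_option autoImplicit false

namespace Pool.Agent.T2h40.CW6

open Pool.Agent.W420.BF (cut bd Tr)

theorem tr_nonempty {V : Type} (T : Tr V) : T.set.Nonempty := by
  induction T with
  | leaf v => exact ⟨v, rfl⟩
  | node l r ihl ihr => exact ihl.mono Set.subset_union_left

section

variable {V E : Type} [Fintype E] {s t : E → V} {S : Sys V} {H : Set V → Prop} {C : Prop}

theorem up (hSTEP : S_STEP) (hyp : Hyp S H C) (hd : ∀ Z, Z ⊆ S.U → S.d Z = (cut s t Z).card)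
    (T : Tr V) (hn : T.Nodup) (hw : T.Width s t 6) (hs : T.set ⊆ S.U) :
    S.d T.set ≤ 6 ∧ Cl S H T.set := by
  induction T with
  | leaf v =>
    refine ⟨?_, cl_leaf hyp (hs rfl)⟩
    rw [hd _ hs]
    exact hw
  | node l r ihl ihr =>
    obtain ⟨hdis, hnl, hnr⟩ := hn
    obtain ⟨hw0, hwl, hwr⟩ := hw
    have sl : l.set ⊆ S.U := Set.subset_union_left.trans hs
    have sr : r.set ⊆ S.U := Set.subset_union_right.trans hs
    obtain ⟨dl, cl⟩ := ihl hnl hwl sl
    obtain ⟨dr, cr⟩ := ihr hnr hwr sr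
    have d0 : S.d (l.set ∪ r.set) ≤ 6 := by
      rw [hd (l.set ∪ r.set) hs]
      exact hw0
    exact ⟨d0, hSTEP V S H C hyp l.set r.set sl sr hdis (tr_nonempty l) (tr_nonempty r) dl dr d0 cl cr⟩

theorem down (hSTEP : S_STEP) (hFINAL : S_FINAL) (hyp : Hyp S H C)
    (hd : ∀ Z, Z ⊆ S.U → S.d Z = (cut s t Z).card)
    (A : Tr V) (hn : A.Nodup) (hw : A.Width s t 6) (hs : A.set ⊆ S.U) :
    ∀ O, O = S.U \ A.set → O.Nonempty → Cl S H O →
      ((∃ z, O = {z}) ∨ ∃ O₁ O₂, Disjoint O₁ O₂ ∧ O₁.Nonempty ∧ O₂.Nonempty ∧ O₁ ∪ O₂ = O ∧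
        S.d O₁ ≤ 6 ∧ S.d O₂ ≤ 6 ∧ Cl S H O₁ ∧ Cl S H O₂) → (∃ v, A = Tr.leaf v) ∨ C := by
  induction A with
  | leaf v => exact fun _ _ _ _ _ => Or.inl ⟨v, rfl⟩
  | node a b iha ihb =>
    intro O hO hOn hcO hdec
    right
    have hab := up hSTEP hyp hd (Tr.node a b) hn hw hs
    obtain ⟨hdis, hna, hnb⟩ := hn
    obtain ⟨hw0, hwa, hwb⟩ := hw
    have sa : a.set ⊆ S.U := Set.subset_union_left.trans hs
    have sb : b.set ⊆ S.U := Set.subset_union_right.trans hs
    have ha := up hSTEP hyp hd a hna hwa sa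
    have hb := up hSTEP hyp hd b hnb hwb sb
    have hset : (Tr.node a b).set = a.set ∪ b.set := rfl
    have hOU : O ⊆ S.U := by rw [hO]; exact Set.sdiff_subset
    have hdO : S.d O ≤ 6 := by rw [hO, S.d_compl hs]; exact hab.1
    have hOa : Disjoint O a.set := by
      rw [hO, hset]
      exact Set.disjoint_sdiff_left.mono_right Set.subset_union_left
    have hOb : Disjoint O b.set := by
      rw [hO, hset]
      exact Set.disjoint_sdiff_left.mono_right Set.subset_union_right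
    have hca : O ∪ b.set = S.U \ a.set := by
      ext z
      rw [hO, hset]
      simp only [Set.mem_union, Set.mem_sdiff, not_or]
      constructor
      · rintro (⟨h1, h2, _⟩ | h1)
        · exact ⟨h1, h2⟩
        · exact ⟨sb h1, fun h2 => Set.disjoint_left.1 hdis h2 h1⟩
      · rintro ⟨h1, h2⟩
        by_cases h3 : z ∈ b.set
        · exact Or.inr h3
        · exact Or.inl ⟨h1, h2, h3⟩
    have hcb : O ∪ a.set = S.U \ b.set := by
      ext z
      rw [hO, hset]
      simp only [Set.mem_union, Set.mem_sdiff, not_or]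
      constructor
      · rintro (⟨h1, _, h2⟩ | h1)
        · exact ⟨h1, h2⟩
        · exact ⟨sa h1, fun h2 => Set.disjoint_left.1 hdis h1 h2⟩
      · rintro ⟨h1, h2⟩
        by_cases h3 : z ∈ a.set
        · exact Or.inr h3
        · exact Or.inl ⟨h1, h3, h2⟩
    have ga : (∃ v, a = Tr.leaf v) ∨ C := by
      have hd' : S.d (O ∪ b.set) ≤ 6 := by rw [hca, S.d_compl sa]; exact ha.1
      exact iha hna hwa sa (O ∪ b.set) hca (hOn.mono Set.subset_union_left)
        (hSTEP V S H C hyp O b.set hOU sb hOb hOn (tr_nonempty b) hdO hb.1 hd' hcO hb.2)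
        (Or.inr ⟨O, b.set, hOb, hOn, tr_nonempty b, rfl, hdO, hb.1, hcO, hb.2⟩)
    have gb : (∃ v, b = Tr.leaf v) ∨ C := by
      have hd' : S.d (O ∪ a.set) ≤ 6 := by rw [hcb, S.d_compl sb]; exact hb.1
      exact ihb hnb hwb sb (O ∪ a.set) hcb (hOn.mono Set.subset_union_left)
        (hSTEP V S H C hyp O a.set hOU sa hOa hOn (tr_nonempty a) hdO ha.1 hd' hcO ha.2)
        (Or.inr ⟨O, a.set, hOa, hOn, tr_nonempty a, rfl, hdO, ha.1, hcO, ha.2⟩)
    rcases ga with ⟨w, rfl⟩ | h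
    · rcases gb with ⟨w', rfl⟩ | h
      · have hne : w ≠ w' := fun e => Set.disjoint_left.1 hdis (show w ∈ Tr.set (Tr.leaf w) from rfl) e
        have hO' : O = S.U \ {w, w'} := hO
        exact hFINAL V S H C hyp w w' (sa rfl) (sb rfl) hne O hO' hOn hdO ha.1 hb.1 hcO hdec
      · exact h
    · exact h

end

theorem t_TREE : S_TREE := by
  intro hSTEP hFINAL V E _ s t l r S H C hyp hn hw hU hd
  obtain ⟨hdis, hnl, hnr⟩ := hn
  obtain ⟨hw0, hwl, hwr⟩ := hw
  have hU' : S.U = l.set ∪ r.set := hU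
  have sl : l.set ⊆ S.U := by rw [hU']; exact Set.subset_union_left
  have sr : r.set ⊆ S.U := by rw [hU']; exact Set.subset_union_right
  have hl := up hSTEP hyp hd l hnl hwl sl
  have hr := up hSTEP hyp hd r hnr hwr sr
  have cl : r.set = S.U \ l.set := by
    rw [hU', Set.union_sdiff_left]
    exact (sdiff_eq_left.2 hdis.symm).symm
  have cr : l.set = S.U \ r.set := by
    rw [hU', Set.union_sdiff_right]
    exact (sdiff_eq_left.2 hdis).symm
  have dec : ∀ T : Tr V, T.Nodup → T.Width s t 6 → T.set ⊆ S.U → ((∃ z, T.set = {z}) ∨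
      ∃ O₁ O₂, Disjoint O₁ O₂ ∧ O₁.Nonempty ∧ O₂.Nonempty ∧ O₁ ∪ O₂ = T.set ∧
        S.d O₁ ≤ 6 ∧ S.d O₂ ≤ 6 ∧ Cl S H O₁ ∧ Cl S H O₂) := by
    intro T hn hw hs
    cases T with
    | leaf v => exact Or.inl ⟨v, rfl⟩
    | node a b =>
      obtain ⟨hdis, hna, hnb⟩ := hn
      obtain ⟨hw0, hwa, hwb⟩ := hw
      have ha := up hSTEP hyp hd a hna hwa (Set.subset_union_left.trans hs)
      have hb := up hSTEP hyp hd b hnb hwb (Set.subset_union_right.trans hs)
      exact Or.inr ⟨a.set, b.set, hdis, tr_nonempty a, tr_nonempty b, rfl, ha.1, hb.1, ha.2, hb.2⟩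
  rcases down hSTEP hFINAL hyp hd l hnl hwl sl r.set cl (tr_nonempty r) hr.2 (dec r hnr hwr sr)
    with ⟨w, rfl⟩ | h
  · rcases down hSTEP hFINAL hyp hd r hnr hwr sr _ cr (tr_nonempty _) hl.2
      (dec _ hnl hwl sl) with ⟨w', rfl⟩ | h
    · have h1 : S.U \ {w} = {w'} := cl.symm
      refine hyp.last w (sl rfl) ?_
      rw [h1]
      exact hyp.leaf w' (sr rfl)
    · exact h
  · exact h

end Pool.Agent.T2h40.CW6
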