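import Pool.Agent.T2h40.CW6.Fam
import Pool.Agent.T2h40.CW6.BASE
import Pool.Agent.T2h40.CW6.TREE
import Pool.Agent.T2h40.CW6.STEP
import Pool.Agent.T2h40.CW6.FINAL

/-!
# From the tables to the theorem on graphs with trivial 3-cuts
-/

set_option autoImplicit false

open Finset

namespace Pool.Agent.T2h40.CW6

open Pool.Agent.W420.BF (cut bd Tr Ord)

section

variable {V E : Type} [Fintype E]

theorem tr_ne (T : Tr V) : T.set.Nonempty := by
  induction T with
  | leaf v => exact ⟨v, rfl⟩
  | node l r ihl _ => exact ihl.mono Set.subset_union_left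

theorem width_pt {s t : E → V} {w : ℕ} {T : Tr V} (hT : T.Width s t w) {v : V} (hv : v ∈ T.set) :
    (cut s t {v}).card ≤ w := by
  induction T with
  | leaf u =>
    have h : v = u := hv
    rw [h]
    exact hT
  | node l r ihl ihr =>
    rcases hv with hv | hv
    · exact ihl hT.2.1 hv
    · exact ihr hT.2.2 hv

theorem exists_ord {s t : E → V} (X : Set V) (h : 0 < (cut s t X).card) :
    ∃ o, Ord s t X (cut s t X).card o := by
  classical
  obtain ⟨C, hC⟩ : ∃ C, C = cut s t X := ⟨_, rfl⟩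
  rw [← hC] at h ⊢
  obtain ⟨e0, he0⟩ : C.Nonempty := Finset.card_pos.mp h
  let q := C.equivFin
  let o : ℕ → E := fun i => if h : i < C.card then (q.symm ⟨i, h⟩).1 else e0
  refine ⟨o, ?_, ?_⟩
  · intro i hi j hj hij
    simp only [o, dif_pos hi, dif_pos hj] at hij
    have h1 := q.symm.injective (Subtype.ext hij)
    simpa using h1
  · intro e
    rw [← hC]
    constructor
    · intro he
      refine ⟨(q ⟨e, he⟩).1, (q ⟨e, he⟩).2, ?_⟩
      simp only [o, dif_pos (q ⟨e, he⟩).2, Fin.eta, Equiv.symm_apply_apply]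
    · rintro ⟨i, hi, rfl⟩
      simp only [o, dif_pos hi]
      exact (q.symm ⟨i, hi⟩).2

theorem cut_compl {s t : E → V} {U : Set V} (hU : ∀ e, s e ∈ U ∧ t e ∈ U) (X : Set V) :
    cut s t (U \ X) = cut s t X := by
  ext e
  rw [mem_cut, mem_cut]
  have h := hU e
  simp only [Set.mem_sdiff]
  tauto

theorem HasC.real {T : Tab} {Y : Ty} (hA : AllJ T Y) {s t : E → V} {X : Set V} {n : ℕ}
    (h3 : 3 ≤ n) (h6 : n ≤ 6) (h : HasC T Y s t X n) :
    ∃ o, Ord s t X n o ∧ ∃ b, Real s t X n o b := by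
  obtain ⟨o, ho, i, hi, hH⟩ := h
  obtain ⟨j, hj, hji⟩ := hA.ne n h3 h6 i hi
  exact ⟨o, ho, _, hH j hj hji⟩

theorem join_all {T : Tab} {Y : Ty} (hA : AllJ T Y) {s t : E → V} {X Z : Set V}
    (hXZ : Disjoint X Z) {a b k : ℕ} (ha : 3 ≤ a) (ha6 : a ≤ 6) (hb : 3 ≤ b) (hb6 : b ≤ 6)
    (hab : a ≤ b) (hk : 1 ≤ k) (h4 : 4 ≤ a + b - 2 * k) (h6 : a + b - 2 * k ≤ 6)
    (hX : HasC T Y s t X a) (hZ : HasC T Y s t Z b) (hj : (jn s t X Z).card = k) :
    HasC T Y s t (X ∪ Z) (a + b - 2 * k) := by
  have hk5 : k ≤ 4 := by omega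
  interval_cases a <;> interval_cases b <;> interval_cases k <;>
    first
    | omega
    | exact hA.j331 V E s t X Z hXZ hX hZ hj
    | exact hA.j341 V E s t X Z hXZ hX hZ hj
    | exact hA.j351 V E s t X Z hXZ hX hZ hj
    | exact hA.j352 V E s t X Z hXZ hX hZ hj
    | exact hA.j362 V E s t X Z hXZ hX hZ hj
    | exact hA.j441 V E s t X Z hXZ hX hZ hj
    | exact hA.j442 V E s t X Z hXZ hX hZ hj
    | exact hA.j452 V E s t X Z hXZ hX hZ hj
    | exact hA.j462 V E s t X Z hXZ hX hZ hj
    | exact hA.j463 V E s t X Z hXZ hX hZ hj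
    | exact hA.j552 V E s t X Z hXZ hX hZ hj
    | exact hA.j553 V E s t X Z hXZ hX hZ hj
    | exact hA.j563 V E s t X Z hXZ hX hZ hj
    | exact hA.j663 V E s t X Z hXZ hX hZ hj
    | exact hA.j664 V E s t X Z hXZ hX hZ hj

theorem jn_comm_main {s t : E → V} (X Z : Set V) : jn s t X Z = jn s t Z X := by
  ext e
  rw [mem_jn, mem_jn]
  tauto

end

theorem t_MAIN (hleaf : S_LEAF) : S_MAIN := by
  classical
  intro Tb Y hA V E _ s t T hN hW hU h3 htr
  cases T with
  | leaf v =>
    refine ⟨fun i _ => if i.1 < 4 then 1 else 0, fun e => ?_, fun z hz i => ?_⟩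
    · have h : (univ.filter fun i : Fin 6 => (if i.1 < 4 then (1 : ZMod 2) else 0) = 1) =
          univ.filter fun i : Fin 6 => i.1 < 4 := by
        apply filter_congr
        intro i _
        split_ifs with h
        · simp [h]
        · simp [h]
      rw [h]
      decide
    · have hz' : z = v := hz
      subst hz'
      unfold bd
      apply sum_eq_zero
      intro e _
      have h1 : s e = z := (hU e).1
      have h2 : t e = z := (hU e).2
      have h4 : (1 : ZMod 2) + 1 = 0 := by decide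
      rw [if_pos h1, if_pos h2, h4, mul_zero]
  | node l r =>
    obtain ⟨U, hUd⟩ : ∃ U, U = (Tr.node l r).set := ⟨_, rfl⟩
    rw [← hUd] at hU h3 htr ⊢
    have hlU : l.set ⊆ U := by rw [hUd]; exact Set.subset_union_left
    have hrU : r.set ⊆ U := by rw [hUd]; exact Set.subset_union_right
    have hlr : Disjoint l.set r.set := hN.1
    have hother : ∀ w, (U \ {w}).Nonempty := by
      intro w
      obtain ⟨x, hx⟩ := tr_ne l
      obtain ⟨y, hy⟩ := tr_ne r
      by_cases hxw : x = w
      · refine ⟨y, hrU hy, fun h => ?_⟩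
        have hyw : y = w := h
        exact Set.disjoint_left.1 hlr hx (by rw [hxw, ← hyw]; exact hy)
      · exact ⟨x, hlU hx, hxw⟩
    have hw6 : ∀ w ∈ U, (cut s t {w}).card ≤ 6 := fun w hw => width_pt hW (by rw [← hUd]; exact hw)
    have hw3 : ∀ w ∈ U, 3 ≤ (cut s t {w}).card := fun w hw =>
      h3 {w} (Set.singleton_subset_iff.2 hw) ⟨w, rfl⟩ (hother w)
    obtain ⟨S, hSU, hSd, hSe⟩ := t_BASE V E s t U hU h3 htr
    have hlastC : ∀ w ∈ U, ∀ c, Cov s t (U \ {w}) c → ∃ c, Cov s t U c :=
      fun w _ c hc => ⟨c, hc.last hU⟩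
    have hreal : ∀ w ∈ U, ∀ n, 3 ≤ n → n ≤ 6 → HasC Tb Y s t (U \ {w}) n → ∃ c, Cov s t U c := by
      intro w hw n hn3 hn6 hH
      obtain ⟨o, _, b, c, hc, _⟩ := hH.real hA hn3 hn6
      exact hlastC w hw c hc
    have h3' : ∀ X Y' : Set V, X ⊆ U → Y' ⊆ U → Disjoint X Y' → X.Nonempty → Y'.Nonempty →
        3 ≤ (cut s t X).card := by
      intro X Y' hX hY hd hXn hYn
      obtain ⟨y, hy⟩ := hYn
      exact h3 X hX hXn ⟨y, hY hy, fun h => Set.disjoint_left.1 hd h hy⟩
    have hyp : Hyp S (fun X => (cut s t X).card ≤ 6 → HasC Tb Y s t X (cut s t X).card)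
        (∃ c, Cov s t U c) := by
      refine ⟨?_, ?_, ?_, ?_, ?_⟩
      · intro v hv h6
        rw [hSU] at hv
        have hv3 := hw3 v hv
        obtain ⟨o, ho⟩ := exists_ord (s := s) (t := t) {v} (by omega)
        exact ⟨o, ho, 0, hA.nt _ hv3 h6, hleaf Tb _ (hA.stok _ hv3 h6) V E s t v o _ ho⟩
      · intro X Z hX hZ hd hXn hZn HX HZ dX dZ he d4 d6 _
        rw [hSU] at hX hZ
        rw [hSd] at dX dZ d4 d6
        rw [hSe X Z hd] at he
        have hdun := S.dun X Z hd
        rw [hSd, hSd, hSd, hSe X Z hd] at hdun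
        have aX := h3' X Z hX hZ hd hXn hZn
        have aZ := h3' Z X hZ hX hd.symm hZn hXn
        have hc : (cut s t (X ∪ Z)).card = (cut s t X).card + (cut s t Z).card -
            2 * (jn s t X Z).card := by omega
        rcases le_total (cut s t X).card (cut s t Z).card with hle | hle
        · rw [hc]
          exact join_all hA hd aX dX aZ dZ hle he (by omega) (by omega) (HX dX) (HZ dZ) rfl
        · have hc' : (cut s t (X ∪ Z)).card = (cut s t Z).card + (cut s t X).card -
              2 * (jn s t X Z).card := by omega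
          rw [hc', Set.union_comm]
          exact join_all hA hd.symm aZ dZ aX dX hle he (by omega) (by omega) (HZ dZ) (HX dX)
            (by rw [jn_comm_main])
      · intro w hw H
        rw [hSU] at hw H
        have h1 : (cut s t (U \ {w})).card = (cut s t {w}).card := by rw [cut_compl hU]
        exact hreal w hw _ (by rw [h1]; exact hw3 w hw) (by rw [h1]; exact hw6 w hw)
          (H (by rw [h1]; exact hw6 w hw))
      · intro X Z hX hZ hd hXn hZn HX HZ hd3 hsh hw
        rw [hSU] at hX hZ hw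
        obtain ⟨w, hw, hXZ⟩ := hw
        have hdun := S.dun X Z hd
        rw [hd3, hSd, hSd, hSe X Z hd] at hdun
        rw [hSd, hSd] at hsh
        apply hreal w hw 3 le_rfl (by norm_num)
        rw [← hXZ]
        rcases hsh with ⟨hx, hz⟩ | ⟨hx, hz⟩ | ⟨hx, hz⟩
        · have := hA.j342 V E s t X Z hd (hx ▸ HX (by omega)) (hz ▸ HZ (by omega)) (by omega)
          exact this
        · have := hA.j453 V E s t X Z hd (hx ▸ HX (by omega)) (hz ▸ HZ (by omega)) (by omega)
          exact this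
        · have := hA.j564 V E s t X Z hd (hx ▸ HX (by omega)) (hz ▸ HZ (by omega)) (by omega)
          exact this
      · intro X Z hX hZ hd hXn hZn HX HZ dX dZ he hw
        rw [hSU] at hX hZ hw
        obtain ⟨w, hw, hXZ⟩ := hw
        rw [hSd] at dX dZ
        rw [hSe X Z hd, card_eq_zero] at he
        obtain ⟨oX, hoX, bX, rX⟩ := (dX ▸ HX (by omega)).real hA le_rfl (by norm_num)
        obtain ⟨oZ, hoZ, bZ, rZ⟩ := (dZ ▸ HZ (by omega)).real hA le_rfl (by norm_num)
        have hno : ∀ e, e ∈ cut s t X → e ∉ cut s t Z := by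
          intro e h4 h5
          have h7 : e ∈ jn s t X Z := (mem_jn_iff hd).2 ⟨h4, h5⟩
          rw [he] at h7
          exact absurd h7 (notMem_empty e)
        have key := Real.comp (b := fun i => Nat.ofBits (fun p : Fin 6 =>
            if p.1 < 3 then (bX i).testBit p.1 else (bZ i).testBit (p.1 - 3))) hd
          (r := 3) (r' := 3) (k := 0) hoX hoZ (fun p hp => absurd hp (by omega))
          (fun p hp => hno _ ((hoX.2 _).2 ⟨p, hp, rfl⟩))
          (fun p hp h => hno _ h ((hoZ.2 _).2 ⟨p, hp, rfl⟩)) rX rZ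
          (fun i p hp => by
            rw [Nat.testBit_ofBits_lt _ _ (show p < 6 by omega)]
            simp [hp])
          (fun i p hp => by
            rw [Nat.testBit_ofBits_lt _ _ (show 3 + p < 6 by omega)]
            simp)
          (fun i p hp => absurd hp (by omega))
        obtain ⟨c, hc, _⟩ := key
        rw [hXZ] at hc
        exact hlastC w hw c hc
    exact t_TREE t_STEP (t_FINAL t_STEP) V E s t l r S _ _ hyp hN hW (by rw [hSU, hUd])
      (fun Z _ => hSd Z)

end Pool.Agent.T2h40.CW6
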