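import Pool.Agent.T2h40.CW6.Defs
import Pool.Agent.W351.BF.Red

/-!
# Part RED: reduction of the cuts with zero, two and three edges
-/

set_option autoImplicit false

open Finset

namespace Pool.Agent.T2h40.CW6.RED

open Pool.Agent.W420.BF (cut bd Tr)
open Pool.Agent.W351.BF (mem_cut mg mg_in mg_out cut_mg dl dl_ne bd_dl size_pos prune W0 W2)

/-! permutations of the classes -/

theorem exists_perm {α β : Type} [Fintype α] [DecidableEq β] (P Q : α → β)
    (h : ∀ b, (univ.filter fun a => P a = b).card = (univ.filter fun a => Q a = b).card) :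
    ∃ σ : Equiv.Perm α, ∀ a, Q (σ a) = P a := by
  have e : ∀ b, {a // P a = b} ≃ {a // Q a = b} := fun b =>
    Fintype.equivOfCardEq (by rw [Fintype.card_subtype, Fintype.card_subtype]; exact h b)
  exact ⟨Equiv.ofFiberEquiv e, fun a => Equiv.ofFiberEquiv_map e a⟩

theorem zmod2 (x : ZMod 2) : x = 0 ∨ x = 1 := by
  revert x
  decide

theorem perm_one (a b : Fin 6 → ZMod 2) (ha : (univ.filter fun i => a i = 1).card = 4)
    (hb : (univ.filter fun i => b i = 1).card = 4) :
    ∃ σ : Equiv.Perm (Fin 6), ∀ i, b (σ i) = a i := by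
  have key : ∀ a : Fin 6 → ZMod 2, (univ.filter fun i => a i = 1).card = 4 →
      (univ.filter fun i => a i = 0).card = 2 := by
    intro a ha
    have h1 : (univ.filter fun i => a i = 0).card + (univ.filter fun i => a i = 1).card = 6 := by
      rw [Finset.card_filter, Finset.card_filter, ← Finset.sum_add_distrib]
      rw [Finset.sum_congr rfl (g := fun _ => 1)]
      · simp
      · intro i _
        rcases zmod2 (a i) with h | h <;> rw [h] <;> decide
    omega
  refine exists_perm a b fun x => ?_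
  rcases zmod2 x with rfl | rfl
  · rw [key a ha, key b hb]
  · rw [ha, hb]

theorem counts (a b : Fin 6 → ZMod 2) (ha : (univ.filter fun i => a i = 1).card = 4)
    (hb : (univ.filter fun i => b i = 1).card = 4)
    (hab : (univ.filter fun i => a i + b i = 1).card = 4) (p : ZMod 2 × ZMod 2) :
    (univ.filter fun i => (a i, b i) = p).card = if p = 0 then 0 else 2 := by
  have h1 : (univ.filter fun i => (a i, b i) = (1, 1)).card +
      (univ.filter fun i => (a i, b i) = (1, 0)).card = 4 := by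
    rw [← ha, Finset.card_filter, Finset.card_filter, Finset.card_filter, ← Finset.sum_add_distrib]
    refine Finset.sum_congr rfl fun i _ => ?_
    rcases zmod2 (a i) with h | h <;> rcases zmod2 (b i) with h' | h' <;> rw [h, h'] <;> decide
  have h2 : (univ.filter fun i => (a i, b i) = (1, 1)).card +
      (univ.filter fun i => (a i, b i) = (0, 1)).card = 4 := by
    rw [← hb, Finset.card_filter, Finset.card_filter, Finset.card_filter, ← Finset.sum_add_distrib]
    refine Finset.sum_congr rfl fun i _ => ?_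
    rcases zmod2 (a i) with h | h <;> rcases zmod2 (b i) with h' | h' <;> rw [h, h'] <;> decide
  have h3 : (univ.filter fun i => (a i, b i) = (1, 0)).card +
      (univ.filter fun i => (a i, b i) = (0, 1)).card = 4 := by
    rw [← hab, Finset.card_filter, Finset.card_filter, Finset.card_filter, ← Finset.sum_add_distrib]
    refine Finset.sum_congr rfl fun i _ => ?_
    rcases zmod2 (a i) with h | h <;> rcases zmod2 (b i) with h' | h' <;> rw [h, h'] <;> decide
  have h4 : (univ.filter fun i => (a i, b i) = (0, 0)).card +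
      (univ.filter fun i => (a i, b i) = (1, 0)).card +
      (univ.filter fun i => (a i, b i) = (0, 1)).card +
      (univ.filter fun i => (a i, b i) = (1, 1)).card = 6 := by
    rw [Finset.card_filter, Finset.card_filter, Finset.card_filter, Finset.card_filter,
      ← Finset.sum_add_distrib, ← Finset.sum_add_distrib, ← Finset.sum_add_distrib]
    rw [Finset.sum_congr rfl (g := fun _ => 1)]
    · simp
    · intro i _
      rcases zmod2 (a i) with h | h <;> rcases zmod2 (b i) with h' | h' <;> rw [h, h'] <;> decide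
  obtain ⟨x, y⟩ := p
  rcases zmod2 x with rfl | rfl <;> rcases zmod2 y with rfl | rfl
  · rw [if_pos (show ((0, 0) : ZMod 2 × ZMod 2) = 0 from rfl)]
    omega
  · rw [if_neg (by decide)]
    omega
  · rw [if_neg (by decide)]
    omega
  · rw [if_neg (by decide)]
    omega

theorem perm_two (a b a' b' : Fin 6 → ZMod 2) (ha : (univ.filter fun i => a i = 1).card = 4)
    (hb : (univ.filter fun i => b i = 1).card = 4)
    (hab : (univ.filter fun i => a i + b i = 1).card = 4)
    (ha' : (univ.filter fun i => a' i = 1).card = 4)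
    (hb' : (univ.filter fun i => b' i = 1).card = 4)
    (hab' : (univ.filter fun i => a' i + b' i = 1).card = 4) :
    ∃ σ : Equiv.Perm (Fin 6), ∀ i, a' (σ i) = a i ∧ b' (σ i) = b i := by
  obtain ⟨σ, hσ⟩ := exists_perm (fun i => (a i, b i)) (fun i => (a' i, b' i)) (fun p => by
    rw [counts a b ha hb hab p, counts a' b' ha' hb' hab' p])
  exact ⟨σ, fun i => Prod.mk.injEq _ _ _ _ ▸ hσ i⟩

theorem card_perm (σ : Equiv.Perm (Fin 6)) (a : Fin 6 → ZMod 2) :
    (univ.filter fun i => a (σ i) = 1).card = (univ.filter fun i => a i = 1).card := by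
  refine Finset.card_bij (fun i _ => σ i) (fun i hi => ?_) (fun i _ j _ h => σ.injective h)
    (fun j hj => ?_)
  · rw [Finset.mem_filter] at hi ⊢
    exact ⟨mem_univ _, hi.2⟩
  · rw [Finset.mem_filter] at hj
    exact ⟨σ.symm j, by rw [Finset.mem_filter]; exact ⟨mem_univ _, by simpa using hj.2⟩, by simp⟩

section
variable {V E : Type} [Fintype E]

/-! cuts of size zero -/

theorem bd0 (s t : E → V) (X : Set V) (u : V) (h0 : ∀ e, s e ∈ X ↔ t e ∈ X) (x x1 : E → ZMod 2)
    (hf : ∀ e, s e ∈ X → x e = x1 e) (v : V) (hv : v ∈ X) :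
    bd s t x v = bd (mg X u ∘ s) (mg X u ∘ t) x1 v := by
  rw [bd_dl, bd_dl]
  refine Finset.sum_congr rfl fun e _ => ?_
  simp only [Function.comp_apply]
  by_cases hs : s e ∈ X
  · have ht := (h0 e).1 hs
    rw [mg_in hs, mg_in ht, hf e hs]
  · have ht : t e ∉ X := fun h => hs ((h0 e).2 h)
    rw [mg_out hs, mg_out ht, dl_ne (fun h : s e = v => hs (h ▸ hv)),
      dl_ne (fun h : t e = v => ht (h ▸ hv)),
      CharTwo.add_self_eq_zero, CharTwo.add_self_eq_zero, mul_zero, mul_zero]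

/-! cuts of size two -/

theorem bd2 (s t : E → V) (X : Set V) (e0 f0 : E) (u w u' w' : V) (hne : e0 ≠ f0)
    (hu : u ∈ X) (hw : w ∉ X) (hu' : u' ∈ X) (hw' : w' ∉ X)
    (he0 : (s e0 = u ∧ t e0 = w) ∨ (s e0 = w ∧ t e0 = u))
    (hf0 : (s f0 = u' ∧ t f0 = w') ∨ (s f0 = w' ∧ t f0 = u'))
    (hoth : ∀ e, e ≠ e0 → e ≠ f0 → (s e ∈ X ↔ t e ∈ X)) (x x1 : E → ZMod 2)
    (hf : ∀ e, e ≠ e0 → e ≠ f0 → s e ∈ X → x e = x1 e) (hfe : x e0 = x1 f0)
    (hff : x f0 = x1 f0) (v : V) (hv : v ∈ X) :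
    bd s t x v = bd (mg X u ∘ s) (mg X u ∘ t) x1 v := by
  rw [← sub_eq_zero, bd_dl, bd_dl, ← Finset.sum_sub_distrib, Fintype.sum_eq_add e0 f0 hne]
  · have hwv : w ≠ v := fun h => hw (h ▸ hv)
    have hwv' : w' ≠ v := fun h => hw' (h ▸ hv)
    simp only [Function.comp_apply, hfe, hff]
    rcases he0 with ⟨h2, h3⟩ | ⟨h2, h3⟩ <;> rcases hf0 with ⟨h4, h5⟩ | ⟨h4, h5⟩ <;>
      rw [h2, h3, h4, h5, mg_in hu, mg_out hw, mg_in hu', mg_out hw', dl_ne hwv, dl_ne hwv'] <;>
      generalize x1 f0 = x <;>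
      generalize x1 e0 = y <;>
      generalize dl u v = a <;>
      generalize dl u' v = b <;>
      revert x y a b <;> decide
  · rintro e ⟨h1, h2⟩
    rw [sub_eq_zero]
    simp only [Function.comp_apply]
    by_cases hs : s e ∈ X
    · have ht := (hoth e h1 h2).1 hs
      rw [mg_in hs, mg_in ht, hf e h1 h2 hs]
    · have ht : t e ∉ X := fun h => hs ((hoth e h1 h2).2 h)
      rw [mg_out hs, mg_out ht, dl_ne (fun h : s e = v => hs (h ▸ hv)),
      dl_ne (fun h : t e = v => ht (h ▸ hv)),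
        CharTwo.add_self_eq_zero, CharTwo.add_self_eq_zero, mul_zero, mul_zero]

/-! cuts of size three -/

theorem bd3 (s t : E → V) (X : Set V) (w : V) (hw : w ∉ X) (x x1 : E → ZMod 2)
    (hf : ∀ e, s e ∈ X ∨ t e ∈ X → x e = x1 e) (v : V) (hv : v ∈ X) :
    bd s t x v = bd (mg X w ∘ s) (mg X w ∘ t) x1 v := by
  have hdl : ∀ z, dl (mg X w z) v = dl z v := by
    intro z
    by_cases hz : z ∈ X
    · rw [mg_in hz]
    · rw [mg_out hz, dl_ne (fun h : w = v => hw (h ▸ hv)), dl_ne (fun h : z = v => hz (h ▸ hv))]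
  rw [bd_dl, bd_dl]
  refine Finset.sum_congr rfl fun e _ => ?_
  simp only [Function.comp_apply, hdl]
  by_cases h : s e ∈ X ∨ t e ∈ X
  · rw [hf e h]
  · rw [not_or] at h
    rw [dl_ne (fun h' : s e = v => h.1 (h' ▸ hv)), dl_ne (fun h' : t e = v => h.2 (h' ▸ hv)),
      add_zero, mul_zero, mul_zero]

open Classical in
theorem bdw (s t : E → V) (X : Set V) (w : V) (hw : w ∉ X) (x1 : E → ZMod 2) :
    bd (mg X w ∘ s) (mg X w ∘ t) x1 w = ∑ e ∈ cut s t X, x1 e := by
  have hdl : ∀ z, dl (mg X w z) w = if z ∈ X then 0 else 1 := by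
    intro z
    by_cases hz : z ∈ X
    · rw [mg_in hz, if_pos hz, dl_ne (fun h : z = w => hw (h ▸ hz))]
    · rw [mg_out hz, if_neg hz]
      exact if_pos rfl
  rw [bd_dl]
  have h1 : ∑ e ∈ cut s t X, x1 e = ∑ e, if e ∈ cut s t X then x1 e else 0 := by
    rw [Finset.sum_ite_mem, Finset.univ_inter]
  rw [h1]
  refine Finset.sum_congr rfl fun e _ => ?_
  simp only [Function.comp_apply, hdl, mem_cut]
  by_cases h2 : s e ∈ X <;> by_cases h3 : t e ∈ X
  · rw [if_pos h2, if_pos h3, if_neg (by tauto), add_zero, mul_zero]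
  · rw [if_pos h2, if_neg h3, if_pos (by tauto), zero_add, mul_one]
  · rw [if_neg h2, if_pos h3, if_pos (by tauto), add_zero, mul_one]
  · rw [if_neg h2, if_neg h3, if_neg (by tauto), CharTwo.add_self_eq_zero, mul_zero]

open Classical in
theorem submod (s t : E → V) (A B : Set V) :
    (cut s t (A ∩ B)).card + (cut s t (A ∪ B)).card ≤ (cut s t A).card + (cut s t B).card := by
  have h : ∀ Z : Set V, (cut s t Z).card = ∑ e, if ¬ (s e ∈ Z ↔ t e ∈ Z) then 1 else 0 := by
    intro Z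
    rw [← Finset.card_filter]
    rfl
  rw [h, h, h, h, ← Finset.sum_add_distrib, ← Finset.sum_add_distrib]
  refine Finset.sum_le_sum fun e _ => ?_
  by_cases h1 : s e ∈ A <;> by_cases h2 : s e ∈ B <;> by_cases h3 : t e ∈ A <;>
    by_cases h4 : t e ∈ B <;> simp [h1, h2, h3, h4]

theorem cut_compl (s t : E → V) (X : Set V) : cut s t Xᶜ = cut s t X := by
  ext e
  rw [mem_cut, mem_cut, Set.mem_compl_iff, Set.mem_compl_iff]
  tauto

theorem W3 (s t : E → V) (U X : Set V) (w x : V) (hw : w ∉ X) (hwU : w ∈ U) (hx : x ∈ X)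
    (hxU : x ∈ U) (h3 : (cut s t X).card = 3)
    (hsp : ∀ Z : Set V, (∃ v ∈ U, v ∈ Z) → (∃ v ∈ U, v ∉ Z) → 3 ≤ (cut s t Z).card) (B : Set V) :
    (cut (mg X w ∘ s) (mg X w ∘ t) (B ∩ (X ∪ {w}))).card ≤ (cut s t B).card := by
  rw [cut_mg]
  by_cases hB : w ∈ B
  · have e1 : (mg X w) ⁻¹' (B ∩ (X ∪ {w})) = B ∪ Xᶜ := by
      ext z
      rw [Set.mem_preimage]
      by_cases hz : z ∈ X
      · rw [mg_in hz]
        constructor
        · exact fun h => Or.inl h.1
        · rintro (h | h)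
          · exact ⟨h, Or.inl hz⟩
          · exact absurd hz h
      · rw [mg_out hz]
        exact ⟨fun _ => Or.inr hz, fun _ => ⟨hB, Or.inr rfl⟩⟩
    rw [e1]
    have h4 := submod s t B Xᶜ
    rw [cut_compl s t X, h3] at h4
    have h5 := hsp (B ∩ Xᶜ) ⟨w, hwU, hB, hw⟩ ⟨x, hxU, fun h => h.2 hx⟩
    omega
  · have e1 : (mg X w) ⁻¹' (B ∩ (X ∪ {w})) = B ∩ X := by
      ext z
      rw [Set.mem_preimage]
      by_cases hz : z ∈ X
      · rw [mg_in hz]
        exact ⟨fun h => ⟨h.1, hz⟩, fun h => ⟨h.1, Or.inl hz⟩⟩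
      · rw [mg_out hz]
        exact ⟨fun h => absurd h.1 hB, fun h => absurd h.2 hz⟩
    rw [e1]
    have h4 := submod s t B X
    rw [h3] at h4
    have h5 := hsp (B ∪ X) ⟨x, hxU, Or.inr hx⟩ ⟨w, hwU, fun h => h.elim hB hw⟩
    omega

theorem main (h3 : S_THREE) :
    ∀ (m : ℕ) (s t : E → V) (T : Tr V), T.size ≤ m → T.Nodup → T.Width s t 6 →
    (∀ e, s e ∈ T.set ∧ t e ∈ T.set) → (∀ Z : Set V, (cut s t Z).card ≠ 1) →
    ∃ c, Cov s t T.set c := by
  classical
  intro m
  induction m with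
  | zero =>
    intro s t T hT
    have := size_pos T
    omega
  | succ m ih =>
    intro s t T hT hN hW hE hbr
    by_cases hsp : ∀ Z : Set V, (∃ v ∈ T.set, v ∈ Z) → (∃ v ∈ T.set, v ∉ Z) →
        3 ≤ (cut s t Z).card
    · by_cases htr : ∀ Z ⊆ T.set, (cut s t Z).card = 3 →
          (∃ v, Z = {v}) ∨ (∃ v, T.set \ Z = {v})
      · refine h3 V E s t T hN hW hE (fun Z _ h1 h2 => ?_) htr
        obtain ⟨a, ha⟩ := h1
        obtain ⟨b, hb⟩ := h2
        exact hsp Z ⟨a, by
          rename_i hZ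
          exact hZ ha, ha⟩ ⟨b, hb.1, hb.2⟩
      push Not at htr
      obtain ⟨X, hXU, hX3, hX1, hX2⟩ := htr
      have hcutU : cut s t T.set = ∅ := by
        ext e
        rw [mem_cut]
        simp [(hE e).1, (hE e).2]
      have hcutE : cut s t (∅ : Set V) = ∅ := by
        ext e
        rw [mem_cut]
        simp
      obtain ⟨x₀, hx₀⟩ : X.Nonempty := by
        rw [Set.nonempty_iff_ne_empty]
        rintro rfl
        rw [hcutE] at hX3
        simp at hX3
      obtain ⟨y₀, hy₀⟩ : (T.set \ X).Nonempty := by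
        rw [Set.nonempty_iff_ne_empty]
        intro h
        have : T.set = X := Set.Subset.antisymm (Set.sdiff_eq_empty.1 h) hXU
        rw [← this, hcutU] at hX3
        simp at hX3
      obtain ⟨x₁, hx₁, hx01⟩ : ∃ x₁ ∈ X, x₁ ≠ x₀ := by
        by_contra hc
        push Not at hc
        exact hX1 x₀ (Set.eq_singleton_iff_unique_mem.2 ⟨hx₀, hc⟩)
      obtain ⟨y₁, hy₁, hy01⟩ : ∃ y₁ ∈ T.set \ X, y₁ ≠ y₀ := by
        by_contra hc
        push Not at hc
        exact hX2 y₀ (Set.eq_singleton_iff_unique_mem.2 ⟨hy₀, hc⟩)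
      have half : ∀ (Y : Set V) (w : V), w ∉ Y → w ∈ T.set → (∃ v ∈ T.set, v ∈ Y) →
          (∃ v ∈ T.set, v ∉ Y ∧ v ≠ w) → (cut s t Y).card = 3 →
          ∃ c1, Cov (mg Y w ∘ s) (mg Y w ∘ t) (T.set ∩ (Y ∪ {w})) c1 := by
        intro Y w hwY hwT hex hex2 hY3
        obtain ⟨x, hxT, hxY⟩ := hex
        obtain ⟨y, hyT, hyY, hyw⟩ := hex2
        obtain ⟨T1, a1, a2, a3, -, a5⟩ := prune s t _ _ (Y ∪ {w})
          (W3 s t T.set Y w x hwY hwT hxY hxT hY3 hsp) 6 T hN hW ⟨w, hwT, Or.inr rfl⟩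
        have hlt := a5 ⟨y, hyT, fun h => h.elim hyY (fun h' => hyw h')⟩
        obtain ⟨c1, hc1⟩ := ih (mg Y w ∘ s) (mg Y w ∘ t) T1 (by omega) a2 a3 (fun e => by
          rw [a1]
          have hm : ∀ z ∈ T.set, mg Y w z ∈ T.set ∩ (Y ∪ {w}) := by
            intro z hz
            by_cases h : z ∈ Y
            · rw [mg_in h]; exact ⟨hz, Or.inl h⟩
            · rw [mg_out h]; exact ⟨hwT, Or.inr rfl⟩
          exact ⟨hm _ (hE e).1, hm _ (hE e).2⟩) (fun Z => by
          rw [cut_mg]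
          exact hbr _)
        rw [a1] at hc1
        exact ⟨c1, hc1⟩
      obtain ⟨c1, hc1⟩ := half X y₀ hy₀.2 hy₀.1 ⟨x₀, hXU hx₀, hx₀⟩ ⟨y₁, hy₁.1, hy₁.2, hy01⟩ hX3
      obtain ⟨c2, hc2⟩ := half Xᶜ x₀ (fun h => h hx₀) (hXU hx₀) ⟨y₀, hy₀.1, hy₀.2⟩
        ⟨x₁, hXU hx₁, fun h => h hx₁, hx01⟩ (by rw [cut_compl, hX3])
      obtain ⟨f1, f2, f3, h12, h13, h23, hcut⟩ := Finset.card_eq_three.1 hX3
      have hsum : ∀ x : E → ZMod 2, ∑ e ∈ cut s t X, x e = x f1 + x f2 + x f3 := by
        intro x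
        rw [hcut, Finset.sum_insert (by simp [h12, h13]), Finset.sum_insert (by simp [h23]),
          Finset.sum_singleton, add_assoc]
      have hp1 : ∀ i, c1 i f1 + c1 i f2 + c1 i f3 = 0 := by
        intro i
        rw [← hsum, ← bdw s t X y₀ hy₀.2]
        exact hc1.2 y₀ ⟨hy₀.1, Or.inr rfl⟩ i
      have hp2 : ∀ i, c2 i f1 + c2 i f2 + c2 i f3 = 0 := by
        intro i
        rw [← hsum, ← cut_compl, ← bdw s t Xᶜ x₀ (fun h => h hx₀)]
        exact hc2.2 x₀ ⟨hXU hx₀, Or.inr rfl⟩ i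
      have hz : ∀ a b c : ZMod 2, a + b + c = 0 → a + b = c := by decide
      obtain ⟨σ, hσ⟩ := perm_two (fun i => c1 i f1) (fun i => c1 i f2) (fun i => c2 i f1)
        (fun i => c2 i f2) (hc1.1 f1) (hc1.1 f2) (by
          simp only [hz _ _ _ (hp1 _)]
          exact hc1.1 f3) (hc2.1 f1) (hc2.1 f2) (by
          simp only [hz _ _ _ (hp2 _)]
          exact hc2.1 f3)
      have hcc : ∀ e ∈ cut s t X, ∀ i, c2 (σ i) e = c1 i e := by
        intro e he i
        rw [hcut] at he
        simp only [Finset.mem_insert, Finset.mem_singleton] at he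
        rcases he with rfl | rfl | rfl
        · exact (hσ i).1
        · exact (hσ i).2
        · rw [← hz _ _ _ (hp1 i), ← hz _ _ _ (hp2 (σ i))]
          rw [(hσ i).1, (hσ i).2]
      refine ⟨fun i e => if s e ∈ X ∨ t e ∈ X then c1 i e else c2 (σ i) e, fun e => ?_,
        fun v hv i => ?_⟩
      · by_cases h : s e ∈ X ∨ t e ∈ X
        · simp only [if_pos h]
          exact hc1.1 e
        · simp only [if_neg h]
          rw [card_perm σ (fun i => c2 i e)]
          exact hc2.1 e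
      · by_cases hvX : v ∈ X
        · rw [bd3 s t X y₀ hy₀.2 _ (c1 i) (fun e he => if_pos he) v hvX]
          exact hc1.2 v ⟨hv, Or.inl hvX⟩ i
        · rw [bd3 s t Xᶜ x₀ (fun h => h hx₀) _ (c2 (σ i)) (fun e he => by
            show (if s e ∈ X ∨ t e ∈ X then c1 i e else c2 (σ i) e) = c2 (σ i) e
            by_cases h : s e ∈ X ∨ t e ∈ X
            · rw [if_pos h, hcc e ((mem_cut s t X e).2 (by
                rcases he with he | he
                · have he' : s e ∉ X := he
                  tauto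
                · have he' : t e ∉ X := he
                  tauto)) i]
            · rw [if_neg h]) v hvX]
          exact hc2.2 v ⟨hv, Or.inl hvX⟩ (σ i)
    push Not at hsp
    obtain ⟨X, hX1, hX2, hX3⟩ := hsp
    have half : ∀ (Y : Set V) (u : V), u ∈ Y → u ∈ T.set → (∃ v ∈ T.set, v ∉ Y) →
        (∀ B : Set V, (cut (mg Y u ∘ s) (mg Y u ∘ t) (B ∩ Y)).card ≤ (cut s t B).card) →
        ∃ c1, Cov (mg Y u ∘ s) (mg Y u ∘ t) (T.set ∩ Y) c1 := by
      intro Y u hu huT hex hWY
      obtain ⟨T1, a1, a2, a3, -, a5⟩ := prune s t _ _ Y hWY 6 T hN hW ⟨u, huT, hu⟩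
      have hlt := a5 hex
      obtain ⟨f1, hf1⟩ := ih (mg Y u ∘ s) (mg Y u ∘ t) T1 (by omega) a2 a3 (fun e => by
        rw [a1]
        have hm : ∀ z ∈ T.set, mg Y u z ∈ T.set ∩ Y := by
          intro z hz
          by_cases h : z ∈ Y
          · rw [mg_in h]; exact ⟨hz, h⟩
          · rw [mg_out h]; exact ⟨huT, hu⟩
        exact ⟨hm _ (hE e).1, hm _ (hE e).2⟩) (fun Z => by
        rw [cut_mg]
        exact hbr _)
      rw [a1] at hf1
      exact ⟨f1, hf1⟩
    have h012 : (cut s t X).card = 0 ∨ (cut s t X).card = 2 := by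
      have := hbr X
      omega
    rcases h012 with h0 | h2
    · rw [Finset.card_eq_zero] at h0
      have h0' : ∀ e, s e ∈ X ↔ t e ∈ X := by
        intro e
        by_contra h
        have := (mem_cut s t X e).2 h
        rw [h0] at this
        exact Finset.notMem_empty e this
      have h0'' : ∀ e, s e ∈ Xᶜ ↔ t e ∈ Xᶜ := fun e => not_congr (h0' e)
      obtain ⟨a, haT, haX⟩ := hX1
      obtain ⟨b, hbT, hbX⟩ := hX2
      obtain ⟨c1, hc1⟩ := half X a haX haT ⟨b, hbT, hbX⟩ (W0 s t X a h0')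
      obtain ⟨c2, hc2⟩ := half Xᶜ b hbX hbT ⟨a, haT, fun h => h haX⟩ (W0 s t Xᶜ b h0'')
      refine ⟨fun i e => if s e ∈ X then c1 i e else c2 i e, fun e => ?_, fun v hv i => ?_⟩
      · by_cases h : s e ∈ X
        · simp only [if_pos h]
          exact hc1.1 e
        · simp only [if_neg h]
          exact hc2.1 e
      · by_cases hvX : v ∈ X
        · rw [bd0 s t X a h0' _ (c1 i) (fun e he => if_pos he) v hvX]
          exact hc1.2 v ⟨hv, hvX⟩ i
        · rw [bd0 s t Xᶜ b h0'' _ (c2 i) (fun e he => if_neg he) v hvX]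
          exact hc2.2 v ⟨hv, hvX⟩ i
    · obtain ⟨e0, f0, hne, hcut⟩ := Finset.card_eq_two.1 h2
      have ends : ∀ e ∈ cut s t X, ∃ u w, u ∈ X ∧ w ∉ X ∧
          ((s e = u ∧ t e = w) ∨ (s e = w ∧ t e = u)) := by
        intro e he
        rw [mem_cut] at he
        by_cases hs : s e ∈ X
        · exact ⟨s e, t e, hs, fun h => he ⟨fun _ => h, fun _ => hs⟩, Or.inl ⟨rfl, rfl⟩⟩
        · have ht : t e ∈ X := by
            by_contra h
            exact he ⟨fun h' => absurd h' hs, fun h' => absurd h' h⟩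
          exact ⟨t e, s e, ht, hs, Or.inr ⟨rfl, rfl⟩⟩
      obtain ⟨u, w, hu, hw, he0⟩ := ends e0 (by rw [hcut]; simp)
      obtain ⟨u', w', hu', hw', hf0⟩ := ends f0 (by rw [hcut]; simp)
      have hoth : ∀ e, e ≠ e0 → e ≠ f0 → (s e ∈ X ↔ t e ∈ X) := by
        intro e h1 h2'
        by_contra h
        have := (mem_cut s t X e).2 h
        rw [hcut, Finset.mem_insert, Finset.mem_singleton] at this
        exact this.elim h1 h2'
      have hoth' : ∀ e, e ≠ e0 → e ≠ f0 → (s e ∈ Xᶜ ↔ t e ∈ Xᶜ) :=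
        fun e h1 h2' => not_congr (hoth e h1 h2')
      have huT : u ∈ T.set := by
        rcases he0 with ⟨h4, _⟩ | ⟨_, h4⟩ <;> rw [← h4]
        · exact (hE e0).1
        · exact (hE e0).2
      have hwT : w ∈ T.set := by
        rcases he0 with ⟨_, h4⟩ | ⟨h4, _⟩ <;> rw [← h4]
        · exact (hE e0).2
        · exact (hE e0).1
      obtain ⟨c1, hc1⟩ := half X u hu huT hX2
        (W2 s t X e0 f0 u w u' w' hu hw hu' hw' he0 hf0 hoth hbr)
      obtain ⟨c2, hc2⟩ := half Xᶜ w hw hwT ⟨u, huT, fun h => h hu⟩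
        (W2 s t Xᶜ e0 f0 w u w' u' hw (fun h => h hu) hw' (fun h => h hu') he0.symm hf0.symm
          hoth' hbr)
      obtain ⟨σ, hσ⟩ := perm_one (fun i => c1 i f0) (fun i => c2 i f0) (hc1.1 f0) (hc2.1 f0)
      refine ⟨fun i e => if e = e0 ∨ e = f0 then c1 i f0 else if s e ∈ X then c1 i e
        else c2 (σ i) e, fun e => ?_, fun v hv i => ?_⟩
      · by_cases h : e = e0 ∨ e = f0
        · simp only [if_pos h]
          exact hc1.1 f0
        · by_cases h' : s e ∈ X
          · simp only [if_neg h, if_pos h']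
            exact hc1.1 e
          · simp only [if_neg h, if_neg h']
            rw [card_perm σ (fun i => c2 i e)]
            exact hc2.1 e
      · by_cases hvX : v ∈ X
        · rw [bd2 s t X e0 f0 u w u' w' hne hu hw hu' hw' he0 hf0 hoth _ (c1 i)
            (fun e h1 h2' hs => by
            beta_reduce
            rw [if_neg (not_or.2 ⟨h1, h2'⟩), if_pos hs]) (if_pos (Or.inl rfl))
            (if_pos (Or.inr rfl)) v hvX]
          exact hc1.2 v ⟨hv, hvX⟩ i
        · rw [bd2 s t Xᶜ e0 f0 w u w' u' hne hw (fun h => h hu) hw' (fun h => h hu') he0.symm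
            hf0.symm hoth' _ (c2 (σ i)) (fun e h1 h2' hs => by
            beta_reduce
            rw [if_neg (not_or.2 ⟨h1, h2'⟩), if_neg hs]) (by
            beta_reduce
            rw [if_pos (Or.inl rfl)]
            exact (hσ i).symm) (by
            beta_reduce
            rw [if_pos (Or.inr rfl)]
            exact (hσ i).symm) v hvX]
          exact hc2.2 v ⟨hv, hvX⟩ (σ i)

end

end Pool.Agent.T2h40.CW6.RED

namespace Pool.Agent.T2h40.CW6

theorem t_RED : S_RED := fun h3 _ _ _ s t T hN hW hE hbr =>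
  RED.main h3 T.size s t T le_rfl hN hW hE hbr

end Pool.Agent.T2h40.CW6
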