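import Pool.Agent.T2h40.CW6.J331
import Pool.Agent.T2h40.CW6.J341
import Pool.Agent.T2h40.CW6.J351
import Pool.Agent.T2h40.CW6.J352
import Pool.Agent.T2h40.CW6.J362
import Pool.Agent.T2h40.CW6.J441
import Pool.Agent.T2h40.CW6.J442
import Pool.Agent.T2h40.CW6.J452
import Pool.Agent.T2h40.CW6.J462
import Pool.Agent.T2h40.CW6.J463
import Pool.Agent.T2h40.CW6.J552
import Pool.Agent.T2h40.CW6.J553
import Pool.Agent.T2h40.CW6.J563
import Pool.Agent.T2h40.CW6.J663
import Pool.Agent.T2h40.CW6.J664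
import Pool.Agent.T2h40.CW6.J342
import Pool.Agent.T2h40.CW6.J453
import Pool.Agent.T2h40.CW6.J564
import Pool.Agent.T2h40.CW6.LEAF
import Pool.Agent.T2h40.CW6.MAIN
import Pool.Agent.T2h40.CW6.RED
import Pool.Agent.T2h40.CW6.Fin6

/-!
# Quadruple covers of bridgeless graphs of carving width at most six
-/

set_option autoImplicit false

open Finset

namespace Pool.Agent.T2h40.CW6

open Pool.Agent.W420.BF (cut bd Tr)

theorem allJ : AllJ T0 Y0 where
  ok := T0_ok
  stok := fun n _ h => st0_ok n h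
  nt := fun n h3 h6 => nt0 n (by omega) h3
  ne := fun n h3 h6 => ne0 n (by omega) h3
  j331 := j331
  j341 := j341
  j351 := j351
  j352 := j352
  j362 := j362
  j441 := j441
  j442 := j442
  j452 := j452
  j462 := j462
  j463 := j463
  j552 := j552
  j553 := j553
  j563 := j563
  j663 := j663
  j664 := j664
  j342 := j342
  j453 := j453
  j564 := j564

theorem three : S_THREE := t_MAIN t_LEAF T0 Y0 allJ

theorem covers : ∀ (V E : Type) [Fintype E] (s t : E → V) (T : Tr V),
    T.Nodup → T.Width s t 6 → (∀ e, s e ∈ T.set ∧ t e ∈ T.set) →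
    (∀ Z : Set V, (cut s t Z).card ≠ 1) → ∃ c, Cov s t T.set c := t_RED three

end Pool.Agent.T2h40.CW6
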