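import Pool.Agent.T2h40.CW6.Fam

/-!
# Checkers

Functions evaluated by the kernel, and what they prove.
-/

set_option autoImplicit false

open Finset

namespace Pool.Agent.T2h40.CW6

/-- evaluate the argument first -/
def fc {α : Type} (n : ℕ) (f : ℕ → α) : α :=
  Nat.rec (motive := fun _ => α) (f (nat_lit 0)) (fun m _ => f m) (Nat.add n (nat_lit 1))

theorem fc_eq {α : Type} (n : ℕ) (f : ℕ → α) : fc n f = f n := rfl

/-- if then else -/
def bi {α : Type} (b : Bool) (t e : α) : α := Bool.rec (motive := fun _ => α) e t b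

theorem bi_true {α : Type} (t e : α) : bi true t e = t := rfl
theorem bi_false {α : Type} (t e : α) : bi false t e = e := rfl

theorem bi_and {b c : Bool} : bi b c false = true ↔ b = true ∧ c = true := by
  cases b <;> simp [bi_true, bi_false]

/-- bit `i` of `V` -/
def bt (V i : ℕ) : ℕ := Nat.mod (Nat.shiftRight V i) (nat_lit 2)

theorem bt_eq (V i : ℕ) : Nat.beq (bt V i) (nat_lit 1) = true ↔ V.testBit i = true := by
  rw [Nat.beq_eq, Nat.testBit_eq_decide_div_mod_eq, decide_eq_true_iff]
  unfold bt
  show (V >>> i) % 2 = 1 ↔ _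
  rw [Nat.shiftRight_eq_div_pow]

/-- all numbers below `n` satisfy `f` -/
def allr (n : ℕ) (f : ℕ → Bool) : Bool :=
  Nat.rec (motive := fun _ => Bool) true (fun m ih => bi (f m) ih false) n

theorem allr_spec {n : ℕ} {f : ℕ → Bool} (h : allr n f = true) : ∀ i < n, f i = true := by
  induction n with
  | zero => intro i hi; omega
  | succ n ih =>
    have h' : bi (f n) (allr n f) false = true := h
    rw [bi_and] at h'
    intro i hi
    rcases Nat.lt_succ_iff_lt_or_eq.1 hi with h1 | rfl
    · exact ih h'.2 i h1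
    · exact h'.1

/-- all numbers `j < n` such that bit `j` of `V` is one satisfy `f` -/
def allm (f : ℕ → Bool) (V n : ℕ) : Bool :=
  Nat.rec (motive := fun _ => Bool) true (fun j ih =>
    bi (Nat.beq (bt V j) (nat_lit 0)) ih (bi (f j) ih false)) n

theorem allm_spec {f : ℕ → Bool} {V n : ℕ} (h : allm f V n = true) :
    ∀ j < n, V.testBit j = true → f j = true := by
  induction n with
  | zero => intro i hi; omega
  | succ n ih =>
    have h' : bi (Nat.beq (bt V n) 0) (allm f V n) (bi (f n) (allm f V n) false) = true := h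
    intro i hi hV
    cases hb : Nat.beq (bt V n) 0 with
    | true =>
      rw [hb, bi_true] at h'
      rcases Nat.lt_succ_iff_lt_or_eq.1 hi with h1 | rfl
      · exact ih h' i h1 hV
      · exfalso
        rw [← bt_eq] at hV
        rw [Nat.beq_eq] at hb hV
        exact absurd (hb.symm.trans hV) (by decide)
    | false =>
      rw [hb, bi_false, bi_and] at h'
      rcases Nat.lt_succ_iff_lt_or_eq.1 hi with h1 | rfl
      · exact ih h'.2 i h1 hV
      · exact h'.1

/-- union of the `g i` for the `i` below `n` with `c i` -/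
def accr (c : ℕ → Bool) (g : ℕ → ℕ) (n : ℕ) : ℕ → ℕ :=
  Nat.rec (motive := fun _ => ℕ → ℕ) (fun acc => acc)
    (fun i ih acc => bi (c i) (fc (Nat.lor acc (g i)) ih) (ih acc)) n

theorem accr_spec {c : ℕ → Bool} {g : ℕ → ℕ} {n : ℕ} : ∀ {acc t : ℕ},
    (accr c g n acc).testBit t = true →
    acc.testBit t = true ∨ ∃ i < n, c i = true ∧ (g i).testBit t = true := by
  induction n with
  | zero => intro acc t h; exact Or.inl h
  | succ n ih =>
    intro acc t h
    have h' : (bi (c n) (accr c g n (Nat.lor acc (g n))) (accr c g n acc)).testBit t = true := h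
    cases hc : c n with
    | true =>
      rw [hc, bi_true] at h'
      rcases ih h' with h1 | ⟨i, h1, h2⟩
      · have h3 : (acc ||| g n).testBit t = true := h1
        rw [Nat.testBit_or, Bool.or_eq_true] at h3
        rcases h3 with h3 | h3
        · exact Or.inl h3
        · exact Or.inr ⟨n, by omega, hc, h3⟩
      · exact Or.inr ⟨i, by omega, h2⟩
    | false =>
      rw [hc, bi_false] at h'
      rcases ih h' with h1 | ⟨i, h1, h2⟩
      · exact Or.inl h1
      · exact Or.inr ⟨i, by omega, h2⟩

/-- union of the `g d` for the digits `d` of `x` -/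
def accd (g : ℕ → ℕ) (fuel : ℕ) : ℕ → ℕ → ℕ :=
  Nat.rec (motive := fun _ => ℕ → ℕ → ℕ) (fun _ acc => acc) (fun _ ih x acc =>
    bi (Nat.beq x (nat_lit 0)) acc
      (fc (Nat.sub (Nat.mod x (nat_lit 1048576)) (nat_lit 1)) fun d =>
        fc (Nat.shiftRight x (nat_lit 20)) fun x' => ih x' (Nat.lor acc (g d)))) fuel

/-- all digits `d` of `x` satisfy `f` -/
def alld (f : ℕ → Bool) (fuel : ℕ) : ℕ → Bool :=
  Nat.rec (motive := fun _ => ℕ → Bool) (fun _ => true) (fun _ ih x =>
    bi (Nat.beq x (nat_lit 0)) true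
      (fc (Nat.sub (Nat.mod x (nat_lit 1048576)) (nat_lit 1)) fun d =>
        fc (Nat.shiftRight x (nat_lit 20)) fun x' => bi (f d) (ih x') false)) fuel

/-- some digit `d` of `x` satisfies `f` -/
def anyd (f : ℕ → Bool) (fuel : ℕ) : ℕ → Bool :=
  Nat.rec (motive := fun _ => ℕ → Bool) (fun _ => false) (fun _ ih x =>
    bi (Nat.beq x (nat_lit 0)) false
      (fc (Nat.sub (Nat.mod x (nat_lit 1048576)) (nat_lit 1)) fun d =>
        fc (Nat.shiftRight x (nat_lit 20)) fun x' => bi (f d) true (ih x'))) fuel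

theorem anyd_spec {f : ℕ → Bool} {fuel : ℕ} : ∀ {x : ℕ}, anyd f fuel x = true →
    ∃ d, f d = true := by
  induction fuel with
  | zero => intro x h; exact absurd h (by show ¬ (false = true); simp)
  | succ n ih =>
    intro x h
    have h' : bi (Nat.beq x 0) false (bi (f (Nat.sub (Nat.mod x 1048576) 1)) true
      (anyd f n (Nat.shiftRight x 20))) = true := h
    cases hb : Nat.beq x 0 with
    | true => rw [hb, bi_true] at h'; exact Bool.noConfusion h'
    | false =>
      rw [hb, bi_false] at h'
      cases hf : f (Nat.sub (Nat.mod x 1048576) 1) with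
      | true => exact ⟨_, hf⟩
      | false => rw [hf, bi_false] at h'; exact ih h'

theorem accd_spec {f : ℕ → Bool} {g : ℕ → ℕ} {fuel : ℕ} : ∀ {x acc t : ℕ},
    alld f fuel x = true → (accd g fuel x acc).testBit t = true →
    acc.testBit t = true ∨ ∃ d, f d = true ∧ (g d).testBit t = true := by
  induction fuel with
  | zero => intro x acc t _ h; exact Or.inl h
  | succ n ih =>
    intro x acc t hf h
    have h' : (bi (Nat.beq x 0) acc (accd g n (Nat.shiftRight x 20)
      (Nat.lor acc (g (Nat.sub (Nat.mod x 1048576) 1))))).testBit t = true := h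
    have hf' : bi (Nat.beq x 0) true (bi (f (Nat.sub (Nat.mod x 1048576) 1))
      (alld f n (Nat.shiftRight x 20)) false) = true := hf
    cases hb : Nat.beq x 0 with
    | true => rw [hb, bi_true] at h'; exact Or.inl h'
    | false =>
      rw [hb, bi_false] at h' hf'
      rw [bi_and] at hf'
      rcases ih hf'.2 h' with h1 | h1
      · have h3 : (acc ||| g (Nat.sub (Nat.mod x 1048576) 1)).testBit t = true := h1
        rw [Nat.testBit_or, Bool.or_eq_true] at h3
        rcases h3 with h3 | h3
        · exact Or.inl h3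
        · exact Or.inr ⟨_, hf'.1, h3⟩
      · exact Or.inr h1

/-- union of the `2 ^ κ` blocks of `W` bits -/
def hf (W κ : ℕ) : ℕ → ℕ :=
  Nat.rec (motive := fun _ => ℕ → ℕ) (fun x => x) (fun m ih x =>
    fc (Nat.mul W (Nat.shiftLeft (nat_lit 1) m)) fun s =>
      ih (Nat.lor (Nat.land x (Nat.sub (Nat.shiftLeft (nat_lit 1) s) (nat_lit 1)))
        (Nat.shiftRight x s))) κ

theorem hf_spec (W : ℕ) (κ : ℕ) : ∀ {x t : ℕ}, (hf W κ x).testBit t = true →
    ∃ o < 2 ^ κ, x.testBit (W * o + t) = true := by
  induction κ with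
  | zero =>
    intro x t h
    refine ⟨0, by norm_num, ?_⟩
    rw [mul_zero, zero_add]
    exact h
  | succ m ih =>
    intro x t h
    have h' : (hf W m (Nat.lor (Nat.land x (Nat.sub (Nat.shiftLeft 1 (Nat.mul W (Nat.shiftLeft 1 m)))
      1)) (Nat.shiftRight x (Nat.mul W (Nat.shiftLeft 1 m))))).testBit t = true := h
    obtain ⟨o, ho, h1⟩ := ih h'
    have h2 : ((x &&& (1 <<< (W * 1 <<< m) - 1)) ||| (x >>> (W * 1 <<< m))).testBit (W * o + t)
      = true := h1
    rw [Nat.testBit_or, Nat.testBit_and, Nat.testBit_shiftRight, Nat.one_shiftLeft,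
      Bool.or_eq_true, Bool.and_eq_true] at h2
    rcases h2 with h2 | h2
    · exact ⟨o, by rw [pow_succ]; omega, h2.1⟩
    · refine ⟨o + 2 ^ m, by rw [pow_succ]; omega, ?_⟩
      rw [← h2, Nat.one_shiftLeft]
      congr 1
      ring

/-- binary trees of numbers -/
inductive BT : Type
  | lf : ℕ → BT
  | nd : BT → BT → BT

/-- entry `i` -/
noncomputable def BT.get (t : BT) : ℕ → ℕ :=
  BT.rec (motive := fun _ => ℕ → ℕ) (fun n _ => n)
    (fun _ _ gl gr i => fc (Nat.shiftRight i (nat_lit 1)) fun i' =>
      bi (Nat.beq (Nat.mod i (nat_lit 2)) (nat_lit 0)) (gl i') (gr i')) t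

/-- decode a word -/
def dwf (fuel : ℕ) : ℕ → List ℕ :=
  Nat.rec (motive := fun _ => ℕ → List ℕ) (fun _ => []) (fun _ ih x =>
    bi (Nat.beq x (nat_lit 0)) []
      (fc (Nat.sub (Nat.mod x (nat_lit 8)) (nat_lit 1)) fun a =>
        fc (Nat.shiftRight x (nat_lit 3)) fun x' => a :: ih x')) fuel

/-- decode a word -/
def dw (x : ℕ) : List ℕ := dwf (nat_lit 16) x

/-- `WV` -/
def wvk (n : ℕ) (w : List ℕ) : Bool :=
  List.rec (motive := fun _ => Bool) true
    (fun a _ ih => bi (Nat.ble (Nat.succ (Nat.succ a)) n) ih false) w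

theorem wvk_spec {n : ℕ} {w : List ℕ} (h : wvk n w = true) : WV n w := by
  induction w with
  | nil => intro a ha; simp at ha
  | cons b w ih =>
    have h' : bi (Nat.ble (b + 2) n) (wvk n w) false = true := h
    rw [bi_and] at h'
    intro a ha
    rcases List.mem_cons.1 ha with rfl | ha
    · have := Nat.le_of_ble_eq_true h'.1
      omega
    · exact ih h'.2 a ha

/-- `pw` -/
def pwk (w : List ℕ) (p : ℕ) : ℕ :=
  List.rec (motive := fun _ => ℕ) p (fun a _ ih => fc ih fun x =>
    bi (Nat.beq x a) (Nat.succ a) (bi (Nat.beq x (Nat.succ a)) a x)) w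

theorem pwk_eq (w : List ℕ) (p : ℕ) : pwk w p = pw w p := by
  induction w with
  | nil => rfl
  | cons a w ih =>
    show bi (Nat.beq (pwk w p) a) (Nat.succ a) (bi (Nat.beq (pwk w p) (Nat.succ a)) a (pwk w p)) =
      sw a (pw w p)
    rw [ih]
    unfold sw
    by_cases h1 : pw w p = a
    · rw [if_pos h1, h1]
      have : Nat.beq a a = true := by rw [Nat.beq_eq]
      rw [this]; rfl
    · have h2 : Nat.beq (pw w p) a = false := by rw [← Bool.not_eq_true, Nat.beq_eq]; exact h1
      rw [if_neg h1, h2, bi_false]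
      by_cases h3 : pw w p = a + 1
      · have h4 : Nat.beq (pw w p) (Nat.succ a) = true := by rw [Nat.beq_eq]; exact h3
        rw [if_pos h3, h4, bi_true]
      · have h4 : Nat.beq (pw w p) (Nat.succ a) = false := by
          rw [← Bool.not_eq_true, Nat.beq_eq]; exact h3
        rw [if_neg h3, h4, bi_false]

/-- `Tab.jw` -/
def jwk (T : Tab) (n : ℕ) (w : List ℕ) (j : ℕ) : ℕ :=
  List.rec (motive := fun _ => ℕ) j (fun a _ ih => T.ac n a ih) w

theorem jwk_eq (T : Tab) (n : ℕ) (w : List ℕ) (j : ℕ) : jwk T n w j = T.jw n w j := by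
  induction w with
  | nil => rfl
  | cons a w ih =>
    show T.ac n a (jwk T n w j) = T.ac n a (T.jw n w j)
    rw [ih]

/-! ### masks -/

/-- the lowest `k` bits of each of the six columns -/
def msk (k : ℕ) : ℕ := Nat.mul (Nat.sub (Nat.shiftLeft (nat_lit 1) k) (nat_lit 1)) (nat_lit 0x41041041)

theorem msk_bit : ∀ k < 7, ∀ t < 36, (msk k).testBit t = decide (t % 6 < k) := by
  decide +kernel

theorem msk_lt : ∀ k < 7, msk k < 2 ^ 36 := by
  decide +kernel

/-- the lowest `k` bits of each column of `q` -/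
def lowq (k q : ℕ) : ℕ := Nat.land q (msk k)

theorem lowq_bit {k : ℕ} (hk : k < 7) (q t : ℕ) : (lowq k q).testBit t =
    (q.testBit t && decide (t < 36 ∧ t % 6 < k)) := by
  show (q &&& msk k).testBit t = _
  rw [Nat.testBit_and]
  by_cases ht : t < 36
  · rw [msk_bit k hk t ht]
    simp [ht]
  · have h1 : (msk k).testBit t = false := Nat.testBit_eq_false_of_lt
      (lt_of_lt_of_le (msk_lt k hk) (Nat.pow_le_pow_right (by norm_num) (by omega)))
    rw [h1]
    simp [ht]

/-- the columns of `s` (`r` bits) followed by those of `m` (`k` bits) -/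
def qx (r k s m : ℕ) : ℕ := Nat.lor (lowq r s) (Nat.shiftLeft (lowq k m) r)

theorem col_bit (q i p : ℕ) (hp : p < 6) : (col q i).testBit p = q.testBit (6 * i + p) := by
  unfold col
  rw [show (64 : ℕ) = 2 ^ 6 from rfl, Nat.testBit_mod_two_pow, Nat.testBit_shiftRight]
  simp [hp]

theorem qx_bit {r k : ℕ} (hrk : r + k ≤ 6) (s m i p : ℕ) (hi : i < 6) (hp : p < 6) :
    (col (qx r k s m) i).testBit p =
      if p < r then (col s i).testBit p else
        if p < r + k then (col m i).testBit (p - r) else false := by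
  rw [col_bit _ _ _ hp, col_bit _ _ _ hp, col_bit _ _ _ (by omega : p - r < 6)]
  show (lowq r s ||| (lowq k m) <<< r).testBit (6 * i + p) = _
  rw [Nat.testBit_or, Nat.testBit_shiftLeft, lowq_bit (by omega), lowq_bit (by omega)]
  have e1 : (6 * i + p) % 6 = p := by omega
  by_cases h1 : p < r
  · rw [if_pos h1]
    have h2 : decide (6 * i + p < 36 ∧ (6 * i + p) % 6 < r) = true := by
      rw [decide_eq_true_iff, e1]; omega
    rw [h2, Bool.and_true]
    have h3 : decide (6 * i + p - r < 36 ∧ (6 * i + p - r) % 6 < k) = false ∨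
        decide (6 * i + p ≥ r) = false := by
      rw [decide_eq_false_iff_not, decide_eq_false_iff_not]
      by_cases h4 : 6 * i + p ≥ r
      · left; omega
      · right; exact h4
    rcases h3 with h3 | h3
    · rw [h3]; simp
    · rw [h3]; simp
  · rw [if_neg h1]
    have h2 : decide (6 * i + p < 36 ∧ (6 * i + p) % 6 < r) = false := by
      rw [decide_eq_false_iff_not, e1]; omega
    rw [h2, Bool.and_false, Bool.false_or]
    have h3 : decide (6 * i + p ≥ r) = true := by rw [decide_eq_true_iff]; omega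
    have e2 : 6 * i + p - r = 6 * i + (p - r) := by omega
    rw [h3, Bool.true_and, e2]
    by_cases h4 : p < r + k
    · rw [if_pos h4]
      have h5 : decide (6 * i + (p - r) < 36 ∧ (6 * i + (p - r)) % 6 < k) = true := by
        rw [decide_eq_true_iff]; omega
      rw [h5, Bool.and_true]
    · rw [if_neg h4]
      have h5 : decide (6 * i + (p - r) < 36 ∧ (6 * i + (p - r)) % 6 < k) = false := by
        rw [decide_eq_false_iff_not]; omega
      rw [h5, Bool.and_false]

end Pool.Agent.T2h40.CW6
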