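import Pool.Agent.T2h40.CW6.Sem

/-!
# The union of two pieces, and the end of the induction
-/

set_option autoImplicit false

open Finset

namespace Pool.Agent.T2h40.CW6

open Pool.Agent.W420.BF (cut bd Tr Ord)

variable {V E : Type} [Fintype E]

theorem mem_cut {s t : E → V} {Z : Set V} {e : E} : e ∈ cut s t Z ↔ ¬ (s e ∈ Z ↔ t e ∈ Z) := by
  simp [cut]

theorem mem_jn {s t : E → V} {X Y : Set V} {e : E} :
    e ∈ jn s t X Y ↔ (s e ∈ X ∧ t e ∈ Y) ∨ (s e ∈ Y ∧ t e ∈ X) := by
  simp [jn]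

theorem mem_jn_iff {s t : E → V} {X Y : Set V} (hXY : Disjoint X Y) {e : E} :
    e ∈ jn s t X Y ↔ e ∈ cut s t X ∧ e ∈ cut s t Y := by
  rw [mem_jn, mem_cut, mem_cut]
  have h1 : ∀ z, ¬ (z ∈ X ∧ z ∈ Y) := fun z h => Set.disjoint_left.1 hXY h.1 h.2
  have h2 := h1 (s e)
  have h3 := h1 (t e)
  tauto

/-- the ends of the union -/
def oc {E : Type} (r : ℕ) (oX oY : ℕ → E) (p : ℕ) : E := if p < r then oX p else oY (p - r)

theorem Ord.comp {s t : E → V} {X Y : Set V} (hXY : Disjoint X Y) {r r' k : ℕ} {oX oY : ℕ → E}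
    (hX : Ord s t X (r + k) oX) (hY : Ord s t Y (r' + k) oY)
    (hin : ∀ p < k, oX (r + p) = oY (r' + p)) (hoX : ∀ p < r, oX p ∉ cut s t Y)
    (hoY : ∀ p < r', oY p ∉ cut s t X) :
    Ord s t (X ∪ Y) (r + r') (oc r oX oY) := by
  have h0 : ∀ z, ¬ (z ∈ X ∧ z ∈ Y) := fun z h => Set.disjoint_left.1 hXY h.1 h.2
  have hcut : ∀ e, e ∈ cut s t (X ∪ Y) ↔
      (e ∈ cut s t X ∧ e ∉ cut s t Y) ∨ (e ∈ cut s t Y ∧ e ∉ cut s t X) := by
    intro e
    simp only [mem_cut, Set.mem_union]
    have h2 := h0 (s e)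
    have h3 := h0 (t e)
    tauto
  have hmX : ∀ p < r, oX p ∈ cut s t X := fun p hp => (hX.2 _).2 ⟨p, by omega, rfl⟩
  have hmY : ∀ p < r', oY p ∈ cut s t Y := fun p hp => (hY.2 _).2 ⟨p, by omega, rfl⟩
  refine ⟨fun i hi j hj hij => ?_, fun e => ?_⟩
  · unfold oc at hij
    split_ifs at hij with h1 h2 h2
    · exact hX.1 i (by omega) j (by omega) hij
    · exact absurd (hij ▸ hmX i h1) (hoY (j - r) (by omega))
    · exact absurd (hij ▸ hmX j h2) (hoY (i - r) (by omega))
    · have := hY.1 (i - r) (by omega) (j - r) (by omega) hij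
      omega
  · rw [hcut]
    constructor
    · rintro (⟨h1, h2⟩ | ⟨h1, h2⟩)
      · obtain ⟨p, hp, rfl⟩ := (hX.2 e).1 h1
        have hpr : p < r := by
          by_contra hge
          apply h2
          have h3 := hin (p - r) (by omega)
          rw [show r + (p - r) = p by omega] at h3
          rw [h3]
          exact (hY.2 _).2 ⟨r' + (p - r), by omega, rfl⟩
        exact ⟨p, by omega, by unfold oc; rw [if_pos hpr]⟩
      · obtain ⟨p, hp, rfl⟩ := (hY.2 e).1 h1
        have hpr : p < r' := by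
          by_contra hge
          apply h2
          have h3 := hin (p - r') (by omega)
          rw [show r' + (p - r') = p by omega] at h3
          rw [← h3]
          exact (hX.2 _).2 ⟨r + (p - r'), by omega, rfl⟩
        refine ⟨r + p, by omega, ?_⟩
        unfold oc
        rw [if_neg (by omega), show r + p - r = p by omega]
    · rintro ⟨p, hp, rfl⟩
      unfold oc
      split_ifs with h1
      · exact Or.inl ⟨hmX p h1, hoX p h1⟩
      · exact Or.inr ⟨hmY _ (by omega), hoY _ (by omega)⟩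

theorem Real.comp {s t : E → V} {X Y : Set V} (hXY : Disjoint X Y) {r r' k : ℕ} {oX oY : ℕ → E}
    (hX : Ord s t X (r + k) oX) (hY : Ord s t Y (r' + k) oY)
    (hin : ∀ p < k, oX (r + p) = oY (r' + p)) (hoX : ∀ p < r, oX p ∉ cut s t Y)
    (hoY : ∀ p < r', oY p ∉ cut s t X) {bX bY b : Fin 6 → ℕ}
    (RX : Real s t X (r + k) oX bX) (RY : Real s t Y (r' + k) oY bY)
    (h1 : ∀ i, ∀ p < r, (bX i).testBit p = (b i).testBit p)
    (h2 : ∀ i, ∀ p < r', (bY i).testBit p = (b i).testBit (r + p))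
    (h3 : ∀ i, ∀ p < k, (bX i).testBit (r + p) = (bY i).testBit (r' + p)) :
    Real s t (X ∪ Y) (r + r') (oc r oX oY) b := by
  classical
  obtain ⟨cX, ⟨a1, a2⟩, a3⟩ := RX
  obtain ⟨cY, ⟨b1, b2⟩, b3⟩ := RY
  have h0 : ∀ z, ¬ (z ∈ X ∧ z ∈ Y) := fun z h => Set.disjoint_left.1 hXY h.1 h.2
  have hagree : ∀ e, e ∈ cut s t X → e ∈ cut s t Y → ∀ i, cX i e = cY i e := by
    intro e h4 h5 i
    obtain ⟨p, hp, rfl⟩ := (hX.2 e).1 h4
    have hpr : ¬ p < r := fun h => hoX p h h5
    have h6 := hin (p - r) (by omega)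
    rw [show r + (p - r) = p by omega] at h6
    rw [a3 p hp i, h6, b3 (r' + (p - r)) (by omega) i]
    have h7 := h3 i (p - r) (by omega)
    rw [show r + (p - r) = p by omega] at h7
    rw [h7]
  refine ⟨fun i e => if s e ∈ X ∨ t e ∈ X then cX i e else cY i e, ⟨fun e => ?_, fun v hv i => ?_⟩,
    fun p hp i => ?_⟩
  · dsimp only
    by_cases h : s e ∈ X ∨ t e ∈ X
    · simp only [if_pos h]; exact a1 e
    · simp only [if_neg h]; exact b1 e
  · rcases hv with hv | hv
    · rw [← a2 v hv i]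
      unfold bd
      refine sum_congr rfl fun e _ => ?_
      beta_reduce
      by_cases hs : s e = v
      · rw [if_pos (Or.inl (hs ▸ hv))]
      · by_cases ht : t e = v
        · rw [if_pos (Or.inr (ht ▸ hv))]
        · rw [if_neg hs, if_neg ht, add_zero, mul_zero, mul_zero]
    · rw [← b2 v hv i]
      unfold bd
      refine sum_congr rfl fun e _ => ?_
      beta_reduce
      by_cases hX' : s e ∈ X ∨ t e ∈ X
      · rw [if_pos hX']
        by_cases hst : s e = v ∨ t e = v
        · have h4 : e ∈ cut s t X ∧ e ∈ cut s t Y := by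
            have h5 := h0 (s e)
            have h6 := h0 (t e)
            rw [mem_cut, mem_cut]
            rcases hst with h | h
            · have h7 : s e ∈ Y := h ▸ hv
              tauto
            · have h7 : t e ∈ Y := h ▸ hv
              tauto
          rw [hagree e h4.1 h4.2 i]
        · rw [not_or] at hst
          rw [if_neg hst.1, if_neg hst.2, add_zero, mul_zero, mul_zero]
      · rw [if_neg hX']
  · unfold oc
    by_cases hpr : p < r
    · rw [if_pos hpr]
      have h4 : oX p ∈ cut s t X := (hX.2 _).2 ⟨p, by omega, rfl⟩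
      have h5 : s (oX p) ∈ X ∨ t (oX p) ∈ X := by
        rw [mem_cut] at h4
        tauto
      dsimp only
      rw [if_pos h5, a3 p (by omega) i, h1 i p hpr]
    · rw [if_neg hpr]
      have h4 : oY (p - r) ∈ cut s t Y := (hY.2 _).2 ⟨p - r, by omega, rfl⟩
      have h5 : ¬ (s (oY (p - r)) ∈ X ∨ t (oY (p - r)) ∈ X) := by
        have h6 := hoY (p - r) (by omega)
        rw [mem_cut] at h4 h6
        have h7 := h0 (s (oY (p - r)))
        have h8 := h0 (t (oY (p - r)))
        tauto
      dsimp only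
      rw [if_neg h5, b3 (p - r) (by omega) i, h2 i (p - r) (by omega),
        show r + (p - r) = p by omega]

/-- If all vertices but one satisfy the parity condition then so does the last one. -/
theorem Cov.last {s t : E → V} {U : Set V} (hU : ∀ e, s e ∈ U ∧ t e ∈ U) {w : V}
    {c : Fin 6 → E → ZMod 2} (h : Cov s t (U \ {w}) c) : Cov s t U c := by
  classical
  refine ⟨h.1, fun v hv i => ?_⟩
  by_cases hvw : v = w
  · subst hvw
    obtain ⟨F, hF⟩ : ∃ F : Finset V, F = insert v (univ.image s ∪ univ.image t) := ⟨_, rfl⟩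
    have h1 : ∑ z ∈ F, bd s t (c i) z = 0 := by
      unfold bd
      rw [sum_comm]
      apply sum_eq_zero
      intro e _
      rw [← mul_sum, sum_add_distrib, sum_ite_eq, sum_ite_eq, if_pos, if_pos]
      · have h3 : (1 + 1 : ZMod 2) = 0 := by decide
        rw [h3, mul_zero]
      · rw [hF]; simp
      · rw [hF]; simp
    rw [← h1, ← add_sum_erase F _ (show v ∈ F by rw [hF]; simp)]
    rw [sum_eq_zero, add_zero]
    intro z hz
    rw [mem_erase, hF, mem_insert, mem_union, mem_image, mem_image] at hz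
    obtain ⟨hz1, hz2⟩ := hz
    apply h.2 z _ i
    refine ⟨?_, hz1⟩
    rcases hz2 with h2 | ⟨e, _, rfl⟩ | ⟨e, _, rfl⟩
    · exact absurd h2 hz1
    · exact (hU e).1
    · exact (hU e).2
  · exact h.2 v ⟨hv, hvw⟩ i

end Pool.Agent.T2h40.CW6
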