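import Pool.Agent.T2h40.CW6.E462

set_option autoImplicit false
set_option maxRecDepth 100000

namespace Pool.Agent.T2h40.CW6

theorem cX462 : S462.cX T0 = true := by decide +kernel

theorem cA462 : S462.cA T0 = true := by decide +kernel

theorem cS462 : S462.cS T0 = true := by decide +kernel

theorem ct462_0 : ∀ u < 60, 0 ≤ u → S462.cT Y0 TL0 jt0 NP0 u = true := by decide +kernel

theorem ct462_60 : ∀ u < 120, 60 ≤ u → S462.cT Y0 TL0 jt0 NP0 u = true := by decide +kernel

theorem ct462_120 : ∀ u < 180, 120 ≤ u → S462.cT Y0 TL0 jt0 NP0 u = true := by decide +kernel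

theorem ct462_180 : ∀ u < 240, 180 ≤ u → S462.cT Y0 TL0 jt0 NP0 u = true := by decide +kernel

theorem ct462_240 : ∀ u < 300, 240 ≤ u → S462.cT Y0 TL0 jt0 NP0 u = true := by decide +kernel

theorem ct462_300 : ∀ u < 360, 300 ≤ u → S462.cT Y0 TL0 jt0 NP0 u = true := by decide +kernel

theorem ct462_360 : ∀ u < 420, 360 ≤ u → S462.cT Y0 TL0 jt0 NP0 u = true := by decide +kernel

theorem ct462_420 : ∀ u < 480, 420 ≤ u → S462.cT Y0 TL0 jt0 NP0 u = true := by decide +kernel

theorem ct462_480 : ∀ u < 540, 480 ≤ u → S462.cT Y0 TL0 jt0 NP0 u = true := by decide +kernel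

theorem ct462_540 : ∀ u < 600, 540 ≤ u → S462.cT Y0 TL0 jt0 NP0 u = true := by decide +kernel

theorem ct462_600 : ∀ u < 660, 600 ≤ u → S462.cT Y0 TL0 jt0 NP0 u = true := by decide +kernel

theorem ct462_660 : ∀ u < 667, 660 ≤ u → S462.cT Y0 TL0 jt0 NP0 u = true := by decide +kernel

end Pool.Agent.T2h40.CW6
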