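import Pool.Agent.T2h40.CW6.E563

set_option autoImplicit false
set_option maxRecDepth 100000

namespace Pool.Agent.T2h40.CW6

theorem cX563 : S563.cX T0 = true := by decide +kernel

theorem cA563 : S563.cA T0 = true := by decide +kernel

theorem cS563 : S563.cS T0 = true := by decide +kernel

theorem ct563_0 : ∀ u < 60, 0 ≤ u → S563.cT Y0 TL0 jt0 NP0 u = true := by decide +kernel

end Pool.Agent.T2h40.CW6
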