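import Pool.Agent.T2h40.CW6.E664

set_option autoImplicit false
set_option maxRecDepth 100000

namespace Pool.Agent.T2h40.CW6

theorem cX664 : S664.cX T0 = true := by decide +kernel

theorem cA664 : S664.cA T0 = true := by decide +kernel

theorem cS664 : S664.cS T0 = true := by decide +kernel

theorem ct664_0 : ∀ u < 6, 0 ≤ u → S664.cT Y0 TL0 jt0 NP0 u = true := by decide +kernel

end Pool.Agent.T2h40.CW6
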