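import Pool.Agent.T2h40.CW6.Comp

/-!
# Families of states: tables, words, statements of the parts
-/

set_option autoImplicit false

open Finset

namespace Pool.Agent.T2h40.CW6

open Pool.Agent.W420.BF (cut bd Tr Ord)

/-- tables: the states `st n j` (`j < NO n`) of pieces with `n` ends, and the action `ac n a` of the
transposition of the ends `a` and `a + 1` on them -/
structure Tab where
  NO : ℕ → ℕ
  st : ℕ → ℕ → ℕ
  ac : ℕ → ℕ → ℕ → ℕ

/-- the table `ac` is right -/
def Tab.OK (T : Tab) : Prop := ∀ n ≤ 6, ∀ a, a + 1 < n → ∀ j < T.NO n, T.ac n a j < T.NO n ∧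
  kq (swq a (T.st n j)) = kq (T.st n (T.ac n a j))

/-- the permutation given by a word -/
def pw (w : List ℕ) (p : ℕ) : ℕ := w.foldr sw p

/-- the action of a word on the states -/
def Tab.jw (T : Tab) (n : ℕ) (w : List ℕ) (j : ℕ) : ℕ := w.foldr (T.ac n) j

/-- the letters of the word are below `n - 1` -/
def WV (n : ℕ) (w : List ℕ) : Prop := ∀ a ∈ w, a + 1 < n

/-- The piece `X` has all states in the family `M` (bit `j` of `M` tells whether state `j` is in
the family). -/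
def Has {V E : Type} [Fintype E] (T : Tab) (s t : E → V) (X : Set V) (n : ℕ) (o : ℕ → E) (M : ℕ) :
    Prop :=
  ∀ j < T.NO n, M.testBit j = true → RQ s t X n o (T.st n j)

/-- The types: `NT n` families `tm n i`. -/
structure Ty where
  NT : ℕ → ℕ
  tm : ℕ → ℕ → ℕ

/-- For some order of the ends the piece has all states of one of the types. -/
def HasC {V E : Type} [Fintype E] (T : Tab) (Y : Ty) (s t : E → V) (X : Set V) (n : ℕ) : Prop :=
  ∃ o, Ord s t X n o ∧ ∃ i < Y.NT n, Has T s t X n o (Y.tm n i)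

/-- **WORD** -/
def S_WORD : Prop := ∀ T : Tab, T.OK → ∀ (V E : Type) [Fintype E] (s t : E → V) (X : Set V) (n : ℕ)
  (o : ℕ → E) (w : List ℕ), n ≤ 6 → WV n w →
  (Ord s t X n o → Ord s t X n (o ∘ pw w)) ∧ ∀ j < T.NO n, T.jw n w j < T.NO n ∧
    (RQ s t X n o (T.st n (T.jw n w j)) → RQ s t X n (o ∘ pw w) (T.st n j))

/-- For each type and each set of `r` ends there is a word that moves these ends to the beginning
and such that the rearranged type contains one of the relations `rm q`. -/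
def ArrOK (T : Tab) (Y : Ty) (n r NR : ℕ) (rm : ℕ → ℕ) : Prop :=
  ∀ i < Y.NT n, ∀ S < 2 ^ n, ((range n).filter fun p => S.testBit p = true).card = r →
    ∃ (w : List ℕ) (q : ℕ), WV n w ∧ q < NR ∧ (∀ p < n, S.testBit (pw w p) = decide (p < r)) ∧
      ∀ j < T.NO n, (rm q).testBit j = true → (Y.tm n i).testBit (T.jw n w j) = true

/-- The piece `X` has the states of one of the relations for some order of the ends such that the
first `r` ends are not ends of `Z` and the others are. -/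
def HasR {V E : Type} [Fintype E] (T : Tab) (s t : E → V) (X Z : Set V) (n r NR : ℕ) (rm : ℕ → ℕ) :
    Prop :=
  ∃ o, Ord s t X n o ∧ (∀ p < r, o p ∉ cut s t Z) ∧ (∀ p, r ≤ p → p < n → o p ∈ cut s t Z) ∧
    ∃ q < NR, Has T s t X n o (rm q)

/-- **ARR** -/
def S_ARR : Prop := ∀ (T : Tab) (Y : Ty) (n r k NR : ℕ) (rm : ℕ → ℕ), T.OK → n ≤ 6 → n = r + k →
  ArrOK T Y n r NR rm →
  ∀ (V E : Type) [Fintype E] (s t : E → V) (X Z : Set V), Disjoint X Z → HasC T Y s t X n →
    (jn s t X Z).card = k → HasR T s t X Z n r NR rm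

/-- The words `iw σ` give all permutations of the last `k` of `r + k` ends. -/
def InnerOK (r k NS : ℕ) (iw : ℕ → List ℕ) : Prop :=
  (∀ σ < NS, ∀ a ∈ iw σ, r ≤ a ∧ a + 1 < r + k) ∧
  ∀ f : ℕ → ℕ, (∀ p < k, f p < k) → (∀ p < k, ∀ p' < k, f p = f p' → p = p') →
    ∃ σ < NS, ∀ p < k, pw (iw σ) (r + p) = r + f p

/-- The relations can be glued: for all relations `q` of the first piece, `q'` of the second one and
each way `σ` of identifying the inner ends, the union has a type.  This is stated in terms of the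
representatives of the states: `T.st nc j` is obtained from a state of the first piece and a state
of the second one with the same inner part `m`. -/
def GlueOK (T : Tab) (Y : Ty) (r r' k NA : ℕ) (ra : ℕ → ℕ) (NB : ℕ) (rb : ℕ → ℕ) (NS : ℕ)
    (iw : ℕ → List ℕ) : Prop :=
  ∀ q < NA, ∀ σ < NS, ∀ q' < NB, ∃ i < Y.NT (r + r'), ∃ w, WV (r + r') w ∧
    ∀ j < T.NO (r + r'), (Y.tm (r + r') i).testBit j = true → ∃ qa qb ja jb : ℕ,
      ja < T.NO (r + k) ∧ kq qa = kq (T.st (r + k) ja) ∧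
        (ra q).testBit (T.jw (r + k) (iw σ) ja) = true ∧
      jb < T.NO (r' + k) ∧ kq qb = kq (T.st (r' + k) jb) ∧ (rb q').testBit jb = true ∧
      (∀ i < 6, ∀ p < r, (col qa i).testBit p =
        (col (T.st (r + r') (T.jw (r + r') w j)) i).testBit p) ∧
      (∀ i < 6, ∀ p < r', (col qb i).testBit p =
        (col (T.st (r + r') (T.jw (r + r') w j)) i).testBit (r + p)) ∧
      (∀ i < 6, ∀ p < k, (col qa i).testBit (r + p) = (col qb i).testBit (r' + p))

/-- **GLUE** -/
def S_GLUE : Prop := S_WORD → ∀ (T : Tab) (Y : Ty) (r r' k NA : ℕ) (ra : ℕ → ℕ) (NB : ℕ)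
    (rb : ℕ → ℕ) (NS : ℕ) (iw : ℕ → List ℕ), T.OK → r + k ≤ 6 → r' + k ≤ 6 → r + r' ≤ 6 →
  InnerOK r k NS iw → GlueOK T Y r r' k NA ra NB rb NS iw →
  ∀ (V E : Type) [Fintype E] (s t : E → V) (X Z : Set V), Disjoint X Z →
    HasR T s t X Z (r + k) r NA ra → HasR T s t Z X (r' + k) r' NB rb →
    HasC T Y s t (X ∪ Z) (r + r')

/-- All states are colourings with the parity condition. -/
def StOK (T : Tab) (n : ℕ) : Prop := ∀ j < T.NO n,
  (∀ p < n, (univ.filter fun i : Fin 6 => (col (T.st n j) i).testBit p = true).card = 4) ∧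
  ∀ i < 6, Even ((range n).filter fun p => (col (T.st n j) i).testBit p = true).card

/-- **LEAF** -/
def S_LEAF : Prop := ∀ (T : Tab) (n : ℕ), StOK T n →
  ∀ (V E : Type) [Fintype E] (s t : E → V) (v : V) (o : ℕ → E) (M : ℕ),
    Ord s t {v} n o → Has T s t {v} n o M

/-- gluing for one triple of numbers `a`, `b`, `k` -/
def JN (T : Tab) (Y : Ty) (a b k : ℕ) : Prop :=
  ∀ (V E : Type) [Fintype E] (s t : E → V) (X Z : Set V), Disjoint X Z →
    HasC T Y s t X a → HasC T Y s t Z b → (jn s t X Z).card = k → HasC T Y s t (X ∪ Z) (a + b - 2 * k)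

/-- all gluings -/
structure AllJ (T : Tab) (Y : Ty) : Prop where
  ok : T.OK
  stok : ∀ n, 3 ≤ n → n ≤ 6 → StOK T n
  nt : ∀ n, 3 ≤ n → n ≤ 6 → 0 < Y.NT n
  ne : ∀ n, 3 ≤ n → n ≤ 6 → ∀ i < Y.NT n, ∃ j < T.NO n, (Y.tm n i).testBit j = true
  j331 : JN T Y 3 3 1
  j341 : JN T Y 3 4 1
  j351 : JN T Y 3 5 1
  j352 : JN T Y 3 5 2
  j362 : JN T Y 3 6 2
  j441 : JN T Y 4 4 1
  j442 : JN T Y 4 4 2
  j452 : JN T Y 4 5 2
  j462 : JN T Y 4 6 2
  j463 : JN T Y 4 6 3
  j552 : JN T Y 5 5 2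
  j553 : JN T Y 5 5 3
  j563 : JN T Y 5 6 3
  j663 : JN T Y 6 6 3
  j664 : JN T Y 6 6 4
  j342 : JN T Y 3 4 2
  j453 : JN T Y 4 5 3
  j564 : JN T Y 5 6 4

/-- **MAIN** -/
def S_MAIN : Prop := ∀ (T : Tab) (Y : Ty), AllJ T Y → S_THREE

end Pool.Agent.T2h40.CW6
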