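import Pool.Agent.T2h40.CW6.E664

set_option autoImplicit false
set_option maxRecDepth 100000

namespace Pool.Agent.T2h40.CW6

theorem cE664_0_0 : S664.cE 0 0 45 = true := by decide +kernel

theorem cE664_0_45 : S664.cE 0 45 45 = true := by decide +kernel

end Pool.Agent.T2h40.CW6
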