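import Pool.Agent.T2h40.CW6.E663

set_option autoImplicit false
set_option maxRecDepth 100000

namespace Pool.Agent.T2h40.CW6

theorem cQ663_241 : S663.cQ 1 241 4 = true := by decide +kernel

theorem cQ663_245 : S663.cQ 1 245 4 = true := by decide +kernel

theorem cQ663_249 : S663.cQ 1 249 4 = true := by decide +kernel

theorem cQ663_253 : S663.cQ 1 253 4 = true := by decide +kernel

theorem cQ663_257 : S663.cQ 1 257 3 = true := by decide +kernel

end Pool.Agent.T2h40.CW6
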