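import Pool.Agent.T2h40.CW6.E664

set_option autoImplicit false
set_option maxRecDepth 100000

namespace Pool.Agent.T2h40.CW6

theorem cQ664_0 : S664.cQ 1 0 2 = true := by decide +kernel

theorem cQ664_2 : S664.cQ 1 2 2 = true := by decide +kernel

theorem cQ664_4 : S664.cQ 1 4 2 = true := by decide +kernel

theorem cQ664_6 : S664.cQ 1 6 2 = true := by decide +kernel

theorem cQ664_8 : S664.cQ 1 8 2 = true := by decide +kernel

theorem cQ664_10 : S664.cQ 1 10 2 = true := by decide +kernel

theorem cQ664_12 : S664.cQ 1 12 2 = true := by decide +kernel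

theorem cQ664_14 : S664.cQ 1 14 2 = true := by decide +kernel

theorem cQ664_16 : S664.cQ 1 16 2 = true := by decide +kernel

theorem cQ664_18 : S664.cQ 1 18 2 = true := by decide +kernel

theorem cQ664_20 : S664.cQ 1 20 2 = true := by decide +kernel

theorem cQ664_22 : S664.cQ 1 22 2 = true := by decide +kernel

end Pool.Agent.T2h40.CW6
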