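import Pool.Agent.T2h40.CW6.E664

set_option autoImplicit false
set_option maxRecDepth 100000

namespace Pool.Agent.T2h40.CW6

theorem cQ664_24 : S664.cQ 1 24 2 = true := by decide +kernel

theorem cQ664_26 : S664.cQ 1 26 2 = true := by decide +kernel

theorem cQ664_28 : S664.cQ 1 28 2 = true := by decide +kernel

theorem cQ664_30 : S664.cQ 1 30 2 = true := by decide +kernel

theorem cQ664_32 : S664.cQ 1 32 2 = true := by decide +kernel

theorem cQ664_34 : S664.cQ 1 34 2 = true := by decide +kernel

theorem cQ664_36 : S664.cQ 1 36 2 = true := by decide +kernel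

theorem cQ664_38 : S664.cQ 1 38 2 = true := by decide +kernel

theorem cQ664_40 : S664.cQ 1 40 2 = true := by decide +kernel

theorem cQ664_42 : S664.cQ 1 42 2 = true := by decide +kernel

theorem cQ664_44 : S664.cQ 1 44 3 = true := by decide +kernel

theorem cQ664_47 : S664.cQ 1 47 3 = true := by decide +kernel

end Pool.Agent.T2h40.CW6
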