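import Pool.Agent.T2h40.CW6.E664

set_option autoImplicit false
set_option maxRecDepth 100000

namespace Pool.Agent.T2h40.CW6

theorem cQ664_50 : S664.cQ 1 50 3 = true := by decide +kernel

theorem cQ664_53 : S664.cQ 1 53 3 = true := by decide +kernel

theorem cQ664_56 : S664.cQ 1 56 3 = true := by decide +kernel

theorem cQ664_59 : S664.cQ 1 59 4 = true := by decide +kernel

theorem cQ664_63 : S664.cQ 1 63 4 = true := by decide +kernel

theorem cQ664_67 : S664.cQ 1 67 5 = true := by decide +kernel

theorem cQ664_72 : S664.cQ 1 72 5 = true := by decide +kernel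

theorem cQ664_77 : S664.cQ 1 77 5 = true := by decide +kernel

theorem cQ664_82 : S664.cQ 1 82 5 = true := by decide +kernel

theorem cQ664_87 : S664.cQ 1 87 3 = true := by decide +kernel

end Pool.Agent.T2h40.CW6
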