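import Pool.Agent.T2h40.CW6.F664_0
import Pool.Agent.T2h40.CW6.B664_0
import Pool.Agent.T2h40.CW6.G664_0
import Pool.Agent.T2h40.CW6.I664_0
import Pool.Agent.T2h40.CW6.I664_1
import Pool.Agent.T2h40.CW6.I664_2
import Pool.Agent.T2h40.CW6.Jn
import Pool.Agent.T2h40.CW6.Arr62

set_option autoImplicit false
set_option maxRecDepth 100000

namespace Pool.Agent.T2h40.CW6

theorem f664 : S664.Facts T0 Y0 TL0 pp0 jt0 NP0 where
  hna := rfl
  hnb := rfl
  hnc := rfl
  hNa := by decide +kernel
  hNb := by decide +kernel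
  hW := by decide +kernel
  h6 := by decide +kernel
  h6' := by decide +kernel
  h6'' := by decide +kernel
  hT := T0_ok
  hP := perm0 4 (by omega) (by omega)
  hY := cML0 4 (by omega)
  hLA := by
    intro q hq
    have h := cL62 q hq
    have e : S664.Na = T0.NO 6 := by decide +kernel
    rw [e]; exact h
  hLB := by
    intro q hq
    have h := cL62 q hq
    have e : S664.Nb = T0.NO 6 := by decide +kernel
    rw [e]; exact h
  cX := cX664
  cA := cA664
  cS := cS664
  hG := by decide +kernel
  cB := by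
    intro i hi
    have hi : i < 701 := hi
    by_cases h0 : i < 240
    · exact Sh.cB_spec cB664_0 i (by omega) (by omega)
    by_cases h240 : i < 480
    · exact Sh.cB_spec cB664_240 i (by omega) (by omega)
    exact Sh.cB_spec cB664_480 i (by omega) (by omega)
  cE := by
    intro i hi g hg
    have hi : i < 90 := hi
    have hg : g < 1 := hg
    interval_cases g
    · by_cases h0 : i < 45
      · exact Sh.cE_spec cE664_0_0 i (by omega) (by omega)
      exact Sh.cE_spec cE664_0_45 i (by omega) (by omega)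
  cT := by
    intro i hi
    have hi : i < 6 := hi
    exact ct664_0 i hi (by omega)
  inn := inner_ok (by decide +kernel) (by decide +kernel)
  arrA := arr62
  arrB := arr62

theorem q664 : ∀ q < S664.NA, ∀ q' < S664.NB, q ≤ q' → ∀ σ < S664.NS, S664.cI q σ q' = true := by
  intro q hq q' hq' hqq σ hσ
  have hq : q < 90 := hq
  by_cases h0 : q < 2
  · exact Sh.cQ_spec cQ664_0 q (by omega) (by omega) q' hq' (by omega) σ hσ
  by_cases h2 : q < 4
  · exact Sh.cQ_spec cQ664_2 q (by omega) (by omega) q' hq' (by omega) σ hσ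
  by_cases h4 : q < 6
  · exact Sh.cQ_spec cQ664_4 q (by omega) (by omega) q' hq' (by omega) σ hσ
  by_cases h6 : q < 8
  · exact Sh.cQ_spec cQ664_6 q (by omega) (by omega) q' hq' (by omega) σ hσ
  by_cases h8 : q < 10
  · exact Sh.cQ_spec cQ664_8 q (by omega) (by omega) q' hq' (by omega) σ hσ
  by_cases h10 : q < 12
  · exact Sh.cQ_spec cQ664_10 q (by omega) (by omega) q' hq' (by omega) σ hσ
  by_cases h12 : q < 14
  · exact Sh.cQ_spec cQ664_12 q (by omega) (by omega) q' hq' (by omega) σ hσ
  by_cases h14 : q < 16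
  · exact Sh.cQ_spec cQ664_14 q (by omega) (by omega) q' hq' (by omega) σ hσ
  by_cases h16 : q < 18
  · exact Sh.cQ_spec cQ664_16 q (by omega) (by omega) q' hq' (by omega) σ hσ
  by_cases h18 : q < 20
  · exact Sh.cQ_spec cQ664_18 q (by omega) (by omega) q' hq' (by omega) σ hσ
  by_cases h20 : q < 22
  · exact Sh.cQ_spec cQ664_20 q (by omega) (by omega) q' hq' (by omega) σ hσ
  by_cases h22 : q < 24
  · exact Sh.cQ_spec cQ664_22 q (by omega) (by omega) q' hq' (by omega) σ hσ
  by_cases h24 : q < 26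
  · exact Sh.cQ_spec cQ664_24 q (by omega) (by omega) q' hq' (by omega) σ hσ
  by_cases h26 : q < 28
  · exact Sh.cQ_spec cQ664_26 q (by omega) (by omega) q' hq' (by omega) σ hσ
  by_cases h28 : q < 30
  · exact Sh.cQ_spec cQ664_28 q (by omega) (by omega) q' hq' (by omega) σ hσ
  by_cases h30 : q < 32
  · exact Sh.cQ_spec cQ664_30 q (by omega) (by omega) q' hq' (by omega) σ hσ
  by_cases h32 : q < 34
  · exact Sh.cQ_spec cQ664_32 q (by omega) (by omega) q' hq' (by omega) σ hσ
  by_cases h34 : q < 36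
  · exact Sh.cQ_spec cQ664_34 q (by omega) (by omega) q' hq' (by omega) σ hσ
  by_cases h36 : q < 38
  · exact Sh.cQ_spec cQ664_36 q (by omega) (by omega) q' hq' (by omega) σ hσ
  by_cases h38 : q < 40
  · exact Sh.cQ_spec cQ664_38 q (by omega) (by omega) q' hq' (by omega) σ hσ
  by_cases h40 : q < 42
  · exact Sh.cQ_spec cQ664_40 q (by omega) (by omega) q' hq' (by omega) σ hσ
  by_cases h42 : q < 44
  · exact Sh.cQ_spec cQ664_42 q (by omega) (by omega) q' hq' (by omega) σ hσ
  by_cases h44 : q < 47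
  · exact Sh.cQ_spec cQ664_44 q (by omega) (by omega) q' hq' (by omega) σ hσ
  by_cases h47 : q < 50
  · exact Sh.cQ_spec cQ664_47 q (by omega) (by omega) q' hq' (by omega) σ hσ
  by_cases h50 : q < 53
  · exact Sh.cQ_spec cQ664_50 q (by omega) (by omega) q' hq' (by omega) σ hσ
  by_cases h53 : q < 56
  · exact Sh.cQ_spec cQ664_53 q (by omega) (by omega) q' hq' (by omega) σ hσ
  by_cases h56 : q < 59
  · exact Sh.cQ_spec cQ664_56 q (by omega) (by omega) q' hq' (by omega) σ hσ
  by_cases h59 : q < 63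
  · exact Sh.cQ_spec cQ664_59 q (by omega) (by omega) q' hq' (by omega) σ hσ
  by_cases h63 : q < 67
  · exact Sh.cQ_spec cQ664_63 q (by omega) (by omega) q' hq' (by omega) σ hσ
  by_cases h67 : q < 72
  · exact Sh.cQ_spec cQ664_67 q (by omega) (by omega) q' hq' (by omega) σ hσ
  by_cases h72 : q < 77
  · exact Sh.cQ_spec cQ664_72 q (by omega) (by omega) q' hq' (by omega) σ hσ
  by_cases h77 : q < 82
  · exact Sh.cQ_spec cQ664_77 q (by omega) (by omega) q' hq' (by omega) σ hσ
  by_cases h82 : q < 87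
  · exact Sh.cQ_spec cQ664_82 q (by omega) (by omega) q' hq' (by omega) σ hσ
  exact Sh.cQ_spec cQ664_87 q (by omega) (by omega) q' hq' (by omega) σ hσ

theorem j664 : JN T0 Y0 6 6 4 := f664.Jsym rfl rfl rfl (fun _ => rfl) q664

end Pool.Agent.T2h40.CW6
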