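import Pool.Agent.T2h40.CW6.Pm

set_option autoImplicit false
set_option maxRecDepth 100000

namespace Pool.Agent.T2h40.CW6

theorem cPerm6_0 : cPerm T0 6 bPG6.get bPA6.get (pp0 6) (jt0 6) 0 24 = true := by decide +kernel

theorem cPerm6_1 : cPerm T0 6 bPG6.get bPA6.get (pp0 6) (jt0 6) 24 24 = true := by decide +kernel

theorem cPerm6_2 : cPerm T0 6 bPG6.get bPA6.get (pp0 6) (jt0 6) 48 24 = true := by decide +kernel

theorem cPerm6_3 : cPerm T0 6 bPG6.get bPA6.get (pp0 6) (jt0 6) 72 24 = true := by decide +kernel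

theorem cPerm6_4 : cPerm T0 6 bPG6.get bPA6.get (pp0 6) (jt0 6) 96 24 = true := by decide +kernel

theorem cPerm6_5 : cPerm T0 6 bPG6.get bPA6.get (pp0 6) (jt0 6) 120 24 = true := by decide +kernel

theorem cPerm6_6 : cPerm T0 6 bPG6.get bPA6.get (pp0 6) (jt0 6) 144 24 = true := by decide +kernel

theorem cPerm6_7 : cPerm T0 6 bPG6.get bPA6.get (pp0 6) (jt0 6) 168 24 = true := by decide +kernel

end Pool.Agent.T2h40.CW6
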