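import Pool.Agent.T2h40.CW6.Dat

set_option autoImplicit false
set_option maxRecDepth 100000

namespace Pool.Agent.T2h40.CW6

/-! Relations with 3 ends, 1 outer ones. -/

noncomputable def bR31 : BT := (.lf (nat_lit 1))

noncomputable def bL31 : BT := (.lf (nat_lit 1))

/-- the relations -/
noncomputable def rm31 (q : ℕ) : ℕ := bR31.get q

/-- the relations as lists -/
noncomputable def rl31 (q : ℕ) : ℕ := bL31.get q

theorem cL31 : ∀ q < 1, cML (T0.NO 3) (rm31 q) (rl31 q) = true := by decide +kernel

end Pool.Agent.T2h40.CW6
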