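import Pool.Agent.T2h40.CW6.Dat

set_option autoImplicit false
set_option maxRecDepth 100000

namespace Pool.Agent.T2h40.CW6

/-! Relations with 4 ends, 1 outer ones. -/

noncomputable def bR41 : BT := (.nd (.lf (nat_lit 0x244))
(.lf (nat_lit 0x167)))

noncomputable def bL41 : BT := (.nd (.lf (nat_lit 0xa0000700003))
(.lf (nat_lit 0x90000700006000030000200001)))

/-- the relations -/
noncomputable def rm41 (q : ℕ) : ℕ := bR41.get q

/-- the relations as lists -/
noncomputable def rl41 (q : ℕ) : ℕ := bL41.get q

theorem cL41 : ∀ q < 2, cML (T0.NO 4) (rm41 q) (rl41 q) = true := by decide +kernel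

end Pool.Agent.T2h40.CW6
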