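import Pool.Agent.T2h40.CW6.Dat

set_option autoImplicit false
set_option maxRecDepth 100000

namespace Pool.Agent.T2h40.CW6

/-! Relations with 4 ends, 2 outer ones. -/

noncomputable def bR42 : BT := (.nd (.nd (.lf (nat_lit 0x244))
(.lf (nat_lit 0x371)))
(.nd (.lf (nat_lit 0x167))
(.lf (nat_lit 0x380))))

noncomputable def bL42 : BT := (.nd (.nd (.lf (nat_lit 0xa0000700003))
(.lf (nat_lit 0xa0000900007000060000500001)))
(.nd (.lf (nat_lit 0x90000700006000030000200001))
(.lf (nat_lit 0xa0000900008))))

/-- the relations -/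
noncomputable def rm42 (q : ℕ) : ℕ := bR42.get q

/-- the relations as lists -/
noncomputable def rl42 (q : ℕ) : ℕ := bL42.get q

theorem cL42 : ∀ q < 4, cML (T0.NO 4) (rm42 q) (rl42 q) = true := by decide +kernel

end Pool.Agent.T2h40.CW6
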