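import Pool.Agent.T2h40.CW6.Dat

set_option autoImplicit false
set_option maxRecDepth 100000

namespace Pool.Agent.T2h40.CW6

/-! Relations with 5 ends, 1 outer ones. -/

noncomputable def bR51 : BT := (.nd (.nd (.nd (.lf (nat_lit 0xfd74db20000000))
(.lf (nat_lit 0x43e46404c8408)))
(.nd (.lf (nat_lit 0xfffe1108113b01))
(.lf (nat_lit 0x14114a1144e90a))))
(.nd (.nd (.lf (nat_lit 0x2d28c440000000))
(.lf (nat_lit 0x96396f7959c008)))
(.nd (.lf (nat_lit 0xe07803fc301))
(.lf (nat_lit 0x7003c038)))))

noncomputable def bL51 : BT := (.nd (.nd (.nd (.lf (nat_lit 0x380003700036000350003400033000310002f0002e0002d0002b0002800027000250002400022000210001e))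
(.lf (nat_lit 0x330002e0002d0002c0002b0002a0002700023000220001f000170001400013000100000b00004)))
(.nd (.lf (nat_lit 0x3800037000360003500034000330003200031000300002f0002e0002d0002c0002b0002a00025000210001c00015000110000e0000d0000c0000a0000900001))
(.lf (nat_lit 0x35000330002d000290002700024000220001d000190001700013000100000f0000e0000c000090000400002))))
(.nd (.nd (.lf (nat_lit 0x360003400033000310002e0002c0002800027000230001f))
(.lf (nat_lit 0x380003500033000320002e0002d0002c000290002700026000240002300022000210001f0001e0001d0001c0001900017000150001400011000100000f00004)))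
(.nd (.lf (nat_lit 0x2c0002b0002a00023000220002100020000160001500014000130001200011000100000f0000a0000900001))
(.lf (nat_lit 0x1f0001e0001d0001200011000100000f000060000500004)))))

/-- the relations -/
noncomputable def rm51 (q : ℕ) : ℕ := bR51.get q

/-- the relations as lists -/
noncomputable def rl51 (q : ℕ) : ℕ := bL51.get q

theorem cL51 : ∀ q < 8, cML (T0.NO 5) (rm51 q) (rl51 q) = true := by decide +kernel

end Pool.Agent.T2h40.CW6
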