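import Pool.Agent.T2h40.CW6.Dat

set_option autoImplicit false
set_option maxRecDepth 100000

namespace Pool.Agent.T2h40.CW6

/-! Relations with 5 ends, 2 outer ones. -/

noncomputable def bR52 : BT := (.nd (.nd (.nd (.nd (.lf (nat_lit 0xfd74db20000000))
(.lf (nat_lit 0x2108000088120b)))
(.nd (.lf (nat_lit 0x9093629104a902))
(.lf (nat_lit 0xfc20110fc9383f))))
(.nd (.nd (.lf (nat_lit 0xfffe1108113b01))
(.lf (nat_lit 0x2d28191fe97838)))
(.lf (nat_lit 0x43e46404c8408))))
(.nd (.nd (.nd (.lf (nat_lit 0x2d28c440000000))
(.lf (nat_lit 0x96280001482e0b)))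
(.nd (.lf (nat_lit 0x94920001440008))
(.lf (nat_lit 0x7803fc03f))))
(.nd (.nd (.lf (nat_lit 0xe07803fc301))
(.lf (nat_lit 0x2c72d346df8038)))
(.lf (nat_lit 0x14114a1144e90a)))))

noncomputable def bL52 : BT := (.nd (.nd (.nd (.nd (.lf (nat_lit 0x380003700036000350003400033000310002f0002e0002d0002b0002800027000250002400022000210001e))
(.lf (nat_lit 0x36000310002c00018000140000d0000a000040000200001)))
(.nd (.lf (nat_lit 0x3800035000300002d0002a00029000270002600022000200001d0001900013000100000e0000c0000900002))
(.lf (nat_lit 0x3800037000360003500034000330002e00025000210001c0001b0001a00019000180001700014000110000e0000d0000c000060000500004000030000200001))))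
(.nd (.nd (.lf (nat_lit 0x3800037000360003500034000330003200031000300002f0002e0002d0002c0002b0002a00025000210001c00015000110000e0000d0000c0000a0000900001))
(.lf (nat_lit 0x360003400033000310002e0002c0002500024000210001d0001c0001b0001a0001900018000170001600014000110000f0000e0000d0000c000060000500004)))
(.lf (nat_lit 0x330002e0002d0002c0002b0002a0002700023000220001f000170001400013000100000b00004))))
(.nd (.nd (.nd (.lf (nat_lit 0x360003400033000310002e0002c0002800027000230001f))
(.lf (nat_lit 0x380003500033000320002e0002c0001900017000140000e0000c0000b0000a000040000200001)))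
(.nd (.lf (nat_lit 0x380003500033000300002d0002a00019000170001300004))
(.lf (nat_lit 0x23000220002100020000160001500014000130001200011000100000f000060000500004000030000200001))))
(.nd (.nd (.lf (nat_lit 0x2c0002b0002a00023000220002100020000160001500014000130001200011000100000f0000a0000900001))
(.lf (nat_lit 0x3600034000330002f0002e0002d0002a00028000270002500022000210001f0001b0001a0001800017000150001400013000120001100010000060000500004)))
(.lf (nat_lit 0x35000330002d000290002700024000220001d000190001700013000100000f0000e0000c000090000400002)))))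

/-- the relations -/
noncomputable def rm52 (q : ℕ) : ℕ := bR52.get q

/-- the relations as lists -/
noncomputable def rl52 (q : ℕ) : ℕ := bL52.get q

theorem cL52 : ∀ q < 14, cML (T0.NO 5) (rm52 q) (rl52 q) = true := by decide +kernel

end Pool.Agent.T2h40.CW6
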