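import Pool.Agent.T2h40.CW6.Dat

set_option autoImplicit false
set_option maxRecDepth 100000

namespace Pool.Agent.T2h40.CW6

/-! Relations with 5 ends, 3 outer ones. -/

noncomputable def bR53 : BT := (.nd (.nd (.nd (.nd (.lf (nat_lit 0xfd74db20000000))
(.lf (nat_lit 0x43e46404c8408)))
(.nd (.lf (nat_lit 0xfffe1108113b01))
(.lf (nat_lit 0x430e1101087343))))
(.nd (.nd (.lf (nat_lit 0x837ddf60000000))
(.lf (nat_lit 0x2108000088120b)))
(.lf (nat_lit 0x9093629104a902))))
(.nd (.nd (.nd (.lf (nat_lit 0x2d28c440000000))
(.lf (nat_lit 0xe3ff86418cb808)))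
(.nd (.lf (nat_lit 0xe07803fc301))
(.lf (nat_lit 0x43e09995d6b4b))))
(.nd (.nd (.lf (nat_lit 0xe07f0000000))
(.lf (nat_lit 0x96280001482e0b)))
(.lf (nat_lit 0xe3cf97499d8008)))))

noncomputable def bL53 : BT := (.nd (.nd (.nd (.nd (.lf (nat_lit 0x380003700036000350003400033000310002f0002e0002d0002b0002800027000250002400022000210001e))
(.lf (nat_lit 0x330002e0002d0002c0002b0002a0002700023000220001f000170001400013000100000b00004)))
(.nd (.lf (nat_lit 0x3800037000360003500034000330003200031000300002f0002e0002d0002c0002b0002a00025000210001c00015000110000e0000d0000c0000a0000900001))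
(.lf (nat_lit 0x3700032000310002c0002b0002a000250002100019000140000f0000e0000d0000a00009000070000200001))))
(.nd (.nd (.lf (nat_lit 0x3800032000310002f0002e0002d0002c0002b00029000280002700025000240002300022000210001f0001e))
(.lf (nat_lit 0x36000310002c00018000140000d0000a000040000200001)))
(.lf (nat_lit 0x3800035000300002d0002a00029000270002600022000200001d0001900013000100000e0000c0000900002))))
(.nd (.nd (.nd (.lf (nat_lit 0x360003400033000310002e0002c0002800027000230001f))
(.lf (nat_lit 0x3800037000360003200031000300002f0002e0002d0002c0002b0002a000290002800023000220001f00019000180001400013000100000e0000d0000c00004)))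
(.nd (.lf (nat_lit 0x2c0002b0002a00023000220002100020000160001500014000130001200011000100000f0000a0000900001))
(.lf (nat_lit 0x330002e0002d0002c0002b0002a0002400021000200001d0001c0001900017000150001400013000110000f0000e0000c0000a0000900007000040000200001))))
(.nd (.nd (.lf (nat_lit 0x2c0002b0002a000230002200021000200001f0001e0001d))
(.lf (nat_lit 0x380003500033000320002e0002c0001900017000140000e0000c0000b0000a000040000200001)))
(.lf (nat_lit 0x3800037000360003200031000300002f0002c0002b0002a0002900028000250002300022000210001f0001c0001900018000150001400013000110001000004)))))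

/-- the relations -/
noncomputable def rm53 (q : ℕ) : ℕ := bR53.get q

/-- the relations as lists -/
noncomputable def rl53 (q : ℕ) : ℕ := bL53.get q

theorem cL53 : ∀ q < 14, cML (T0.NO 5) (rm53 q) (rl53 q) = true := by decide +kernel

end Pool.Agent.T2h40.CW6
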