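import Pool.Agent.T2h40.CW6.R32
import Pool.Agent.T2h40.CW6.Pm

set_option autoImplicit false
set_option maxRecDepth 100000

namespace Pool.Agent.T2h40.CW6

/-! Gluings of pieces with 3 and 3 ends, 1 of them common: data. -/

noncomputable def bPX331 : BT := (.nd (.nd (.lf (nat_lit 7))
(.lf (nat_lit 0x380)))
(.lf (nat_lit 0x78)))

noncomputable def pGX331 : ℕ := (nat_lit 0x2221111000)

noncomputable def bXR331 : BT := (.nd (.nd (.lf (nat_lit 0xc30c3))
(.lf (nat_lit 0x820410c3)))
(.lf (nat_lit 0x20430c3)))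

noncomputable def bMM331 : BT := (.nd (.nd (.lf (nat_lit 0))
(.lf (nat_lit 0x41041000)))
(.lf (nat_lit 0)))

noncomputable def bAL331 : BT := (.lf (nat_lit 3))

noncomputable def bBL331 : BT := (.lf (nat_lit 0xa0000900008))

noncomputable def bIW331 : BT := (.lf (nat_lit 0))

noncomputable def bJI331 : BT := (.lf (nat_lit 0))

noncomputable def bTI331 : BT := (.lf (nat_lit 0x3800000000000000000))

noncomputable def bti331 : BT := (.lf (nat_lit 0))

noncomputable def btg331 : BT := (.lf (nat_lit 0))

noncomputable def bWT331 : BT := (.lf (nat_lit 0))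

/-- the data, without expansions -/
noncomputable def P331 : Sh where
  na := nat_lit 3
  nb := nat_lit 3
  nc := nat_lit 4
  r := nat_lit 2
  r' := nat_lit 2
  k := nat_lit 1
  Na := nat_lit 1
  Nb := nat_lit 1
  W := nat_lit 74
  κ := nat_lit 0
  NX := nat_lit 3
  PX x := bPX331.get x
  gx p := Nat.mod (Nat.shiftRight pGX331 (Nat.mul (nat_lit 4) p)) (nat_lit 16)
  xr x := bXR331.get x
  mm x o := Nat.mod (Nat.shiftRight (bMM331.get x) (Nat.mul (nat_lit 36) o)) (nat_lit 68719476736)
  AL i := bAL331.get i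
  NG := nat_lit 1
  κg := nat_lit 0
  BL g i := bBL331.get i
  NA := nat_lit 1
  RA q := rm32 q
  LA q := rl32 q
  NB := nat_lit 1
  RB q := rm32 q
  LB q := rl32 q
  NS := nat_lit 1
  iw σ := dw (bIW331.get σ)
  ji σ j := Nat.mod (Nat.shiftRight (bJI331.get σ) (Nat.mul (nat_lit 10) j)) (nat_lit 1024)
  NTI := nat_lit 1
  TI u := bTI331.get u
  ti u := bti331.get u
  tg u := btg331.get u
  wt q σ q' := Nat.mod (Nat.shiftRight (bWT331.get (Nat.add (Nat.mul q (nat_lit 1)) σ))
    (Nat.mul (nat_lit 12) q')) (nat_lit 4096)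
  EB _ := nat_lit 0

noncomputable def bEB331 : BT := (.lf (nat_lit 0x380000000000000ffff))

/-- the data -/
noncomputable def S331 : Sh := { P331 with EB := fun q => bEB331.get q }

theorem cX331 : S331.cX T0 = true := by decide +kernel

theorem cA331 : S331.cA T0 = true := by decide +kernel

theorem cS331 : S331.cS T0 = true := by decide +kernel

theorem ct331_0 : ∀ u < 1, 0 ≤ u → S331.cT Y0 TL0 jt0 NP0 u = true := by decide +kernel

theorem cB331_0 : S331.cB T0 0 1 = true := by decide +kernel

theorem cE331_0_0 : S331.cE 0 0 1 = true := by decide +kernel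

theorem cQ331_0 : S331.cQ 1 0 1 = true := by decide +kernel

end Pool.Agent.T2h40.CW6
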