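import Pool.Agent.T2h40.CW6.R32
import Pool.Agent.T2h40.CW6.R43
import Pool.Agent.T2h40.CW6.Pm

set_option autoImplicit false
set_option maxRecDepth 100000

namespace Pool.Agent.T2h40.CW6

/-! Gluings of pieces with 3 and 4 ends, 1 of them common: data. -/

noncomputable def bPX341 : BT := (.nd (.nd (.lf (nat_lit 0x3f))
(.lf (nat_lit 0xfffffff0000000)))
(.lf (nat_lit 0xfffffc0)))

noncomputable def pGX341 : ℕ := (nat_lit 0x22222222222222222222222222221111111111111111111111000000)

noncomputable def bXR341 : BT := (.nd (.nd (.lf (nat_lit 0xc30c3))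
(.lf (nat_lit 0x820410c3)))
(.lf (nat_lit 0x20430c3)))

noncomputable def bMM341 : BT := (.nd (.nd (.lf (nat_lit 0))
(.lf (nat_lit 0x41041000)))
(.lf (nat_lit 0)))

noncomputable def bAL341 : BT := (.lf (nat_lit 3))

noncomputable def bBL341 : BT := (.nd (.nd (.nd (.nd (.lf (nat_lit 0x38))
(.lf (nat_lit 0x310002e0002800027)))
(.lf (nat_lit 0x3700035)))
(.nd (.lf (nat_lit 0x2a000200001d))
(.lf (nat_lit 0x2f0002d0002500024))))
(.nd (.nd (.nd (.lf (nat_lit 0x3000026))
(.lf (nat_lit 0x360003400033)))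
(.lf (nat_lit 0x2b00022000210001e)))
(.nd (.lf (nat_lit 0x3200029))
(.lf (nat_lit 0x2c000230001f)))))

noncomputable def bIW341 : BT := (.lf (nat_lit 0))

noncomputable def bJI341 : BT := (.lf (nat_lit 0))

noncomputable def bTI341 : BT := (.nd (.lf (nat_lit 0x2c5218900000000000000000000000))
(.lf (nat_lit 0x81f6fbb00000000000000000000000)))

noncomputable def bti341 : BT := (.nd (.lf (nat_lit 0))
(.lf (nat_lit 2)))

noncomputable def btg341 : BT := (.nd (.lf (nat_lit 3))
(.lf (nat_lit 0x6d)))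

noncomputable def bWT341 : BT := (.lf (nat_lit 0x1000))

/-- the data, without expansions -/
noncomputable def P341 : Sh where
  na := nat_lit 3
  nb := nat_lit 4
  nc := nat_lit 5
  r := nat_lit 2
  r' := nat_lit 3
  k := nat_lit 1
  Na := nat_lit 1
  Nb := nat_lit 10
  W := nat_lit 120
  κ := nat_lit 0
  NX := nat_lit 3
  PX x := bPX341.get x
  gx p := Nat.mod (Nat.shiftRight pGX341 (Nat.mul (nat_lit 4) p)) (nat_lit 16)
  xr x := bXR341.get x
  mm x o := Nat.mod (Nat.shiftRight (bMM341.get x) (Nat.mul (nat_lit 36) o)) (nat_lit 68719476736)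
  AL i := bAL341.get i
  NG := nat_lit 1
  κg := nat_lit 0
  BL g i := bBL341.get i
  NA := nat_lit 1
  RA q := rm32 q
  LA q := rl32 q
  NB := nat_lit 2
  RB q := rm43 q
  LB q := rl43 q
  NS := nat_lit 1
  iw σ := dw (bIW341.get σ)
  ji σ j := Nat.mod (Nat.shiftRight (bJI341.get σ) (Nat.mul (nat_lit 10) j)) (nat_lit 1024)
  NTI := nat_lit 2
  TI u := bTI341.get u
  ti u := bti341.get u
  tg u := btg341.get u
  wt q σ q' := Nat.mod (Nat.shiftRight (bWT341.get (Nat.add (Nat.mul q (nat_lit 1)) σ))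
    (Nat.mul (nat_lit 12) q')) (nat_lit 4096)
  EB _ := nat_lit 0

noncomputable def bEB341 : BT := (.nd (.lf (nat_lit 0x2c521890000000000000000000ffff))
(.lf (nat_lit 0x81f6fbb0000000000000000001ffff)))

/-- the data -/
noncomputable def S341 : Sh := { P341 with EB := fun q => bEB341.get q }

theorem cX341 : S341.cX T0 = true := by decide +kernel

theorem cA341 : S341.cA T0 = true := by decide +kernel

theorem cS341 : S341.cS T0 = true := by decide +kernel

theorem ct341_0 : ∀ u < 2, 0 ≤ u → S341.cT Y0 TL0 jt0 NP0 u = true := by decide +kernel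

theorem cB341_0 : S341.cB T0 0 10 = true := by decide +kernel

theorem cE341_0_0 : S341.cE 0 0 2 = true := by decide +kernel

theorem cQ341_0 : S341.cQ 0 0 1 = true := by decide +kernel

end Pool.Agent.T2h40.CW6
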