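import Pool.Agent.T2h40.CW6.R31
import Pool.Agent.T2h40.CW6.R42
import Pool.Agent.T2h40.CW6.Pm

set_option autoImplicit false
set_option maxRecDepth 100000

namespace Pool.Agent.T2h40.CW6

/-! Gluings of pieces with 3 and 4 ends, 2 of them common: data. -/

noncomputable def bPX342 : BT := (.lf (nat_lit 1))

noncomputable def pGX342 : ℕ := (nat_lit 0)

noncomputable def bXR342 : BT := (.lf (nat_lit 0x41041))

noncomputable def bMM342 : BT := (.lf (nat_lit 0xc30410820c30420420c30420810c30810420c30810810c3082041))

noncomputable def bAL342 : BT := (.lf (nat_lit 0x60000500004000030000200001))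

noncomputable def bBL342 : BT := (.nd (.nd (.nd (.nd (.lf (nat_lit 0))
(.lf (nat_lit 0x105000c40008300042)))
(.lf (nat_lit 0)))
(.nd (.lf (nat_lit 0))
(.lf (nat_lit 0))))
(.nd (.nd (.nd (.lf (nat_lit 0))
(.lf (nat_lit 0x146)))
(.lf (nat_lit 0)))
(.nd (.lf (nat_lit 0))
(.lf (nat_lit 1)))))

noncomputable def bIW342 : BT := (.nd (.lf (nat_lit 0))
(.lf (nat_lit 2)))

noncomputable def bJI342 : BT := (.nd (.lf (nat_lit 0))
(.lf (nat_lit 0)))

noncomputable def bTI342 : BT := (.lf (nat_lit 0x10000000000000000))

noncomputable def bti342 : BT := (.lf (nat_lit 0))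

noncomputable def btg342 : BT := (.lf (nat_lit 0))

noncomputable def bWT342 : BT := (.nd (.lf (nat_lit 0))
(.lf (nat_lit 0)))

/-- the data, without expansions -/
noncomputable def P342 : Sh where
  na := nat_lit 3
  nb := nat_lit 4
  nc := nat_lit 3
  r := nat_lit 1
  r' := nat_lit 2
  k := nat_lit 2
  Na := nat_lit 1
  Nb := nat_lit 10
  W := nat_lit 65
  κ := nat_lit 3
  NX := nat_lit 1
  PX x := bPX342.get x
  gx p := Nat.mod (Nat.shiftRight pGX342 (Nat.mul (nat_lit 4) p)) (nat_lit 16)
  xr x := bXR342.get x
  mm x o := Nat.mod (Nat.shiftRight (bMM342.get x) (Nat.mul (nat_lit 36) o)) (nat_lit 68719476736)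
  AL i := bAL342.get i
  NG := nat_lit 1
  κg := nat_lit 3
  BL g i := bBL342.get i
  NA := nat_lit 1
  RA q := rm31 q
  LA q := rl31 q
  NB := nat_lit 4
  RB q := rm42 q
  LB q := rl42 q
  NS := nat_lit 2
  iw σ := dw (bIW342.get σ)
  ji σ j := Nat.mod (Nat.shiftRight (bJI342.get σ) (Nat.mul (nat_lit 10) j)) (nat_lit 1024)
  NTI := nat_lit 1
  TI u := bTI342.get u
  ti u := bti342.get u
  tg u := btg342.get u
  wt q σ q' := Nat.mod (Nat.shiftRight (bWT342.get (Nat.add (Nat.mul q (nat_lit 2)) σ))
    (Nat.mul (nat_lit 12) q')) (nat_lit 4096)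
  EB _ := nat_lit 0

noncomputable def bEB342 : BT := (.nd (.nd (.lf (nat_lit 0x2000000000000000000000000000000000000000000000000000000000000000000000000000000000000000000000ffff))
(.lf (nat_lit 0x2000000000000000100000000000000008000000000000000400000000000000020000000000000000000000000002ffff)))
(.nd (.lf (nat_lit 0x100000000000000008000000000000000400000000000000020000000000000000000000000001ffff))
(.lf (nat_lit 0x2000000000000000100000000000000008000000000000000400000000000000020000000000000001000000000003ffff))))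

/-- the data -/
noncomputable def S342 : Sh := { P342 with EB := fun q => bEB342.get q }

theorem cX342 : S342.cX T0 = true := by decide +kernel

theorem cA342 : S342.cA T0 = true := by decide +kernel

theorem cS342 : S342.cS T0 = true := by decide +kernel

theorem ct342_0 : ∀ u < 1, 0 ≤ u → S342.cT Y0 TL0 jt0 NP0 u = true := by decide +kernel

theorem cB342_0 : S342.cB T0 0 10 = true := by decide +kernel

theorem cE342_0_0 : S342.cE 0 0 4 = true := by decide +kernel

theorem cQ342_0 : S342.cQ 0 0 1 = true := by decide +kernel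

end Pool.Agent.T2h40.CW6
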