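import Pool.Agent.T2h40.CW6.R31
import Pool.Agent.T2h40.CW6.R53
import Pool.Agent.T2h40.CW6.Pm

set_option autoImplicit false
set_option maxRecDepth 100000

namespace Pool.Agent.T2h40.CW6

/-! Gluings of pieces with 3 and 5 ends, 2 of them common: data. -/

noncomputable def bPX352 : BT := (.lf (nat_lit 0x3ff))

noncomputable def pGX352 : ℕ := (nat_lit 0)

noncomputable def bXR352 : BT := (.lf (nat_lit 0x41041))

noncomputable def bMM352 : BT := (.lf (nat_lit 0xc30410820c30420420c30420810c30810420c30810810c3082041))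

noncomputable def bAL352 : BT := (.lf (nat_lit 0x60000500004000030000200001))

noncomputable def bBL352 : BT := (.nd (.nd (.nd (.nd (.nd (.nd (.lf (nat_lit 0x17300129000df000950004b00001))
(.lf (nat_lit 0x9a00050)))
(.nd (.lf (nat_lit 0x131000e7))
(.lf (nat_lit 0))))
(.nd (.nd (.lf (nat_lit 0x960004c00002))
(.lf (nat_lit 0)))
(.lf (nat_lit 0))))
(.nd (.nd (.nd (.lf (nat_lit 0x132000e80009e00054))
(.lf (nat_lit 0)))
(.nd (.lf (nat_lit 0x12f000e5))
(.lf (nat_lit 0))))
(.nd (.nd (.lf (nat_lit 0))
(.lf (nat_lit 0)))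
(.lf (nat_lit 8)))))
(.nd (.nd (.nd (.nd (.lf (nat_lit 0x1770012d000e3))
(.lf (nat_lit 0x178)))
(.nd (.lf (nat_lit 7))
(.lf (nat_lit 0))))
(.nd (.nd (.lf (nat_lit 0))
(.lf (nat_lit 0x12b000e1000970004d)))
(.lf (nat_lit 0))))
(.nd (.nd (.nd (.lf (nat_lit 0x980004e00004))
(.lf (nat_lit 0)))
(.nd (.lf (nat_lit 0))
(.lf (nat_lit 0))))
(.nd (.nd (.lf (nat_lit 9))
(.lf (nat_lit 0)))
(.lf (nat_lit 0x17a))))))
(.nd (.nd (.nd (.nd (.nd (.lf (nat_lit 0x990004f00005))
(.lf (nat_lit 0x12e000e4)))
(.nd (.lf (nat_lit 0x17b))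
(.lf (nat_lit 0))))
(.nd (.nd (.lf (nat_lit 0x1740012a000e0))
(.lf (nat_lit 3)))
(.lf (nat_lit 0))))
(.nd (.nd (.nd (.lf (nat_lit 0x17c))
(.lf (nat_lit 0)))
(.nd (.lf (nat_lit 0x179))
(.lf (nat_lit 0))))
(.nd (.nd (.lf (nat_lit 0))
(.lf (nat_lit 0)))
(.lf (nat_lit 0x130000e60009c00052)))))
(.nd (.nd (.nd (.nd (.lf (nat_lit 0xa))
(.lf (nat_lit 0)))
(.nd (.lf (nat_lit 0x9b00051))
(.lf (nat_lit 0))))
(.nd (.nd (.lf (nat_lit 0))
(.lf (nat_lit 0x175)))
(.lf (nat_lit 0))))
(.nd (.nd (.nd (.lf (nat_lit 0x1760012c000e2))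
(.lf (nat_lit 0)))
(.nd (.lf (nat_lit 0))
(.lf (nat_lit 0))))
(.nd (.nd (.lf (nat_lit 0x9d00053))
(.lf (nat_lit 0)))
(.lf (nat_lit 6)))))))

noncomputable def bIW352 : BT := (.nd (.lf (nat_lit 0))
(.lf (nat_lit 2)))

noncomputable def bJI352 : BT := (.nd (.lf (nat_lit 0))
(.lf (nat_lit 0)))

noncomputable def bTI352 : BT := (.nd (.nd (.lf (nat_lit 0xa40000000000000000))
(.lf (nat_lit 0x2440000000000000000)))
(.lf (nat_lit 0x1670000000000000000)))

noncomputable def bti352 : BT := (.nd (.nd (.lf (nat_lit 0))
(.lf (nat_lit 0)))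
(.lf (nat_lit 1)))

noncomputable def btg352 : BT := (.nd (.nd (.lf (nat_lit 6))
(.lf (nat_lit 2)))
(.lf (nat_lit 4)))

noncomputable def bWT352 : BT := (.nd (.lf (nat_lit 0x1002002000000000000001001000000000000))
(.lf (nat_lit 0x1002002000000000000001001000000000000)))

/-- the data, without expansions -/
noncomputable def P352 : Sh where
  na := nat_lit 3
  nb := nat_lit 5
  nc := nat_lit 4
  r := nat_lit 1
  r' := nat_lit 3
  k := nat_lit 2
  Na := nat_lit 1
  Nb := nat_lit 56
  W := nat_lit 74
  κ := nat_lit 3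
  NX := nat_lit 1
  PX x := bPX352.get x
  gx p := Nat.mod (Nat.shiftRight pGX352 (Nat.mul (nat_lit 4) p)) (nat_lit 16)
  xr x := bXR352.get x
  mm x o := Nat.mod (Nat.shiftRight (bMM352.get x) (Nat.mul (nat_lit 36) o)) (nat_lit 68719476736)
  AL i := bAL352.get i
  NG := nat_lit 1
  κg := nat_lit 3
  BL g i := bBL352.get i
  NA := nat_lit 1
  RA q := rm31 q
  LA q := rl31 q
  NB := nat_lit 14
  RB q := rm53 q
  LB q := rl53 q
  NS := nat_lit 2
  iw σ := dw (bIW352.get σ)
  ji σ j := Nat.mod (Nat.shiftRight (bJI352.get σ) (Nat.mul (nat_lit 10) j)) (nat_lit 1024)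
  NTI := nat_lit 3
  TI u := bTI352.get u
  ti u := bti352.get u
  tg u := btg352.get u
  wt q σ q' := Nat.mod (Nat.shiftRight (bWT352.get (Nat.add (Nat.mul q (nat_lit 2)) σ))
    (Nat.mul (nat_lit 12) q')) (nat_lit 4096)
  EB _ := nat_lit 0

noncomputable def bEB352 : BT := (.nd (.nd (.nd (.nd (.lf (nat_lit 0xa400000000000000002900000000000000000a40000000000000000290000000000000000000000000000000ffff))
(.lf (nat_lit 0x29000000000000000002400000000000000000900000000000000001440000000000000000510000000000000000244000000000008ffff)))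
(.nd (.lf (nat_lit 0x1c000000000000000147000000000000000051c000000000000000027000000000000000009c000000000000000007000000000004ffff))
(.lf (nat_lit 0x1c000000000000000007000000000000000001c00000000000000007f00000000000000001fc00000000000000011f00000000000cffff))))
(.nd (.nd (.lf (nat_lit 0x2900000000000000000a400000000000000002900000000000000000a40000000000000000290000000000000000000000000000002ffff))
(.lf (nat_lit 0x1c000000000000000003000000000000000000c000000000000000051000000000000000014400000000000000021100000000000affff)))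
(.lf (nat_lit 0x20000000000000000008000000000000000011200000000000000004480000000000000000f6000000000006ffff))))
(.nd (.nd (.nd (.lf (nat_lit 0x29000000000000000000000000000000000000000000000000000000000000000000000000000000000000000000000000000000001ffff))
(.lf (nat_lit 0x29000000000000000002400000000000000000900000000000000001440000000000000000510000000000000000244000000000009ffff)))
(.nd (.lf (nat_lit 0x59c000000000000000167000000000000000059c000000000000000167000000000000000059c000000000000000167000000000005ffff))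
(.lf (nat_lit 0x1c000000000000000147000000000000000051c00000000000000007f00000000000000001fc0000000000000003ff00000000000dffff))))
(.nd (.nd (.lf (nat_lit 0x2900000000000000000a400000000000000002900000000000000000a400000000000000002900000000000000000a4000000000003ffff))
(.lf (nat_lit 0x1c000000000000000003000000000000000000c000000000000000051000000000000000014400000000000000021100000000000bffff)))
(.lf (nat_lit 0x29000000000000000016400000000000000005900000000000000001640000000000000000590000000000000000244000000000007ffff)))))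

/-- the data -/
noncomputable def S352 : Sh := { P352 with EB := fun q => bEB352.get q }

theorem cX352 : S352.cX T0 = true := by decide +kernel

theorem cA352 : S352.cA T0 = true := by decide +kernel

theorem cS352 : S352.cS T0 = true := by decide +kernel

theorem ct352_0 : ∀ u < 3, 0 ≤ u → S352.cT Y0 TL0 jt0 NP0 u = true := by decide +kernel

theorem cB352_0 : S352.cB T0 0 56 = true := by decide +kernel

theorem cE352_0_0 : S352.cE 0 0 14 = true := by decide +kernel

theorem cQ352_0 : S352.cQ 0 0 1 = true := by decide +kernel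

end Pool.Agent.T2h40.CW6
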