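import Pool.Agent.T2h40.CW6.R42
import Pool.Agent.T2h40.CW6.Pm

set_option autoImplicit false
set_option maxRecDepth 100000

namespace Pool.Agent.T2h40.CW6

/-! Gluings of pieces with 4 and 4 ends, 2 of them common: data. -/

noncomputable def bPX442 : BT := (.nd (.nd (.lf (nat_lit 7))
(.lf (nat_lit 0x380)))
(.lf (nat_lit 0x78)))

noncomputable def pGX442 : ℕ := (nat_lit 0x2221111000)

noncomputable def bXR442 : BT := (.nd (.nd (.lf (nat_lit 0xc30c3))
(.lf (nat_lit 0x820410c3)))
(.lf (nat_lit 0x20430c3)))

noncomputable def bMM442 : BT := (.nd (.nd (.lf (nat_lit 0xc30c30000c30c00c00c30c00030c30030c00c30030030c30000c30c00c30c00c00c30030c00c00c30c00030c30030c30c00030c30030030c00c30030030c30000c30c3))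
(.lf (nat_lit 0x410820c30420420c30420810c30810420c30810810c30820410c3)))
(.lf (nat_lit 0xc10830c00c10830030c10800c30c20430c00c20430030c20400c30010830c30020430c3)))

noncomputable def bAL442 : BT := (.nd (.nd (.nd (.nd (.lf (nat_lit 1))
(.lf (nat_lit 0x25000240002300022)))
(.lf (nat_lit 0x12)))
(.nd (.lf (nat_lit 0xf0000e0000d0000c0000b0000a))
(.lf (nat_lit 0x180001700016))))
(.nd (.nd (.nd (.lf (nat_lit 0x900008000070000600005000040000300002))
(.lf (nat_lit 0x26)))
(.lf (nat_lit 0x150001400013)))
(.nd (.lf (nat_lit 0x11))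
(.lf (nat_lit 0x21)))))

noncomputable def bBL442 : BT := (.nd (.nd (.nd (.nd (.lf (nat_lit 0x29d0004c00001))
(.lf (nat_lit 0x17b0013200130000e8000e7000e60009e0009d0009c000540005200009)))
(.lf (nat_lit 0x1780009b0004e00005)))
(.nd (.lf (nat_lit 0x40f0040e0040d003c4003c30037a003790032f002e50029b00253002520020900208001be0012b000e100003))
(.lf (nat_lit 0x20c0020a001c2001c0001760012f0012d000e5000e3000990005000007))))
(.nd (.nd (.nd (.lf (nat_lit 0x3c50037b0033100330002e7002e60029c0025100207001bf001bd0017500174001730012a00129000e0000df0009700096000950004d0004b00002))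
(.lf (nat_lit 0x17a001310000a)))
(.lf (nat_lit 0x20d0020b001c3001c1001770012e0012c000e4000e2000980005100006)))
(.nd (.lf (nat_lit 0x1790009a0004f00004))
(.lf (nat_lit 0x17c0005300008)))))

noncomputable def bIW442 : BT := (.nd (.lf (nat_lit 0))
(.lf (nat_lit 3)))

noncomputable def bJI442 : BT := (.nd (.lf (nat_lit 0x240801c060140400c0200400))
(.lf (nat_lit 0x1c0802405018030100200400)))

noncomputable def bTI442 : BT := (.nd (.nd (.lf (nat_lit 0x3800000000000000000))
(.lf (nat_lit 0x1670000000000000000)))
(.nd (.lf (nat_lit 0xa40000000000000000))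
(.lf (nat_lit 0x2440000000000000000))))

noncomputable def bti442 : BT := (.nd (.nd (.lf (nat_lit 0))
(.lf (nat_lit 1)))
(.nd (.lf (nat_lit 0))
(.lf (nat_lit 0))))

noncomputable def btg442 : BT := (.nd (.nd (.lf (nat_lit 0))
(.lf (nat_lit 4)))
(.nd (.lf (nat_lit 6))
(.lf (nat_lit 2))))

noncomputable def bWT442 : BT := (.nd (.nd (.nd (.lf (nat_lit 0x1002001))
(.lf (nat_lit 0)))
(.nd (.lf (nat_lit 0))
(.lf (nat_lit 0))))
(.nd (.nd (.lf (nat_lit 0x3002003))
(.lf (nat_lit 0)))
(.nd (.lf (nat_lit 0))
(.lf (nat_lit 0)))))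

/-- the data, without expansions -/
noncomputable def P442 : Sh where
  na := nat_lit 4
  nb := nat_lit 4
  nc := nat_lit 4
  r := nat_lit 2
  r' := nat_lit 2
  k := nat_lit 2
  Na := nat_lit 10
  Nb := nat_lit 10
  W := nat_lit 74
  κ := nat_lit 4
  NX := nat_lit 3
  PX x := bPX442.get x
  gx p := Nat.mod (Nat.shiftRight pGX442 (Nat.mul (nat_lit 4) p)) (nat_lit 16)
  xr x := bXR442.get x
  mm x o := Nat.mod (Nat.shiftRight (bMM442.get x) (Nat.mul (nat_lit 36) o)) (nat_lit 68719476736)
  AL i := bAL442.get i
  NG := nat_lit 1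
  κg := nat_lit 4
  BL g i := bBL442.get i
  NA := nat_lit 4
  RA q := rm42 q
  LA q := rl42 q
  NB := nat_lit 4
  RB q := rm42 q
  LB q := rl42 q
  NS := nat_lit 2
  iw σ := dw (bIW442.get σ)
  ji σ j := Nat.mod (Nat.shiftRight (bJI442.get σ) (Nat.mul (nat_lit 10) j)) (nat_lit 1024)
  NTI := nat_lit 4
  TI u := bTI442.get u
  ti u := bti442.get u
  tg u := btg442.get u
  wt q σ q' := Nat.mod (Nat.shiftRight (bWT442.get (Nat.add (Nat.mul q (nat_lit 2)) σ))
    (Nat.mul (nat_lit 12) q')) (nat_lit 4096)
  EB _ := nat_lit 0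

noncomputable def bEB442 : BT := (.nd (.nd (.lf (nat_lit 0x7000000000000000000c0000000000000000030000000000000000004000000000000000001000000000000000000400000000000000000600000000000000000b800000000000000002a000000000000000022000000000000000015400000000000000001500000000000000000100000000000000000080000000000000000244000000000000ffff))
(.lf (nat_lit 0x1000000000000000000000000000000000001e000000000000000007800000000000000006e00000000000000003f80000000000000000fe00000000000000003d80000000000000000ba8000000000000000371000000000002ffff)))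
(.nd (.lf (nat_lit 0x7000000000000000001c000000000000000007000000000000000001c000000000000000007000000000000000001c00000000000000000700000000000000001fc00000000000000007f000000000000000047c0000000000000002ff0000000000000000ffc00000000000000039f0000000000000000b9c000000000000000167000000000001ffff))
(.lf (nat_lit 0xe000000000000000003800000000000000000e000000000000000003800000000000000000e00000000000000000380000000000003ffff))))

/-- the data -/
noncomputable def S442 : Sh := { P442 with EB := fun q => bEB442.get q }

theorem cX442 : S442.cX T0 = true := by decide +kernel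

theorem cA442 : S442.cA T0 = true := by decide +kernel

theorem cS442 : S442.cS T0 = true := by decide +kernel

theorem ct442_0 : ∀ u < 4, 0 ≤ u → S442.cT Y0 TL0 jt0 NP0 u = true := by decide +kernel

theorem cB442_0 : S442.cB T0 0 10 = true := by decide +kernel

theorem cE442_0_0 : S442.cE 0 0 4 = true := by decide +kernel

theorem cQ442_0 : S442.cQ 1 0 4 = true := by decide +kernel

end Pool.Agent.T2h40.CW6
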