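import Pool.Agent.T2h40.CW6.Defs

/-!
# States of pieces

A state of a piece with `n` ends is given by six columns (numbers below `2 ^ n`): bit `p` of column
`i` tells whether end `p` is in the `i`-th class.  The columns are packed in one number, six bits
each.  The order of the columns does not matter; `kq` is an invariant which determines them up to
the order.
-/

set_option autoImplicit false

open Finset

namespace Pool.Agent.T2h40.CW6

open Pool.Agent.W420.BF (cut bd Tr Ord)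

/-! ### keys -/

/-- column `i` of the packed number `q` -/
def col (q i : ℕ) : ℕ := (q >>> (6 * i)) % 64

/-- the multiset of the columns, coded in base 8 -/
def kq (q : ℕ) : ℕ :=
  Nat.add (Nat.add (Nat.add (Nat.add (Nat.add
    (Nat.shiftLeft (nat_lit 1) (Nat.mul (nat_lit 3) (Nat.mod q (nat_lit 64))))
    (Nat.shiftLeft (nat_lit 1) (Nat.mul (nat_lit 3) (Nat.mod (Nat.shiftRight q (nat_lit 6)) (nat_lit 64)))))
    (Nat.shiftLeft (nat_lit 1) (Nat.mul (nat_lit 3) (Nat.mod (Nat.shiftRight q (nat_lit 12)) (nat_lit 64)))))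
    (Nat.shiftLeft (nat_lit 1) (Nat.mul (nat_lit 3) (Nat.mod (Nat.shiftRight q (nat_lit 18)) (nat_lit 64)))))
    (Nat.shiftLeft (nat_lit 1) (Nat.mul (nat_lit 3) (Nat.mod (Nat.shiftRight q (nat_lit 24)) (nat_lit 64)))))
    (Nat.shiftLeft (nat_lit 1) (Nat.mul (nat_lit 3) (Nat.mod (Nat.shiftRight q (nat_lit 30)) (nat_lit 64))))

theorem kq_eq (q : ℕ) : kq q = ∑ i : Fin 6, 8 ^ (col q i) := by
  have h : ∀ c : ℕ, Nat.shiftLeft 1 (Nat.mul 3 c) = 8 ^ c := by
    intro c
    show 1 <<< (3 * c) = 8 ^ c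
    rw [Nat.one_shiftLeft, pow_mul]
    norm_num
  rw [Fin.sum_univ_six]
  unfold kq
  simp only [h]
  rfl

theorem col_lt (q i : ℕ) : col q i < 64 := Nat.mod_lt _ (by norm_num)

theorem digits_unique (N : ℕ) : ∀ a b : ℕ → ℕ, (∀ v, a v < 8) → (∀ v, b v < 8) →
    ∑ v ∈ range N, a v * 8 ^ v = ∑ v ∈ range N, b v * 8 ^ v → ∀ v < N, a v = b v := by
  induction N with
  | zero => intro a b _ _ _ v hv; omega
  | succ N ih =>
    intro a b ha hb h v hv
    rw [sum_range_succ', sum_range_succ'] at h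
    have e : ∀ a : ℕ → ℕ, ∑ k ∈ range N, a (k + 1) * 8 ^ (k + 1) =
        8 * ∑ k ∈ range N, a (k + 1) * 8 ^ k := by
      intro a
      rw [mul_sum]
      refine sum_congr rfl fun k _ => ?_
      rw [pow_succ]; ring
    rw [e a, e b] at h
    simp only [pow_zero, mul_one] at h
    have h1 := ha 0
    have h2 := hb 0
    have h0 : a 0 = b 0 := by omega
    have h3 : ∑ k ∈ range N, a (k + 1) * 8 ^ k = ∑ k ∈ range N, b (k + 1) * 8 ^ k := by omega
    rcases v with _ | v
    · exact h0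
    · exact ih (fun k => a (k + 1)) (fun k => b (k + 1)) (fun k => ha _) (fun k => hb _) h3 v
        (by omega)

theorem sum_pow_fiber (f : Fin 6 → ℕ) (hf : ∀ i, f i < 64) :
    ∑ i, 8 ^ (f i) = ∑ v ∈ range 64, (univ.filter fun i => f i = v).card * 8 ^ v := by
  have h : ∀ i : Fin 6, i ∈ (univ : Finset (Fin 6)) → f i ∈ range 64 := fun i _ => mem_range.2 (hf i)
  rw [← sum_fiberwise_of_maps_to h]
  refine sum_congr rfl fun v _ => ?_
  rw [sum_congr rfl (g := fun _ => 8 ^ v) (fun i hi => by rw [(mem_filter.1 hi).2]), sum_const,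
    smul_eq_mul]

theorem exists_perm (f g : Fin 6 → ℕ) (hf : ∀ i, f i < 64) (hg : ∀ i, g i < 64)
    (h : ∑ i, 8 ^ (f i) = ∑ i, 8 ^ (g i)) : ∃ σ : Equiv.Perm (Fin 6), ∀ i, g (σ i) = f i := by
  rw [sum_pow_fiber f hf, sum_pow_fiber g hg] at h
  have hc : ∀ (f : Fin 6 → ℕ) (v : ℕ), (univ.filter fun i => f i = v).card < 8 := by
    intro f v
    have := card_le_univ (univ.filter fun i => f i = v)
    rw [Fintype.card_fin] at this
    omega
  have h2 := digits_unique 64 _ _ (hc f) (hc g) h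
  have h3 : ∀ v, (univ.filter fun i => f i = v).card = (univ.filter fun i => g i = v).card := by
    intro v
    by_cases hv : v < 64
    · exact h2 v hv
    · rw [filter_false_of_mem (fun i _ (h : f i = v) => hv (h ▸ hf i)),
        filter_false_of_mem (fun i _ (h : g i = v) => hv (h ▸ hg i))]
  have e : ∀ v, Nonempty ({i // f i = v} ≃ {i // g i = v}) := by
    intro v
    apply Fintype.card_eq.1
    rw [Fintype.card_subtype, Fintype.card_subtype, h3 v]
  exact ⟨Equiv.ofFiberEquiv fun v => (e v).some, fun i =>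
    Equiv.ofFiberEquiv_map (fun v => (e v).some) i⟩

theorem key_perm {q q' : ℕ} (h : kq q = kq q') :
    ∃ σ : Equiv.Perm (Fin 6), ∀ i : Fin 6, col q' (σ i) = col q i := by
  rw [kq_eq, kq_eq] at h
  exact exists_perm (fun i => col q i) (fun i => col q' i) (fun i => col_lt _ _)
    (fun i => col_lt _ _) h

/-! ### realised states -/

variable {V E : Type} [Fintype E]

/-- The piece `X` with ends `o 0, ..., o (n - 1)` has the state with the columns `b i`. -/
def Real (s t : E → V) (X : Set V) (n : ℕ) (o : ℕ → E) (b : Fin 6 → ℕ) : Prop :=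
  ∃ c, Cov s t X c ∧ ∀ p < n, ∀ i, c i (o p) = if (b i).testBit p = true then 1 else 0

theorem Cov.perm {s t : E → V} {X : Set V} {c : Fin 6 → E → ZMod 2} (h : Cov s t X c)
    (σ : Equiv.Perm (Fin 6)) : Cov s t X (fun i => c (σ i)) := by
  refine ⟨fun e => ?_, fun v hv i => h.2 v hv (σ i)⟩
  rw [← h.1 e]
  apply card_bij (fun i _ => σ i)
  · intro i hi
    simpa using hi
  · intro i _ j _ hij
    exact σ.injective hij
  · intro j hj
    refine ⟨σ.symm j, ?_, by simp⟩
    simpa using hj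

theorem Real.perm {s t : E → V} {X : Set V} {n : ℕ} {o : ℕ → E} {b : Fin 6 → ℕ}
    (h : Real s t X n o b) (σ : Equiv.Perm (Fin 6)) : Real s t X n o (fun i => b (σ i)) := by
  obtain ⟨c, h1, h2⟩ := h
  exact ⟨fun i => c (σ i), h1.perm σ, fun p hp i => h2 p hp (σ i)⟩

theorem Real.congr {s t : E → V} {X : Set V} {n : ℕ} {o : ℕ → E} {b b' : Fin 6 → ℕ}
    (h : Real s t X n o b) (hb : ∀ i, ∀ p < n, (b' i).testBit p = (b i).testBit p) :
    Real s t X n o b' := by
  obtain ⟨c, h1, h2⟩ := h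
  exact ⟨c, h1, fun p hp i => by rw [h2 p hp i, hb i p hp]⟩

/-- The piece has the state with the packed columns `q`. -/
def RQ (s t : E → V) (X : Set V) (n : ℕ) (o : ℕ → E) (q : ℕ) : Prop :=
  Real s t X n o (fun i => col q i)

theorem RQ.key {s t : E → V} {X : Set V} {n : ℕ} {o : ℕ → E} {q q' : ℕ}
    (h : RQ s t X n o q) (hk : kq q' = kq q) : RQ s t X n o q' := by
  obtain ⟨σ, hσ⟩ := key_perm hk
  have := Real.perm h σ
  refine this.congr fun i p _ => ?_
  show (col q' i).testBit p = (col q (σ i)).testBit p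
  rw [hσ]

/-! ### adjacent transpositions of the ends -/

/-- the transposition of `a` and `a + 1` -/
def sw (a p : ℕ) : ℕ := if p = a then a + 1 else if p = a + 1 then a else p

theorem sw_sw (a p : ℕ) : sw a (sw a p) = p := by
  unfold sw
  split_ifs <;> omega

theorem sw_lt {a p n : ℕ} (ha : a + 1 < n) (hp : p < n) : sw a p < n := by
  unfold sw
  split_ifs <;> omega

/-- exchange the bits `a` and `a + 1` of a number below 64 -/
def swc (a c : ℕ) : ℕ :=
  Nat.add (Nat.sub c (Nat.add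
      (Nat.shiftLeft (Nat.mod (Nat.shiftRight c a) (nat_lit 2)) a)
      (Nat.shiftLeft (Nat.mod (Nat.shiftRight c (Nat.succ a)) (nat_lit 2)) (Nat.succ a))))
    (Nat.add
      (Nat.shiftLeft (Nat.mod (Nat.shiftRight c (Nat.succ a)) (nat_lit 2)) a)
      (Nat.shiftLeft (Nat.mod (Nat.shiftRight c a) (nat_lit 2)) (Nat.succ a)))

theorem swc_spec : ∀ a < 5, ∀ c < 64, swc a c < 64 ∧
    ∀ p < 6, (swc a c).testBit (sw a p) = c.testBit p := by
  decide +kernel

/-- exchange the bits `a` and `a + 1` in each column -/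
def swq (a q : ℕ) : ℕ :=
  Nat.add (Nat.add (Nat.add (Nat.add (Nat.add
    (swc a (Nat.mod q (nat_lit 64)))
    (Nat.shiftLeft (swc a (Nat.mod (Nat.shiftRight q (nat_lit 6)) (nat_lit 64))) (nat_lit 6)))
    (Nat.shiftLeft (swc a (Nat.mod (Nat.shiftRight q (nat_lit 12)) (nat_lit 64))) (nat_lit 12)))
    (Nat.shiftLeft (swc a (Nat.mod (Nat.shiftRight q (nat_lit 18)) (nat_lit 64))) (nat_lit 18)))
    (Nat.shiftLeft (swc a (Nat.mod (Nat.shiftRight q (nat_lit 24)) (nat_lit 64))) (nat_lit 24)))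
    (Nat.shiftLeft (swc a (Nat.mod (Nat.shiftRight q (nat_lit 30)) (nat_lit 64))) (nat_lit 30))

theorem col_pack (f : ℕ → ℕ) (hf : ∀ i, f i < 64) (i : ℕ) (hi : i < 6) :
    col (f 0 + f 1 <<< 6 + f 2 <<< 12 + f 3 <<< 18 + f 4 <<< 24 + f 5 <<< 30) i = f i := by
  have h0 := hf 0
  have h1 := hf 1
  have h2 := hf 2
  have h3 := hf 3
  have h4 := hf 4
  have h5 := hf 5
  unfold col
  simp only [Nat.shiftLeft_eq, Nat.shiftRight_eq_div_pow]
  interval_cases i <;> norm_num <;> omega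

theorem swq_eq (a q : ℕ) : swq a q = (fun i => swc a (col q i)) 0 + (fun i => swc a (col q i)) 1 <<< 6 +
    (fun i => swc a (col q i)) 2 <<< 12 + (fun i => swc a (col q i)) 3 <<< 18 +
    (fun i => swc a (col q i)) 4 <<< 24 + (fun i => swc a (col q i)) 5 <<< 30 := rfl

theorem col_swq {a : ℕ} (ha : a < 5) (q : ℕ) {i : ℕ} (hi : i < 6) :
    col (swq a q) i = swc a (col q i) := by
  rw [swq_eq]
  exact col_pack (fun i => swc a (col q i)) (fun i => (swc_spec a ha _ (col_lt q i)).1) i hi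

theorem RQ.swap {s t : E → V} {X : Set V} {n : ℕ} {o : ℕ → E} {q a : ℕ} (hn : n ≤ 6)
    (ha : a + 1 < n) (h : RQ s t X n o (swq a q)) : RQ s t X n (o ∘ sw a) q := by
  obtain ⟨c, h1, h2⟩ := h
  refine ⟨c, h1, fun p hp i => ?_⟩
  show c i (o (sw a p)) = _
  rw [h2 (sw a p) (sw_lt ha hp) i]
  show (if (col (swq a q) i).testBit (sw a p) = true then (1 : ZMod 2) else 0) = _
  rw [col_swq (by omega) q i.2, (swc_spec a (by omega) _ (col_lt q i)).2 p (by omega)]

theorem Ord.swap {s t : E → V} {X : Set V} {n : ℕ} {o : ℕ → E} {a : ℕ} (ha : a + 1 < n)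
    (h : Ord s t X n o) : Ord s t X n (o ∘ sw a) := by
  refine ⟨fun i hi j hj hij => ?_, fun e => ?_⟩
  · have := h.1 _ (sw_lt ha hi) _ (sw_lt ha hj) hij
    rw [← sw_sw a i, this, sw_sw]
  · rw [h.2 e]
    constructor
    · rintro ⟨i, hi, rfl⟩
      exact ⟨sw a i, sw_lt ha hi, by simp [sw_sw]⟩
    · rintro ⟨i, hi, rfl⟩
      exact ⟨sw a i, sw_lt ha hi, rfl⟩

end Pool.Agent.T2h40.CW6
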