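import Pool.Agent.T2h40.CW6.Chk

/-!
# Checking gluings, arrangements and tables
-/

set_option autoImplicit false

open Finset

namespace Pool.Agent.T2h40.CW6

/-- data for the gluings with given numbers of ends -/
structure Sh where
  /-- numbers of ends of the two pieces and of the union -/
  na : ℕ
  nb : ℕ
  nc : ℕ
  /-- outer ends of the two pieces, and inner ends -/
  r : ℕ
  r' : ℕ
  k : ℕ
  /-- numbers of states -/
  Na : ℕ
  Nb : ℕ
  /-- width of a block; the lowest 64 bits of the numbers are not used (they make the hash values of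
  the numbers different) -/
  W : ℕ
  /-- logarithm of the number of inner parts -/
  κ : ℕ
  /-- classes of the first `r` ends -/
  NX : ℕ
  PX : ℕ → ℕ
  gx : ℕ → ℕ
  xr : ℕ → ℕ
  /-- inner parts -/
  mm : ℕ → ℕ → ℕ
  /-- positions of the states; those of the second piece are in `NG` groups of `2 ^ κg` blocks -/
  AL : ℕ → ℕ
  NG : ℕ
  κg : ℕ
  BL : ℕ → ℕ → ℕ
  /-- relations, as masks and as lists -/
  NA : ℕ
  RA : ℕ → ℕ
  LA : ℕ → ℕ
  NB : ℕ
  RB : ℕ → ℕ
  LB : ℕ → ℕ
  /-- inner permutations -/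
  NS : ℕ
  iw : ℕ → List ℕ
  ji : ℕ → ℕ → ℕ
  /-- targets -/
  NTI : ℕ
  TI : ℕ → ℕ
  ti : ℕ → ℕ
  tg : ℕ → ℕ
  wt : ℕ → ℕ → ℕ → ℕ
  /-- expansions of the second relations -/
  EB : ℕ → ℕ

/-- check of the classes -/
noncomputable def Sh.cX (S : Sh) (T : Tab) : Bool := allr S.NX fun x =>
  bi (Nat.beq (Nat.shiftRight (S.PX x) S.W) (nat_lit 0))
    (allm (fun p => bi (Nat.beq (S.gx p) x)
      (Nat.beq (lowq S.r (T.st S.nc p)) (lowq S.r (S.xr x))) false) (S.PX x) S.W) false

/-- code of class and inner part -/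
noncomputable def Sh.fA (S : Sh) (T : Tab) (i c : ℕ) : Bool :=
  fc (Nat.shiftRight c S.κ) fun x => fc (Nat.mod c (Nat.shiftLeft (nat_lit 1) S.κ)) fun o =>
    bi (Nat.ble (Nat.succ x) S.NX)
      (Nat.beq (kq (qx S.r S.k (S.xr x) (S.mm x o))) (kq (T.st S.na i))) false

/-- check of the positions of the states of the first piece -/
noncomputable def Sh.cA (S : Sh) (T : Tab) : Bool := allr S.Na fun i =>
  alld (S.fA T i) (nat_lit 1000) (S.AL i)

/-- position of a state of the second piece -/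
noncomputable def Sh.fB (S : Sh) (T : Tab) (g i c : ℕ) : Bool :=
  fc (Nat.mod c S.W) fun p => fc (Nat.add (Nat.shiftLeft g S.κg) (Nat.div c S.W)) fun o =>
      (Nat.beq (kq (qx S.r' S.k (Nat.shiftRight (T.st S.nc p) S.r) (S.mm (S.gx p) o)))
        (kq (T.st S.nb i)))

/-- check of the positions of the states of the second piece -/
noncomputable def Sh.cB (S : Sh) (T : Tab) (i₀ n : ℕ) : Bool := allr n fun d =>
  fc (Nat.add i₀ d) fun i => allr S.NG fun g => alld (S.fB T g i) (nat_lit 1000) (S.BL g i)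

/-- mask of a state of the first piece -/
noncomputable def Sh.MA (S : Sh) (i : ℕ) : ℕ :=
  accd (fun c => fc (Nat.shiftRight c S.κ) fun x => Nat.shiftLeft (S.PX x)
    (Nat.add (nat_lit 64) (Nat.mul S.W (Nat.mod c (Nat.shiftLeft (nat_lit 1) S.κ)))))
    (nat_lit 1000) (S.AL i) (nat_lit 0)

/-- mask of a state of the second piece, group `g` -/
noncomputable def Sh.MB (S : Sh) (g i : ℕ) : ℕ :=
  accd (fun c => Nat.shiftLeft (nat_lit 1) c) (nat_lit 1000) (S.BL g i) (nat_lit 0)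

/-- the state `i` after the inner permutation -/
noncomputable def Sh.js (S : Sh) (T : Tab) (σ i : ℕ) : ℕ := jwk T S.na (S.iw σ) i

/-- check of the inverse inner permutations -/
noncomputable def Sh.cS (S : Sh) (T : Tab) : Bool := allr S.NS fun σ => allr S.Na fun j =>
  fc (S.ji σ j) fun i => bi (Nat.ble (Nat.succ i) S.Na) (Nat.beq (S.js T σ i) j) false

/-- expansion of a first relation -/
noncomputable def Sh.EA (S : Sh) (q σ : ℕ) : ℕ :=
  accd (fun j => fc (S.ji σ j) fun i => S.MA i) (nat_lit 1000) (S.LA q)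
    (Nat.mod (Nat.add (nat_lit 0xffffffffffff0000) (Nat.add (Nat.mul q S.NS) σ))
      (nat_lit 18446744073709551616))

/-- expansion of a second relation, group `g` -/
noncomputable def Sh.EBf (S : Sh) (g q' : ℕ) : ℕ :=
  accd (fun i => S.MB g i) (nat_lit 1000) (S.LB q') (nat_lit 0)

/-- check of the expansions, group `g` -/
noncomputable def Sh.cE (S : Sh) (g q₀ n : ℕ) : Bool := allr n fun d =>
  fc (Nat.add q₀ d) fun q => fc (Nat.mul S.W (Nat.shiftLeft (nat_lit 1) S.κg)) fun w =>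
    Nat.beq (Nat.land (Nat.shiftRight (S.EB q) (Nat.add (nat_lit 64) (Nat.mul w g)))
      (Nat.sub (Nat.shiftLeft (nat_lit 1) w) (nat_lit 1))) (S.EBf g q)

/-- check of a target -/
noncomputable def Sh.cT (S : Sh) (Y : Ty) (TL : ℕ → ℕ → ℕ) (jt : ℕ → ℕ → ℕ → ℕ) (NP : ℕ → ℕ)
    (u : ℕ) : Bool :=
  bi (Nat.ble (Nat.succ (S.ti u)) (Y.NT S.nc)) (bi (Nat.ble (Nat.succ (S.tg u)) (NP S.nc))
    (alld (fun j => Nat.beq (bt (S.TI u) (Nat.add (nat_lit 64) (jt S.nc (S.tg u) j)))
      (nat_lit 1)) (nat_lit 1000)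
      (TL S.nc (S.ti u))) false) false

/-- check of a gluing -/
noncomputable def Sh.cI (S : Sh) (q σ q' : ℕ) : Bool :=
  fc (S.wt q σ q') fun u => bi (Nat.ble (Nat.succ u) S.NTI)
    (Nat.beq (Nat.land (hf S.W S.κ (Nat.land (S.EA q σ) (S.EB q'))) (S.TI u)) (S.TI u)) false

/-- check of the gluings of the first relations `q₀ + d`, `d < n`, with the second relations from
`m * (q₀ + d)` on -/
noncomputable def Sh.cQ (S : Sh) (m q₀ n : ℕ) : Bool := allr n fun d =>
  fc (Nat.add q₀ d) fun q => fc (Nat.mul m q) fun l => allr S.NS fun σ =>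
    allr (Nat.sub S.NB l) fun e => fc (Nat.add l e) fun q' => S.cI q σ q'

/-- `l` is the list of the elements of the mask `M`, all less than `n` -/
noncomputable def cML (n M l : ℕ) : Bool :=
  bi (Nat.beq M (accd (fun j => Nat.shiftLeft (nat_lit 1) j) (nat_lit 1000) l (nat_lit 0)))
    (alld (fun j => bi (Nat.ble (Nat.succ j) n) (Nat.beq (bt M j) (nat_lit 1)) false)
      (nat_lit 1000) l) false

theorem beq_nat {a b : ℕ} (h : Nat.beq a b = true) : a = b := by
  rwa [Nat.beq_eq] at h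

theorem ble_nat {a b : ℕ} (h : Nat.ble (Nat.succ a) b = true) : a < b := by
  have := Nat.le_of_ble_eq_true h
  omega

theorem jw_lt {T : Tab} (hT : T.OK) {n : ℕ} (hn : n ≤ 6) {j : ℕ} (hj : j < T.NO n) :
    ∀ w : List ℕ, WV n w → T.jw n w j < T.NO n := by
  intro w
  induction w with
  | nil => intro _; exact hj
  | cons a w ih =>
    intro hw
    exact (hT n hn a (hw a (by simp)) _ (ih (fun b hb => hw b (by simp [hb])))).1

theorem mask_list {f : ℕ → Bool} {n M l : ℕ} (h : cML n M l = true) (hf : alld f 1000 l = true)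
    {j : ℕ} (hj : M.testBit j = true) : f j = true := by
  unfold cML at h
  rw [bi_and] at h
  rw [beq_nat h.1] at hj
  rcases accd_spec hf hj with h1 | ⟨d, h1, h2⟩
  · simp at h1
  · have h3 : (1 <<< d).testBit j = true := h2
    rw [Nat.one_shiftLeft, Nat.testBit_two_pow, decide_eq_true_iff] at h3
    rw [← h3]; exact h1

/-- the permutations: `pp n g p` and `jt n g j` are the actions of permutation `g` -/
def PermOK (T : Tab) (n NP : ℕ) (pp jt : ℕ → ℕ → ℕ) : Prop := ∀ g < NP, ∃ w, WV n w ∧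
  (∀ p < n, pw w p = pp g p) ∧ ∀ j < T.NO n, T.jw n w j = jt g j

theorem salt_bit (a t p : ℕ) : ¬ (Nat.mod a 18446744073709551616).testBit
    (t + (64 + p)) = true := by
  have h : Nat.mod a 18446744073709551616 < 2 ^ 64 := Nat.mod_lt _ (by norm_num)
  rw [Nat.testBit_eq_false_of_lt (lt_of_lt_of_le h (Nat.pow_le_pow_right (by norm_num) (by omega)))]
  simp

theorem Sh.glue (S : Sh) (T : Tab) (Y : Ty) (TL : ℕ → ℕ → ℕ) (pp jt : ℕ → ℕ → ℕ → ℕ)
    (NP : ℕ → ℕ) (hna : S.na = S.r + S.k) (hnb : S.nb = S.r' + S.k)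
    (hnc : S.nc = S.r + S.r') (hNa : S.Na = T.NO S.na) (hNb : S.Nb = T.NO S.nb)
    (hW : T.NO S.nc ≤ S.W) (h6 : S.na ≤ 6) (h6' : S.nb ≤ 6) (h6'' : S.nc ≤ 6)
    (hT : T.OK) (hP : PermOK T S.nc (NP S.nc) (pp S.nc) (jt S.nc))
    (hY : ∀ i < Y.NT S.nc, cML (T.NO S.nc) (Y.tm S.nc i) (TL S.nc i) = true)
    (hLA : ∀ q < S.NA, cML S.Na (S.RA q) (S.LA q) = true)
    (hLB : ∀ q < S.NB, cML S.Nb (S.RB q) (S.LB q) = true)
    (cX : S.cX T = true) (cA : S.cA T = true) (cS : S.cS T = true)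
    (hG : S.NG * 2 ^ S.κg = 2 ^ S.κ)
    (cB : ∀ i < S.Nb, ∀ g < S.NG, alld (S.fB T g i) 1000 (S.BL g i) = true)
    (cE : ∀ q < S.NB, ∀ g < S.NG, (S.EB q >>> (64 + S.W * 2 ^ S.κg * g)) &&&
      (2 ^ (S.W * 2 ^ S.κg) - 1) = S.EBf g q)
    (cT : ∀ u < S.NTI, S.cT Y TL jt NP u = true)
    (q : ℕ) (hq : q < S.NA) (q' : ℕ) (hq' : q' < S.NB)
    (cI : ∀ σ < S.NS, S.cI q σ q' = true) :
    GlueOK T Y S.r S.r' S.k 1 (fun _ => S.RA q) 1 (fun _ => S.RB q') S.NS S.iw := by
  intro _ _ σ hσ _ _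
  have h1 : bi (Nat.ble (Nat.succ (S.wt q σ q')) S.NTI) (Nat.beq (Nat.land (hf S.W S.κ
    (Nat.land (S.EA q σ) (S.EB q'))) (S.TI (S.wt q σ q'))) (S.TI (S.wt q σ q'))) false = true :=
      cI σ hσ
  obtain ⟨u, hu0⟩ : ∃ u, S.wt q σ q' = u := ⟨_, rfl⟩
  rw [hu0] at h1
  have hu := h1
  rw [bi_and] at hu
  have hu1 := ble_nat hu.1
  have hu2 : hf S.W S.κ (Nat.land (S.EA q σ) (S.EB q')) &&& S.TI u = S.TI u := beq_nat hu.2
  have hc := cT u hu1
  unfold Sh.cT at hc
  rw [bi_and, bi_and] at hc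
  obtain ⟨hc1, hc2, hc3⟩ := hc
  obtain ⟨w, hw1, _, hw3⟩ := hP _ (ble_nat hc2)
  rw [hnc] at hc1 hw1
  refine ⟨S.ti u, ble_nat hc1, w, hw1, ?_⟩
  intro j hj hjm
  rw [← hnc] at hj hjm hc1 hw1 ⊢
  have hj1 := mask_list (hY _ (ble_nat hc1)) hc3 hjm
  rw [bt_eq, ← hw3 j hj] at hj1
  obtain ⟨p, hp⟩ : ∃ p, T.jw S.nc w j = p := ⟨_, rfl⟩
  rw [hp] at hj1 ⊢
  -- the target state is in the composite
  have h3 : (hf S.W S.κ (Nat.land (S.EA q σ) (S.EB q'))).testBit (64 + p) = true := by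
    have hj2 : (S.TI u).testBit (64 + p) = true := hj1
    rw [← hu2, Nat.testBit_and, Bool.and_eq_true] at hj2
    exact hj2.1
  obtain ⟨o, ho, h4⟩ := hf_spec S.W S.κ h3
  have h5 : ((S.EA q σ) &&& (S.EB q')).testBit (S.W * o + (64 + p)) = true := h4
  rw [Nat.testBit_and, Bool.and_eq_true] at h5
  -- p < W
  have hpW : p < S.W := by
    refine lt_of_lt_of_le ?_ hW
    rw [← hp]
    exact jw_lt hT h6'' hj _ hw1
  -- the first piece
  unfold Sh.EA at h5
  obtain ⟨h5, h6x⟩ := h5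
  have hLq := hLA q hq
  unfold cML at hLq
  rw [bi_and] at hLq
  rcases accd_spec hLq.2 h5 with h7 | ⟨jj, hjj, h8⟩
  · exact absurd h7 (salt_bit _ (S.W * o) p)
  rw [bi_and] at hjj
  obtain ⟨hjj1, hci⟩ := hjj
  have hjj1 := ble_nat hjj1
  rw [bt_eq] at hci
  have hSj := allr_spec (allr_spec cS σ hσ) jj hjj1
  have hSj' : bi (Nat.ble (Nat.succ (S.ji σ jj)) S.Na) (Nat.beq (S.js T σ (S.ji σ jj)) jj) false
    = true := hSj
  rw [bi_and] at hSj'
  have h8' : (S.MA (S.ji σ jj)).testBit (S.W * o + (64 + p)) = true := h8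
  obtain ⟨i, hi0⟩ : ∃ i, S.ji σ jj = i := ⟨_, rfl⟩
  rw [hi0] at h8' hSj'
  have hi := ble_nat hSj'.1
  rw [← beq_nat hSj'.2] at hci
  unfold Sh.MA at h8'
  unfold Sh.cA at cA
  have hAi := allr_spec cA i hi
  rcases accd_spec hAi h8' with h9 | ⟨c, hc4, hc5⟩
  · simp at h9
  have hc6 : bi (Nat.ble (Nat.succ (c >>> S.κ)) S.NX)
      (Nat.beq (kq (qx S.r S.k (S.xr (c >>> S.κ)) (S.mm (c >>> S.κ) (c % (1 <<< S.κ)))))
        (kq (T.st S.na i))) false = true := hc4
  rw [bi_and] at hc6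
  have hx := ble_nat hc6.1
  have hkA := beq_nat hc6.2
  have hc7 : (S.PX (c >>> S.κ) <<< (64 + S.W * (c % (1 <<< S.κ)))).testBit
    (S.W * o + (64 + p)) = true := hc5
  rw [Nat.testBit_shiftLeft, Bool.and_eq_true, decide_eq_true_iff] at hc7
  obtain ⟨hc8', hc9'⟩ := hc7
  have hc8 : S.W * (c % (1 <<< S.κ)) ≤ S.W * o + p := by
    have : 64 + S.W * (c % (1 <<< S.κ)) ≤ S.W * o + (64 + p) := hc8'
    omega
  have hc9 : (S.PX (c >>> S.κ)).testBit (S.W * o + p - S.W * (c % (1 <<< S.κ))) = true := by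
    rw [← hc9']
    congr 1
    omega
  have hXx := allr_spec cX (c >>> S.κ) hx
  rw [bi_and] at hXx
  have hb1 : S.W * o + p - S.W * (c % (1 <<< S.κ)) < S.W := by
    by_contra hge
    have hz : S.PX (c >>> S.κ) >>> S.W = 0 := beq_nat hXx.1
    have hz2 := congrArg (fun z => z.testBit (S.W * o + p - S.W * (c % (1 <<< S.κ)) - S.W)) hz
    simp only [Nat.testBit_shiftRight, Nat.zero_testBit] at hz2
    rw [show S.W + (S.W * o + p - S.W * (c % (1 <<< S.κ)) - S.W) =
      S.W * o + p - S.W * (c % (1 <<< S.κ)) by omega, hc9] at hz2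
    exact Bool.noConfusion hz2
  have hb := allm_spec hXx.2 _ hb1 hc9
  rw [bi_and] at hb
  obtain ⟨hb2, hb3⟩ := hb
  have hoo : c % (1 <<< S.κ) = o := by
    have h10 : S.W * (c % (1 <<< S.κ)) ≤ S.W * o + p := hc8
    have h11 : S.W * o + p - S.W * (c % (1 <<< S.κ)) < S.W := hb1
    have h12 : c % (1 <<< S.κ) ≤ o := by
      by_contra hgt
      have : S.W * (o + 1) ≤ S.W * (c % (1 <<< S.κ)) := Nat.mul_le_mul_left _ (by omega)
      rw [mul_add] at this
      omega
    have h13 : o ≤ c % (1 <<< S.κ) := by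
      by_contra hgt
      have : S.W * (c % (1 <<< S.κ) + 1) ≤ S.W * o := Nat.mul_le_mul_left _ (by omega)
      rw [mul_add] at this
      omega
    omega
  have hpp : S.W * o + p - S.W * (c % (1 <<< S.κ)) = p := by rw [hoo]; omega
  rw [hpp] at hb2 hb3
  have hgx := beq_nat hb2
  have hlow := beq_nat hb3
  rw [hoo, ← hgx] at hkA
  rw [← hgx] at hlow
  -- the second piece
  obtain ⟨g, hg⟩ : ∃ g, o / 2 ^ S.κg = g := ⟨_, rfl⟩
  obtain ⟨o', ho'⟩ : ∃ o', o % 2 ^ S.κg = o' := ⟨_, rfl⟩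
  have hpos : 0 < 2 ^ S.κg := by positivity
  have hog : o = 2 ^ S.κg * g + o' := by rw [← hg, ← ho']; exact (Nat.div_add_mod _ _).symm
  have ho'lt : o' < 2 ^ S.κg := by rw [← ho']; exact Nat.mod_lt _ hpos
  have hgN : g < S.NG := by
    rw [← hg]
    apply Nat.div_lt_of_lt_mul
    rw [mul_comm, hG]
    exact ho
  have hlt : S.W * o' + p < S.W * 2 ^ S.κg := by
    have : S.W * (o' + 1) ≤ S.W * 2 ^ S.κg := Nat.mul_le_mul_left _ ho'lt
    rw [mul_add] at this
    omega
  have h6y : (S.EBf g q').testBit (S.W * o' + p) = true := by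
    rw [← cE q' hq' g hgN, Nat.testBit_and, Nat.testBit_shiftRight, Nat.testBit_two_pow_sub_one,
      Bool.and_eq_true]
    refine ⟨?_, by rw [decide_eq_true_iff]; exact hlt⟩
    rw [← h6x, hog]
    congr 1
    ring
  unfold Sh.EBf at h6y
  have hLq' := hLB q' hq'
  unfold cML at hLq'
  rw [bi_and] at hLq'
  rcases accd_spec hLq'.2 h6y with h14 | ⟨i', hci', h15⟩
  · simp at h14
  rw [bi_and] at hci'
  obtain ⟨hi', hci'⟩ := hci'
  have hi' := ble_nat hi'
  rw [bt_eq] at hci'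
  unfold Sh.MB at h15
  have hBi := cB i' hi' g hgN
  rcases accd_spec hBi h15 with h16 | ⟨c', hc10, hc11⟩
  · simp at h16
  have hc12 : (1 <<< c').testBit (S.W * o' + p) = true := hc11
  rw [Nat.one_shiftLeft, Nat.testBit_two_pow, decide_eq_true_iff] at hc12
  have hmod : c' % S.W = p := by rw [hc12, Nat.mul_add_mod, Nat.mod_eq_of_lt hpW]
  have hdiv : g <<< S.κg + c' / S.W = o := by
    rw [hc12, Nat.mul_add_div (by omega), Nat.div_eq_of_lt hpW, add_zero, Nat.shiftLeft_eq, hog,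
      mul_comm g]
  have hc13 : Nat.beq (kq (qx S.r' S.k ((T.st S.nc (c' % S.W)) >>> S.r)
      (S.mm (S.gx (c' % S.W)) (g <<< S.κg + c' / S.W)))) (kq (T.st S.nb i')) = true := hc10
  rw [hmod, hdiv] at hc13
  have hkB := beq_nat hc13
  refine ⟨qx S.r S.k (S.xr (S.gx p)) (S.mm (S.gx p) o), qx S.r' S.k ((T.st S.nc p) >>> S.r)
    (S.mm (S.gx p) o), i, i', ?_, ?_, ?_, ?_, ?_, hci', ?_, ?_, ?_⟩
  · rw [← hna, ← hNa]; exact hi
  · rw [← hna]; exact hkA
  · rw [← hna]; unfold Sh.js at hci; rw [jwk_eq] at hci; exact hci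
  · rw [← hnb, ← hNb]; exact hi'
  · rw [← hnb]; exact hkB
  · intro c hc p' hp'
    rw [qx_bit (by omega) _ _ _ _ hc (by omega), if_pos hp', col_bit _ _ _ (by omega),
      col_bit _ _ _ (by omega)]
    have h17 : (lowq S.r (T.st S.nc p)).testBit (6 * c + p') =
        (lowq S.r (S.xr (S.gx p))).testBit (6 * c + p') := by rw [hlow]
    rw [lowq_bit (by omega), lowq_bit (by omega)] at h17
    have h18 : decide (6 * c + p' < 36 ∧ (6 * c + p') % 6 < S.r) = true := by
      rw [decide_eq_true_iff]; omega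
    rw [h18, Bool.and_true, Bool.and_true] at h17
    exact h17.symm
  · intro c hc p' hp'
    rw [qx_bit (by omega) _ _ _ _ hc (by omega), if_pos hp', col_bit _ _ _ (by omega),
      col_bit _ _ _ (by omega), Nat.testBit_shiftRight]
    congr 1
    omega
  · intro c hc p' hp'
    rw [qx_bit (by omega) _ _ _ _ hc (by omega), qx_bit (by omega) _ _ _ _ hc (by omega),
      if_neg (by omega), if_pos (by omega), if_neg (by omega), if_pos (by omega)]
    congr 1
    omega

theorem Sh.cQ_spec {S : Sh} {m q₀ n : ℕ} (h : S.cQ m q₀ n = true) : ∀ q, q₀ ≤ q → q < q₀ + n →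
    ∀ q' < S.NB, m * q ≤ q' → ∀ σ < S.NS, S.cI q σ q' = true := by
  intro q hq hqn q' hq' hm σ hσ
  have h1 := allr_spec h (q - q₀) (by omega)
  have h2 : allr S.NS (fun σ => allr (Nat.sub S.NB (Nat.mul m (Nat.add q₀ (q - q₀)))) fun e =>
    S.cI (Nat.add q₀ (q - q₀)) σ (Nat.add (Nat.mul m (Nat.add q₀ (q - q₀))) e)) = true := h1
  have e1 : Nat.add q₀ (q - q₀) = q := by show q₀ + (q - q₀) = q; omega
  rw [e1] at h2
  have h3 := allr_spec (allr_spec h2 σ hσ) (q' - m * q) (by show _ < S.NB - m * q; omega)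
  have e2 : Nat.add (Nat.mul m q) (q' - m * q) = q' := by show m * q + (q' - m * q) = q'; omega
  rw [e2] at h3
  exact h3

theorem Sh.cB_spec {S : Sh} {T : Tab} {i₀ n : ℕ} (h : S.cB T i₀ n = true) : ∀ i, i₀ ≤ i →
    i < i₀ + n → ∀ g < S.NG, alld (S.fB T g i) 1000 (S.BL g i) = true := by
  intro i hi hin g hg
  have h1 := allr_spec h (i - i₀) (by omega)
  have h2 : allr S.NG (fun g => alld (S.fB T g (Nat.add i₀ (i - i₀))) 1000
    (S.BL g (Nat.add i₀ (i - i₀)))) = true := h1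
  have e1 : Nat.add i₀ (i - i₀) = i := by show i₀ + (i - i₀) = i; omega
  rw [e1] at h2
  exact allr_spec h2 g hg

theorem Sh.cE_spec {S : Sh} {g q₀ n : ℕ} (h : S.cE g q₀ n = true) : ∀ q, q₀ ≤ q →
    q < q₀ + n → (S.EB q >>> (64 + S.W * 2 ^ S.κg * g)) &&& (2 ^ (S.W * 2 ^ S.κg) - 1) =
      S.EBf g q := by
  intro i hi hin
  have h1 := allr_spec h (i - q₀) (by omega)
  have h2 : Nat.beq ((S.EB (Nat.add q₀ (i - q₀))) >>> (64 + (S.W * (1 <<< S.κg)) * g) &&&
    ((1 <<< (S.W * (1 <<< S.κg))) - 1)) (S.EBf g (Nat.add q₀ (i - q₀))) = true := h1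
  have e1 : Nat.add q₀ (i - q₀) = i := by show q₀ + (i - q₀) = i; omega
  rw [e1, Nat.one_shiftLeft, Nat.one_shiftLeft] at h2
  exact beq_nat h2

/-! ### arrangements -/

/-- entry of an arrangement table: the set `s`, the permutation `g`, the relation `q` -/
noncomputable def cArr (Y : Ty) (n r NR : ℕ) (rl : ℕ → ℕ) (NP : ℕ) (pp jt : ℕ → ℕ → ℕ)
    (i s g q : ℕ) : Bool :=
  bi (Nat.ble (Nat.succ g) NP) (bi (Nat.ble (Nat.succ q) NR)
    (bi (allr n fun p => bi (Nat.ble (Nat.succ p) r) (Nat.beq (bt s (pp g p)) (nat_lit 1))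
      (Nat.beq (bt s (pp g p)) (nat_lit 0)))
      (alld (fun j => Nat.beq (bt (Y.tm n i) (jt g j)) (nat_lit 1)) (nat_lit 1000) (rl q))
      false) false) false

/-- check of the entries for the type `i`: entry `i * m + e` is for the set `ss e` -/
noncomputable def cArrs (Y : Ty) (n r NR : ℕ) (rl : ℕ → ℕ) (NP : ℕ) (pp jt : ℕ → ℕ → ℕ) (m : ℕ)
    (ss : ℕ → ℕ) (ag aq : ℕ → ℕ) (i₀ c : ℕ) : Bool :=
  allr c fun d => fc (Nat.add i₀ d) fun i =>
  allr m fun e => fc (Nat.add (Nat.mul i m) e) fun ie =>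
    fc (ss e) fun s => fc (ag ie) fun g => fc (aq ie) fun q => cArr Y n r NR rl NP pp jt i s g q

theorem arr_ok (T : Tab) (Y : Ty) (n r NR : ℕ) (rm rl : ℕ → ℕ) (NP : ℕ) (pp jt : ℕ → ℕ → ℕ)
    (m : ℕ) (ss : ℕ → ℕ) (ag aq : ℕ → ℕ) (hP : PermOK T n NP pp jt)
    (hL : ∀ q < NR, cML (T.NO n) (rm q) (rl q) = true)
    (h : ∀ i < Y.NT n, ∃ i₀ c, i₀ ≤ i ∧ i < i₀ + c ∧
      cArrs Y n r NR rl NP pp jt m ss ag aq i₀ c = true)
    (hs : ∀ S < 2 ^ n, ((range n).filter fun p => S.testBit p = true).card = r →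
      ∃ e < m, ss e = S) : ArrOK T Y n r NR rm := by
  intro i hi S hS hr
  obtain ⟨e, he, hse⟩ := hs S hS hr
  obtain ⟨i₀, c, hi0, hic, hch⟩ := h i hi
  have h1 := allr_spec (allr_spec hch (i - i₀) (by omega)) e he
  have h2 : cArr Y n r NR rl NP pp jt (Nat.add i₀ (i - i₀)) (ss e)
    (ag (Nat.add i₀ (i - i₀) * m + e)) (aq (Nat.add i₀ (i - i₀) * m + e)) = true := h1
  have e1 : Nat.add i₀ (i - i₀) = i := by show i₀ + (i - i₀) = i; omega
  rw [e1] at h2
  unfold cArr at h2
  rw [bi_and, bi_and, bi_and, hse] at h2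
  obtain ⟨h3, h4, h5, h6⟩ := h2
  obtain ⟨w, hw1, hw2, hw3⟩ := hP _ (ble_nat h3)
  refine ⟨w, aq (i * m + e), hw1, ble_nat h4, fun p hp => ?_, fun j hjn hj => ?_⟩
  · have h7 := allr_spec h5 p hp
    rw [← hw2 p hp] at h7
    by_cases hpr : p < r
    · have h8 : Nat.ble (Nat.succ p) r = true := Nat.ble_eq_true_of_le hpr
      rw [h8, bi_true, bt_eq] at h7
      rw [h7]; simp [hpr]
    · have h8 : Nat.ble (Nat.succ p) r = false := by
        rw [← Bool.not_eq_true]
        intro h9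
        exact hpr (ble_nat h9)
      rw [h8, bi_false] at h7
      have h9 := beq_nat h7
      have h10 : ¬ S.testBit (pw w p) = true := by
        rw [← bt_eq, h9]
        decide
      rw [Bool.not_eq_true] at h10
      rw [h10]; simp [hpr]
  · have h7 := mask_list (hL _ (ble_nat h4)) h6 hj
    rw [bt_eq, ← hw3 j hjn] at h7
    exact h7

/-! ### permutations -/

/-- check of permutation `g`: it is the parent `pg g` followed by the letter `pa g` -/
noncomputable def cPerm (T : Tab) (n : ℕ) (pg pa : ℕ → ℕ) (pp jt : ℕ → ℕ → ℕ) (g₀ c : ℕ) : Bool :=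
  allr c fun d => fc (Nat.add g₀ d) fun g => bi (Nat.beq g (nat_lit 0))
    (bi (allr n fun p => Nat.beq (pp g p) p) (allr (T.NO n) fun j => Nat.beq (jt g j) j) false)
    (fc (pg g) fun h => fc (pa g) fun a => bi (Nat.ble (Nat.succ h) g)
      (bi (Nat.ble (Nat.succ (Nat.succ a)) n) (bi (allr n fun p => Nat.beq (pp g p)
        (fc (pp h p) fun x => bi (Nat.beq x a) (Nat.succ a) (bi (Nat.beq x (Nat.succ a)) a x)))
        (allr (T.NO n) fun j => Nat.beq (jt g j) (T.ac n a (jt h j))) false) false) false)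

theorem perm_ok (T : Tab) (n NP : ℕ) (pg pa : ℕ → ℕ) (pp jt : ℕ → ℕ → ℕ)
    (h : ∀ g < NP, ∃ g₀ c, g₀ ≤ g ∧ g < g₀ + c ∧ cPerm T n pg pa pp jt g₀ c = true) :
    PermOK T n NP pp jt := by
  intro g
  induction g using Nat.strong_induction_on with
  | _ g ih =>
    intro hg
    obtain ⟨g₀, c, h1, h2, h3⟩ := h g hg
    have h4 := allr_spec h3 (g - g₀) (by omega)
    have e1 : Nat.add g₀ (g - g₀) = g := by show g₀ + (g - g₀) = g; omega
    rw [fc_eq, e1] at h4
    by_cases hg0 : g = 0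
    · have hb : Nat.beq g (nat_lit 0) = true := by rw [Nat.beq_eq]; exact hg0
      rw [hb, bi_true, bi_and] at h4
      refine ⟨[], fun a ha => by simp at ha, fun p hp => ?_, fun j hj => ?_⟩
      · exact (beq_nat (allr_spec h4.1 p hp)).symm
      · exact (beq_nat (allr_spec h4.2 j hj)).symm
    · have hb : Nat.beq g (nat_lit 0) = false := by
        rw [← Bool.not_eq_true, Nat.beq_eq]; exact hg0
      rw [hb, bi_false] at h4
      have h5 : bi (Nat.ble (Nat.succ (pg g)) g)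
        (bi (Nat.ble (Nat.succ (Nat.succ (pa g))) n) (bi (allr n fun p => Nat.beq (pp g p)
          (bi (Nat.beq (pp (pg g) p) (pa g)) (Nat.succ (pa g))
            (bi (Nat.beq (pp (pg g) p) (Nat.succ (pa g))) (pa g) (pp (pg g) p))))
        (allr (T.NO n) fun j => Nat.beq (jt g j) (T.ac n (pa g) (jt (pg g) j))) false) false) false
          = true := h4
      rw [bi_and, bi_and, bi_and] at h5
      obtain ⟨h6, h7, h8, h9⟩ := h5
      have h6 := ble_nat h6
      have h7 := Nat.le_of_ble_eq_true h7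
      obtain ⟨w, hw1, hw2, hw3⟩ := ih _ h6 (by omega)
      refine ⟨pa g :: w, fun b hb => ?_, fun p hp => ?_, fun j hj => ?_⟩
      · rcases List.mem_cons.1 hb with rfl | hb
        · omega
        · exact hw1 b hb
      · have h10 := beq_nat (allr_spec h8 p hp)
        rw [h10, ← hw2 p hp]
        show sw (pa g) (pw w p) = _
        unfold sw
        by_cases h1 : pw w p = pa g
        · rw [if_pos h1, h1]
          have : Nat.beq (pa g) (pa g) = true := by rw [Nat.beq_eq]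
          rw [this]; rfl
        · have h2 : Nat.beq (pw w p) (pa g) = false := by
            rw [← Bool.not_eq_true, Nat.beq_eq]; exact h1
          rw [if_neg h1, h2, bi_false]
          by_cases h3 : pw w p = pa g + 1
          · have h4 : Nat.beq (pw w p) (Nat.succ (pa g)) = true := by rw [Nat.beq_eq]; exact h3
            rw [if_pos h3, h4, bi_true]
          · have h4 : Nat.beq (pw w p) (Nat.succ (pa g)) = false := by
              rw [← Bool.not_eq_true, Nat.beq_eq]; exact h3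
            rw [if_neg h3, h4, bi_false]
      · have h10 := beq_nat (allr_spec h9 j hj)
        rw [h10, ← hw3 j hj]
        rfl

/-! ### the tables -/

/-- check of `Tab.OK` for `n` ends -/
noncomputable def cTab (T : Tab) (n : ℕ) : Bool :=
  allr n fun a => bi (Nat.ble (Nat.succ (Nat.succ a)) n)
    (allr (T.NO n) fun j => fc (T.ac n a j) fun j' => bi (Nat.ble (Nat.succ j') (T.NO n))
      (Nat.beq (kq (swq a (T.st n j))) (kq (T.st n j'))) false) true

theorem tab_ok (T : Tab) (h : ∀ n ≤ 6, cTab T n = true) : T.OK := by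
  intro n hn a ha j hj
  have h1 := allr_spec (h n hn) a (by omega)
  have h2 : Nat.ble (Nat.succ (Nat.succ a)) n = true := Nat.ble_eq_true_of_le (by omega)
  rw [h2, bi_true] at h1
  have h3 := allr_spec h1 j hj
  have h4 : bi (Nat.ble (Nat.succ (T.ac n a j)) (T.NO n))
      (Nat.beq (kq (swq a (T.st n j))) (kq (T.st n (T.ac n a j)))) false = true := h3
  rw [bi_and] at h4
  exact ⟨ble_nat h4.1, beq_nat h4.2⟩

/-- number of ones among the bits `p, p + 6, ..., p + 30` -/
def rowc (q p : ℕ) : ℕ :=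
  Nat.add (Nat.add (Nat.add (Nat.add (Nat.add (bt q p) (bt q (Nat.add p (nat_lit 6))))
    (bt q (Nat.add p (nat_lit 12)))) (bt q (Nat.add p (nat_lit 18))))
    (bt q (Nat.add p (nat_lit 24)))) (bt q (Nat.add p (nat_lit 30)))

/-- number of ones among the first `n` bits of column `i` -/
def colc (n q i : ℕ) : ℕ := Nat.rec (motive := fun _ => ℕ) (nat_lit 0)
  (fun p ih => Nat.add ih (bt q (Nat.add (Nat.mul (nat_lit 6) i) p))) n

/-- check of `StOK` -/
noncomputable def cSt (T : Tab) (n : ℕ) : Bool := allr (T.NO n) fun j =>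
  bi (allr n fun p => Nat.beq (rowc (T.st n j) p) (nat_lit 4))
    (allr (nat_lit 6) fun i => Nat.beq (Nat.mod (colc n (T.st n j) i) (nat_lit 2)) (nat_lit 0)) false

theorem bt_if (V i : ℕ) : bt V i = if V.testBit i = true then 1 else 0 := by
  have h := bt_eq V i
  by_cases hb : V.testBit i = true
  · rw [if_pos hb]; exact beq_nat (h.2 hb)
  · rw [if_neg hb]
    have h1 : bt V i < 2 := Nat.mod_lt _ (by norm_num)
    have h2 : bt V i ≠ 1 := fun h3 => hb (h.1 (by rw [h3]; rfl))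
    omega

theorem st_ok (T : Tab) (n : ℕ) (hn : n ≤ 6) (h : cSt T n = true) : StOK T n := by
  intro j hj
  have h1 := allr_spec h j hj
  rw [bi_and] at h1
  obtain ⟨h2, h3⟩ := h1
  refine ⟨fun p hp => ?_, fun i hi => ?_⟩
  · have h4 := beq_nat (allr_spec h2 p hp)
    refine Eq.trans ?_ h4
    rw [card_filter, Fin.sum_univ_six]
    simp only [col_bit _ _ _ (show p < 6 by omega)]
    unfold rowc
    simp only [bt_if]
    show _ = (((((if (T.st n j).testBit p = true then 1 else 0) + (if (T.st n j).testBit (p + 6) = true then 1 else 0))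
      + (if (T.st n j).testBit (p + 12) = true then 1 else 0)) + (if (T.st n j).testBit (p + 18) = true then 1 else 0))
      + (if (T.st n j).testBit (p + 24) = true then 1 else 0)) + (if (T.st n j).testBit (p + 30) = true then 1 else 0)
    congr 1
    · congr 1
      · congr 1
        · congr 1
          · congr 1
            · simp
            · simp [add_comm]
          · simp [add_comm]
        · simp [add_comm]
      · simp [add_comm]
    · simp [add_comm]
  · have h4 := beq_nat (allr_spec h3 i hi)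
    rw [Nat.even_iff]
    have h5 : ∀ m ≤ n, colc m (T.st n j) i =
        ((range m).filter fun p => (col (T.st n j) i).testBit p = true).card := by
      intro m
      induction m with
      | zero => intro _; rfl
      | succ m ih =>
        intro hm
        rw [card_filter, sum_range_succ, ← card_filter, ← ih (by omega)]
        show colc m (T.st n j) i + bt (T.st n j) (6 * i + m) = _
        rw [bt_if, col_bit _ _ _ (by omega)]
    rw [← h5 n le_rfl]
    exact h4

end Pool.Agent.T2h40.CW6
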