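import Pool.Agent.T2h40.CW6.Defs

/-!
# Lemmas on abstract cut functions (helper59)
-/

set_option autoImplicit false

namespace Pool.Agent.T2h40.CW6

section

variable {V : Type} (S : Sys V)

theorem Sys.add' {X Y Z : Set V} (h1 : Disjoint X Y) (h2 : Disjoint X Z) (h3 : Disjoint Y Z) :
    S.e Z (X ∪ Y) = S.e Z X + S.e Z Y := by
  rw [S.symm Z, S.add X Y Z h1 h2 h3, S.symm X, S.symm Y]

theorem Sys.four {Z : Set V} (hZ : Z ⊆ S.U) {a b x y : V} (ha : a ∈ Z) (hb : b ∈ Z) (hab : a ≠ b)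
    (hx : x ∈ S.U) (hxZ : x ∉ Z) (hy : y ∈ S.U) (hyZ : y ∉ Z) (hxy : x ≠ y) : 4 ≤ S.d Z := by
  have h3 := S.three Z hZ ⟨a, ha⟩ ⟨x, hx, hxZ⟩
  rcases Nat.lt_or_ge (S.d Z) 4 with h | h
  · exfalso
    have h4 : S.d Z = 3 := by omega
    rcases S.triv Z hZ h4 with ⟨v, hv⟩ | ⟨v, hv⟩
    · rw [hv] at ha hb
      exact hab (Set.mem_singleton_iff.1 ha |>.trans (Set.mem_singleton_iff.1 hb).symm)
    · have h5 : x ∈ S.U \ Z := ⟨hx, hxZ⟩
      have h6 : y ∈ S.U \ Z := ⟨hy, hyZ⟩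
      rw [hv] at h5 h6
      exact hxy (Set.mem_singleton_iff.1 h5 |>.trans (Set.mem_singleton_iff.1 h6).symm)
  · exact h

/-- a set with three edges in its cut which has two elements of `U` outside is a point -/
theorem Sys.point {Z : Set V} (hZ : Z ⊆ S.U) (hd : S.d Z = 3) {x y : V}
    (hx : x ∈ S.U) (hxZ : x ∉ Z) (hy : y ∈ S.U) (hyZ : y ∉ Z) (hxy : x ≠ y) : ∃ v, Z = {v} := by
  rcases S.triv Z hZ hd with h | ⟨v, hv⟩
  · exact h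
  · exfalso
    have h5 : x ∈ S.U \ Z := ⟨hx, hxZ⟩
    have h6 : y ∈ S.U \ Z := ⟨hy, hyZ⟩
    rw [hv] at h5 h6
    exact hxy (Set.mem_singleton_iff.1 h5 |>.trans (Set.mem_singleton_iff.1 h6).symm)

theorem Sys.not_conn {A : Set V} (hA : A ⊆ S.U) (hd : S.d A ≤ 6) {x y : V}
    (hx : x ∈ S.U) (hxA : x ∉ A) (hy : y ∈ S.U) (hyA : y ∉ A) (hxy : x ≠ y) (hn : ¬ S.Conn A) :
    ∃ u u' : V, u ≠ u' ∧ A = {u} ∪ {u'} ∧ S.d {u} = 3 ∧ S.d {u'} = 3 ∧ S.e {u} {u'} = 0 ∧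
      S.d A = 6 := by
  unfold Sys.Conn at hn
  push Not at hn
  obtain ⟨A1, A2, hdis, ⟨a1, ha1⟩, ⟨a2, ha2⟩, hun, he⟩ := hn
  have h1 : A1 ⊆ A := by rw [← hun]; exact Set.subset_union_left
  have h2 : A2 ⊆ A := by rw [← hun]; exact Set.subset_union_right
  have hx1 : x ∉ A1 := fun h => hxA (h1 h)
  have hx2 : x ∉ A2 := fun h => hxA (h2 h)
  have hy1 : y ∉ A1 := fun h => hyA (h1 h)
  have hy2 : y ∉ A2 := fun h => hyA (h2 h)
  have hd1 := S.three A1 (h1.trans hA) ⟨a1, ha1⟩ ⟨x, hx, hx1⟩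
  have hd2 := S.three A2 (h2.trans hA) ⟨a2, ha2⟩ ⟨x, hx, hx2⟩
  have hdun := S.dun A1 A2 hdis
  rw [hun] at hdun
  have e0 : S.e A1 A2 = 0 := by omega
  have d1 : S.d A1 = 3 := by omega
  have d2 : S.d A2 = 3 := by omega
  obtain ⟨u, rfl⟩ := S.point (h1.trans hA) d1 hx hx1 hy hy1 hxy
  obtain ⟨u', rfl⟩ := S.point (h2.trans hA) d2 hx hx2 hy hy2 hxy
  refine ⟨u, u', ?_, hun.symm, d1, d2, e0, by omega⟩
  rintro rfl
  exact Set.disjoint_left.1 hdis rfl rfl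

theorem Sys.conn_of_le {A : Set V} (hA : A ⊆ S.U) (hd : S.d A ≤ 5) {x : V}
    (hx : x ∈ S.U) (hxA : x ∉ A) : S.Conn A := by
  rintro A1 A2 hdis ⟨a1, ha1⟩ ⟨a2, ha2⟩ hun
  have h1 : A1 ⊆ A := by rw [← hun]; exact Set.subset_union_left
  have h2 : A2 ⊆ A := by rw [← hun]; exact Set.subset_union_right
  have hd1 := S.three A1 (h1.trans hA) ⟨a1, ha1⟩ ⟨x, hx, fun h => hxA (h1 h)⟩
  have hd2 := S.three A2 (h2.trans hA) ⟨a2, ha2⟩ ⟨x, hx, fun h => hxA (h2 h)⟩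
  have hdun := S.dun A1 A2 hdis
  rw [hun] at hdun
  omega

theorem Sys.d_compl {A : Set V} (hA : A ⊆ S.U) : S.d (S.U \ A) = S.d A := by
  have h1 := S.dun A (S.U \ A) Set.disjoint_sdiff_right
  rw [Set.union_sdiff_cancel hA, S.dU, S.dcomp A hA] at h1
  omega

end

section

variable {V : Type} {S : Sys V} {H : Set V → Prop} {C : Prop}

/-- points -/
theorem cl_leaf (hy : Hyp S H C) {v : V} (hv : v ∈ S.U) : Cl S H {v} := fun _ _ => hy.leaf v hv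

/-- adding a set of two points without an edge -/
theorem step2 (hyp : Hyp S H C) {R : Set V} {w w' x : V} (hw : w ∈ S.U) (hw' : w' ∈ S.U)
    (hne : w ≠ w') (hR : R ⊆ S.U) (hRn : R.Nonempty) (hwR : w ∉ R) (hw'R : w' ∉ R) (hx : x ∈ S.U)
    (hxR : x ∉ R) (hxw : x ≠ w) (hxw' : x ≠ w') (hdw : S.d {w} = 3) (hdw' : S.d {w'} = 3)
    (he : S.e {w} {w'} = 0) (hdR : S.d R ≤ 6) (hHR : H R) (hk : S.e {w'} R ≤ S.e {w} R)
    (hk' : 1 ≤ S.e {w'} R) (hd4 : 4 ≤ S.d (({w} ∪ {w'}) ∪ R)) (hd6 : S.d (({w} ∪ {w'}) ∪ R) ≤ 6) :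
    H (({w} ∪ {w'}) ∪ R) := by
  have dw : Disjoint ({w} : Set V) {w'} := Set.disjoint_singleton.2 hne
  have dwR : Disjoint ({w} : Set V) R := Set.disjoint_singleton_left.2 hwR
  have dw'R : Disjoint ({w'} : Set V) R := Set.disjoint_singleton_left.2 hw'R
  have dRw := dwR.symm
  have dRw' := dw'R.symm
  have h1 := S.dun R {w} dRw
  rw [S.symm R {w}] at h1
  have h2 := S.dun ({w} ∪ {w'}) R (Set.disjoint_union_left.2 ⟨dwR, dw'R⟩)
  have h3 := S.dun {w} {w'} dw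
  have h4 := S.add {w} {w'} R dw dwR dw'R
  have hsub : R ∪ {w} ⊆ S.U := Set.union_subset hR (Set.singleton_subset_iff.2 hw)
  obtain ⟨r, hr⟩ := hRn
  have h5 : 4 ≤ S.d (R ∪ {w}) := by
    refine S.four hsub (a := r) (b := w) (Or.inl hr) (Or.inr rfl) (fun h => hwR (h ▸ hr)) hw' ?_ hx ?_
      hxw'.symm
    · rintro (h | h)
      · exact hw'R h
      · exact hne (Set.mem_singleton_iff.1 h).symm
    · rintro (h | h)
      · exact hxR h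
      · exact hxw h
  have hHw : H (R ∪ {w}) := by
    refine hyp.join R {w} hR (Set.singleton_subset_iff.2 hw) dRw ⟨r, hr⟩ ⟨w, rfl⟩ hHR
      (hyp.leaf w hw) hdR (by omega) ?_ h5 (by omega)
    rw [S.symm]
    omega
  have hun : (R ∪ {w}) ∪ {w'} = ({w} ∪ {w'}) ∪ R := by
    rw [Set.union_assoc, Set.union_comm]
  rw [← hun]
  refine hyp.join (R ∪ {w}) {w'} hsub (Set.singleton_subset_iff.2 hw')
    (Set.disjoint_union_left.2 ⟨dRw', dw⟩) ⟨r, Or.inl hr⟩ ⟨w', rfl⟩ hHw (hyp.leaf w' hw')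
    (by omega) (by omega) ?_ (by rw [hun]; exact hd4) (by rw [hun]; exact hd6)
  rw [S.add R {w} {w'} dRw dRw' dw, S.symm R {w'}]
  omega

end

end Pool.Agent.T2h40.CW6
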